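import Pool.Agent.TII.E3

/-!
# [TII-E3s] the sizes of the windows
-/

set_option autoImplicit false

namespace Pool.Agent.TII

open Finset

theorem E3s_llo_le_lhi (X M N H B : ℕ) (hs : Esz X M N H B) (i1 i2 e : ℕ) (h1 : i1 ∈ Icc B (2 * B))
    (h2 : i2 ∈ Icc B (2 * B)) (_he : e ∈ Icc B (2 * B)) :
    llo X M N H B i1 i2 e ≤ lhi X M N H B i1 i2 e := by
  have hB := hs.hB
  have hH := hs.hH
  have hBH := hs.hBH
  have hX := hs.hX
  rw [Finset.mem_Icc] at h1 h2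
  have hBpos : 0 < B := by omega
  have hBH1 : 1 ≤ B * H := Nat.one_le_iff_ne_zero.mpr (Nat.mul_ne_zero (by omega) (by omega))
  have hNpos : 0 < N := by
    have : 100 * B * H = 100 * (B * H) := by ring
    omega
  have hXpos : 0 < X := by omega
  have hXr : (0 : ℝ) < X := by exact_mod_cast hXpos
  have hi1 : (0 : ℝ) < i1 := by exact_mod_cast (by omega : 0 < i1)
  have hi2 : (0 : ℝ) < i2 := by exact_mod_cast (by omega : 0 < i2)
  have hM0 : (0 : ℝ) ≤ M := Nat.cast_nonneg _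
  have hN0 : (0 : ℝ) ≤ N := Nat.cast_nonneg _
  have he0 : (0 : ℝ) ≤ e := Nat.cast_nonneg _
  have hHB0 : (0 : ℝ) ≤ (H : ℝ) * B := by positivity
  unfold llo lhi
  apply div_le_div₀
  · positivity
  · have a1 : (M : ℝ) * (e * N) ≤ (M : ℝ) * ((e + 1) * N) := by
      apply mul_le_mul_of_nonneg_left _ hM0
      nlinarith
    calc (M : ℝ) * (e * N) * (e * N - H * B) ≤ (M : ℝ) * (e * N) * ((e + 1) * N + H * B) := by
          apply mul_le_mul_of_nonneg_left _ (by positivity)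
          nlinarith
      _ ≤ (M : ℝ) * ((e + 1) * N) * ((e + 1) * N + H * B) := by
          apply mul_le_mul_of_nonneg_right a1 (by positivity)
  · positivity
  · apply mul_le_mul_of_nonneg_right _ (by positivity)
    nlinarith

/-- [E3d] `Wm ⊆ Wp`, the size of the difference, the range -/
theorem windows_size (X M N H B : ℕ) (hs : Esz X M N H B) (i1 i2 e : ℕ) (h1 : i1 ∈ Icc B (2 * B)) (h2 : i2 ∈ Icc B (2 * B))
    (he : e ∈ Icc B (2 * B)) :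
    Wm X M N H B i1 i2 e ⊆ Wp X M N H B i1 i2 e ∧
      (((Wp X M N H B i1 i2 e \ Wm X M N H B i1 i2 e).card : ℕ) : ℝ) ≤ 60 * N / B + 38 * H ∧
      ∀ t ∈ Wp X M N H B i1 i2 e, |t| ≤ 9 * N := by
  have hle := E3s_llo_le_lhi X M N H B hs i1 i2 e h1 h2 he
  obtain ⟨hlo0, hhi, hdiff⟩ := lhi_le X M N H B hs i1 i2 e h1 h2 he
  have hB := hs.hB
  have hH := hs.hH
  have hBH := hs.hBH
  have hHr : (1 : ℝ) ≤ H := by exact_mod_cast hH
  have hNH : 10000 * H ≤ N := by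
    calc 10000 * H = 100 * 100 * H := by ring
      _ ≤ 100 * B * H := by
        apply Nat.mul_le_mul_right
        apply Nat.mul_le_mul_left
        exact hB
      _ ≤ N := hBH
  have hNHr : (10000 : ℝ) * H ≤ N := by exact_mod_cast hNH
  generalize hlo_def : llo X M N H B i1 i2 e = lo at *
  generalize hhi_def : lhi X M N H B i1 i2 e = hi at *
  have eWm : Wm X M N H B i1 i2 e = Finset.Ioc ⌊hi + H⌋ ⌊2 * lo - H - 1⌋ := by
    unfold Wm; rw [hlo_def, hhi_def]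
  have eWp : Wp X M N H B i1 i2 e = Finset.Ioc ⌊lo - H - 1⌋ ⌊2 * hi + H⌋ := by
    unfold Wp; rw [hlo_def, hhi_def]
  rw [eWm, eWp]
  have c1 : ⌊lo - H - 1⌋ ≤ ⌊hi + H⌋ := Int.floor_mono (by linarith)
  have c2 : ⌊2 * lo - H - 1⌋ ≤ ⌊2 * hi + H⌋ := Int.floor_mono (by linarith)
  refine ⟨Finset.Ioc_subset_Ioc c1 c2, ?_, ?_⟩
  · have hsub : Finset.Ioc ⌊lo - H - 1⌋ ⌊2 * hi + H⌋ \ Finset.Ioc ⌊hi + H⌋ ⌊2 * lo - H - 1⌋ ⊆
        Finset.Ioc ⌊lo - H - 1⌋ ⌊hi + H⌋ ∪ Finset.Ioc ⌊2 * lo - H - 1⌋ ⌊2 * hi + H⌋ := by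
      intro t ht
      rw [Finset.mem_sdiff, Finset.mem_Ioc, Finset.mem_Ioc] at ht
      rw [Finset.mem_union, Finset.mem_Ioc, Finset.mem_Ioc]
      omega
    have hcard : (Finset.Ioc ⌊lo - H - 1⌋ ⌊2 * hi + H⌋ \ Finset.Ioc ⌊hi + H⌋ ⌊2 * lo - H - 1⌋).card ≤
        (⌊hi + H⌋ - ⌊lo - H - 1⌋).toNat + (⌊2 * hi + H⌋ - ⌊2 * lo - H - 1⌋).toNat := by
      calc _ ≤ _ := Finset.card_le_card hsub
        _ ≤ _ := Finset.card_union_le _ _
        _ = _ := by rw [Int.card_Ioc, Int.card_Ioc]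
    have hcardr : (((Finset.Ioc ⌊lo - H - 1⌋ ⌊2 * hi + H⌋ \ Finset.Ioc ⌊hi + H⌋ ⌊2 * lo - H - 1⌋).card : ℕ) : ℝ) ≤
        ((⌊hi + H⌋ - ⌊lo - H - 1⌋ : ℤ) : ℝ) + ((⌊2 * hi + H⌋ - ⌊2 * lo - H - 1⌋ : ℤ) : ℝ) := by
      have h3 : ((Finset.Ioc ⌊lo - H - 1⌋ ⌊2 * hi + H⌋ \ Finset.Ioc ⌊hi + H⌋ ⌊2 * lo - H - 1⌋).card : ℤ) ≤
          (⌊hi + H⌋ - ⌊lo - H - 1⌋) + (⌊2 * hi + H⌋ - ⌊2 * lo - H - 1⌋) := by
        have := hcard
        have t1 : ((⌊hi + H⌋ - ⌊lo - H - 1⌋).toNat : ℤ) = ⌊hi + H⌋ - ⌊lo - H - 1⌋ := Int.toNat_of_nonneg (by omega)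
        have t2 : ((⌊2 * hi + H⌋ - ⌊2 * lo - H - 1⌋).toNat : ℤ) = ⌊2 * hi + H⌋ - ⌊2 * lo - H - 1⌋ :=
          Int.toNat_of_nonneg (by omega)
        calc ((Finset.Ioc ⌊lo - H - 1⌋ ⌊2 * hi + H⌋ \ Finset.Ioc ⌊hi + H⌋ ⌊2 * lo - H - 1⌋).card : ℤ)
            ≤ (((⌊hi + H⌋ - ⌊lo - H - 1⌋).toNat + (⌊2 * hi + H⌋ - ⌊2 * lo - H - 1⌋).toNat : ℕ) : ℤ) := by
              exact_mod_cast this
          _ = _ := by rw [Nat.cast_add, t1, t2]
      exact_mod_cast h3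
    refine hcardr.trans ?_
    push_cast
    have f1 := Int.floor_le (hi + H)
    have f2 := Int.lt_floor_add_one (lo - H - 1)
    have f3 := Int.floor_le (2 * hi + H)
    have f4 := Int.lt_floor_add_one (2 * lo - H - 1)
    have f5 : 60 * (N : ℝ) / B = 3 * (20 * N / B) := by ring
    rw [f5]
    linarith
  · intro t ht
    rw [Finset.mem_Ioc] at ht
    obtain ⟨ht1, ht2⟩ := ht
    have g1 : lo - H - 1 < (t : ℝ) := Int.floor_lt.mp ht1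
    have g2 : (t : ℝ) ≤ 2 * hi + H := Int.le_floor.mp ht2
    have g3 : |(t : ℝ)| ≤ 9 * N := by
      rw [abs_le]
      constructor <;> linarith
    exact_mod_cast g3

end Pool.Agent.TII
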