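import Pool.Agent.TII.E1
import Pool.Agent.TII.E4a

/-!
# [TII-D1] the dispersion method: definitions and the diagonal terms
-/

set_option autoImplicit false

namespace Pool.Agent.TII

open Finset

/-- the primes in `(X, 2 X]` -/
def prs (X : ℕ) : Finset ℕ := (Ioc X (2 * X)).filter Nat.Prime

/-- the indicator of `p ∣ m n - 1` minus `1 / p` -/
noncomputable def dd (p m n : ℕ) : ℝ := (if (p : ℤ) ∣ (m : ℤ) * n - 1 then 1 else 0) - 1 / p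

/-- the bilinear sum for the modulus `p` -/
noncomputable def ES (N M : ℕ) (α β : ℕ → ℝ) (p : ℕ) : ℝ :=
  ∑ m ∈ Ioc M (2 * M), ∑ n ∈ Ioc N (2 * N), α m * β n * dd p m n

/-- [D1a] the number of `m ∈ (M, 2 M]` with `q ∣ m n - 1` is `M/q + O(1)` for `n` prime to `q` -/
theorem count_m (M q n : ℕ) (hq : 1 ≤ q) (h : Nat.Coprime n q) :
    |((((Ioc M (2 * M)).filter fun m : ℕ => (q : ℤ) ∣ (m : ℤ) * n - 1).card : ℕ) : ℝ) - (M : ℝ) / q| ≤ 1 := by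
  obtain ⟨v, hv⟩ : ∃ v : ℤ, (q : ℤ) ∣ v * n - 1 := by
    have hb := Nat.gcd_eq_gcd_ab n q
    rw [h] at hb
    refine ⟨Nat.gcdA n q, -Nat.gcdB n q, ?_⟩
    push_cast at hb
    linear_combination -hb
  have hq0 : (0 : ℤ) < q := by exact_mod_cast hq
  have hcop : IsCoprime (q : ℤ) n := (Nat.isCoprime_iff_coprime.2 h).symm
  have hiff : ∀ m : ℤ, (q : ℤ) ∣ m * n - 1 ↔ m ≡ v [ZMOD q] := by
    intro m
    rw [Int.modEq_comm, Int.modEq_iff_dvd]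
    constructor
    · intro h1
      have h2 : (q : ℤ) ∣ n * (m - v) := by
        have := dvd_sub h1 hv
        have e : m * n - 1 - (v * n - 1) = n * (m - v) := by ring
        rwa [e] at this
      exact hcop.dvd_of_dvd_mul_left h2
    · intro h1
      have e : m * n - 1 = (m - v) * n + (v * n - 1) := by ring
      rw [e]
      exact dvd_add (h1.mul_right _) hv
  have hcard : (((Ioc M (2 * M)).filter fun m : ℕ => (q : ℤ) ∣ (m : ℤ) * n - 1).card : ℤ) =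
      max (⌊((((2 * M : ℕ) : ℤ) : ℚ) - (v : ℚ)) / ((q : ℤ) : ℚ)⌋ -
        ⌊(((M : ℤ) : ℚ) - (v : ℚ)) / ((q : ℤ) : ℚ)⌋) 0 := by
    have h1 := Int.Ioc_filter_modEq_card (M : ℤ) ((2 * M : ℕ) : ℤ) hq0 v
    rw [← h1]
    congr 1
    refine Finset.card_bij (fun m _ => (m : ℤ)) ?_ ?_ ?_
    · intro m hm
      rw [mem_filter, mem_Ioc] at hm ⊢
      refine ⟨⟨by exact_mod_cast hm.1.1, by exact_mod_cast hm.1.2⟩, (hiff _).1 hm.2⟩
    · intro m _ m' _ h2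
      exact_mod_cast h2
    · intro m hm
      rw [mem_filter, mem_Ioc] at hm
      have hm0 : 0 ≤ m := le_trans (by positivity) hm.1.1.le
      obtain ⟨k, rfl⟩ := Int.eq_ofNat_of_zero_le hm0
      refine ⟨k, ?_, rfl⟩
      rw [mem_filter, mem_Ioc]
      exact ⟨⟨by exact_mod_cast hm.1.1, by exact_mod_cast hm.1.2⟩, (hiff _).2 hm.2⟩
  set c := ((Ioc M (2 * M)).filter fun m : ℕ => (q : ℤ) ∣ (m : ℤ) * n - 1).card with hc
  set A : ℤ := ⌊((((2 * M : ℕ) : ℤ) : ℚ) - (v : ℚ)) / ((q : ℤ) : ℚ)⌋ with hA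
  set B : ℤ := ⌊(((M : ℤ) : ℚ) - (v : ℚ)) / ((q : ℤ) : ℚ)⌋ with hB
  have hA1 := Int.floor_le (((((2 * M : ℕ) : ℤ) : ℚ) - (v : ℚ)) / ((q : ℤ) : ℚ))
  have hA2 := Int.lt_floor_add_one (((((2 * M : ℕ) : ℤ) : ℚ) - (v : ℚ)) / ((q : ℤ) : ℚ))
  have hB1 := Int.floor_le ((((M : ℤ) : ℚ) - (v : ℚ)) / ((q : ℤ) : ℚ))
  have hB2 := Int.lt_floor_add_one ((((M : ℤ) : ℚ) - (v : ℚ)) / ((q : ℤ) : ℚ))
  rw [← hA] at hA1 hA2
  rw [← hB] at hB1 hB2
  have hdiff : ((((2 * M : ℕ) : ℤ) : ℚ) - (v : ℚ)) / ((q : ℤ) : ℚ) -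
      (((M : ℤ) : ℚ) - (v : ℚ)) / ((q : ℤ) : ℚ) = (M : ℚ) / q := by
    push_cast
    ring
  have hcQ : (c : ℚ) = max ((A : ℚ) - B) 0 := by
    have h1 : ((c : ℤ) : ℚ) = ((max (A - B) 0 : ℤ) : ℚ) := by rw [hcard]
    push_cast at h1
    exact h1
  have hMq : (0 : ℚ) ≤ (M : ℚ) / q := by positivity
  have hfin : |(c : ℚ) - (M : ℚ) / q| ≤ 1 := by
    rw [hcQ, abs_le]
    constructor
    · have := le_max_left ((A : ℚ) - B) 0
      linarith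
    · have : max ((A : ℚ) - B) 0 ≤ (M : ℚ) / q + 1 := max_le (by linarith) (by linarith)
      linarith
  have hR : ((|(c : ℚ) - (M : ℚ) / q| : ℚ) : ℝ) ≤ ((1 : ℚ) : ℝ) := by exact_mod_cast hfin
  push_cast at hR
  exact hR

end Pool.Agent.TII
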