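import Pool.Agent.TII.D2a

/-!
# [TII-D2] the dispersion estimate
-/

set_option autoImplicit false

namespace Pool.Agent.TII

open Finset

/-- a double sum over a class as a sum over pairs -/
theorem D2_pairs (N H : ℕ) (f : ℕ → ℕ → ℝ) :
    ∑ n1 ∈ Ioc N (2 * N), ∑ n2 ∈ (Ioc N (2 * N)).filter (fun n2 => n2 / (H + 1) = n1 / (H + 1)),
      f n1 n2 = ∑ q ∈ (Ioc N (2 * N) ×ˢ Ioc N (2 * N)).filter
        (fun q => q.2 / (H + 1) = q.1 / (H + 1)), f q.1 q.2 := by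
  rw [sum_filter, sum_product]
  apply sum_congr rfl
  intro n1 _
  rw [sum_filter]

theorem D2_card (N H : ℕ) (hH : 1 ≤ H) (s : Finset (ℕ × ℕ))
    (hs : s ⊆ (Ioc N (2 * N) ×ˢ Ioc N (2 * N)).filter (fun q => q.2 / (H + 1) = q.1 / (H + 1))) :
    (s.card : ℝ) ≤ 2 * N * H := by
  have h1 : s.card ≤ (Ioc N (2 * N) ×ˢ range (H + 1)).card := by
    apply card_le_card_of_injOn (fun q : ℕ × ℕ => (q.1, q.2 % (H + 1)))
    · intro q hq
      have h2 := hs hq
      rw [mem_filter, mem_product] at h2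
      have : q.2 % (H + 1) < H + 1 := Nat.mod_lt _ (by omega)
      simp only [coe_product, Set.mem_prod, mem_coe, mem_range]
      exact ⟨h2.1.1, this⟩
    · intro q hq q' hq' h
      have h2 := (mem_filter.mp (hs hq)).2
      have h3 := (mem_filter.mp (hs hq')).2
      have h4 : q.1 = q'.1 := (Prod.mk.inj h).1
      have h5 : q.2 % (H + 1) = q'.2 % (H + 1) := (Prod.mk.inj h).2
      have h6 : q.2 / (H + 1) = q'.2 / (H + 1) := by rw [h2, h3, h4]
      have h7 : q.2 = q'.2 := by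
        rw [← Nat.div_add_mod q.2 (H + 1), ← Nat.div_add_mod q'.2 (H + 1), h5, h6]
      exact Prod.ext h4 h7
  rw [card_product, Nat.card_Ioc, card_range] at h1
  have h2 : s.card ≤ N * (H + 1) := by
    have : 2 * N - N = N := by omega
    rwa [this] at h1
  have h3 : N * (H + 1) ≤ 2 * N * H := by nlinarith
  exact_mod_cast le_trans h2 h3

theorem D2_card_prs (X : ℕ) : ((prs X).card : ℝ) ≤ X := by
  have h1 : (prs X).card ≤ (Ioc X (2 * X)).card := card_filter_le _ _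
  rw [Nat.card_Ioc] at h1
  have : (prs X).card ≤ X := by omega
  exact_mod_cast this

/-- the product of the two sums over primes, minus the main terms -/
theorem D2_err (X M : ℕ) (hX : 5 ≤ X) (hXM : X ≤ M) (c : ℕ → ℝ) (hc : ∀ p, |c p| ≤ 1)
    (n1 n2 : ℕ) (hn1 : 1 ≤ n1 ∧ n1 ≤ X) (hn2 : 1 ≤ n2 ∧ n2 ≤ X) (hne : n1 ≠ n2) :
    |∑ m ∈ Ioc M (2 * M), (∑ p ∈ prs X, c p * dd p m n1) * (∑ p ∈ prs X, c p * dd p m n2) -
      ∑ v ∈ (prs X ×ˢ prs X).filter (fun v => v.1 ≠ v.2), c v.1 * c v.2 *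
        ((cc M v.1 v.2 n1 n2 : ℝ) - (M : ℝ) / (v.1 * v.2))| ≤ 5 * M / X + 3 * X := by
  have hX0 : (0 : ℝ) < X := by exact_mod_cast (by omega : 0 < X)
  have e1 : ∑ m ∈ Ioc M (2 * M), (∑ p ∈ prs X, c p * dd p m n1) *
      (∑ p ∈ prs X, c p * dd p m n2) =
      ∑ v ∈ prs X ×ˢ prs X, c v.1 * c v.2 *
        ∑ m ∈ Ioc M (2 * M), dd v.1 m n1 * dd v.2 m n2 := by
    rw [sum_product]
    simp_rw [sum_mul_sum, mul_sum]
    rw [sum_comm]
    apply sum_congr rfl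
    intro p _
    rw [sum_comm]
    apply sum_congr rfl
    intro p' _
    apply sum_congr rfl
    intro m _
    ring
  rw [e1, ← sum_filter_add_sum_filter_not (prs X ×ˢ prs X) (fun v => v.1 ≠ v.2),
    add_sub_right_comm, ← sum_sub_distrib]
  have b1 : |∑ v ∈ (prs X ×ˢ prs X).filter (fun v => v.1 ≠ v.2),
      (c v.1 * c v.2 * ∑ m ∈ Ioc M (2 * M), dd v.1 m n1 * dd v.2 m n2 -
        c v.1 * c v.2 * ((cc M v.1 v.2 n1 n2 : ℝ) - (M : ℝ) / (v.1 * v.2)))| ≤ 3 * X := by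
    refine le_trans (abs_sum_le_sum_abs _ _) ?_
    have h1 : ∀ v ∈ (prs X ×ˢ prs X).filter (fun v => v.1 ≠ v.2),
        |c v.1 * c v.2 * ∑ m ∈ Ioc M (2 * M), dd v.1 m n1 * dd v.2 m n2 -
          c v.1 * c v.2 * ((cc M v.1 v.2 n1 n2 : ℝ) - (M : ℝ) / (v.1 * v.2))| ≤ 3 / X := by
      intro v hv
      rw [mem_filter, mem_product] at hv
      rw [← mul_sub, abs_mul, abs_mul]
      have h2 := corr_ne X M v.1 v.2 n1 n2 hv.1.1 hv.1.2 hn1 hn2
      have h3 : |c v.1| * |c v.2| ≤ 1 := mul_le_one₀ (hc _) (abs_nonneg _) (hc _)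
      calc |c v.1| * |c v.2| * |∑ m ∈ Ioc M (2 * M), dd v.1 m n1 * dd v.2 m n2 -
            ((cc M v.1 v.2 n1 n2 : ℝ) - (M : ℝ) / (v.1 * v.2))|
          ≤ 1 * (3 / X) := mul_le_mul h3 h2 (abs_nonneg _) zero_le_one
        _ = 3 / X := one_mul _
    refine le_trans (sum_le_card_nsmul _ _ _ h1) ?_
    rw [nsmul_eq_mul]
    have h4 : ((((prs X ×ˢ prs X).filter (fun v => v.1 ≠ v.2)).card : ℕ) : ℝ) ≤ X * X := by
      have h5 : ((((prs X ×ˢ prs X).filter (fun v => v.1 ≠ v.2)).card : ℕ) : ℝ) ≤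
          ((prs X ×ˢ prs X).card : ℝ) := by exact_mod_cast card_filter_le _ _
      refine le_trans h5 ?_
      rw [card_product, Nat.cast_mul]
      exact mul_le_mul (D2_card_prs X) (D2_card_prs X) (Nat.cast_nonneg _) hX0.le
    calc ((((prs X ×ˢ prs X).filter (fun v => v.1 ≠ v.2)).card : ℕ) : ℝ) * (3 / X)
        ≤ X * X * (3 / X) := mul_le_mul_of_nonneg_right h4 (by positivity)
      _ = 3 * X := by field_simp
  have b2 : |∑ v ∈ (prs X ×ˢ prs X).filter (fun v => ¬ v.1 ≠ v.2),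
      c v.1 * c v.2 * ∑ m ∈ Ioc M (2 * M), dd v.1 m n1 * dd v.2 m n2| ≤ 5 * M / X := by
    refine le_trans (abs_sum_le_sum_abs _ _) ?_
    have h1 : ∀ v ∈ (prs X ×ˢ prs X).filter (fun v => ¬ v.1 ≠ v.2),
        |c v.1 * c v.2 * ∑ m ∈ Ioc M (2 * M), dd v.1 m n1 * dd v.2 m n2| ≤
          5 * M / (X : ℝ) ^ 2 := by
      intro v hv
      rw [mem_filter, mem_product, not_not] at hv
      rw [abs_mul, abs_mul]
      have h2 := corr_eq X M v.1 n1 n2 hv.1.1 hn1 hn2 hne hXM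
      have h3 : |c v.1| * |c v.2| ≤ 1 := mul_le_one₀ (hc _) (abs_nonneg _) (hc _)
      rw [← hv.2] at h3 ⊢
      calc |c v.1| * |c v.1| * |∑ m ∈ Ioc M (2 * M), dd v.1 m n1 * dd v.1 m n2|
          ≤ 1 * (5 * M / (X : ℝ) ^ 2) := mul_le_mul h3 h2 (abs_nonneg _) zero_le_one
        _ = 5 * M / (X : ℝ) ^ 2 := one_mul _
    refine le_trans (sum_le_card_nsmul _ _ _ h1) ?_
    rw [nsmul_eq_mul]
    have h4 : ((((prs X ×ˢ prs X).filter (fun v => ¬ v.1 ≠ v.2)).card : ℕ) : ℝ) ≤ X := by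
      have h5 : ((prs X ×ˢ prs X).filter (fun v => ¬ v.1 ≠ v.2)).card ≤ (prs X).card := by
        apply card_le_card_of_injOn Prod.fst
        · intro v hv
          exact (mem_product.mp (mem_filter.mp hv).1).1
        · intro v hv v' hv' h
          have h6 := (mem_filter.mp hv).2
          have h7 := (mem_filter.mp hv').2
          rw [not_not] at h6 h7
          exact Prod.ext h (by rw [← h6, ← h7]; exact h)
      exact le_trans (by exact_mod_cast h5) (D2_card_prs X)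
    calc ((((prs X ×ˢ prs X).filter (fun v => ¬ v.1 ≠ v.2)).card : ℕ) : ℝ) * (5 * M / (X : ℝ) ^ 2)
        ≤ X * (5 * M / (X : ℝ) ^ 2) := mul_le_mul_of_nonneg_right h4 (by positivity)
      _ = 5 * M / X := by field_simp
  have b3 := abs_add_le (∑ v ∈ (prs X ×ˢ prs X).filter (fun v => v.1 ≠ v.2),
      (c v.1 * c v.2 * ∑ m ∈ Ioc M (2 * M), dd v.1 m n1 * dd v.2 m n2 -
        c v.1 * c v.2 * ((cc M v.1 v.2 n1 n2 : ℝ) - (M : ℝ) / (v.1 * v.2))))
    (∑ v ∈ (prs X ×ˢ prs X).filter (fun v => ¬ v.1 ≠ v.2),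
      c v.1 * c v.2 * ∑ m ∈ Ioc M (2 * M), dd v.1 m n1 * dd v.2 m n2)
  linarith

/-- Cauchy over the pairs of moduli -/
theorem D2_cop (X M : ℕ) (DD : Finset (ℕ × ℕ)) (b : ℕ × ℕ → ℝ) (K : ℝ)
    (hK : ∑ q ∈ cop X, UU M DD b q.1 q.2 ^ 2 ≤ K) (c : ℕ → ℝ) (hc : ∀ p, |c p| ≤ 1) :
    ∑ v ∈ (prs X ×ˢ prs X).filter (fun v => v.1 ≠ v.2), c v.1 * c v.2 * UU M DD b v.1 v.2 ≤
      X * Real.sqrt K := by
  have h1 : ∀ v ∈ (prs X ×ˢ prs X).filter (fun v => v.1 ≠ v.2),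
      c v.1 * c v.2 * UU M DD b v.1 v.2 ≤ |UU M DD b v.1 v.2| := by
    intro v _
    refine le_trans (le_abs_self _) ?_
    rw [abs_mul, abs_mul]
    have h3 : |c v.1| * |c v.2| ≤ 1 := mul_le_one₀ (hc _) (abs_nonneg _) (hc _)
    calc |c v.1| * |c v.2| * |UU M DD b v.1 v.2| ≤ 1 * |UU M DD b v.1 v.2| :=
          mul_le_mul_of_nonneg_right h3 (abs_nonneg _)
      _ = _ := one_mul _
  refine le_trans (sum_le_sum h1) ?_
  have hsub : (prs X ×ˢ prs X).filter (fun v => v.1 ≠ v.2) ⊆ cop X := by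
    intro v hv
    rw [mem_filter, mem_product] at hv
    obtain ⟨⟨h2, h3⟩, h4⟩ := hv
    rw [prs, mem_filter] at h2 h3
    rw [cop, mem_filter, mem_product]
    exact ⟨⟨h2.1, h3.1⟩, (Nat.coprime_primes h2.2 h3.2).mpr h4⟩
  refine le_trans (sum_le_sum_of_subset_of_nonneg hsub fun _ _ _ => abs_nonneg _) ?_
  have h5 := sq_sum_le_card_mul_sum_sq (s := cop X) (f := fun v => |UU M DD b v.1 v.2|)
  simp only [sq_abs] at h5
  have h6 : ((cop X).card : ℝ) ≤ X ^ 2 := by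
    have h7 : (cop X).card ≤ (Ioc X (2 * X) ×ˢ Ioc X (2 * X)).card := card_filter_le _ _
    rw [card_product, Nat.card_Ioc] at h7
    have h8 : 2 * X - X = X := by omega
    rw [h8, ← sq] at h7
    exact_mod_cast h7
  have h9 : 0 ≤ ∑ q ∈ cop X, UU M DD b q.1 q.2 ^ 2 := sum_nonneg fun _ _ => sq_nonneg _
  have h10 : (∑ v ∈ cop X, |UU M DD b v.1 v.2|) ^ 2 ≤ X ^ 2 * K :=
    le_trans h5 (mul_le_mul h6 hK h9 (by positivity))
  have h11 := Real.le_sqrt_of_sq_le h10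
  rw [Real.sqrt_mul (by positivity), Real.sqrt_sq (Nat.cast_nonneg _)] at h11
  exact h11

/-- [D2b] The dispersion estimate. Proof. `c p` = the sign of `ES p`; `cauchy`; the terms `n1 = n2` give at most `9 M N` in total (`same_n`); for `n1 ≠ n2` exchange the sums:
`∑_{p1, p2} c c ∑_m dd dd`, the terms `p1 = p2` by `corr_eq` (at most `X N (2H)` of them), the terms `p1 ≠ p2` by `corr_ne` (error at most `X² N (2 H) * 3/X`) and
`∑_{n1 ≠ n2} β β (cc - M/(p1 p2)) = UU M DD b p1 p2`, `DD` the pairs of different primes of `(N, 2N]` in the same class, `b p = β p.1 β p.2`; two different primes are coprime: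
`∑_{p1 ≠ p2} |UU| ≤ ∑_{q ∈ cop X} |UU| ≤ √(X²) √K`. -/
theorem dispersion (X N M H : ℕ) (hX : 5 ≤ X) (hN : 1 ≤ N) (hH : 1 ≤ H) (hHN : 4 * H ≤ N) (hNX : 2 * N ≤ X)
    (hXM : X ≤ M) (hMN : M * N ≤ X ^ 2) (α β : ℕ → ℝ) (hα : ∀ m, |α m| ≤ 1) (hβ : ∀ n, |β n| ≤ 1)
    (hβ' : ∀ n, β n ≠ 0 → n.Prime) (K : ℝ)
    (hK : ∀ (DD : Finset (ℕ × ℕ)) (b : ℕ × ℕ → ℝ), (∀ p ∈ DD, Pair N H p.1 p.2) → (∀ p, |b p| ≤ 1) →
      ∑ q ∈ cop X, UU M DD b q.1 q.2 ^ 2 ≤ K) :
    (∑ p ∈ prs X, |ES N M α β p|) ^ 2 ≤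
      100 * (((M : ℝ) * N) ^ 2 * (1 / H + X / M + 1 / X) + (M * N / H) * (X * Real.sqrt K)) := by
  classical
  have hX0 : (0 : ℝ) < X := by exact_mod_cast (by omega : 0 < X)
  have hM0 : (0 : ℝ) < M := by exact_mod_cast (by omega : 0 < M)
  have hH0 : (0 : ℝ) < H := by exact_mod_cast (by omega : 0 < H)
  have hN0 : (0 : ℝ) < N := by exact_mod_cast (by omega : 0 < N)
  obtain ⟨c, hc1, hcE⟩ : ∃ c : ℕ → ℝ, (∀ p, |c p| ≤ 1) ∧
      ∀ p, c p * ES N M α β p = |ES N M α β p| := by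
    refine ⟨fun p => if 0 ≤ ES N M α β p then 1 else -1, ?_, ?_⟩
    · intro p
      by_cases h : 0 ≤ ES N M α β p
      · simp [h]
      · simp [h]
    · intro p
      by_cases h : 0 ≤ ES N M α β p
      · simp [h, abs_of_nonneg h]
      · simp [h, abs_of_neg (not_le.mp h)]
  have h0 := cauchy X N M H hN hH hHN α β c hα
  rw [sum_congr rfl fun p _ => hcE p] at h0
  refine le_trans h0 ?_
  rw [D2_pairs N H (fun n1 n2 => β n1 * β n2 * ∑ m ∈ Ioc M (2 * M),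
    (∑ p ∈ prs X, c p * dd p m n1) * (∑ p ∈ prs X, c p * dd p m n2))]
  rw [← sum_filter_add_sum_filter_not ((Ioc N (2 * N) ×ˢ Ioc N (2 * N)).filter
    (fun q => q.2 / (H + 1) = q.1 / (H + 1))) (fun q => q.1 = q.2)]
  -- the diagonal
  have hdiag : ∑ q ∈ ((Ioc N (2 * N) ×ˢ Ioc N (2 * N)).filter
      (fun q => q.2 / (H + 1) = q.1 / (H + 1))).filter (fun q => q.1 = q.2),
      β q.1 * β q.2 * ∑ m ∈ Ioc M (2 * M),
        (∑ p ∈ prs X, c p * dd p m q.1) * (∑ p ∈ prs X, c p * dd p m q.2) ≤ N * (9 * M) := by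
    have h1 : ∀ q ∈ ((Ioc N (2 * N) ×ˢ Ioc N (2 * N)).filter
        (fun q => q.2 / (H + 1) = q.1 / (H + 1))).filter (fun q => q.1 = q.2),
        β q.1 * β q.2 * ∑ m ∈ Ioc M (2 * M),
          (∑ p ∈ prs X, c p * dd p m q.1) * (∑ p ∈ prs X, c p * dd p m q.2) ≤ 9 * M := by
      intro q hq
      rw [mem_filter, mem_filter, mem_product] at hq
      obtain ⟨⟨⟨h2, h3⟩, -⟩, h4⟩ := hq
      rw [← h4]
      have h5 : ∑ m ∈ Ioc M (2 * M), (∑ p ∈ prs X, c p * dd p m q.1) *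
          (∑ p ∈ prs X, c p * dd p m q.1) ≤ 9 * M := by
        have h6 : ∀ m ∈ Ioc M (2 * M), (∑ p ∈ prs X, c p * dd p m q.1) *
            (∑ p ∈ prs X, c p * dd p m q.1) ≤ 9 := by
          intro m hm
          have h7 := same_n X M N m q.1 hX hMN hm h2 (by rw [mem_Ioc] at hm; omega) c hc1
          have h8 := abs_le.mp h7
          nlinarith [h8.1, h8.2]
        refine le_trans (sum_le_card_nsmul _ _ _ h6) ?_
        rw [Nat.card_Ioc, nsmul_eq_mul]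
        have : 2 * M - M = M := by omega
        rw [this]; linarith
      have h9 : 0 ≤ ∑ m ∈ Ioc M (2 * M), (∑ p ∈ prs X, c p * dd p m q.1) *
          (∑ p ∈ prs X, c p * dd p m q.1) := sum_nonneg fun _ _ => mul_self_nonneg _
      have h10 : β q.1 * β q.1 ≤ 1 := by
        have := abs_le.mp (hβ q.1)
        nlinarith [this.1, this.2]
      have h11 : 0 ≤ β q.1 * β q.1 := mul_self_nonneg _
      calc β q.1 * β q.1 * ∑ m ∈ Ioc M (2 * M), (∑ p ∈ prs X, c p * dd p m q.1) *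
            (∑ p ∈ prs X, c p * dd p m q.1)
          ≤ 1 * ∑ m ∈ Ioc M (2 * M), (∑ p ∈ prs X, c p * dd p m q.1) *
            (∑ p ∈ prs X, c p * dd p m q.1) := mul_le_mul_of_nonneg_right h10 h9
        _ ≤ 9 * M := by rw [one_mul]; exact h5
    refine le_trans (sum_le_card_nsmul _ _ _ h1) ?_
    rw [nsmul_eq_mul]
    apply mul_le_mul_of_nonneg_right _ (by positivity)
    have h2 : (((Ioc N (2 * N) ×ˢ Ioc N (2 * N)).filter
        (fun q => q.2 / (H + 1) = q.1 / (H + 1))).filter (fun q => q.1 = q.2)).card ≤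
        (Ioc N (2 * N)).card := by
      apply card_le_card_of_injOn Prod.fst
      · intro v hv
        exact (mem_product.mp (mem_filter.mp (mem_filter.mp hv).1).1).1
      · intro v hv v' hv' h
        have h6 := (mem_filter.mp hv).2
        have h7 := (mem_filter.mp hv').2
        exact Prod.ext h (by rw [← h6, ← h7]; exact h)
    rw [Nat.card_Ioc] at h2
    have h3 : (((Ioc N (2 * N) ×ˢ Ioc N (2 * N)).filter
        (fun q => q.2 / (H + 1) = q.1 / (H + 1))).filter (fun q => q.1 = q.2)).card ≤ N := by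
      omega
    exact_mod_cast h3
  -- off the diagonal
  set D0 := ((Ioc N (2 * N) ×ˢ Ioc N (2 * N)).filter
      (fun q => q.2 / (H + 1) = q.1 / (H + 1))).filter (fun q => ¬ q.1 = q.2) with hD0
  have hD0c : (D0.card : ℝ) ≤ 2 * N * H := D2_card N H hH D0 (filter_subset _ _)
  have hmem : ∀ q ∈ D0, q.1 ∈ Ioc N (2 * N) ∧ q.2 ∈ Ioc N (2 * N) ∧
      q.2 / (H + 1) = q.1 / (H + 1) ∧ q.1 ≠ q.2 := by
    intro q hq
    rw [hD0, mem_filter, mem_filter, mem_product] at hq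
    exact ⟨hq.1.1.1, hq.1.1.2, hq.1.2, hq.2⟩
  have hoff : ∑ q ∈ D0, β q.1 * β q.2 * ∑ m ∈ Ioc M (2 * M),
        (∑ p ∈ prs X, c p * dd p m q.1) * (∑ p ∈ prs X, c p * dd p m q.2) ≤
      X * Real.sqrt K + 2 * N * H * (5 * M / X + 3 * X) := by
    have hε : 0 ≤ 5 * (M : ℝ) / X + 3 * X := by positivity
    have h1 : ∀ q ∈ D0, β q.1 * β q.2 * ∑ m ∈ Ioc M (2 * M),
        (∑ p ∈ prs X, c p * dd p m q.1) * (∑ p ∈ prs X, c p * dd p m q.2) ≤
        β q.1 * β q.2 * ∑ v ∈ (prs X ×ˢ prs X).filter (fun v => v.1 ≠ v.2), c v.1 * c v.2 *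
          ((cc M v.1 v.2 q.1 q.2 : ℝ) - (M : ℝ) / (v.1 * v.2)) + (5 * M / X + 3 * X) := by
      intro q hq
      obtain ⟨a1, a2, -, a4⟩ := hmem q hq
      rw [mem_Ioc] at a1 a2
      have h2 := D2_err X M hX hXM c hc1 q.1 q.2 ⟨by omega, by omega⟩ ⟨by omega, by omega⟩ a4
      have h3 : |β q.1 * β q.2| ≤ 1 := by
        rw [abs_mul]; exact mul_le_one₀ (hβ _) (abs_nonneg _) (hβ _)
      set A := ∑ m ∈ Ioc M (2 * M),
        (∑ p ∈ prs X, c p * dd p m q.1) * (∑ p ∈ prs X, c p * dd p m q.2)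
      set B := ∑ v ∈ (prs X ×ˢ prs X).filter (fun v => v.1 ≠ v.2), c v.1 * c v.2 *
          ((cc M v.1 v.2 q.1 q.2 : ℝ) - (M : ℝ) / (v.1 * v.2))
      have h4 : β q.1 * β q.2 * (A - B) ≤ 5 * M / X + 3 * X := by
        refine le_trans (le_abs_self _) ?_
        rw [abs_mul]
        calc |β q.1 * β q.2| * |A - B| ≤ 1 * (5 * M / X + 3 * X) :=
              mul_le_mul h3 h2 (abs_nonneg _) zero_le_one
          _ = _ := one_mul _
      linarith
    refine le_trans (sum_le_sum h1) ?_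
    rw [sum_add_distrib, sum_const, nsmul_eq_mul]
    have h5 : (D0.card : ℝ) * (5 * M / X + 3 * X) ≤ 2 * N * H * (5 * M / X + 3 * X) :=
      mul_le_mul_of_nonneg_right hD0c hε
    have h6 : ∑ q ∈ D0, β q.1 * β q.2 * ∑ v ∈ (prs X ×ˢ prs X).filter (fun v => v.1 ≠ v.2),
        c v.1 * c v.2 * ((cc M v.1 v.2 q.1 q.2 : ℝ) - (M : ℝ) / (v.1 * v.2)) =
        ∑ v ∈ (prs X ×ˢ prs X).filter (fun v => v.1 ≠ v.2), c v.1 * c v.2 *
          UU M (D0.filter fun q => β q.1 * β q.2 ≠ 0) (fun q => β q.1 * β q.2) v.1 v.2 := by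
      simp only [UU]
      simp_rw [mul_sum]
      rw [sum_comm]
      apply sum_congr rfl
      intro v _
      conv_rhs => rw [sum_filter]
      apply sum_congr rfl
      intro q _
      by_cases h : β q.1 * β q.2 = 0
      · simp [h]
      · simp only [ne_eq, h, not_false_eq_true, if_true]
        ring
    have h7 : ∑ q ∈ cop X, UU M (D0.filter fun q => β q.1 * β q.2 ≠ 0)
        (fun q => β q.1 * β q.2) q.1 q.2 ^ 2 ≤ K := by
      apply hK
      · intro q hq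
        rw [mem_filter] at hq
        obtain ⟨a1, a2, a3, a4⟩ := hmem q hq.1
        rw [mem_Ioc] at a1 a2
        have b1 : β q.1 ≠ 0 := left_ne_zero_of_mul hq.2
        have b2 : β q.2 ≠ 0 := right_ne_zero_of_mul hq.2
        refine ⟨hβ' _ b1, hβ' _ b2, a1.1, a1.2, a2.1, a2.2, a4, ?_⟩
        have b3 := Nat.div_add_mod q.1 (H + 1)
        have b4 := Nat.div_add_mod q.2 (H + 1)
        have b5 : q.1 % (H + 1) < H + 1 := Nat.mod_lt _ (by omega)
        have b6 : q.2 % (H + 1) < H + 1 := Nat.mod_lt _ (by omega)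
        rw [a3] at b4
        rw [abs_le]
        constructor <;> omega
      · intro q
        rw [abs_mul]; exact mul_le_one₀ (hβ _) (abs_nonneg _) (hβ _)
    have h8 := D2_cop X M _ _ K h7 c hc1
    rw [h6]
    linarith
  have hpre : 0 ≤ (M : ℝ) * (2 * N / H) := by positivity
  refine le_trans (mul_le_mul_of_nonneg_left (add_le_add hdiag hoff) hpre) ?_
  have hS : 0 ≤ Real.sqrt K := Real.sqrt_nonneg K
  have e1 : (M : ℝ) * (2 * N / H) * (N * (9 * M) + (X * Real.sqrt K +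
      2 * N * H * (5 * M / X + 3 * X))) =
      18 * ((M * N) ^ 2 * (1 / H)) + 20 * ((M * N) ^ 2 * (1 / X)) +
        12 * ((M * N) ^ 2 * (X / M)) + 2 * ((M * N / H) * (X * Real.sqrt K)) := by
    field_simp
    ring
  rw [e1]
  have p1 : 0 ≤ ((M : ℝ) * N) ^ 2 * (1 / H) := by positivity
  have p2 : 0 ≤ ((M : ℝ) * N) ^ 2 * (1 / X) := by positivity
  have p3 : 0 ≤ ((M : ℝ) * N) ^ 2 * (X / M) := by positivity
  have p4 : 0 ≤ ((M : ℝ) * N / H) * (X * Real.sqrt K) := by positivity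
  have e2 : ((M : ℝ) * N) ^ 2 * (1 / H + X / M + 1 / X) = (M * N) ^ 2 * (1 / H) +
      (M * N) ^ 2 * (X / M) + (M * N) ^ 2 * (1 / X) := by ring
  rw [e2]
  linarith

end Pool.Agent.TII
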