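import Pool.Agent.TII.Defs

/-!
# [TII-E2] Lemma 2.1: congruences for `m` in terms of `t`
-/

set_option autoImplicit false

namespace Pool.Agent.TII

open Finset

/-- the number of `m ∈ (M, 2M]` with `q1 ∣ m n1 - 1`, `q2 ∣ m n2 - 1` -/
def cc (M q1 q2 n1 n2 : ℕ) : ℕ :=
  ((Ioc M (2 * M)).filter fun m : ℕ => (q1 : ℤ) ∣ (m : ℤ) * n1 - 1 ∧ (q2 : ℤ) ∣ (m : ℤ) * n2 - 1).card

/-- the condition on `t` corresponding to `M < m ≤ 2 M` -/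
def inT (M n1 n2 : ℕ) (g : SL) (t : ℤ) : Prop :=
  (M : ℤ) * n1 * n2 < n2 + g.1 0 0 * ((n1 : ℤ) - n2) * g.1 1 1 + t * g.1 0 0 * g.1 0 1 ∧
    n2 + g.1 0 0 * ((n1 : ℤ) - n2) * g.1 1 1 + t * g.1 0 0 * g.1 0 1 ≤ 2 * M * n1 * n2

/-- [E2a] Proof. `g = [[q1, q2], [x, y]]`, `h = n1 - n2`. To `t` with `n1 ∣ h x + t q1`, `n2 ∣ h y + t q2` corresponds `m = (n2 + q1 h y + t q1 q2)/(n1 n2)`: `n2` divides the numerator,
and the numerator is `n1 + q2 (h x + t q1)` because `q1 y - q2 x = 1`; `m n1 = 1 + q1 (h y + t q2)/n2`, `m n2 = 1 + q2 (h x + t q1)/n1`. Injective. -/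
theorem FF_le_cc (M : ℕ) {N H n1 n2 : ℕ} (hp : Pair N H n1 n2) (q1 q2 : ℕ) (g : SL) (h1 : g.1 0 0 = q1)
    (h2 : g.1 0 1 = q2) (hq1 : 1 ≤ q1) (hq2 : 1 ≤ q2) (W : Finset ℤ) (hW : ∀ t ∈ W, inT M n1 n2 g t) :
    FF W n1 n2 g ≤ cc M q1 q2 n1 n2 := by
  have hdet : (q1 : ℤ) * g.1 1 1 - q2 * g.1 1 0 = 1 := by
    have h := g.2
    rw [Matrix.det_fin_two, h1, h2] at h
    linarith
  set x := g.1 1 0 with hx
  set y := g.1 1 1 with hy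
  have hq1' : (0 : ℤ) < q1 := by exact_mod_cast hq1
  have hq2' : (0 : ℤ) < q2 := by exact_mod_cast hq2
  have hn1 : (0 : ℤ) < n1 := by exact_mod_cast hp.p1.pos
  have hn2 : (0 : ℤ) < n2 := by exact_mod_cast hp.p2.pos
  have hcop : IsCoprime (n1 : ℤ) n2 := by
    rw [Nat.isCoprime_iff_coprime]
    exact (Nat.coprime_primes hp.p1 hp.p2).2 hp.ne
  unfold FF cc
  have key : ∀ t ∈ W.filter (fun t : ℤ => (n1 : ℤ) ∣ ((n1 : ℤ) - n2) * x + t * g.1 0 0 ∧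
      (n2 : ℤ) ∣ ((n1 : ℤ) - n2) * y + t * g.1 0 1), ∃ m : ℕ, m ∈ (Ioc M (2 * M)).filter
        (fun m : ℕ => (q1 : ℤ) ∣ (m : ℤ) * n1 - 1 ∧ (q2 : ℤ) ∣ (m : ℤ) * n2 - 1) ∧
        (m : ℤ) * (n1 * n2) = n2 + q1 * ((n1 : ℤ) - n2) * y + t * q1 * q2 := by
    intro t ht
    rw [mem_filter, h1, h2] at ht
    obtain ⟨htW, ⟨r2, hr2⟩, ⟨r1, hr1⟩⟩ := ht
    have hT := hW t htW
    unfold inT at hT
    rw [h1, h2, ← hy] at hT
    have e1 : n2 + q1 * ((n1 : ℤ) - n2) * y + t * q1 * q2 = n2 * (1 + q1 * r1) := by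
      linear_combination (q1 : ℤ) * hr1
    have e2 : n2 + q1 * ((n1 : ℤ) - n2) * y + t * q1 * q2 = n1 * (1 + q2 * r2) := by
      linear_combination (q2 : ℤ) * hr2 + ((n1 : ℤ) - n2) * hdet
    obtain ⟨m, hm⟩ : (n1 : ℤ) * n2 ∣ n2 + q1 * ((n1 : ℤ) - n2) * y + t * q1 * q2 :=
      hcop.mul_dvd ⟨_, e2⟩ ⟨_, e1⟩
    rw [hm] at hT
    have hnn : (0 : ℤ) < n1 * n2 := mul_pos hn1 hn2
    have hm1 : (M : ℤ) < m := by
      by_contra hc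
      push Not at hc
      nlinarith [hT.1, mul_le_mul_of_nonneg_left hc hnn.le]
    have hm2 : m ≤ 2 * M := by
      by_contra hc
      push Not at hc
      nlinarith [hT.2, mul_lt_mul_of_pos_left hc hnn]
    have hm0 : 0 ≤ m := by have : (0 : ℤ) ≤ M := Int.natCast_nonneg _; omega
    obtain ⟨k, rfl⟩ := Int.eq_ofNat_of_zero_le hm0
    refine ⟨k, ?_, by rw [hm]; ring⟩
    rw [mem_filter, mem_Ioc]
    refine ⟨⟨by exact_mod_cast hm1, by exact_mod_cast hm2⟩, ⟨r1, ?_⟩, ⟨r2, ?_⟩⟩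
    · have : (n2 : ℤ) * ((k : ℤ) * n1 - 1) = n2 * (q1 * r1) := by linear_combination e1 - hm
      exact mul_left_cancel₀ hn2.ne' this
    · have : (n1 : ℤ) * ((k : ℤ) * n2 - 1) = n1 * (q2 * r2) := by linear_combination e2 - hm
      exact mul_left_cancel₀ hn1.ne' this
  choose! f hf1 hf2 using key
  have hcard := card_le_card_of_injOn f hf1 (by
    intro s hs t ht hst
    have a1 := hf2 s hs
    have a2 := hf2 t ht
    rw [hst, a2] at a1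
    have a3 : (q1 : ℤ) * q2 * t = q1 * q2 * s := by linear_combination a1
    exact (mul_left_cancel₀ (mul_pos hq1' hq2').ne' a3).symm)
  exact_mod_cast hcard

/-- [E2b] Proof. To `m` with `m n1 = 1 + q1 r1`, `m n2 = 1 + q2 r2` corresponds `t` with `n2 r1 = h y + t q2`, `n1 r2 = h x + t q1`: from `n2 (1 + q1 r1) = n1 (1 + q2 r2)`
and `q1 y - q2 x = 1`: `q1 (n2 r1 - h y) = q2 (n1 r2 - h x)`, and `q1, q2` are coprime. -/
theorem cc_le_FF (M : ℕ) {N H n1 n2 : ℕ} (hp : Pair N H n1 n2) (q1 q2 : ℕ) (g : SL) (h1 : g.1 0 0 = q1)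
    (h2 : g.1 0 1 = q2) (hq1 : 1 ≤ q1) (hq2 : 1 ≤ q2) (W : Finset ℤ) (hW : ∀ t, inT M n1 n2 g t → t ∈ W) :
    (cc M q1 q2 n1 n2 : ℝ) ≤ FF W n1 n2 g := by
  have hdet : (q1 : ℤ) * g.1 1 1 - q2 * g.1 1 0 = 1 := by
    have h := g.2
    rw [Matrix.det_fin_two, h1, h2] at h
    linarith
  set x := g.1 1 0 with hx
  set y := g.1 1 1 with hy
  have hq1' : (0 : ℤ) < q1 := by exact_mod_cast hq1
  have hq2' : (0 : ℤ) < q2 := by exact_mod_cast hq2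
  have hn1 : (0 : ℤ) < n1 := by exact_mod_cast hp.p1.pos
  have hn2 : (0 : ℤ) < n2 := by exact_mod_cast hp.p2.pos
  have hcop : IsCoprime (q2 : ℤ) q1 := ⟨-x, y, by linear_combination hdet⟩
  unfold FF cc
  have key : ∀ m ∈ (Ioc M (2 * M)).filter
      (fun m : ℕ => (q1 : ℤ) ∣ (m : ℤ) * n1 - 1 ∧ (q2 : ℤ) ∣ (m : ℤ) * n2 - 1), ∃ t : ℤ,
      t ∈ W.filter (fun t : ℤ => (n1 : ℤ) ∣ ((n1 : ℤ) - n2) * x + t * g.1 0 0 ∧
        (n2 : ℤ) ∣ ((n1 : ℤ) - n2) * y + t * g.1 0 1) ∧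
        (m : ℤ) * (n1 * n2) = n2 + q1 * ((n1 : ℤ) - n2) * y + t * q1 * q2 := by
    intro m hm
    rw [mem_filter, mem_Ioc] at hm
    obtain ⟨⟨hm1, hm2⟩, ⟨r1, hr1⟩, ⟨r2, hr2⟩⟩ := hm
    have e0 : (q1 : ℤ) * (n2 * r1 - ((n1 : ℤ) - n2) * y) = q2 * (n1 * r2 - ((n1 : ℤ) - n2) * x) := by
      linear_combination (-(n2 : ℤ)) * hr1 + (n1 : ℤ) * hr2 - ((n1 : ℤ) - n2) * hdet
    obtain ⟨t, ht⟩ : (q2 : ℤ) ∣ n2 * r1 - ((n1 : ℤ) - n2) * y :=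
      hcop.dvd_of_dvd_mul_left ⟨_, e0⟩
    have ht2 : (n1 : ℤ) * r2 - ((n1 : ℤ) - n2) * x = q1 * t := by
      rw [ht] at e0
      have : (q2 : ℤ) * (n1 * r2 - ((n1 : ℤ) - n2) * x) = q2 * (q1 * t) := by linear_combination -e0
      exact mul_left_cancel₀ hq2'.ne' this
    have e3 : (m : ℤ) * (n1 * n2) = n2 + q1 * ((n1 : ℤ) - n2) * y + t * q1 * q2 := by
      linear_combination (n2 : ℤ) * hr1 + (q1 : ℤ) * ht
    refine ⟨t, ?_, e3⟩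
    rw [mem_filter, h1, h2]
    refine ⟨hW t ?_, ⟨r2, by linear_combination -ht2⟩, ⟨r1, by linear_combination -ht⟩⟩
    unfold inT
    rw [h1, h2, ← hy, ← e3]
    have hnn : (0 : ℤ) < n1 * n2 := mul_pos hn1 hn2
    have hm1' : (M : ℤ) < m := by exact_mod_cast hm1
    have hm2' : (m : ℤ) ≤ 2 * M := by exact_mod_cast hm2
    constructor
    · nlinarith [mul_lt_mul_of_pos_left hm1' hnn]
    · nlinarith [mul_le_mul_of_nonneg_left hm2' hnn.le]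
  choose! f hf1 hf2 using key
  have hcard := card_le_card_of_injOn f hf1 (by
    intro s hs t ht hst
    have a1 := hf2 s hs
    have a2 := hf2 t ht
    rw [hst, ← a2] at a1
    have a3 : ((n1 : ℤ) * n2) * s = n1 * n2 * t := by linear_combination a1
    exact_mod_cast mul_left_cancel₀ (mul_pos hn1 hn2).ne' a3)
  exact_mod_cast hcard

end Pool.Agent.TII
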