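import Pool.Agent.TII.SM2

/-!
# [TII-SM2c] counting quadruples
-/

set_option autoImplicit false

namespace Pool.Agent.TII

open Finset

private theorem SM2c_fib1 (N H : ℕ) (hH : 1 ≤ H) (DD : Finset (ℕ × ℕ))
    (hD : ∀ p ∈ DD, Pair N H p.1 p.2) (a : ℕ) : (DD.filter fun q => q.1 = a).card ≤ 3 * H := by
  have h1 : (DD.filter fun q => q.1 = a).card ≤ (Finset.Icc (a - H) (a + H)).card := by
    apply Finset.card_le_card_of_injOn (fun q => q.2)
    · intro q hq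
      rw [Finset.mem_coe, Finset.mem_filter] at hq
      have h2 := (hD q hq.1).dist
      rw [abs_le] at h2
      have h3 := hq.2
      rw [Finset.mem_coe, Finset.mem_Icc]
      dsimp only
      omega
    · intro q hq q' hq' h
      rw [Finset.mem_coe, Finset.mem_filter] at hq hq'
      exact Prod.ext (hq.2.trans hq'.2.symm) h
  rw [Nat.card_Icc] at h1
  omega

private theorem SM2c_fib2 (N H : ℕ) (hH : 1 ≤ H) (DD : Finset (ℕ × ℕ))
    (hD : ∀ p ∈ DD, Pair N H p.1 p.2) (a : ℕ) : (DD.filter fun q => q.2 = a).card ≤ 3 * H := by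
  have h1 : (DD.filter fun q => q.2 = a).card ≤ (Finset.Icc (a - H) (a + H)).card := by
    apply Finset.card_le_card_of_injOn (fun q => q.1)
    · intro q hq
      rw [Finset.mem_coe, Finset.mem_filter] at hq
      have h2 := (hD q hq.1).dist
      rw [abs_le] at h2
      have h3 := hq.2
      rw [Finset.mem_coe, Finset.mem_Icc]
      dsimp only
      omega
    · intro q hq q' hq' h
      rw [Finset.mem_coe, Finset.mem_filter] at hq hq'
      exact Prod.ext h (hq.2.trans hq'.2.symm)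
  rw [Nat.card_Icc] at h1
  omega

private theorem SM2c_card (N H : ℕ) (hH : 1 ≤ H) (DD : Finset (ℕ × ℕ))
    (hD : ∀ p ∈ DD, Pair N H p.1 p.2) : DD.card ≤ 3 * H * N := by
  have h1 := Finset.card_le_mul_card_image_of_maps_to (f := fun q : ℕ × ℕ => q.1) (s := DD)
    (t := Finset.Ioc N (2 * N)) (fun q hq => by
      have h := hD q hq
      rw [Finset.mem_Ioc]
      exact ⟨h.l1, h.u1⟩) (3 * H) (fun b _ => SM2c_fib1 N H hH DD hD b)
  rw [Nat.card_Ioc] at h1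
  have h2 : 2 * N - N = N := by omega
  rwa [h2] at h1

open Classical in
private theorem SM2c_inner (N H : ℕ) (hH : 1 ≤ H) (DD : Finset (ℕ × ℕ))
    (hD : ∀ p ∈ DD, Pair N H p.1 p.2) (b : ℕ × ℕ) :
    (DD.filter fun q : ℕ × ℕ => ¬ Dist4 b.1 b.2 q.1 q.2).card ≤ 12 * H := by
  have hsub : (DD.filter fun q : ℕ × ℕ => ¬ Dist4 b.1 b.2 q.1 q.2) ⊆
      ((DD.filter fun q => q.1 = b.1) ∪ (DD.filter fun q => q.2 = b.1)) ∪
        ((DD.filter fun q => q.1 = b.2) ∪ (DD.filter fun q => q.2 = b.2)) := by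
    intro q hq
    rw [Finset.mem_filter] at hq
    simp only [Finset.mem_union, Finset.mem_filter]
    obtain ⟨hq, hd⟩ := hq
    by_contra hc
    apply hd
    refine ⟨fun h => hc ?_, fun h => hc ?_, fun h => hc ?_, fun h => hc ?_⟩
    · exact Or.inl (Or.inl ⟨hq, h.symm⟩)
    · exact Or.inl (Or.inr ⟨hq, h.symm⟩)
    · exact Or.inr (Or.inl ⟨hq, h.symm⟩)
    · exact Or.inr (Or.inr ⟨hq, h.symm⟩)
  have h1 := Finset.card_le_card hsub
  have h2 := Finset.card_union_le ((DD.filter fun q => q.1 = b.1) ∪ (DD.filter fun q => q.2 = b.1))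
    ((DD.filter fun q => q.1 = b.2) ∪ (DD.filter fun q => q.2 = b.2))
  have h3 := Finset.card_union_le (DD.filter fun q => q.1 = b.1) (DD.filter fun q => q.2 = b.1)
  have h4 := Finset.card_union_le (DD.filter fun q => q.1 = b.2) (DD.filter fun q => q.2 = b.2)
  have h5 := SM2c_fib1 N H hH DD hD b.1
  have h6 := SM2c_fib2 N H hH DD hD b.1
  have h7 := SM2c_fib1 N H hH DD hD b.2
  have h8 := SM2c_fib2 N H hH DD hD b.2
  omega

open Classical in
private theorem SM2c_notDist (N H : ℕ) (hH : 1 ≤ H) (DD : Finset (ℕ × ℕ))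
    (hD : ∀ p ∈ DD, Pair N H p.1 p.2) :
    ((DD ×ˢ DD).filter fun q : (ℕ × ℕ) × (ℕ × ℕ) => ¬ Dist4 q.1.1 q.1.2 q.2.1 q.2.2).card ≤
      12 * H * DD.card := by
  apply Finset.card_le_mul_card_image_of_maps_to (f := fun q : (ℕ × ℕ) × (ℕ × ℕ) => q.1)
  · intro q hq
    rw [Finset.mem_filter, Finset.mem_product] at hq
    exact hq.1.1
  · intro b _
    refine le_trans ?_ (SM2c_inner N H hH DD hD b)
    apply Finset.card_le_card_of_injOn (fun q => q.2)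
    · intro q hq
      rw [Finset.mem_coe, Finset.mem_filter, Finset.mem_filter, Finset.mem_product] at hq
      rw [Finset.mem_coe, Finset.mem_filter]
      obtain ⟨⟨⟨_, h2⟩, h3⟩, h4⟩ := hq
      refine ⟨h2, ?_⟩
      rw [← h4]
      exact h3
    · intro q hq q' hq' h
      rw [Finset.mem_coe, Finset.mem_filter] at hq hq'
      exact Prod.ext (hq.2.trans hq'.2.symm) h

open Classical in
private theorem SM2c_notDist' (N H : ℕ) (hH : 1 ≤ H) (DD : Finset (ℕ × ℕ))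
    (hD : ∀ p ∈ DD, Pair N H p.1 p.2) :
    (((DD ×ˢ DD).filter fun q : (ℕ × ℕ) × (ℕ × ℕ) => ¬ Dist4 q.1.1 q.1.2 q.2.1 q.2.2).card : ℝ) ≤
      36 * N * (H : ℝ) ^ 2 := by
  have h1 := SM2c_notDist N H hH DD hD
  have h2 := SM2c_card N H hH DD hD
  have h3 : ((DD ×ˢ DD).filter fun q : (ℕ × ℕ) × (ℕ × ℕ) =>
      ¬ Dist4 q.1.1 q.1.2 q.2.1 q.2.2).card ≤ 36 * N * H ^ 2 := by
    refine h1.trans ((Nat.mul_le_mul_left _ h2).trans (le_of_eq ?_))
    ring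
  exact_mod_cast h3

open Classical in
private theorem SM2c_pt (N : ℕ) (hN : 1 ≤ N) (n₁ n₂ n₃ n₄ : ℕ) :
    1 / Real.sqrt (Dq N n₁ n₂ n₃ n₄) ≤
      1 / (N : ℝ) ^ 2 + (if ¬ Dist4 n₁ n₂ n₃ n₄ then 1 / (N : ℝ) else 0) := by
  have hN0 : (0 : ℝ) < N := by exact_mod_cast hN
  have hN1 : (1 : ℝ) ≤ N := by exact_mod_cast hN
  have e2 : Real.sqrt ((N : ℝ) ^ 2) = N := Real.sqrt_sq hN0.le
  by_cases hd : Dist4 n₁ n₂ n₃ n₄
  · have e4 : Real.sqrt ((N : ℝ) ^ 4) = (N : ℝ) ^ 2 := by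
      rw [show (N : ℝ) ^ 4 = ((N : ℝ) ^ 2) ^ 2 by ring]
      exact Real.sqrt_sq (by positivity)
    have h5 : Dq N n₁ n₂ n₃ n₄ = N ^ 4 := by
      unfold Dq
      rw [if_pos hd]
    rw [h5, if_neg (not_not.2 hd), Nat.cast_pow, e4, add_zero]
  · rw [if_pos hd]
    have hle : N ≤ Real.sqrt (Dq N n₁ n₂ n₃ n₄) := by
      rw [← e2]
      apply Real.sqrt_le_sqrt
      simp only [Dq, if_neg hd]
      split_ifs
      · push_cast
        exact pow_le_pow_right₀ hN1 (by norm_num)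
      · push_cast
        exact le_rfl
    have h1 : 1 / Real.sqrt (Dq N n₁ n₂ n₃ n₄) ≤ 1 / (N : ℝ) := one_div_le_one_div_of_le hN0 hle
    have h2 : 0 ≤ 1 / (N : ℝ) ^ 2 := by positivity
    linarith

open Classical in
/-- [SM2c] counting quadruples: there are at most `3 N H` pairs, at most `9 N² H²` quadruples, at most `36 N H²` quadruples which are not `Dist4`. -/
theorem sum_Dq (N H : ℕ) (hN : 1 ≤ N) (hH : 1 ≤ H) (DD : Finset (ℕ × ℕ)) (hD : ∀ p ∈ DD, Pair N H p.1 p.2) :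
    ∑ p ∈ DD, ∑ q ∈ DD, 1 / Real.sqrt (Dq N p.1 p.2 q.1 q.2) ≤ 48 * (H : ℝ) ^ 2 := by
  have hN0 : (0 : ℝ) < N := by exact_mod_cast hN
  have hH0 : (0 : ℝ) ≤ H := Nat.cast_nonneg H
  have hc : (DD.card : ℝ) ≤ 3 * H * N := by exact_mod_cast SM2c_card N H hH DD hD
  have h1 : ∑ p ∈ DD, ∑ q ∈ DD, 1 / Real.sqrt (Dq N p.1 p.2 q.1 q.2) ≤
      ∑ x ∈ DD ×ˢ DD, (1 / (N : ℝ) ^ 2 +
        (if ¬ Dist4 x.1.1 x.1.2 x.2.1 x.2.2 then 1 / (N : ℝ) else 0)) := by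
    rw [← Finset.sum_product' DD DD
      (fun p q : ℕ × ℕ => 1 / Real.sqrt (Dq N p.1 p.2 q.1 q.2))]
    exact Finset.sum_le_sum fun x _ => SM2c_pt N hN _ _ _ _
  refine h1.trans ?_
  rw [Finset.sum_add_distrib, ← Finset.sum_filter, Finset.sum_const, Finset.sum_const,
    nsmul_eq_mul, nsmul_eq_mul, Finset.card_product, Nat.cast_mul]
  have h2 : (DD.card : ℝ) * DD.card * (1 / (N : ℝ) ^ 2) ≤ 9 * (H : ℝ) ^ 2 := by
    rw [mul_one_div, div_le_iff₀ (by positivity)]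
    calc (DD.card : ℝ) * DD.card ≤ (3 * H * N) * (3 * H * N) :=
          mul_le_mul hc hc (Nat.cast_nonneg _) (by positivity)
      _ = 9 * (H : ℝ) ^ 2 * (N : ℝ) ^ 2 := by ring
  have h3 : (((DD ×ˢ DD).filter fun x : (ℕ × ℕ) × (ℕ × ℕ) =>
      ¬ Dist4 x.1.1 x.1.2 x.2.1 x.2.2).card : ℝ) * (1 / (N : ℝ)) ≤ 36 * (H : ℝ) ^ 2 := by
    rw [mul_one_div, div_le_iff₀ hN0]
    refine (SM2c_notDist' N H hH DD hD).trans (le_of_eq ?_)
    ring
  have h4 : (0 : ℝ) ≤ (H : ℝ) ^ 2 := sq_nonneg _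
  linarith

open Classical in
theorem card_notDist (N H : ℕ) (hN : 1 ≤ N) (hH : 1 ≤ H) (DD : Finset (ℕ × ℕ)) (hD : ∀ p ∈ DD, Pair N H p.1 p.2) :
    (((DD ×ˢ DD).filter fun q : (ℕ × ℕ) × (ℕ × ℕ) => ¬ Dist4 q.1.1 q.1.2 q.2.1 q.2.2).card : ℝ) ≤ 36 * N * (H : ℝ) ^ 2 := by
  have _ := hN
  exact SM2c_notDist' N H hH DD hD

end Pool.Agent.TII
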