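import Pool.Agent.TII.C5

/-!
# [TII-CF] interface of block C (continued fractions)
-/

set_option autoImplicit false

namespace Pool.Agent.TII

/-- [CF] (TII.md, 7) -/
theorem CF (P Z : ℕ) (hP : 2 ≤ P) (hZ : 2 ≤ Z) (g : SL) (hg : Nonneg g) (hS : ((P : ℤ) * Z ^ 3) < S g) :
    (∃ g1 s g2 : SL, Nonneg g1 ∧ Nonneg s ∧ Nonneg g2 ∧ g = g1 * s * g2 ∧ (P : ℤ) ≤ S g2 ∧ S g2 < P * Z ∧
      (Z : ℤ) ≤ S s ∧ S g ≤ P * Z ^ 3 * S g1 ∧ S g1 * S s * S g2 ≤ 16 * S g) ∨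
    (∃ g1 E g2 : SL, ∃ a : ℕ, (E = Um a ∨ E = Lm a) ∧ 1 ≤ a ∧ Nonneg g1 ∧ Nonneg g2 ∧ g = g1 * E * g2 ∧
      S g1 * a * S g2 ≤ 8 * S g ∧
      ((S g2 ≤ P ∧ P * Z * S g1 ≤ 4 * S g) ∨ (S g2 ≤ P * Z ^ 2 ∧ P * Z ^ 3 * S g1 ≤ 4 * S g))) := by
  rcases cf g hg P Z (by exact_mod_cast hP) (by exact_mod_cast hZ) hS with
    ⟨g1, s, g2, h1, h2, h3, h4, h5, h6, h7, h8, h9⟩ | ⟨g1, E, g2, a, h1, h2, h3, h4, h5, h6, h7⟩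
  · exact Or.inl ⟨g1, s, g2, h1, h2, h3, h4, h5, h6, h7, by linarith [mul_comm (S g1) ((P : ℤ) * Z ^ 3)], h9⟩
  · refine Or.inr ⟨g1, E, g2, a, h4, h3, h1, h2, h5, h7, ?_⟩
    rcases h6 with ⟨h, h'⟩ | ⟨h, h'⟩
    · exact Or.inl ⟨h, by linarith [mul_comm (S g1) ((P : ℤ) * Z)]⟩
    · exact Or.inr ⟨h, by linarith [mul_comm (S g1) ((P : ℤ) * Z ^ 3)]⟩

end Pool.Agent.TII
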