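import Pool.Agent.TII.A0
import Pool.Agent.TII.CF

/-!
# [TII-SM5] covering of the set `GX` by products
-/

set_option autoImplicit false

namespace Pool.Agent.TII

open Finset

open Classical in
/-- the matrices `[[q1, q2], [x, y]]` with `X < q1, q2 ≤ 2 X`, `0 ≤ x ≤ q1`, `0 ≤ y ≤ q2` -/
noncomputable def GX (X : ℕ) : Finset SL := (ball (2 * X)).filter fun g =>
  Nonneg g ∧ (X : ℤ) < g.1 0 0 ∧ g.1 0 0 ≤ 2 * X ∧ (X : ℤ) < g.1 0 1 ∧ g.1 0 1 ≤ 2 * X ∧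
    g.1 1 0 ≤ g.1 0 0 ∧ g.1 1 1 ≤ g.1 0 1

/-- the triples of dyadic scales in class (G) -/
def TR (X N Z : ℕ) : Finset (ℕ × ℕ × ℕ) :=
  (range (Nat.log 2 (1024 * X) + 1) ×ˢ range (Nat.log 2 (1024 * X) + 1) ×ˢ range (Nat.log 2 (1024 * X) + 1)).filter
    fun q => 2 ^ q.1 * 2 ^ q.2.1 * 2 ^ q.2.2 ≤ 1024 * X ∧ N ≤ 2 * 2 ^ q.1 ∧ 2 ^ q.1 ≤ 512 * N * Z ^ 2 ∧
      Z ≤ 4 * 2 ^ q.2.1 ∧ N ^ 2 ≤ 4 * 2 ^ q.2.2

/-- the pairs of dyadic scales in class (B) -/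
def PR (X N Z : ℕ) : Finset (ℕ × ℕ) :=
  (range (Nat.log 2 (1024 * X) + 1) ×ˢ range (Nat.log 2 (1024 * X) + 1)).filter
    fun q => 2 ^ q.1 ≤ 128 * N * Z ^ 2 ∧ 2 ^ q.1 * N ^ 2 ≤ 64 * X ∧ 2 ^ q.1 * N ^ 2 * Z ≤ 64 * X ∧
      2 ^ q.1 * 2 ^ q.2 * Z ≤ 128 * X ∧ 2 ^ q.2 * N * Z ≤ 2 * X

open Classical in
/-- a covering gives an inequality of sums -/
theorem SM5_sum {ι : Type*} (I : Finset ι) (f : ι → SL) (A : Finset SL) (Φ : SL → ℝ)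
    (hΦ : ∀ g, 0 ≤ Φ g) (h : ∀ g ∈ A, ∃ i ∈ I, f i = g) :
    ∑ g ∈ A, Φ g ≤ ∑ i ∈ I, Φ (f i) := by
  have h1 : A ⊆ I.image f := fun g hg => by
    obtain ⟨i, hi, hfi⟩ := h g hg
    exact Finset.mem_image.mpr ⟨i, hi, hfi⟩
  refine (Finset.sum_le_sum_of_subset_of_nonneg h1 fun g _ _ => hΦ g).trans ?_
  exact Finset.sum_image_le_of_nonneg fun u _ => hΦ u

theorem SM5_sum3 {ι₁ ι₂ ι₃ : Type*} (I₁ : Finset ι₁) (I₂ : Finset ι₂) (I₃ : Finset ι₃)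
    (f₁ : ι₁ → SL) (f₂ : ι₂ → SL) (f₃ : ι₃ → SL) (A : Finset SL) (Φ : SL → ℝ)
    (hΦ : ∀ g, 0 ≤ Φ g)
    (h : ∀ g ∈ A, (∃ i ∈ I₁, f₁ i = g) ∨ (∃ i ∈ I₂, f₂ i = g) ∨ (∃ i ∈ I₃, f₃ i = g)) :
    ∑ g ∈ A, Φ g ≤ ∑ i ∈ I₁, Φ (f₁ i) + (∑ i ∈ I₂, Φ (f₂ i) + ∑ i ∈ I₃, Φ (f₃ i)) := by
  classical
  have h0 : ∑ g ∈ A, Φ g ≤ ∑ g ∈ A.filter (fun g => ∃ i ∈ I₁, f₁ i = g), Φ g +
      (∑ g ∈ A.filter (fun g => ∃ i ∈ I₂, f₂ i = g), Φ g +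
        ∑ g ∈ A.filter (fun g => ∃ i ∈ I₃, f₃ i = g), Φ g) := by
    rw [Finset.sum_filter, Finset.sum_filter, Finset.sum_filter, ← Finset.sum_add_distrib,
      ← Finset.sum_add_distrib]
    refine Finset.sum_le_sum fun g hg => ?_
    have e1 : (0 : ℝ) ≤ if ∃ i ∈ I₁, f₁ i = g then Φ g else 0 := by
      split_ifs
      · exact hΦ g
      · exact le_rfl
    have e2 : (0 : ℝ) ≤ if ∃ i ∈ I₂, f₂ i = g then Φ g else 0 := by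
      split_ifs
      · exact hΦ g
      · exact le_rfl
    have e3 : (0 : ℝ) ≤ if ∃ i ∈ I₃, f₃ i = g then Φ g else 0 := by
      split_ifs
      · exact hΦ g
      · exact le_rfl
    rcases h g hg with hh | hh | hh
    · rw [if_pos hh]; linarith
    · rw [if_pos hh]; linarith
    · rw [if_pos hh]; linarith
  refine h0.trans (add_le_add ?_ (add_le_add ?_ ?_))
  · exact SM5_sum _ _ _ Φ hΦ fun g hg => (Finset.mem_filter.mp hg).2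
  · exact SM5_sum _ _ _ Φ hΦ fun g hg => (Finset.mem_filter.mp hg).2
  · exact SM5_sum _ _ _ Φ hΦ fun g hg => (Finset.mem_filter.mp hg).2

/-- the dyadic scale of a natural number -/
theorem SM5_clog (n : ℕ) (hn : 1 ≤ n) : ∃ i : ℕ, n ≤ 2 ^ i ∧ 2 ^ i ≤ 2 * n := by
  refine ⟨Nat.clog 2 n, Nat.le_pow_clog (by norm_num) n, ?_⟩
  rcases Nat.lt_or_ge 1 n with h | h
  · have h1 := Nat.pow_pred_clog_lt_self (b := 2) (by norm_num) h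
    have h2 : 0 < Nat.clog 2 n := Nat.clog_pos (by norm_num) h
    obtain ⟨m, hm⟩ := Nat.exists_eq_succ_of_ne_zero h2.ne'
    rw [hm] at h1 ⊢
    rw [Nat.pred_succ] at h1
    rw [pow_succ]
    omega
  · have h1 : n = 1 := le_antisymm h hn
    subst h1
    simp

/-- the dyadic scale of a matrix -/
theorem SM5_scale (g : SL) (hg : Nonneg g) : ∃ (i s : ℕ), (s : ℤ) = S g ∧ g ∈ ball (2 ^ i) ∧
    2 ^ i ≤ 2 * s ∧ s ≤ 4 * 2 ^ i ∧ 1 ≤ s := by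
  obtain ⟨i, hi1, hi2⟩ := SM5_clog (nm g) (one_le_nm g)
  have h1 := nm_le_S hg
  have h2 := S_le_nm g
  have h3 := one_le_nm g
  refine ⟨i, (S g).toNat, by omega, mem_ball.mpr hi1, by omega, by omega, by omega⟩

theorem SM5_arG (X N Z P S1 Ss S2 Sg a1 as a2 : ℕ) (hZ : 2 ≤ Z) (hP : 1 ≤ P) (hN2 : N ^ 2 ≤ P)
    (hP1 : N * Z ^ 3 * P ≤ X) (hP2 : X < 2 * (N * Z ^ 3 * P)) (h1 : 2 * X < Sg) (h2 : Sg ≤ 8 * X)
    (hS2 : P ≤ S2) (hSs : Z ≤ Ss) (hS1 : Sg ≤ P * Z ^ 3 * S1) (hp : S1 * Ss * S2 ≤ 16 * Sg)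
    (b1 : a1 ≤ 2 * S1) (bs : as ≤ 2 * Ss) (b2 : a2 ≤ 2 * S2) (c1 : S1 ≤ 4 * a1)
    (cs : Ss ≤ 4 * as) (c2 : S2 ≤ 4 * a2) :
    a1 * as * a2 ≤ 1024 * X ∧ N ≤ 2 * a1 ∧ a1 ≤ 512 * N * Z ^ 2 ∧ Z ≤ 4 * as ∧ N ^ 2 ≤ 4 * a2 := by
  have hPZ : 0 < P * Z ^ 3 := by positivity
  refine ⟨?_, ?_, ?_, hSs.trans cs, hN2.trans (hS2.trans c2)⟩
  · calc a1 * as * a2 ≤ (2 * S1) * (2 * Ss) * (2 * S2) :=
          Nat.mul_le_mul (Nat.mul_le_mul b1 bs) b2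
      _ = 8 * (S1 * Ss * S2) := by ring
      _ ≤ 8 * (16 * Sg) := Nat.mul_le_mul_left _ hp
      _ ≤ 1024 * X := by omega
  · have e : P * Z ^ 3 * N < P * Z ^ 3 * (2 * a1) := by
      have e1 : 2 * (P * Z ^ 3 * N) < 2 * (P * Z ^ 3 * (2 * a1)) := by
        calc 2 * (P * Z ^ 3 * N) = 2 * (N * Z ^ 3 * P) := by ring
          _ ≤ 2 * X := by omega
          _ < Sg := h1
          _ ≤ P * Z ^ 3 * S1 := hS1
          _ ≤ P * Z ^ 3 * (4 * a1) := Nat.mul_le_mul_left _ c1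
          _ = 2 * (P * Z ^ 3 * (2 * a1)) := by ring
      omega
    exact (Nat.lt_of_mul_lt_mul_left e).le
  · have hZP : 0 < Z * P := by positivity
    have e : (Z * P) * a1 < (Z * P) * (512 * N * Z ^ 2) := by
      calc (Z * P) * a1 ≤ (Ss * S2) * (2 * S1) := Nat.mul_le_mul (Nat.mul_le_mul hSs hS2) b1
        _ = 2 * (S1 * Ss * S2) := by ring
        _ ≤ 2 * (16 * Sg) := Nat.mul_le_mul_left _ hp
        _ ≤ 256 * X := by omega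
        _ < 256 * (2 * (N * Z ^ 3 * P)) := by omega
        _ = (Z * P) * (512 * N * Z ^ 2) := by ring
    exact (Nat.lt_of_mul_lt_mul_left e).le

theorem SM5_arB (X N Z P S1 S2 Sg a a1 a2 : ℕ) (hZ : 2 ≤ Z)
    (hN2 : N ^ 2 ≤ P)
    (hP1 : N * Z ^ 3 * P ≤ X) (hP2 : X < 2 * (N * Z ^ 3 * P)) (h2 : Sg ≤ 8 * X)
    (hp : S1 * a * S2 ≤ 8 * Sg)
    (hB : (S2 ≤ P ∧ P * Z * S1 ≤ 4 * Sg) ∨ (S2 ≤ P * Z ^ 2 ∧ P * Z ^ 3 * S1 ≤ 4 * Sg))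
    (b1 : a1 ≤ 2 * S1) (b2 : a2 ≤ 2 * S2) :
    a * (a1 * a2) ≤ 256 * X ∧ a1 ≤ 128 * N * Z ^ 2 ∧ a1 * N ^ 2 ≤ 64 * X ∧
      a1 * N ^ 2 * Z ≤ 64 * X ∧ a1 * a2 * Z ≤ 128 * X ∧ a2 * N * Z ≤ 2 * X := by
  have hZ3 : Z ≤ Z ^ 3 := Nat.le_self_pow (by norm_num) Z
  have hA : P * Z * S1 ≤ 4 * Sg := by
    rcases hB with ⟨-, h⟩ | ⟨-, h⟩
    · exact h
    · exact (Nat.mul_le_mul_right _ (Nat.mul_le_mul_left _ hZ3)).trans h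
  have hA1 : P * Z * a1 ≤ 64 * X := by
    calc P * Z * a1 ≤ P * Z * (2 * S1) := Nat.mul_le_mul_left _ b1
      _ = 2 * (P * Z * S1) := by ring
      _ ≤ 2 * (4 * Sg) := Nat.mul_le_mul_left _ hA
      _ ≤ 64 * X := by omega
  have hS2 : S2 ≤ P * Z ^ 2 := by
    rcases hB with ⟨h, -⟩ | ⟨h, -⟩
    · exact h.trans (Nat.le_mul_of_pos_right _ (by positivity))
    · exact h
  have hA3 : a1 * N ^ 2 * Z ≤ 64 * X := by
    calc a1 * N ^ 2 * Z ≤ a1 * P * Z := Nat.mul_le_mul_right _ (Nat.mul_le_mul_left _ hN2)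
      _ = P * Z * a1 := by ring
      _ ≤ 64 * X := hA1
  refine ⟨?_, ?_, ?_, hA3, ?_, ?_⟩
  · calc a * (a1 * a2) ≤ a * ((2 * S1) * (2 * S2)) := Nat.mul_le_mul_left _ (Nat.mul_le_mul b1 b2)
      _ = 4 * (S1 * a * S2) := by ring
      _ ≤ 4 * (8 * Sg) := Nat.mul_le_mul_left _ hp
      _ ≤ 256 * X := by omega
  · have e : (P * Z) * a1 < (P * Z) * (128 * N * Z ^ 2) := by
      calc (P * Z) * a1 ≤ 64 * X := hA1
        _ < 64 * (2 * (N * Z ^ 3 * P)) := by omega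
        _ = (P * Z) * (128 * N * Z ^ 2) := by ring
    exact (Nat.lt_of_mul_lt_mul_left e).le
  · exact (Nat.le_mul_of_pos_right _ (by omega)).trans hA3
  · have key : S1 * S2 * Z ≤ 4 * Sg := by
      rcases hB with ⟨h, h'⟩ | ⟨h, h'⟩
      · calc S1 * S2 * Z ≤ S1 * P * Z := Nat.mul_le_mul_right _ (Nat.mul_le_mul_left _ h)
          _ = P * Z * S1 := by ring
          _ ≤ 4 * Sg := h'
      · calc S1 * S2 * Z ≤ S1 * (P * Z ^ 2) * Z :=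
              Nat.mul_le_mul_right _ (Nat.mul_le_mul_left _ h)
          _ = P * Z ^ 3 * S1 := by ring
          _ ≤ 4 * Sg := h'
    calc a1 * a2 * Z ≤ (2 * S1) * (2 * S2) * Z := Nat.mul_le_mul_right _ (Nat.mul_le_mul b1 b2)
      _ = 4 * (S1 * S2 * Z) := by ring
      _ ≤ 4 * (4 * Sg) := Nat.mul_le_mul_left _ key
      _ ≤ 128 * X := by omega
  · calc a2 * N * Z ≤ (2 * S2) * N * Z :=
          Nat.mul_le_mul_right _ (Nat.mul_le_mul_right _ b2)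
      _ ≤ (2 * (P * Z ^ 2)) * N * Z :=
          Nat.mul_le_mul_right _ (Nat.mul_le_mul_right _ (Nat.mul_le_mul_left _ hS2))
      _ = 2 * (N * Z ^ 3 * P) := by ring
      _ ≤ 2 * X := Nat.mul_le_mul_left _ hP1

theorem SM5_log (X i : ℕ) (h : 2 ^ i ≤ 1024 * X) : i < Nat.log 2 (1024 * X) + 1 := by
  have hX : 1024 * X ≠ 0 := by
    have : 0 < 2 ^ i := by positivity
    omega
  exact Nat.lt_succ_of_le (Nat.le_log_of_pow_le (by norm_num) h)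

/-- every element is covered -/
theorem SM5_mem (X N Z : ℕ) (hN : 1 ≤ N) (hZ : 2 ≤ Z) (hX : 2 * N ^ 3 * Z ^ 3 ≤ X)
    (h4 : 2 ≤ N ^ 2) (g : SL) (hg : g ∈ GX X) :
    (∃ q ∈ TR X N Z, ∃ g1 ∈ ball (2 ^ q.1), ∃ s ∈ ball (2 ^ q.2.1), ∃ g2 ∈ ball (2 ^ q.2.2),
      g1 * s * g2 = g) ∨
    (∃ q ∈ PR X N Z, ∃ a ∈ Icc 1 (256 * X / (2 ^ q.1 * 2 ^ q.2)), ∃ g1 ∈ ball (2 ^ q.1),
      ∃ g2 ∈ ball (2 ^ q.2), g1 * Um a * g2 = g ∨ g1 * Lm a * g2 = g) := by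
  classical
  unfold GX at hg
  simp only [Finset.mem_filter] at hg
  obtain ⟨-, hnn, g1, g2, g3, g4, g5, g6⟩ := hg
  have hx0 := hnn 1 0
  have hy0 := hnn 1 1
  obtain ⟨Sg, hSg⟩ : ∃ Sg : ℕ, (Sg : ℤ) = S g := ⟨(S g).toNat, by unfold S; omega⟩
  have hS1 : 2 * X < Sg := by
    have : (2 * X : ℤ) < Sg := by rw [hSg]; unfold S; omega
    exact_mod_cast this
  have hS2 : Sg ≤ 8 * X := by
    have : (Sg : ℤ) ≤ 8 * X := by rw [hSg]; unfold S; omega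
    exact_mod_cast this
  have hM : 0 < N * Z ^ 3 := by positivity
  obtain ⟨P, hP⟩ : ∃ P, P = X / (N * Z ^ 3) := ⟨_, rfl⟩
  have hP1 : N * Z ^ 3 * P ≤ X := by rw [hP]; exact Nat.mul_div_le _ _
  have hP2' : X < N * Z ^ 3 * (P + 1) := by
    rw [hP]; exact Nat.lt_mul_div_succ X hM
  have hP3 : 2 * N ^ 2 ≤ P := by
    rw [hP, Nat.le_div_iff_mul_le hM]
    calc 2 * N ^ 2 * (N * Z ^ 3) = 2 * N ^ 3 * Z ^ 3 := by ring
      _ ≤ X := hX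
  have hP4 : 2 ≤ P := by omega
  have hP2 : X < 2 * (N * Z ^ 3 * P) := by
    calc X < N * Z ^ 3 * (P + 1) := hP2'
      _ ≤ N * Z ^ 3 * (2 * P) := Nat.mul_le_mul_left _ (by omega)
      _ = 2 * (N * Z ^ 3 * P) := by ring
  have hN2 : N ^ 2 ≤ P := by omega
  have hCF : ((P : ℤ) * Z ^ 3) < S g := by
    have h5 : P * Z ^ 3 < Sg := by
      calc P * Z ^ 3 ≤ N * (P * Z ^ 3) := Nat.le_mul_of_pos_left _ hN
        _ = N * Z ^ 3 * P := by ring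
        _ ≤ X := hP1
        _ < Sg := by omega
    rw [← hSg]
    exact_mod_cast h5
  rcases CF P Z hP4 hZ g hnn hCF with
    ⟨g1, s, g2, n1, ns, n2, he, k1, -, k3, k4, k5⟩ | ⟨g1, E, g2, a, hE, ha, n1, n2, he, k1, k2⟩
  · left
    obtain ⟨i, s1, hs1, hb1, hu1, hl1, ho1⟩ := SM5_scale g1 n1
    obtain ⟨j, ss, hss, hbs, hus, hls, hos⟩ := SM5_scale s ns
    obtain ⟨l, s2, hs2, hb2, hu2, hl2, ho2⟩ := SM5_scale g2 n2
    rw [← hs2] at k1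
    rw [← hss] at k3
    rw [← hs1, ← hSg] at k4
    rw [← hs1, ← hs2, ← hss, ← hSg] at k5
    obtain ⟨r1, r2, r3, r4, r5⟩ := SM5_arG X N Z P s1 ss s2 Sg (2 ^ i) (2 ^ j) (2 ^ l) hZ
      (by omega) hN2 hP1 hP2 hS1 hS2 (by exact_mod_cast k1) (by exact_mod_cast k3)
      (by exact_mod_cast k4) (by exact_mod_cast k5) hu1 hus hu2 hl1 hls hl2
    have hpi : 0 < 2 ^ i := by positivity
    have hpj : 0 < 2 ^ j := by positivity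
    have hpl : 0 < 2 ^ l := by positivity
    have t1 : 2 ^ i ≤ 1024 * X := by
      calc 2 ^ i ≤ 2 ^ i * (2 ^ j * 2 ^ l) := Nat.le_mul_of_pos_right _ (by positivity)
        _ = 2 ^ i * 2 ^ j * 2 ^ l := by ring
        _ ≤ 1024 * X := r1
    have t2 : 2 ^ j ≤ 1024 * X := by
      calc 2 ^ j ≤ 2 ^ j * (2 ^ i * 2 ^ l) := Nat.le_mul_of_pos_right _ (by positivity)
        _ = 2 ^ i * 2 ^ j * 2 ^ l := by ring
        _ ≤ 1024 * X := r1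
    have t3 : 2 ^ l ≤ 1024 * X := by
      calc 2 ^ l ≤ 2 ^ l * (2 ^ i * 2 ^ j) := Nat.le_mul_of_pos_right _ (by positivity)
        _ = 2 ^ i * 2 ^ j * 2 ^ l := by ring
        _ ≤ 1024 * X := r1
    refine ⟨(i, j, l), ?_, g1, hb1, s, hbs, g2, hb2, he.symm⟩
    unfold TR
    simp only [Finset.mem_filter, Finset.mem_product, Finset.mem_range]
    exact ⟨⟨SM5_log X i t1, SM5_log X j t2, SM5_log X l t3⟩, r1, r2, r3, r4, r5⟩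
  · right
    obtain ⟨i, s1, hs1, hb1, hu1, hl1, ho1⟩ := SM5_scale g1 n1
    obtain ⟨j, s2, hs2, hb2, hu2, hl2, ho2⟩ := SM5_scale g2 n2
    rw [← hs1, ← hs2, ← hSg] at k1 k2
    obtain ⟨r0, r1, r2, r3, r4, r5⟩ := SM5_arB X N Z P s1 s2 Sg a (2 ^ i) (2 ^ j) hZ hN2 hP1 hP2 hS2 (by exact_mod_cast k1) (by exact_mod_cast k2) hu1 hu2
    have t1 : 2 ^ i ≤ 1024 * X := by
      calc 2 ^ i ≤ 2 ^ i * N ^ 2 := Nat.le_mul_of_pos_right _ (by positivity)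
        _ ≤ 64 * X := r2
        _ ≤ 1024 * X := by omega
    have t2 : 2 ^ j ≤ 1024 * X := by
      calc 2 ^ j ≤ 2 ^ j * (N * Z) := Nat.le_mul_of_pos_right _ (by positivity)
        _ = 2 ^ j * N * Z := by ring
        _ ≤ 2 * X := r5
        _ ≤ 1024 * X := by omega
    refine ⟨(i, j), ?_, a, ?_, g1, hb1, g2, hb2, ?_⟩
    · unfold PR
      simp only [Finset.mem_filter, Finset.mem_product, Finset.mem_range]
      exact ⟨⟨SM5_log X i t1, SM5_log X j t2⟩, r1, r2, r3, r4, r5⟩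
    · rw [Finset.mem_Icc]
      exact ⟨ha, (Nat.le_div_iff_mul_le (by positivity)).mpr r0⟩
    · rcases hE with hE | hE
      · left; rw [he, hE]
      · right; rw [he, hE]

/-- [SM5] Proof. `P = X / (N Z³)` (division of naturals), `N² ≤ P`, `X < 2 N Z³ P`, `N Z³ P ≤ X`. Every `g ∈ GX X` satisfies `2 X < S g ≤ 8 X`, so `CF P Z g` applies.
`nm γ ≤ S γ ≤ 4 nm γ` for nonnegative `γ`; put `2^i` = the smallest power of two `≥ nm g1` (`2^i ≤ 2 nm g1`), etc. Class (G): `2^i 2^j 2^l ≤ 8 S S S ≤ 1024 X`,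
`nm g1 ≥ S g1 / 4 ≥ S g / (4 P Z³) ≥ N / 2`, `nm s ≥ Z/4`, `nm g2 ≥ P/4 ≥ N²/4`; `2^i ≤ 2 S g1 ≤ 2 * 16 * 8 X / (Z P) ≤ 512 N Z²`.
Class (B): `2^i ≤ 2 S g1`, `2^j ≤ 2 S g2`, `a 2^i 2^j ≤ 4 * 8 S g ≤ 256 X`; `S g1 ≤ 4 S g / (P Z) ≤ 32 X/(P Z)` so `2^i P Z ≤ 64 X` in both cases (in the second even with `Z³`),
hence `2^i ≤ 64 X/(P Z) ≤ 128 N Z²`; `2^i 2^j Z ≤ 2 * 2 * S g1 S g2 Z ≤ 4 * 32 X`; `2^j ≤ 2 P Z²`, `N P Z³ ≤ X`. -/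
theorem cover (X N Z : ℕ) (hN : 1 ≤ N) (hZ : 2 ≤ Z) (hX : 2 * N ^ 3 * Z ^ 3 ≤ X) (h4 : 2 ≤ N ^ 2)
    (Φ : SL → ℝ) (hΦ : ∀ g, 0 ≤ Φ g) :
    ∑ g ∈ GX X, Φ g ≤
      ∑ q ∈ TR X N Z, ∑ g1 ∈ ball (2 ^ q.1), ∑ s ∈ ball (2 ^ q.2.1), ∑ g2 ∈ ball (2 ^ q.2.2), Φ (g1 * s * g2) +
      ∑ q ∈ PR X N Z, ∑ a ∈ Icc 1 (256 * X / (2 ^ q.1 * 2 ^ q.2)),
        (∑ g1 ∈ ball (2 ^ q.1), ∑ g2 ∈ ball (2 ^ q.2), Φ (g1 * Um a * g2) +
         ∑ g1 ∈ ball (2 ^ q.1), ∑ g2 ∈ ball (2 ^ q.2), Φ (g1 * Lm a * g2)) := by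
  classical
  have key := SM5_sum3
    ((TR X N Z).sigma fun q => ball (2 ^ q.1) ×ˢ (ball (2 ^ q.2.1) ×ˢ ball (2 ^ q.2.2)))
    ((PR X N Z).sigma fun q => Icc 1 (256 * X / (2 ^ q.1 * 2 ^ q.2)) ×ˢ
      (ball (2 ^ q.1) ×ˢ ball (2 ^ q.2)))
    ((PR X N Z).sigma fun q => Icc 1 (256 * X / (2 ^ q.1 * 2 ^ q.2)) ×ˢ
      (ball (2 ^ q.1) ×ˢ ball (2 ^ q.2)))
    (fun t => t.2.1 * t.2.2.1 * t.2.2.2) (fun t => t.2.2.1 * Um (t.2.1 : ℕ) * t.2.2.2)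
    (fun t => t.2.2.1 * Lm (t.2.1 : ℕ) * t.2.2.2) (GX X) Φ hΦ (by
      intro g hg
      rcases SM5_mem X N Z hN hZ hX h4 g hg with
        ⟨q, hq, g1, hg1, s, hs, g2, hg2, he⟩ | ⟨q, hq, a, ha, g1, hg1, g2, hg2, he | he⟩
      · left
        refine ⟨⟨q, (g1, s, g2)⟩, ?_, he⟩
        simp only [Finset.mem_sigma, Finset.mem_product]
        exact ⟨hq, hg1, hs, hg2⟩
      · right; left
        refine ⟨⟨q, (a, g1, g2)⟩, ?_, he⟩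
        simp only [Finset.mem_sigma, Finset.mem_product]
        exact ⟨hq, ha, hg1, hg2⟩
      · right; right
        refine ⟨⟨q, (a, g1, g2)⟩, ?_, he⟩
        simp only [Finset.mem_sigma, Finset.mem_product]
        exact ⟨hq, ha, hg1, hg2⟩)
  refine key.trans (le_of_eq ?_)
  rw [Finset.sum_sigma, Finset.sum_sigma, Finset.sum_sigma, ← Finset.sum_add_distrib]
  congr 1
  · refine Finset.sum_congr rfl fun q _ => ?_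
    rw [Finset.sum_product]
    refine Finset.sum_congr rfl fun g1 _ => ?_
    rw [Finset.sum_product]
  · refine Finset.sum_congr rfl fun q _ => ?_
    rw [Finset.sum_product, Finset.sum_product, ← Finset.sum_add_distrib]
    refine Finset.sum_congr rfl fun a _ => ?_
    rw [Finset.sum_product, Finset.sum_product]

end Pool.Agent.TII
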