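import Pool.Agent.TII.SM3
import Pool.Agent.TII.SM2c
import Pool.Agent.TII.SM5

/-!
# [TII-SM6a] the contribution of class (B)
-/

set_option autoImplicit false

namespace Pool.Agent.TII

open Finset

/-- the quantity whose second moment is estimated -/
noncomputable def VV (DD : Finset (ℕ × ℕ)) (b : ℕ × ℕ → ℝ) (W : Finset ℤ) (g : SL) : ℝ :=
  ∑ p ∈ DD, b p * (FF W p.1 p.2 g - mu W p.1 p.2)

/-- the assumptions on the parameters in the second moment theorem -/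
structure Big (N H Z V X K : ℕ) (T ρ : ℝ) : Prop where
  par : Par N H Z V T
  hZ : 2 ^ 20 ≤ Z
  hX : 2 * N ^ 3 * Z ^ 3 ≤ X
  hK : 1 ≤ K
  hZK : (2 * N) ^ 12 * 4 ^ (2 * K) ≤ Z ^ (2 * K)
  hV : 100 * (2048 * X) ^ (4 * K) ≤ V
  hρ : 0 ≤ ρ
  hρ' : 2000 * T ^ 2 * (960 * T) ^ (2 * K) ≤ ρ ^ K * (((N : ℝ) - 1) / 2)

/-- the assumptions on the coefficients -/
structure Coef (N H : ℕ) (DD : Finset (ℕ × ℕ)) (b : ℕ × ℕ → ℝ) (W : Finset ℤ) : Prop where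
  win : Win N W
  pair : ∀ p ∈ DD, Pair N H p.1 p.2
  b : ∀ p, |b p| ≤ 1

/-- `V² ≤ 2 ∑_{quadruples} F₁₂ F₃₄ + 18 H²` (`card_Pair`, `mu_le`) -/
theorem VV_sq_le {N H : ℕ} (hN : 2 ≤ N) (hH : 1 ≤ H) {DD : Finset (ℕ × ℕ)} {b : ℕ × ℕ → ℝ} {W : Finset ℤ}
    (hc : Coef N H DD b W) (g : SL) :
    VV DD b W g ^ 2 ≤ 2 * ∑ p ∈ DD, ∑ q ∈ DD, FF W p.1 p.2 g * FF W q.1 q.2 g + 18 * (H : ℝ) ^ 2 := by
  have hF0 : ∀ p : ℕ × ℕ, 0 ≤ FF W p.1 p.2 g := fun p => by unfold FF; exact Nat.cast_nonneg _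
  have hN0 : (0 : ℝ) < N := by exact_mod_cast (by omega : 0 < N)
  set A : ℝ := ∑ p ∈ DD, b p * FF W p.1 p.2 g with hA
  set B : ℝ := ∑ p ∈ DD, b p * mu W p.1 p.2 with hB
  have hV : VV DD b W g = A - B := by
    rw [VV, hA, hB, ← Finset.sum_sub_distrib]
    exact Finset.sum_congr rfl fun p _ => by ring
  have hA1 : |A| ≤ ∑ p ∈ DD, FF W p.1 p.2 g := by
    refine (Finset.abs_sum_le_sum_abs _ _).trans (Finset.sum_le_sum fun p _ => ?_)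
    rw [abs_mul, abs_of_nonneg (hF0 p)]
    exact mul_le_of_le_one_left (hF0 p) (hc.b p)
  have hB1 : |B| ≤ 3 * H := by
    calc |B| ≤ ∑ p ∈ DD, (1 / N : ℝ) := by
          refine (Finset.abs_sum_le_sum_abs _ _).trans (Finset.sum_le_sum fun p hp => ?_)
          obtain ⟨h1, h2⟩ := mu_le (hc.pair p hp) hc.win hN
          rw [abs_mul, abs_of_nonneg h1]
          exact (mul_le_of_le_one_left h1 (hc.b p)).trans h2
      _ = DD.card * (1 / N : ℝ) := by rw [Finset.sum_const, nsmul_eq_mul]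
      _ ≤ (3 * N * H) * (1 / N : ℝ) := by
          refine mul_le_mul_of_nonneg_right (card_Pair N H (by omega) hH DD hc.pair) (by positivity)
      _ = 3 * H := by field_simp
  have hA2 : A ^ 2 ≤ ∑ p ∈ DD, ∑ q ∈ DD, FF W p.1 p.2 g * FF W q.1 q.2 g := by
    rw [← Finset.sum_mul_sum, ← sq, ← sq_abs]
    exact pow_le_pow_left₀ (abs_nonneg _) hA1 2
  have hB2 : B ^ 2 ≤ 9 * (H : ℝ) ^ 2 := by
    rw [← sq_abs]
    calc |B| ^ 2 ≤ (3 * H : ℝ) ^ 2 := pow_le_pow_left₀ (abs_nonneg _) hB1 2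
      _ = 9 * (H : ℝ) ^ 2 := by ring
  rw [hV]
  nlinarith [sq_nonneg (A + B)]

/-- [SM6a-1] one pair of scales. Proof. `VV_sq_le`, `B_quad`, `sum_Dq`, `card_Pair`: the sum over the quadruples of `Y (1 + Y/√D)` is at most `9 N² H² Y + 48 H² Y²`;
the number of `a` is at most `256 X/(R Y)`. `(R + N)(9 N² + 48 Y) ≤ C X / Z` by the conditions in `PR`; `card_ball` for `18 H²`. -/
theorem B_pair : ∃ C : ℝ, ∃ k : ℕ, 0 < C ∧ ∀ (N H Z V X K : ℕ) (T ρ : ℝ) (DD : Finset (ℕ × ℕ)) (b : ℕ × ℕ → ℝ)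
    (W : Finset ℤ) (q : ℕ × ℕ) (E : ℕ → SL), Big N H Z V X K T ρ → Coef N H DD b W → q ∈ PR X N Z →
      ∑ a ∈ Icc 1 (256 * X / (2 ^ q.1 * 2 ^ q.2)), ∑ g1 ∈ ball (2 ^ q.1), ∑ g2 ∈ ball (2 ^ q.2),
          VV DD b W (g1 * E a * g2) ^ 2 ≤ C * T ^ k * (H : ℝ) ^ k * ((X : ℝ) ^ 2 / Z) := by
  obtain ⟨C, k, hC, hBq⟩ := B_quad
  refine ⟨2 * C * 256 * 6825 + 18 * 14400 * 256 * 128, k + 2, by positivity, ?_⟩
  intro N H Z V X K T ρ DD b W q E hbig hc hq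
  set R : ℕ := 2 ^ q.1 with hR
  set Y : ℕ := 2 ^ q.2 with hY
  have hR1 : 1 ≤ R := Nat.one_le_two_pow
  have hY1 : 1 ≤ Y := Nat.one_le_two_pow
  have hq' := hq
  simp only [PR, mem_filter, mem_product, mem_range] at hq'
  obtain ⟨⟨hq1, hq2⟩, c1, c2, c3, c4, c5⟩ := hq'
  rw [← hR] at c1 c2 c3 c4
  rw [← hY] at c4 c5
  have hZ := hbig.hZ
  have hH := hbig.par.hH
  have hT2 := hbig.par.loss.two
  have hZ0 : 0 < Z := by omega
  -- `N` is large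
  have hN2 : 2 ≤ N := by
    have h1 := hbig.par.hN
    have h2 : (2 : ℝ) ≤ (10000 * T * H * Z) ^ 100 := by
      have h3 : (1 : ℝ) ≤ H := by exact_mod_cast hH
      have h4 : (1 : ℝ) ≤ Z := by exact_mod_cast (by omega : 1 ≤ Z)
      have h5 : (2 : ℝ) ≤ 10000 * T * H * Z := by
        have : (1 : ℝ) ≤ H * Z := one_le_mul_of_one_le_of_one_le h3 h4
        nlinarith
      calc (2 : ℝ) ≤ 10000 * T * H * Z := h5
        _ ≤ (10000 * T * H * Z) ^ 100 := le_self_pow₀ (by linarith) (by norm_num)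
    exact_mod_cast h2.trans h1
  have hN0 : 0 < N := by omega
  have hX0 : 0 < X := by
    have := hbig.hX
    have h2 : 0 < 2 * N ^ 3 * Z ^ 3 := by positivity
    omega
  -- conditions of `B_quad`
  have cR : 2 * R ^ 2 ≤ N ^ 2 * Z ^ 5 := by
    calc 2 * R ^ 2 ≤ 2 * (128 * N * Z ^ 2) ^ 2 := by gcongr
      _ = N ^ 2 * Z ^ 4 * 2 ^ 15 := by ring
      _ ≤ N ^ 2 * Z ^ 4 * Z := by
          refine Nat.mul_le_mul_left _ ?_
          exact le_trans (by norm_num) hZ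
      _ = N ^ 2 * Z ^ 5 := by ring
  have hYX : Y ≤ 1024 * X := by
    rw [hY]
    exact Nat.pow_le_of_le_log (by omega) (by omega)
  have cY : 100 * Y ^ 4 ≤ V := by
    calc 100 * Y ^ 4 ≤ 100 * (2048 * X) ^ 4 := by
          refine Nat.mul_le_mul_left _ (Nat.pow_le_pow_left (by omega) 4)
      _ ≤ 100 * (2048 * X) ^ (4 * K) := by
          refine Nat.mul_le_mul_left _ (Nat.pow_le_pow_right (by omega) ?_)
          have := hbig.hK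
          omega
      _ ≤ V := hbig.hV
  -- real versions of the conditions
  have rH : (1 : ℝ) ≤ H := by exact_mod_cast hH
  have rZ : (0 : ℝ) < Z := by exact_mod_cast hZ0
  have rX : (0 : ℝ) < X := by exact_mod_cast hX0
  have rR : (0 : ℝ) < R := by exact_mod_cast (by omega : 0 < R)
  have rY : (0 : ℝ) < Y := by exact_mod_cast (by omega : 0 < Y)
  have rN : (0 : ℝ) < N := by exact_mod_cast hN0
  have e3 : (R : ℝ) * N ^ 2 ≤ 64 * (X / Z) := by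
    rw [← mul_div_assoc, le_div_iff₀ rZ]
    exact_mod_cast c3
  have e4 : (R : ℝ) * Y ≤ 128 * (X / Z) := by
    rw [← mul_div_assoc, le_div_iff₀ rZ]
    exact_mod_cast c4
  have e5 : (Y : ℝ) * N ≤ 2 * (X / Z) := by
    rw [← mul_div_assoc, le_div_iff₀ rZ]
    exact_mod_cast c5
  have e6 : (N : ℝ) ^ 3 ≤ X / Z := by
    rw [le_div_iff₀ rZ]
    have h1 : N ^ 3 * Z ≤ X := by
      calc N ^ 3 * Z ≤ 2 * N ^ 3 * Z ^ 3 := by
            have : Z ≤ Z ^ 3 := Nat.le_self_pow (by norm_num) Z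
            nlinarith [Nat.mul_le_mul_left (N ^ 3) this]
        _ ≤ X := hbig.hX
    exact_mod_cast h1
  set A : ℕ := 256 * X / (R * Y) with hAdef
  have hA : (A : ℝ) ≤ 256 * X / (R * Y) := by
    have h := Nat.cast_div_le (α := ℝ) (m := 256 * X) (n := R * Y)
    rw [hAdef]
    calc ((256 * X / (R * Y) : ℕ) : ℝ) ≤ ((256 * X : ℕ) : ℝ) / ((R * Y : ℕ) : ℝ) := h
      _ = 256 * X / (R * Y) := by push_cast; ring
  -- one value of `a`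
  have key : ∀ a : ℕ, ∑ g1 ∈ ball R, ∑ g2 ∈ ball Y, VV DD b W (g1 * E a * g2) ^ 2 ≤
      2 * (C * T ^ k * (H : ℝ) ^ k * (R * (R + N) * (9 * N ^ 2 * H ^ 2 * Y + 48 * H ^ 2 * Y ^ 2))) +
        18 * (H : ℝ) ^ 2 * (120 * R ^ 2 * (120 * Y ^ 2)) := by
    intro a
    have s1 : ∑ g1 ∈ ball R, ∑ g2 ∈ ball Y, VV DD b W (g1 * E a * g2) ^ 2 ≤
        ∑ g1 ∈ ball R, ∑ g2 ∈ ball Y, (2 * ∑ p ∈ DD, ∑ q ∈ DD, FF W p.1 p.2 (g1 * E a * g2) * FF W q.1 q.2 (g1 * E a * g2) +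
          18 * (H : ℝ) ^ 2) :=
      Finset.sum_le_sum fun g1 _ => Finset.sum_le_sum fun g2 _ => VV_sq_le hN2 hH hc _
    have s2 : ∑ g1 ∈ ball R, ∑ g2 ∈ ball Y, (2 * ∑ p ∈ DD, ∑ q ∈ DD, FF W p.1 p.2 (g1 * E a * g2) * FF W q.1 q.2 (g1 * E a * g2) +
          18 * (H : ℝ) ^ 2) =
        2 * ∑ p ∈ DD, ∑ q ∈ DD, ∑ g1 ∈ ball R, ∑ g2 ∈ ball Y, FF W p.1 p.2 (g1 * E a * g2) * FF W q.1 q.2 (g1 * E a * g2) +
          18 * (H : ℝ) ^ 2 * ((ball R).card * (ball Y).card) := by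
      have t1 : ∀ g1 ∈ ball R, ∑ g2 ∈ ball Y, (2 * ∑ p ∈ DD, ∑ q ∈ DD, FF W p.1 p.2 (g1 * E a * g2) * FF W q.1 q.2 (g1 * E a * g2) +
          18 * (H : ℝ) ^ 2) = 2 * ∑ p ∈ DD, ∑ q ∈ DD, ∑ g2 ∈ ball Y, FF W p.1 p.2 (g1 * E a * g2) * FF W q.1 q.2 (g1 * E a * g2) +
          (ball Y).card * (18 * (H : ℝ) ^ 2) := by
        intro g1 _
        rw [Finset.sum_add_distrib, Finset.sum_const, nsmul_eq_mul, ← Finset.mul_sum]
        congr 2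
        rw [Finset.sum_comm]
        refine Finset.sum_congr rfl fun p _ => ?_
        rw [Finset.sum_comm]
      rw [Finset.sum_congr rfl t1, Finset.sum_add_distrib, Finset.sum_const, nsmul_eq_mul, ← Finset.mul_sum]
      congr 1
      · congr 1
        rw [Finset.sum_comm]
        refine Finset.sum_congr rfl fun p _ => ?_
        rw [Finset.sum_comm]
      · ring
    have s3 : ∑ p ∈ DD, ∑ q ∈ DD, ∑ g1 ∈ ball R, ∑ g2 ∈ ball Y, FF W p.1 p.2 (g1 * E a * g2) * FF W q.1 q.2 (g1 * E a * g2) ≤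
        ∑ p ∈ DD, ∑ q ∈ DD, C * T ^ k * (H : ℝ) ^ k * (R * (R + N) * (Y * (1 + Y / Real.sqrt (Dq N p.1 p.2 q.1 q.2)))) :=
      Finset.sum_le_sum fun p hp => Finset.sum_le_sum fun q hq =>
        hBq N H Z V T W p.1 p.2 q.1 q.2 R Y (E a) hbig.par hc.win (hc.pair p hp) (hc.pair q hq) hR1 cR hY1 cY
    have s4 : ∑ p ∈ DD, ∑ q ∈ DD, C * T ^ k * (H : ℝ) ^ k * (R * (R + N) * (Y * (1 + Y / Real.sqrt (Dq N p.1 p.2 q.1 q.2)))) =
        C * T ^ k * (H : ℝ) ^ k * (R * (R + N) * (Y * ((DD.card : ℝ) * DD.card) + Y ^ 2 * ∑ p ∈ DD, ∑ q ∈ DD, 1 / Real.sqrt (Dq N p.1 p.2 q.1 q.2))) := by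
      have t1 : ∀ p q : ℕ × ℕ, C * T ^ k * (H : ℝ) ^ k * (R * (R + N) * (Y * (1 + Y / Real.sqrt (Dq N p.1 p.2 q.1 q.2)))) =
          C * T ^ k * (H : ℝ) ^ k * (R * (R + N) * Y) + C * T ^ k * (H : ℝ) ^ k * (R * (R + N) * Y ^ 2) * (1 / Real.sqrt (Dq N p.1 p.2 q.1 q.2)) := by
        intro p q; ring
      simp_rw [t1, Finset.sum_add_distrib, Finset.sum_const, nsmul_eq_mul, ← Finset.mul_sum]
      ring
    have s5 := sum_Dq N H (by omega) hH DD hc.pair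
    have s6 : (DD.card : ℝ) * DD.card ≤ 9 * N ^ 2 * H ^ 2 := by
      have h1 := card_Pair N H (by omega) hH DD hc.pair
      calc (DD.card : ℝ) * DD.card ≤ (3 * N * H) * (3 * N * H) := by gcongr
        _ = 9 * N ^ 2 * H ^ 2 := by ring
    have hT0 : 0 ≤ T := by linarith
    calc ∑ g1 ∈ ball R, ∑ g2 ∈ ball Y, VV DD b W (g1 * E a * g2) ^ 2
        ≤ 2 * ∑ p ∈ DD, ∑ q ∈ DD, ∑ g1 ∈ ball R, ∑ g2 ∈ ball Y, FF W p.1 p.2 (g1 * E a * g2) * FF W q.1 q.2 (g1 * E a * g2) +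
          18 * (H : ℝ) ^ 2 * ((ball R).card * (ball Y).card) := by rw [← s2]; exact s1
      _ ≤ 2 * (C * T ^ k * (H : ℝ) ^ k * (R * (R + N) * (Y * ((DD.card : ℝ) * DD.card) + Y ^ 2 * ∑ p ∈ DD, ∑ q ∈ DD, 1 / Real.sqrt (Dq N p.1 p.2 q.1 q.2)))) +
          18 * (H : ℝ) ^ 2 * ((ball R).card * (ball Y).card) := by rw [← s4]; gcongr
      _ ≤ 2 * (C * T ^ k * (H : ℝ) ^ k * (R * (R + N) * (Y * (9 * N ^ 2 * H ^ 2) + Y ^ 2 * (48 * (H : ℝ) ^ 2)))) +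
          18 * (H : ℝ) ^ 2 * ((120 * (R : ℝ) ^ 2) * (120 * (Y : ℝ) ^ 2)) := by
          have b1 := card_ball R
          have b2 := card_ball Y
          gcongr
      _ = _ := by ring
  have hT1 : 1 ≤ T := by linarith
  have hT0 : 0 ≤ T := by linarith
  -- sum over `a`
  calc ∑ a ∈ Icc 1 A, ∑ g1 ∈ ball R, ∑ g2 ∈ ball Y, VV DD b W (g1 * E a * g2) ^ 2
      ≤ ∑ a ∈ Icc 1 A, (2 * (C * T ^ k * (H : ℝ) ^ k * (R * (R + N) * (9 * N ^ 2 * H ^ 2 * Y + 48 * H ^ 2 * Y ^ 2))) +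
        18 * (H : ℝ) ^ 2 * (120 * R ^ 2 * (120 * Y ^ 2))) := Finset.sum_le_sum fun a _ => key a
    _ = A * (2 * (C * T ^ k * (H : ℝ) ^ k * (R * (R + N) * (9 * N ^ 2 * H ^ 2 * Y + 48 * H ^ 2 * Y ^ 2))) +
        18 * (H : ℝ) ^ 2 * (120 * R ^ 2 * (120 * Y ^ 2))) := by
        rw [Finset.sum_const, nsmul_eq_mul, Nat.card_Icc]; simp
    _ ≤ (256 * X / (R * Y)) * (2 * (C * T ^ k * (H : ℝ) ^ k * (R * (R + N) * (9 * N ^ 2 * H ^ 2 * Y + 48 * H ^ 2 * Y ^ 2))) +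
        18 * (H : ℝ) ^ 2 * (120 * R ^ 2 * (120 * Y ^ 2))) := by
        refine mul_le_mul_of_nonneg_right hA ?_
        positivity
    _ = 2 * C * T ^ k * (H : ℝ) ^ k * H ^ 2 * 256 * X * (9 * (R * N ^ 2) + 48 * (R * Y) + 9 * N ^ 3 + 48 * (Y * N)) +
        18 * 14400 * 256 * (H : ℝ) ^ 2 * X * (R * Y) := by
        field_simp
        ring
    _ ≤ 2 * C * T ^ k * (H : ℝ) ^ k * H ^ 2 * 256 * X * (9 * (64 * (X / Z)) + 48 * (128 * (X / Z)) + 9 * (X / Z) + 48 * (2 * (X / Z))) +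
        18 * 14400 * 256 * (H : ℝ) ^ 2 * X * (128 * (X / Z)) := by
        gcongr
    _ = 2 * C * 256 * 6825 * (T ^ k * (H : ℝ) ^ (k + 2)) * (X ^ 2 / Z) +
        18 * 14400 * 256 * 128 * (H : ℝ) ^ 2 * (X ^ 2 / Z) := by
        ring
    _ ≤ 2 * C * 256 * 6825 * (T ^ (k + 2) * (H : ℝ) ^ (k + 2)) * (X ^ 2 / Z) +
        18 * 14400 * 256 * 128 * (T ^ (k + 2) * (H : ℝ) ^ (k + 2)) * (X ^ 2 / Z) := by
        have f1 : T ^ k ≤ T ^ (k + 2) := pow_le_pow_right₀ hT1 (by omega)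
        have f2 : (H : ℝ) ^ 2 ≤ T ^ (k + 2) * (H : ℝ) ^ (k + 2) := by
          calc (H : ℝ) ^ 2 ≤ (H : ℝ) ^ (k + 2) := pow_le_pow_right₀ rH (by omega)
            _ ≤ T ^ (k + 2) * (H : ℝ) ^ (k + 2) := le_mul_of_one_le_left (by positivity) (one_le_pow₀ hT1)
        gcongr
    _ = _ := by ring

/-- [SM6a-2] sum over the pairs of scales: at most `T²` of them (`Loss.log`, `Nat.log_mono_right`) -/
theorem B_total : ∃ C : ℝ, ∃ k : ℕ, 0 < C ∧ ∀ (N H Z V X K : ℕ) (T ρ : ℝ) (DD : Finset (ℕ × ℕ)) (b : ℕ × ℕ → ℝ)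
    (W : Finset ℤ), Big N H Z V X K T ρ → Coef N H DD b W →
      ∑ q ∈ PR X N Z, ∑ a ∈ Icc 1 (256 * X / (2 ^ q.1 * 2 ^ q.2)),
        (∑ g1 ∈ ball (2 ^ q.1), ∑ g2 ∈ ball (2 ^ q.2), VV DD b W (g1 * Um a * g2) ^ 2 +
         ∑ g1 ∈ ball (2 ^ q.1), ∑ g2 ∈ ball (2 ^ q.2), VV DD b W (g1 * Lm a * g2) ^ 2) ≤
        C * T ^ k * (H : ℝ) ^ k * ((X : ℝ) ^ 2 / Z) := by
  obtain ⟨C, k, hC, hp⟩ := B_pair
  refine ⟨2 * C, k + 2, by positivity, ?_⟩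
  intro N H Z V X K T ρ DD b W hbig hc
  have hT2 := hbig.par.loss.two
  have hT1 : 1 ≤ T := by linarith
  have hT0 : 0 ≤ T := by linarith
  have hH := hbig.par.hH
  have rH : (1 : ℝ) ≤ H := by exact_mod_cast hH
  have key : ∀ q ∈ PR X N Z, ∑ a ∈ Icc 1 (256 * X / (2 ^ q.1 * 2 ^ q.2)),
        (∑ g1 ∈ ball (2 ^ q.1), ∑ g2 ∈ ball (2 ^ q.2), VV DD b W (g1 * Um a * g2) ^ 2 +
         ∑ g1 ∈ ball (2 ^ q.1), ∑ g2 ∈ ball (2 ^ q.2), VV DD b W (g1 * Lm a * g2) ^ 2) ≤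
        2 * (C * T ^ k * (H : ℝ) ^ k * ((X : ℝ) ^ 2 / Z)) := by
    intro q hq
    rw [Finset.sum_add_distrib, two_mul]
    exact add_le_add (hp N H Z V X K T ρ DD b W q (fun a => Um a) hbig hc hq)
      (hp N H Z V X K T ρ DD b W q (fun a => Lm a) hbig hc hq)
  have hcard : ((PR X N Z).card : ℝ) ≤ T ^ 2 := by
    have h1 : (PR X N Z).card ≤ (Nat.log 2 (1024 * X) + 1) * (Nat.log 2 (1024 * X) + 1) := by
      refine (Finset.card_filter_le _ _).trans ?_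
      rw [Finset.card_product, Finset.card_range]
    have h2 : 1024 * X ≤ V := by
      calc 1024 * X ≤ 2048 * X := by omega
        _ ≤ (2048 * X) ^ (4 * K) := by
            have := hbig.hK
            exact Nat.le_self_pow (by omega) _
        _ ≤ 100 * (2048 * X) ^ (4 * K) := by omega
        _ ≤ V := hbig.hV
    have h3 : ((Nat.log 2 (1024 * X) + 1 : ℕ) : ℝ) ≤ T := by
      have h4 := hbig.par.loss.log
      have h5 : Nat.log 2 (1024 * X) ≤ Nat.log 2 V := Nat.log_mono_right h2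
      have h6 : ((Nat.log 2 (1024 * X) : ℕ) : ℝ) ≤ (Nat.log 2 V : ℕ) := by exact_mod_cast h5
      push_cast
      linarith
    calc ((PR X N Z).card : ℝ) ≤ ((Nat.log 2 (1024 * X) + 1 : ℕ) : ℝ) * ((Nat.log 2 (1024 * X) + 1 : ℕ) : ℝ) := by
          exact_mod_cast h1
      _ ≤ T * T := by gcongr
      _ = T ^ 2 := by ring
  have hXZ : (0 : ℝ) ≤ (X : ℝ) ^ 2 / Z := by positivity
  calc _ ≤ ∑ q ∈ PR X N Z, 2 * (C * T ^ k * (H : ℝ) ^ k * ((X : ℝ) ^ 2 / Z)) := Finset.sum_le_sum key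
    _ = (PR X N Z).card * (2 * (C * T ^ k * (H : ℝ) ^ k * ((X : ℝ) ^ 2 / Z))) := by
        rw [Finset.sum_const, nsmul_eq_mul]
    _ ≤ T ^ 2 * (2 * (C * T ^ k * (H : ℝ) ^ (k + 2) * ((X : ℝ) ^ 2 / Z))) := by
        have f1 : (H : ℝ) ^ k ≤ (H : ℝ) ^ (k + 2) := pow_le_pow_right₀ rH (by omega)
        gcongr
    _ = 2 * C * T ^ (k + 2) * (H : ℝ) ^ (k + 2) * ((X : ℝ) ^ 2 / Z) := by ring

end Pool.Agent.TII
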