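import Pool.Agent.TII.E1
import Pool.Agent.TII.E2
import Pool.Agent.TII.SM6a

/-!
# [TII-E3] the windows attached to a box
-/

set_option autoImplicit false

namespace Pool.Agent.TII

open Finset

/-- the assumptions on the sizes in block E -/
structure Esz (X M N H B : ℕ) : Prop where
  hB : 100 ≤ B
  hH : 1 ≤ H
  hBH : 100 * B * H ≤ N
  hMN : M * N ≤ X ^ 2
  hX : 2 * N ≤ X

/-- lower bound of `M n1 n2 / (q1 q2)` on the box with indices `i1 = B q1 / X`, `i2 = B q2 / X`, `e = B n1 / N` (divisions of naturals) -/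
noncomputable def llo (X M N H B i1 i2 e : ℕ) : ℝ :=
  (M : ℝ) * (e * N) * (e * N - H * B) / ((i1 + 1) * (i2 + 1) * (X : ℝ) ^ 2)

/-- upper bound -/
noncomputable def lhi (X M N H B i1 i2 e : ℕ) : ℝ :=
  (M : ℝ) * ((e + 1) * N) * ((e + 1) * N + H * B) / (i1 * i2 * (X : ℝ) ^ 2)

/-- the lower window -/
noncomputable def Wm (X M N H B i1 i2 e : ℕ) : Finset ℤ :=
  Finset.Ioc ⌊lhi X M N H B i1 i2 e + H⌋ ⌊2 * llo X M N H B i1 i2 e - H - 1⌋

/-- the upper window -/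
noncomputable def Wp (X M N H B i1 i2 e : ℕ) : Finset ℤ :=
  Finset.Ioc ⌊llo X M N H B i1 i2 e - H - 1⌋ ⌊2 * lhi X M N H B i1 i2 e + H⌋

/-- the boxes -/
theorem box_range (X N B q n : ℕ) (hB : 1 ≤ B) (hq : q ∈ Ioc X (2 * X)) (hn : n ∈ Ioc N (2 * N)) :
    B * q / X ∈ Icc B (2 * B) ∧ B * n / N ∈ Icc B (2 * B) := by
  have key : ∀ Y k : ℕ, k ∈ Ioc Y (2 * Y) → B * k / Y ∈ Icc B (2 * B) := by
    intro Y k hk
    rw [mem_Ioc] at hk
    have hY : 0 < Y := by omega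
    rw [mem_Icc]
    constructor
    · rw [Nat.le_div_iff_mul_le hY]
      exact Nat.mul_le_mul_left B hk.1.le
    · have h1 : B * k ≤ 2 * B * Y := by
        calc B * k ≤ B * (2 * Y) := Nat.mul_le_mul_left B hk.2
          _ = 2 * B * Y := by ring
      exact Nat.div_le_of_le_mul (by rw [mul_comm Y]; exact h1)
  exact ⟨key X q hq, key N n hn⟩

/-- [E3a] `llo ≤ M n1 n2 / (q1 q2) ≤ lhi` on the box -/
theorem llo_le (X M N H B : ℕ) (hs : Esz X M N H B) (q1 q2 n1 n2 : ℕ) (hq1 : q1 ∈ Ioc X (2 * X))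
    (hq2 : q2 ∈ Ioc X (2 * X)) (hp : Pair N H n1 n2) :
    llo X M N H B (B * q1 / X) (B * q2 / X) (B * n1 / N) ≤ (M : ℝ) * n1 * n2 / (q1 * q2) ∧
      (M : ℝ) * n1 * n2 / (q1 * q2) ≤ lhi X M N H B (B * q1 / X) (B * q2 / X) (B * n1 / N) := by
  have hB0 : 0 < B := lt_of_lt_of_le (by norm_num) hs.hB
  have hN0 : 0 < N := by
    have := hs.hBH
    have : 0 < B * H := Nat.mul_pos hB0 hs.hH
    nlinarith
  have hX0 : 0 < X := by have := hs.hX; omega
  have hBr : (0 : ℝ) < B := by exact_mod_cast hB0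
  have hNr : (0 : ℝ) < N := by exact_mod_cast hN0
  have hXr : (0 : ℝ) < X := by exact_mod_cast hX0
  have hn1 : n1 ∈ Ioc N (2 * N) := mem_Ioc.2 ⟨hp.l1, hp.u1⟩
  have r1 := (box_range X N B q1 n1 (by omega) hq1 hn1)
  have r2 := (box_range X N B q2 n1 (by omega) hq2 hn1)
  -- real bounds for the quotients
  have key : ∀ Y k : ℕ, 0 < Y → ((B * k / Y : ℕ) : ℝ) * Y ≤ B * k ∧
      (B : ℝ) * k ≤ (((B * k / Y : ℕ) : ℝ) + 1) * Y := by
    intro Y k hY
    constructor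
    · exact_mod_cast Nat.div_mul_le_self (B * k) Y
    · have h := (Nat.lt_div_mul_add (a := B * k) hY).le
      have h' : ((B * k : ℕ) : ℝ) ≤ ((B * k / Y * Y + Y : ℕ) : ℝ) := by exact_mod_cast h
      push_cast at h'
      linarith
  obtain ⟨a1, a2⟩ := key X q1 hX0
  obtain ⟨b1, b2⟩ := key X q2 hX0
  obtain ⟨c1, c2⟩ := key N n1 hN0
  have hi1 : (B : ℝ) ≤ ((B * q1 / X : ℕ) : ℝ) := by exact_mod_cast (mem_Icc.1 r1.1).1
  have hi2 : (B : ℝ) ≤ ((B * q2 / X : ℕ) : ℝ) := by exact_mod_cast (mem_Icc.1 r2.1).1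
  have he : (B : ℝ) ≤ ((B * n1 / N : ℕ) : ℝ) := by exact_mod_cast (mem_Icc.1 r1.2).1
  set i1 : ℝ := ((B * q1 / X : ℕ) : ℝ)
  set i2 : ℝ := ((B * q2 / X : ℕ) : ℝ)
  set e : ℝ := ((B * n1 / N : ℕ) : ℝ)
  have hq1p : (0 : ℝ) < q1 := by
    have := (mem_Ioc.1 hq1).1
    exact_mod_cast (by omega : 0 < q1)
  have hq2p : (0 : ℝ) < q2 := by
    have := (mem_Ioc.1 hq2).1
    exact_mod_cast (by omega : 0 < q2)
  have hHN : (H : ℝ) ≤ N := by
    have h1 := hs.hBH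
    have h2 : H ≤ 100 * B * H := Nat.le_mul_of_pos_left H (by omega)
    exact_mod_cast h2.trans h1
  have hd : |(n1 : ℝ) - n2| ≤ H := by exact_mod_cast hp.dist
  obtain ⟨d1, d2⟩ := abs_le.1 hd
  have hH0 : (0 : ℝ) ≤ H := Nat.cast_nonneg H
  have hM0 : (0 : ℝ) ≤ M := Nat.cast_nonneg M
  have hu : e * N / B ≤ n1 := by rw [div_le_iff₀ hBr]; linarith
  have hw : (e * N - H * B) / B ≤ n2 := by rw [div_le_iff₀ hBr]; nlinarith
  have hu' : (n1 : ℝ) ≤ (e + 1) * N / B := by rw [le_div_iff₀ hBr]; linarith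
  have hw' : (n2 : ℝ) ≤ ((e + 1) * N + H * B) / B := by rw [le_div_iff₀ hBr]; nlinarith
  have hs1 : (q1 : ℝ) ≤ (i1 + 1) * X / B := by rw [le_div_iff₀ hBr]; linarith
  have hs2 : (q2 : ℝ) ≤ (i2 + 1) * X / B := by rw [le_div_iff₀ hBr]; linarith
  have ht1 : i1 * X / B ≤ q1 := by rw [div_le_iff₀ hBr]; linarith
  have ht2 : i2 * X / B ≤ q2 := by rw [div_le_iff₀ hBr]; linarith
  have hi1p : 0 < i1 := hBr.trans_le hi1
  have hi2p : 0 < i2 := hBr.trans_le hi2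
  have hep : 0 < e := hBr.trans_le he
  have hw0 : 0 ≤ (e * N - H * B) / B := by
    apply div_nonneg _ hBr.le
    nlinarith [mul_le_mul he hHN hH0 hep.le]
  unfold llo lhi
  constructor
  · have e1 : (M : ℝ) * (e * N) * (e * N - H * B) / ((i1 + 1) * (i2 + 1) * (X : ℝ) ^ 2) =
        M * (e * N / B) * ((e * N - H * B) / B) / (((i1 + 1) * X / B) * ((i2 + 1) * X / B)) := by
      field_simp
    rw [e1]
    have hn1p : (0 : ℝ) ≤ n1 := Nat.cast_nonneg n1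
    gcongr
  · have e1 : (M : ℝ) * ((e + 1) * N) * ((e + 1) * N + H * B) / (i1 * i2 * (X : ℝ) ^ 2) =
        M * ((e + 1) * N / B) * (((e + 1) * N + H * B) / B) / ((i1 * X / B) * (i2 * X / B)) := by
      field_simp
    rw [e1]
    gcongr

/-- [E3b] `lhi ≤ 4.1 N`, `lhi - llo ≤ 20 N / B + 10 H` for `i1, i2, e ∈ [B, 2B]` -/
theorem lhi_le (X M N H B : ℕ) (hs : Esz X M N H B) (i1 i2 e : ℕ) (h1 : i1 ∈ Icc B (2 * B)) (h2 : i2 ∈ Icc B (2 * B))
    (he : e ∈ Icc B (2 * B)) :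
    0 ≤ llo X M N H B i1 i2 e ∧ lhi X M N H B i1 i2 e ≤ 41 / 10 * N ∧
      lhi X M N H B i1 i2 e - llo X M N H B i1 i2 e ≤ 20 * N / B + 10 * H := by
  have hB0 : 0 < B := lt_of_lt_of_le (by norm_num) hs.hB
  have hN0 : 0 < N := by
    have := hs.hBH
    have : 0 < B * H := Nat.mul_pos hB0 hs.hH
    nlinarith
  have hX0 : 0 < X := by have := hs.hX; omega
  have hBr : (100 : ℝ) ≤ B := by exact_mod_cast hs.hB
  have hBp : (0 : ℝ) < B := by linarith
  have hNr : (0 : ℝ) < N := by exact_mod_cast hN0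
  have hXr : (0 : ℝ) < X := by exact_mod_cast hX0
  have hMN : (M : ℝ) * N ≤ X ^ 2 := by exact_mod_cast hs.hMN
  have hBH : 100 * (B : ℝ) * H ≤ N := by exact_mod_cast hs.hBH
  have hH0 : (0 : ℝ) ≤ H := Nat.cast_nonneg H
  have hM0 : (0 : ℝ) ≤ M := Nat.cast_nonneg M
  rw [mem_Icc] at h1 h2 he
  have a1 : (B : ℝ) ≤ i1 := by exact_mod_cast h1.1
  have b1 : (B : ℝ) ≤ i2 := by exact_mod_cast h2.1
  have c1 : (B : ℝ) ≤ e := by exact_mod_cast he.1
  have c2 : (e : ℝ) ≤ 2 * B := by exact_mod_cast he.2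
  have hi1p : (0 : ℝ) < i1 := hBp.trans_le a1
  have hi2p : (0 : ℝ) < i2 := hBp.trans_le b1
  have hep : (0 : ℝ) < e := hBp.trans_le c1
  unfold llo lhi
  -- `θ = M N / X²`
  set θ : ℝ := (M : ℝ) * N / X ^ 2 with hθ
  have hθ0 : 0 ≤ θ := by positivity
  have hθ1 : θ ≤ 1 := by rw [hθ, div_le_one (by positivity)]; exact hMN
  have hHB : (H : ℝ) * B ≤ N / 100 := by linarith
  set r : ℝ := (e * N - H * B) * e / ((i1 + 1) * (i2 + 1)) with hr
  set R : ℝ := ((e + 1) * N + H * B) * (e + 1) / (i1 * i2) with hR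
  have eL : (M : ℝ) * (e * N) * (e * N - H * B) / ((i1 + 1) * (i2 + 1) * (X : ℝ) ^ 2) = θ * r := by
    rw [hθ, hr]; field_simp
  have eR : (M : ℝ) * ((e + 1) * N) * ((e + 1) * N + H * B) / (i1 * i2 * (X : ℝ) ^ 2) = θ * R := by
    rw [hθ, hR]; field_simp
  rw [eL, eR]
  have hr0 : 0 ≤ r := by
    apply div_nonneg (mul_nonneg _ hep.le) (by positivity)
    nlinarith
  have hR1 : R ≤ 41 / 10 * N := by
    have e1 : R ≤ ((2 * B + 1) * N + H * B) * (2 * B + 1) / (B * B) := by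
      rw [hR]; gcongr
    refine e1.trans ?_
    rw [div_le_iff₀ (by positivity)]
    have e2 : ((2 * (B : ℝ) + 1) * N + H * B) ≤ (2 * B + 1.01) * N := by linarith
    have e3 : ((2 * (B : ℝ) + 1) * N + H * B) * (2 * B + 1) ≤ (2 * B + 1.01) * N * (2 * B + 1) := by gcongr
    refine e3.trans ?_
    have e4 : (2 * (B : ℝ) + 1.01) * (2 * B + 1) ≤ 41 / 10 * (B * B) := by nlinarith
    nlinarith [mul_le_mul_of_nonneg_left e4 hNr.le]
  have hD : R - r ≤ 20 * N / B + 10 * H := by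
    have e1 : R - r = N * ((2 * e + 1) / (i1 * i2) + e ^ 2 * (1 / (i2 + 1) + 1 / (i1 + 1)) / (i1 * i2) -
        e ^ 2 * (1 / ((i1 + 1) * (i2 + 1))) / (i1 * i2)) +
        H * (B * ((e + 1) / (i1 * i2) + e / ((i1 + 1) * (i2 + 1)))) := by
      rw [hR, hr]; field_simp; ring
    have e2 : (2 * (e : ℝ) + 1) / (i1 * i2) ≤ 5 / B := by
      have : (2 * (e : ℝ) + 1) / (i1 * i2) ≤ (2 * (2 * B) + 1) / (B * B) := by gcongr
      refine this.trans ?_
      rw [div_le_div_iff₀ (by positivity) hBp]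
      nlinarith
    have e3 : (e : ℝ) ^ 2 * (1 / (i2 + 1) + 1 / (i1 + 1)) / (i1 * i2) ≤ 8 / B := by
      have h3 : (1 : ℝ) / (i2 + 1) ≤ 1 / B := by
        apply one_div_le_one_div_of_le hBp; linarith
      have h4 : (1 : ℝ) / (i1 + 1) ≤ 1 / B := by
        apply one_div_le_one_div_of_le hBp; linarith
      have : (e : ℝ) ^ 2 * (1 / (i2 + 1) + 1 / (i1 + 1)) / (i1 * i2) ≤ (2 * B) ^ 2 * (1 / B + 1 / B) / (B * B) := by
        gcongr
      refine this.trans (le_of_eq ?_)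
      field_simp; ring
    have e4 : 0 ≤ (e : ℝ) ^ 2 * (1 / ((i1 + 1) * (i2 + 1))) / (i1 * i2) := by positivity
    have e5 : (B : ℝ) * ((e + 1) / (i1 * i2) + e / ((i1 + 1) * (i2 + 1))) ≤ 10 := by
      have h3 : ((e : ℝ) + 1) / (i1 * i2) ≤ (2 * B + 1) / (B * B) := by gcongr
      have h4 : (e : ℝ) / ((i1 + 1) * (i2 + 1)) ≤ (2 * B) / (B * B) := by
        gcongr <;> linarith
      have h5 : (B : ℝ) * ((e + 1) / (i1 * i2) + e / ((i1 + 1) * (i2 + 1))) ≤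
          B * ((2 * B + 1) / (B * B) + (2 * B) / (B * B)) := by gcongr
      refine h5.trans ?_
      rw [← add_div, mul_div_assoc', div_le_iff₀ (by positivity)]
      nlinarith
    rw [e1]
    have e6 : N * ((2 * (e : ℝ) + 1) / (i1 * i2) + e ^ 2 * (1 / (i2 + 1) + 1 / (i1 + 1)) / (i1 * i2) -
        e ^ 2 * (1 / ((i1 + 1) * (i2 + 1))) / (i1 * i2)) ≤ N * (20 / B) := by
      apply mul_le_mul_of_nonneg_left _ hNr.le
      have : (5 : ℝ) / B + 8 / B ≤ 20 / B := by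
        rw [← add_div]; gcongr; norm_num
      linarith
    have e7 : (H : ℝ) * (B * ((e + 1) / (i1 * i2) + e / ((i1 + 1) * (i2 + 1)))) ≤ H * 10 :=
      mul_le_mul_of_nonneg_left e5 hH0
    have e8 : (N : ℝ) * (20 / B) = 20 * N / B := by ring
    linarith
  have hRr : 0 ≤ R - r := by
    have h3 : r ≤ R := by
      rw [hr, hR]
      have h4 : (0 : ℝ) ≤ e * N - H * B := by nlinarith
      apply div_le_div₀ (by positivity) _ (by positivity) _
      · apply mul_le_mul _ (by linarith) hep.le (by positivity)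
        nlinarith
      · nlinarith
    linarith
  refine ⟨mul_nonneg hθ0 hr0, ?_, ?_⟩
  · have hR0 : 0 ≤ R := by positivity
    calc θ * R ≤ 1 * R := by gcongr
      _ ≤ _ := by rw [one_mul]; exact hR1
  · calc θ * R - θ * r = θ * (R - r) := by ring
      _ ≤ 1 * (R - r) := by gcongr
      _ ≤ _ := by rw [one_mul]; exact hD

end Pool.Agent.TII
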