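import Pool.Agent.TII.E4c

/-!
# [TII-E5] the second moment of `UU`
-/

set_option autoImplicit false

namespace Pool.Agent.TII

open Finset

theorem E5_sq_sum (B : ℕ) (f1 f2 : ℕ → ℤ → ℝ) (u c : ℝ)
    (h : |u| ≤ ∑ e ∈ Icc B (2 * B), ∑ i ∈ Icc (-18 : ℤ) 18, (|f1 e i| + |f2 e i|) + c) :
    u ^ 2 ≤ 148 * ((B : ℝ) + 1) * (∑ e ∈ Icc B (2 * B), ∑ i ∈ Icc (-18 : ℤ) 18,
      (f1 e i ^ 2 + f2 e i ^ 2)) + 2 * c ^ 2 := by
  set A := ∑ e ∈ Icc B (2 * B), ∑ i ∈ Icc (-18 : ℤ) 18, (|f1 e i| + |f2 e i|) with hA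
  have h1 : u ^ 2 ≤ (A + c) ^ 2 := by
    rw [← sq_abs u]
    exact pow_le_pow_left₀ (abs_nonneg u) h 2
  have h2 : A ^ 2 ≤ 74 * ((B : ℝ) + 1) * (∑ e ∈ Icc B (2 * B), ∑ i ∈ Icc (-18 : ℤ) 18,
      (f1 e i ^ 2 + f2 e i ^ 2)) := by
    have h3 : A = ∑ x ∈ Icc B (2 * B) ×ˢ Icc (-18 : ℤ) 18, (|f1 x.1 x.2| + |f2 x.1 x.2|) := by
      rw [Finset.sum_product]
    have h4 := sq_sum_le_card_mul_sum_sq (s := Icc B (2 * B) ×ˢ Icc (-18 : ℤ) 18)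
      (f := fun x => (|f1 x.1 x.2| + |f2 x.1 x.2|))
    rw [← h3] at h4
    have h5 : (((Icc B (2 * B) ×ˢ Icc (-18 : ℤ) 18).card : ℕ) : ℝ) = 37 * ((B : ℝ) + 1) := by
      rw [Finset.card_product, Nat.card_Icc, Int.card_Icc]
      have h6 : 2 * B + 1 - B = B + 1 := by omega
      rw [h6]
      push_cast
      norm_num
      ring
    have h7 : ∑ x ∈ Icc B (2 * B) ×ˢ Icc (-18 : ℤ) 18, (|f1 x.1 x.2| + |f2 x.1 x.2|) ^ 2 ≤
        2 * ∑ e ∈ Icc B (2 * B), ∑ i ∈ Icc (-18 : ℤ) 18, (f1 e i ^ 2 + f2 e i ^ 2) := by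
      rw [Finset.sum_product, Finset.mul_sum]
      refine Finset.sum_le_sum fun e _ => ?_
      rw [Finset.mul_sum]
      refine Finset.sum_le_sum fun i _ => ?_
      have h8 := sq_abs (f1 e i)
      have h9 := sq_abs (f2 e i)
      nlinarith [sq_nonneg (|f1 e i| - |f2 e i|)]
    calc A ^ 2 ≤ _ := h4
      _ ≤ (37 * ((B : ℝ) + 1)) * (2 * ∑ e ∈ Icc B (2 * B), ∑ i ∈ Icc (-18 : ℤ) 18,
          (f1 e i ^ 2 + f2 e i ^ 2)) := by
          rw [h5]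
          exact mul_le_mul_of_nonneg_left h7 (by positivity)
      _ = _ := by ring
  nlinarith [sq_nonneg (A - c)]

theorem E5_box (X M N H B : ℕ) (hs : Esz X M N H B) (hX : 2 ≤ X) (S : ℝ)
    (hS : ∀ (DD : Finset (ℕ × ℕ)) (b : ℕ × ℕ → ℝ) (W : Finset ℤ), Coef N H DD b W → ∑ g ∈ GX X, VV DD b W g ^ 2 ≤ S)
    (DD : Finset (ℕ × ℕ)) (b : ℕ × ℕ → ℝ) (hD : ∀ p ∈ DD, Pair N H p.1 p.2) (hb : ∀ p, |b p| ≤ 1)
    (i1 i2 : ℕ) (h1 : i1 ∈ Icc B (2 * B)) (h2 : i2 ∈ Icc B (2 * B)) :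
    ∑ q ∈ (cop X).filter (fun q => (B * q.1 / X, B * q.2 / X) = (i1, i2)), UU M DD b q.1 q.2 ^ 2 ≤
      10952 * ((B : ℝ) + 1) ^ 2 * S + 2 * (1200 * ((H : ℝ) / B)) ^ 2 *
        (((cop X).filter (fun q => (B * q.1 / X, B * q.2 / X) = (i1, i2))).card : ℝ) := by
  set s := (cop X).filter (fun q => (B * q.1 / X, B * q.2 / X) = (i1, i2)) with hsdef
  have hB := hs.hB
  have hH := hs.hH
  have hBH := hs.hBH
  have hN1 : 1 ≤ N := by
    have h1 : 1 ≤ 100 * B * H := Nat.succ_le_of_lt (by positivity)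
    omega
  have hsub : s ⊆ cop X := Finset.filter_subset _ _
  have hq : ∀ q ∈ s, UU M DD b q.1 q.2 ^ 2 ≤ 148 * ((B : ℝ) + 1) *
      (∑ e ∈ Icc B (2 * B), ∑ i ∈ Icc (-18 : ℤ) 18,
        (VV (DDe N B DD e) b (piece N (Wm X M N H B i1 i2 e) i) (gv q.1 q.2) ^ 2 +
         VV (DDe N B DD e) (fun _ => 1) (piece N (Wp X M N H B i1 i2 e \
            Wm X M N H B i1 i2 e) i) (gv q.1 q.2) ^ 2)) + 2 * (1200 * ((H : ℝ) / B)) ^ 2 := by
    intro q hq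
    rw [hsdef, Finset.mem_filter, Prod.mk.injEq] at hq
    obtain ⟨hqc, e1, e2⟩ := hq
    have hqc' := hqc
    unfold cop at hqc'
    rw [Finset.mem_filter, Finset.mem_product] at hqc'
    have h3 := UU_le X M N H B hs q.1 q.2 hqc'.1.1 hqc'.1.2 hqc'.2 DD b hD hb
    rw [e1, e2] at h3
    exact E5_sq_sum B _ _ _ _ h3
  refine (Finset.sum_le_sum hq).trans ?_
  rw [Finset.sum_add_distrib, Finset.sum_const, nsmul_eq_mul, ← Finset.mul_sum]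
  have hwin : ∀ (e : ℕ) (he : e ∈ Icc B (2 * B)) (i : ℤ),
      (∑ q ∈ s, VV (DDe N B DD e) b (piece N (Wm X M N H B i1 i2 e) i) (gv q.1 q.2) ^ 2 ≤ S) ∧
      (∑ q ∈ s, VV (DDe N B DD e) (fun _ => 1) (piece N (Wp X M N H B i1 i2 e \
            Wm X M N H B i1 i2 e) i) (gv q.1 q.2) ^ 2 ≤ S) := by
    intro e he i
    have hws := windows_size X M N H B hs i1 i2 e h1 h2 he
    have hpair : ∀ p ∈ DDe N B DD e, Pair N H p.1 p.2 := fun p hp =>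
      hD p (Finset.mem_of_mem_filter p hp)
    constructor
    · refine (sum_gv_le X hX s hsub (fun g => VV (DDe N B DD e) b
        (piece N (Wm X M N H B i1 i2 e) i) g ^ 2) fun g => sq_nonneg _).trans ?_
      exact hS _ _ _ ⟨piece_win N hN1 _ (fun t ht => hws.2.2 t (hws.1 ht)) i, hpair, hb⟩
    · refine (sum_gv_le X hX s hsub (fun g => VV (DDe N B DD e) (fun _ => 1)
        (piece N (Wp X M N H B i1 i2 e \ Wm X M N H B i1 i2 e) i) g ^ 2) fun g => sq_nonneg _).trans ?_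
      exact hS _ _ _ ⟨piece_win N hN1 _ (fun t ht => hws.2.2 t (Finset.mem_sdiff.1 ht).1) i, hpair,
        fun p => by simp⟩
  have hsum : ∑ q ∈ s, ∑ e ∈ Icc B (2 * B), ∑ i ∈ Icc (-18 : ℤ) 18,
        (VV (DDe N B DD e) b (piece N (Wm X M N H B i1 i2 e) i) (gv q.1 q.2) ^ 2 +
         VV (DDe N B DD e) (fun _ => 1) (piece N (Wp X M N H B i1 i2 e \
            Wm X M N H B i1 i2 e) i) (gv q.1 q.2) ^ 2) ≤ ((B : ℝ) + 1) * (37 * (2 * S)) := by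
    rw [Finset.sum_comm]
    calc ∑ e ∈ Icc B (2 * B), ∑ q ∈ s, ∑ i ∈ Icc (-18 : ℤ) 18,
        (VV (DDe N B DD e) b (piece N (Wm X M N H B i1 i2 e) i) (gv q.1 q.2) ^ 2 +
         VV (DDe N B DD e) (fun _ => 1) (piece N (Wp X M N H B i1 i2 e \
            Wm X M N H B i1 i2 e) i) (gv q.1 q.2) ^ 2)
        ≤ ∑ e ∈ Icc B (2 * B), ∑ i ∈ Icc (-18 : ℤ) 18, (2 * S) := by
          refine Finset.sum_le_sum fun e he => ?_
          rw [Finset.sum_comm]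
          refine Finset.sum_le_sum fun i _ => ?_
          rw [Finset.sum_add_distrib]
          have h4 := hwin e he i
          linarith [h4.1, h4.2]
      _ = ((B : ℝ) + 1) * (37 * (2 * S)) := by
          rw [Finset.sum_const, Finset.sum_const, Nat.card_Icc, Int.card_Icc, nsmul_eq_mul,
            nsmul_eq_mul]
          have h6 : 2 * B + 1 - B = B + 1 := by omega
          rw [h6]
          push_cast
          norm_num
  have h5 : 148 * ((B : ℝ) + 1) * (∑ q ∈ s, ∑ e ∈ Icc B (2 * B), ∑ i ∈ Icc (-18 : ℤ) 18,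
        (VV (DDe N B DD e) b (piece N (Wm X M N H B i1 i2 e) i) (gv q.1 q.2) ^ 2 +
         VV (DDe N B DD e) (fun _ => 1) (piece N (Wp X M N H B i1 i2 e \
            Wm X M N H B i1 i2 e) i) (gv q.1 q.2) ^ 2)) ≤
      148 * ((B : ℝ) + 1) * (((B : ℝ) + 1) * (37 * (2 * S))) :=
    mul_le_mul_of_nonneg_left hsum (by positivity)
  calc _ ≤ 148 * ((B : ℝ) + 1) * (((B : ℝ) + 1) * (37 * (2 * S))) +
        (s.card : ℝ) * (2 * (1200 * ((H : ℝ) / B)) ^ 2) := by linarith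
    _ = _ := by ring

/-- [E5] Proof. For fixed `(i1, i2)` let `s` be the set of the `q ∈ cop X` with `B q1 / X = i1`, `B q2 / X = i2`. `UU_le` and Cauchy–Schwarz (`74 (B + 1)` terms):
`∑_{q ∈ s} UU² ≤ 148 (B+1) ∑_{e, i, ±} ∑_{q ∈ s} VV(gv q)² + 2 (1200 H/B)² |s|`, each inner sum at most `S` (`sum_gv_le`, `hS`, `piece_win`, `windows_size`);
at most `(B+1)²` boxes, `|cop X| ≤ X²`. -/
theorem UU_second (X M N H B : ℕ) (hs : Esz X M N H B) (hX : 2 ≤ X) (S : ℝ)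
    (hS : ∀ (DD : Finset (ℕ × ℕ)) (b : ℕ × ℕ → ℝ) (W : Finset ℤ), Coef N H DD b W → ∑ g ∈ GX X, VV DD b W g ^ 2 ≤ S)
    (DD : Finset (ℕ × ℕ)) (b : ℕ × ℕ → ℝ) (hD : ∀ p ∈ DD, Pair N H p.1 p.2) (hb : ∀ p, |b p| ≤ 1) :
    ∑ q ∈ cop X, UU M DD b q.1 q.2 ^ 2 ≤ 10 ^ 7 * ((B : ℝ) ^ 4 * S + (X : ℝ) ^ 2 * (H : ℝ) ^ 2 / (B : ℝ) ^ 2) := by
  have hB := hs.hB
  have hB1 : 1 ≤ B := by omega
  have hBr : (100 : ℝ) ≤ B := by exact_mod_cast hB
  have hH := hs.hH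
  have hBH := hs.hBH
  have hN1 : 1 ≤ N := by
    have h1 : 1 ≤ 100 * B * H := Nat.succ_le_of_lt (by positivity)
    omega
  have h2N : 2 * N ∈ Ioc N (2 * N) := Finset.mem_Ioc.2 ⟨by omega, le_rfl⟩
  have hS0 : 0 ≤ S := by
    have h1 := hS ∅ (fun _ => 0) ∅ ⟨⟨fun t ht => absurd ht (Finset.notMem_empty t),
      fun t ht => absurd ht (Finset.notMem_empty t)⟩, fun p hp => absurd hp (Finset.notMem_empty p),
      fun p => by simp⟩
    exact (Finset.sum_nonneg fun g _ => sq_nonneg _).trans h1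
  have hmaps : ∀ q ∈ cop X, (B * q.1 / X, B * q.2 / X) ∈ Icc B (2 * B) ×ˢ Icc B (2 * B) := by
    intro q hq
    unfold cop at hq
    rw [Finset.mem_filter, Finset.mem_product] at hq
    rw [Finset.mem_product]
    exact ⟨(box_range X N B q.1 (2 * N) hB1 hq.1.1 h2N).1,
      (box_range X N B q.2 (2 * N) hB1 hq.1.2 h2N).1⟩
  rw [← Finset.sum_fiberwise_of_maps_to (g := fun q : ℕ × ℕ => (B * q.1 / X, B * q.2 / X)) hmaps]
  have h3 : ∀ x ∈ Icc B (2 * B) ×ˢ Icc B (2 * B),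
      ∑ q ∈ (cop X).filter (fun q => (B * q.1 / X, B * q.2 / X) = x), UU M DD b q.1 q.2 ^ 2 ≤
      10952 * ((B : ℝ) + 1) ^ 2 * S + 2 * (1200 * ((H : ℝ) / B)) ^ 2 *
        (((cop X).filter (fun q => (B * q.1 / X, B * q.2 / X) = x)).card : ℝ) := by
    intro x hx
    rw [Finset.mem_product] at hx
    exact E5_box X M N H B hs hX S hS DD b hD hb x.1 x.2 hx.1 hx.2
  refine (Finset.sum_le_sum h3).trans ?_
  rw [Finset.sum_add_distrib, Finset.sum_const, ← Finset.mul_sum, ← Nat.cast_sum,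
    ← Finset.card_eq_sum_card_fiberwise hmaps, Finset.card_product, Nat.card_Icc, nsmul_eq_mul]
  have h6 : 2 * B + 1 - B = B + 1 := by omega
  rw [h6]
  have hcop : (((cop X).card : ℕ) : ℝ) ≤ (X : ℝ) ^ 2 := by
    have h7 : (cop X).card ≤ X * X := by
      unfold cop
      refine (Finset.card_filter_le _ _).trans ?_
      rw [Finset.card_product, Nat.card_Ioc]
      have h8 : 2 * X - X = X := by omega
      rw [h8]
    calc (((cop X).card : ℕ) : ℝ) ≤ ((X * X : ℕ) : ℝ) := by exact_mod_cast h7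
      _ = (X : ℝ) ^ 2 := by push_cast; ring
  push_cast
  have hB4 : ((B : ℝ) + 1) ^ 4 ≤ 2 * (B : ℝ) ^ 4 := by
    have h9 : (B : ℝ) + 1 ≤ 101 / 100 * B := by linarith
    calc ((B : ℝ) + 1) ^ 4 ≤ (101 / 100 * (B : ℝ)) ^ 4 := pow_le_pow_left₀ (by positivity) h9 4
      _ = (101 / 100) ^ 4 * (B : ℝ) ^ 4 := by ring
      _ ≤ 2 * (B : ℝ) ^ 4 := mul_le_mul_of_nonneg_right (by norm_num) (by positivity)
  have h10 : (((B : ℝ) + 1) * ((B : ℝ) + 1)) * (10952 * ((B : ℝ) + 1) ^ 2 * S) ≤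
      10 ^ 7 * ((B : ℝ) ^ 4 * S) := by
    calc (((B : ℝ) + 1) * ((B : ℝ) + 1)) * (10952 * ((B : ℝ) + 1) ^ 2 * S)
        = (10952 * S) * ((B : ℝ) + 1) ^ 4 := by ring
      _ ≤ (10952 * S) * (2 * (B : ℝ) ^ 4) := mul_le_mul_of_nonneg_left hB4 (by positivity)
      _ = 21904 * ((B : ℝ) ^ 4 * S) := by ring
      _ ≤ 10 ^ 7 * ((B : ℝ) ^ 4 * S) :=
        mul_le_mul_of_nonneg_right (by norm_num) (by positivity)
  have h11 : 2 * (1200 * ((H : ℝ) / B)) ^ 2 * (((cop X).card : ℕ) : ℝ) ≤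
      10 ^ 7 * ((X : ℝ) ^ 2 * (H : ℝ) ^ 2 / (B : ℝ) ^ 2) := by
    calc 2 * (1200 * ((H : ℝ) / B)) ^ 2 * (((cop X).card : ℕ) : ℝ)
        ≤ 2 * (1200 * ((H : ℝ) / B)) ^ 2 * (X : ℝ) ^ 2 :=
          mul_le_mul_of_nonneg_left hcop (by positivity)
      _ = 2880000 * ((X : ℝ) ^ 2 * (H : ℝ) ^ 2 / (B : ℝ) ^ 2) := by
          rw [mul_pow, div_pow]
          ring
      _ ≤ _ := mul_le_mul_of_nonneg_right (by norm_num) (by positivity)
  calc _ ≤ 10 ^ 7 * ((B : ℝ) ^ 4 * S) + 10 ^ 7 * ((X : ℝ) ^ 2 * (H : ℝ) ^ 2 / (B : ℝ) ^ 2) :=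
        add_le_add h10 h11
    _ = _ := by ring

end Pool.Agent.TII
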