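import Pool.Agent.TII.Defs

/-!
# [TII-A0] dyadic decomposition; elementary facts on the norm
-/

set_option autoImplicit false

namespace Pool.Agent.TII

open Finset

/-- dyadic decomposition of `∑ w i / f i`. Proof: `2 ^ j ≤ f i < 2 ^ (j + 1)` for `j = Nat.log 2 (f i) ≤ Nat.log 2 V`. -/
theorem dyadic {ι : Type*} (s : Finset ι) (f : ι → ℕ) (V : ℕ) (hf : ∀ i ∈ s, 1 ≤ f i ∧ f i ≤ V)
    (w : ι → ℝ) (hw : ∀ i ∈ s, 0 ≤ w i) :
    ∑ i ∈ s, w i / f i ≤ ∑ j ∈ range (Nat.log 2 V + 1),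
      (1 / 2 ^ j) * ∑ i ∈ s.filter (fun i => f i < 2 ^ (j + 1)), w i := by
  have hmaps : ∀ i ∈ s, Nat.log 2 (f i) ∈ range (Nat.log 2 V + 1) := by
    intro i hi
    rw [Finset.mem_range]
    have := Nat.log_mono_right (b := 2) (hf i hi).2
    omega
  rw [← Finset.sum_fiberwise_of_maps_to hmaps]
  refine Finset.sum_le_sum fun j _ => ?_
  rw [Finset.mul_sum]
  have hsub : s.filter (fun i => Nat.log 2 (f i) = j) ⊆ s.filter (fun i => f i < 2 ^ (j + 1)) := by
    intro i hi
    rw [Finset.mem_filter] at hi ⊢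
    refine ⟨hi.1, ?_⟩
    rw [← hi.2]
    exact Nat.lt_pow_succ_log_self (by norm_num) _
  calc ∑ i ∈ s.filter (fun i => Nat.log 2 (f i) = j), w i / f i
      ≤ ∑ i ∈ s.filter (fun i => Nat.log 2 (f i) = j), 1 / 2 ^ j * w i := by
        refine Finset.sum_le_sum fun i hi => ?_
        rw [Finset.mem_filter] at hi
        have h1 : 2 ^ j ≤ f i := by
          rw [← hi.2]
          exact Nat.pow_log_le_self 2 (by have := (hf i hi.1).1; omega)
        have h2 : ((2 : ℝ) ^ j) ≤ f i := by exact_mod_cast h1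
        rw [div_eq_mul_inv, mul_comm]
        refine mul_le_mul_of_nonneg_right ?_ (hw i hi.1)
        rw [one_div]
        exact inv_anti₀ (by positivity) h2
    _ ≤ ∑ i ∈ s.filter (fun i => f i < 2 ^ (j + 1)), 1 / 2 ^ j * w i := by
        refine Finset.sum_le_sum_of_subset_of_nonneg hsub fun i hi _ => ?_
        have := hw i (Finset.mem_filter.1 hi).1
        positivity

/-- every entry is at most the norm -/
theorem entry_le (g : SL) (i j : Fin 2) : |g.1 i j| ≤ nm g := by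
  unfold nm
  rw [Int.abs_eq_natAbs]
  norm_cast
  fin_cases i <;> fin_cases j <;> simp

theorem exists_entry (g : SL) : ∃ i j : Fin 2, (nm g : ℤ) = |g.1 i j| := by
  unfold nm
  simp only [Int.abs_eq_natAbs]
  rcases max_choice (max (g.1 0 0).natAbs (g.1 0 1).natAbs) (max (g.1 1 0).natAbs (g.1 1 1).natAbs) with h | h
  · rw [h]
    rcases max_choice (g.1 0 0).natAbs (g.1 0 1).natAbs with h | h
    · exact ⟨0, 0, by rw [h]⟩
    · exact ⟨0, 1, by rw [h]⟩
  · rw [h]
    rcases max_choice (g.1 1 0).natAbs (g.1 1 1).natAbs with h | h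
    · exact ⟨1, 0, by rw [h]⟩
    · exact ⟨1, 1, by rw [h]⟩

theorem nm_le_of {g : SL} {R : ℕ} (h : ∀ i j, |g.1 i j| ≤ R) : nm g ≤ R := by
  obtain ⟨i, j, hij⟩ := exists_entry g
  have := h i j
  rw [← hij] at this
  exact_mod_cast this

theorem one_le_nm (g : SL) : 1 ≤ nm g := by
  by_contra hcon
  have h0 : nm g = 0 := by omega
  have h1 : ∀ i j, g.1 i j = 0 := by
    intro i j
    have := entry_le g i j
    rw [h0] at this
    simpa using this
  have hd := g.2
  rw [Matrix.det_fin_two, h1, h1, h1, h1] at hd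
  norm_num at hd

theorem nm_one : nm 1 = 1 := by
  unfold nm
  simp

/-- `Matrix.SpecialLinearGroup.SL2_inv_expl` -/
theorem nm_inv (g : SL) : nm g⁻¹ = nm g := by
  unfold nm
  rw [Matrix.SpecialLinearGroup.SL2_inv_expl]
  simp only [Matrix.cons_val', Matrix.cons_val_zero, Matrix.cons_val_one, Matrix.of_apply,
    Matrix.cons_val_fin_one, Int.natAbs_neg, Fin.isValue]
  omega

theorem mul_entry (g h : SL) (i j : Fin 2) :
    (g * h).1 i j = g.1 i 0 * h.1 0 j + g.1 i 1 * h.1 1 j := by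
  rw [Matrix.SpecialLinearGroup.coe_mul, Matrix.mul_apply, Fin.sum_univ_two]

theorem nm_mul (g h : SL) : nm (g * h) ≤ 2 * nm g * nm h := by
  apply nm_le_of
  intro i j
  rw [mul_entry]
  have h1 := entry_le g i 0
  have h2 := entry_le g i 1
  have h3 := entry_le h 0 j
  have h4 := entry_le h 1 j
  push_cast
  calc |g.1 i 0 * h.1 0 j + g.1 i 1 * h.1 1 j| ≤ |g.1 i 0 * h.1 0 j| + |g.1 i 1 * h.1 1 j| := abs_add_le _ _
    _ = |g.1 i 0| * |h.1 0 j| + |g.1 i 1| * |h.1 1 j| := by rw [abs_mul, abs_mul]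
    _ ≤ nm g * nm h + nm g * nm h := by gcongr
    _ = 2 * nm g * nm h := by ring

theorem nm_le_mul_left (g h : SL) : nm h ≤ 2 * nm g * nm (g * h) := by
  have := nm_mul g⁻¹ (g * h)
  rwa [inv_mul_cancel_left, nm_inv] at this

theorem nm_le_S {g : SL} (hg : Nonneg g) : (nm g : ℤ) ≤ S g := by
  obtain ⟨i, j, hij⟩ := exists_entry g
  have h := hg
  unfold Nonneg at h
  have h00 := h 0 0
  have h01 := h 0 1
  have h10 := h 1 0
  have h11 := h 1 1
  rw [hij, abs_of_nonneg (h i j)]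
  unfold S
  fin_cases i <;> fin_cases j <;> simp only [Fin.zero_eta, Fin.mk_one, Fin.isValue] <;> linarith

theorem S_le_nm (g : SL) : S g ≤ 4 * nm g := by
  unfold S
  have h1 := (le_abs_self _).trans (entry_le g 0 0)
  have h2 := (le_abs_self _).trans (entry_le g 0 1)
  have h3 := (le_abs_self _).trans (entry_le g 1 0)
  have h4 := (le_abs_self _).trans (entry_le g 1 1)
  linarith

end Pool.Agent.TII
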