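import Pool.Agent.TII.A0

/-!
# [TII-F1] pairs in two arithmetic progressions below a hyperbola
-/

set_option autoImplicit false

namespace Pool.Agent.TII

open Finset

/-- [F1a] at most `2 y / β + 1` elements of a residue class modulo `β` in `[-y, y]` -/
theorem card_ap (β y : ℕ) (hβ : 1 ≤ β) (a0 : ℤ) :
    ((((Icc (-(y : ℤ)) y)).filter fun a : ℤ => (β : ℤ) ∣ a - a0).card : ℝ) ≤ 2 * y / β + 1 := by
  set s := ((Icc (-(y : ℤ)) y)).filter fun a : ℤ => (β : ℤ) ∣ a - a0 with hs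
  have hβ0 : (0 : ℝ) < β := by exact_mod_cast hβ
  have hβz : (0 : ℤ) < β := by exact_mod_cast hβ
  rcases s.eq_empty_or_nonempty with h0 | hne
  · rw [h0, card_empty]
    push_cast
    positivity
  · set m := s.min' hne with hm
    have hms : m ∈ s := s.min'_mem hne
    have hmem : ∀ a ∈ s, -(y : ℤ) ≤ a ∧ a ≤ y ∧ (β : ℤ) ∣ a - a0 := by
      intro a ha
      rw [hs, mem_filter, mem_Icc] at ha
      exact ⟨ha.1.1, ha.1.2, ha.2⟩
    have hdvd : ∀ a ∈ s, (β : ℤ) ∣ a - m := by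
      intro a ha
      have := dvd_sub (hmem a ha).2.2 (hmem m hms).2.2
      rwa [sub_sub_sub_cancel_right] at this
    have hcard : s.card ≤ (range (2 * y / β + 1)).card := by
      refine card_le_card_of_injOn (fun a => ((a - m) / β).toNat) ?_ ?_
      · intro a ha
        have h1 := hmem a ha
        have h2 := hmem m hms
        have h3 : (a - m) / β ≤ (2 * y : ℤ) / β :=
          Int.ediv_le_ediv hβz (by linarith [h1.2.1, h2.1])
        rw [mem_coe, mem_range, Nat.lt_succ_iff]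
        rw [Int.toNat_le]
        exact_mod_cast h3
      · intro a ha a' ha' h
        have h1 : 0 ≤ (a - m) / β :=
          Int.ediv_nonneg (sub_nonneg.2 (s.min'_le a ha)) hβz.le
        have h2 : 0 ≤ (a' - m) / β :=
          Int.ediv_nonneg (sub_nonneg.2 (s.min'_le a' ha')) hβz.le
        have h3 : (a - m) / β = (a' - m) / β := by
          have := congrArg (fun n : ℕ => (n : ℤ)) h
          simpa [Int.toNat_of_nonneg h1, Int.toNat_of_nonneg h2] using this
        have h4 := Int.ediv_mul_cancel (hdvd a ha)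
        have h5 := Int.ediv_mul_cancel (hdvd a' ha')
        rw [h3] at h4
        linarith
    rw [card_range] at hcard
    have h6 : (((2 * y / β : ℕ)) : ℝ) ≤ 2 * y / β := by
      have := Nat.cast_div_le (α := ℝ) (m := 2 * y) (n := β)
      push_cast at this
      exact this
    have h7 : (s.card : ℝ) ≤ ((2 * y / β : ℕ) : ℝ) + 1 := by exact_mod_cast hcard
    linarith

/-- [F1b] at most two elements of a residue class with given `|a| / β`: for `a, a' ≥ 0` (or both `< 0`) with `|a| / β = |a'| / β` we have `|a - a'| < β`. -/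
theorem card_ap_cell (β : ℕ) (hβ : 1 ≤ β) (a0 : ℤ) (i : ℕ) (s : Finset ℤ)
    (hs : ∀ a ∈ s, (β : ℤ) ∣ a - a0 ∧ a.natAbs / β = i) : s.card ≤ 2 := by
  have hβz : (0 : ℤ) < β := by exact_mod_cast hβ
  have h1 : s.card ≤ (univ : Finset Bool).card := by
    refine card_le_card_of_injOn (fun a => decide (0 ≤ a)) (fun _ _ => mem_coe.2 (mem_univ _)) ?_
    intro a ha a' ha' h
    have hd : (β : ℤ) ∣ a - a' := by
      have := dvd_sub (hs a ha).1 (hs a' ha').1
      rwa [sub_sub_sub_cancel_right] at this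
    have hb : ∀ x ∈ s, β * i ≤ x.natAbs ∧ x.natAbs < β * i + β := by
      intro x hx
      have h2 := (hs x hx).2
      have h3 := Nat.div_add_mod x.natAbs β
      have h4 := Nat.mod_lt x.natAbs (show β > 0 from hβ)
      rw [h2] at h3
      omega
    have h5 := hb a ha
    have h6 := hb a' ha'
    have h7 : |a - a'| < β := by
      have h8 : (0 ≤ a ↔ 0 ≤ a') := by simpa using h
      generalize β * i = t at h5 h6
      rw [abs_lt]
      by_cases h9 : 0 ≤ a
      · have h10 := h8.1 h9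
        omega
      · have h10 : ¬ 0 ≤ a' := fun hh => h9 (h8.2 hh)
        omega
    have h8 := Int.eq_zero_of_abs_lt_dvd hd h7
    linarith
  simpa using h1

/-- [F1c] `∑_{m ≤ M} τ(m)`: pairs `(i, j)`, `i, j ≥ 1`, `i j ≤ M` -/
theorem card_hyp {V : ℕ} {T : ℝ} (hL : Loss V T) (M : ℕ) (hM : M ≤ V) :
    ((((Icc 1 M) ×ˢ (Icc 1 M)).filter fun p : ℕ × ℕ => p.1 * p.2 ≤ M).card : ℝ) ≤ T * M := by
  classical
  have h1 := card_eq_sum_card_fiberwise (f := fun p : ℕ × ℕ => p.1 * p.2)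
    (s := ((Icc 1 M) ×ˢ (Icc 1 M)).filter fun p : ℕ × ℕ => p.1 * p.2 ≤ M) (t := Icc 1 M) (by
      intro p hp
      rw [mem_coe, mem_filter, mem_product, mem_Icc, mem_Icc] at hp
      rw [mem_coe, mem_Icc]
      exact ⟨Nat.mul_pos hp.1.1.1 hp.1.2.1, hp.2⟩)
  rw [h1]
  push_cast
  calc _ ≤ ∑ _n ∈ Icc 1 M, T := by
        refine sum_le_sum fun n hn => ?_
        rw [mem_Icc] at hn
        refine le_trans ?_ (hL.tau n hn.1 (hn.2.trans hM))
        have h2 : ((((Icc 1 M) ×ˢ (Icc 1 M)).filter fun p : ℕ × ℕ => p.1 * p.2 ≤ M).filter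
            fun p => p.1 * p.2 = n).card ≤ n.divisors.card := by
          refine card_le_card_of_injOn (fun p => p.1) ?_ ?_
          · intro p hp
            rw [mem_coe, mem_filter] at hp
            rw [mem_coe, Nat.mem_divisors]
            exact ⟨⟨p.2, hp.2.symm⟩, by omega⟩
          · intro p hp q hq hpq
            rw [mem_coe, mem_filter, mem_filter, mem_product, mem_Icc] at hp
            rw [mem_coe, mem_filter] at hq
            change p.1 = q.1 at hpq
            have h3 : p.1 * p.2 = p.1 * q.2 := by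
              rw [hp.2, hpq, hq.2]
            exact Prod.ext hpq (Nat.eq_of_mul_eq_mul_left hp.1.1.1.1 h3)
        exact_mod_cast h2
    _ = T * M := by
        rw [sum_const, Nat.card_Icc, nsmul_eq_mul]
        simp [mul_comm]

/-- [F1d] Proof. Pairs with `|a| < β`: at most `2` values of `a` (`card_ap_cell` with `i = 0`), at most `2 y / β + 1` values of `d` (`card_ap`); the same for `|d| < β`. The other pairs:
`i = |a| / β ≥ 1`, `j = |d| / β ≥ 1` (natural division), `i j β² ≤ |a d| ≤ M`, so `i j ≤ M / β²` (natural division) and there are at most `T (M / β²)` pairs `(i, j)` (`card_hyp`) and at most `2 · 2`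
pairs `(a, d)` for each. -/
theorem ap_count {V : ℕ} {T : ℝ} (hL : Loss V T) (β y M : ℕ) (hβ : 1 ≤ β) (a0 d0 : ℤ) (hM : M ≤ V) :
    ((((Icc (-(y : ℤ)) y) ×ˢ (Icc (-(y : ℤ)) y)).filter fun p : ℤ × ℤ =>
      (β : ℤ) ∣ p.1 - a0 ∧ (β : ℤ) ∣ p.2 - d0 ∧ (p.1 * p.2).natAbs ≤ M).card : ℝ) ≤
      4 * (2 * y / β + 1) + 4 * T * M / (β : ℝ) ^ 2 := by
  classical
  set I : Finset ℤ := Icc (-(y : ℤ)) y with hI
  set S : Finset (ℤ × ℤ) := (I ×ˢ I).filter fun p : ℤ × ℤ =>
      (β : ℤ) ∣ p.1 - a0 ∧ (β : ℤ) ∣ p.2 - d0 ∧ (p.1 * p.2).natAbs ≤ M with hS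
  have hβ0 : (0 : ℝ) < β := by exact_mod_cast hβ
  have hT0 : (0 : ℝ) ≤ T := by linarith [hL.two]
  set A : Finset ℤ := I.filter fun a : ℤ => (β : ℤ) ∣ a - a0 with hA
  set B : Finset ℤ := I.filter fun a : ℤ => (β : ℤ) ∣ a - d0 with hB
  have hAc : (A.card : ℝ) ≤ 2 * y / β + 1 := card_ap β y hβ a0
  have hBc : (B.card : ℝ) ≤ 2 * y / β + 1 := card_ap β y hβ d0
  have hA0 : ∀ i, (A.filter fun a => a.natAbs / β = i).card ≤ 2 := fun i =>
    card_ap_cell β hβ a0 i _ (fun a ha => by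
      rw [mem_filter, hA, mem_filter] at ha
      exact ⟨ha.1.2, ha.2⟩)
  have hB0 : ∀ i, (B.filter fun a => a.natAbs / β = i).card ≤ 2 := fun i =>
    card_ap_cell β hβ d0 i _ (fun a ha => by
      rw [mem_filter, hB, mem_filter] at ha
      exact ⟨ha.1.2, ha.2⟩)
  set M' : ℕ := M / β ^ 2 with hM'
  have hM'V : M' ≤ V := (Nat.div_le_self _ _).trans hM
  set S3 : Finset (ℤ × ℤ) := S.filter fun p => p.1.natAbs / β ≠ 0 ∧ p.2.natAbs / β ≠ 0 with hS3
  have hsub : S ⊆ ((A.filter fun a => a.natAbs / β = 0) ×ˢ B) ∪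
      (A ×ˢ (B.filter fun a => a.natAbs / β = 0)) ∪ S3 := by
    intro p hp
    have hp' := hp
    rw [hS, mem_filter, mem_product] at hp'
    have h1 : p.1 ∈ A := mem_filter.2 ⟨hp'.1.1, hp'.2.1⟩
    have h2 : p.2 ∈ B := mem_filter.2 ⟨hp'.1.2, hp'.2.2.1⟩
    by_cases h3 : p.1.natAbs / β = 0
    · exact mem_union_left _ (mem_union_left _ (mem_product.2 ⟨mem_filter.2 ⟨h1, h3⟩, h2⟩))
    · by_cases h4 : p.2.natAbs / β = 0
      · exact mem_union_left _ (mem_union_right _ (mem_product.2 ⟨h1, mem_filter.2 ⟨h2, h4⟩⟩))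
      · exact mem_union_right _ (mem_filter.2 ⟨hp, h3, h4⟩)
  have hc1 : (S.card : ℝ) ≤ 2 * B.card + A.card * 2 + S3.card := by
    have h1 := (card_le_card hsub).trans ((card_union_le _ _).trans
      (Nat.add_le_add_right (card_union_le _ _) _))
    rw [card_product, card_product] at h1
    have h2 := Nat.mul_le_mul_right B.card (hA0 0)
    have h3 := Nat.mul_le_mul_left A.card (hB0 0)
    have h4 : S.card ≤ 2 * B.card + A.card * 2 + S3.card := by omega
    exact_mod_cast h4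
  have hc3 : S3.card ≤ 4 * (((Icc 1 M') ×ˢ (Icc 1 M')).filter
      fun p : ℕ × ℕ => p.1 * p.2 ≤ M').card := by
    refine card_le_mul_card_image_of_maps_to
      (f := fun p : ℤ × ℤ => (p.1.natAbs / β, p.2.natAbs / β)) ?_ 4 ?_
    · intro p hp
      rw [hS3, mem_filter, hS, mem_filter] at hp
      have h1 : p.1.natAbs / β * (p.2.natAbs / β) ≤ M' := by
        rw [hM', Nat.le_div_iff_mul_le (by positivity)]
        calc p.1.natAbs / β * (p.2.natAbs / β) * β ^ 2
            = (p.1.natAbs / β * β) * (p.2.natAbs / β * β) := by ring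
          _ ≤ p.1.natAbs * p.2.natAbs :=
              Nat.mul_le_mul (Nat.div_mul_le_self _ _) (Nat.div_mul_le_self _ _)
          _ = (p.1 * p.2).natAbs := (Int.natAbs_mul _ _).symm
          _ ≤ M := hp.1.2.2.2
      have h2 : 1 ≤ p.1.natAbs / β := Nat.one_le_iff_ne_zero.2 hp.2.1
      have h3 : 1 ≤ p.2.natAbs / β := Nat.one_le_iff_ne_zero.2 hp.2.2
      rw [mem_filter, mem_product, mem_Icc, mem_Icc]
      refine ⟨⟨⟨h2, ?_⟩, h3, ?_⟩, h1⟩
      · exact (Nat.le_mul_of_pos_right _ h3).trans h1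
      · exact (Nat.le_mul_of_pos_left _ h2).trans h1
    · rintro ⟨i, j⟩ _
      have h1 : (S3.filter fun p : ℤ × ℤ => (p.1.natAbs / β, p.2.natAbs / β) = (i, j)) ⊆
          (A.filter fun a => a.natAbs / β = i) ×ˢ (B.filter fun a => a.natAbs / β = j) := by
        intro p hp
        rw [mem_filter, Prod.mk.injEq, hS3, mem_filter, hS, mem_filter, mem_product] at hp
        obtain ⟨⟨⟨⟨p1, p2⟩, p3, p4, -⟩, -⟩, p5, p6⟩ := hp
        exact mem_product.2 ⟨mem_filter.2 ⟨mem_filter.2 ⟨p1, p3⟩, p5⟩,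
          mem_filter.2 ⟨mem_filter.2 ⟨p2, p4⟩, p6⟩⟩
      refine (card_le_card h1).trans ?_
      rw [card_product]
      exact Nat.mul_le_mul (hA0 i) (hB0 j)
  have hc4 := card_hyp hL M' hM'V
  have hc5 : (M' : ℝ) ≤ M / (β : ℝ) ^ 2 := by
    have := Nat.cast_div_le (α := ℝ) (m := M) (n := β ^ 2)
    push_cast at this
    exact this
  have hc6 : (S3.card : ℝ) ≤ 4 * (T * M') := by
    have h1 : (S3.card : ℝ) ≤ 4 * ((((Icc 1 M') ×ˢ (Icc 1 M')).filter
      fun p : ℕ × ℕ => p.1 * p.2 ≤ M').card : ℝ) := by exact_mod_cast hc3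
    linarith
  have hc7 : 4 * (T * M') ≤ 4 * T * M / (β : ℝ) ^ 2 := by
    have h1 := mul_le_mul_of_nonneg_left hc5 hT0
    calc 4 * (T * M') ≤ 4 * (T * (M / (β : ℝ) ^ 2)) := by linarith
      _ = 4 * T * M / (β : ℝ) ^ 2 := by ring
  linarith

end Pool.Agent.TII
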