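import Pool.Agent.TII.A0

/-!
# [TII-F3] sums of `gcd(b, h)²`
-/

set_option autoImplicit false

namespace Pool.Agent.TII

open Finset

private theorem F3_mult (g y : ℕ) (hg : 1 ≤ g) :
    (Icc 1 y).filter (fun b => g ∣ b) = (Icc 1 (y / g)).image (fun j => g * j) := by
  ext b
  simp only [mem_filter, mem_Icc, mem_image]
  constructor
  · rintro ⟨⟨h1, h2⟩, j, rfl⟩
    refine ⟨j, ⟨?_, ?_⟩, rfl⟩
    · rcases Nat.eq_zero_or_pos j with h | h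
      · rw [h] at h1; simp at h1
      · exact h
    · exact (Nat.le_div_iff_mul_le hg).mpr (by rw [mul_comm]; exact h2)
  · rintro ⟨j, ⟨h1, h2⟩, rfl⟩
    have h3 := (Nat.le_div_iff_mul_le hg).mp h2
    exact ⟨⟨Nat.mul_pos hg h1, by rw [mul_comm]; exact h3⟩, dvd_mul_right g j⟩

private theorem F3_sum_mult (g y : ℕ) (hg : 1 ≤ g) (w : ℕ → ℝ) :
    ∑ b ∈ (Icc 1 y).filter (fun b => g ∣ b), w b = ∑ j ∈ Icc 1 (y / g), w (g * j) := by
  rw [F3_mult g y hg, sum_image]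
  intro a _ b _ h
  exact Nat.eq_of_mul_eq_mul_left hg h

private theorem F3_gen (h y : ℕ) (h1 : 1 ≤ h) (w : ℕ → ℝ) (hw : ∀ b, 0 ≤ w b) :
    ∑ b ∈ Icc 1 y, (Nat.gcd b h : ℝ) ^ 2 * w b ≤
      ∑ g ∈ h.divisors, (g : ℝ) ^ 2 * ∑ b ∈ (Icc 1 y).filter (fun b => g ∣ b), w b := by
  have h2 : ∀ b ∈ Icc 1 y, (Nat.gcd b h : ℝ) ^ 2 * w b ≤
      ∑ g ∈ h.divisors, if g ∣ b then (g : ℝ) ^ 2 * w b else 0 := by
    intro b _
    have h3 : Nat.gcd b h ∈ h.divisors :=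
      Nat.mem_divisors.mpr ⟨Nat.gcd_dvd_right b h, by omega⟩
    have h4 := single_le_sum (f := fun g => if g ∣ b then (g : ℝ) ^ 2 * w b else 0)
      (fun g _ => by
        show 0 ≤ if g ∣ b then (g : ℝ) ^ 2 * w b else 0
        split_ifs
        · exact mul_nonneg (sq_nonneg _) (hw b)
        · exact le_refl 0) h3
    have h5 : (if Nat.gcd b h ∣ b then ((Nat.gcd b h : ℕ) : ℝ) ^ 2 * w b else 0) =
        (Nat.gcd b h : ℝ) ^ 2 * w b := if_pos (Nat.gcd_dvd_left b h)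
    calc (Nat.gcd b h : ℝ) ^ 2 * w b =
        if Nat.gcd b h ∣ b then ((Nat.gcd b h : ℕ) : ℝ) ^ 2 * w b else 0 := h5.symm
      _ ≤ _ := h4
  refine (sum_le_sum h2).trans (le_of_eq ?_)
  rw [sum_comm]
  refine sum_congr rfl fun g _ => ?_
  rw [mul_sum, sum_filter]

private theorem F3_harm (n : ℕ) : ∑ j ∈ Icc 1 n, (1 : ℝ) / j ≤ Nat.log 2 n + 2 := by
  have h1 := harmonic_le_one_add_log n
  rw [harmonic_eq_sum_Icc] at h1
  push_cast at h1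
  have h2 : Real.log n ≤ Nat.log 2 n + 1 := by
    rcases Nat.eq_zero_or_pos n with h | h
    · subst h; simp
    · have h3 : n < 2 ^ (Nat.log 2 n + 1) := Nat.lt_pow_succ_log_self (by norm_num) n
      have h4 : (n : ℝ) ≤ 2 ^ (Nat.log 2 n + 1) := by exact_mod_cast h3.le
      have h5 := Real.log_le_log (by exact_mod_cast h) h4
      rw [Real.log_pow] at h5
      have h6 : Real.log 2 ≤ 1 := by
        have := Real.log_two_lt_d9; linarith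
      push_cast at h5
      nlinarith [(Nat.cast_nonneg (Nat.log 2 n) : (0 : ℝ) ≤ Nat.log 2 n)]
  have h7 : ∑ j ∈ Icc 1 n, (1 : ℝ) / j = ∑ j ∈ Icc 1 n, ((j : ℝ))⁻¹ :=
    sum_congr rfl fun j _ => one_div _
  rw [h7]
  linarith

private theorem F3_sum_div (h : ℕ) (h1 : 1 ≤ h) {T : ℝ} (hT : (h.divisors.card : ℝ) ≤ T) :
    ∑ g ∈ h.divisors, (g : ℝ) ≤ T * h := by
  calc ∑ g ∈ h.divisors, (g : ℝ) ≤ ∑ _g ∈ h.divisors, (h : ℝ) := by
        refine sum_le_sum fun g hg => ?_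
        exact_mod_cast Nat.le_of_dvd h1 (Nat.dvd_of_mem_divisors hg)
    _ = (h.divisors.card : ℝ) * h := by rw [sum_const, nsmul_eq_mul]
    _ ≤ T * h := by gcongr

/-- [F3a] Proof. `gcd(b, h)² ≤ ∑_{g ∣ h, g ∣ b} g²`; swap: `∑_{g ∣ h} g² ⌊y / g⌋ ≤ y ∑_{g ∣ h} g ≤ y T h`. -/
theorem gcd_sq_sum {V : ℕ} {T : ℝ} (hL : Loss V T) (h : ℕ) (h1 : 1 ≤ h) (hV : h ≤ V) (y : ℕ) :
    ∑ b ∈ Icc 1 y, (Nat.gcd b h : ℝ) ^ 2 ≤ T * h * y := by
  have h2 := F3_gen h y h1 (fun _ => 1) (fun _ => zero_le_one)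
  simp only [mul_one] at h2
  refine h2.trans ?_
  calc ∑ g ∈ h.divisors, (g : ℝ) ^ 2 * ∑ _b ∈ (Icc 1 y).filter (fun b => g ∣ b), (1 : ℝ)
      ≤ ∑ g ∈ h.divisors, (g : ℝ) * y := by
        refine sum_le_sum fun g hg => ?_
        have hg1 : 1 ≤ g := Nat.pos_of_mem_divisors hg
        rw [F3_sum_mult g y hg1]
        have h3 : ∑ _j ∈ Icc 1 (y / g), (1 : ℝ) = ((y / g : ℕ) : ℝ) := by
          rw [sum_const, Nat.card_Icc]; simp
        rw [h3]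
        have h4 : ((y / g * g : ℕ) : ℝ) ≤ y := by exact_mod_cast Nat.div_mul_le_self y g
        push_cast at h4
        have h5 : (0 : ℝ) ≤ g := Nat.cast_nonneg g
        nlinarith
    _ = (∑ g ∈ h.divisors, (g : ℝ)) * y := by rw [sum_mul]
    _ ≤ T * h * y := by
        have h6 := F3_sum_div h h1 (hL.tau h h1 hV)
        gcongr

/-- [F3b] Proof. `∑_{g ∣ h} g² ∑_{j ≤ y / g} 1 / (g j) ≤ ∑_{g ∣ h} g (1 + log₂ V) ≤ T h T` (`∑_{j ≤ y} 1 / j ≤ 1 + log₂ y`). -/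
theorem gcd_sq_div_sum {V : ℕ} {T : ℝ} (hL : Loss V T) (h : ℕ) (h1 : 1 ≤ h) (hV : h ≤ V) (y : ℕ) (hy : y ≤ V) :
    ∑ b ∈ Icc 1 y, (Nat.gcd b h : ℝ) ^ 2 / b ≤ T ^ 2 * h := by
  have hT0 : 0 ≤ T := by linarith [hL.two]
  have h2 := F3_gen h y h1 (fun b => 1 / (b : ℝ)) (fun b => by positivity)
  have h3 : ∑ b ∈ Icc 1 y, (Nat.gcd b h : ℝ) ^ 2 / b =
      ∑ b ∈ Icc 1 y, (Nat.gcd b h : ℝ) ^ 2 * (1 / (b : ℝ)) :=
    sum_congr rfl fun b _ => by rw [mul_one_div]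
  rw [h3]
  refine h2.trans ?_
  calc ∑ g ∈ h.divisors, (g : ℝ) ^ 2 * ∑ b ∈ (Icc 1 y).filter (fun b => g ∣ b), 1 / (b : ℝ)
      ≤ ∑ g ∈ h.divisors, (g : ℝ) * T := by
        refine sum_le_sum fun g hg => ?_
        have hg1 : 1 ≤ g := Nat.pos_of_mem_divisors hg
        have hg0 : (0 : ℝ) < g := by exact_mod_cast hg1
        rw [F3_sum_mult g y hg1 (fun b => 1 / (b : ℝ))]
        have h4 : ∑ j ∈ Icc 1 (y / g), 1 / (((g * j : ℕ)) : ℝ) =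
            (1 / (g : ℝ)) * ∑ j ∈ Icc 1 (y / g), 1 / (j : ℝ) := by
          rw [mul_sum]
          refine sum_congr rfl fun j _ => ?_
          push_cast
          rw [one_div_mul_one_div]
        rw [h4]
        have h5 := F3_harm (y / g)
        have h6 : Nat.log 2 (y / g) ≤ Nat.log 2 V :=
          Nat.log_mono_right ((Nat.div_le_self y g).trans hy)
        have h7 : (Nat.log 2 (y / g) : ℝ) ≤ Nat.log 2 V := by exact_mod_cast h6
        have h8 : ∑ j ∈ Icc 1 (y / g), 1 / (j : ℝ) ≤ T := by linarith [hL.log]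
        calc (g : ℝ) ^ 2 * (1 / (g : ℝ) * ∑ j ∈ Icc 1 (y / g), 1 / (j : ℝ))
            = (g : ℝ) * ∑ j ∈ Icc 1 (y / g), 1 / (j : ℝ) := by field_simp
          _ ≤ (g : ℝ) * T := by gcongr
    _ = (∑ g ∈ h.divisors, (g : ℝ)) * T := by rw [sum_mul]
    _ ≤ T * h * T := by
        have h6 := F3_sum_div h h1 (hL.tau h h1 hV)
        gcongr
    _ = T ^ 2 * h := by ring

/-- [F3c] Proof. `b = p b'`, `gcd(p b', h) = gcd(b', h)` because the prime `p` does not divide `h`; `gcd_sq_sum` for `b' ≤ y / p`. -/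
theorem gcd_sq_sum_mul {V : ℕ} {T : ℝ} (hL : Loss V T) (h : ℕ) (h1 : 1 ≤ h) (hV : h ≤ V) (y p : ℕ) (hp : p.Prime)
    (hph : ¬ p ∣ h) :
    ∑ b ∈ (Icc 1 y).filter (fun b => p ∣ b), (Nat.gcd b h : ℝ) ^ 2 ≤ T * h * y / p := by
  have hT0 : 0 ≤ T := by linarith [hL.two]
  rw [F3_sum_mult p y hp.one_lt.le (fun b => (Nat.gcd b h : ℝ) ^ 2)]
  have h2 : ∀ j ∈ Icc 1 (y / p), ((Nat.gcd (p * j) h : ℕ) : ℝ) ^ 2 = (Nat.gcd j h : ℝ) ^ 2 := by
    intro j _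
    have h3 : Nat.Coprime p h := (Nat.Prime.coprime_iff_not_dvd hp).mpr hph
    rw [Nat.Coprime.gcd_mul_left_cancel j h3]
  rw [sum_congr rfl h2]
  refine (gcd_sq_sum hL h h1 hV (y / p)).trans ?_
  rw [mul_div_assoc]
  have h4 : ((y / p : ℕ) : ℝ) ≤ (y : ℝ) / p := Nat.cast_div_le
  have h5 : 0 ≤ T * h := by positivity
  exact mul_le_mul_of_nonneg_left h4 h5

end Pool.Agent.TII
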