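import Pool.Agent.TII.A5

/-!
# [TII-A7] sums over finite `SL₂(ℤ)`-sets
-/

set_option autoImplicit false

namespace Pool.Agent.TII

open Finset

/-- sums over pairs of a ball, by the quotient `g g'⁻¹` -/
theorem pair_sum (R : ℕ) (A : Finset SL) (hA : ∀ g ∈ A, g ∈ ball R) (Φ : SL → ℝ) (hΦ : ∀ δ, 0 ≤ Φ δ) :
    ∑ g ∈ A, ∑ g' ∈ A, Φ (g * g'⁻¹) ≤ ∑ δ ∈ ball (2 * R ^ 2), 120 * (R : ℝ) ^ 2 * Φ δ / nm δ := by
  classical
  rw [← Finset.sum_product' (f := fun g g' => Φ (g * g'⁻¹))]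
  have hmaps : ∀ p ∈ A ×ˢ A, p.1 * p.2⁻¹ ∈ ball (2 * R ^ 2) := by
    intro p hp
    rw [Finset.mem_product] at hp
    rw [mem_ball]
    have h1 := nm_mul p.1 p.2⁻¹
    rw [nm_inv] at h1
    have h2 := mem_ball.1 (hA _ hp.1)
    have h3 := mem_ball.1 (hA _ hp.2)
    calc nm (p.1 * p.2⁻¹) ≤ 2 * nm p.1 * nm p.2 := h1
      _ ≤ 2 * R * R := by gcongr
      _ = 2 * R ^ 2 := by ring
  rw [← Finset.sum_fiberwise_of_maps_to hmaps]
  refine Finset.sum_le_sum fun δ _ => ?_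
  have h1 : ∑ p ∈ (A ×ˢ A).filter (fun p => p.1 * p.2⁻¹ = δ), Φ (p.1 * p.2⁻¹) =
      (((A ×ˢ A).filter (fun p => p.1 * p.2⁻¹ = δ)).card : ℝ) * Φ δ := by
    rw [← nsmul_eq_mul, ← Finset.sum_const]
    refine Finset.sum_congr rfl fun p hp => ?_
    rw [(Finset.mem_filter.1 hp).2]
  rw [h1]
  have h2 : ((A ×ˢ A).filter (fun p => p.1 * p.2⁻¹ = δ)).card ≤
      ((ball R).filter fun g => g⁻¹ * δ ∈ ball R).card := by
    refine Finset.card_le_card_of_injOn Prod.fst ?_ ?_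
    · intro p hp
      rw [Finset.mem_coe, Finset.mem_filter, Finset.mem_product] at hp
      rw [Finset.mem_coe, Finset.mem_filter]
      refine ⟨hA _ hp.1.1, ?_⟩
      rw [← hp.2, inv_mul_cancel_left, mem_ball, nm_inv]
      exact mem_ball.1 (hA _ hp.1.2)
    · intro p hp q hq h
      rw [Finset.mem_coe, Finset.mem_filter] at hp hq
      have h3 := hp.2.trans hq.2.symm
      rw [h] at h3
      have h4 := inv_injective (mul_left_cancel h3)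
      exact Prod.ext h h4
  have h3 : (((A ×ˢ A).filter (fun p => p.1 * p.2⁻¹ = δ)).card : ℝ) ≤
      (((ball R).filter fun g => g⁻¹ * δ ∈ ball R).card : ℝ) := by exact_mod_cast h2
  have h4 := lemL δ R R
  have hδ : (0 : ℝ) < nm δ := by exact_mod_cast one_le_nm δ
  rw [le_div_iff₀ hδ]
  have h5 := hΦ δ
  calc (((A ×ˢ A).filter (fun p => p.1 * p.2⁻¹ = δ)).card : ℝ) * Φ δ * nm δ
      = ((((A ×ˢ A).filter (fun p => p.1 * p.2⁻¹ = δ)).card : ℝ) * nm δ) * Φ δ := by ring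
    _ ≤ (120 * R * R) * Φ δ := by
        refine mul_le_mul_of_nonneg_right (le_trans ?_ h4) h5
        gcongr
    _ = _ := by ring

variable {Ω : Type} [MulAction SL Ω] [Fintype Ω]

/-- the action of one element is a permutation: `Fintype.sum_bijective`, `MulAction.bijective` -/
theorem sum_smul (E : SL) (f : Ω → ℝ) : ∑ z, f (E • z) = ∑ z, f z :=
  Equiv.sum_comp (MulAction.toPerm E) f

theorem n2_smul (E : SL) (f : Ω → ℝ) : n2 (fun z => f (E • z)) = n2 f := by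
  unfold n2
  exact sum_smul E (fun z => f z ^ 2)

omit [MulAction SL Ω] in
theorem n2_nonneg (f : Ω → ℝ) : 0 ≤ n2 f := by
  unfold n2
  exact Finset.sum_nonneg fun z _ => sq_nonneg _

/-- `(∑ f)² ≤ …`: the sum of a translate average -/
theorem av_sum (A : Finset SL) (f : Ω → ℝ) : ∑ z, av A f z = A.card * ∑ z, f z := by
  unfold av
  rw [Finset.sum_comm]
  simp only [sum_smul]
  rw [Finset.sum_const, nsmul_eq_mul]

omit [MulAction SL Ω] in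
/-- `‖∑ fᵢ‖² ≤ k ∑ ‖fᵢ‖²` -/
theorem n2_add4 (f₁ f₂ f₃ f₄ : Ω → ℝ) :
    n2 (fun z => f₁ z + f₂ z + f₃ z + f₄ z) ≤ 4 * (n2 f₁ + n2 f₂ + n2 f₃ + n2 f₄) := by
  unfold n2
  rw [← Finset.sum_add_distrib, ← Finset.sum_add_distrib, ← Finset.sum_add_distrib, Finset.mul_sum]
  refine Finset.sum_le_sum fun z _ => ?_
  nlinarith [sq_nonneg (f₁ z - f₂ z), sq_nonneg (f₁ z - f₃ z), sq_nonneg (f₁ z - f₄ z),
    sq_nonneg (f₂ z - f₃ z), sq_nonneg (f₂ z - f₄ z), sq_nonneg (f₃ z - f₄ z)]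

omit [Fintype Ω] in
theorem av_add4 (A : Finset SL) (f₁ f₂ f₃ f₄ : Ω → ℝ) :
    av A (fun z => f₁ z + f₂ z + f₃ z + f₄ z) = fun z => av A f₁ z + av A f₂ z + av A f₃ z + av A f₄ z := by
  funext z
  unfold av
  rw [← Finset.sum_add_distrib, ← Finset.sum_add_distrib, ← Finset.sum_add_distrib]

omit [Fintype Ω] in
theorem av_const_mul (A : Finset SL) (c : ℝ) (f : Ω → ℝ) : av A (fun z => c * f z) = fun z => c * av A f z := by
  funext z
  unfold av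
  rw [Finset.mul_sum]

/-- the sum over a ball of the orbit map, as a sum over the orbit -/
theorem sum_ball_eq (Y : ℕ) (f : Ω → ℝ) (z₀ : Ω) :
    ∑ g ∈ ball Y, f (g • z₀) = ∑ z, f z * nu z₀ Y z := by
  classical
  rw [← Finset.sum_fiberwise (ball Y) (fun g => g • z₀)]
  refine Finset.sum_congr rfl fun z _ => ?_
  have h : ∀ g ∈ (ball Y).filter (fun g => g • z₀ = z), f (g • z₀) = f z := by
    intro g hg
    rw [(Finset.mem_filter.1 hg).2]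
  rw [Finset.sum_congr rfl h, Finset.sum_const, nsmul_eq_mul, mul_comm]
  unfold nu
  congr

theorem abs_sum_ball_le (Y : ℕ) (f : Ω → ℝ) (z₀ : Ω) :
    |∑ g ∈ ball Y, f (g • z₀)| ≤ Real.sqrt (n2 f) * Real.sqrt (n2 (nu z₀ Y)) := by
  rw [sum_ball_eq, ← Real.sqrt_mul (n2_nonneg f)]
  apply Real.abs_le_sqrt
  unfold n2
  exact Finset.sum_mul_sq_le_sq_mul_sq _ _ _

/-- [A7a] The basic inequality: the sum is `∑_z ν(z) (av B (av A f))(z)`, Cauchy–Schwarz. -/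
theorem triple_sum (A B : Finset SL) (Y : ℕ) (f : Ω → ℝ) (z₀ : Ω) :
    |∑ g1 ∈ A, ∑ s ∈ B, ∑ g2 ∈ ball Y, f ((g1 * s * g2) • z₀)| ≤
      Real.sqrt (n2 (av B (av A f))) * Real.sqrt (n2 (nu z₀ Y)) := by
  have e : ∑ g1 ∈ A, ∑ s ∈ B, ∑ g2 ∈ ball Y, f ((g1 * s * g2) • z₀) =
      ∑ g ∈ ball Y, av B (av A f) (g • z₀) := by
    unfold av
    rw [Finset.sum_comm]
    calc ∑ s ∈ B, ∑ g1 ∈ A, ∑ g2 ∈ ball Y, f ((g1 * s * g2) • z₀)
        = ∑ s ∈ B, ∑ g2 ∈ ball Y, ∑ g1 ∈ A, f ((g1 * s * g2) • z₀) :=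
          Finset.sum_congr rfl fun s _ => Finset.sum_comm
      _ = ∑ g2 ∈ ball Y, ∑ s ∈ B, ∑ g1 ∈ A, f ((g1 * s * g2) • z₀) := Finset.sum_comm
      _ = _ := by
          refine Finset.sum_congr rfl fun g2 _ => Finset.sum_congr rfl fun s _ => Finset.sum_congr rfl fun g1 _ => ?_
          rw [mul_smul, mul_smul]
  rw [e]
  exact abs_sum_ball_le Y _ z₀

/-- [A7b] the same with a single element `E` in the middle: `av {E}` preserves the norm -/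
theorem double_sum (A : Finset SL) (E : SL) (Y : ℕ) (f : Ω → ℝ) (z₀ : Ω) :
    |∑ g1 ∈ A, ∑ g2 ∈ ball Y, f ((g1 * E * g2) • z₀)| ≤
      Real.sqrt (n2 (av A f)) * Real.sqrt (n2 (nu z₀ Y)) := by
  have e : ∑ g1 ∈ A, ∑ g2 ∈ ball Y, f ((g1 * E * g2) • z₀) =
      ∑ g ∈ ball Y, (fun z => av A f (E • z)) (g • z₀) := by
    unfold av
    rw [Finset.sum_comm]
    refine Finset.sum_congr rfl fun g2 _ => Finset.sum_congr rfl fun g1 _ => ?_
    rw [mul_smul, mul_smul]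
  rw [e]
  refine (abs_sum_ball_le Y (fun z => av A f (E • z)) z₀).trans (le_of_eq ?_)
  rw [n2_smul E (av A f)]

/-- [A7c] trivial bound of the middle average: triangle inequality, `n2_smul` -/
theorem av_le (B : Finset SL) (f : Ω → ℝ) : n2 (av B f) ≤ (B.card : ℝ) ^ 2 * n2 f := by
  have h1 : ∀ z : Ω, av B f z ^ 2 ≤ (B.card : ℝ) * ∑ g ∈ B, f (g • z) ^ 2 := by
    intro z
    unfold av
    exact sq_sum_le_card_mul_sum_sq
  calc n2 (av B f) = ∑ z, av B f z ^ 2 := rfl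
    _ ≤ ∑ z, (B.card : ℝ) * ∑ g ∈ B, f (g • z) ^ 2 := Finset.sum_le_sum fun z _ => h1 z
    _ = (B.card : ℝ) * ∑ g ∈ B, ∑ z, f (g • z) ^ 2 := by rw [← Finset.mul_sum, Finset.sum_comm]
    _ = (B.card : ℝ) * ∑ _g ∈ B, n2 f := by
        congr 1
        refine Finset.sum_congr rfl fun g _ => ?_
        exact n2_smul g f
    _ = (B.card : ℝ) ^ 2 * n2 f := by rw [Finset.sum_const, nsmul_eq_mul]; ring

/-- [A7d] Proof. `‖ν‖² = #{(g, g') ∈ (ball Y)² : g z₀ = g' z₀}`, `s = g'⁻¹ g` fixes `z₀`, `nm s ≤ 2 Y²`; for given `s` the number of pairs is the number of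
`x = g'⁻¹ ∈ ball Y` with `x⁻¹ s ∈ ball Y`: at most `120 Y²/nm s` (`lemL`, `nm_inv`). `dyadic`, `stab_count`. -/
theorem nu_norm {V : ℕ} {T : ℝ} (hL : Loss V T) (q1 q2 Y : ℕ) (h1 : 2 ≤ q1) (h2 : 2 ≤ q2) (hY : 1 ≤ Y)
    (hV : 100 * Y ^ 4 ≤ V) (z₀ : Ω)
    (hz : ∀ g : SL, g • z₀ = z₀ → (q1 : ℤ) ∣ g.1 1 0 ∧ (q2 : ℤ) ∣ g.1 0 1) :
    n2 (nu z₀ Y) ≤ 20000 * T ^ 2 * ((Y : ℝ) ^ 2 * (1 + (Y : ℝ) ^ 2 / (q1 * q2))) := by
  classical
  have hT := hL.two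
  have hq1 : (2 : ℝ) ≤ q1 := by exact_mod_cast h1
  have hq2 : (2 : ℝ) ≤ q2 := by exact_mod_cast h2
  have hY' : (1 : ℝ) ≤ Y := by exact_mod_cast hY
  set Φ : SL → ℝ := fun s => if s • z₀ = z₀ then 1 else 0 with hΦ
  have hΦ0 : ∀ s, 0 ≤ Φ s := by
    intro s; rw [hΦ]; simp only; split_ifs <;> norm_num
  have e1 : n2 (nu z₀ Y) = ∑ g ∈ ball Y, ∑ g' ∈ ball Y, Φ (g⁻¹ * g') := by
    unfold n2
    have h3 := sum_ball_eq Y (nu z₀ Y) z₀
    calc ∑ z, nu z₀ Y z ^ 2 = ∑ z, nu z₀ Y z * nu z₀ Y z := by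
          refine Finset.sum_congr rfl fun z _ => ?_
          rw [sq]
      _ = ∑ g ∈ ball Y, nu z₀ Y (g • z₀) := h3.symm
      _ = _ := by
          refine Finset.sum_congr rfl fun g _ => ?_
          unfold nu
          rw [hΦ]
          simp only
          rw [Finset.sum_ite, Finset.sum_const_zero, add_zero, Finset.sum_const, nsmul_eq_mul, mul_one]
          congr 2
          ext g'
          simp only [Finset.mem_filter, and_congr_right_iff]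
          intro _
          rw [mul_smul, inv_smul_eq_iff]
  set A := (ball Y).image (fun g => g⁻¹) with hA
  have hAball : ∀ g ∈ A, g ∈ ball Y := by
    intro g hg
    obtain ⟨h, hh, rfl⟩ := Finset.mem_image.1 hg
    rw [mem_ball, nm_inv]; exact mem_ball.1 hh
  have e2 : ∑ g ∈ ball Y, ∑ g' ∈ ball Y, Φ (g⁻¹ * g') = ∑ g ∈ A, ∑ g' ∈ A, Φ (g * g'⁻¹) := by
    rw [hA, Finset.sum_image (fun x _ y _ h => inv_injective h)]
    refine Finset.sum_congr rfl fun g _ => ?_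
    rw [Finset.sum_image (fun x _ y _ h => inv_injective h)]
    refine Finset.sum_congr rfl fun g' _ => ?_
    rw [inv_inv]
  have e3 := pair_sum Y A hAball Φ hΦ0
  set P := 2 * Y ^ 2 with hP
  have hP1 : 1 ≤ P := by have : 1 ≤ Y ^ 2 := Nat.one_le_pow _ _ hY; omega
  have hPV : 16 * P ^ 2 ≤ V := by
    have : P ^ 2 = 4 * Y ^ 4 := by rw [hP]; ring
    omega
  have hPV' : P ≤ V := by nlinarith
  have e4 := dyadic (ball P) nm P (fun γ hγ => ⟨one_le_nm γ, mem_ball.1 hγ⟩) Φ (fun s _ => hΦ0 s)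
  have e5 : ∀ j ∈ range (Nat.log 2 P + 1), (1 / (2 : ℝ) ^ j) * ∑ s ∈ (ball P).filter (fun s => nm s < 2 ^ (j + 1)), Φ s ≤
      64 * T * (1 + (Y : ℝ) ^ 2 / (q1 * q2)) := by
    intro j hj
    rw [Finset.mem_range] at hj
    have hjP : 2 ^ j ≤ P := by
      calc 2 ^ j ≤ 2 ^ (Nat.log 2 P) := Nat.pow_le_pow_right (by norm_num) (by omega)
        _ ≤ P := Nat.pow_log_le_self 2 (by omega)
    have hjP' : (2 : ℝ) ^ j ≤ 2 * Y ^ 2 := by exact_mod_cast hjP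
    have h4 := stab_count hL q1 q2 (2 ^ (j + 1)) h1 h2 Nat.one_le_two_pow (by
      calc 4 * (2 ^ (j + 1)) ^ 2 = 16 * (2 ^ j) ^ 2 := by ring
        _ ≤ 16 * P ^ 2 := by gcongr
        _ ≤ V := hPV)
    have h5 : ∑ s ∈ (ball P).filter (fun s => nm s < 2 ^ (j + 1)), Φ s ≤
        (((ball (2 ^ (j + 1))).filter fun g => (q1 : ℤ) ∣ g.1 1 0 ∧ (q2 : ℤ) ∣ g.1 0 1).card : ℝ) := by
      rw [hΦ]
      simp only
      rw [Finset.sum_ite, Finset.sum_const_zero, add_zero, Finset.sum_const, nsmul_eq_mul, mul_one]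
      have hsub : ((ball P).filter (fun s => nm s < 2 ^ (j + 1))).filter (fun s => s • z₀ = z₀) ⊆
          (ball (2 ^ (j + 1))).filter fun g => (q1 : ℤ) ∣ g.1 1 0 ∧ (q2 : ℤ) ∣ g.1 0 1 := by
        intro s hs
        rw [Finset.mem_filter, Finset.mem_filter] at hs
        rw [Finset.mem_filter]
        exact ⟨mem_ball.2 hs.1.2.le, hz s hs.2⟩
      exact_mod_cast Finset.card_le_card hsub
    push_cast at h4
    have hp : (0 : ℝ) < 2 ^ j := by positivity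
    have hq10 : (0 : ℝ) < q1 := by linarith
    have hq20 : (0 : ℝ) < q2 := by linarith
    calc 1 / (2 : ℝ) ^ j * ∑ s ∈ (ball P).filter (fun s => nm s < 2 ^ (j + 1)), Φ s
        ≤ 1 / (2 : ℝ) ^ j * (8 * T * ((1 + (2 : ℝ) ^ (j + 1) / q1) * (1 + (2 : ℝ) ^ (j + 1) / q2))) := by
          gcongr
          exact h5.trans h4
      _ = 8 * T * (1 / (2 : ℝ) ^ j + 2 / q1 + 2 / q2 + 4 * ((2 : ℝ) ^ j / (q1 * q2))) := by
          field_simp; ring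
      _ ≤ 8 * T * (1 + 1 + 1 + 4 * ((2 * (Y : ℝ) ^ 2) / (q1 * q2))) := by
          have a1 : 1 / (2 : ℝ) ^ j ≤ 1 := by
            rw [div_le_one hp]; exact one_le_pow₀ (by norm_num)
          have a2 : 2 / (q1 : ℝ) ≤ 1 := by rw [div_le_one hq10]; exact hq1
          have a3 : 2 / (q2 : ℝ) ≤ 1 := by rw [div_le_one hq20]; exact hq2
          gcongr
      _ ≤ 64 * T * (1 + (Y : ℝ) ^ 2 / (q1 * q2)) := by
          have a4 : (2 * (Y : ℝ) ^ 2) / (q1 * q2) = 2 * ((Y : ℝ) ^ 2 / (q1 * q2)) := by ring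
          rw [a4]
          have a5 : (0 : ℝ) ≤ T * ((Y : ℝ) ^ 2 / (q1 * q2)) := by positivity
          nlinarith
  have e6 := e4.trans (Finset.sum_le_sum e5)
  rw [Finset.sum_const, nsmul_eq_mul, Finset.card_range] at e6
  have hlog : ((Nat.log 2 P + 1 : ℕ) : ℝ) ≤ T := by
    have h7 := hL.log
    have h8 : Nat.log 2 P ≤ Nat.log 2 V := Nat.log_mono_right hPV'
    have h9 : (Nat.log 2 P : ℝ) ≤ Nat.log 2 V := by exact_mod_cast h8
    push_cast; linarith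
  have e7 : ∑ δ ∈ ball P, 120 * (Y : ℝ) ^ 2 * Φ δ / nm δ = 120 * (Y : ℝ) ^ 2 * ∑ δ ∈ ball P, Φ δ / nm δ := by
    rw [Finset.mul_sum]
    refine Finset.sum_congr rfl fun δ _ => ?_
    rw [mul_div_assoc]
  have hYq : 0 ≤ (1 + (Y : ℝ) ^ 2 / (q1 * q2)) := by positivity
  calc n2 (nu z₀ Y) ≤ ∑ δ ∈ ball P, 120 * (Y : ℝ) ^ 2 * Φ δ / nm δ := by rw [e1, e2]; exact e3
    _ = 120 * (Y : ℝ) ^ 2 * ∑ δ ∈ ball P, Φ δ / nm δ := e7
    _ ≤ 120 * (Y : ℝ) ^ 2 * (((Nat.log 2 P + 1 : ℕ) : ℝ) * (64 * T * (1 + (Y : ℝ) ^ 2 / (q1 * q2)))) := by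
        gcongr
    _ ≤ 120 * (Y : ℝ) ^ 2 * (T * (64 * T * (1 + (Y : ℝ) ^ 2 / (q1 * q2)))) := by gcongr
    _ = 7680 * (T ^ 2 * ((Y : ℝ) ^ 2 * (1 + (Y : ℝ) ^ 2 / (q1 * q2)))) := by ring
    _ ≤ 20000 * (T ^ 2 * ((Y : ℝ) ^ 2 * (1 + (Y : ℝ) ^ 2 / (q1 * q2)))) := by
        gcongr; norm_num
    _ = _ := by ring

/-- [A7e] Proof. `n2 (av (ball R) f) = ∑_{g, g'} ∑_z f (g z) f (g' z) = ∑_{g, g'} ∑_z f (g g'⁻¹ z) f z`; for given `δ = g g'⁻¹` (`nm δ ≤ 2 R²`) the number of pairs is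
`#{g ∈ ball R : g⁻¹ δ ∈ ball R} ≤ 120 R² / nm δ`. -/
theorem av_norm (R : ℕ) (f : Ω → ℝ) (hf : ∀ z, 0 ≤ f z) :
    n2 (av (ball R) f) ≤ ∑ δ ∈ ball (2 * R ^ 2), 120 * (R : ℝ) ^ 2 * (∑ z, f (δ • z) * f z) / nm δ := by
  have e1 : n2 (av (ball R) f) = ∑ g ∈ ball R, ∑ g' ∈ ball R, ∑ z, f ((g * g'⁻¹) • z) * f z := by
    unfold n2 av
    calc ∑ z, (∑ g ∈ ball R, f (g • z)) ^ 2 = ∑ z, ∑ g ∈ ball R, ∑ g' ∈ ball R, f (g • z) * f (g' • z) := by
          refine Finset.sum_congr rfl fun z _ => ?_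
          rw [sq, Finset.sum_mul_sum]
      _ = ∑ g ∈ ball R, ∑ z, ∑ g' ∈ ball R, f (g • z) * f (g' • z) := Finset.sum_comm
      _ = ∑ g ∈ ball R, ∑ g' ∈ ball R, ∑ z, f (g • z) * f (g' • z) :=
          Finset.sum_congr rfl fun g _ => Finset.sum_comm
      _ = _ := by
          refine Finset.sum_congr rfl fun g _ => Finset.sum_congr rfl fun g' _ => ?_
          rw [← sum_smul g' (fun z => f ((g * g'⁻¹) • z) * f z)]
          refine Finset.sum_congr rfl fun z _ => ?_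
          rw [← mul_smul, inv_mul_cancel_right]
  rw [e1]
  exact pair_sum R (ball R) (fun g hg => hg) (fun δ => ∑ z, f (δ • z) * f z)
    (fun δ => Finset.sum_nonneg fun z _ => mul_nonneg (hf _) (hf _))

end Pool.Agent.TII
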