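import Pool.Agent.TII.Defs

/-!
# [TII-P0] the action of `SL₂(ℤ)` on the projective line
-/

set_option autoImplicit false

namespace Pool.Agent.TII

open Finset

variable {l : ℕ} [Fact l.Prime]

theorem pt_smul (k u w : ZMod l) (hk : k ≠ 0) : pt l (k * u) (k * w) = pt l u w := by
  unfold pt
  by_cases hu : u = 0
  · simp [hu]
  · rw [if_neg hu, if_neg (mul_ne_zero hk hu)]
    congr 1
    field_simp

/-- the action on a point given by homogeneous coordinates -/
theorem act_pt (g : SL) (u w : ZMod l) (h : u ≠ 0 ∨ w ≠ 0) :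
    act l g (pt l u w) = pt l (g.1 0 0 * u + g.1 0 1 * w) (g.1 1 0 * u + g.1 1 1 * w) := by
  by_cases hu : u = 0
  · have hw : w ≠ 0 := by
      rcases h with h | h
      · exact absurd hu h
      · exact h
    have e1 : pt l u w = none := by unfold pt; rw [if_pos hu]
    rw [e1, hu]
    show pt l _ _ = _
    rw [mul_zero, mul_zero, zero_add, zero_add, mul_comm _ w, mul_comm _ w, pt_smul _ _ _ hw]
  · have e1 : pt l u w = some (w * u⁻¹) := by unfold pt; rw [if_neg hu]
    rw [e1]
    show pt l _ _ = _
    rw [← pt_smul u _ _ hu]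
    congr 1 <;> field_simp

theorem pt_eq_iff (u w u' w' : ZMod l) (h : u ≠ 0 ∨ w ≠ 0) (h' : u' ≠ 0 ∨ w' ≠ 0) :
    pt l u w = pt l u' w' ↔ u * w' = w * u' := by
  unfold pt
  by_cases hu : u = 0
  · have hw : w ≠ 0 := by
      rcases h with h | h
      · exact absurd hu h
      · exact h
    by_cases hu' : u' = 0
    · simp [hu, hu']
    · simp only [hu, hu', if_true, if_false, zero_mul]
      constructor
      · intro h; cases h
      · intro h
        rcases mul_eq_zero.1 h.symm with h1 | h1
        · exact absurd h1 hw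
        · exact absurd h1 hu'
  · by_cases hu' : u' = 0
    · have hw' : w' ≠ 0 := by
        rcases h' with h | h
        · exact absurd hu' h
        · exact h
      simp only [hu, hu', if_true, if_false, mul_zero]
      constructor
      · intro h; cases h
      · intro h
        rcases mul_eq_zero.1 h with h1 | h1
        · exact absurd h1 hu
        · exact absurd h1 hw'
    · rw [if_neg hu, if_neg hu']
      show (some _ : Option (ZMod l)) = some _ ↔ _
      rw [Option.some_inj]
      constructor
      · intro h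
        field_simp at h
        first | exact h.symm | (rw [h]; ring) | linear_combination h
      · intro h
        field_simp
        rw [mul_comm u w', mul_comm w' u, h]

theorem det_cast (g : SL) : (g.1 0 0 : ZMod l) * g.1 1 1 - g.1 0 1 * g.1 1 0 = 1 := by
  have h := g.2
  rw [Matrix.det_fin_two] at h
  exact_mod_cast congrArg (Int.cast : ℤ → ZMod l) h

theorem vec_ne_zero (g : SL) (u w : ZMod l) (h : u ≠ 0 ∨ w ≠ 0) :
    (g.1 0 0 : ZMod l) * u + g.1 0 1 * w ≠ 0 ∨ (g.1 1 0 : ZMod l) * u + g.1 1 1 * w ≠ 0 := by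
  by_contra hcon
  push Not at hcon
  obtain ⟨h1, h2⟩ := hcon
  have hd := det_cast (l := l) g
  have e1 : u = 0 := by
    linear_combination (g.1 1 1 : ZMod l) * h1 - (g.1 0 1 : ZMod l) * h2 - u * hd
  have e2 : w = 0 := by
    linear_combination (g.1 0 0 : ZMod l) * h2 - (g.1 1 0 : ZMod l) * h1 - w * hd
  rcases h with h | h
  · exact h e1
  · exact h e2

theorem exists_pt (z : P1 l) : ∃ u w : ZMod l, (u ≠ 0 ∨ w ≠ 0) ∧ z = pt l u w := by
  cases z with
  | none => exact ⟨0, 1, Or.inr one_ne_zero, by simp [pt]⟩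
  | some s => exact ⟨1, s, Or.inl one_ne_zero, by simp [pt]⟩

noncomputable instance : MulAction SL (P1 l) where
  smul := act l
  one_smul := by
    intro z
    obtain ⟨u, w, h, rfl⟩ := exists_pt z
    show act l 1 (pt l u w) = _
    rw [act_pt 1 u w h]
    simp
  mul_smul := by
    intro g g' z
    obtain ⟨u, w, h, rfl⟩ := exists_pt z
    show act l (g * g') (pt l u w) = act l g (act l g' (pt l u w))
    rw [act_pt _ u w h, act_pt _ u w h, act_pt _ _ _ (vec_ne_zero g' u w h)]
    congr 1
    · rw [Matrix.SpecialLinearGroup.coe_mul, Matrix.mul_apply, Matrix.mul_apply, Fin.sum_univ_two,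
        Fin.sum_univ_two]
      push_cast
      ring
    · rw [Matrix.SpecialLinearGroup.coe_mul, Matrix.mul_apply, Matrix.mul_apply, Fin.sum_univ_two,
        Fin.sum_univ_two]
      push_cast
      ring

theorem smul_pt (g : SL) (u w : ZMod l) (h : u ≠ 0 ∨ w ≠ 0) :
    g • pt l u w = pt l (g.1 0 0 * u + g.1 0 1 * w) (g.1 1 0 * u + g.1 1 1 * w) := act_pt g u w h

end Pool.Agent.TII
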