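import Pool.Agent.TII.G1

/-!
# [TII-G2] the multiplicity of an eigenvalue, from a unipotent element and a torus
-/

set_option autoImplicit false

namespace Pool.Agent.TII

open Finset

section fourier

variable {G : Type} [Group G]

/-- the component of a function on which the right translations by `u x` act by the character `ψ (c x)` -/
noncomputable def EE (n : ℕ) [NeZero n] (u : ZMod n → G) (c : ZMod n) (φ : G → ℂ) : G → ℂ :=
  fun g => ∑ j : ZMod n, ZMod.stdAddChar (-(c * j)) * φ (g * u j)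

theorem EE_shift (n : ℕ) [NeZero n] (u : ZMod n → G) (hu : ∀ x y, u (x + y) = u x * u y) (c x : ZMod n)
    (φ : G → ℂ) (g : G) : EE n u c φ (g * u x) = ZMod.stdAddChar (c * x) * EE n u c φ g := by
  unfold EE
  rw [Finset.mul_sum, ← Equiv.sum_comp (Equiv.addLeft x)
    (fun j => ZMod.stdAddChar (c * x) * (ZMod.stdAddChar (-(c * j)) * φ (g * u j)))]
  refine Finset.sum_congr rfl fun j _ => ?_
  simp only [Equiv.coe_addLeft]
  rw [← mul_assoc, ← AddChar.map_add_eq_mul, hu, mul_assoc g]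
  congr 2
  ring_nf

theorem EE_sum (n : ℕ) [NeZero n] (u : ZMod n → G) (hu0 : u 0 = 1) (φ : G → ℂ) (g : G) :
    ∑ c : ZMod n, EE n u c φ g = n * φ g := by
  unfold EE
  rw [Finset.sum_comm]
  have h1 : ∀ j : ZMod n, ∑ c : ZMod n, ZMod.stdAddChar (-(c * j)) * φ (g * u j) =
      if j = 0 then (n : ℂ) * φ g else 0 := by
    intro j
    rw [← Finset.sum_mul]
    have h2 := AddChar.sum_mulShift (-j) (ZMod.isPrimitive_stdAddChar n)
    simp only [mul_neg] at h2
    rw [h2]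
    by_cases hj : j = 0
    · simp [hj, hu0, ZMod.card]
    · simp [hj]
  rw [Finset.sum_congr rfl fun j _ => h1 j]
  simp

theorem exists_EE (n : ℕ) [NeZero n] (u : ZMod n → G) (hu : ∀ x y, u (x + y) = u x * u y)
    (hu0 : u 0 = 1) (φ : G → ℂ) (g₀ : G) (x₀ : ZMod n) (h : φ (g₀ * u x₀) ≠ φ g₀) :
    ∃ c : ZMod n, c ≠ 0 ∧ ∃ g, EE n u c φ g ≠ 0 := by
  by_contra hcon
  push Not at hcon
  have h1 : ∀ g, (n : ℂ) * φ g = EE n u 0 φ g := by
    intro g
    rw [← EE_sum n u hu0 φ g]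
    exact Finset.sum_eq_single 0 (fun c _ hc => hcon c hc g) (fun h => absurd (Finset.mem_univ _) h)
  have h2 := EE_shift n u hu 0 x₀ φ g₀
  rw [zero_mul, AddChar.map_zero_eq_one, one_mul, ← h1, ← h1] at h2
  have hn : (n : ℂ) ≠ 0 := by exact_mod_cast NeZero.ne n
  exact h (mul_left_cancel₀ hn h2)

theorem TT_EE (π : SL →* G) (Z : ℕ) (n : ℕ) [NeZero n] (u : ZMod n → G) (c : ZMod n) (φ : G → ℂ) (lam : ℂ)
    (h : ∀ g, TT π Z φ g = lam * φ g) (g : G) : TT π Z (EE n u c φ) g = lam * EE n u c φ g := by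
  unfold TT EE
  rw [Finset.sum_comm, Finset.mul_sum]
  refine Finset.sum_congr rfl fun j _ => ?_
  rw [← Finset.mul_sum]
  have h1 := h (g * u j)
  unfold TT at h1
  simp only [← mul_assoc] at h1 ⊢
  rw [h1]
  ring

end fourier

theorem sq_ne (n : ℕ) [Fact n.Prime] (a b : ℕ) (ha : 1 ≤ a) (hb : 1 ≤ b) (ha' : a ≤ (n - 1) / 2)
    (hb' : b ≤ (n - 1) / 2) (hab : a ≠ b) : ((a : ZMod n)) ^ 2 ≠ (b : ZMod n) ^ 2 := by
  intro h
  have hn := (Fact.out : n.Prime).two_le
  have h1 : ((a : ZMod n) - b) * (a + b) = 0 := by linear_combination h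
  rcases mul_eq_zero.1 h1 with h2 | h2
  · have h3 : (a : ZMod n) = b := sub_eq_zero.1 h2
    rw [ZMod.natCast_eq_natCast_iff, Nat.ModEq, Nat.mod_eq_of_lt (by omega), Nat.mod_eq_of_lt (by omega)] at h3
    exact hab h3
  · have h3 : ((a + b : ℕ) : ZMod n) = 0 := by push_cast; exact h2
    rw [ZMod.natCast_eq_zero_iff] at h3
    have := Nat.le_of_dvd (by omega) h3
    omega

/-- [G2] The multiplicity argument. -/
theorem mult_bound {G : Type} [Group G] [Fintype G] [DecidableEq G] (π : SL →* G) (Z k : ℕ)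
    (φ₀ : G → ℝ) (lam : ℝ) (hφ : ∀ g, ∑ s ∈ ball Z, φ₀ (π s * g) = lam * φ₀ g)
    (n : ℕ) [Fact n.Prime] (u : ZMod n → G) (hu : ∀ x y, u (x + y) = u x * u y)
    (τ : ZMod n → G) (hτ : ∀ a, a ≠ 0 → ∀ x, u x * τ a = τ a * u (a ^ 2 * x))
    (g₀ : G) (x₀ : ZMod n) (hne : φ₀ (g₀ * u x₀) ≠ φ₀ g₀) :
    (((n - 1) / 2 : ℕ) : ℝ) * lam ^ (2 * k) ≤ Fintype.card G *
      ∑ γ ∈ (ball ((2 * Z) ^ (2 * k))).filter (fun γ => π γ = 1), reps Z (2 * k) γ := by
  have hn := (Fact.out : n.Prime).two_le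
  have hu0 : u 0 = 1 := by
    have := hu 0 0
    rw [add_zero] at this
    exact (mul_eq_left.1 this.symm)
  set φ : G → ℂ := fun g => (φ₀ g : ℂ) with hφdef
  have hφ' : ∀ g, TT π Z φ g = (lam : ℂ) * φ g := by
    intro g
    unfold TT
    rw [hφdef]
    simp only
    rw [← Complex.ofReal_mul, ← hφ g]
    push_cast
    rfl
  obtain ⟨c, hc, g₁, hg₁⟩ := exists_EE n u hu hu0 φ g₀ x₀ (by
    rw [hφdef]
    simp only
    exact_mod_cast hne)
  set Φ := EE n u c φ with hΦ
  set at' : Fin ((n - 1) / 2) → ZMod n := fun i => ((i.val + 1 : ℕ) : ZMod n) with hat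
  have hat0 : ∀ i, at' i ≠ 0 := by
    intro i h
    rw [hat] at h
    simp only at h
    rw [ZMod.natCast_eq_zero_iff] at h
    have := Nat.le_of_dvd (by omega) h
    have := i.2
    omega
  set v : Fin ((n - 1) / 2) → G → ℂ := fun i g => Φ (g * τ (at' i)) with hv
  have hshift : ∀ i g x, v i (g * u x) = ZMod.stdAddChar (c * (at' i ^ 2 * x)) * v i g := by
    intro i g x
    rw [hv]
    simp only
    rw [mul_assoc, hτ _ (hat0 i), ← mul_assoc, hΦ, EE_shift n u hu]
  refine family_bound π Z k v (∑ g, ‖Φ g‖ ^ 2) ?_ lam ?_ ?_ ?_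
  · refine Finset.sum_pos' (fun g _ => by positivity) ⟨g₁, Finset.mem_univ _, ?_⟩
    have : 0 < ‖Φ g₁‖ := norm_pos_iff.2 hg₁
    positivity
  · intro i
    exact Equiv.sum_comp (Equiv.mulRight (τ (at' i))) (fun g => ‖Φ g‖ ^ 2)
  · intro i j hij
    set S := ∑ g, star (v i g) * v j g with hS
    have h1 : S = ∑ g, star (v i (g * u 1)) * v j (g * u 1) :=
      (Equiv.sum_comp (Equiv.mulRight (u 1)) (fun g => star (v i g) * v j g)).symm
    have h2 : S = ZMod.stdAddChar (c * (at' j ^ 2 - at' i ^ 2)) * S := by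
      conv_lhs => rw [h1]
      rw [hS, Finset.mul_sum]
      refine Finset.sum_congr rfl fun g _ => ?_
      rw [hshift, hshift, star_mul', mul_one, mul_one]
      have h3 : star (ZMod.stdAddChar (c * at' i ^ 2) : ℂ) = ZMod.stdAddChar (-(c * at' i ^ 2)) := by
        rw [AddChar.map_neg_eq_conj]; rfl
      rw [h3]
      have h4 : (ZMod.stdAddChar (c * (at' j ^ 2 - at' i ^ 2)) : ℂ) =
          ZMod.stdAddChar (-(c * at' i ^ 2)) * ZMod.stdAddChar (c * at' j ^ 2) := by
        rw [← AddChar.map_add_eq_mul]; congr 1; ring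
      rw [h4]; ring
    by_contra hSne
    have h5 : (ZMod.stdAddChar (c * (at' j ^ 2 - at' i ^ 2)) : ℂ) = 1 := by
      have h6 : (ZMod.stdAddChar (c * (at' j ^ 2 - at' i ^ 2)) : ℂ) * S = 1 * S := by rw [one_mul]; exact h2.symm
      exact mul_right_cancel₀ hSne h6
    have h7 : c * (at' j ^ 2 - at' i ^ 2) = 0 := by
      have h8 : (ZMod.stdAddChar (c * (at' j ^ 2 - at' i ^ 2)) : ℂ) = ZMod.stdAddChar (0 : ZMod n) := by
        rw [h5, AddChar.map_zero_eq_one]
      exact ZMod.injective_stdAddChar h8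
    rcases mul_eq_zero.1 h7 with h8 | h8
    · exact hc h8
    · have h9 := sub_eq_zero.1 h8
      refine sq_ne n (j.val + 1) (i.val + 1) (by omega) (by omega) (by omega) (by omega) ?_ h9
      intro h
      apply hij
      ext; omega
  · intro i g
    have h1 := TT_EE π Z n u c φ lam hφ' (g * τ (at' i))
    rw [← hΦ] at h1
    rw [hv]
    simp only
    rw [← h1]
    unfold TT
    refine Finset.sum_congr rfl fun s _ => ?_
    show Φ (π s * g * τ (at' i)) = _
    rw [mul_assoc]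

end Pool.Agent.TII
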