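import Pool.Agent.TII.A7

/-!
# [TII-G3a] reduction to eigenfunctions (spectral theorem)
-/

set_option autoImplicit false

namespace Pool.Agent.TII

open Finset

section spectral

variable {Ω : Type} [MulAction SL Ω] [Fintype Ω]

theorem av_symm (Z : ℕ) (f g : Ω → ℝ) : ∑ z, av (ball Z) f z * g z = ∑ z, f z * av (ball Z) g z := by
  unfold av
  simp only [Finset.sum_mul, Finset.mul_sum]
  rw [Finset.sum_comm]
  conv_rhs => rw [Finset.sum_comm]
  have hinv : ∑ s ∈ ball Z, ∑ z, f (s⁻¹ • z) * g z = ∑ s ∈ ball Z, ∑ z, f (s • z) * g z := by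
    refine Finset.sum_nbij' (fun s => s⁻¹) (fun s => s⁻¹) ?_ ?_ ?_ ?_ ?_
    · intro s hs
      rw [mem_ball, nm_inv]; exact mem_ball.1 hs
    · intro s hs
      rw [mem_ball, nm_inv]; exact mem_ball.1 hs
    · intro s _; exact inv_inv s
    · intro s _; exact inv_inv s
    · intro s _; rfl
  rw [← hinv]
  refine Finset.sum_congr rfl fun s _ => ?_
  rw [← sum_smul s (fun z => f (s⁻¹ • z) * g z)]
  refine Finset.sum_congr rfl fun z _ => ?_
  rw [inv_smul_smul]

/-- the averaging operator, composed with the projection to the functions of mean value zero -/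
noncomputable def Tm (Z : ℕ) : EuclideanSpace ℝ Ω →ₗ[ℝ] EuclideanSpace ℝ Ω where
  toFun f := WithLp.toLp 2 (fun z => av (ball Z) (fun w => f w) z -
    ((ball Z).card : ℝ) / (Fintype.card Ω : ℝ) * ∑ w, f w)
  map_add' f g := by
    ext z
    simp only [PiLp.add_apply, av, Finset.sum_add_distrib]
    ring
  map_smul' c f := by
    ext z
    simp only [PiLp.smul_apply, smul_eq_mul, RingHom.id_apply, av]
    rw [← Finset.mul_sum, ← Finset.mul_sum]
    ring

theorem Tm_apply (Z : ℕ) (f : EuclideanSpace ℝ Ω) (z : Ω) :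
    Tm Z f z = av (ball Z) (fun w => f w) z - ((ball Z).card : ℝ) / (Fintype.card Ω : ℝ) * ∑ w, f w := rfl

theorem Tm_symm (Z : ℕ) : (Tm (Ω := Ω) Z).IsSymmetric := by
  intro f g
  rw [PiLp.inner_apply, PiLp.inner_apply]
  simp only [RCLike.inner_apply, conj_trivial, Tm_apply]
  simp only [mul_sub, sub_mul, Finset.sum_sub_distrib]
  congr 1
  · have h := av_symm Z (fun w => f w) (fun w => g w)
    rw [Finset.sum_congr rfl fun z _ => mul_comm (g z) (av (ball Z) (fun w => f w) z)]
    rw [h]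
    exact Finset.sum_congr rfl fun z _ => mul_comm _ _
  · rw [← Finset.sum_mul, ← Finset.mul_sum]
    ring

theorem Tm_sum [Nonempty Ω] (Z : ℕ) (f : EuclideanSpace ℝ Ω) : ∑ z, Tm Z f z = 0 := by
  simp only [Tm_apply]
  rw [Finset.sum_sub_distrib, av_sum, Finset.sum_const, nsmul_eq_mul, Finset.card_univ]
  have : (Fintype.card Ω : ℝ) ≠ 0 := by exact_mod_cast Fintype.card_ne_zero
  field_simp
  ring

/-- [G3a] reduction to eigenfunctions -/
theorem spectral (Z k : ℕ) (hk : 1 ≤ k) (C m : ℝ) (hC : 0 ≤ C) (hm : 0 ≤ m)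
    (h : ∀ (f₀ : Ω → ℝ) (lam : ℝ), (∃ z, f₀ z ≠ 0) → ∑ z, f₀ z = 0 →
      (∀ z, av (ball Z) f₀ z = lam * f₀ z) → m * lam ^ (2 * k) ≤ C)
    (f : Ω → ℝ) (hf : ∑ z, f z = 0) : m * n2 (av (ball Z) f) ^ k ≤ C * n2 f ^ k := by
  rcases isEmpty_or_nonempty Ω with hE | hE
  · have h0 : n2 (av (ball Z) f) = 0 := by unfold n2; simp
    rw [h0, zero_pow (by omega), mul_zero]
    have := n2_nonneg f
    positivity
  set b := (Tm_symm (Ω := Ω) Z).eigenvectorBasis (n := Fintype.card Ω) (by simp) with hb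
  set ev := (Tm_symm (Ω := Ω) Z).eigenvalues (n := Fintype.card Ω) (by simp) with hev
  have hbe : ∀ i, Tm Z (b i) = ev i • b i := by
    intro i
    rw [hb, hev, (Tm_symm (Ω := Ω) Z).apply_eigenvectorBasis]
    rfl
  -- each eigenvalue satisfies the bound
  have hev1 : ∀ i, m * ev i ^ (2 * k) ≤ C := by
    intro i
    by_cases h0 : ev i = 0
    · rw [h0, zero_pow (by omega), mul_zero]; exact hC
    · have hs : ∑ z, b i z = 0 := by
        have h1 := Tm_sum Z (b i)
        rw [hbe i] at h1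
        simp only [PiLp.smul_apply, smul_eq_mul] at h1
        rw [← Finset.mul_sum] at h1
        exact (mul_eq_zero.1 h1).resolve_left h0
      refine h (fun z => b i z) (ev i) ?_ hs ?_
      · by_contra hcon
        push Not at hcon
        have h2 : b i = 0 := by ext z; exact hcon z
        have h3 := b.orthonormal.1 i
        rw [h2, norm_zero] at h3
        norm_num at h3
      · intro z
        have h1 : Tm Z (b i) z = ev i * b i z := by rw [hbe i]; rfl
        rw [Tm_apply, hs, mul_zero, sub_zero] at h1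
        exact h1
  haveI : Nonempty (Fin (Fintype.card Ω)) := ⟨⟨0, Fintype.card_pos⟩⟩
  obtain ⟨i₀, _, hi₀⟩ := Finset.exists_max_image (Finset.univ : Finset (Fin (Fintype.card Ω)))
    (fun i => ev i ^ 2) Finset.univ_nonempty
  set F : EuclideanSpace ℝ Ω := WithLp.toLp 2 f with hF
  have e1 : n2 f = ∑ i, (inner ℝ (b i) F) ^ 2 := by
    have h1 := b.sum_sq_norm_inner_right F
    have h2 : ‖F‖ ^ 2 = n2 f := by
      rw [EuclideanSpace.real_norm_sq_eq]; rfl
    rw [← h2, ← h1]
    refine Finset.sum_congr rfl fun i _ => ?_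
    rw [Real.norm_eq_abs, sq_abs]
  have e2 : n2 (av (ball Z) f) = ∑ i, ev i ^ 2 * (inner ℝ (b i) F) ^ 2 := by
    have h1 := b.sum_sq_norm_inner_right (Tm Z F)
    have h2 : ‖Tm Z F‖ ^ 2 = n2 (av (ball Z) f) := by
      rw [EuclideanSpace.real_norm_sq_eq]
      unfold n2
      refine Finset.sum_congr rfl fun z _ => ?_
      rw [Tm_apply]
      have h3 : ∑ w, F w = 0 := hf
      rw [h3, mul_zero, sub_zero]
    rw [← h2, ← h1]
    refine Finset.sum_congr rfl fun i _ => ?_
    rw [Real.norm_eq_abs, sq_abs, ← (Tm_symm (Ω := Ω) Z) (b i) F, hbe i, real_inner_smul_left]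
    ring
  have e3 : n2 (av (ball Z) f) ≤ ev i₀ ^ 2 * n2 f := by
    rw [e1, e2, Finset.mul_sum]
    exact Finset.sum_le_sum fun i _ => mul_le_mul_of_nonneg_right (hi₀ i (Finset.mem_univ _)) (sq_nonneg _)
  calc m * n2 (av (ball Z) f) ^ k ≤ m * (ev i₀ ^ 2 * n2 f) ^ k := by
        have := n2_nonneg (av (ball Z) f)
        gcongr
    _ = (m * ev i₀ ^ (2 * k)) * n2 f ^ k := by rw [mul_pow, pow_mul]; ring
    _ ≤ C * n2 f ^ k := by
        have := n2_nonneg f
        exact mul_le_mul_of_nonneg_right (hev1 i₀) (by positivity)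

end spectral

end Pool.Agent.TII
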