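import Pool.Agent.TII.P0
import Pool.Agent.TII.G2
import Pool.Agent.TII.G3a

/-!
# [TII-G3] `SL₂` of a prime field and its action on the projective line
-/

set_option autoImplicit false

namespace Pool.Agent.TII

open Finset

/-- `SL₂(𝔽_l)` -/
abbrev SLF (l : ℕ) : Type := Matrix.SpecialLinearGroup (Fin 2) (ZMod l)

/-- reduction modulo `l` -/
def red (l : ℕ) : SL →* SLF l := Matrix.SpecialLinearGroup.map (Int.castRingHom (ZMod l))

theorem red_apply (l : ℕ) (g : SL) (i j : Fin 2) : (red l g).1 i j = (g.1 i j : ZMod l) := rfl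

/-- the action of `SL₂(𝔽_l)` on `P1 l` -/
def actF (l : ℕ) (g : SLF l) (z : P1 l) : P1 l :=
  match z with
  | none => pt l (g.1 0 1) (g.1 1 1)
  | some s => pt l (g.1 0 0 + g.1 0 1 * s) (g.1 1 0 + g.1 1 1 * s)

section

variable (l : ℕ) [Fact l.Prime]

theorem detF (g : SLF l) : g.1 0 0 * g.1 1 1 - g.1 0 1 * g.1 1 0 = 1 := by
  have h := g.2
  rwa [Matrix.det_fin_two] at h

theorem mulF (g h : SLF l) (i j : Fin 2) :
    (g * h).1 i j = g.1 i 0 * h.1 0 j + g.1 i 1 * h.1 1 j := by
  rw [Matrix.SpecialLinearGroup.coe_mul, Matrix.mul_apply, Fin.sum_univ_two]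

theorem extF {g h : SLF l} (h1 : g.1 0 0 = h.1 0 0) (h2 : g.1 0 1 = h.1 0 1) (h3 : g.1 1 0 = h.1 1 0)
    (h4 : g.1 1 1 = h.1 1 1) : g = h := by
  apply Matrix.SpecialLinearGroup.ext
  intro i j
  fin_cases i <;> fin_cases j <;> assumption

theorem actF_mul (s : SL) (g : SLF l) (z : P1 l) : actF l (red l s * g) z = s • actF l g z := by
  have hd := detF l g
  cases z with
  | none =>
    have hne : g.1 0 1 ≠ 0 ∨ g.1 1 1 ≠ 0 := by
      by_contra hcon
      push Not at hcon
      rw [hcon.1, hcon.2] at hd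
      simp at hd
    show pt l ((red l s * g).1 0 1) ((red l s * g).1 1 1) = s • pt l (g.1 0 1) (g.1 1 1)
    rw [smul_pt s _ _ hne, mulF, mulF]
    rfl
  | some t =>
    have hne : g.1 0 0 + g.1 0 1 * t ≠ 0 ∨ g.1 1 0 + g.1 1 1 * t ≠ 0 := by
      by_contra hcon
      push Not at hcon
      have e1 : g.1 0 0 = -(g.1 0 1 * t) := by linear_combination hcon.1
      have e2 : g.1 1 0 = -(g.1 1 1 * t) := by linear_combination hcon.2
      rw [e1, e2] at hd
      have : (0 : ZMod l) = 1 := by rw [← hd]; ring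
      exact zero_ne_one this
    show pt l ((red l s * g).1 0 0 + (red l s * g).1 0 1 * t) ((red l s * g).1 1 0 + (red l s * g).1 1 1 * t) =
      s • pt l (g.1 0 0 + g.1 0 1 * t) (g.1 1 0 + g.1 1 1 * t)
    rw [smul_pt s _ _ hne, mulF, mulF, mulF, mulF]
    simp only [red_apply]
    congr 1 <;> ring

theorem actF_one (z : P1 l) : actF l 1 z = z := by
  have := actF_mul l 1 1 z
  cases z with
  | none =>
    show pt l ((1 : SLF l).1 0 1) ((1 : SLF l).1 1 1) = none
    unfold pt
    rw [if_pos (by simp)]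
  | some t =>
    show pt l ((1 : SLF l).1 0 0 + (1 : SLF l).1 0 1 * t) ((1 : SLF l).1 1 0 + (1 : SLF l).1 1 1 * t) = some t
    unfold pt
    simp

/-- upper unipotent matrices -/
def Uf (x : ZMod l) : SLF l := ⟨!![1, x; 0, 1], by simp [Matrix.det_fin_two]⟩

/-- lower unipotent matrices -/
def Lf (x : ZMod l) : SLF l := ⟨!![1, 0; x, 1], by simp [Matrix.det_fin_two]⟩

/-- the torus -/
noncomputable def Df (a : ZMod l) : SLF l :=
  if h : a = 0 then 1 else ⟨!![a, 0; 0, a⁻¹], by simp [Matrix.det_fin_two, h]⟩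

theorem Uf_add (x y : ZMod l) : Uf l (x + y) = Uf l x * Uf l y := by
  apply extF <;> rw [mulF] <;> simp [Uf] <;> ring

theorem Lf_add (x y : ZMod l) : Lf l (x + y) = Lf l x * Lf l y := by
  apply extF <;> rw [mulF] <;> simp [Lf]

theorem Lf_Df (a : ZMod l) (ha : a ≠ 0) (x : ZMod l) : Lf l x * Df l a = Df l a * Lf l (a ^ 2 * x) := by
  unfold Df
  rw [dif_neg ha]
  apply extF <;> rw [mulF, mulF] <;> simp [Lf] <;> field_simp

theorem Uf_Df (a : ZMod l) (ha : a ≠ 0) (x : ZMod l) : Uf l x * Df l a⁻¹ = Df l a⁻¹ * Uf l (a ^ 2 * x) := by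
  unfold Df
  rw [dif_neg (inv_ne_zero ha)]
  apply extF <;> rw [mulF, mulF] <;> simp [Uf] <;> field_simp

theorem actF_Lf (x s : ZMod l) : actF l (Lf l x) (some s) = some (x + s) := by
  show pt l ((Lf l x).1 0 0 + (Lf l x).1 0 1 * s) ((Lf l x).1 1 0 + (Lf l x).1 1 1 * s) = some (x + s)
  unfold pt
  simp [Lf]

theorem actF_Uf : actF l (Uf l 1) none = some 1 := by
  show pt l ((Uf l 1).1 0 1) ((Uf l 1).1 1 1) = some 1
  unfold pt
  simp [Uf]

/-- a function invariant under the unipotent elements is constant -/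
theorem P1_const (F : P1 l → ℝ) (hL : ∀ x z, F (actF l (Lf l x) z) = F z)
    (hU : ∀ x z, F (actF l (Uf l x) z) = F z) (z : P1 l) : F z = F (some 0) := by
  have h1 : ∀ s : ZMod l, F (some s) = F (some 0) := by
    intro s
    have h := hL s (some 0)
    rw [actF_Lf, add_zero] at h
    exact h
  cases z with
  | none =>
    have h := hU 1 none
    rw [actF_Uf] at h
    rw [← h]
    exact h1 1
  | some s => exact h1 s

theorem card_SLF : Fintype.card (SLF l) ≤ l ^ 3 := by
  have hl := (Fact.out : l.Prime).pos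
  have h1 : (Finset.univ : Finset (SLF l)).card ≤ l * (Finset.univ : Finset (ZMod l × ZMod l)).card := by
    refine card_le_mul_of_maps_to (f := fun g : SLF l => (g.1 0 0, g.1 0 1)) (fun _ _ => Finset.mem_univ _) l ?_
    intro p _
    have hcard : (Finset.univ : Finset (ZMod l)).card = l := by rw [Finset.card_univ, ZMod.card]
    by_cases ha : p.1 = 0
    · calc ((Finset.univ : Finset (SLF l)).filter fun g => (g.1 0 0, g.1 0 1) = p).card
          ≤ (Finset.univ : Finset (ZMod l)).card := by
            refine Finset.card_le_card_of_injOn (fun g : SLF l => g.1 1 1) (fun _ _ => Finset.mem_coe.2 (Finset.mem_univ _)) ?_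
            intro g hg h hh hgh
            rw [Finset.mem_coe, Finset.mem_filter] at hg hh
            have e1 := hg.2
            have e2 := hh.2
            have d1 := detF l g
            have d2 := detF l h
            rw [Prod.ext_iff] at e1 e2
            simp only at e1 e2 hgh
            have hb : p.2 ≠ 0 := by
              intro h0
              rw [e1.1, e1.2, ha, h0] at d1
              simp at d1
            refine extF l (e1.1.trans e2.1.symm) (e1.2.trans e2.2.symm) ?_ hgh
            rw [e1.1, e1.2, ha, zero_mul] at d1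
            rw [e2.1, e2.2, ha, zero_mul] at d2
            have : p.2 * g.1 1 0 = p.2 * h.1 1 0 := by linear_combination d2 - d1
            exact mul_left_cancel₀ hb this
        _ = l := hcard
    · calc ((Finset.univ : Finset (SLF l)).filter fun g => (g.1 0 0, g.1 0 1) = p).card
          ≤ (Finset.univ : Finset (ZMod l)).card := by
            refine Finset.card_le_card_of_injOn (fun g : SLF l => g.1 1 0) (fun _ _ => Finset.mem_coe.2 (Finset.mem_univ _)) ?_
            intro g hg h hh hgh
            rw [Finset.mem_coe, Finset.mem_filter] at hg hh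
            have e1 := hg.2
            have e2 := hh.2
            have d1 := detF l g
            have d2 := detF l h
            rw [Prod.ext_iff] at e1 e2
            simp only at e1 e2 hgh
            refine extF l (e1.1.trans e2.1.symm) (e1.2.trans e2.2.symm) hgh ?_
            rw [e1.1, e1.2] at d1
            rw [e2.1, e2.2, ← hgh] at d2
            have : p.1 * g.1 1 1 = p.1 * h.1 1 1 := by linear_combination d1 - d2
            exact mul_left_cancel₀ ha this
        _ = l := hcard
  rw [Finset.card_univ, Finset.card_univ, Fintype.card_prod, ZMod.card] at h1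
  calc Fintype.card (SLF l) ≤ l * (l * l) := h1
    _ = l ^ 3 := by ring

end

/-- [G3] the bound from one noninvariant unipotent translation, through an embedding of `SL₂(𝔽_l)` -/
theorem emb_bound {G : Type} [Group G] [Fintype G] [DecidableEq G] (π : SL →* G) (Z k : ℕ)
    (φ₀ : G → ℝ) (lam : ℝ) (hφ : ∀ g, ∑ s ∈ ball Z, φ₀ (π s * g) = lam * φ₀ g)
    (l : ℕ) [Fact l.Prime] (e : SLF l →* G)
    (hne : (∃ g x, φ₀ (g * e (Uf l x)) ≠ φ₀ g) ∨ ∃ g x, φ₀ (g * e (Lf l x)) ≠ φ₀ g) :
    (((l - 1) / 2 : ℕ) : ℝ) * lam ^ (2 * k) ≤ Fintype.card G *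
      ∑ γ ∈ (ball ((2 * Z) ^ (2 * k))).filter (fun γ => π γ = 1), reps Z (2 * k) γ := by
  rcases hne with ⟨g, x, h⟩ | ⟨g, x, h⟩
  · refine mult_bound π Z k φ₀ lam hφ l (fun x => e (Uf l x)) ?_ (fun a => e (Df l a⁻¹)) ?_ g x h
    · intro x y; rw [Uf_add, map_mul]
    · intro a ha x; rw [← map_mul, ← map_mul, Uf_Df l a ha]
  · refine mult_bound π Z k φ₀ lam hφ l (fun x => e (Lf l x)) ?_ (fun a => e (Df l a)) ?_ g x h
    · intro x y; rw [Lf_add, map_mul]
    · intro a ha x; rw [← map_mul, ← map_mul, Lf_Df l a ha]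

end Pool.Agent.TII
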