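import Pool.Agent.TII.P0
import Pool.Agent.TII.A7
import Pool.Agent.TII.G3

/-!
# [TII-G4] the gap
-/

set_option autoImplicit false

namespace Pool.Agent.TII

open Finset

/-- the product of four projective lines -/
abbrev Om (n₁ n₂ n₃ n₄ : ℕ) : Type := (P1 n₁ × P1 n₂) × (P1 n₃ × P1 n₄)

/-- the product of four groups -/
abbrev G4 (n₁ n₂ n₃ n₄ : ℕ) : Type := (SLF n₁ × SLF n₂) × (SLF n₃ × SLF n₄)

/-- the reduction map -/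
def red4 (n₁ n₂ n₃ n₄ : ℕ) : SL →* G4 n₁ n₂ n₃ n₄ :=
  ((red n₁).prod (red n₂)).prod ((red n₃).prod (red n₄))

/-- the action on the product of the four projective lines -/
def act4 (n₁ n₂ n₃ n₄ : ℕ) (g : G4 n₁ n₂ n₃ n₄) (z : Om n₁ n₂ n₃ n₄) : Om n₁ n₂ n₃ n₄ :=
  ((actF n₁ g.1.1 z.1.1, actF n₂ g.1.2 z.1.2), (actF n₃ g.2.1 z.2.1, actF n₄ g.2.2 z.2.2))

theorem act4_mul (n₁ n₂ n₃ n₄ : ℕ) [Fact n₁.Prime] [Fact n₂.Prime] [Fact n₃.Prime] [Fact n₄.Prime]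
    (s : SL) (g : G4 n₁ n₂ n₃ n₄) (z : Om n₁ n₂ n₃ n₄) :
    act4 n₁ n₂ n₃ n₄ (red4 n₁ n₂ n₃ n₄ s * g) z = s • act4 n₁ n₂ n₃ n₄ g z := by
  show ((actF n₁ (red n₁ s * g.1.1) z.1.1, actF n₂ (red n₂ s * g.1.2) z.1.2),
    (actF n₃ (red n₃ s * g.2.1) z.2.1, actF n₄ (red n₄ s * g.2.2) z.2.2)) =
    ((s • actF n₁ g.1.1 z.1.1, s • actF n₂ g.1.2 z.1.2), (s • actF n₃ g.2.1 z.2.1, s • actF n₄ g.2.2 z.2.2))
  rw [actF_mul, actF_mul, actF_mul, actF_mul]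

theorem act4_one (n₁ n₂ n₃ n₄ : ℕ) [Fact n₁.Prime] [Fact n₂.Prime] [Fact n₃.Prime] [Fact n₄.Prime]
    (z : Om n₁ n₂ n₃ n₄) : act4 n₁ n₂ n₃ n₄ 1 z = z := by
  show ((actF n₁ 1 z.1.1, actF n₂ 1 z.1.2), (actF n₃ 1 z.2.1, actF n₄ 1 z.2.2)) = z
  rw [actF_one, actF_one, actF_one, actF_one]

theorem cong_of_red4 (n₁ n₂ n₃ n₄ : ℕ) (h1 : n₁.Prime) (h2 : n₂.Prime) (h3 : n₃.Prime) (h4 : n₄.Prime)
    (h12 : n₁ ≠ n₂) (h13 : n₁ ≠ n₃) (h14 : n₁ ≠ n₄) (h23 : n₂ ≠ n₃) (h24 : n₂ ≠ n₄) (h34 : n₃ ≠ n₄)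
    (γ : SL) (h : red4 n₁ n₂ n₃ n₄ γ = 1) : Cong (n₁ * n₂ * (n₃ * n₄)) γ := by
  have e1 : red n₁ γ = 1 := congrArg (fun x => x.1.1) h
  have e2 : red n₂ γ = 1 := congrArg (fun x => x.1.2) h
  have e3 : red n₃ γ = 1 := congrArg (fun x => x.2.1) h
  have e4 : red n₄ γ = 1 := congrArg (fun x => x.2.2) h
  have hent : ∀ l : ℕ, red l γ = 1 → (l : ℤ) ∣ γ.1 0 0 - 1 ∧ (l : ℤ) ∣ γ.1 0 1 ∧ (l : ℤ) ∣ γ.1 1 0 ∧
      (l : ℤ) ∣ γ.1 1 1 - 1 := by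
    intro l hl
    have a1 : (γ.1 0 0 : ZMod l) = 1 := by
      rw [← red_apply, hl]; simp
    have a2 : (γ.1 0 1 : ZMod l) = 0 := by
      rw [← red_apply, hl]; simp
    have a3 : (γ.1 1 0 : ZMod l) = 0 := by
      rw [← red_apply, hl]; simp
    have a4 : (γ.1 1 1 : ZMod l) = 1 := by
      rw [← red_apply, hl]; simp
    refine ⟨?_, ?_, ?_, ?_⟩
    · rw [← ZMod.intCast_zmod_eq_zero_iff_dvd]; push_cast; rw [a1, sub_self]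
    · rw [← ZMod.intCast_zmod_eq_zero_iff_dvd]; exact a2
    · rw [← ZMod.intCast_zmod_eq_zero_iff_dvd]; exact a3
    · rw [← ZMod.intCast_zmod_eq_zero_iff_dvd]; push_cast; rw [a4, sub_self]
  have c12 : IsCoprime (n₁ : ℤ) (n₂ : ℤ) := Nat.isCoprime_iff_coprime.2 ((Nat.coprime_primes h1 h2).2 h12)
  have c34 : IsCoprime (n₃ : ℤ) (n₄ : ℤ) := Nat.isCoprime_iff_coprime.2 ((Nat.coprime_primes h3 h4).2 h34)
  have c13 : IsCoprime (n₁ : ℤ) (n₃ : ℤ) := Nat.isCoprime_iff_coprime.2 ((Nat.coprime_primes h1 h3).2 h13)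
  have c14 : IsCoprime (n₁ : ℤ) (n₄ : ℤ) := Nat.isCoprime_iff_coprime.2 ((Nat.coprime_primes h1 h4).2 h14)
  have c23 : IsCoprime (n₂ : ℤ) (n₃ : ℤ) := Nat.isCoprime_iff_coprime.2 ((Nat.coprime_primes h2 h3).2 h23)
  have c24 : IsCoprime (n₂ : ℤ) (n₄ : ℤ) := Nat.isCoprime_iff_coprime.2 ((Nat.coprime_primes h2 h4).2 h24)
  have cc : IsCoprime ((n₁ : ℤ) * n₂) ((n₃ : ℤ) * n₄) := (c13.mul_right c14).mul_left (c23.mul_right c24)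
  have hdvd : ∀ x : ℤ, (n₁ : ℤ) ∣ x → (n₂ : ℤ) ∣ x → (n₃ : ℤ) ∣ x → (n₄ : ℤ) ∣ x →
      ((n₁ * n₂ * (n₃ * n₄) : ℕ) : ℤ) ∣ x := by
    intro x a b c d
    push_cast
    exact cc.mul_dvd (c12.mul_dvd a b) (c34.mul_dvd c d)
  obtain ⟨a1, a2, a3, a4⟩ := hent _ e1
  obtain ⟨b1, b2, b3, b4⟩ := hent _ e2
  obtain ⟨d1, d2, d3, d4⟩ := hent _ e3
  obtain ⟨f1, f2, f3, f4⟩ := hent _ e4
  exact ⟨hdvd _ a1 b1 d1 f1, hdvd _ a2 b2 d2 f2, hdvd _ a3 b3 d3 f3, hdvd _ a4 b4 d4 f4⟩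

/-- a function on the product, invariant under all unipotent elements of the factors, is constant -/
theorem const_of_inv (n₁ n₂ n₃ n₄ : ℕ) [Fact n₁.Prime] [Fact n₂.Prime] [Fact n₃.Prime] [Fact n₄.Prime]
    (f : Om n₁ n₂ n₃ n₄ → ℝ)
    (h1 : ∀ x w, f (act4 n₁ n₂ n₃ n₄ ((x, 1), (1, 1)) w) = f w ∨ ¬ ((∃ y, x = Uf n₁ y) ∨ ∃ y, x = Lf n₁ y))
    (h2 : ∀ x w, f (act4 n₁ n₂ n₃ n₄ ((1, x), (1, 1)) w) = f w ∨ ¬ ((∃ y, x = Uf n₂ y) ∨ ∃ y, x = Lf n₂ y))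
    (h3 : ∀ x w, f (act4 n₁ n₂ n₃ n₄ ((1, 1), (x, 1)) w) = f w ∨ ¬ ((∃ y, x = Uf n₃ y) ∨ ∃ y, x = Lf n₃ y))
    (h4 : ∀ x w, f (act4 n₁ n₂ n₃ n₄ ((1, 1), (1, x)) w) = f w ∨ ¬ ((∃ y, x = Uf n₄ y) ∨ ∃ y, x = Lf n₄ y))
    (w : Om n₁ n₂ n₃ n₄) : f w = f ((some 0, some 0), (some 0, some 0)) := by
  obtain ⟨⟨z1, z2⟩, ⟨z3, z4⟩⟩ := w
  have s1 : ∀ z1 z2 z3 z4, f ((z1, z2), (z3, z4)) = f ((some 0, z2), (z3, z4)) := by
    intro z1 z2 z3 z4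
    refine P1_const n₁ (fun z => f ((z, z2), (z3, z4))) ?_ ?_ z1
    · intro x z
      rcases h1 (Lf n₁ x) ((z, z2), (z3, z4)) with h | h
      · unfold act4 at h
        simp only [actF_one] at h
        exact h
      · exact absurd (Or.inr ⟨x, rfl⟩) h
    · intro x z
      rcases h1 (Uf n₁ x) ((z, z2), (z3, z4)) with h | h
      · unfold act4 at h
        simp only [actF_one] at h
        exact h
      · exact absurd (Or.inl ⟨x, rfl⟩) h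
  have s2 : ∀ z1 z2 z3 z4, f ((z1, z2), (z3, z4)) = f ((z1, some 0), (z3, z4)) := by
    intro z1 z2 z3 z4
    refine P1_const n₂ (fun z => f ((z1, z), (z3, z4))) ?_ ?_ z2
    · intro x z
      rcases h2 (Lf n₂ x) ((z1, z), (z3, z4)) with h | h
      · unfold act4 at h
        simp only [actF_one] at h
        exact h
      · exact absurd (Or.inr ⟨x, rfl⟩) h
    · intro x z
      rcases h2 (Uf n₂ x) ((z1, z), (z3, z4)) with h | h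
      · unfold act4 at h
        simp only [actF_one] at h
        exact h
      · exact absurd (Or.inl ⟨x, rfl⟩) h
  have s3 : ∀ z1 z2 z3 z4, f ((z1, z2), (z3, z4)) = f ((z1, z2), (some 0, z4)) := by
    intro z1 z2 z3 z4
    refine P1_const n₃ (fun z => f ((z1, z2), (z, z4))) ?_ ?_ z3
    · intro x z
      rcases h3 (Lf n₃ x) ((z1, z2), (z, z4)) with h | h
      · unfold act4 at h
        simp only [actF_one] at h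
        exact h
      · exact absurd (Or.inr ⟨x, rfl⟩) h
    · intro x z
      rcases h3 (Uf n₃ x) ((z1, z2), (z, z4)) with h | h
      · unfold act4 at h
        simp only [actF_one] at h
        exact h
      · exact absurd (Or.inl ⟨x, rfl⟩) h
  have s4 : ∀ z1 z2 z3 z4, f ((z1, z2), (z3, z4)) = f ((z1, z2), (z3, some 0)) := by
    intro z1 z2 z3 z4
    refine P1_const n₄ (fun z => f ((z1, z2), (z3, z))) ?_ ?_ z4
    · intro x z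
      rcases h4 (Lf n₄ x) ((z1, z2), (z3, z)) with h | h
      · unfold act4 at h
        simp only [actF_one] at h
        exact h
      · exact absurd (Or.inr ⟨x, rfl⟩) h
    · intro x z
      rcases h4 (Uf n₄ x) ((z1, z2), (z3, z)) with h | h
      · unfold act4 at h
        simp only [actF_one] at h
        exact h
      · exact absurd (Or.inl ⟨x, rfl⟩) h
  rw [s1, s2, s3, s4]

/-- the four embeddings -/
def em1 (n₁ n₂ n₃ n₄ : ℕ) : SLF n₁ →* G4 n₁ n₂ n₃ n₄ := (MonoidHom.inl _ _).comp (MonoidHom.inl _ _)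
def em2 (n₁ n₂ n₃ n₄ : ℕ) : SLF n₂ →* G4 n₁ n₂ n₃ n₄ := (MonoidHom.inl _ _).comp (MonoidHom.inr _ _)
def em3 (n₁ n₂ n₃ n₄ : ℕ) : SLF n₃ →* G4 n₁ n₂ n₃ n₄ := (MonoidHom.inr _ _).comp (MonoidHom.inl _ _)
def em4 (n₁ n₂ n₃ n₄ : ℕ) : SLF n₄ →* G4 n₁ n₂ n₃ n₄ := (MonoidHom.inr _ _).comp (MonoidHom.inr _ _)

/-- the bound for eigenfunctions -/
theorem eigen_bound (k : ℕ) (N Z : ℕ) (n₁ n₂ n₃ n₄ : ℕ)
    [Fact n₁.Prime] [Fact n₂.Prime] [Fact n₃.Prime] [Fact n₄.Prime] (hN : 2 ≤ N)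
    (h1 : N < n₁) (h2 : N < n₂) (h3 : N < n₃) (h4 : N < n₄)
    (f₀ : Om n₁ n₂ n₃ n₄ → ℝ) (lam : ℝ) (hne : ∃ z, f₀ z ≠ 0) (hsum : ∑ z, f₀ z = 0)
    (heig : ∀ z, av (ball Z) f₀ z = lam * f₀ z) :
    ((N : ℝ) - 1) / 2 * lam ^ (2 * k) ≤ Fintype.card (G4 n₁ n₂ n₃ n₄) *
      ∑ γ ∈ (ball ((2 * Z) ^ (2 * k))).filter (fun γ => red4 n₁ n₂ n₃ n₄ γ = 1), reps Z (2 * k) γ := by
  by_contra hcon
  have hlam : (0 : ℝ) ≤ lam ^ (2 * k) := by rw [pow_mul]; positivity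
  have hm : ∀ l : ℕ, l.Prime → N < l → ((N : ℝ) - 1) / 2 ≤ (((l - 1) / 2 : ℕ) : ℝ) := by
    intro l hl hNl
    have hodd : l % 2 = 1 := by
      rcases hl.eq_two_or_odd with h | h
      · omega
      · exact h
    have h5 : N ≤ 2 * ((l - 1) / 2) := by omega
    have h6 : (N : ℝ) ≤ 2 * (((l - 1) / 2 : ℕ) : ℝ) := by exact_mod_cast h5
    linarith
  have hφ : ∀ w g, ∑ s ∈ ball Z, (fun g => f₀ (act4 n₁ n₂ n₃ n₄ g w)) (red4 n₁ n₂ n₃ n₄ s * g) =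
      lam * (fun g => f₀ (act4 n₁ n₂ n₃ n₄ g w)) g := by
    intro w g
    simp only [act4_mul]
    exact heig _
  have key : ∀ (l : ℕ) [Fact l.Prime] (e : SLF l →* G4 n₁ n₂ n₃ n₄), N < l → ∀ x w,
      f₀ (act4 n₁ n₂ n₃ n₄ (e x) w) = f₀ w ∨ ¬ ((∃ y, x = Uf l y) ∨ ∃ y, x = Lf l y) := by
    intro l _ e hl x w
    by_contra hc
    push Not at hc
    obtain ⟨hc1, hc2⟩ := hc
    apply hcon
    have h5 := emb_bound (red4 n₁ n₂ n₃ n₄) Z k (fun g => f₀ (act4 n₁ n₂ n₃ n₄ g w)) lam (hφ w) l e (by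
      rcases hc2 with ⟨y, hy⟩ | ⟨y, hy⟩
      · left
        refine ⟨1, y, ?_⟩
        rw [one_mul, ← hy, act4_one]
        exact hc1
      · right
        refine ⟨1, y, ?_⟩
        rw [one_mul, ← hy, act4_one]
        exact hc1)
    refine le_trans ?_ h5
    exact mul_le_mul_of_nonneg_right (hm l Fact.out hl) hlam
  have hconst := const_of_inv n₁ n₂ n₃ n₄ f₀
    (fun x w => key n₁ (em1 n₁ n₂ n₃ n₄) h1 x w) (fun x w => key n₂ (em2 n₁ n₂ n₃ n₄) h2 x w)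
    (fun x w => key n₃ (em3 n₁ n₂ n₃ n₄) h3 x w) (fun x w => key n₄ (em4 n₁ n₂ n₃ n₄) h4 x w)
  obtain ⟨z, hz⟩ := hne
  rw [Finset.sum_congr rfl fun w _ => hconst w, Finset.sum_const, nsmul_eq_mul] at hsum
  rcases mul_eq_zero.1 hsum with h5 | h5
  · rw [Nat.cast_eq_zero, Finset.card_eq_zero] at h5
    exact absurd (Finset.mem_univ z) (by rw [h5]; exact Finset.notMem_empty z)
  · exact hz ((hconst z).trans h5)

/-- [G4] The gap (TII.md, 5). -/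
theorem gap (k : ℕ) (hk : 1 ≤ k) {V : ℕ} {T : ℝ} (hL : Loss V T) (N Z : ℕ) (n₁ n₂ n₃ n₄ : ℕ)
    [Fact n₁.Prime] [Fact n₂.Prime] [Fact n₃.Prime] [Fact n₄.Prime] (hN : 2 ≤ N) (hZ1 : 1 ≤ Z)
    (h1 : N < n₁ ∧ n₁ ≤ 2 * N) (h2 : N < n₂ ∧ n₂ ≤ 2 * N) (h3 : N < n₃ ∧ n₃ ≤ 2 * N) (h4 : N < n₄ ∧ n₄ ≤ 2 * N)
    (h12 : n₁ ≠ n₂) (h13 : n₁ ≠ n₃) (h14 : n₁ ≠ n₄) (h23 : n₂ ≠ n₃) (h24 : n₂ ≠ n₄) (h34 : n₃ ≠ n₄)
    (hZ : (2 * N) ^ 12 ≤ Z ^ (2 * k)) (hV : 16 * (2 * Z) ^ (4 * k) ≤ V)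
    (f : Om n₁ n₂ n₃ n₄ → ℝ) (hf : ∑ z, f z = 0) :
    n2 (av (ball Z) f) ^ k * (((N : ℝ) - 1) / 2) ≤
      n2 f ^ k * (2000 * T ^ 2 * (960 * T) ^ (2 * k)) * (Z : ℝ) ^ (4 * k) := by
  classical
  have hT := hL.two
  have hp1 : n₁.Prime := Fact.out
  have hp2 : n₂.Prime := Fact.out
  have hp3 : n₃.Prime := Fact.out
  have hp4 : n₄.Prime := Fact.out
  have hN' : (2 : ℝ) ≤ N := by exact_mod_cast hN
  set Q := n₁ * n₂ * (n₃ * n₄) with hQ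
  set W := ∑ γ ∈ (ball ((2 * Z) ^ (2 * k))).filter (fun γ => red4 n₁ n₂ n₃ n₄ γ = 1), reps Z (2 * k) γ with hW
  have hW0 : 0 ≤ W := Finset.sum_nonneg fun γ _ => reps_nonneg _ _ _
  set C : ℝ := Fintype.card (G4 n₁ n₂ n₃ n₄) * W with hC
  have hC0 : 0 ≤ C := by positivity
  have hQ2 : 2 ≤ Q := by
    have : 1 ≤ n₂ := hp2.pos
    have : 1 ≤ n₃ * n₄ := Nat.mul_pos hp3.pos hp4.pos
    have : 2 ≤ n₁ := hp1.two_le
    calc 2 = 2 * 1 * 1 := by norm_num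
      _ ≤ n₁ * n₂ * (n₃ * n₄) := by gcongr
  have hQN : Q ^ 3 ≤ (2 * N) ^ 12 := by
    calc Q ^ 3 ≤ ((2 * N) * (2 * N) * ((2 * N) * (2 * N))) ^ 3 := by
          rw [hQ]
          have a1 := h1.2
          have a2 := h2.2
          have a3 := h3.2
          have a4 := h4.2
          gcongr
      _ = (2 * N) ^ 12 := by ring
  have hcardG : (Fintype.card (G4 n₁ n₂ n₃ n₄) : ℝ) ≤ (Q : ℝ) ^ 3 := by
    have h5 : Fintype.card (G4 n₁ n₂ n₃ n₄) ≤ Q ^ 3 := by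
      rw [Fintype.card_prod, Fintype.card_prod, Fintype.card_prod, hQ]
      calc Fintype.card (SLF n₁) * Fintype.card (SLF n₂) * (Fintype.card (SLF n₃) * Fintype.card (SLF n₄))
          ≤ n₁ ^ 3 * n₂ ^ 3 * (n₃ ^ 3 * n₄ ^ 3) :=
            Nat.mul_le_mul (Nat.mul_le_mul (card_SLF n₁) (card_SLF n₂)) (Nat.mul_le_mul (card_SLF n₃) (card_SLF n₄))
        _ = _ := by ring
    exact_mod_cast h5
  have hwalk := walk_count k hk hL Q Z hQ2 hZ1 hV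
  have hWle : W ≤ (240 * T) ^ (2 * k) * 4 ^ (2 * k) * (1000 * T ^ 2) * ((Z : ℝ) ^ (2 * k) * (1 + (Z : ℝ) ^ (2 * k) / Q ^ 3)) := by
    refine le_trans ?_ hwalk
    refine Finset.sum_le_sum_of_subset_of_nonneg ?_ (fun γ _ _ => reps_nonneg _ _ _)
    intro γ hγ
    rw [Finset.mem_filter] at hγ ⊢
    exact ⟨hγ.1, cong_of_red4 n₁ n₂ n₃ n₄ hp1 hp2 hp3 hp4 h12 h13 h14 h23 h24 h34 γ hγ.2⟩
  have hQpos : (0 : ℝ) < (Q : ℝ) ^ 3 := by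
    have : (0 : ℝ) < Q := by exact_mod_cast (by omega : 0 < Q)
    positivity
  have hQZ : (Q : ℝ) ^ 3 ≤ (Z : ℝ) ^ (2 * k) := by exact_mod_cast hQN.trans hZ
  have hCle : C ≤ (2000 * T ^ 2 * (960 * T) ^ (2 * k)) * (Z : ℝ) ^ (4 * k) := by
    calc C ≤ (Q : ℝ) ^ 3 * ((240 * T) ^ (2 * k) * 4 ^ (2 * k) * (1000 * T ^ 2) *
          ((Z : ℝ) ^ (2 * k) * (1 + (Z : ℝ) ^ (2 * k) / Q ^ 3))) := by
          rw [hC]
          gcongr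
      _ = ((240 * T) ^ (2 * k) * 4 ^ (2 * k) * (1000 * T ^ 2)) *
          ((Z : ℝ) ^ (2 * k) * ((Q : ℝ) ^ 3 + (Z : ℝ) ^ (2 * k))) := by
          field_simp
      _ ≤ ((240 * T) ^ (2 * k) * 4 ^ (2 * k) * (1000 * T ^ 2)) *
          ((Z : ℝ) ^ (2 * k) * ((Z : ℝ) ^ (2 * k) + (Z : ℝ) ^ (2 * k))) := by gcongr
      _ = (2000 * T ^ 2 * (960 * T) ^ (2 * k)) * (Z : ℝ) ^ (4 * k) := by
          have e1 : (960 * T) ^ (2 * k) = (240 * T) ^ (2 * k) * 4 ^ (2 * k) := by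
            rw [← mul_pow]; congr 1; ring
          have e2 : (Z : ℝ) ^ (4 * k) = (Z : ℝ) ^ (2 * k) * (Z : ℝ) ^ (2 * k) := by
            rw [← pow_add]; congr 1; ring
          rw [e1, e2]; ring
  have hsp := spectral (Ω := Om n₁ n₂ n₃ n₄) Z k hk C (((N : ℝ) - 1) / 2) hC0 (by linarith)
    (fun f₀ lam hne hs he => eigen_bound k N Z n₁ n₂ n₃ n₄ hN h1.1 h2.1 h3.1 h4.1 f₀ lam hne hs he) f hf
  have hn2 := n2_nonneg f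
  calc n2 (av (ball Z) f) ^ k * (((N : ℝ) - 1) / 2) = ((N : ℝ) - 1) / 2 * n2 (av (ball Z) f) ^ k := mul_comm _ _
    _ ≤ C * n2 f ^ k := hsp
    _ ≤ ((2000 * T ^ 2 * (960 * T) ^ (2 * k)) * (Z : ℝ) ^ (4 * k)) * n2 f ^ k := by gcongr
    _ = _ := by ring

end Pool.Agent.TII
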