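import Pool.Agent.TII.A0

/-!
# [TII-A2a] the fundamental inequality for two row vectors
-/

set_option autoImplicit false

namespace Pool.Agent.TII

open Finset

/-- the norm of a row vector -/
def vn (u : ℤ × ℤ) : ℕ := max u.1.natAbs u.2.natAbs

/-- row vector times matrix -/
def vm (u : ℤ × ℤ) (δ : SL) : ℤ × ℤ := (u.1 * δ.1 0 0 + u.2 * δ.1 1 0, u.1 * δ.1 0 1 + u.2 * δ.1 1 1)

/-- the determinant -/
def dt (u v : ℤ × ℤ) : ℤ := u.1 * v.2 - u.2 * v.1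

theorem fst_le_vn (u : ℤ × ℤ) : |u.1| ≤ vn u := by
  unfold vn; rw [Int.abs_eq_natAbs]; norm_cast; exact le_max_left _ _

theorem snd_le_vn (u : ℤ × ℤ) : |u.2| ≤ vn u := by
  unfold vn; rw [Int.abs_eq_natAbs]; norm_cast; exact le_max_right _ _

theorem vn_le {u : ℤ × ℤ} {R : ℕ} (h1 : |u.1| ≤ R) (h2 : |u.2| ≤ R) : vn u ≤ R := by
  unfold vn
  rw [Int.abs_eq_natAbs] at h1 h2
  norm_cast at h1 h2
  exact max_le h1 h2

/-- auxiliary form of the fundamental inequality for one column -/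
theorem fund_aux (u ρ c : ℤ × ℤ) (r s m : ℤ) (hr : |ρ.1 * c.1 + ρ.2 * c.2| ≤ r)
    (hs : |u.1 * c.1 + u.2 * c.2| ≤ s) (hm : m = |c.1| ∨ m = |c.2|) :
    |dt u ρ| * m ≤ r * vn u + s * vn ρ := by
  have hr0 : 0 ≤ r := (abs_nonneg _).trans hr
  have hs0 : 0 ≤ s := (abs_nonneg _).trans hs
  rcases hm with rfl | rfl
  · have e : dt u ρ * c.1 = (u.1 * c.1 + u.2 * c.2) * ρ.2 - (ρ.1 * c.1 + ρ.2 * c.2) * u.2 := by
      unfold dt; ring
    rw [← abs_mul, e]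
    calc |(u.1 * c.1 + u.2 * c.2) * ρ.2 - (ρ.1 * c.1 + ρ.2 * c.2) * u.2|
        ≤ |(u.1 * c.1 + u.2 * c.2) * ρ.2| + |(ρ.1 * c.1 + ρ.2 * c.2) * u.2| := abs_sub _ _
      _ = |u.1 * c.1 + u.2 * c.2| * |ρ.2| + |ρ.1 * c.1 + ρ.2 * c.2| * |u.2| := by rw [abs_mul, abs_mul]
      _ ≤ s * vn ρ + r * vn u := by
        have := snd_le_vn ρ
        have := snd_le_vn u
        gcongr
      _ = _ := by ring
  · have e : dt u ρ * c.2 = (ρ.1 * c.1 + ρ.2 * c.2) * u.1 - (u.1 * c.1 + u.2 * c.2) * ρ.1 := by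
      unfold dt; ring
    rw [← abs_mul, e]
    calc |(ρ.1 * c.1 + ρ.2 * c.2) * u.1 - (u.1 * c.1 + u.2 * c.2) * ρ.1|
        ≤ |(ρ.1 * c.1 + ρ.2 * c.2) * u.1| + |(u.1 * c.1 + u.2 * c.2) * ρ.1| := abs_sub _ _
      _ = |ρ.1 * c.1 + ρ.2 * c.2| * |u.1| + |u.1 * c.1 + u.2 * c.2| * |ρ.1| := by rw [abs_mul, abs_mul]
      _ ≤ r * vn u + s * vn ρ := by
        have := fst_le_vn ρ
        have := fst_le_vn u
        gcongr

/-- [A2a] The fundamental inequality.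
Proof. Let `c = (c₁, c₂)` be the column of `δ` containing an entry of maximal absolute value `nm δ`. Identity:
`(ρ·c) u - (u·c) ρ = dt u ρ • (c₂, -c₁)` (up to sign; check: `ring`), so `|dt u ρ| * nm δ ≤ |ρ·c| vn u + |u·c| vn ρ`, and `|ρ·c| ≤ vn (vm ρ δ)`. -/
theorem fund (u ρ : ℤ × ℤ) (δ : SL) :
    (dt u ρ).natAbs * nm δ ≤ vn (vm ρ δ) * vn u + vn (vm u δ) * vn ρ := by
  obtain ⟨i, j, hij⟩ := exists_entry δ
  have key : ∀ j : Fin 2, |ρ.1 * δ.1 0 j + ρ.2 * δ.1 1 j| ≤ vn (vm ρ δ) ∧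
      |u.1 * δ.1 0 j + u.2 * δ.1 1 j| ≤ vn (vm u δ) := by
    intro j
    fin_cases j
    · exact ⟨fst_le_vn (vm ρ δ), fst_le_vn (vm u δ)⟩
    · exact ⟨snd_le_vn (vm ρ δ), snd_le_vn (vm u δ)⟩
  have h := fund_aux u ρ (δ.1 0 j, δ.1 1 j) _ _ (nm δ) (key j).1 (key j).2 (by
    fin_cases i
    · exact Or.inl hij
    · exact Or.inr hij)
  rw [Int.abs_eq_natAbs] at h
  exact_mod_cast h

end Pool.Agent.TII
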