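import Pool.Agent.TII.A2a

/-!
# [TII-A2b] counting bases in a convex body
-/

set_option autoImplicit false

namespace Pool.Agent.TII

open Finset

/-- `#s ≤ n #t` if all fibres of `f : s → t` have at most `n` elements -/
theorem card_le_mul_of_maps_to {α β : Type*} [DecidableEq β] {s : Finset α} {t : Finset β} {f : α → β}
    (Hf : ∀ a ∈ s, f a ∈ t) (n : ℕ) (hn : ∀ b ∈ t, (s.filter fun a => f a = b).card ≤ n) :
    s.card ≤ n * t.card := by
  rw [Finset.card_eq_sum_card_fiberwise Hf, mul_comm]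
  exact Finset.sum_le_card_nsmul _ _ _ hn

/-- a finite set of integers with all differences at most `k` has at most `k + 1` elements -/
theorem card_le_of_diam (s : Finset ℤ) (k : ℕ) (h : ∀ x ∈ s, ∀ y ∈ s, x - y ≤ k) :
    s.card ≤ k + 1 := by
  rcases s.eq_empty_or_nonempty with rfl | hs
  · simp
  have hsub : s ⊆ Finset.Icc (s.min' hs) (s.min' hs + k) := by
    intro x hx
    rw [Finset.mem_Icc]
    refine ⟨s.min'_le x hx, ?_⟩
    have := h x hx _ (s.min'_mem hs)
    linarith
  refine (Finset.card_le_card hsub).trans ?_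
  rw [Int.card_Icc]
  have : s.min' hs + (k : ℤ) + 1 - s.min' hs = ((k + 1 : ℕ) : ℤ) := by push_cast; ring
  rw [this, Int.toNat_natCast]

theorem dt_self (u : ℤ × ℤ) : dt u u = 0 := by unfold dt; ring

theorem dt_sub (u v w : ℤ × ℤ) : dt u (v - w) = dt u v - dt u w := by
  unfold dt; simp only [Prod.fst_sub, Prod.snd_sub]; ring

theorem dt_swap (u v : ℤ × ℤ) : dt u v = - dt v u := by unfold dt; ring

/-- if `det (u, w) = 1` and `det (u, v) = 0` then `v` is a multiple of `u` -/
theorem exists_smul_of_dt {u v w : ℤ × ℤ} (hw : dt u w = 1) (hv : dt u v = 0) :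
    v = (dt v w) • u := by
  unfold dt at *
  ext
  · simp only [Prod.smul_fst, smul_eq_mul]
    linear_combination (-v.1) * hw + w.1 * hv
  · simp only [Prod.smul_snd, smul_eq_mul]
    linear_combination (-v.2) * hw + w.2 * hv

/-- counting points of a line `det (u, ·) = x` -/
theorem card_line (g : ℤ × ℤ → ℝ) (hsm : ∀ (y : ℤ) u, g (y • u) = |(y : ℝ)| * g u)
    (hsub : ∀ u v, g (u - v) ≤ g u + g v) (u w : ℤ × ℤ) (hw : dt u w = 1)
    (s : ℝ) (S : Finset (ℤ × ℤ)) (x : ℤ) (hx : ∀ v ∈ S, dt u v = x) (hs : ∀ v ∈ S, g v ≤ s)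
    (k : ℕ) (hk : 2 * s < (k + 1) * g u) : S.card ≤ k + 1 := by
  rcases S.eq_empty_or_nonempty with rfl | ⟨a, ha⟩
  · simp
  have hinj : Set.InjOn (fun v : ℤ × ℤ => dt v w) (S : Set (ℤ × ℤ)) := by
    intro v hv v' hv' h
    have h0 : dt u (v - v') = 0 := by rw [dt_sub, hx v hv, hx v' hv', sub_self]
    have h1 := exists_smul_of_dt hw h0
    have h2 : dt (v - v') w = 0 := by
      have : dt (v - v') w = dt v w - dt v' w := by
        unfold dt; simp only [Prod.fst_sub, Prod.snd_sub]; ring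
      rw [this]; simpa [sub_eq_zero] using h
    rw [h2, zero_smul] at h1
    exact sub_eq_zero.1 h1
  rw [← Finset.card_image_of_injOn hinj]
  refine card_le_of_diam _ k ?_
  intro x hx' y hy'
  rw [Finset.mem_image] at hx' hy'
  obtain ⟨v, hv, rfl⟩ := hx'
  obtain ⟨v', hv', rfl⟩ := hy'
  have h0 : dt u (v - v') = 0 := by rw [dt_sub, hx v hv, hx v' hv', sub_self]
  have h1 := exists_smul_of_dt hw h0
  have h2 : dt (v - v') w = dt v w - dt v' w := by
    unfold dt; simp only [Prod.fst_sub, Prod.snd_sub]; ring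
  have h3 : g (v - v') ≤ 2 * s := (hsub v v').trans (by linarith [hs v hv, hs v' hv'])
  rw [h1, hsm, h2] at h3
  by_contra hcon
  push Not at hcon
  have h4 : ((k : ℝ) + 1) ≤ |((dt v w - dt v' w : ℤ) : ℝ)| := by
    refine le_trans ?_ (le_abs_self _)
    have : (k : ℤ) + 1 ≤ dt v w - dt v' w := by linarith
    exact_mod_cast this
  have hg : 0 ≤ g u := by
    have := hsub u u
    rw [sub_self] at this
    have h00 : g 0 = 0 := by
      have := hsm 0 0
      simpa using this
    rw [h00] at this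
    linarith
  have h5 := mul_le_mul_of_nonneg_right h4 hg
  linarith

theorem gauge_nonneg (g : ℤ × ℤ → ℝ) (hsm : ∀ (y : ℤ) u, g (y • u) = |(y : ℝ)| * g u)
    (hsub : ∀ u v, g (u - v) ≤ g u + g v) (u : ℤ × ℤ) : 0 ≤ g u := by
  have := hsub u u
  rw [sub_self] at this
  have h00 : g 0 = 0 := by
    have := hsm 0 0
    simpa using this
  rw [h00] at this
  linarith

/-- the number of lattice points of gauge at most `1` -/
theorem card_body (g : ℤ × ℤ → ℝ) (hsm : ∀ (y : ℤ) u, g (y • u) = |(y : ℝ)| * g u)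
    (hsub : ∀ u v, g (u - v) ≤ g u + g v) (V : ℝ) (hV : 0 ≤ V) (S : Finset (ℤ × ℤ))
    (hS : ∀ v ∈ S, g v ≤ 1) (hdt : ∀ u ∈ S, ∀ v ∈ S, |(dt u v : ℝ)| ≤ 2 * V * g u * g v)
    (u w : ℤ × ℤ) (hu : u ∈ S) (hw : w ∈ S) (huw : dt u w = 1) :
    (S.card : ℝ) ≤ 18 * V := by
  have hg0 := gauge_nonneg g hsm hsub
  set l := g u with hl
  have hl1 : l ≤ 1 := hS u hu
  have h1 : 1 ≤ 2 * V * l := by
    have h := hdt u hu w hw
    rw [huw] at h
    simp only [Int.cast_one, abs_one] at h
    have h2 : 2 * V * g u * g w ≤ 2 * V * g u * 1 :=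
      mul_le_mul_of_nonneg_left (hS w hw) (by have := hg0 u; positivity)
    linarith
  have hlpos : 0 < l := by
    rcases lt_or_ge 0 l with h | h
    · exact h
    · have : 2 * V * l ≤ 0 := mul_nonpos_of_nonneg_of_nonpos (by linarith) h
      linarith
  have hV1 : 1 ≤ 2 * V := by
    have : 2 * V * l ≤ 2 * V * 1 := mul_le_mul_of_nonneg_left hl1 (by linarith)
    linarith
  have hinv : 1 / l ≤ 2 * V := by
    rw [div_le_iff₀ hlpos]; exact h1
  set k := ⌊2 / l⌋₊ with hk
  set m := ⌊2 * V * l⌋₊ with hm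
  have hk1 : (k : ℝ) ≤ 2 / l := Nat.floor_le (by positivity)
  have hk2 : 2 / l < k + 1 := Nat.lt_floor_add_one _
  have hm1 : (m : ℝ) ≤ 2 * V * l := Nat.floor_le (by positivity)
  have hm2 : 2 * V * l < m + 1 := Nat.lt_floor_add_one _
  have hmaps : ∀ v ∈ S, dt u v ∈ Finset.Icc (-(m : ℤ)) m := by
    intro v hv
    have h := hdt u hu v hv
    have h2 : 2 * V * g u * g v ≤ 2 * V * g u * 1 :=
      mul_le_mul_of_nonneg_left (hS v hv) (by have := hg0 u; positivity)
    have h3 : |(dt u v : ℝ)| < m + 1 := by linarith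
    have h4 : |dt u v| < (m : ℤ) + 1 := by exact_mod_cast h3
    have h5 : |dt u v| ≤ (m : ℤ) := by linarith
    rw [Finset.mem_Icc]
    exact abs_le.1 h5
  have hcard : S.card ≤ (k + 1) * (Finset.Icc (-(m : ℤ)) m).card := by
    refine card_le_mul_of_maps_to hmaps (k + 1) ?_
    intro x _
    refine card_line g hsm hsub u w huw 1 _ x ?_ ?_ k ?_
    · intro v hv; exact (Finset.mem_filter.1 hv).2
    · intro v hv; exact hS v (Finset.mem_filter.1 hv).1
    · rw [← hl]
      rw [div_lt_iff₀ hlpos] at hk2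
      linarith
  have hIcc : (Finset.Icc (-(m : ℤ)) m).card = 2 * m + 1 := by
    rw [Int.card_Icc]
    have : (m : ℤ) + 1 - -(m : ℤ) = ((2 * m + 1 : ℕ) : ℤ) := by push_cast; ring
    rw [this, Int.toNat_natCast]
  rw [hIcc] at hcard
  have hcard' : (S.card : ℝ) ≤ (k + 1) * (2 * m + 1) := by exact_mod_cast hcard
  have h6 : ((k : ℝ) + 1) * (2 * m + 1) ≤ (2 / l + 1) * (2 * (2 * V * l) + 1) := by
    apply mul_le_mul <;> first | positivity | linarith
  have h7 : (2 / l + 1) * (2 * (2 * V * l) + 1) = 8 * V + 2 * (1 / l) + 4 * V * l + 1 := by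
    field_simp; ring
  have h8 : V * l ≤ V * 1 := mul_le_mul_of_nonneg_left hl1 hV
  linarith

/-- Abstract form of Lemma L: the number of bases in a convex body. -/
theorem abstract_LL (g : ℤ × ℤ → ℝ) (hsm : ∀ (y : ℤ) u, g (y • u) = |(y : ℝ)| * g u)
    (hsub : ∀ u v, g (u - v) ≤ g u + g v) (V : ℝ) (hV : 0 ≤ V) (S : Finset (ℤ × ℤ))
    (hS : ∀ v ∈ S, g v ≤ 1) (hdt : ∀ u ∈ S, ∀ v ∈ S, |(dt u v : ℝ)| ≤ 2 * V * g u * g v) :
    (((S ×ˢ S).filter (fun p => dt p.1 p.2 = 1)).card : ℝ) ≤ 108 * V := by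
  have hg0 := gauge_nonneg g hsm hsub
  set P := (S ×ˢ S).filter (fun p => dt p.1 p.2 = 1) with hP
  rcases P.eq_empty_or_nonempty with h0 | ⟨⟨u0, w0⟩, h0⟩
  · rw [h0]; simp only [Finset.card_empty, Nat.cast_zero]; positivity
  have hpos : ∀ u ∈ S, ∀ v ∈ S, dt u v = 1 → 0 < g u ∧ 0 < g v := by
    intro u hu v hv h
    have h1 := hdt u hu v hv
    rw [h] at h1
    simp only [Int.cast_one, abs_one] at h1
    constructor
    · rcases (hg0 u).eq_or_lt with h2 | h2
      · rw [← h2] at h1; simp at h1; linarith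
      · exact h2
    · rcases (hg0 v).eq_or_lt with h2 | h2
      · rw [← h2] at h1; simp at h1; linarith
      · exact h2
  rw [hP, Finset.mem_filter, Finset.mem_product] at h0
  have hcS := card_body g hsm hsub V hV S hS hdt u0 w0 h0.1.1 h0.1.2 h0.2
  set P1 := P.filter (fun p => g p.2 ≤ g p.1) with hP1
  set P2 := P.filter (fun p => g p.1 ≤ g p.2) with hP2
  have hsubP : P ⊆ P1 ∪ P2 := by
    intro p hp
    rw [Finset.mem_union]
    rcases le_total (g p.2) (g p.1) with h | h
    · left; exact Finset.mem_filter.2 ⟨hp, h⟩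
    · right; exact Finset.mem_filter.2 ⟨hp, h⟩
  have hc1 : P1.card ≤ 3 * S.card := by
    refine card_le_mul_of_maps_to (f := Prod.fst) ?_ 3 ?_
    · intro p hp
      exact (Finset.mem_product.1 (Finset.mem_filter.1 (Finset.mem_filter.1 hp).1).1).1
    · intro u hu
      set F := P1.filter (fun p => p.1 = u) with hF
      rcases F.eq_empty_or_nonempty with hF0 | ⟨⟨u', w⟩, hw⟩
      · rw [hF0]; simp
      rw [← Finset.card_image_of_injOn (f := Prod.snd) (s := F)]
      · have hw1 : u' = u := (Finset.mem_filter.1 hw).2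
        have hw2 := Finset.mem_filter.1 (Finset.mem_filter.1 (Finset.mem_filter.1 hw).1).1
        have hw3 : dt u w = 1 := by rw [← hw1]; exact hw2.2
        have hwS : w ∈ S := (Finset.mem_product.1 hw2.1).2
        refine card_line g hsm hsub u w hw3 (g u) _ 1 ?_ ?_ 2 ?_
        · intro v hv
          obtain ⟨p, hp, rfl⟩ := Finset.mem_image.1 hv
          have h1 : p.1 = u := (Finset.mem_filter.1 hp).2
          have h2 := (Finset.mem_filter.1 (Finset.mem_filter.1 (Finset.mem_filter.1 hp).1).1).2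
          rw [← h1]; exact h2
        · intro v hv
          obtain ⟨p, hp, rfl⟩ := Finset.mem_image.1 hv
          have h1 : p.1 = u := (Finset.mem_filter.1 hp).2
          have h2 := (Finset.mem_filter.1 (Finset.mem_filter.1 hp).1).2
          rw [← h1]; exact h2
        · have := (hpos u hu w hwS hw3).1
          push_cast; linarith
      · intro p hp q hq h
        have h1 : p.1 = u := (Finset.mem_filter.1 hp).2
        have h2 : q.1 = u := (Finset.mem_filter.1 hq).2
        exact Prod.ext (h1.trans h2.symm) h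
  have hc2 : P2.card ≤ 3 * S.card := by
    refine card_le_mul_of_maps_to (f := Prod.snd) ?_ 3 ?_
    · intro p hp
      exact (Finset.mem_product.1 (Finset.mem_filter.1 (Finset.mem_filter.1 hp).1).1).2
    · intro v hv
      set F := P2.filter (fun p => p.2 = v) with hF
      rcases F.eq_empty_or_nonempty with hF0 | ⟨⟨w, v'⟩, hw⟩
      · rw [hF0]; simp
      rw [← Finset.card_image_of_injOn (f := Prod.fst) (s := F)]
      · have hw1 : v' = v := (Finset.mem_filter.1 hw).2
        have hw2 := Finset.mem_filter.1 (Finset.mem_filter.1 (Finset.mem_filter.1 hw).1).1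
        have hw3 : dt w v = 1 := by rw [← hw1]; exact hw2.2
        have hwS : w ∈ S := (Finset.mem_product.1 hw2.1).1
        have hw4 : dt v (-w) = 1 := by
          unfold dt at *; simp only [Prod.fst_neg, Prod.snd_neg]; linarith
        refine card_line g hsm hsub v (-w) hw4 (g v) _ (-1) ?_ ?_ 2 ?_
        · intro u hu
          obtain ⟨p, hp, rfl⟩ := Finset.mem_image.1 hu
          have h1 : p.2 = v := (Finset.mem_filter.1 hp).2
          have h2 := (Finset.mem_filter.1 (Finset.mem_filter.1 (Finset.mem_filter.1 hp).1).1).2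
          rw [← h1, dt_swap, h2]
        · intro u hu
          obtain ⟨p, hp, rfl⟩ := Finset.mem_image.1 hu
          have h1 : p.2 = v := (Finset.mem_filter.1 hp).2
          have h2 := (Finset.mem_filter.1 (Finset.mem_filter.1 hp).1).2
          rw [← h1]; exact h2
        · have := (hpos w hwS v hv hw3).2
          push_cast; linarith
      · intro p hp q hq h
        have h1 : p.2 = v := (Finset.mem_filter.1 hp).2
        have h2 : q.2 = v := (Finset.mem_filter.1 hq).2
        exact Prod.ext h (h1.trans h2.symm)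
  have hcP : P.card ≤ 6 * S.card := by
    calc P.card ≤ (P1 ∪ P2).card := Finset.card_le_card hsubP
      _ ≤ P1.card + P2.card := Finset.card_union_le _ _
      _ ≤ 6 * S.card := by omega
  have hcP' : (P.card : ℝ) ≤ 6 * S.card := by exact_mod_cast hcP
  linarith

/-- the gauge of a row vector: `max (|u| / A) (|u δ| / B)` -/
noncomputable def gau (δ : SL) (A B : ℕ) (u : ℤ × ℤ) : ℝ := max ((vn u : ℝ) / A) ((vn (vm u δ) : ℝ) / B)

theorem gau_nonneg (δ : SL) (A B : ℕ) (u : ℤ × ℤ) : 0 ≤ gau δ A B u := by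
  unfold gau
  exact le_trans (by positivity) (le_max_left _ _)

/-- `|dt u ρ| ≤ 2 V g(u) g(ρ)`, `V = A B / nm δ` -/
theorem fund_gau (δ : SL) {A B : ℕ} (hA : 1 ≤ A) (hB : 1 ≤ B) (u ρ : ℤ × ℤ) :
    |((dt u ρ : ℤ) : ℝ)| * nm δ ≤ 2 * (A * B) * (gau δ A B u * gau δ A B ρ) := by
  have hA' : (0 : ℝ) < A := by exact_mod_cast hA
  have hB' : (0 : ℝ) < B := by exact_mod_cast hB
  have h1 : ∀ v, (vn v : ℝ) ≤ A * gau δ A B v := by
    intro v
    have : (vn v : ℝ) / A ≤ gau δ A B v := le_max_left _ _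
    rw [div_le_iff₀ hA'] at this
    linarith
  have h2 : ∀ v, (vn (vm v δ) : ℝ) ≤ B * gau δ A B v := by
    intro v
    have : (vn (vm v δ) : ℝ) / B ≤ gau δ A B v := le_max_right _ _
    rw [div_le_iff₀ hB'] at this
    linarith
  have h := fund u ρ δ
  have h3 : |((dt u ρ : ℤ) : ℝ)| * nm δ ≤ vn (vm ρ δ) * vn u + vn (vm u δ) * vn ρ := by
    have e : |((dt u ρ : ℤ) : ℝ)| = ((dt u ρ).natAbs : ℝ) := by
      rw [Nat.cast_natAbs]; push_cast; rfl
    rw [e]
    exact_mod_cast h
  have hu := gau_nonneg δ A B u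
  have hr := gau_nonneg δ A B ρ
  calc |((dt u ρ : ℤ) : ℝ)| * nm δ ≤ vn (vm ρ δ) * vn u + vn (vm u δ) * vn ρ := h3
    _ ≤ (B * gau δ A B ρ) * (A * gau δ A B u) + (B * gau δ A B u) * (A * gau δ A B ρ) := by
      have a1 := h1 u
      have a2 := h1 ρ
      have a3 := h2 u
      have a4 := h2 ρ
      gcongr
    _ = _ := by ring

theorem vn_sub (u v : ℤ × ℤ) : vn (u - v) ≤ vn u + vn v := by
  apply vn_le
  · rw [Prod.fst_sub]; push_cast
    exact (abs_sub _ _).trans (add_le_add (fst_le_vn u) (fst_le_vn v))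
  · rw [Prod.snd_sub]; push_cast
    exact (abs_sub _ _).trans (add_le_add (snd_le_vn u) (snd_le_vn v))

theorem vm_sub (u v : ℤ × ℤ) (δ : SL) : vm (u - v) δ = vm u δ - vm v δ := by
  unfold vm
  ext <;> simp only [Prod.fst_sub, Prod.snd_sub] <;> ring

/-- subadditive and homogeneous: `g(j u) = |j| g(u)`, `g(u - v) ≤ g(u) + g(v)` -/
theorem gau_sub (δ : SL) (A B : ℕ) (u v : ℤ × ℤ) :
    gau δ A B (u - v) ≤ gau δ A B u + gau δ A B v := by
  have h1 : (vn (u - v) : ℝ) ≤ vn u + vn v := by exact_mod_cast vn_sub u v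
  have h2 : (vn (vm (u - v) δ) : ℝ) ≤ vn (vm u δ) + vn (vm v δ) := by
    rw [vm_sub]; exact_mod_cast vn_sub _ _
  unfold gau
  apply max_le
  · calc (vn (u - v) : ℝ) / A ≤ (vn u + vn v) / A := by gcongr
      _ = vn u / A + vn v / A := add_div _ _ _
      _ ≤ _ := add_le_add (le_max_left _ _) (le_max_left _ _)
  · calc (vn (vm (u - v) δ) : ℝ) / B ≤ (vn (vm u δ) + vn (vm v δ)) / B := by gcongr
      _ = vn (vm u δ) / B + vn (vm v δ) / B := add_div _ _ _
      _ ≤ _ := add_le_add (le_max_right _ _) (le_max_right _ _)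

theorem vn_mul (j : ℤ) (u : ℤ × ℤ) : vn (j * u.1, j * u.2) = j.natAbs * vn u := by
  unfold vn
  simp only [Int.natAbs_mul]
  rw [Nat.mul_max_mul_left]

theorem gau_mul (δ : SL) (A B : ℕ) (j : ℤ) (u : ℤ × ℤ) :
    gau δ A B (j * u.1, j * u.2) = |(j : ℝ)| * gau δ A B u := by
  have h1 : vm (j * u.1, j * u.2) δ = (j * (vm u δ).1, j * (vm u δ).2) := by
    unfold vm
    ext <;> simp only <;> ring
  have e : |(j : ℝ)| = (j.natAbs : ℝ) := by
    rw [Nat.cast_natAbs]; push_cast; rfl
  unfold gau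
  rw [h1, vn_mul, vn_mul, e, mul_max_of_nonneg _ _ (by positivity)]
  push_cast
  congr 1 <;> ring

end Pool.Agent.TII
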