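import Pool.Agent.TII.A2b

/-!
# [TII-A2c] Lemma L: the number of factorisations in balls
-/

set_option autoImplicit false

namespace Pool.Agent.TII

open Finset

/-- the rows of a matrix -/
def row (i : Fin 2) (g : SL) : ℤ × ℤ := (g.1 i 0, g.1 i 1)

theorem vn_row_le (i : Fin 2) (g : SL) : vn (row i g) ≤ nm g :=
  vn_le (entry_le g i 0) (entry_le g i 1)

theorem vm_row (i : Fin 2) (g h : SL) : vm (row i g) h = row i (g * h) := by
  unfold vm row
  simp only [mul_entry]

theorem dt_row (g : SL) : dt (row 0 g) (row 1 g) = 1 := by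
  have h := g.2
  rw [Matrix.det_fin_two] at h
  unfold dt row
  exact h

theorem row_inj {g h : SL} (h0 : row 0 g = row 0 h) (h1 : row 1 g = row 1 h) : g = h := by
  unfold row at h0 h1
  rw [Prod.mk.injEq] at h0 h1
  apply Matrix.SpecialLinearGroup.ext
  intro i j
  fin_cases i <;> fin_cases j
  · exact h0.1
  · exact h0.2
  · exact h1.1
  · exact h1.2

/-- [A2c] Lemma L.
Proof. The rows `ρ₁, ρ₂` of `g⁻¹` satisfy `vn ρᵢ ≤ A`, `vn (vm ρᵢ δ) ≤ B` (rows of `g⁻¹ δ`), i.e. gauge `≤ 1`, `dt ρ₁ ρ₂ = 1`, and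
`g` is determined by them: `abstract_LL`. -/
theorem lemL (δ : SL) (A B : ℕ) :
    ((((ball A).filter fun g => g⁻¹ * δ ∈ ball B).card : ℕ) : ℝ) * nm δ ≤ 120 * A * B := by
  rcases Nat.eq_zero_or_pos A with hA | hA
  · have : (ball A).filter (fun g => g⁻¹ * δ ∈ ball B) = ∅ := by
      rw [Finset.filter_eq_empty_iff]
      intro g hg
      rw [mem_ball] at hg
      have := one_le_nm g
      omega
    rw [this]
    simp only [Finset.card_empty, Nat.cast_zero, zero_mul]
    positivity
  rcases Nat.eq_zero_or_pos B with hB | hB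
  · have : (ball A).filter (fun g => g⁻¹ * δ ∈ ball B) = ∅ := by
      rw [Finset.filter_eq_empty_iff]
      intro g hg hg'
      rw [mem_ball] at hg'
      have := one_le_nm (g⁻¹ * δ)
      omega
    rw [this]
    simp only [Finset.card_empty, Nat.cast_zero, zero_mul]
    positivity
  have hA' : (0 : ℝ) < A := by exact_mod_cast hA
  have hB' : (0 : ℝ) < B := by exact_mod_cast hB
  have hδ : (0 : ℝ) < nm δ := by exact_mod_cast one_le_nm δ
  set F := (ball A).filter (fun g => g⁻¹ * δ ∈ ball B) with hF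
  set S : Finset (ℤ × ℤ) := F.image (fun g => row 0 g⁻¹) ∪ F.image (fun g => row 1 g⁻¹) with hS
  have hg1 : ∀ g ∈ F, ∀ i, gau δ A B (row i g⁻¹) ≤ 1 := by
    intro g hg i
    rw [hF, Finset.mem_filter, mem_ball, mem_ball] at hg
    unfold gau
    apply max_le
    · rw [div_le_one hA']
      have := vn_row_le i g⁻¹
      rw [nm_inv] at this
      exact_mod_cast this.trans hg.1
    · rw [div_le_one hB', vm_row]
      exact_mod_cast (vn_row_le i _).trans hg.2
  have hS1 : ∀ v ∈ S, gau δ A B v ≤ 1 := by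
    intro v hv
    rw [hS, Finset.mem_union, Finset.mem_image, Finset.mem_image] at hv
    rcases hv with ⟨g, hg, rfl⟩ | ⟨g, hg, rfl⟩
    · exact hg1 g hg 0
    · exact hg1 g hg 1
  have hdt : ∀ u ∈ S, ∀ v ∈ S, |(dt u v : ℝ)| ≤ 2 * ((A : ℝ) * B / nm δ) * gau δ A B u * gau δ A B v := by
    intro u _ v _
    have h := fund_gau δ hA hB u v
    rw [← le_div_iff₀ hδ] at h
    refine h.trans (le_of_eq ?_)
    ring
  have key := abstract_LL (gau δ A B) (fun y u => gau_mul δ A B y u) (gau_sub δ A B) ((A : ℝ) * B / nm δ)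
    (by positivity) S hS1 hdt
  have hcard : F.card ≤ ((S ×ˢ S).filter (fun p => dt p.1 p.2 = 1)).card := by
    refine Finset.card_le_card_of_injOn (fun g => (row 0 g⁻¹, row 1 g⁻¹)) ?_ ?_
    · intro g hg
      rw [Finset.mem_coe] at hg
      rw [Finset.mem_coe, Finset.mem_filter, Finset.mem_product]
      refine ⟨⟨?_, ?_⟩, dt_row g⁻¹⟩
      · exact Finset.mem_union_left _ (Finset.mem_image_of_mem _ hg)
      · exact Finset.mem_union_right _ (Finset.mem_image_of_mem _ hg)
    · intro g _ h _ hgh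
      rw [Prod.mk.injEq] at hgh
      exact inv_injective (row_inj hgh.1 hgh.2)
  have hcard' : (F.card : ℝ) ≤ (((S ×ˢ S).filter (fun p => dt p.1 p.2 = 1)).card : ℝ) := by
    exact_mod_cast hcard
  have h2 : (F.card : ℝ) ≤ 108 * ((A : ℝ) * B / nm δ) := hcard'.trans key
  calc (F.card : ℝ) * nm δ ≤ 108 * ((A : ℝ) * B / nm δ) * nm δ := by gcongr
    _ = 108 * A * B := by field_simp
    _ ≤ 120 * A * B := by gcongr; norm_num

/-- `lemL` for `δ = 1` -/
theorem card_ball (R : ℕ) : ((ball R).card : ℝ) ≤ 120 * R ^ 2 := by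
  have h := lemL 1 R R
  rw [nm_one] at h
  have e : (ball R).filter (fun g => g⁻¹ * 1 ∈ ball R) = ball R := by
    rw [Finset.filter_eq_self]
    intro g hg
    rw [mul_one, mem_ball, nm_inv]
    exact mem_ball.1 hg
  rw [e] at h
  simp only [Nat.cast_one, mul_one] at h
  linarith [h, sq (R : ℝ)]

end Pool.Agent.TII
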