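import Pool.Agent.TII.A2c

/-!
# [TII-A3] the number of representations as a product of `k` elements of a ball
-/

set_option autoImplicit false

namespace Pool.Agent.TII

open Finset

open Classical in
/-- the number of `(s₁, …, s_k) ∈ (ball Z)^k` with product `γ` -/
noncomputable def reps (Z : ℕ) : ℕ → SL → ℝ
  | 0, γ => if γ = 1 then 1 else 0
  | k + 1, γ => ∑ s ∈ ball Z, reps Z k (s⁻¹ * γ)

theorem reps_nonneg (Z k : ℕ) (γ : SL) : 0 ≤ reps Z k γ := by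
  induction k generalizing γ with
  | zero => unfold reps; split_ifs <;> norm_num
  | succ k ih => unfold reps; exact Finset.sum_nonneg fun s _ => ih _

/-- Induction, `nm_mul`. -/
theorem reps_support (Z k : ℕ) (γ : SL) (h : reps Z k γ ≠ 0) : nm γ ≤ (2 * Z) ^ k := by
  induction k generalizing γ with
  | zero =>
    unfold reps at h
    have h1 : γ = 1 := by
      by_contra hcon
      exact h (if_neg hcon)
    rw [h1, nm_one, pow_zero]
  | succ k ih =>
    unfold reps at h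
    obtain ⟨s, hs, hs'⟩ := Finset.exists_ne_zero_of_sum_ne_zero h
    have h1 := ih _ hs'
    have h2 := nm_mul s (s⁻¹ * γ)
    rw [mul_inv_cancel_left] at h2
    rw [mem_ball] at hs
    calc nm γ ≤ 2 * nm s * nm (s⁻¹ * γ) := h2
      _ ≤ 2 * Z * (2 * Z) ^ k := by gcongr
      _ = (2 * Z) ^ (k + 1) := by ring

/-- the case `k = 1` -/
theorem reps_one (Z : ℕ) (γ : SL) : reps Z 1 γ * nm γ ≤ Z := by
  classical
  by_cases h : γ ∈ ball Z
  · have e : reps Z 1 γ = 1 := by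
      unfold reps
      rw [Finset.sum_eq_single γ]
      · unfold reps; simp
      · intro s _ hs
        unfold reps
        rw [if_neg]
        intro h1
        exact hs (by rw [inv_mul_eq_one] at h1; exact h1)
      · intro h1; exact absurd h h1
    rw [e, one_mul]
    exact_mod_cast mem_ball.1 h
  · have e : reps Z 1 γ = 0 := by
      unfold reps
      refine Finset.sum_eq_zero fun s hs => ?_
      unfold reps
      rw [if_neg]
      intro h1
      rw [inv_mul_eq_one] at h1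
      exact h (h1 ▸ hs)
    rw [e, zero_mul]
    positivity

/-- the dyadic sum over a ball, from `lemL` -/
theorem sum_inv_le {V : ℕ} {T : ℝ} (hL : Loss V T) (Z : ℕ) (γ : SL) (P : ℕ) (hP : P ≤ V) :
    (∑ s ∈ (ball Z).filter (fun s => nm (s⁻¹ * γ) ≤ P), (1 : ℝ) / nm (s⁻¹ * γ)) * nm γ ≤ 240 * T * Z := by
  set s0 := (ball Z).filter (fun s => nm (s⁻¹ * γ) ≤ P) with hs0
  have h := dyadic s0 (fun s => nm (s⁻¹ * γ)) V (fun s hs => ⟨one_le_nm _, ((Finset.mem_filter.1 hs).2).trans hP⟩)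
    (fun _ => (1 : ℝ)) (fun _ _ => zero_le_one)
  have hγ : (0 : ℝ) < nm γ := by exact_mod_cast one_le_nm γ
  have h1 : ∀ j ∈ range (Nat.log 2 V + 1), (1 / (2 : ℝ) ^ j) *
      ∑ s ∈ s0.filter (fun s => nm (s⁻¹ * γ) < 2 ^ (j + 1)), (1 : ℝ) ≤ 240 * Z / nm γ := by
    intro j _
    have h2 := lemL γ Z (2 ^ (j + 1))
    have hsub : s0.filter (fun s => nm (s⁻¹ * γ) < 2 ^ (j + 1)) ⊆
        (ball Z).filter (fun g => g⁻¹ * γ ∈ ball (2 ^ (j + 1))) := by
      intro s hs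
      rw [Finset.mem_filter] at hs ⊢
      refine ⟨(Finset.mem_filter.1 hs.1).1, ?_⟩
      rw [mem_ball]
      exact hs.2.le
    have h3 : ((s0.filter (fun s => nm (s⁻¹ * γ) < 2 ^ (j + 1))).card : ℝ) ≤
        (((ball Z).filter (fun g => g⁻¹ * γ ∈ ball (2 ^ (j + 1)))).card : ℝ) := by
      exact_mod_cast Finset.card_le_card hsub
    rw [Finset.sum_const, nsmul_eq_mul, mul_one]
    rw [le_div_iff₀ hγ]
    calc 1 / (2 : ℝ) ^ j * ((s0.filter (fun s => nm (s⁻¹ * γ) < 2 ^ (j + 1))).card : ℝ) * nm γ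
        ≤ 1 / (2 : ℝ) ^ j * ((((ball Z).filter (fun g => g⁻¹ * γ ∈ ball (2 ^ (j + 1)))).card : ℝ)) * nm γ := by
          gcongr
      _ = 1 / (2 : ℝ) ^ j * (((((ball Z).filter (fun g => g⁻¹ * γ ∈ ball (2 ^ (j + 1)))).card : ℝ)) * nm γ) := by
          ring
      _ ≤ 1 / (2 : ℝ) ^ j * (120 * Z * (2 ^ (j + 1) : ℕ)) := by gcongr
      _ = 240 * Z := by push_cast; field_simp; ring
  have h4 := h.trans (Finset.sum_le_sum h1)
  rw [Finset.sum_const, nsmul_eq_mul, Finset.card_range] at h4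
  have hT : ((Nat.log 2 V + 1 : ℕ) : ℝ) ≤ T := by have := hL.log; push_cast; linarith
  calc (∑ s ∈ s0, (1 : ℝ) / nm (s⁻¹ * γ)) * nm γ ≤ (((Nat.log 2 V + 1 : ℕ) : ℝ) * (240 * Z / nm γ)) * nm γ := by
        gcongr
    _ ≤ (T * (240 * Z / nm γ)) * nm γ := by gcongr
    _ = 240 * T * Z := by field_simp

/-- [A3] Proof. Induction on `k ≥ 1`: `reps Z 1 γ = 1` if `nm γ ≤ Z`, else `0`. Step: `reps (k+1) γ ≤ ∑_{s ∈ ball Z} (240 T)^k Z^k / nm (s⁻¹ γ)`, only
`s` with `nm (s⁻¹ γ) ≤ (2Z)^k ≤ V`; `dyadic`, `lemL`: `#{s ∈ ball Z : nm (s⁻¹ γ) < 2^(j+1)} ≤ 120 Z 2^(j+1) / nm γ`, at most `T` values of `j`. -/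
theorem reps_le {V : ℕ} {T : ℝ} (hL : Loss V T) (Z : ℕ) (hZ : 1 ≤ Z) (k : ℕ) (hk : 1 ≤ k)
    (hV : (2 * Z) ^ k ≤ V) (γ : SL) : reps Z k γ * nm γ ≤ (240 * T) ^ k * (Z : ℝ) ^ k := by
  have hT := hL.two
  induction k, hk using Nat.le_induction generalizing γ with
  | base =>
    refine (reps_one Z γ).trans ?_
    rw [pow_one, pow_one]
    have hZ' : (0 : ℝ) ≤ Z := by positivity
    nlinarith
  | succ k hk ih =>
    have hV' : (2 * Z) ^ k ≤ V := by
      refine le_trans ?_ hV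
      exact Nat.pow_le_pow_right (by omega) (by omega)
    have ih' := ih hV'
    have hγ : (0 : ℝ) < nm γ := by exact_mod_cast one_le_nm γ
    have e1 : reps Z (k + 1) γ = ∑ s ∈ ball Z, reps Z k (s⁻¹ * γ) := by
      conv_lhs => unfold reps
    have e2 : ∑ s ∈ ball Z, reps Z k (s⁻¹ * γ) =
        ∑ s ∈ (ball Z).filter (fun s => nm (s⁻¹ * γ) ≤ (2 * Z) ^ k), reps Z k (s⁻¹ * γ) := by
      symm
      refine Finset.sum_subset (Finset.filter_subset _ _) fun s hs hs' => ?_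
      by_contra hcon
      exact hs' (Finset.mem_filter.2 ⟨hs, reps_support Z k _ hcon⟩)
    have e3 : ∑ s ∈ (ball Z).filter (fun s => nm (s⁻¹ * γ) ≤ (2 * Z) ^ k), reps Z k (s⁻¹ * γ) ≤
        (240 * T) ^ k * (Z : ℝ) ^ k *
          ∑ s ∈ (ball Z).filter (fun s => nm (s⁻¹ * γ) ≤ (2 * Z) ^ k), (1 : ℝ) / nm (s⁻¹ * γ) := by
      rw [Finset.mul_sum]
      refine Finset.sum_le_sum fun s _ => ?_
      have h0 : (0 : ℝ) < nm (s⁻¹ * γ) := by exact_mod_cast one_le_nm _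
      rw [mul_one_div, le_div_iff₀ h0]
      exact ih' _
    have h5 := sum_inv_le hL Z γ _ hV'
    calc reps Z (k + 1) γ * nm γ ≤ ((240 * T) ^ k * (Z : ℝ) ^ k *
          ∑ s ∈ (ball Z).filter (fun s => nm (s⁻¹ * γ) ≤ (2 * Z) ^ k), (1 : ℝ) / nm (s⁻¹ * γ)) * nm γ := by
          rw [e1, e2]; gcongr
      _ = ((240 * T) ^ k * (Z : ℝ) ^ k) *
          ((∑ s ∈ (ball Z).filter (fun s => nm (s⁻¹ * γ) ≤ (2 * Z) ^ k), (1 : ℝ) / nm (s⁻¹ * γ)) * nm γ) := by
          ring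
      _ ≤ ((240 * T) ^ k * (Z : ℝ) ^ k) * (240 * T * Z) := by
          have : 0 ≤ (240 * T) ^ k * (Z : ℝ) ^ k := by positivity
          gcongr
      _ = (240 * T) ^ (k + 1) * (Z : ℝ) ^ (k + 1) := by ring

end Pool.Agent.TII
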