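import Pool.Agent.TII.A3

/-!
# [TII-A5] elements of `Γ(Q)`, elements of the stabilisers
-/

set_option autoImplicit false

namespace Pool.Agent.TII

open Finset

/-- congruent to the identity modulo `Q` -/
def Cong (Q : ℕ) (g : SL) : Prop :=
  (Q : ℤ) ∣ g.1 0 0 - 1 ∧ (Q : ℤ) ∣ g.1 0 1 ∧ (Q : ℤ) ∣ g.1 1 0 ∧ (Q : ℤ) ∣ g.1 1 1 - 1

theorem card_le_mul_real {α β : Type*} [DecidableEq β] {s : Finset α} {t : Finset β} {f : α → β}
    (Hf : ∀ a ∈ s, f a ∈ t) (c : ℝ) (hn : ∀ b ∈ t, ((s.filter fun a => f a = b).card : ℝ) ≤ c) :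
    (s.card : ℝ) ≤ c * t.card := by
  rw [Finset.card_eq_sum_card_fiberwise Hf]
  push_cast
  calc ∑ b ∈ t, ((s.filter fun a => f a = b).card : ℝ) ≤ ∑ _b ∈ t, c := Finset.sum_le_sum hn
    _ = c * t.card := by rw [Finset.sum_const, nsmul_eq_mul, mul_comm]

/-- integers of a class modulo `Q` in an interval of length `R` -/
theorem card_class (s : Finset ℤ) (Q : ℕ) (hQ : 1 ≤ Q) (R : ℝ) (hR0 : 0 ≤ R)
    (hR : ∀ x ∈ s, ∀ y ∈ s, ((x - y : ℤ) : ℝ) ≤ R) (hc : ∀ x ∈ s, ∀ y ∈ s, (Q : ℤ) ∣ x - y) :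
    (s.card : ℝ) ≤ R / Q + 1 := by
  have hQ' : (0 : ℝ) < Q := by exact_mod_cast hQ
  have hQz : (Q : ℤ) ≠ 0 := by exact_mod_cast (by omega : Q ≠ 0)
  rcases s.eq_empty_or_nonempty with rfl | ⟨x0, h0⟩
  · simp only [Finset.card_empty, Nat.cast_zero]; positivity
  have hinj : Set.InjOn (fun x : ℤ => (x - x0) / Q) (s : Set ℤ) := by
    intro x hx y hy h
    have h1 := Int.ediv_mul_cancel (hc x hx x0 h0)
    have h2 := Int.ediv_mul_cancel (hc y hy x0 h0)
    simp only at h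
    rw [h, h2] at h1
    linarith
  rw [← Finset.card_image_of_injOn hinj]
  have h1 := card_le_of_diam (s.image fun x : ℤ => (x - x0) / Q) ⌊R / Q⌋₊ (by
    intro a ha b hb
    obtain ⟨x, hx, rfl⟩ := Finset.mem_image.1 ha
    obtain ⟨y, hy, rfl⟩ := Finset.mem_image.1 hb
    have h1 := Int.ediv_mul_cancel (hc x hx x0 h0)
    have h2 := Int.ediv_mul_cancel (hc y hy x0 h0)
    have h3 : ((x - x0) / (Q : ℤ) - (y - x0) / Q) * Q = x - y := by linarith
    have h4 : (((x - x0) / (Q : ℤ) - (y - x0) / Q : ℤ) : ℝ) ≤ R / Q := by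
      rw [le_div_iff₀ hQ']
      have := hR x hx y hy
      rw [← h3] at this
      push_cast at this ⊢
      exact this
    have h5 : ((x - x0) / (Q : ℤ) - (y - x0) / Q : ℤ) ≤ ⌊R / Q⌋ := Int.le_floor.2 h4
    have h6 : (⌊R / Q⌋ : ℤ) = (⌊R / Q⌋₊ : ℤ) := by
      rw [← Int.natCast_floor_eq_floor (by positivity)]
    rw [h6] at h5
    exact h5)
  have h2 : (⌊R / Q⌋₊ : ℝ) ≤ R / Q := Nat.floor_le (by positivity)
  have h3 : (((s.image fun x : ℤ => (x - x0) / Q).card : ℕ) : ℝ) ≤ (⌊R / Q⌋₊ : ℝ) + 1 := by exact_mod_cast h1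
  linarith

/-- the number of pairs of integers with given product `n ≠ 0` is at most `2 T` -/
theorem card_pairs {V : ℕ} {T : ℝ} (hL : Loss V T) (n : ℤ) (hn : n ≠ 0) (hV : n.natAbs ≤ V)
    (s : Finset (ℤ × ℤ)) (hs : ∀ p ∈ s, p.1 * p.2 = n) : (s.card : ℝ) ≤ 2 * T := by
  have hinj : Set.InjOn (Prod.fst : ℤ × ℤ → ℤ) (s : Set (ℤ × ℤ)) := by
    intro p hp q hq h
    have h1 := hs p hp
    have h2 := hs q hq
    have h3 : p.1 ≠ 0 := by rintro h0; rw [h0, zero_mul] at h1; exact hn h1.symm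
    refine Prod.ext h ?_
    rw [← h] at h2
    exact mul_left_cancel₀ h3 (h1.trans h2.symm)
  have hsub : s.image Prod.fst ⊆ (n.natAbs.divisors.image fun d : ℕ => (d : ℤ)) ∪
      (n.natAbs.divisors.image fun d : ℕ => -(d : ℤ)) := by
    intro a ha
    obtain ⟨p, hp, rfl⟩ := Finset.mem_image.1 ha
    have h1 := hs p hp
    have h2 : p.1.natAbs ∈ n.natAbs.divisors := by
      rw [Nat.mem_divisors]
      refine ⟨?_, by simpa using hn⟩
      rw [Int.natAbs_dvd_natAbs]
      exact ⟨p.2, h1.symm⟩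
    rw [Finset.mem_union, Finset.mem_image, Finset.mem_image]
    rcases Int.natAbs_eq p.1 with h | h
    · left; exact ⟨_, h2, h.symm⟩
    · right; exact ⟨_, h2, h.symm⟩
  have h1 : s.card ≤ 2 * n.natAbs.divisors.card := by
    rw [← Finset.card_image_of_injOn hinj]
    calc (s.image Prod.fst).card ≤ _ := Finset.card_le_card hsub
      _ ≤ (n.natAbs.divisors.image fun d : ℕ => (d : ℤ)).card +
          (n.natAbs.divisors.image fun d : ℕ => -(d : ℤ)).card := Finset.card_union_le _ _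
      _ ≤ n.natAbs.divisors.card + n.natAbs.divisors.card :=
          add_le_add Finset.card_image_le Finset.card_image_le
      _ = _ := by ring
  have h2 : (n.natAbs.divisors.card : ℝ) ≤ T :=
    hL.tau _ (Nat.one_le_iff_ne_zero.2 (by simpa using hn)) hV
  have h3 : (s.card : ℝ) ≤ 2 * (n.natAbs.divisors.card : ℝ) := by exact_mod_cast h1
  linarith

theorem det_eq (g : SL) : g.1 0 0 * g.1 1 1 - g.1 0 1 * g.1 1 0 = 1 := by
  have h := g.2
  rwa [Matrix.det_fin_two] at h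

theorem ext_SL {g h : SL} (h1 : g.1 0 0 = h.1 0 0) (h2 : g.1 0 1 = h.1 0 1) (h3 : g.1 1 0 = h.1 1 0)
    (h4 : g.1 1 1 = h.1 1 1) : g = h := by
  apply Matrix.SpecialLinearGroup.ext
  intro i j
  fin_cases i <;> fin_cases j <;> assumption

theorem entry_ball {y : ℕ} {g : SL} (hg : g ∈ ball y) (i j : Fin 2) : |g.1 i j| ≤ y := by
  rw [mem_ball] at hg
  have := entry_le g i j
  exact this.trans (by exact_mod_cast hg)

theorem diff_ball {y : ℕ} {g h : SL} (hg : g ∈ ball y) (hh : h ∈ ball y) (i j : Fin 2) :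
    ((g.1 i j - h.1 i j : ℤ) : ℝ) ≤ 2 * y := by
  have h1 := abs_le.1 (entry_ball hg i j)
  have h2 := abs_le.1 (entry_ball hh i j)
  have h3 : g.1 i j - h.1 i j ≤ 2 * y := by linarith
  exact_mod_cast h3

theorem natAbs_mul_le {y V : ℕ} (hV : y ^ 2 ≤ V) {a b : ℤ} (ha : |a| ≤ y) (hb : |b| ≤ y) :
    (a * b).natAbs ≤ V := by
  rw [Int.natAbs_mul]
  rw [Int.abs_eq_natAbs] at ha hb
  have ha' : a.natAbs ≤ y := by exact_mod_cast ha
  have hb' : b.natAbs ≤ y := by exact_mod_cast hb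
  calc a.natAbs * b.natAbs ≤ y * y := Nat.mul_le_mul ha' hb'
    _ = y ^ 2 := by ring
    _ ≤ V := hV

/-- the part with `b c = 0`, `b = 0` (`i = 0, j = 1`) or `c = 0` -/
theorem gamma_count0 (Q y : ℕ) (hQ : 1 ≤ Q) (s : Finset SL) (hs : ∀ g ∈ s, g ∈ ball y)
    (hs00 : ∀ g ∈ s, g.1 0 0 = 1 ∨ g.1 0 0 = -1)
    (i j : Fin 2) (hij : i ≠ j) (h0 : ∀ g ∈ s, g.1 i j = 0) (h1 : ∀ g ∈ s, (Q : ℤ) ∣ g.1 j i) :
    (s.card : ℝ) ≤ 2 * (2 * y / Q + 1) := by
  classical
  have hdet : ∀ g ∈ s, g.1 0 0 * g.1 1 1 = 1 := by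
    intro g hg
    have h := det_eq g
    have h2 : g.1 0 1 * g.1 1 0 = 0 := by
      have h3 := h0 g hg
      fin_cases i <;> fin_cases j
      · exact absurd rfl hij
      · simp only [Fin.zero_eta, Fin.mk_one, Fin.isValue] at h3; rw [h3, zero_mul]
      · simp only [Fin.zero_eta, Fin.mk_one, Fin.isValue] at h3; rw [h3, mul_zero]
      · exact absurd rfl hij
    linarith
  have hc : (s.card : ℝ) ≤ (2 * y / Q + 1) * (({1, -1} : Finset ℤ).card : ℝ) := by
    refine card_le_mul_real (f := fun g : SL => g.1 0 0) ?_ _ ?_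
    · intro g hg
      rcases hs00 g hg with h | h <;> simp [h]
    · intro a _
      rw [← Finset.card_image_of_injOn (f := fun g : SL => g.1 j i)]
      · refine card_class _ Q hQ _ (by positivity) ?_ ?_
        · intro x hx z hz
          obtain ⟨g, hg, rfl⟩ := Finset.mem_image.1 hx
          obtain ⟨g', hg', rfl⟩ := Finset.mem_image.1 hz
          exact diff_ball (hs g (Finset.mem_filter.1 hg).1) (hs g' (Finset.mem_filter.1 hg').1) j i
        · intro x hx z hz
          obtain ⟨g, hg, rfl⟩ := Finset.mem_image.1 hx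
          obtain ⟨g', hg', rfl⟩ := Finset.mem_image.1 hz
          exact dvd_sub (h1 g (Finset.mem_filter.1 hg).1) (h1 g' (Finset.mem_filter.1 hg').1)
      · intro g hg g' hg' h
        have hg := Finset.mem_filter.1 hg
        have hg' := Finset.mem_filter.1 hg'
        have e1 : g.1 0 0 = g'.1 0 0 := hg.2.trans hg'.2.symm
        have e2 := hdet g hg.1
        have e3 := hdet g' hg'.1
        have e4 : g.1 1 1 = g'.1 1 1 := by
          rw [← e1] at e3
          have hne : g.1 0 0 ≠ 0 := by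
            intro h00; rw [h00, zero_mul] at e2; norm_num at e2
          exact mul_left_cancel₀ hne (e2.trans e3.symm)
        have e5 := h0 g hg.1
        have e6 := h0 g' hg'.1
        simp only at h
        fin_cases i <;> fin_cases j
        · exact absurd rfl hij
        · simp only [Fin.zero_eta, Fin.mk_one, Fin.isValue] at h e5 e6
          exact ext_SL e1 (e5.trans e6.symm) h e4
        · simp only [Fin.zero_eta, Fin.mk_one, Fin.isValue] at h e5 e6
          exact ext_SL e1 h (e5.trans e6.symm) e4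
        · exact absurd rfl hij
  have h2 : (({1, -1} : Finset ℤ).card : ℝ) = 2 := by norm_num
  rw [h2] at hc
  linarith

open Classical in
/-- [A5a] Proof. `g = 1 + Q (a', b'; c', d')`. The entry `a` lies in a class modulo `Q`, for fixed `a` the entry `d` lies in a class modulo `Q²` (`a d ≡ 1`),
then `b c = a d - 1` is known: at most `2 T` pairs if it is not `0`; if it is `0` then `a, d = ± 1`, and `b = 0` or `c = 0`. -/
theorem gamma_count {V : ℕ} {T : ℝ} (hL : Loss V T) (Q y : ℕ) (hQ : 2 ≤ Q) (hy : 1 ≤ y) (hV : 4 * y ^ 2 ≤ V) :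
    (((ball y).filter fun g => Cong Q g).card : ℝ) ≤ 40 * T * (1 + y / Q + y ^ 2 / Q ^ 3) := by
  have hT := hL.two
  have hQ' : (2 : ℝ) ≤ Q := by exact_mod_cast hQ
  have hQ0 : (0 : ℝ) < Q := by linarith
  have hy' : (1 : ℝ) ≤ y := by exact_mod_cast hy
  set F := (ball y).filter (fun g => Cong Q g) with hF
  set F1 := F.filter (fun g => g.1 0 1 * g.1 1 0 ≠ 0) with hF1
  set Fb := F.filter (fun g => g.1 0 1 = 0) with hFb
  set Fc := F.filter (fun g => g.1 1 0 = 0) with hFc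
  have hsub : F ⊆ F1 ∪ (Fb ∪ Fc) := by
    intro g hg
    rw [Finset.mem_union, Finset.mem_union]
    by_cases h : g.1 0 1 * g.1 1 0 = 0
    · rcases mul_eq_zero.1 h with h1 | h1
      · right; left; exact Finset.mem_filter.2 ⟨hg, h1⟩
      · right; right; exact Finset.mem_filter.2 ⟨hg, h1⟩
    · left; exact Finset.mem_filter.2 ⟨hg, h⟩
  have hball : ∀ g ∈ F, g ∈ ball y := fun g hg => (Finset.mem_filter.1 hg).1
  have hcong : ∀ g ∈ F, Cong Q g := fun g hg => (Finset.mem_filter.1 hg).2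
  have h00 : ∀ g : SL, g.1 0 1 * g.1 1 0 = 0 → g.1 0 0 = 1 ∨ g.1 0 0 = -1 := by
    intro g h
    have h1 := det_eq g
    rw [h, sub_zero] at h1
    exact Int.eq_one_or_neg_one_of_mul_eq_one h1
  have hcb : (Fb.card : ℝ) ≤ 2 * (2 * y / Q + 1) := by
    refine gamma_count0 Q y (by omega) Fb (fun g hg => hball g (Finset.mem_filter.1 hg).1) ?_ 0 1 (by decide) ?_ ?_
    · intro g hg
      exact h00 g (by rw [(Finset.mem_filter.1 hg).2, zero_mul])
    · intro g hg; exact (Finset.mem_filter.1 hg).2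
    · intro g hg; exact (hcong g (Finset.mem_filter.1 hg).1).2.2.1
  have hcc : (Fc.card : ℝ) ≤ 2 * (2 * y / Q + 1) := by
    refine gamma_count0 Q y (by omega) Fc (fun g hg => hball g (Finset.mem_filter.1 hg).1) ?_ 1 0 (by decide) ?_ ?_
    · intro g hg
      exact h00 g (by rw [(Finset.mem_filter.1 hg).2, mul_zero])
    · intro g hg; exact (Finset.mem_filter.1 hg).2
    · intro g hg; exact (hcong g (Finset.mem_filter.1 hg).1).2.1
  have hc1 : (F1.card : ℝ) ≤ (2 * T * (2 * y / (Q ^ 2 : ℕ) + 1)) * (2 * y / Q + 1) := by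
    have hb1 : ∀ g ∈ F1, g ∈ ball y := fun g hg => hball g (Finset.mem_filter.1 hg).1
    have hk1 : ∀ g ∈ F1, Cong Q g := fun g hg => hcong g (Finset.mem_filter.1 hg).1
    have step1 : (F1.card : ℝ) ≤ (2 * T * (2 * y / (Q ^ 2 : ℕ) + 1)) * ((F1.image fun g : SL => g.1 0 0).card : ℝ) := by
      refine card_le_mul_real (f := fun g : SL => g.1 0 0) (fun g hg => Finset.mem_image_of_mem _ hg) _ ?_
      intro a _
      set G := F1.filter (fun g : SL => g.1 0 0 = a) with hG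
      have hG1 : ∀ g ∈ G, g ∈ F1 ∧ g.1 0 0 = a := fun g hg => Finset.mem_filter.1 hg
      have step2 : (G.card : ℝ) ≤ (2 * T) * ((G.image fun g : SL => g.1 1 1).card : ℝ) := by
        refine card_le_mul_real (f := fun g : SL => g.1 1 1) (fun g hg => Finset.mem_image_of_mem _ hg) _ ?_
        intro d hd
        obtain ⟨g0, hg0, hd0⟩ := Finset.mem_image.1 hd
        set K := G.filter (fun g : SL => g.1 1 1 = d) with hK
        have hK1 : ∀ g ∈ K, g ∈ G ∧ g.1 1 1 = d := fun g hg => Finset.mem_filter.1 hg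
        rw [← Finset.card_image_of_injOn (s := K) (f := fun g : SL => (g.1 0 1, g.1 1 0))]
        · refine card_pairs hL (a * d - 1) ?_ ?_ _ ?_
          · have h1 := det_eq g0
            have h2 := (Finset.mem_filter.1 (hG1 g0 hg0).1).2
            rw [(hG1 g0 hg0).2, hd0] at h1
            intro h3
            apply h2
            linarith
          · have h1 := det_eq g0
            rw [(hG1 g0 hg0).2, hd0] at h1
            have h2 : a * d - 1 = g0.1 0 1 * g0.1 1 0 := by linarith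
            rw [h2]
            exact natAbs_mul_le (by omega) (entry_ball (hb1 _ (hG1 g0 hg0).1) 0 1)
              (entry_ball (hb1 _ (hG1 g0 hg0).1) 1 0)
          · intro p hp
            obtain ⟨g, hg, rfl⟩ := Finset.mem_image.1 hp
            have h1 := det_eq g
            rw [(hG1 g (hK1 g hg).1).2, (hK1 g hg).2] at h1
            simp only
            linarith
        · intro g hg g' hg' h
          simp only [Prod.mk.injEq] at h
          have e1 := (hG1 g (hK1 g hg).1).2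
          have e2 := (hG1 g' (hK1 g' hg').1).2
          have e3 := (hK1 g hg).2
          have e4 := (hK1 g' hg').2
          exact ext_SL (e1.trans e2.symm) h.1 h.2 (e3.trans e4.symm)
      have step3 : ((G.image fun g : SL => g.1 1 1).card : ℝ) ≤ 2 * y / (Q ^ 2 : ℕ) + 1 := by
        refine card_class _ (Q ^ 2) (Nat.one_le_pow _ _ (by omega)) _ (by positivity) ?_ ?_
        · intro x hx z hz
          obtain ⟨g, hg, rfl⟩ := Finset.mem_image.1 hx
          obtain ⟨g', hg', rfl⟩ := Finset.mem_image.1 hz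
          exact diff_ball (hb1 g (hG1 g hg).1) (hb1 g' (hG1 g' hg').1) 1 1
        · intro x hx z hz
          obtain ⟨g, hg, rfl⟩ := Finset.mem_image.1 hx
          obtain ⟨g', hg', rfl⟩ := Finset.mem_image.1 hz
          have h1 := det_eq g
          have h2 := det_eq g'
          have c1 := hk1 g (hG1 g hg).1
          have c2 := hk1 g' (hG1 g' hg').1
          rw [(hG1 g hg).2] at h1
          rw [(hG1 g' hg').2] at h2
          have d1 : ((Q : ℤ)) ^ 2 ∣ g.1 0 1 * g.1 1 0 := by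
            rw [sq]; exact mul_dvd_mul c1.2.1 c1.2.2.1
          have d2 : ((Q : ℤ)) ^ 2 ∣ g'.1 0 1 * g'.1 1 0 := by
            rw [sq]; exact mul_dvd_mul c2.2.1 c2.2.2.1
          have h3 : a * (g.1 1 1 - g'.1 1 1) = g.1 0 1 * g.1 1 0 - g'.1 0 1 * g'.1 1 0 := by linarith
          have h4 : ((Q : ℤ)) ^ 2 ∣ a * (g.1 1 1 - g'.1 1 1) := by rw [h3]; exact dvd_sub d1 d2
          have h5 : IsCoprime ((Q : ℤ) ^ 2) a := by
            apply IsCoprime.pow_left
            obtain ⟨k, hk⟩ := c1.1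
            rw [(hG1 g hg).2] at hk
            exact ⟨-k, 1, by linarith⟩
          push_cast
          exact h5.dvd_of_dvd_mul_left h4
      calc (G.card : ℝ) ≤ (2 * T) * ((G.image fun g : SL => g.1 1 1).card : ℝ) := step2
        _ ≤ (2 * T) * (2 * y / (Q ^ 2 : ℕ) + 1) := by gcongr
    have step4 : ((F1.image fun g : SL => g.1 0 0).card : ℝ) ≤ 2 * y / Q + 1 := by
      refine card_class _ Q (by omega) _ (by positivity) ?_ ?_
      · intro x hx z hz
        obtain ⟨g, hg, rfl⟩ := Finset.mem_image.1 hx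
        obtain ⟨g', hg', rfl⟩ := Finset.mem_image.1 hz
        exact diff_ball (hb1 g hg) (hb1 g' hg') 0 0
      · intro x hx z hz
        obtain ⟨g, hg, rfl⟩ := Finset.mem_image.1 hx
        obtain ⟨g', hg', rfl⟩ := Finset.mem_image.1 hz
        have := dvd_sub (hk1 g hg).1 (hk1 g' hg').1
        have e : g.1 0 0 - 1 - (g'.1 0 0 - 1) = g.1 0 0 - g'.1 0 0 := by ring
        rwa [e] at this
    refine step1.trans ?_
    have : 0 ≤ 2 * T * (2 * y / (Q ^ 2 : ℕ) + 1) := by positivity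
    gcongr
  have hF' : (F.card : ℝ) ≤ F1.card + (Fb.card + Fc.card) := by
    have h1 : F.card ≤ F1.card + (Fb.card + Fc.card) :=
      (Finset.card_le_card hsub).trans ((Finset.card_union_le _ _).trans
        (Nat.add_le_add_left (Finset.card_union_le _ _) _))
    exact_mod_cast h1
  set u := (y : ℝ) / Q with hu
  have hu0 : 0 ≤ u := by positivity
  have e1 : (2 * y / (Q ^ 2 : ℕ) : ℝ) ≤ u := by
    rw [hu]
    push_cast
    rw [div_le_div_iff₀ (by positivity) hQ0]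
    have : (0:ℝ) ≤ y * Q := by positivity
    nlinarith
  have e2 : (2 * y / Q : ℝ) = 2 * u := by rw [hu]; ring
  have e3 : (2 * y / (Q ^ 2 : ℕ) : ℝ) * (2 * y / Q) = 4 * ((y : ℝ) ^ 2 / Q ^ 3) := by
    push_cast; field_simp; ring
  rw [e2] at hcb hcc hc1
  rw [e2] at e3
  set w := (y : ℝ) ^ 2 / Q ^ 3 with hw
  have hw0 : 0 ≤ w := by positivity
  set v := (2 * y / (Q ^ 2 : ℕ) : ℝ) with hv
  have hv0 : 0 ≤ v := by positivity
  have h1 : (F1.card : ℝ) ≤ 2 * T * (4 * w + v + 2 * u + 1) := by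
    refine hc1.trans (le_of_eq ?_)
    rw [← e3]; ring
  have h2 : 2 * T * (4 * w + v + 2 * u + 1) ≤ 2 * T * (4 * w + 3 * u + 1) := by
    have : 0 ≤ 2 * T := by linarith
    exact mul_le_mul_of_nonneg_left (by linarith) this
  have h3 : 8 * u + 4 ≤ T * (8 * u + 4) := by nlinarith
  have h4 : 0 ≤ T * u := by positivity
  have h5 : 0 ≤ T * w := by positivity
  nlinarith

/-- [A5b] Proof. `(b, c)`: at most `(2 y/q2 + 1)(2 y/q1 + 1)` pairs; `a d = 1 + b c ≠ 0` (else `b = ± 1`, but `q2 ∣ b`), at most `2 T` pairs `(a, d)`. -/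
theorem stab_count {V : ℕ} {T : ℝ} (hL : Loss V T) (q1 q2 y : ℕ) (h1 : 2 ≤ q1) (h2 : 2 ≤ q2) (hy : 1 ≤ y)
    (hV : 4 * y ^ 2 ≤ V) :
    (((ball y).filter fun g => (q1 : ℤ) ∣ g.1 1 0 ∧ (q2 : ℤ) ∣ g.1 0 1).card : ℝ) ≤
      8 * T * ((1 + y / q1) * (1 + y / q2)) := by
  classical
  have hT := hL.two
  have h1' : (0 : ℝ) < q1 := by exact_mod_cast (by omega : 0 < q1)
  have h2' : (0 : ℝ) < q2 := by exact_mod_cast (by omega : 0 < q2)
  set F := (ball y).filter (fun g => (q1 : ℤ) ∣ g.1 1 0 ∧ (q2 : ℤ) ∣ g.1 0 1) with hF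
  have hb : ∀ g ∈ F, g ∈ ball y := fun g hg => (Finset.mem_filter.1 hg).1
  have step1 : (F.card : ℝ) ≤ (2 * T * (2 * y / q2 + 1)) * ((F.image fun g : SL => g.1 1 0).card : ℝ) := by
    refine card_le_mul_real (f := fun g : SL => g.1 1 0) (fun g hg => Finset.mem_image_of_mem _ hg) _ ?_
    intro c _
    set G := F.filter (fun g : SL => g.1 1 0 = c) with hG
    have hG1 : ∀ g ∈ G, g ∈ F ∧ g.1 1 0 = c := fun g hg => Finset.mem_filter.1 hg
    have step2 : (G.card : ℝ) ≤ (2 * T) * ((G.image fun g : SL => g.1 0 1).card : ℝ) := by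
      refine card_le_mul_real (f := fun g : SL => g.1 0 1) (fun g hg => Finset.mem_image_of_mem _ hg) _ ?_
      intro b hb'
      obtain ⟨g0, hg0, hb0⟩ := Finset.mem_image.1 hb'
      set K := G.filter (fun g : SL => g.1 0 1 = b) with hK
      have hK1 : ∀ g ∈ K, g ∈ G ∧ g.1 0 1 = b := fun g hg => Finset.mem_filter.1 hg
      rw [← Finset.card_image_of_injOn (s := K) (f := fun g : SL => (g.1 0 0, g.1 1 1))]
      · refine card_pairs hL (1 + b * c) ?_ ?_ _ ?_
        · intro h3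
          have h4 : b * (-c) = 1 := by linarith
          have h5 := Int.isUnit_iff.1 (IsUnit.of_mul_eq_one _ h4)
          have h6 : (q2 : ℤ) ∣ b := by
            rw [← hb0]; exact (Finset.mem_filter.1 (hG1 g0 hg0).1).2.2
          have h7 : (q2 : ℤ) ∣ 1 := by
            rcases h5 with h5 | h5
            · rwa [h5] at h6
            · rw [h5] at h6; exact (dvd_neg.1 h6)
          have h8 := Int.le_of_dvd one_pos h7
          have : (2 : ℤ) ≤ q2 := by exact_mod_cast h2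
          linarith
        · have h3 := det_eq g0
          rw [(hG1 g0 hg0).2, hb0] at h3
          have h4 : 1 + b * c = g0.1 0 0 * g0.1 1 1 := by linarith
          rw [h4]
          exact natAbs_mul_le (by omega) (entry_ball (hb _ (hG1 g0 hg0).1) 0 0)
            (entry_ball (hb _ (hG1 g0 hg0).1) 1 1)
        · intro p hp
          obtain ⟨g, hg, rfl⟩ := Finset.mem_image.1 hp
          have h3 := det_eq g
          rw [(hG1 g (hK1 g hg).1).2, (hK1 g hg).2] at h3
          simp only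
          linarith
      · intro g hg g' hg' h
        simp only [Prod.mk.injEq] at h
        have e1 := (hG1 g (hK1 g hg).1).2
        have e2 := (hG1 g' (hK1 g' hg').1).2
        have e3 := (hK1 g hg).2
        have e4 := (hK1 g' hg').2
        exact ext_SL h.1 (e3.trans e4.symm) (e1.trans e2.symm) h.2
    have step3 : ((G.image fun g : SL => g.1 0 1).card : ℝ) ≤ 2 * y / q2 + 1 := by
      refine card_class _ q2 (by omega) _ (by positivity) ?_ ?_
      · intro x hx z hz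
        obtain ⟨g, hg, rfl⟩ := Finset.mem_image.1 hx
        obtain ⟨g', hg', rfl⟩ := Finset.mem_image.1 hz
        exact diff_ball (hb g (hG1 g hg).1) (hb g' (hG1 g' hg').1) 0 1
      · intro x hx z hz
        obtain ⟨g, hg, rfl⟩ := Finset.mem_image.1 hx
        obtain ⟨g', hg', rfl⟩ := Finset.mem_image.1 hz
        exact dvd_sub (Finset.mem_filter.1 (hG1 g hg).1).2.2 (Finset.mem_filter.1 (hG1 g' hg').1).2.2
    calc (G.card : ℝ) ≤ (2 * T) * ((G.image fun g : SL => g.1 0 1).card : ℝ) := step2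
      _ ≤ (2 * T) * (2 * y / q2 + 1) := by gcongr
  have step4 : ((F.image fun g : SL => g.1 1 0).card : ℝ) ≤ 2 * y / q1 + 1 := by
    refine card_class _ q1 (by omega) _ (by positivity) ?_ ?_
    · intro x hx z hz
      obtain ⟨g, hg, rfl⟩ := Finset.mem_image.1 hx
      obtain ⟨g', hg', rfl⟩ := Finset.mem_image.1 hz
      exact diff_ball (hb g hg) (hb g' hg') 1 0
    · intro x hx z hz
      obtain ⟨g, hg, rfl⟩ := Finset.mem_image.1 hx
      obtain ⟨g', hg', rfl⟩ := Finset.mem_image.1 hz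
      exact dvd_sub (Finset.mem_filter.1 hg).2.1 (Finset.mem_filter.1 hg').2.1
  have e1 : (2 * y / q1 + 1 : ℝ) ≤ 2 * (1 + y / q1) := by
    have : (2 * y / q1 : ℝ) = 2 * (y / q1) := by ring
    rw [this]; linarith
  have e2 : (2 * y / q2 + 1 : ℝ) ≤ 2 * (1 + y / q2) := by
    have : (2 * y / q2 : ℝ) = 2 * (y / q2) := by ring
    rw [this]; linarith
  have p1 : (0 : ℝ) ≤ y / q1 := by positivity
  have p2 : (0 : ℝ) ≤ y / q2 := by positivity
  calc (F.card : ℝ) ≤ (2 * T * (2 * y / q2 + 1)) * ((F.image fun g : SL => g.1 1 0).card : ℝ) := step1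
    _ ≤ (2 * T * (2 * y / q2 + 1)) * (2 * y / q1 + 1) := by
        have : 0 ≤ 2 * T * (2 * y / q2 + 1) := by positivity
        gcongr
    _ ≤ (2 * T * (2 * (1 + y / q2))) * (2 * (1 + y / q1)) := by gcongr
    _ = 8 * T * ((1 + y / q1) * (1 + y / q2)) := by ring

open Classical in
/-- [A5c] the number of `(s₁, …, s_{2k}) ∈ (ball Z)^{2k}` with product congruent to `1` modulo `Q`. Proof. `reps_le`, `dyadic`, `gamma_count` (for `2^(j+1) < Q - 1`
only the identity is counted: then `1 + y/Q + y²/Q³ ≤ 2` is fine): `∑ reps ≤ (240 T)^{2k} Z^{2k} ∑_j 2^(-j) 40 T (1 + 2^(j+1)/Q + 4^(j+1)/Q³)`, `2^j ≤ (2Z)^{2k}`. -/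
theorem walk_count (k : ℕ) (hk : 1 ≤ k) {V : ℕ} {T : ℝ} (hL : Loss V T) (Q Z : ℕ) (hQ : 2 ≤ Q) (hZ : 1 ≤ Z)
    (hV : 16 * (2 * Z) ^ (4 * k) ≤ V) :
    ∑ γ ∈ (ball ((2 * Z) ^ (2 * k))).filter (fun g => Cong Q g), reps Z (2 * k) γ ≤
      (240 * T) ^ (2 * k) * 4 ^ (2 * k) * (1000 * T ^ 2) * ((Z : ℝ) ^ (2 * k) * (1 + (Z : ℝ) ^ (2 * k) / Q ^ 3)) := by
  have hT := hL.two
  have hQ' : (2 : ℝ) ≤ Q := by exact_mod_cast hQ
  have hQ0 : (0 : ℝ) < Q := by linarith
  set P := (2 * Z) ^ (2 * k) with hP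
  have hP1 : 1 ≤ P := Nat.one_le_pow _ _ (by omega)
  have hPsq : P ^ 2 = (2 * Z) ^ (4 * k) := by rw [hP, ← pow_mul]; congr 1; ring
  have hV1 : 16 * P ^ 2 ≤ V := by rw [hPsq]; exact hV
  have hPV : P ≤ V := by nlinarith
  set s := (ball P).filter (fun g => Cong Q g) with hs
  have h1 : ∑ γ ∈ s, reps Z (2 * k) γ ≤ ((240 * T) ^ (2 * k) * (Z : ℝ) ^ (2 * k)) * ∑ γ ∈ s, (1 : ℝ) / nm γ := by
    rw [Finset.mul_sum]
    refine Finset.sum_le_sum fun γ _ => ?_
    have h0 : (0 : ℝ) < nm γ := by exact_mod_cast one_le_nm γ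
    rw [mul_one_div, le_div_iff₀ h0]
    exact reps_le hL Z hZ (2 * k) (by omega) hPV γ
  have h2 := dyadic s nm P (fun γ hγ => ⟨one_le_nm γ, mem_ball.1 (Finset.mem_filter.1 hγ).1⟩)
    (fun _ => (1 : ℝ)) (fun _ _ => zero_le_one)
  have h3 : ∀ j ∈ range (Nat.log 2 P + 1), (1 / (2 : ℝ) ^ j) * ∑ γ ∈ s.filter (fun γ => nm γ < 2 ^ (j + 1)), (1 : ℝ) ≤
      160 * T * (1 + (P : ℝ) / Q ^ 3) := by
    intro j hj
    rw [Finset.mem_range] at hj
    have hjP : 2 ^ j ≤ P := by
      calc 2 ^ j ≤ 2 ^ (Nat.log 2 P) := Nat.pow_le_pow_right (by norm_num) (by omega)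
        _ ≤ P := Nat.pow_log_le_self 2 (by omega)
    have hjP' : (2 : ℝ) ^ j ≤ P := by exact_mod_cast hjP
    have h4 := gamma_count hL Q (2 ^ (j + 1)) hQ Nat.one_le_two_pow (by
      calc 4 * (2 ^ (j + 1)) ^ 2 = 16 * (2 ^ j) ^ 2 := by ring
        _ ≤ 16 * P ^ 2 := by gcongr
        _ ≤ V := hV1)
    have hsub : s.filter (fun γ => nm γ < 2 ^ (j + 1)) ⊆ (ball (2 ^ (j + 1))).filter (fun g => Cong Q g) := by
      intro γ hγ
      rw [Finset.mem_filter] at hγ ⊢
      exact ⟨mem_ball.2 hγ.2.le, (Finset.mem_filter.1 hγ.1).2⟩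
    have h5 : ((s.filter (fun γ => nm γ < 2 ^ (j + 1))).card : ℝ) ≤
        (((ball (2 ^ (j + 1))).filter (fun g => Cong Q g)).card : ℝ) := by
      exact_mod_cast Finset.card_le_card hsub
    rw [Finset.sum_const, nsmul_eq_mul, mul_one]
    push_cast at h4
    have hp : (0 : ℝ) < 2 ^ j := by positivity
    calc 1 / (2 : ℝ) ^ j * ((s.filter (fun γ => nm γ < 2 ^ (j + 1))).card : ℝ)
        ≤ 1 / (2 : ℝ) ^ j * (40 * T * (1 + (2 : ℝ) ^ (j + 1) / Q + ((2 : ℝ) ^ (j + 1)) ^ 2 / Q ^ 3)) := by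
          gcongr
          exact h5.trans h4
      _ = 40 * T * (1 / (2 : ℝ) ^ j + 2 / Q + 4 * ((2 : ℝ) ^ j / Q ^ 3)) := by field_simp; ring
      _ ≤ 40 * T * (1 + 1 + 4 * ((P : ℝ) / Q ^ 3)) := by
          have a1 : 1 / (2 : ℝ) ^ j ≤ 1 := by
            rw [div_le_one hp]; exact one_le_pow₀ (by norm_num)
          have a2 : 2 / (Q : ℝ) ≤ 1 := by rw [div_le_one hQ0]; exact hQ'
          gcongr
      _ ≤ 160 * T * (1 + (P : ℝ) / Q ^ 3) := by
          have a3 : (0 : ℝ) ≤ T * ((P : ℝ) / Q ^ 3) := by positivity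
          nlinarith
  have h6 := h2.trans (Finset.sum_le_sum h3)
  rw [Finset.sum_const, nsmul_eq_mul, Finset.card_range] at h6
  have hlog : ((Nat.log 2 P + 1 : ℕ) : ℝ) ≤ T := by
    have h7 := hL.log
    have h8 : Nat.log 2 P ≤ Nat.log 2 V := Nat.log_mono_right hPV
    have h9 : (Nat.log 2 P : ℝ) ≤ Nat.log 2 V := by exact_mod_cast h8
    push_cast; linarith
  have hP4 : (P : ℝ) = 4 ^ k * (Z : ℝ) ^ (2 * k) := by
    rw [hP]; push_cast; rw [mul_pow, pow_mul]; norm_num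
  have h4k : (4 : ℝ) ^ k ≤ 4 ^ (2 * k) := pow_le_pow_right₀ (by norm_num) (by omega)
  have h4k1 : (1 : ℝ) ≤ 4 ^ (2 * k) := one_le_pow₀ (by norm_num)
  calc ∑ γ ∈ s, reps Z (2 * k) γ ≤ ((240 * T) ^ (2 * k) * (Z : ℝ) ^ (2 * k)) * ∑ γ ∈ s, (1 : ℝ) / nm γ := h1
    _ ≤ ((240 * T) ^ (2 * k) * (Z : ℝ) ^ (2 * k)) * (((Nat.log 2 P + 1 : ℕ) : ℝ) * (160 * T * (1 + (P : ℝ) / Q ^ 3))) := by
        gcongr
    _ ≤ ((240 * T) ^ (2 * k) * (Z : ℝ) ^ (2 * k)) * (T * (160 * T * (1 + (P : ℝ) / Q ^ 3))) := by gcongr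
    _ ≤ ((240 * T) ^ (2 * k) * (Z : ℝ) ^ (2 * k)) * (T * (1000 * T * (4 ^ (2 * k) * (1 + (Z : ℝ) ^ (2 * k) / Q ^ 3)))) := by
        have a1 : (1 + (P : ℝ) / Q ^ 3) ≤ 4 ^ (2 * k) * (1 + (Z : ℝ) ^ (2 * k) / Q ^ 3) := by
          rw [hP4, mul_add, mul_one, mul_div_assoc]
          gcongr
        have a2 : 160 * T * (1 + (P : ℝ) / Q ^ 3) ≤ 1000 * T * (4 ^ (2 * k) * (1 + (Z : ℝ) ^ (2 * k) / Q ^ 3)) := by
          have : 0 ≤ (1 + (P : ℝ) / Q ^ 3) := by positivity
          have : 160 * T ≤ 1000 * T := by linarith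
          gcongr
        gcongr
    _ = _ := by ring

end Pool.Agent.TII
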