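import Pool.Agent.TII.A0

/-!
# [TII-C1] words in the two unipotent matrices
-/

set_option autoImplicit false

namespace Pool.Agent.TII

open Finset

/-- the product of a word in the two unipotent matrices (`true` is `U = [[1,1],[0,1]]`, `false` is `L = [[1,0],[1,1]]`) -/
def word : List Bool → SL
  | [] => 1
  | (b :: w) => (if b then Um 1 else Lm 1) * word w

/-- the cut between `u` and `v` is a boundary: one of them is empty or the neighbouring letters differ -/
def Bd (u v : List Bool) : Prop := ∀ x y, u.getLast? = some x → v.head? = some y → x ≠ y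

private theorem C1_mul (g h : SL) (i j : Fin 2) :
    (g * h).1 i j = g.1 i 0 * h.1 0 j + g.1 i 1 * h.1 1 j := by
  rw [Matrix.SpecialLinearGroup.coe_mul, Matrix.mul_apply, Fin.sum_univ_two]

private theorem C1_det (g : SL) : g.1 0 0 * g.1 1 1 - g.1 0 1 * g.1 1 0 = 1 := by
  have := g.2
  rw [Matrix.det_fin_two] at this
  exact this

private theorem C1_Um (a b : ℤ) : Um a * Um b = Um (a + b) := by
  apply Subtype.ext
  ext i j
  rw [C1_mul]
  fin_cases i <;> fin_cases j <;> simp [Um, add_comm]

private theorem C1_Lm (a b : ℤ) : Lm a * Lm b = Lm (a + b) := by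
  apply Subtype.ext
  ext i j
  rw [C1_mul]
  fin_cases i <;> fin_cases j <;> simp [Lm, add_comm]

theorem word_append (u v : List Bool) : word (u ++ v) = word u * word v := by
  induction u with
  | nil => simp [word]
  | cons b u ih => simp only [List.cons_append, word, ih, mul_assoc]

/-- `Nonneg` is stable under products (entries of a product are sums of products) -/
theorem Nonneg.mul {g h : SL} (hg : Nonneg g) (hh : Nonneg h) : Nonneg (g * h) := by
  intro i j
  rw [C1_mul]
  exact add_nonneg (mul_nonneg (hg _ _) (hh _ _)) (mul_nonneg (hg _ _) (hh _ _))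

theorem nonneg_one : Nonneg 1 := by
  intro i j
  fin_cases i <;> fin_cases j <;> simp

theorem nonneg_Um {a : ℤ} (ha : 0 ≤ a) : Nonneg (Um a) := by
  intro i j
  fin_cases i <;> fin_cases j <;> simp [Um, ha]

theorem nonneg_Lm {a : ℤ} (ha : 0 ≤ a) : Nonneg (Lm a) := by
  intro i j
  fin_cases i <;> fin_cases j <;> simp [Lm, ha]

theorem nonneg_word (w : List Bool) : Nonneg (word w) := by
  induction w with
  | nil => exact nonneg_one
  | cons b w ih =>
    rw [word]
    refine Nonneg.mul ?_ ih
    cases b
    · exact nonneg_Lm (by norm_num)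
    · exact nonneg_Um (by norm_num)

theorem word_replicate_true (a : ℕ) : word (List.replicate a true) = Um a := by
  induction a with
  | zero =>
    apply Subtype.ext
    ext i j
    fin_cases i <;> fin_cases j <;> simp [word, Um]
  | succ a ih =>
    rw [List.replicate_succ, word, ih, if_pos rfl, C1_Um]
    congr 1
    push_cast
    ring

theorem word_replicate_false (a : ℕ) : word (List.replicate a false) = Lm a := by
  induction a with
  | zero =>
    apply Subtype.ext
    ext i j
    fin_cases i <;> fin_cases j <;> simp [word, Lm]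
  | succ a ih =>
    rw [List.replicate_succ, word, ih, if_neg (by decide), C1_Lm]
    congr 1
    push_cast
    ring

/-- `S 1 = 2` -/
theorem S_one : S 1 = 2 := by
  simp [S]

/-- `S (g h) = C₁ R₁ + C₂ R₂` with the column sums of `g` and the row sums of `h` -/
theorem S_mul (g h : SL) : S (g * h) =
    (g.1 0 0 + g.1 1 0) * (h.1 0 0 + h.1 0 1) + (g.1 0 1 + g.1 1 1) * (h.1 1 0 + h.1 1 1) := by
  simp only [S, C1_mul]
  ring

theorem S_mul_le {g h : SL} (hg : Nonneg g) (hh : Nonneg h) : S (g * h) ≤ S g * S h := by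
  rw [S_mul]
  have h1 := hg 0 0
  have h2 := hg 0 1
  have h3 := hg 1 0
  have h4 := hg 1 1
  have k1 := hh 0 0
  have k2 := hh 0 1
  have k3 := hh 1 0
  have k4 := hh 1 1
  simp only [S]
  nlinarith [mul_nonneg (add_nonneg h1 h3) (add_nonneg k3 k4),
    mul_nonneg (add_nonneg h2 h4) (add_nonneg k1 k2)]

/-- the row sums and the column sums are at least `1` (determinant) -/
theorem one_le_row {g : SL} (hg : Nonneg g) : 1 ≤ g.1 0 0 + g.1 0 1 ∧ 1 ≤ g.1 1 0 + g.1 1 1 ∧
    1 ≤ g.1 0 0 + g.1 1 0 ∧ 1 ≤ g.1 0 1 + g.1 1 1 := by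
  have h1 := hg 0 0
  have h2 := hg 0 1
  have h3 := hg 1 0
  have h4 := hg 1 1
  have hd := C1_det g
  refine ⟨?_, ?_, ?_, ?_⟩
  · by_contra hc
    have e1 : g.1 0 0 = 0 := by omega
    have e2 : g.1 0 1 = 0 := by omega
    rw [e1, e2] at hd
    omega
  · by_contra hc
    have e1 : g.1 1 0 = 0 := by omega
    have e2 : g.1 1 1 = 0 := by omega
    rw [e1, e2] at hd
    omega
  · by_contra hc
    have e1 : g.1 0 0 = 0 := by omega
    have e2 : g.1 1 0 = 0 := by omega
    rw [e1, e2] at hd
    omega
  · by_contra hc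
    have e1 : g.1 0 1 = 0 := by omega
    have e2 : g.1 1 1 = 0 := by omega
    rw [e1, e2] at hd
    omega

theorem two_le_S {g : SL} (hg : Nonneg g) : 2 ≤ S g := by
  obtain ⟨h1, h2, -, -⟩ := one_le_row hg
  simp only [S]
  omega

end Pool.Agent.TII
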