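import Pool.Agent.TII.C1

/-!
# [TII-C2] every nonnegative element of `SL₂(ℤ)` is a word
-/

set_option autoImplicit false

namespace Pool.Agent.TII

open Finset

theorem C2_Um (x : ℤ) (g : SL) : (Um x * g).1 0 0 = g.1 0 0 + x * g.1 1 0 ∧ (Um x * g).1 0 1 = g.1 0 1 + x * g.1 1 1 ∧
    (Um x * g).1 1 0 = g.1 1 0 ∧ (Um x * g).1 1 1 = g.1 1 1 := by
  rw [Matrix.SpecialLinearGroup.coe_mul]
  simp only [Um, Matrix.mul_apply, Fin.sum_univ_two, Matrix.of_apply, Matrix.cons_val', Matrix.cons_val_zero,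
    Matrix.cons_val_one, Matrix.empty_val', Matrix.cons_val_fin_one]
  refine ⟨by ring, by ring, by ring, by ring⟩

theorem C2_Lm (x : ℤ) (g : SL) : (Lm x * g).1 0 0 = g.1 0 0 ∧ (Lm x * g).1 0 1 = g.1 0 1 ∧
    (Lm x * g).1 1 0 = x * g.1 0 0 + g.1 1 0 ∧ (Lm x * g).1 1 1 = x * g.1 0 1 + g.1 1 1 := by
  rw [Matrix.SpecialLinearGroup.coe_mul]
  simp only [Lm, Matrix.mul_apply, Fin.sum_univ_two, Matrix.of_apply, Matrix.cons_val', Matrix.cons_val_zero,
    Matrix.cons_val_one, Matrix.empty_val', Matrix.cons_val_fin_one]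
  refine ⟨by ring, by ring, by ring, by ring⟩

theorem C2_ext {g h : SL} (h1 : g.1 0 0 = h.1 0 0) (h2 : g.1 0 1 = h.1 0 1) (h3 : g.1 1 0 = h.1 1 0)
    (h4 : g.1 1 1 = h.1 1 1) : g = h := by
  apply Subtype.ext
  ext i j
  fin_cases i <;> fin_cases j
  · exact h1
  · exact h2
  · exact h3
  · exact h4

theorem C2_det (g : SL) : g.1 0 0 * g.1 1 1 - g.1 0 1 * g.1 1 0 = 1 := by
  have h := g.2
  rw [Matrix.det_fin_two] at h
  exact h

theorem C2_dich (a b c d : ℤ) (ha : 0 ≤ a) (hb : 0 ≤ b) (hc : 0 ≤ c) (hd : 0 ≤ d) (hdet : a * d - b * c = 1)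
    (h1 : ¬ (a = 1 ∧ b = 0 ∧ c = 0 ∧ d = 1)) : (c ≤ a ∧ d ≤ b) ∨ (a ≤ c ∧ b ≤ d) := by
  by_contra hcon
  push Not at hcon
  obtain ⟨hA, hB⟩ := hcon
  rcases le_or_gt c a with hca | hca
  · have hbd := hA hca
    have hac : c < a := by
      by_contra hh
      have : a ≤ c := not_lt.1 hh
      have := hB this
      omega
    have e1 : (c + 1) * d ≤ a * d := mul_le_mul_of_nonneg_right (by omega) hd
    have e2 : b * c ≤ (d - 1) * c := mul_le_mul_of_nonneg_right (by omega) hc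
    have e3 : d + c ≤ 1 := by nlinarith
    have hd1 : d = 1 := by omega
    have hc0 : c = 0 := by omega
    have hb0 : b = 0 := by omega
    subst hd1 hc0 hb0
    exact h1 ⟨by linarith, rfl, rfl, rfl⟩
  · have hbd := hB hca.le
    have e1 : a * d ≤ (c - 1) * d := mul_le_mul_of_nonneg_right (by omega) hd
    have e2 : (d + 1) * c ≤ b * c := mul_le_mul_of_nonneg_right (by omega) hc
    nlinarith

/-- [C2a] Euclid's step. Proof. Let `g = [[a, b], [c, d]]`, `a d - b c = 1`, entries `≥ 0`, `g ≠ 1`. Then the first row dominates the second one (`c ≤ a`, `d ≤ b`)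
or the second row dominates the first one (`a ≤ c`, `b ≤ d`): if `c ≤ a` and `b < d` then `1 = a d - b c ≥ a d - (d - 1) c = d (a - c) + c`, so `a = c` (then `a = c = 1`,
`a ≤ c` and `b ≤ d`) or `a > c` and then `d = 1`, `a - c = 1`, `c = 0`, `b = 0`: `g = 1`. If `a < c` then `b ≤ d`, because `b > d` gives `a d - b c ≤ (c - 1) d - (d + 1) c < 0`.
In the first case `g' = [[a - c, b - d], [c, d]]` and `g = U g'`, in the second `g' = [[a, b], [c - a, d - b]]` and `g = L g'`. -/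
theorem euclid_step (g : SL) (hg : Nonneg g) (h1 : g ≠ 1) :
    ∃ (x : Bool) (g' : SL), Nonneg g' ∧ g = (if x then Um 1 else Lm 1) * g' := by
  have hdet := C2_det g
  have h00 := hg 0 0
  have h01 := hg 0 1
  have h10 := hg 1 0
  have h11 := hg 1 1
  have hne : ¬ (g.1 0 0 = 1 ∧ g.1 0 1 = 0 ∧ g.1 1 0 = 0 ∧ g.1 1 1 = 1) := by
    rintro ⟨e1, e2, e3, e4⟩
    apply h1
    apply C2_ext
    · rw [e1]; rfl
    · rw [e2]; rfl
    · rw [e3]; rfl
    · rw [e4]; rfl
  rcases C2_dich _ _ _ _ h00 h01 h10 h11 hdet hne with ⟨hc, hd⟩ | ⟨hc, hd⟩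
  · refine ⟨true, Um (-1) * g, ?_, ?_⟩
    · obtain ⟨e1, e2, e3, e4⟩ := C2_Um (-1) g
      intro i j
      fin_cases i <;> fin_cases j
      · show 0 ≤ (Um (-1) * g).1 0 0
        rw [e1]; linarith
      · show 0 ≤ (Um (-1) * g).1 0 1
        rw [e2]; linarith
      · show 0 ≤ (Um (-1) * g).1 1 0
        rw [e3]; exact h10
      · show 0 ≤ (Um (-1) * g).1 1 1
        rw [e4]; exact h11
    · rw [if_pos rfl]
      obtain ⟨e1, e2, e3, e4⟩ := C2_Um (-1) g
      obtain ⟨f1, f2, f3, f4⟩ := C2_Um 1 (Um (-1) * g)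
      apply C2_ext
      · rw [f1, e1, e3]; ring
      · rw [f2, e2, e4]; ring
      · rw [f3, e3]
      · rw [f4, e4]
  · refine ⟨false, Lm (-1) * g, ?_, ?_⟩
    · obtain ⟨e1, e2, e3, e4⟩ := C2_Lm (-1) g
      intro i j
      fin_cases i <;> fin_cases j
      · show 0 ≤ (Lm (-1) * g).1 0 0
        rw [e1]; exact h00
      · show 0 ≤ (Lm (-1) * g).1 0 1
        rw [e2]; exact h01
      · show 0 ≤ (Lm (-1) * g).1 1 0
        rw [e3]; linarith
      · show 0 ≤ (Lm (-1) * g).1 1 1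
        rw [e4]; linarith
    · rw [if_neg Bool.false_ne_true]
      obtain ⟨e1, e2, e3, e4⟩ := C2_Lm (-1) g
      obtain ⟨f1, f2, f3, f4⟩ := C2_Lm 1 (Lm (-1) * g)
      apply C2_ext
      · rw [f1, e1]
      · rw [f2, e2]
      · rw [f3, e3, e1]; ring
      · rw [f4, e4, e2]; ring

/-- [C2b] adding a letter on the left increases `S` (row sums are at least `1`) -/
theorem S_lt_letter (x : Bool) (g : SL) (hg : Nonneg g) : S g < S ((if x then Um 1 else Lm 1) * g) := by
  obtain ⟨r1, r2, _, _⟩ := one_le_row hg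
  cases x with
  | true =>
    rw [if_pos rfl]
    obtain ⟨f1, f2, f3, f4⟩ := C2_Um 1 g
    unfold S
    rw [f1, f2, f3, f4]
    linarith
  | false =>
    rw [if_neg Bool.false_ne_true]
    obtain ⟨f1, f2, f3, f4⟩ := C2_Lm 1 g
    unfold S
    rw [f1, f2, f3, f4]
    linarith

/-- [C2c] Proof. Strong induction on `(S g).toNat` with `euclid_step`, `S_lt_letter`. -/
theorem exists_word (g : SL) (hg : Nonneg g) : ∃ w : List Bool, word w = g := by
  obtain ⟨n, hn⟩ : ∃ n : ℕ, (S g).toNat ≤ n := ⟨_, le_rfl⟩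
  induction n generalizing g with
  | zero =>
    have := two_le_S hg
    omega
  | succ n ih =>
    by_cases h1 : g = 1
    · exact ⟨[], h1.symm⟩
    · obtain ⟨x, g', hg', e⟩ := euclid_step g hg h1
      have hlt := S_lt_letter x g' hg'
      rw [← e] at hlt
      have h2 := two_le_S hg'
      obtain ⟨w, hw⟩ := ih g' hg' (by omega)
      refine ⟨x :: w, ?_⟩
      rw [e, ← hw]
      rfl

/-- [C2d] `S` increases with the suffix: induction on `u`. -/
theorem S_suffix_le (u v : List Bool) : S (word v) ≤ S (word (u ++ v)) := by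
  induction u with
  | nil => exact le_rfl
  | cons x u ih =>
    have h := S_lt_letter x (word (u ++ v)) (nonneg_word _)
    exact ih.trans h.le

theorem S_suffix_lt (u v : List Bool) (hu : u ≠ []) : S (word v) < S (word (u ++ v)) := by
  cases u with
  | nil => exact absurd rfl hu
  | cons x u =>
    have h := S_lt_letter x (word (u ++ v)) (nonneg_word _)
    exact lt_of_le_of_lt (S_suffix_le u v) h

end Pool.Agent.TII
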