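import Pool.Agent.TII.C1

/-!
# [TII-C3] the inequality (7.1) at a boundary, and the contribution of a run
-/

set_option autoImplicit false

namespace Pool.Agent.TII

open Finset

private theorem C3_Um_mul (a : ℤ) (g : SL) (j : Fin 2) :
    (Um a * g).1 0 j = g.1 0 j + a * g.1 1 j ∧ (Um a * g).1 1 j = g.1 1 j := by
  constructor <;> simp [Um, Matrix.mul_apply, Fin.sum_univ_two]

private theorem C3_Lm_mul (a : ℤ) (g : SL) (j : Fin 2) :
    (Lm a * g).1 0 j = g.1 0 j ∧ (Lm a * g).1 1 j = a * g.1 0 j + g.1 1 j := by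
  constructor <;> simp [Lm, Matrix.mul_apply, Fin.sum_univ_two]

private theorem C3_mul_Um (a : ℤ) (g : SL) (i : Fin 2) :
    (g * Um a).1 i 0 = g.1 i 0 ∧ (g * Um a).1 i 1 = a * g.1 i 0 + g.1 i 1 := by
  constructor
  · simp [Um, Matrix.mul_apply, Fin.sum_univ_two]
  · simp [Um, Matrix.mul_apply, Fin.sum_univ_two]
    ring

private theorem C3_mul_Lm (a : ℤ) (g : SL) (i : Fin 2) :
    (g * Lm a).1 i 0 = g.1 i 0 + a * g.1 i 1 ∧ (g * Lm a).1 i 1 = g.1 i 1 := by
  constructor
  · simp [Lm, Matrix.mul_apply, Fin.sum_univ_two]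
    ring
  · simp [Lm, Matrix.mul_apply, Fin.sum_univ_two]

private theorem C3_word_true (v : List Bool) : word (true :: v) = Um 1 * word v := by
  simp [word]

private theorem C3_word_false (v : List Bool) : word (false :: v) = Lm 1 * word v := by
  simp [word]

private theorem C3_word_snoc_true (u : List Bool) : word (u ++ [true]) = word u * Um 1 := by
  rw [word_append]; simp [word]

private theorem C3_word_snoc_false (u : List Bool) : word (u ++ [false]) = word u * Lm 1 := by
  rw [word_append]; simp [word]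

/-- [C3a] a word that begins with `U` has the larger first row sum, with `L` the larger second row sum -/
theorem row_true (v : List Bool) :
    (word (true :: v)).1 1 0 + (word (true :: v)).1 1 1 ≤ (word (true :: v)).1 0 0 + (word (true :: v)).1 0 1 := by
  rw [C3_word_true, (C3_Um_mul 1 (word v) 0).1, (C3_Um_mul 1 (word v) 1).1,
    (C3_Um_mul 1 (word v) 0).2, (C3_Um_mul 1 (word v) 1).2]
  have h := nonneg_word v
  have h1 := h 0 0
  have h2 := h 0 1
  linarith

theorem row_false (v : List Bool) :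
    (word (false :: v)).1 0 0 + (word (false :: v)).1 0 1 ≤ (word (false :: v)).1 1 0 + (word (false :: v)).1 1 1 := by
  rw [C3_word_false, (C3_Lm_mul 1 (word v) 0).1, (C3_Lm_mul 1 (word v) 1).1,
    (C3_Lm_mul 1 (word v) 0).2, (C3_Lm_mul 1 (word v) 1).2]
  have h := nonneg_word v
  have h1 := h 1 0
  have h2 := h 1 1
  linarith

/-- [C3b] a word that ends with `U` has the larger second column sum, with `L` the larger first column sum (`word_append`) -/
theorem col_true (u : List Bool) :
    (word (u ++ [true])).1 0 0 + (word (u ++ [true])).1 1 0 ≤ (word (u ++ [true])).1 0 1 + (word (u ++ [true])).1 1 1 := by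
  rw [C3_word_snoc_true, (C3_mul_Um 1 (word u) 0).1, (C3_mul_Um 1 (word u) 1).1,
    (C3_mul_Um 1 (word u) 0).2, (C3_mul_Um 1 (word u) 1).2]
  have h := nonneg_word u
  have h1 := h 0 1
  have h2 := h 1 1
  linarith

theorem col_false (u : List Bool) :
    (word (u ++ [false])).1 0 1 + (word (u ++ [false])).1 1 1 ≤ (word (u ++ [false])).1 0 0 + (word (u ++ [false])).1 1 0 := by
  rw [C3_word_snoc_false, (C3_mul_Lm 1 (word u) 0).1, (C3_mul_Lm 1 (word u) 1).1,
    (C3_mul_Lm 1 (word u) 0).2, (C3_mul_Lm 1 (word u) 1).2]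
  have h := nonneg_word u
  have h1 := h 0 0
  have h2 := h 1 0
  linarith

/-- [C3c] (7.1). Proof. If `u = []` or `v = []` then `S 1 = 2`. Otherwise `u` ends with `U` and `v` begins with `L` (or conversely): in
`S (g h) = C₁ R₁ + C₂ R₂` the larger column sum meets the larger row sum, so `4 S (g h) ≥ (C₁ + C₂) (R₁ + R₂)`. -/
theorem bd_mul (u v : List Bool) (h : Bd u v) : S (word u) * S (word v) ≤ 4 * S (word (u ++ v)) := by
  rcases List.eq_nil_or_concat' u with rfl | ⟨u', x, rfl⟩
  · have h1 : S (word []) = 2 := S_one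
    have h2 := two_le_S (nonneg_word v)
    rw [h1, List.nil_append]
    linarith
  rcases v with _ | ⟨y, v'⟩
  · have h1 : S (word []) = 2 := S_one
    have h2 := two_le_S (nonneg_word (u' ++ [x]))
    rw [h1, List.append_nil]
    linarith
  have hxy : x ≠ y := h x y (by simp) (by simp)
  obtain ⟨-, -, hc0, hc1⟩ := one_le_row (nonneg_word (u' ++ [x]))
  obtain ⟨hr0, hr1, -, -⟩ := one_le_row (nonneg_word (y :: v'))
  rw [word_append (u' ++ [x]) (y :: v'), S_mul (word (u' ++ [x])) (word (y :: v'))]
  have hSu : S (word (u' ++ [x])) = ((word (u' ++ [x])).1 0 0 + (word (u' ++ [x])).1 1 0) +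
      ((word (u' ++ [x])).1 0 1 + (word (u' ++ [x])).1 1 1) := by
    rw [S]; ring
  have hSv : S (word (y :: v')) = ((word (y :: v')).1 0 0 + (word (y :: v')).1 0 1) +
      ((word (y :: v')).1 1 0 + (word (y :: v')).1 1 1) := by
    rw [S]; ring
  rw [hSu, hSv]
  have key : ((word (u' ++ [x])).1 0 0 + (word (u' ++ [x])).1 1 0 ≤
      (word (u' ++ [x])).1 0 1 + (word (u' ++ [x])).1 1 1 ∧
      (word (y :: v')).1 0 0 + (word (y :: v')).1 0 1 ≤
      (word (y :: v')).1 1 0 + (word (y :: v')).1 1 1) ∨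
      ((word (u' ++ [x])).1 0 1 + (word (u' ++ [x])).1 1 1 ≤
      (word (u' ++ [x])).1 0 0 + (word (u' ++ [x])).1 1 0 ∧
      (word (y :: v')).1 1 0 + (word (y :: v')).1 1 1 ≤
      (word (y :: v')).1 0 0 + (word (y :: v')).1 0 1) := by
    cases x <;> cases y
    · exact absurd rfl hxy
    · right
      exact ⟨col_false u', row_true v'⟩
    · left
      exact ⟨col_true u', row_false v'⟩
    · exact absurd rfl hxy
  generalize (word (u' ++ [x])).1 0 0 + (word (u' ++ [x])).1 1 0 = C1 at *
  generalize (word (u' ++ [x])).1 0 1 + (word (u' ++ [x])).1 1 1 = C2 at *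
  generalize (word (y :: v')).1 0 0 + (word (y :: v')).1 0 1 = R1 at *
  generalize (word (y :: v')).1 1 0 + (word (y :: v')).1 1 1 = R2 at *
  have p1 : 0 ≤ C1 * R1 := by positivity
  have p2 : 0 ≤ C2 * R2 := by positivity
  rcases key with ⟨k1, k2⟩ | ⟨k1, k2⟩
  · nlinarith [mul_nonneg (sub_nonneg.2 k1) (sub_nonneg.2 k2)]
  · nlinarith [mul_nonneg (sub_nonneg.2 k1) (sub_nonneg.2 k2)]

/-- [C3d] Proof. `word (replicate a x) = Um a` or `Lm a`; `S (Um a g) = S g + a R₂`, `S (Lm a g) = S g + a R₁`, and the row sum that is added is the larger one of `word v`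
(or `v = []`, both are `1`), so it is at least `S (word v) / 2`. -/
theorem run_mul (a : ℕ) (x : Bool) (v : List Bool) (h : Bd (List.replicate a x) v) :
    (a : ℤ) * S (word v) ≤ 2 * S (word (List.replicate a x ++ v)) := by
  have hSU : ∀ g : SL, S (Um a * g) = S g + a * (g.1 1 0 + g.1 1 1) := by
    intro g
    rw [S, S, (C3_Um_mul a g 0).1, (C3_Um_mul a g 1).1, (C3_Um_mul a g 0).2, (C3_Um_mul a g 1).2]
    ring
  have hSL : ∀ g : SL, S (Lm a * g) = S g + a * (g.1 0 0 + g.1 0 1) := by
    intro g
    rw [S, S, (C3_Lm_mul a g 0).1, (C3_Lm_mul a g 1).1, (C3_Lm_mul a g 0).2, (C3_Lm_mul a g 1).2]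
    ring
  have ha : (0 : ℤ) ≤ a := Int.natCast_nonneg a
  have h2 := two_le_S (nonneg_word v)
  -- it is enough that the added row sum is at least half of the sum
  have hU : S (word v) ≤ 2 * ((word v).1 1 0 + (word v).1 1 1) →
      (a : ℤ) * S (word v) ≤ 2 * S (word (List.replicate a true ++ v)) := by
    intro hr
    rw [word_append, word_replicate_true, hSU]
    nlinarith [mul_le_mul_of_nonneg_left hr ha]
  have hL : S (word v) ≤ 2 * ((word v).1 0 0 + (word v).1 0 1) →
      (a : ℤ) * S (word v) ≤ 2 * S (word (List.replicate a false ++ v)) := by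
    intro hr
    rw [word_append, word_replicate_false, hSL]
    nlinarith [mul_le_mul_of_nonneg_left hr ha]
  rcases Nat.eq_zero_or_pos a with rfl | hapos
  · have h3 : S (word (List.replicate 0 x ++ v)) = S (word v) := by simp
    rw [h3]
    push_cast
    linarith
  rcases v with _ | ⟨y, v'⟩
  · cases x
    · refine hL ?_
      show S 1 ≤ 2 * ((1 : SL).1 0 0 + (1 : SL).1 0 1)
      rw [S_one]
      simp
    · refine hU ?_
      show S 1 ≤ 2 * ((1 : SL).1 1 0 + (1 : SL).1 1 1)
      rw [S_one]
      simp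
  have hxy : x ≠ y := by
    refine h x y ?_ (by simp)
    rw [List.getLast?_replicate, if_neg (by omega)]
  cases x <;> cases y
  · exact absurd rfl hxy
  · refine hL ?_
    have hr := row_true v'
    rw [S]
    linarith
  · refine hU ?_
    have hr := row_false v'
    rw [S]
    linarith
  · exact absurd rfl hxy

end Pool.Agent.TII
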