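import Pool.Agent.TII.C2

/-!
# [TII-C4] scanning a word
-/

set_option autoImplicit false

namespace Pool.Agent.TII

open Finset

private theorem C4_Bd_rep {a : ℕ} (ha : 1 ≤ a) (x : Bool) (v : List Bool) :
    Bd (List.replicate a x) v ↔ ∀ y, v.head? = some y → x ≠ y := by
  unfold Bd
  have h : (List.replicate a x).getLast? = some x := by
    rw [List.getLast?_replicate, if_neg (by omega)]
  rw [h]
  constructor
  · intro H y hy
    exact H x y rfl hy
  · intro H x' y hx' hy
    have : x = x' := by simpa using hx'
    subst this
    exact H y hy

private theorem C4_Bd_nil (v : List Bool) : Bd [] v := by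
  intro x y hx
  simp at hx

/-- [C4a] the first run of a nonempty word: induction on `w` -/
theorem first_run (x : Bool) (w : List Bool) : ∃ (a : ℕ) (v : List Bool), 1 ≤ a ∧
    x :: w = List.replicate a x ++ v ∧ Bd (List.replicate a x) v := by
  induction w with
  | nil =>
    refine ⟨1, [], le_refl _, by simp, ?_⟩
    rw [C4_Bd_rep (le_refl _)]
    intro y hy
    simp at hy
  | cons y w ih =>
    by_cases hxy : y = x
    · subst hxy
      obtain ⟨a, v, ha, hv, hB⟩ := ih
      refine ⟨a + 1, v, by omega, ?_, ?_⟩
      · rw [hv, List.replicate_succ, List.cons_append]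
      · rw [C4_Bd_rep (by omega)]
        exact (C4_Bd_rep ha _ _).1 hB
    · refine ⟨1, y :: w, le_refl _, by simp, ?_⟩
      rw [C4_Bd_rep (le_refl _)]
      intro z hz
      have : y = z := by simpa using hz
      subst this
      exact fun h => hxy h.symm

/-- [C4b] Proof. Induction on `w`; `w ≠ []` because `S (word []) = 2 < A`. Let `w = x :: w'`. If `S (word w') < A`: `first_run`, `u = []`, and `S (word v) ≤ S (word w') < A` because
`v` is a suffix of `w'` (`a ≥ 1`). If `A ≤ S (word w')`: take `u', a, x', v` for `w'`; if `u' = []` and `x = x'` then put `u = []` and the run `a + 1`; otherwise `u = x :: u'`. -/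
theorem scan (A : ℤ) (hA : 2 < A) (w : List Bool) (h : A ≤ S (word w)) :
    ∃ (u v : List Bool) (a : ℕ) (x : Bool), 1 ≤ a ∧ w = u ++ (List.replicate a x ++ v) ∧
      Bd u (List.replicate a x ++ v) ∧ Bd (List.replicate a x) v ∧
      S (word v) < A ∧ A ≤ S (word (List.replicate a x ++ v)) := by
  induction w with
  | nil =>
    exfalso
    have : S (word []) = 2 := S_one
    omega
  | cons x w ih =>
    by_cases hlt : S (word w) < A
    · obtain ⟨a, v, ha, hv, hB⟩ := first_run x w
      refine ⟨[], v, a, x, ha, by simpa using hv, C4_Bd_nil _, hB, ?_, ?_⟩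
      · obtain ⟨b, rfl⟩ : ∃ b, a = b + 1 := ⟨a - 1, by omega⟩
        rw [List.replicate_succ, List.cons_append] at hv
        have hw : w = List.replicate b x ++ v := (List.cons.inj hv).2
        have h2 := S_suffix_le (List.replicate b x) v
        rw [← hw] at h2
        omega
      · rw [← hv]; exact h
    · have hge : A ≤ S (word w) := by omega
      obtain ⟨u', v, a, x', ha, hw, hB1, hB2, hS1, hS2⟩ := ih hge
      by_cases hc : u' = [] ∧ x = x'
      · obtain ⟨rfl, rfl⟩ := hc
        refine ⟨[], v, a + 1, x, by omega, ?_, C4_Bd_nil _, ?_, hS1, ?_⟩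
        · rw [hw]
          simp only [List.nil_append]
          rw [List.replicate_succ, List.cons_append]
        · rw [C4_Bd_rep (by omega)]
          exact (C4_Bd_rep ha _ _).1 hB2
        · have h2 := S_suffix_le [x] (List.replicate a x ++ v)
          have e : [x] ++ (List.replicate a x ++ v) = List.replicate (a + 1) x ++ v := by
            rw [List.replicate_succ, List.cons_append]; rfl
          rw [e] at h2
          omega
      · refine ⟨x :: u', v, a, x', ha, by rw [hw, List.cons_append], ?_, hB2, hS1, hS2⟩
        by_cases hu : u' = []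
        · subst hu
          have hxx : x ≠ x' := fun h => hc ⟨rfl, h⟩
          intro y z hy hz
          have h1 : x = y := by simpa using hy
          obtain ⟨b, rfl⟩ : ∃ b, a = b + 1 := ⟨a - 1, by omega⟩
          have h2 : x' = z := by
            simpa [List.replicate_succ] using hz
          subst h1 h2
          exact hxx
        · intro y z hy hz
          refine hB1 y z ?_ hz
          rw [List.getLast?_cons] at hy
          cases h3 : u'.getLast? with
          | none => exact absurd (List.getLast?_eq_none_iff.1 h3) hu
          | some t => rw [h3] at hy; simpa using hy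

end Pool.Agent.TII
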