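import Pool.Agent.TII.C3
import Pool.Agent.TII.C4

/-!
# [TII-C5] the decomposition lemma (continued fractions)
-/

set_option autoImplicit false

namespace Pool.Agent.TII

open Finset

private theorem C5_S_nonneg (w : List Bool) : 0 ≤ S (word w) :=
  le_trans (by norm_num) (two_le_S (nonneg_word w))

/-- [C5a] One scale: either there is a boundary in `[A, A B)` or a long run from below `A` to above `A B`. Proof. If `A = 2` the empty suffix is a boundary (`u = w`, `v = []`).
If `2 < A` use `scan`: the suffix `v' = replicate a x ++ v` is a boundary with `A ≤ S (word v')`; if `S (word v') < A B` we are in the first case, otherwise in the second: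
`S (word u) * S (word v') ≤ 4 S (word w)` (`bd_mul`) and `a S (word v) ≤ 2 S (word v')` (`run_mul`). -/
theorem one_scale (A B : ℤ) (hA : 2 ≤ A) (hB : 2 ≤ B) (w : List Bool) (h : A * B ≤ S (word w)) :
    (∃ u v : List Bool, w = u ++ v ∧ Bd u v ∧ A ≤ S (word v) ∧ S (word v) < A * B) ∨
    (∃ (u v : List Bool) (a : ℕ) (x : Bool), 1 ≤ a ∧ w = u ++ (List.replicate a x ++ v) ∧
      S (word v) ≤ A ∧ S (word u) * (A * B) ≤ 4 * S (word w) ∧
      S (word u) * a * S (word v) ≤ 8 * S (word w)) := by
  have hAB : A ≤ A * B := by nlinarith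
  rcases hA.eq_or_lt with hA2 | hA2
  · left
    refine ⟨w, [], (List.append_nil w).symm, ?_, ?_, ?_⟩
    · intro x y _ hy
      simp at hy
    · show A ≤ S 1
      rw [S_one, ← hA2]
    · show S 1 < A * B
      rw [S_one, ← hA2]
      linarith
  · obtain ⟨u, v, a, x, ha, hw, hbd, hbd2, hv, hv'⟩ := scan A hA2 w (hAB.trans h)
    by_cases hlt : S (word (List.replicate a x ++ v)) < A * B
    · left
      exact ⟨u, _, hw, hbd, hv', hlt⟩
    · right
      rw [not_lt] at hlt
      have h1 : S (word u) * S (word (List.replicate a x ++ v)) ≤ 4 * S (word w) := by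
        have := bd_mul u _ hbd
        rwa [← hw] at this
      have h2 := run_mul a x v hbd2
      have hu := C5_S_nonneg u
      refine ⟨u, v, a, x, ha, hw, hv.le, ?_, ?_⟩
      · exact (mul_le_mul_of_nonneg_left hlt hu).trans h1
      · calc S (word u) * a * S (word v) = S (word u) * (a * S (word v)) := by ring
          _ ≤ S (word u) * (2 * S (word (List.replicate a x ++ v))) :=
              mul_le_mul_of_nonneg_left h2 hu
          _ = 2 * (S (word u) * S (word (List.replicate a x ++ v))) := by ring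
          _ ≤ 2 * (4 * S (word w)) := mul_le_mul_of_nonneg_left h1 (by norm_num)
          _ = 8 * S (word w) := by ring

/-- [C5b] two suffixes of the same word: the one with the smaller `S` is a suffix of the other one (`List.append_eq_append_iff`, `S_suffix_le`) -/
theorem suffix_cmp (u v u' v' : List Bool) (h : u ++ v = u' ++ v') (hS : S (word v) < S (word v')) :
    ∃ s : List Bool, v' = s ++ v ∧ u = u' ++ s ∧ s ≠ [] := by
  rcases List.append_eq_append_iff.1 h with ⟨s, h1, h2⟩ | ⟨s, h1, h2⟩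
  · exfalso
    have := S_suffix_le s v'
    rw [← h2] at this
    exact absurd hS (not_lt.2 this)
  · refine ⟨s, h2, h1, ?_⟩
    rintro rfl
    rw [List.nil_append] at h2
    rw [h2] at hS
    exact lt_irrefl _ hS

private theorem C5_run (a : ℕ) (x : Bool) :
    word (List.replicate a x) = Um a ∨ word (List.replicate a x) = Lm a := by
  cases x
  · exact Or.inr (word_replicate_false a)
  · exact Or.inl (word_replicate_true a)

/-- [C5c] LEMMA CF. Proof. `exists_word`, `one_scale` with `(A, B) = (P, Z)` and `(A, B) = (P Z², Z)`; if both give a boundary `(u₂, v₂)`, `(u₁, v₁)`, `S (word v₂) < P Z ≤ P Z² ≤ S (word v₁)`, then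
`v₁ = s ++ v₂`, `u₂ = u₁ ++ s` (`suffix_cmp`), `Bd s v₂` (because the last letter of `u₂` is the last letter of `s ≠ []`), and with `g₁ = word u₁`, `s`, `g₂ = word v₂`:
`S s S g₂ ≥ S (s g₂) ≥ P Z²` (`S_mul_le`) and `S g₂ < P Z` give `Z ≤ S s`; `S g ≤ S g₁ S (s g₂) ≤ S g₁ P Z³`; `S g₁ S s S g₂ ≤ 4 S g₁ S (s g₂) ≤ 16 S g` (`bd_mul` twice). -/
theorem cf (g : SL) (hg : Nonneg g) (P Z : ℤ) (hP : 2 ≤ P) (hZ : 2 ≤ Z) (h : P * Z ^ 3 < S g) :
    (∃ g1 s g2 : SL, Nonneg g1 ∧ Nonneg s ∧ Nonneg g2 ∧ g = g1 * s * g2 ∧ P ≤ S g2 ∧ S g2 < P * Z ∧ Z ≤ S s ∧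
      S g ≤ S g1 * (P * Z ^ 3) ∧ S g1 * S s * S g2 ≤ 16 * S g) ∨
    (∃ (g1 E g2 : SL) (a : ℕ), Nonneg g1 ∧ Nonneg g2 ∧ 1 ≤ a ∧ (E = Um a ∨ E = Lm a) ∧ g = g1 * E * g2 ∧
      ((S g2 ≤ P ∧ S g1 * (P * Z) ≤ 4 * S g) ∨ (S g2 ≤ P * Z ^ 2 ∧ S g1 * (P * Z ^ 3) ≤ 4 * S g)) ∧
      S g1 * a * S g2 ≤ 8 * S g) := by
  obtain ⟨w, rfl⟩ := exists_word g hg
  have hPZ : P * Z ≤ P * Z ^ 2 := by
    have : Z ≤ Z ^ 2 := by nlinarith
    exact mul_le_mul_of_nonneg_left this (by linarith)
  have hPZ2 : P * Z ^ 2 ≤ P * Z ^ 3 := by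
    have : Z ^ 2 ≤ Z ^ 3 := by nlinarith [sq_nonneg Z]
    exact mul_le_mul_of_nonneg_left this (by linarith)
  have hP2 : 2 ≤ P * Z ^ 2 := by
    have : 1 ≤ Z ^ 2 := by nlinarith
    nlinarith
  have e3 : P * Z ^ 2 * Z = P * Z ^ 3 := by ring
  have key1 := one_scale P Z hP hZ w ((hPZ.trans hPZ2).trans h.le)
  have key2 := one_scale (P * Z ^ 2) Z hP2 hZ w (by rw [e3]; exact h.le)
  rcases key1 with ⟨u2, v2, hw2, hb2, hv2, hv2'⟩ | ⟨u, v, a, x, ha, hw, h1, h2, h3⟩
  · rcases key2 with ⟨u1, v1, hw1, hb1, hv1, hv1'⟩ | ⟨u, v, a, x, ha, hw, h1, h2, h3⟩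
    · left
      have hlt : S (word v2) < S (word v1) := lt_of_lt_of_le hv2' (hPZ.trans hv1)
      obtain ⟨s, hs1, hs2, hs3⟩ := suffix_cmp u2 v2 u1 v1 (hw2.symm.trans hw1) hlt
      have hbs : Bd s v2 := by
        intro x y hx hy
        refine hb2 x y ?_ hy
        rw [hs2, List.getLast?_append_of_ne_nil _ hs3]
        exact hx
      have e1 : word v1 = word s * word v2 := by rw [hs1, word_append]
      have e0 : word w = word u1 * word v1 := by rw [hw1, word_append]
      have hu1 := C5_S_nonneg u1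
      have hsn := C5_S_nonneg s
      have hv2n := two_le_S (nonneg_word v2)
      refine ⟨word u1, word s, word v2, nonneg_word _, nonneg_word _, nonneg_word _, ?_, hv2, hv2',
        ?_, ?_, ?_⟩
      · rw [e0, e1, mul_assoc]
      · by_contra hc
        rw [not_le] at hc
        have h4 : S (word v1) ≤ S (word s) * S (word v2) := by
          rw [e1]; exact S_mul_le (nonneg_word _) (nonneg_word _)
        have h5 : S (word s) * S (word v2) ≤ Z * S (word v2) :=
          mul_le_mul_of_nonneg_right hc.le (by linarith)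
        have h6 : Z * S (word v2) < Z * (P * Z) := mul_lt_mul_of_pos_left hv2' (by linarith)
        have h7 : Z * (P * Z) = P * Z ^ 2 := by ring
        linarith
      · calc S (word w) ≤ S (word u1) * S (word v1) := by
              rw [e0]; exact S_mul_le (nonneg_word _) (nonneg_word _)
          _ ≤ S (word u1) * (P * Z ^ 3) :=
              mul_le_mul_of_nonneg_left (by rw [← e3]; exact hv1'.le) hu1
      · have h8 := bd_mul s v2 hbs
        rw [← hs1] at h8
        have h9 := bd_mul u1 v1 hb1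
        rw [← hw1] at h9
        calc S (word u1) * S (word s) * S (word v2)
            = S (word u1) * (S (word s) * S (word v2)) := by ring
          _ ≤ S (word u1) * (4 * S (word v1)) := mul_le_mul_of_nonneg_left h8 hu1
          _ = 4 * (S (word u1) * S (word v1)) := by ring
          _ ≤ 4 * (4 * S (word w)) := mul_le_mul_of_nonneg_left h9 (by norm_num)
          _ = 16 * S (word w) := by ring
    · right
      refine ⟨word u, word (List.replicate a x), word v, a, nonneg_word _, nonneg_word _, ha,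
        C5_run a x, ?_, Or.inr ⟨h1, ?_⟩, h3⟩
      · rw [hw, word_append, word_append, mul_assoc]
      · rwa [e3] at h2
  · right
    refine ⟨word u, word (List.replicate a x), word v, a, nonneg_word _, nonneg_word _, ha,
      C5_run a x, ?_, Or.inl ⟨h1, h2⟩, h3⟩
    rw [hw, word_append, word_append, mul_assoc]

end Pool.Agent.TII
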