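import Pool.Agent.TII.D1

/-!
# [TII-D1d] the same n
-/

set_option autoImplicit false

namespace Pool.Agent.TII

open Finset

private theorem D1d_count (X M N m n : ℕ) (hX : 5 ≤ X) (hMN : M * N ≤ X ^ 2)
    (hm : m ∈ Ioc M (2 * M)) (hn : n ∈ Ioc N (2 * N)) (hm1 : 2 ≤ m) :
    ((prs X).filter fun p : ℕ => (p : ℤ) ∣ (m : ℤ) * n - 1).card ≤ 2 := by
  rw [mem_Ioc] at hm hn
  have hn1 : 1 ≤ n := by omega
  have hmn : 2 ≤ m * n := by nlinarith
  set F := (prs X).filter fun p : ℕ => (p : ℤ) ∣ (m : ℤ) * n - 1 with hF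
  have hcast : ((m * n - 1 : ℕ) : ℤ) = (m : ℤ) * n - 1 := by
    rw [Nat.cast_sub (by omega)]
    push_cast
    ring
  have h1 : ∏ p ∈ F, p ∣ m * n - 1 := by
    refine Finset.prod_primes_dvd _ ?_ ?_
    · intro p hp
      rw [hF, mem_filter, prs, mem_filter] at hp
      exact hp.1.2.prime
    · intro p hp
      rw [hF, mem_filter] at hp
      have := hp.2
      rw [← hcast] at this
      exact Int.natCast_dvd_natCast.1 this
  have h2 : X ^ F.card ≤ ∏ p ∈ F, p := by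
    rw [← Finset.prod_const]
    refine Finset.prod_le_prod' fun p hp => ?_
    rw [hF, mem_filter, prs, mem_filter, mem_Ioc] at hp
    omega
  have h3 := Nat.le_of_dvd (by omega) h1
  have h4 : m * n ≤ 4 * X ^ 2 := by
    calc m * n ≤ (2 * M) * (2 * N) := Nat.mul_le_mul hm.2 hn.2
      _ = 4 * (M * N) := by ring
      _ ≤ 4 * X ^ 2 := Nat.mul_le_mul_left 4 hMN
  by_contra hc
  have h5 : X ^ 3 ≤ X ^ F.card := Nat.pow_le_pow_right (by omega) (by omega)
  have h6 : 4 * X ^ 2 ≤ X ^ 3 := by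
    rw [pow_succ X 2, mul_comm]
    exact Nat.mul_le_mul_left _ (by omega)
  omega

private theorem D1d_inv (X : ℕ) (hX : 5 ≤ X) : ∑ p ∈ prs X, (1 : ℝ) / p ≤ 1 := by
  have hX0 : (0 : ℝ) < X := by exact_mod_cast (by omega : 0 < X)
  calc ∑ p ∈ prs X, (1 : ℝ) / p ≤ ∑ p ∈ prs X, (1 : ℝ) / X := by
        refine Finset.sum_le_sum fun p hp => ?_
        rw [prs, mem_filter, mem_Ioc] at hp
        exact one_div_le_one_div_of_le hX0 (by exact_mod_cast hp.1.1.le)
    _ = (prs X).card * (1 / X) := by rw [Finset.sum_const, nsmul_eq_mul]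
    _ ≤ X * (1 / X) := by
        refine mul_le_mul_of_nonneg_right ?_ (by positivity)
        have : (prs X).card ≤ X := by
          calc (prs X).card ≤ (Ioc X (2 * X)).card := Finset.card_filter_le _ _
            _ = X := by rw [Nat.card_Ioc]; omega
        exact_mod_cast this
    _ = 1 := by field_simp

/-- [D1d] the same `n`: at most two primes `p > X` divide `m n - 1 < 4 X² ≤ X³`; `∑ 1/p ≤ 1`; so `|∑_p c_p dd p m n| ≤ 3` -/
theorem same_n (X M N m n : ℕ) (hX : 5 ≤ X) (hMN : M * N ≤ X ^ 2) (hm : m ∈ Ioc M (2 * M)) (hn : n ∈ Ioc N (2 * N))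
    (hm1 : 2 ≤ m) (c : ℕ → ℝ) (hc : ∀ p, |c p| ≤ 1) : |∑ p ∈ prs X, c p * dd p m n| ≤ 3 := by
  have h1 : ∀ p ∈ prs X, |c p * dd p m n| ≤
      (if (p : ℤ) ∣ (m : ℤ) * n - 1 then 1 else 0) + 1 / p := by
    intro p hp
    rw [abs_mul]
    have h2 : |dd p m n| ≤ (if (p : ℤ) ∣ (m : ℤ) * n - 1 then 1 else 0) + 1 / p := by
      rw [dd]
      refine (abs_sub _ _).trans ?_
      have h3 : (0 : ℝ) ≤ 1 / p := by positivity
      rw [abs_of_nonneg h3]
      refine add_le_add_left ?_ _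
      split_ifs <;> simp
    calc |c p| * |dd p m n| ≤ 1 * |dd p m n| :=
          mul_le_mul_of_nonneg_right (hc p) (abs_nonneg _)
      _ ≤ _ := by rw [one_mul]; exact h2
  have h2 : ∑ p ∈ prs X, (if (p : ℤ) ∣ (m : ℤ) * n - 1 then (1 : ℝ) else 0) ≤ 2 := by
    rw [Finset.sum_ite, Finset.sum_const_zero, add_zero, Finset.sum_const, nsmul_eq_mul, mul_one]
    exact_mod_cast D1d_count X M N m n hX hMN hm hn hm1
  calc |∑ p ∈ prs X, c p * dd p m n| ≤ ∑ p ∈ prs X, |c p * dd p m n| :=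
        Finset.abs_sum_le_sum_abs _ _
    _ ≤ ∑ p ∈ prs X, ((if (p : ℤ) ∣ (m : ℤ) * n - 1 then (1 : ℝ) else 0) + 1 / p) :=
        Finset.sum_le_sum h1
    _ ≤ 2 + 1 := by
        rw [Finset.sum_add_distrib]
        exact add_le_add h2 (D1d_inv X hX)
    _ = 3 := by norm_num

end Pool.Agent.TII
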