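import Pool.Agent.TII.D1b
import Pool.Agent.TII.D1d

/-!
# [TII-D2a] Cauchy-Schwarz
-/

set_option autoImplicit false

namespace Pool.Agent.TII

open Finset

/-- [D2a] Cauchy–Schwarz over `m` and over the classes `j = n / (H + 1)` (two elements of a class differ by at most `H`; `n ∈ (N, 2N]` meets at most `2 N / H` classes):
`(∑_p c_p ES p)² ≤ M (2N/H) ∑_m ∑_j (∑_{n ∈ I_j} β_n ∑_p c_p dd p m n)²`, written as a sum over pairs `n1, n2` in the same class. -/
theorem cauchy (X N M H : ℕ) (hN : 1 ≤ N) (hH : 1 ≤ H) (hHN : 4 * H ≤ N) (α β c : ℕ → ℝ) (hα : ∀ m, |α m| ≤ 1) :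
    (∑ p ∈ prs X, c p * ES N M α β p) ^ 2 ≤
      M * (2 * N / H) * ∑ n1 ∈ Ioc N (2 * N), ∑ n2 ∈ (Ioc N (2 * N)).filter (fun n2 => n2 / (H + 1) = n1 / (H + 1)),
        β n1 * β n2 * ∑ m ∈ Ioc M (2 * M), (∑ p ∈ prs X, c p * dd p m n1) * (∑ p ∈ prs X, c p * dd p m n2) := by
  set G : ℕ → ℕ → ℝ := fun m n => ∑ p ∈ prs X, c p * dd p m n with hG
  set J : Finset ℕ := (Ioc N (2 * N)).image (fun n => n / (H + 1)) with hJ
  set F : ℕ × ℕ → ℝ := fun x => ∑ n ∈ (Ioc N (2 * N)).filter (fun n => n / (H + 1) = x.2),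
    β n * G x.1 n with hF
  have hmaps : ∀ n ∈ Ioc N (2 * N), n / (H + 1) ∈ J := fun n hn => Finset.mem_image_of_mem _ hn
  -- step 1
  have e1 : ∑ p ∈ prs X, c p * ES N M α β p =
      ∑ x ∈ Ioc M (2 * M) ×ˢ J, α x.1 * F x := by
    rw [Finset.sum_product]
    have h1 : ∀ p ∈ prs X, c p * ES N M α β p =
        ∑ m ∈ Ioc M (2 * M), ∑ n ∈ Ioc N (2 * N), α m * (β n * (c p * dd p m n)) := by
      intro p _
      rw [ES, Finset.mul_sum]
      refine Finset.sum_congr rfl fun m _ => ?_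
      rw [Finset.mul_sum]
      refine Finset.sum_congr rfl fun n _ => ?_
      ring
    rw [Finset.sum_congr rfl h1, Finset.sum_comm]
    refine Finset.sum_congr rfl fun m _ => ?_
    rw [Finset.sum_comm]
    have h2 : ∀ n ∈ Ioc N (2 * N), ∑ p ∈ prs X, α m * (β n * (c p * dd p m n)) =
        α m * (β n * G m n) := by
      intro n _
      rw [hG, Finset.mul_sum, Finset.mul_sum]
    rw [Finset.sum_congr rfl h2, ← Finset.sum_fiberwise_of_maps_to hmaps]
    refine Finset.sum_congr rfl fun j _ => ?_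
    rw [hF, Finset.mul_sum]
  -- step 2
  have hcard : (J.card : ℝ) ≤ 2 * N / H := by
    have hsub : J ⊆ Icc ((N + 1) / (H + 1)) (2 * N / (H + 1)) := by
      intro j hj
      obtain ⟨n, hn, rfl⟩ := Finset.mem_image.1 hj
      rw [Finset.mem_Ioc] at hn
      rw [Finset.mem_Icc]
      exact ⟨Nat.div_le_div_right hn.1, Nat.div_le_div_right hn.2⟩
    have h1 := Finset.card_le_card hsub
    rw [Nat.card_Icc] at h1
    have h2 : (N + 1) < ((N + 1) / (H + 1) + 1) * (H + 1) := by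
      have h5 := Nat.lt_mul_div_succ (N + 1) (Nat.succ_pos H)
      rw [mul_comm] at h5
      exact h5
    have h3 : (2 * N / (H + 1)) * (H + 1) ≤ 2 * N := Nat.div_mul_le_self _ _
    have hHR : (0 : ℝ) < H := by exact_mod_cast hH
    rw [le_div_iff₀ hHR]
    have h4 : J.card * H ≤ 2 * N := by
      have h5 : J.card ≤ 2 * N / (H + 1) + 1 - (N + 1) / (H + 1) := h1
      generalize 2 * N / (H + 1) = q at *
      generalize (N + 1) / (H + 1) = r at *
      have h6 : J.card + r ≤ q + 1 ∨ J.card = 0 := by omega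
      rcases h6 with h6 | h6
      · have h7 : (J.card + r) * (H + 1) ≤ (q + 1) * (H + 1) := Nat.mul_le_mul_right _ h6
        nlinarith
      · rw [h6]
        omega
    exact_mod_cast h4
  have e2 : (∑ x ∈ Ioc M (2 * M) ×ˢ J, α x.1 * F x) ^ 2 ≤
      (M * (2 * N / H)) * ∑ x ∈ Ioc M (2 * M) ×ˢ J, F x ^ 2 := by
    refine (Finset.sum_mul_sq_le_sq_mul_sq _ _ _).trans ?_
    refine mul_le_mul_of_nonneg_right ?_ (Finset.sum_nonneg fun x _ => sq_nonneg _)
    have h1 : ∑ x ∈ Ioc M (2 * M) ×ˢ J, α x.1 ^ 2 ≤ ∑ x ∈ Ioc M (2 * M) ×ˢ J, (1 : ℝ) := by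
      refine Finset.sum_le_sum fun x _ => ?_
      rw [sq_le_one_iff_abs_le_one]
      exact hα x.1
    refine h1.trans ?_
    rw [Finset.sum_const, Finset.card_product, Nat.card_Ioc, nsmul_eq_mul, mul_one]
    have h2 : 2 * M - M = M := by omega
    rw [h2]
    push_cast
    exact mul_le_mul_of_nonneg_left hcard (Nat.cast_nonneg _)
  -- step 3
  have e3 : ∑ x ∈ Ioc M (2 * M) ×ˢ J, F x ^ 2 =
      ∑ n1 ∈ Ioc N (2 * N), ∑ n2 ∈ (Ioc N (2 * N)).filter (fun n2 => n2 / (H + 1) = n1 / (H + 1)),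
        β n1 * β n2 * ∑ m ∈ Ioc M (2 * M), G m n1 * G m n2 := by
    rw [Finset.sum_product]
    have h1 : ∀ m ∈ Ioc M (2 * M), ∑ j ∈ J, F (m, j) ^ 2 =
        ∑ n1 ∈ Ioc N (2 * N), ∑ n2 ∈ (Ioc N (2 * N)).filter (fun n2 => n2 / (H + 1) = n1 / (H + 1)),
          β n1 * β n2 * (G m n1 * G m n2) := by
      intro m _
      rw [← Finset.sum_fiberwise_of_maps_to hmaps]
      refine Finset.sum_congr rfl fun j _ => ?_
      rw [hF]
      show (∑ n ∈ (Ioc N (2 * N)).filter (fun n => n / (H + 1) = j), β n * G m n) ^ 2 = _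
      rw [sq, Finset.sum_mul_sum]
      refine Finset.sum_congr rfl fun n1 hn1 => ?_
      rw [Finset.mem_filter] at hn1
      rw [hn1.2]
      refine Finset.sum_congr rfl fun n2 _ => ?_
      ring
    rw [Finset.sum_congr rfl h1, Finset.sum_comm]
    refine Finset.sum_congr rfl fun n1 _ => ?_
    rw [Finset.sum_comm]
    refine Finset.sum_congr rfl fun n2 _ => ?_
    rw [Finset.mul_sum]
  rw [e1]
  refine e2.trans (le_of_eq ?_)
  rw [e3]

end Pool.Agent.TII
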