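import Mathlib

/-!
# [TII] Type II estimate for the class 1 modulo p: definitions
-/

set_option autoImplicit false

namespace Pool.Agent.TII

open Finset

/-- the loss parameter: `T` dominates the divisor function up to `V` and the number of dyadic scales -/
structure Loss (V : ℕ) (T : ℝ) : Prop where
  two : 2 ≤ T
  tau : ∀ n : ℕ, 1 ≤ n → n ≤ V → (n.divisors.card : ℝ) ≤ T
  log : (Nat.log 2 V : ℝ) + 2 ≤ T

/-- `SL₂(ℤ)` -/
abbrev SL : Type := Matrix.SpecialLinearGroup (Fin 2) ℤ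

/-- the maximum of the absolute values of the entries -/
def nm (g : SL) : ℕ :=
  max (max (g.1 0 0).natAbs (g.1 0 1).natAbs) (max (g.1 1 0).natAbs (g.1 1 1).natAbs)

theorem ball_finite (R : ℕ) : {g : SL | nm g ≤ R}.Finite := by
  have h1 : (Set.Icc (fun _ _ => -(R : ℤ)) (fun _ _ => (R : ℤ)) : Set (Fin 2 → Fin 2 → ℤ)).Finite :=
    Set.finite_Icc _ _
  refine Set.Finite.of_finite_image (f := fun g : SL => (g.1 : Fin 2 → Fin 2 → ℤ)) (h1.subset ?_) ?_
  · rintro _ ⟨g, hg, rfl⟩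
    simp only [Set.mem_setOf_eq, nm] at hg
    simp only [max_le_iff] at hg
    obtain ⟨⟨h1, h2⟩, h3, h4⟩ := hg
    rw [Set.mem_Icc]
    constructor
    · intro i j
      fin_cases i <;> fin_cases j <;> simp only [Fin.zero_eta, Fin.mk_one, Fin.isValue] <;> omega
    · intro i j
      fin_cases i <;> fin_cases j <;> simp only [Fin.zero_eta, Fin.mk_one, Fin.isValue] <;> omega
  · intro g _ g' _ h
    exact Subtype.ext h

/-- the elements of norm at most `R` -/
noncomputable def ball (R : ℕ) : Finset SL := (ball_finite R).toFinset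

theorem mem_ball {R : ℕ} {g : SL} : g ∈ ball R ↔ nm g ≤ R := by
  unfold ball
  rw [Set.Finite.mem_toFinset, Set.mem_setOf_eq]

/-- all entries are nonnegative -/
def Nonneg (g : SL) : Prop := ∀ i j, 0 ≤ g.1 i j

/-- the sum of the entries -/
def S (g : SL) : ℤ := g.1 0 0 + g.1 0 1 + g.1 1 0 + g.1 1 1

/-- the upper unipotent matrix -/
def Um (a : ℤ) : SL := ⟨!![1, a; 0, 1], by simp [Matrix.det_fin_two]⟩

/-- the lower unipotent matrix -/
def Lm (a : ℤ) : SL := ⟨!![1, 0; a, 1], by simp [Matrix.det_fin_two]⟩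

/-! ### the projective lines -/

/-- the projective line over `ZMod l`: `some s` is the point `(1 : s)`, `none` is `(0 : 1)` -/
def P1 (l : ℕ) : Type := Option (ZMod l)

instance (l : ℕ) : DecidableEq (P1 l) := inferInstanceAs (DecidableEq (Option (ZMod l)))
instance (l : ℕ) [NeZero l] : Fintype (P1 l) := inferInstanceAs (Fintype (Option (ZMod l)))

/-- the point `(u : w)` -/
def pt (l : ℕ) (u w : ZMod l) : P1 l := if u = 0 then none else some (w * u⁻¹)

/-- the action of `SL₂(ℤ)` on column vectors -/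
def act (l : ℕ) (g : SL) (z : P1 l) : P1 l :=
  match z with
  | none => pt l (g.1 0 1) (g.1 1 1)
  | some s => pt l (g.1 0 0 + g.1 0 1 * s) (g.1 1 0 + g.1 1 1 * s)

/-! ### the counting functions -/

/-- standing assumptions on a pair of primes -/
structure Pair (N H n1 n2 : ℕ) : Prop where
  p1 : n1.Prime
  p2 : n2.Prime
  l1 : N < n1
  u1 : n1 ≤ 2 * N
  l2 : N < n2
  u2 : n2 ≤ 2 * N
  ne : n1 ≠ n2
  dist : |(n1 : ℤ) - n2| ≤ H

/-- standing assumptions on the set of the parameters `t` -/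
structure Win (N : ℕ) (W : Finset ℤ) : Prop where
  abs : ∀ t ∈ W, |t| ≤ 9 * N
  diam : ∀ s ∈ W, ∀ t ∈ W, 2 * |s - t| ≤ N

/-- standing assumptions on the sizes -/
structure Par (N H Z V : ℕ) (T : ℝ) : Prop where
  loss : Loss V T
  hH : 1 ≤ H
  hZ : 2 ≤ Z
  hV : N ^ 100 ≤ V
  hN : (10000 * T * H * Z) ^ 100 ≤ N

/-- the number of `t ∈ W` with `n1 ∣ h x + t q1`, `n2 ∣ h y + t q2` for `g = [[q1, q2], [x, y]]`, `h = n1 - n2` -/
def FF (W : Finset ℤ) (n1 n2 : ℕ) (g : SL) : ℝ :=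
  ((W.filter fun t : ℤ => (n1 : ℤ) ∣ ((n1 : ℤ) - n2) * g.1 1 0 + t * g.1 0 0 ∧
    (n2 : ℤ) ∣ ((n1 : ℤ) - n2) * g.1 1 1 + t * g.1 0 1).card : ℝ)

/-- the expected value of `FF` -/
noncomputable def mu (W : Finset ℤ) (n1 n2 : ℕ) : ℝ := (W.card : ℝ) / ((n1 + 1) * (n2 + 1))

/-- the number of pairs `(t, t') ∈ W²` with `n1 n2 ∣ b t t' - a h t' + d h t - c h²`, `h = n1 - n2` -/
def rr (W : Finset ℤ) (n1 n2 : ℕ) (δ : SL) : ℕ :=
  ((W ×ˢ W).filter fun p : ℤ × ℤ => ((n1 : ℤ) * n2) ∣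
    δ.1 0 1 * p.1 * p.2 - δ.1 0 0 * ((n1 : ℤ) - n2) * p.2 + δ.1 1 1 * ((n1 : ℤ) - n2) * p.1 -
      δ.1 1 0 * ((n1 : ℤ) - n2) ^ 2).card

/-! ### sums over finite `SL₂(ℤ)`-sets -/

section Gset

variable {Ω : Type} [MulAction SL Ω]

/-- the sum of the translates of a function -/
def av (A : Finset SL) (f : Ω → ℝ) : Ω → ℝ := fun z => ∑ g ∈ A, f (g • z)

/-- the number of `g` in the ball of radius `Y` that move `z₀` to `z` -/
noncomputable def nu (z₀ : Ω) (Y : ℕ) (z : Ω) : ℝ :=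
  open Classical in (((ball Y).filter fun g => g • z₀ = z).card : ℝ)

/-- the square of the `ℓ²` norm -/
def n2 [Fintype Ω] (f : Ω → ℝ) : ℝ := ∑ z, f z ^ 2

end Gset

end Pool.Agent.TII
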