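import Pool.Agent.TII.SM5

/-!
# [TII-E1] the matrix attached to a pair of coprime moduli
-/

set_option autoImplicit false

namespace Pool.Agent.TII

open Finset

/-- [E1] Proof. `y ∈ [1, q2]` with `q1 y ≡ 1 (mod q2)` (`Int.emod`/`Nat.exists_mul_emod_eq_one_of_coprime`), `x = (q1 y - 1)/q2 ∈ [0, q1)`. -/
theorem exists_gv (q1 q2 : ℕ) (h : Nat.Coprime q1 q2) (h1 : 2 ≤ q1) (h2 : 2 ≤ q2) :
    ∃ g : SL, Nonneg g ∧ g.1 0 0 = q1 ∧ g.1 0 1 = q2 ∧ g.1 1 0 ≤ q1 ∧ g.1 1 1 ≤ q2 := by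
  obtain ⟨m, -, hm⟩ := Nat.exists_mul_mod_eq_one_of_coprime h (by omega : 1 < q2)
  obtain ⟨y, hy⟩ : ∃ y, y = m % q2 := ⟨_, rfl⟩
  obtain ⟨x, hx⟩ : ∃ x, x = q1 * y / q2 := ⟨_, rfl⟩
  have hy2 : y < q2 := by rw [hy]; exact Nat.mod_lt _ (by omega)
  have hmod : q1 * y % q2 = 1 := by rw [hy, Nat.mul_mod_mod, hm]
  have hdiv : q2 * x + 1 = q1 * y := by
    have := Nat.div_add_mod (q1 * y) q2
    rw [hmod, ← hx] at this
    exact this
  have hx1 : x ≤ q1 := by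
    by_contra hlt
    have h3 : q2 * (q1 + 1) ≤ q2 * x := Nat.mul_le_mul_left _ (by omega)
    have h4 : q1 * y ≤ q1 * q2 := Nat.mul_le_mul_left _ hy2.le
    nlinarith
  have hdivZ : (q2 : ℤ) * x + 1 = q1 * y := by exact_mod_cast hdiv
  refine ⟨⟨!![(q1 : ℤ), q2; x, y], ?_⟩, ?_, ?_, ?_, ?_, ?_⟩
  · rw [Matrix.det_fin_two]
    simp only [Matrix.of_apply, Matrix.cons_val', Matrix.cons_val_zero, Matrix.cons_val_one,
      Matrix.cons_val_fin_one]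
    linarith
  · intro i j
    fin_cases i <;> fin_cases j <;> simp
  · simp
  · simp
  · simpa using hx1
  · simpa using hy2.le

open Classical in
/-- a matrix `[[q1, q2], [x, y]]` with `0 ≤ x ≤ q1`, `0 ≤ y ≤ q2` -/
noncomputable def gv (q1 q2 : ℕ) : SL :=
  if h : ∃ g : SL, Nonneg g ∧ g.1 0 0 = q1 ∧ g.1 0 1 = q2 ∧ g.1 1 0 ≤ q1 ∧ g.1 1 1 ≤ q2 then h.choose else 1

theorem gv_spec (q1 q2 : ℕ) (h : Nat.Coprime q1 q2) (h1 : 2 ≤ q1) (h2 : 2 ≤ q2) :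
    Nonneg (gv q1 q2) ∧ (gv q1 q2).1 0 0 = q1 ∧ (gv q1 q2).1 0 1 = q2 ∧ (gv q1 q2).1 1 0 ≤ q1 ∧ (gv q1 q2).1 1 1 ≤ q2 := by
  have h3 := exists_gv q1 q2 h h1 h2
  unfold gv
  rw [dif_pos h3]
  exact h3.choose_spec

/-- the coprime pairs in `(X, 2 X]²` -/
def cop (X : ℕ) : Finset (ℕ × ℕ) := (Ioc X (2 * X) ×ˢ Ioc X (2 * X)).filter fun q => Nat.Coprime q.1 q.2

theorem gv_mem (X : ℕ) (hX : 2 ≤ X) (q : ℕ × ℕ) (hq : q ∈ cop X) : gv q.1 q.2 ∈ GX X := by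
  obtain ⟨h0, hc⟩ := mem_filter.1 hq
  obtain ⟨ha, hb⟩ := mem_product.1 h0
  rw [mem_Ioc] at ha hb
  obtain ⟨hn, h00, h01, h10, h11⟩ := gv_spec q.1 q.2 hc (by omega) (by omega)
  have n00 := hn 0 0
  have n01 := hn 0 1
  have n10 := hn 1 0
  have n11 := hn 1 1
  classical
  unfold GX
  refine mem_filter.2 ⟨mem_ball.2 (nm_le_of ?_), hn, ?_, ?_, ?_, ?_, ?_, ?_⟩
  · intro i j
    fin_cases i <;> fin_cases j
    · show |(gv q.1 q.2).1 0 0| ≤ _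
      rw [abs_of_nonneg n00]
      push_cast
      omega
    · show |(gv q.1 q.2).1 0 1| ≤ _
      rw [abs_of_nonneg n01]
      push_cast
      omega
    · show |(gv q.1 q.2).1 1 0| ≤ _
      rw [abs_of_nonneg n10]
      push_cast
      omega
    · show |(gv q.1 q.2).1 1 1| ≤ _
      rw [abs_of_nonneg n11]
      push_cast
      omega
  all_goals omega

/-- [E1b] a sum over the pairs is at most the sum over `GX X` (`gv` is injective on `cop X`: the first row is `(q1, q2)`) -/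
theorem sum_gv_le (X : ℕ) (hX : 2 ≤ X) (s : Finset (ℕ × ℕ)) (hs : s ⊆ cop X) (Φ : SL → ℝ) (hΦ : ∀ g, 0 ≤ Φ g) :
    ∑ q ∈ s, Φ (gv q.1 q.2) ≤ ∑ g ∈ GX X, Φ g := by
  classical
  have hinj : Set.InjOn (fun q : ℕ × ℕ => gv q.1 q.2) (s : Set (ℕ × ℕ)) := by
    intro q hq r hr hqr
    have hq' := hs hq
    have hr' := hs hr
    obtain ⟨h0, hc⟩ := mem_filter.1 hq'
    obtain ⟨ha, hb⟩ := mem_product.1 h0
    rw [mem_Ioc] at ha hb
    obtain ⟨h0', hc'⟩ := mem_filter.1 hr'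
    obtain ⟨ha', hb'⟩ := mem_product.1 h0'
    rw [mem_Ioc] at ha' hb'
    obtain ⟨-, h00, h01, -, -⟩ := gv_spec q.1 q.2 hc (by omega) (by omega)
    obtain ⟨-, h00', h01', -, -⟩ := gv_spec r.1 r.2 hc' (by omega) (by omega)
    have hqr' : gv q.1 q.2 = gv r.1 r.2 := hqr
    rw [hqr'] at h00 h01
    have e1 : (q.1 : ℤ) = r.1 := h00.symm.trans h00'
    have e2 : (q.2 : ℤ) = r.2 := h01.symm.trans h01'
    exact Prod.ext (by exact_mod_cast e1) (by exact_mod_cast e2)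
  rw [← sum_image hinj]
  refine sum_le_sum_of_subset_of_nonneg ?_ fun g _ _ => hΦ g
  intro g hg
  obtain ⟨q, hq, rfl⟩ := mem_image.1 hg
  exact gv_mem X hX q (hs hq)

end Pool.Agent.TII
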