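import Pool.Agent.TII.E3

/-!
# [TII-E3w] the windows contain the right integers
-/

set_option autoImplicit false

namespace Pool.Agent.TII

open Finset

theorem E3w_inT (M n1 n2 q1 q2 : ℕ) (g : SL) (h1 : g.1 0 0 = q1) (h2 : g.1 0 1 = q2)
    (hq1 : 0 < q1) (hq2 : 0 < q2) (t : ℤ) :
    inT M n1 n2 g t ↔ (M : ℝ) * n1 * n2 / (q1 * q2) <
        ((n2 : ℝ) + q1 * ((n1 : ℝ) - n2) * (g.1 1 1 : ℤ)) / (q1 * q2) + t ∧
      ((n2 : ℝ) + q1 * ((n1 : ℝ) - n2) * (g.1 1 1 : ℤ)) / (q1 * q2) + t ≤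
        2 * ((M : ℝ) * n1 * n2 / (q1 * q2)) := by
  have hQ : (0 : ℝ) < (q1 : ℝ) * q2 := by positivity
  have e1 : ((n2 : ℝ) + q1 * ((n1 : ℝ) - n2) * (g.1 1 1 : ℤ)) / (q1 * q2) + t =
      ((n2 : ℝ) + q1 * ((n1 : ℝ) - n2) * (g.1 1 1 : ℤ) + t * q1 * q2) / (q1 * q2) := by
    field_simp
  have e2 : 2 * ((M : ℝ) * n1 * n2 / (q1 * q2)) = (2 * M * n1 * n2) / (q1 * q2) := by ring
  rw [e1, e2, div_lt_div_iff_of_pos_right hQ, div_le_div_iff_of_pos_right hQ]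
  unfold inT
  rw [h1, h2]
  constructor
  · rintro ⟨a, b⟩
    exact ⟨by exact_mod_cast a, by exact_mod_cast b⟩
  · rintro ⟨a, b⟩
    exact ⟨by exact_mod_cast a, by exact_mod_cast b⟩

theorem E3w_eps (X M N H B : ℕ) (hs : Esz X M N H B) (q1 q2 n1 n2 : ℕ)
    (hq1 : q1 ∈ Ioc X (2 * X)) (hq2 : q2 ∈ Ioc X (2 * X)) (hp : Pair N H n1 n2) (y : ℤ)
    (hy0 : 0 ≤ y) (hy1 : y ≤ q2) :
    -(H : ℝ) ≤ ((n2 : ℝ) + q1 * ((n1 : ℝ) - n2) * y) / (q1 * q2) ∧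
      ((n2 : ℝ) + q1 * ((n1 : ℝ) - n2) * y) / (q1 * q2) ≤ H + 1 := by
  rw [mem_Ioc] at hq1 hq2
  have hq1' : (0 : ℝ) < q1 := by
    have : 0 < q1 := by omega
    exact_mod_cast this
  have hq2' : (0 : ℝ) < q2 := by
    have : 0 < q2 := by omega
    exact_mod_cast this
  have hQ : (0 : ℝ) < (q1 : ℝ) * q2 := by positivity
  have hh : |(n1 : ℝ) - n2| ≤ H := by exact_mod_cast hp.dist
  have hyr0 : (0 : ℝ) ≤ y := by exact_mod_cast hy0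
  have hyr1 : (y : ℝ) ≤ q2 := by exact_mod_cast hy1
  have hH0 : (0 : ℝ) ≤ H := by positivity
  have hb : |((n1 : ℝ) - n2) * y| ≤ H * q2 := by
    rw [abs_mul, abs_of_nonneg hyr0]
    exact mul_le_mul hh hyr1 hyr0 hH0
  obtain ⟨hb1, hb2⟩ := abs_le.mp hb
  have hn2 : (n2 : ℝ) ≤ q1 * q2 := by
    have h3 : n2 ≤ q1 * q2 := by
      calc n2 ≤ 2 * N := hp.u2
        _ ≤ X := hs.hX
        _ ≤ q1 := by omega
        _ ≤ q1 * q2 := Nat.le_mul_of_pos_right _ (by omega)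
    exact_mod_cast h3
  have hn0 : (0 : ℝ) ≤ n2 := by positivity
  constructor
  · rw [le_div_iff₀ hQ]
    have h4 := mul_le_mul_of_nonneg_left hb1 hq1'.le
    linarith
  · rw [div_le_iff₀ hQ]
    have h4 := mul_le_mul_of_nonneg_left hb2 hq1'.le
    linarith

/-- [E3c] Proof. With `T_i = (i M n1 n2 - n2 - q1 h y)/(q1 q2)`, `0 ≤ n2/(q1 q2) ≤ 1`, `|h y / q2| ≤ H` (`0 ≤ y ≤ q2`): `inT` means `T₁ < t ≤ T₂`, `llo - H - 1 ≤ T₁ ≤ lhi + H`,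
`2 llo - H - 1 ≤ T₂ ≤ 2 lhi + H`. -/
theorem window (X M N H B : ℕ) (hs : Esz X M N H B) (q1 q2 n1 n2 : ℕ) (hq1 : q1 ∈ Ioc X (2 * X))
    (hq2 : q2 ∈ Ioc X (2 * X)) (hp : Pair N H n1 n2) (g : SL) (h1 : g.1 0 0 = q1)
    (h2 : g.1 0 1 = q2) (hy0 : 0 ≤ g.1 1 1) (hy1 : g.1 1 1 ≤ q2) :
    (∀ t ∈ Wm X M N H B (B * q1 / X) (B * q2 / X) (B * n1 / N), inT M n1 n2 g t) ∧
      (∀ t, inT M n1 n2 g t → t ∈ Wp X M N H B (B * q1 / X) (B * q2 / X) (B * n1 / N)) := by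
  obtain ⟨l1, l2⟩ := llo_le X M N H B hs q1 q2 n1 n2 hq1 hq2 hp
  obtain ⟨e1, e2⟩ := E3w_eps X M N H B hs q1 q2 n1 n2 hq1 hq2 hp (g.1 1 1) hy0 hy1
  have hq1' : 0 < q1 := by
    rw [mem_Ioc] at hq1
    omega
  have hq2' : 0 < q2 := by
    rw [mem_Ioc] at hq2
    omega
  constructor
  · intro t ht
    unfold Wm at ht
    rw [mem_Ioc, Int.floor_lt, Int.le_floor] at ht
    rw [E3w_inT M n1 n2 q1 q2 g h1 h2 hq1' hq2' t]
    obtain ⟨t1, t2⟩ := ht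
    constructor
    · linarith
    · linarith
  · intro t ht
    rw [E3w_inT M n1 n2 q1 q2 g h1 h2 hq1' hq2' t] at ht
    obtain ⟨t1, t2⟩ := ht
    unfold Wp
    rw [mem_Ioc, Int.floor_lt, Int.le_floor]
    constructor
    · linarith
    · linarith

end Pool.Agent.TII
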