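import Pool.Agent.TII.E4b

/-!
# [TII-E4c] the pointwise bound
-/

set_option autoImplicit false

namespace Pool.Agent.TII

open Finset

theorem E4c_split (N B : ℕ) (hN : 1 ≤ N) (DD : Finset (ℕ × ℕ)) (b : ℕ × ℕ → ℝ) (W : ℕ → Finset ℤ)
    (hW : ∀ e ∈ Icc B (2 * B), ∀ t ∈ W e, |t| ≤ 9 * N)
    (hD : ∀ p ∈ DD, B * p.1 / N ∈ Icc B (2 * B)) (g : SL) :
    ∑ p ∈ DD, b p * (FF (W (B * p.1 / N)) p.1 p.2 g - mu (W (B * p.1 / N)) p.1 p.2) =
      ∑ e ∈ Icc B (2 * B), ∑ i ∈ Icc (-18 : ℤ) 18, VV (DDe N B DD e) b (piece N (W e) i) g := by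
  rw [← Finset.sum_fiberwise_of_maps_to (g := fun p : ℕ × ℕ => B * p.1 / N) hD]
  refine Finset.sum_congr rfl fun e he => ?_
  unfold VV
  rw [Finset.sum_comm]
  refine Finset.sum_congr rfl fun p hp => ?_
  unfold DDe at hp
  rw [Finset.mem_filter] at hp
  rw [hp.2, FF_pieces N hN (W e) (hW e he), mu_pieces N hN (W e) (hW e he), ← Finset.mul_sum,
    Finset.sum_sub_distrib]

/-- [E4c] Proof. Split `DD` into the blocks `DDe`, sum `cc_window`, cut the windows into pieces (`FF_pieces`, `mu_pieces`), `card_Pair`: error `3 N H * 400/(B N)`. -/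
theorem UU_le (X M N H B : ℕ) (hs : Esz X M N H B) (q1 q2 : ℕ) (hq1 : q1 ∈ Ioc X (2 * X))
    (hq2 : q2 ∈ Ioc X (2 * X)) (hc : Nat.Coprime q1 q2) (DD : Finset (ℕ × ℕ)) (b : ℕ × ℕ → ℝ)
    (hD : ∀ p ∈ DD, Pair N H p.1 p.2) (hb : ∀ p, |b p| ≤ 1) :
    |UU M DD b q1 q2| ≤
      ∑ e ∈ Icc B (2 * B), ∑ i ∈ Icc (-18 : ℤ) 18,
        (|VV (DDe N B DD e) b (piece N (Wm X M N H B (B * q1 / X) (B * q2 / X) e) i) (gv q1 q2)| +
         |VV (DDe N B DD e) (fun _ => 1) (piece N (Wp X M N H B (B * q1 / X) (B * q2 / X) e \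
            Wm X M N H B (B * q1 / X) (B * q2 / X) e) i) (gv q1 q2)|) + 1200 * (H / B) := by
  have hB := hs.hB
  have hH := hs.hH
  have hBH := hs.hBH
  have hN1 : 1 ≤ N := by
    have h1 : 1 ≤ 100 * B * H := Nat.succ_le_of_lt (by positivity)
    omega
  have hB1 : 1 ≤ B := by omega
  have h2N : 2 * N ∈ Ioc N (2 * N) := Finset.mem_Ioc.2 ⟨by omega, le_rfl⟩
  have hi1 : B * q1 / X ∈ Icc B (2 * B) := (box_range X N B q1 (2 * N) hB1 hq1 h2N).1
  have hi2 : B * q2 / X ∈ Icc B (2 * B) := (box_range X N B q2 (2 * N) hB1 hq2 h2N).1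
  have hDr : ∀ p ∈ DD, B * p.1 / N ∈ Icc B (2 * B) := fun p hp =>
    (box_range X N B q1 p.1 hB1 hq1 (Finset.mem_Ioc.2 ⟨(hD p hp).l1, (hD p hp).u1⟩)).2
  have hws := fun e (he : e ∈ Icc B (2 * B)) =>
    windows_size X M N H B hs (B * q1 / X) (B * q2 / X) e hi1 hi2 he
  have hWm : ∀ e ∈ Icc B (2 * B), ∀ t ∈ Wm X M N H B (B * q1 / X) (B * q2 / X) e, |t| ≤ 9 * N :=
    fun e he t ht => (hws e he).2.2 t ((hws e he).1 ht)
  have hWd : ∀ e ∈ Icc B (2 * B), ∀ t ∈ Wp X M N H B (B * q1 / X) (B * q2 / X) e \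
      Wm X M N H B (B * q1 / X) (B * q2 / X) e, |t| ≤ 9 * N :=
    fun e he t ht => (hws e he).2.2 t (Finset.mem_sdiff.1 ht).1
  have e1 := E4c_split N B hN1 DD b (fun e => Wm X M N H B (B * q1 / X) (B * q2 / X) e) hWm hDr
    (gv q1 q2)
  have e2 := E4c_split N B hN1 DD (fun _ => 1) (fun e => Wp X M N H B (B * q1 / X) (B * q2 / X) e \
      Wm X M N H B (B * q1 / X) (B * q2 / X) e) hWd hDr (gv q1 q2)
  simp only [one_mul] at e2
  have hcard := card_Pair N H hN1 hH DD hD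
  have hNr : (0 : ℝ) < N := by exact_mod_cast hN1
  have hBr : (0 : ℝ) < B := by exact_mod_cast hB1
  have hmain : |UU M DD b q1 q2 - ∑ p ∈ DD, b p *
      (FF (Wm X M N H B (B * q1 / X) (B * q2 / X) (B * p.1 / N)) p.1 p.2 (gv q1 q2) -
        mu (Wm X M N H B (B * q1 / X) (B * q2 / X) (B * p.1 / N)) p.1 p.2)| ≤
      ∑ p ∈ DD, (FF (Wp X M N H B (B * q1 / X) (B * q2 / X) (B * p.1 / N) \
        Wm X M N H B (B * q1 / X) (B * q2 / X) (B * p.1 / N)) p.1 p.2 (gv q1 q2) -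
        mu (Wp X M N H B (B * q1 / X) (B * q2 / X) (B * p.1 / N) \
        Wm X M N H B (B * q1 / X) (B * q2 / X) (B * p.1 / N)) p.1 p.2) + 1200 * (H / B) := by
    unfold UU
    rw [← Finset.sum_sub_distrib]
    refine (Finset.abs_sum_le_sum_abs _ _).trans ?_
    have h3 : ∀ p ∈ DD, _ := fun p hp => cc_window X M N H B hs q1 q2 p.1 p.2 hq1 hq2 hc (hD p hp)
      (b p) (hb p)
    refine (Finset.sum_le_sum h3).trans ?_
    rw [Finset.sum_add_distrib, Finset.sum_const, nsmul_eq_mul]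
    have h4 : (DD.card : ℝ) * (400 / (B * N)) ≤ 1200 * (H / B) := by
      calc (DD.card : ℝ) * (400 / (B * N)) ≤ (3 * N * H) * (400 / (B * N)) :=
            mul_le_mul_of_nonneg_right hcard (by positivity)
        _ = 1200 * (H / B) := by
            field_simp
            ring
    linarith
  rw [e1, e2] at hmain
  have h5 : |∑ e ∈ Icc B (2 * B), ∑ i ∈ Icc (-18 : ℤ) 18,
      VV (DDe N B DD e) b (piece N (Wm X M N H B (B * q1 / X) (B * q2 / X) e) i) (gv q1 q2)| ≤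
      ∑ e ∈ Icc B (2 * B), ∑ i ∈ Icc (-18 : ℤ) 18,
      |VV (DDe N B DD e) b (piece N (Wm X M N H B (B * q1 / X) (B * q2 / X) e) i) (gv q1 q2)| :=
    (Finset.abs_sum_le_sum_abs _ _).trans (Finset.sum_le_sum fun e _ =>
      Finset.abs_sum_le_sum_abs _ _)
  have h6 : ∑ e ∈ Icc B (2 * B), ∑ i ∈ Icc (-18 : ℤ) 18,
      VV (DDe N B DD e) (fun _ => 1) (piece N (Wp X M N H B (B * q1 / X) (B * q2 / X) e \
        Wm X M N H B (B * q1 / X) (B * q2 / X) e) i) (gv q1 q2) ≤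
      ∑ e ∈ Icc B (2 * B), ∑ i ∈ Icc (-18 : ℤ) 18,
      |VV (DDe N B DD e) (fun _ => 1) (piece N (Wp X M N H B (B * q1 / X) (B * q2 / X) e \
        Wm X M N H B (B * q1 / X) (B * q2 / X) e) i) (gv q1 q2)| :=
    Finset.sum_le_sum fun e _ => Finset.sum_le_sum fun i _ => le_abs_self _
  simp only [Finset.sum_add_distrib]
  have h7 := abs_le.1 hmain
  have h8 := abs_le.1 h5
  rw [abs_le]
  constructor <;> linarith [h7.1, h7.2, h8.1, h8.2]

end Pool.Agent.TII
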