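import Pool.Agent.TII.F0
import Pool.Agent.TII.F1

/-!
# [TII-F2] the sum of `rr` over the matrices with given `b`
-/

set_option autoImplicit false

namespace Pool.Agent.TII

open Finset

variable {N H Z V : ℕ} {T : ℝ} {n1 n2 : ℕ} {W : Finset ℤ}

/-- [F2a] the congruence `a h ≡ v (mod b)` puts `a` in one class modulo `|b| / gcd(b, h)` (or has no solution) -/
theorem class_of (b h v : ℤ) (hb : b ≠ 0) : ∃ a0 : ℤ, ∀ a : ℤ, b ∣ a * h - v →
    (((b.natAbs / Int.gcd b h : ℕ) : ℤ) ∣ a - a0) := by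
  by_cases hex : ∃ a, b ∣ a * h - v
  · obtain ⟨a0, ha0⟩ := hex
    refine ⟨a0, fun a ha => ?_⟩
    have h1 : b ∣ (a - a0) * h := by
      have h2 := dvd_sub ha ha0
      have h3 : a * h - v - (a0 * h - v) = (a - a0) * h := by ring
      rwa [h3] at h2
    have h2 : b.natAbs ∣ (a - a0).natAbs * h.natAbs := by
      rw [← Int.natAbs_mul]
      exact Int.natAbs_dvd_natAbs.2 h1
    rw [Int.natCast_dvd]
    have hg : Int.gcd b h = Nat.gcd b.natAbs h.natAbs := rfl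
    rw [hg]
    have hb' : 0 < b.natAbs := Int.natAbs_pos.2 hb
    have hgpos : 0 < Nat.gcd b.natAbs h.natAbs := Nat.gcd_pos_of_pos_left _ hb'
    have hcop := Nat.coprime_div_gcd_div_gcd hgpos
    refine hcop.dvd_of_dvd_mul_right ?_
    rw [← Nat.mul_div_assoc _ (Nat.gcd_dvd_right _ _)]
    exact Nat.div_dvd_div (Nat.gcd_dvd_left _ _) h2
  · exact ⟨0, fun a ha => absurd ⟨a, ha⟩ hex⟩

/-- [F2b] the number of `(τ, τ')` with `τ τ' = m ≠ 0` is at most `2 T` -/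
theorem card_factor (hL : Loss V T) (m : ℤ) (hm : m ≠ 0) (hV : m.natAbs ≤ V) (s : Finset (ℤ × ℤ))
    (hs : ∀ p ∈ s, p.1 * p.2 = m) : (s.card : ℝ) ≤ 2 * T := by
  have hinj : Set.InjOn (fun p : ℤ × ℤ => p.1) (s : Set (ℤ × ℤ)) := by
    intro p hp q hq hpq
    have h1 := hs p hp
    have h2 := hs q hq
    have hpq' : p.1 = q.1 := hpq
    have h3 : p.1 ≠ 0 := by
      intro h0
      rw [h0, zero_mul] at h1
      exact hm h1.symm
    have h4 : p.1 * p.2 = p.1 * q.2 := by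
      rw [h1, hpq', h2]
    exact Prod.ext hpq' (mul_left_cancel₀ h3 h4)
  have hsub : s.image (fun p : ℤ × ℤ => p.1) ⊆
      (m.natAbs.divisors.image (fun d : ℕ => (d : ℤ))) ∪
        (m.natAbs.divisors.image (fun d : ℕ => -(d : ℤ))) := by
    intro x hx
    obtain ⟨p, hp, rfl⟩ := Finset.mem_image.1 hx
    have h1 : p.1.natAbs ∈ m.natAbs.divisors := by
      rw [Nat.mem_divisors]
      refine ⟨?_, Int.natAbs_ne_zero.2 hm⟩
      rw [← hs p hp, Int.natAbs_mul]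
      exact dvd_mul_right _ _
    rcases Int.natAbs_eq p.1 with h2 | h2
    · exact Finset.mem_union_left _ (Finset.mem_image.2 ⟨_, h1, h2.symm⟩)
    · exact Finset.mem_union_right _ (Finset.mem_image.2 ⟨_, h1, h2.symm⟩)
  have h1 : s.card ≤ m.natAbs.divisors.card + m.natAbs.divisors.card := by
    rw [← Finset.card_image_of_injOn hinj]
    refine (Finset.card_le_card hsub).trans ((Finset.card_union_le _ _).trans ?_)
    exact Nat.add_le_add Finset.card_image_le Finset.card_image_le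
  have h2 := hL.tau m.natAbs (Nat.one_le_iff_ne_zero.2 (Int.natAbs_ne_zero.2 hm)) hV
  have h3 : (s.card : ℝ) ≤ (m.natAbs.divisors.card : ℝ) + (m.natAbs.divisors.card : ℝ) := by
    exact_mod_cast h1
  linarith

/-- [F2c] the size of `k`: if `τ τ' + h² = b D k` then `|k| ≤ 81 |b| + 20 H y / N + 1`. Proof. `|τ| ≤ 9 N |b| + |a| H`, `|τ'| ≤ 9 N |b| + |d| H`, `|a|, |d| ≤ y`, `|a d| ≤ 2 |b| y` (`ad_le`),
so `|τ τ'| ≤ 81 N² b² + 18 N |b| H y + 2 |b| y H²`; divide by `|b| D ≥ |b| N²`, use `H ≤ N`. -/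
theorem k_bound (par : Par N H Z V T) (hp : Pair N H n1 n2) (hW : Win N W) (y : ℕ) (δ : SL) (hδ : nm δ ≤ y)
    (hb : δ.1 0 1 ≠ 0) (t t' k : ℤ) (ht : t ∈ W) (ht' : t' ∈ W)
    (hk : (δ.1 0 1 * t - δ.1 0 0 * ((n1 : ℤ) - n2)) * (δ.1 0 1 * t' + δ.1 1 1 * ((n1 : ℤ) - n2)) + ((n1 : ℤ) - n2) ^ 2 =
      δ.1 0 1 * ((n1 : ℤ) * n2 * k)) :
    |(k : ℝ)| ≤ 81 * |((δ.1 0 1 : ℤ) : ℝ)| + 20 * H * y / N + 1 := by
  obtain ⟨hN0, hHN, -⟩ := par.facts
  obtain ⟨-, hh, -, -, -, hD, -⟩ := hp.facts par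
  have had := ad_le δ y hδ hb
  have ht9 := hW.abs t ht
  have ht9' := hW.abs t' ht'
  have hH1 := par.hH
  unfold nm at hδ
  simp only [max_le_iff] at hδ
  obtain ⟨⟨ha, hb2⟩, hc, hd⟩ := hδ
  generalize δ.1 0 0 = a at *
  generalize δ.1 0 1 = b at *
  generalize δ.1 1 0 = c at *
  generalize δ.1 1 1 = d at *
  generalize (n1 : ℤ) - n2 = h at *
  have hadR : |(a : ℝ)| * |(d : ℝ)| ≤ 2 * |(b : ℝ)| * y := by
    have h1 : |a * d| ≤ 2 * |b| * y := by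
      rw [Int.abs_eq_natAbs, Int.abs_eq_natAbs]
      exact_mod_cast had
    rw [← abs_mul]
    exact_mod_cast h1
  have haR : |(a : ℝ)| ≤ y := by
    have h1 : |a| ≤ y := by
      rw [Int.abs_eq_natAbs]
      exact_mod_cast ha
    exact_mod_cast h1
  have hdR : |(d : ℝ)| ≤ y := by
    have h1 : |d| ≤ y := by
      rw [Int.abs_eq_natAbs]
      exact_mod_cast hd
    exact_mod_cast h1
  have htR : |(t : ℝ)| ≤ 9 * N := by exact_mod_cast ht9
  have htR' : |(t' : ℝ)| ≤ 9 * N := by exact_mod_cast ht9'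
  have hhR : |(h : ℝ)| ≤ H := by exact_mod_cast hh
  have hbR : 1 ≤ |(b : ℝ)| := by
    have h1 : 1 ≤ |b| := Int.one_le_abs hb
    exact_mod_cast h1
  have hDR : ((N : ℝ)) ^ 2 ≤ (n1 : ℝ) * n2 := by
    have h1 : N ^ 2 ≤ n1 * n2 := hD.le
    exact_mod_cast h1
  have hNpos : (0 : ℝ) < N := by
    have h1 : 0 < N := lt_of_lt_of_le (by positivity) hN0
    exact_mod_cast h1
  have hHN' : (H : ℝ) ≤ N := by
    have h1 : H ≤ N := by omega
    exact_mod_cast h1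
  have hkR : ((b : ℝ) * t - a * h) * (b * t' + d * h) + (h : ℝ) ^ 2 = b * (n1 * n2 * k) := by
    exact_mod_cast hk
  have e1 : |(b : ℝ)| * ((n1 : ℝ) * n2) * |(k : ℝ)| ≤
      (9 * N * |(b : ℝ)| + |(a : ℝ)| * H) * (9 * N * |(b : ℝ)| + |(d : ℝ)| * H) + (H : ℝ) ^ 2 := by
    have h1 : |(b : ℝ) * (n1 * n2 * k)| = |(b : ℝ)| * ((n1 : ℝ) * n2) * |(k : ℝ)| := by
      rw [abs_mul, abs_mul, abs_of_nonneg (by positivity : (0 : ℝ) ≤ (n1 : ℝ) * n2)]
      ring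
    rw [← h1, ← hkR]
    refine (abs_add_le _ _).trans (add_le_add ?_ ?_)
    · rw [abs_mul]
      refine mul_le_mul ?_ ?_ (abs_nonneg _) (by positivity)
      · refine (abs_sub _ _).trans (add_le_add ?_ ?_)
        · rw [abs_mul]
          nlinarith [abs_nonneg (b : ℝ)]
        · rw [abs_mul]
          exact mul_le_mul_of_nonneg_left hhR (abs_nonneg _)
      · refine (abs_add_le _ _).trans (add_le_add ?_ ?_)
        · rw [abs_mul]
          nlinarith [abs_nonneg (b : ℝ)]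
        · rw [abs_mul]
          exact mul_le_mul_of_nonneg_left hhR (abs_nonneg _)
    · rw [abs_pow]
      exact pow_le_pow_left₀ (abs_nonneg _) hhR 2
  have hHnn : (0 : ℝ) ≤ H := Nat.cast_nonneg _
  have hynn : (0 : ℝ) ≤ y := Nat.cast_nonneg _
  have e2 : (9 * N * |(b : ℝ)| + |(a : ℝ)| * H) * (9 * N * |(b : ℝ)| + |(d : ℝ)| * H) + (H : ℝ) ^ 2 ≤
      |(b : ℝ)| * (N : ℝ) ^ 2 * (81 * |(b : ℝ)| + 20 * H * y / N + 1) := by
    have h1 : |(b : ℝ)| * (N : ℝ) ^ 2 * (81 * |(b : ℝ)| + 20 * H * y / N + 1) =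
        81 * |(b : ℝ)| ^ 2 * (N : ℝ) ^ 2 + 20 * |(b : ℝ)| * H * y * N + |(b : ℝ)| * (N : ℝ) ^ 2 := by
      field_simp
    rw [h1]
    have h2 : (9 * N * |(b : ℝ)| + |(a : ℝ)| * H) * (9 * N * |(b : ℝ)| + |(d : ℝ)| * H) =
        81 * |(b : ℝ)| ^ 2 * (N : ℝ) ^ 2 + 9 * N * |(b : ℝ)| * H * (|(a : ℝ)| + |(d : ℝ)|) +
          |(a : ℝ)| * |(d : ℝ)| * (H : ℝ) ^ 2 := by ring
    rw [h2]
    have h3 : 9 * N * |(b : ℝ)| * H * (|(a : ℝ)| + |(d : ℝ)|) ≤ 9 * N * |(b : ℝ)| * H * (y + y) :=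
      mul_le_mul_of_nonneg_left (add_le_add haR hdR) (by positivity)
    have h4 : |(a : ℝ)| * |(d : ℝ)| * (H : ℝ) ^ 2 ≤ 2 * |(b : ℝ)| * y * (H * N) := by
      refine mul_le_mul hadR ?_ (by positivity) (by positivity)
      rw [sq]
      exact mul_le_mul_of_nonneg_left hHN' hHnn
    have h5 : (H : ℝ) ^ 2 ≤ |(b : ℝ)| * (N : ℝ) ^ 2 := by
      have h6 : (H : ℝ) ^ 2 ≤ (N : ℝ) ^ 2 := pow_le_pow_left₀ hHnn hHN' 2
      nlinarith [sq_nonneg (N : ℝ)]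
    nlinarith
  have hbpos : (0 : ℝ) < |(b : ℝ)| := lt_of_lt_of_le one_pos hbR
  have e3 : |(b : ℝ)| * (N : ℝ) ^ 2 * |(k : ℝ)| ≤ |(b : ℝ)| * ((n1 : ℝ) * n2) * |(k : ℝ)| :=
    mul_le_mul_of_nonneg_right (mul_le_mul_of_nonneg_left hDR hbpos.le) (abs_nonneg _)
  exact le_of_mul_le_mul_left ((e3.trans e1).trans e2) (by positivity)

/-- [F2d] for given `b`, `k`, `(τ, τ')`: the number of `(a, d)`. Proof. `class_of` for `a` (`a h ≡ -τ mod b`) and for `d` (`d h ≡ τ' mod b`), `ap_count` with `β = |b| / g`, `g = gcd(b, h)`, `M = 2 |b| y`: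
`4 (2 y g / |b| + 1) + 8 T |b| y g² / b² ≤ (8 + 4) g² y / |b| + 8 T g² y / |b|` because `|b| ≤ y`, `1 ≤ g`. -/
theorem ad_count (hL : Loss V T) (y : ℕ) (b h v v' : ℤ) (hb : b ≠ 0) (hby : b.natAbs ≤ y) (hV : 2 * y ^ 2 ≤ V)
    (s : Finset (ℤ × ℤ)) (hs : ∀ p ∈ s, |p.1| ≤ y ∧ |p.2| ≤ y ∧ b ∣ p.1 * h - v ∧ b ∣ p.2 * h - v' ∧
      (p.1 * p.2).natAbs ≤ 2 * b.natAbs * y) :
    (s.card : ℝ) ≤ 20 * T * (Int.gcd b h : ℝ) ^ 2 * y / |(b : ℝ)| := by
  obtain ⟨a0, ha0⟩ := class_of b h v hb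
  obtain ⟨d0, hd0⟩ := class_of b h v' hb
  have hb' : 0 < b.natAbs := Int.natAbs_pos.2 hb
  have hg : Int.gcd b h = Nat.gcd b.natAbs h.natAbs := rfl
  have hgpos : 0 < Int.gcd b h := by
    rw [hg]
    exact Nat.gcd_pos_of_pos_left _ hb'
  have hgd : Int.gcd b h ∣ b.natAbs := by
    rw [hg]
    exact Nat.gcd_dvd_left _ _
  generalize Int.gcd b h = g at *
  have hβ : 1 ≤ b.natAbs / g := Nat.div_pos (Nat.le_of_dvd hb' hgd) hgpos
  have hM : 2 * b.natAbs * y ≤ V := by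
    refine le_trans ?_ hV
    rw [sq, mul_assoc]
    exact Nat.mul_le_mul_left _ (Nat.mul_le_mul_right _ hby)
  have h1 := ap_count hL (b.natAbs / g) y (2 * b.natAbs * y) hβ a0 d0 hM
  have hsub : s ⊆ (((Icc (-(y : ℤ)) y) ×ˢ (Icc (-(y : ℤ)) y)).filter fun p : ℤ × ℤ =>
      ((b.natAbs / g : ℕ) : ℤ) ∣ p.1 - a0 ∧ ((b.natAbs / g : ℕ) : ℤ) ∣ p.2 - d0 ∧
        (p.1 * p.2).natAbs ≤ 2 * b.natAbs * y) := by
    intro p hp
    obtain ⟨h2, h3, h4, h5, h6⟩ := hs p hp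
    rw [Finset.mem_filter, Finset.mem_product, Finset.mem_Icc, Finset.mem_Icc]
    exact ⟨⟨abs_le.1 h2, abs_le.1 h3⟩, ha0 _ h4, hd0 _ h5, h6⟩
  have h2 : (s.card : ℝ) ≤ _ := (Nat.cast_le.2 (Finset.card_le_card hsub)).trans h1
  refine h2.trans ?_
  have hgR : (0 : ℝ) < (g : ℝ) := by exact_mod_cast hgpos
  have hg1 : (1 : ℝ) ≤ (g : ℝ) := by exact_mod_cast hgpos
  have hbR : ((b.natAbs : ℕ) : ℝ) = |(b : ℝ)| := by
    rw [Nat.cast_natAbs, Int.cast_abs]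
  have hbpos : (0 : ℝ) < |(b : ℝ)| := abs_pos.2 (by exact_mod_cast hb)
  have hβR : ((b.natAbs / g : ℕ) : ℝ) = |(b : ℝ)| / g := by
    rw [Nat.cast_div hgd (by exact_mod_cast hgpos.ne'), hbR]
  have hyR : |(b : ℝ)| ≤ y := by
    rw [← hbR]
    exact_mod_cast hby
  rw [hβR]
  push_cast
  rw [hbR]
  have hT := hL.two
  generalize |(b : ℝ)| = B at *
  have e1 : 4 * (2 * (y : ℝ) / (B / g) + 1) + 4 * T * (2 * B * y) / (B / g) ^ 2 =
      (8 * y * g + 4 * B + 8 * T * y * g ^ 2) / B := by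
    field_simp
    ring
  rw [e1]
  refine div_le_div_of_nonneg_right ?_ hbpos.le
  have hy0 : (0 : ℝ) ≤ y := Nat.cast_nonneg _
  have e2 : 8 * (y : ℝ) * g ≤ 8 * y * g ^ 2 := by
    nlinarith [mul_nonneg hy0 hgR.le]
  have e3 : 4 * B ≤ 4 * (y : ℝ) * g ^ 2 := by
    nlinarith [mul_nonneg hy0 hgR.le]
  have e4 : (0 : ℝ) ≤ y * g ^ 2 := by positivity
  nlinarith

/-- [F2e] Proof. The sum is the number of `(δ, (t, t'))`. Map it to `(k, (τ, τ'), (a, d))` with `τ = b t - a h`, `τ' = b t' + d h`, `τ τ' = b D k - h²` (`tau_identity`); the map is injective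
(`t = (τ + a h) / b`, `t' = (τ' - d h) / b`, `c = (a d - 1) / b`). `k` takes at most `2 K + 1` values (`k_bound`), `K = 81 |b| + 20 H y / N + 1`; `b D k - h² ≠ 0` because `n1 ∤ h²`, and it is at most
`V` in absolute value (`y ≤ N ^ 10`), so `card_factor` gives `2 T` pairs `(τ, τ')`; then `ad_count`. -/
theorem rr_sum_b (par : Par N H Z V T) (hp : Pair N H n1 n2) (hW : Win N W) (y : ℕ) (hy : y ≤ N ^ 10)
    (b : ℤ) (hb : b ≠ 0) (hby : b.natAbs ≤ y) :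
    ∑ δ ∈ (ball y).filter (fun δ : SL => δ.1 0 1 = b), (rr W n1 n2 δ : ℝ) ≤
      40 * T ^ 2 * (162 * |(b : ℝ)| + 40 * H * y / N + 3) * (Int.gcd b ((n1 : ℤ) - n2) : ℝ) ^ 2 * y / |(b : ℝ)| := by
  obtain ⟨hN0, hHN, -⟩ := par.facts
  obtain ⟨hh0, hh, hn1h, -, -, hD, -⟩ := hp.facts par
  have hL := par.loss
  have hTpos : (0 : ℝ) < T := lt_of_lt_of_le two_pos hL.two
  have hNpos : 0 < N := lt_of_lt_of_le (by positivity) hN0
  have hbpos : (0 : ℝ) < |(b : ℝ)| := abs_pos.2 (by exact_mod_cast hb)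
  set X : Finset ((_ : SL) × (ℤ × ℤ)) := ((ball y).filter (fun δ : SL => δ.1 0 1 = b)).sigma
    (fun δ : SL => (W ×ˢ W).filter fun p : ℤ × ℤ => ((n1 : ℤ) * n2) ∣
    δ.1 0 1 * p.1 * p.2 - δ.1 0 0 * ((n1 : ℤ) - n2) * p.2 + δ.1 1 1 * ((n1 : ℤ) - n2) * p.1 -
      δ.1 1 0 * ((n1 : ℤ) - n2) ^ 2) with hX
  have hcard : ∑ δ ∈ (ball y).filter (fun δ : SL => δ.1 0 1 = b), (rr W n1 n2 δ : ℝ) = (X.card : ℝ) := by
    rw [hX, Finset.card_sigma, Nat.cast_sum]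
    rfl
  have hmem : ∀ z ∈ X, nm z.1 ≤ y ∧ z.1.1 0 1 = b ∧ z.2.1 ∈ W ∧ z.2.2 ∈ W ∧ ∃ k : ℤ,
      z.1.1 0 1 * z.2.1 * z.2.2 - z.1.1 0 0 * ((n1 : ℤ) - n2) * z.2.2 +
        z.1.1 1 1 * ((n1 : ℤ) - n2) * z.2.1 - z.1.1 1 0 * ((n1 : ℤ) - n2) ^ 2 = (n1 : ℤ) * n2 * k := by
    intro z hz
    rw [hX, Finset.mem_sigma, Finset.mem_filter, Finset.mem_filter, Finset.mem_product, mem_ball] at hz
    obtain ⟨⟨h1, h2⟩, ⟨h3, h4⟩, k, hk⟩ := hz
    exact ⟨h1, h2, h3, h4, k, hk⟩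
  rw [hcard]
  have hD0 : ((n1 : ℤ) * n2) ≠ 0 := by
    have h1 : 0 < n1 * n2 := lt_of_le_of_lt (Nat.zero_le _) hD
    exact_mod_cast h1.ne'
  generalize hhd : (n1 : ℤ) - n2 = h at *
  set EE : ((_ : SL) × (ℤ × ℤ)) → ℤ := fun z => (z.1.1 0 1 * z.2.1 * z.2.2 - z.1.1 0 0 * h * z.2.2 +
        z.1.1 1 1 * h * z.2.1 - z.1.1 1 0 * h ^ 2) / ((n1 : ℤ) * n2) with hEE
  set TT : ((_ : SL) × (ℤ × ℤ)) → ℤ × ℤ := fun z => (z.1.1 0 1 * z.2.1 - z.1.1 0 0 * h,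
        z.1.1 0 1 * z.2.2 + z.1.1 1 1 * h) with hTT
  have hEk : ∀ z ∈ X, z.1.1 0 1 * z.2.1 * z.2.2 - z.1.1 0 0 * h * z.2.2 +
        z.1.1 1 1 * h * z.2.1 - z.1.1 1 0 * h ^ 2 = (n1 : ℤ) * n2 * EE z := by
    intro z hz
    obtain ⟨-, -, -, -, k, hk⟩ := hmem z hz
    have h1 : EE z = k := by
      rw [hEE]
      show (z.1.1 0 1 * z.2.1 * z.2.2 - z.1.1 0 0 * h * z.2.2 +
        z.1.1 1 1 * h * z.2.1 - z.1.1 1 0 * h ^ 2) / ((n1 : ℤ) * n2) = k
      rw [hk]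
      exact Int.mul_ediv_cancel_left _ hD0
    rw [h1, hk]
  have hid : ∀ z ∈ X, (TT z).1 * (TT z).2 + h ^ 2 = b * ((n1 : ℤ) * n2 * EE z) := by
    intro z hz
    obtain ⟨-, h2, -, -, -⟩ := hmem z hz
    rw [← hEk z hz, ← h2]
    exact tau_identity z.1 h z.2.1 z.2.2
  have hgen : ∀ {β' : Type} [DecidableEq β'] (s : Finset ((_ : SL) × (ℤ × ℤ))) (f : ((_ : SL) × (ℤ × ℤ)) → β') (C1 : ℝ),
      (∀ c ∈ s.image f, ((s.filter (fun z => f z = c)).card : ℝ) ≤ C1) →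
      (s.card : ℝ) ≤ (s.image f).card * C1 := by
    intro β' _ s f C1 hC
    rw [Finset.card_eq_sum_card_image f s, Nat.cast_sum]
    refine (Finset.sum_le_card_nsmul _ _ C1 hC).trans ?_
    rw [nsmul_eq_mul]
  have hy1 : 1 ≤ y := le_trans (Int.natAbs_pos.2 hb) hby
  have hyR1 : (1 : ℝ) ≤ y := by exact_mod_cast hy1
  have hVN : ∀ c : ℕ, c ≤ N → ∀ e : ℕ, e + 1 ≤ 100 → c * N ^ e ≤ V := by
    intro c hc e he
    refine le_trans ?_ par.hV
    calc c * N ^ e ≤ N * N ^ e := Nat.mul_le_mul_right _ hc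
      _ = N ^ (e + 1) := by ring
      _ ≤ N ^ 100 := Nat.pow_le_pow_right hNpos he
  have h100 : 1000 ≤ N := le_trans (by norm_num) hN0
  set C3 : ℝ := 20 * T * (Int.gcd b h : ℝ) ^ 2 * y / |(b : ℝ)| with hC3
  have hC3nn : 0 ≤ C3 := by positivity
  -- the innermost count
  have hin : ∀ (k : ℤ) (τ : ℤ × ℤ),
      ((((X.filter (fun z => EE z = k)).filter (fun z => TT z = τ)).card : ℕ) : ℝ) ≤ C3 := by
    intro k τ
    set s := (X.filter (fun z => EE z = k)).filter (fun z => TT z = τ) with hs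
    have hsmem : ∀ z ∈ s, z ∈ X ∧ TT z = τ := by
      intro z hz
      rw [hs, Finset.mem_filter, Finset.mem_filter] at hz
      exact ⟨hz.1.1, hz.2⟩
    have hinj : Set.InjOn (fun z : (_ : SL) × (ℤ × ℤ) => (z.1.1 0 0, z.1.1 1 1))
        (s : Set ((_ : SL) × (ℤ × ℤ))) := by
      intro z hz w hw hzw
      obtain ⟨hz1, hz2⟩ := hsmem z hz
      obtain ⟨hw1, hw2⟩ := hsmem w hw
      obtain ⟨-, hbz, -, -, -⟩ := hmem z hz1
      obtain ⟨-, hbw, -, -, -⟩ := hmem w hw1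
      have ha : z.1.1 0 0 = w.1.1 0 0 := (Prod.ext_iff.1 hzw).1
      have hd : z.1.1 1 1 = w.1.1 1 1 := (Prod.ext_iff.1 hzw).2
      have hTz := hz2.trans hw2.symm
      have h1 : z.1.1 0 1 * z.2.1 - z.1.1 0 0 * h = w.1.1 0 1 * w.2.1 - w.1.1 0 0 * h :=
        (Prod.ext_iff.1 hTz).1
      have h2 : z.1.1 0 1 * z.2.2 + z.1.1 1 1 * h = w.1.1 0 1 * w.2.2 + w.1.1 1 1 * h :=
        (Prod.ext_iff.1 hTz).2
      rw [hbz, hbw, ha] at h1
      rw [hbz, hbw, hd] at h2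
      have h3 : z.2.1 = w.2.1 := mul_left_cancel₀ hb (by linarith)
      have h4 : z.2.2 = w.2.2 := mul_left_cancel₀ hb (by linarith)
      have hdz := z.1.2
      have hdw := w.1.2
      rw [Matrix.det_fin_two] at hdz hdw
      rw [hbz, ha, hd] at hdz
      rw [hbw] at hdw
      have h5 : z.1.1 1 0 = w.1.1 1 0 := mul_left_cancel₀ hb (by linarith)
      have h6 : z.1 = w.1 := by
        apply Subtype.ext
        ext i j
        fin_cases i <;> fin_cases j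
        · exact ha
        · exact hbz.trans hbw.symm
        · exact h5
        · exact hd
      exact Sigma.ext h6 (heq_of_eq (Prod.ext h3 h4))
    rw [← Finset.card_image_of_injOn hinj]
    refine ad_count hL y b h (-τ.1) τ.2 hb hby ?_ _ ?_
    · calc 2 * y ^ 2 ≤ 2 * (N ^ 10) ^ 2 := Nat.mul_le_mul_left _ (Nat.pow_le_pow_left hy 2)
        _ = 2 * N ^ 20 := by ring
        _ ≤ V := hVN 2 (by omega) 20 (by norm_num)
    · intro p hp'
      obtain ⟨z, hz, rfl⟩ := Finset.mem_image.1 hp'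
      obtain ⟨hz1, hz2⟩ := hsmem z hz
      obtain ⟨hnm, hbz, -, -, -⟩ := hmem z hz1
      have had := ad_le z.1 y hnm (by rw [hbz]; exact hb)
      unfold nm at hnm
      simp only [max_le_iff] at hnm
      obtain ⟨⟨h1, h2⟩, h3, h4⟩ := hnm
      have h5 : z.1.1 0 1 * z.2.1 - z.1.1 0 0 * h = τ.1 := (Prod.ext_iff.1 hz2).1
      have h6 : z.1.1 0 1 * z.2.2 + z.1.1 1 1 * h = τ.2 := (Prod.ext_iff.1 hz2).2
      rw [hbz] at h5 h6 had
      refine ⟨?_, ?_, ?_, ?_, had⟩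
      · rw [Int.abs_eq_natAbs]
        exact_mod_cast h1
      · rw [Int.abs_eq_natAbs]
        exact_mod_cast h4
      · exact ⟨z.2.1, by show z.1.1 0 0 * h - -τ.1 = b * z.2.1; linarith⟩
      · exact ⟨-z.2.2, by show z.1.1 1 1 * h - τ.2 = b * -z.2.2; linarith⟩
  -- the middle count
  have hmid : ∀ k : ℤ, (((X.filter (fun z => EE z = k)).card : ℕ) : ℝ) ≤ 2 * T * C3 := by
    intro k
    have h1 := hgen (X.filter (fun z => EE z = k)) TT C3 (fun c _ => hin k c)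
    refine h1.trans (mul_le_mul_of_nonneg_right ?_ hC3nn)
    by_cases hemp : (X.filter (fun z => EE z = k)) = ∅
    · rw [hemp, Finset.image_empty, Finset.card_empty, Nat.cast_zero]
      positivity
    · obtain ⟨z, hz⟩ := Finset.nonempty_iff_ne_empty.2 hemp
      rw [Finset.mem_filter] at hz
      have hz2 := hid z hz.1
      rw [hz.2] at hz2
      refine card_factor hL ((TT z).1 * (TT z).2) ?_ ?_ _ ?_
      · intro h0
        rw [h0, zero_add] at hz2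
        have h3 : (n1 : ℤ) ∣ h ^ 2 := by
          rw [hz2]
          exact ⟨b * (n2 * k), by ring⟩
        exact hn1h ((Nat.prime_iff_prime_int.1 hp.p1).dvd_of_dvd_pow h3)
      · obtain ⟨hnm, hbz, htz, htz', -⟩ := hmem z hz.1
        have ht1 := hW.abs _ htz
        have ht2 := hW.abs _ htz'
        unfold nm at hnm
        simp only [max_le_iff] at hnm
        obtain ⟨⟨h1, h2⟩, h3, h4⟩ := hnm
        have q1 : |z.1.1 0 0| ≤ y := by
          rw [Int.abs_eq_natAbs]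
          exact_mod_cast h1
        have q2 : |z.1.1 0 1| ≤ y := by
          rw [Int.abs_eq_natAbs]
          exact_mod_cast h2
        have q4 : |z.1.1 1 1| ≤ y := by
          rw [Int.abs_eq_natAbs]
          exact_mod_cast h4
        have hHN' : (H : ℤ) ≤ N := by
          have : H ≤ N := by omega
          exact_mod_cast this
        have hhN : |h| ≤ N := hh.trans hHN'
        have hN0' : (0 : ℤ) ≤ N := Int.natCast_nonneg _
        have hy0' : (0 : ℤ) ≤ y := Int.natCast_nonneg _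
        have r1 : |(TT z).1| ≤ 10 * (N * y) := by
          show |z.1.1 0 1 * z.2.1 - z.1.1 0 0 * h| ≤ _
          refine (abs_sub _ _).trans ?_
          rw [abs_mul, abs_mul]
          have s1 : |z.1.1 0 1| * |z.2.1| ≤ y * (9 * N) :=
            mul_le_mul q2 ht1 (abs_nonneg _) hy0'
          have s2 : |z.1.1 0 0| * |h| ≤ y * N := mul_le_mul q1 hhN (abs_nonneg _) hy0'
          linarith
        have r2 : |(TT z).2| ≤ 10 * (N * y) := by
          show |z.1.1 0 1 * z.2.2 + z.1.1 1 1 * h| ≤ _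
          refine (abs_add_le _ _).trans ?_
          rw [abs_mul, abs_mul]
          have s1 : |z.1.1 0 1| * |z.2.2| ≤ y * (9 * N) :=
            mul_le_mul q2 ht2 (abs_nonneg _) hy0'
          have s2 : |z.1.1 1 1| * |h| ≤ y * N := mul_le_mul q4 hhN (abs_nonneg _) hy0'
          linarith
        have r3 : |(TT z).1 * (TT z).2| ≤ (10 * (N * y)) * (10 * (N * y)) := by
          rw [abs_mul]
          exact mul_le_mul r1 r2 (abs_nonneg _) (by positivity)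
        have r4 : ((TT z).1 * (TT z).2).natAbs ≤ (10 * (N * y)) * (10 * (N * y)) := by
          rw [Int.abs_eq_natAbs] at r3
          exact_mod_cast r3
        refine r4.trans ?_
        calc (10 * (N * y)) * (10 * (N * y)) ≤ (10 * (N * N ^ 10)) * (10 * (N * N ^ 10)) := by
              gcongr
          _ = 100 * N ^ 22 := by ring
          _ ≤ V := hVN 100 (by omega) 22 (by norm_num)
      · intro p hp'
        obtain ⟨w, hw, rfl⟩ := Finset.mem_image.1 hp'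
        rw [Finset.mem_filter] at hw
        have hw2 := hid w hw.1
        rw [hw.2] at hw2
        linarith
  -- the outer count
  have hout := hgen X EE (2 * T * C3) (fun c _ => hmid c)
  refine hout.trans ?_
  set Kr : ℝ := 81 * |(b : ℝ)| + 20 * H * y / N + 1 with hKr
  have hKr0 : 0 ≤ Kr := by positivity
  have himg : X.image EE ⊆ Icc (-(⌊Kr⌋₊ : ℤ)) (⌊Kr⌋₊ : ℤ) := by
    intro k hk
    obtain ⟨z, hz, rfl⟩ := Finset.mem_image.1 hk
    obtain ⟨hnm, hbz, htz, htz', -⟩ := hmem z hz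
    have h1 : (z.1.1 0 1 * z.2.1 - z.1.1 0 0 * ((n1 : ℤ) - n2)) *
        (z.1.1 0 1 * z.2.2 + z.1.1 1 1 * ((n1 : ℤ) - n2)) + ((n1 : ℤ) - n2) ^ 2 =
        z.1.1 0 1 * ((n1 : ℤ) * n2 * EE z) := by
      rw [hhd, hbz]
      have h3 := hid z hz
      rw [hTT] at h3
      simp only [hbz] at h3
      exact h3
    have h2 := k_bound par hp hW y z.1 hnm (by rw [hbz]; exact hb) z.2.1 z.2.2 (EE z) htz htz' h1
    rw [hbz] at h2
    have h3 : ((EE z).natAbs : ℝ) ≤ Kr := by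
      rw [Nat.cast_natAbs, Int.cast_abs]
      exact h2
    have h4 : (EE z).natAbs ≤ ⌊Kr⌋₊ := Nat.le_floor h3
    rw [Finset.mem_Icc]
    omega
  have hc1 : ((X.image EE).card : ℝ) ≤ 2 * Kr + 1 := by
    have h1 := Finset.card_le_card himg
    rw [Int.card_Icc] at h1
    have h2 : (X.image EE).card ≤ 2 * ⌊Kr⌋₊ + 1 := by omega
    have h3 : ((X.image EE).card : ℝ) ≤ 2 * (⌊Kr⌋₊ : ℝ) + 1 := by exact_mod_cast h2
    have h4 := Nat.floor_le hKr0
    linarith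
  have hfin : ((X.image EE).card : ℝ) * (2 * T * C3) ≤ (2 * Kr + 1) * (2 * T * C3) :=
    mul_le_mul_of_nonneg_right hc1 (by positivity)
  refine hfin.trans (le_of_eq ?_)
  rw [hC3, hKr]
  field_simp
  ring

end Pool.Agent.TII
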