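import Pool.Agent.TII.F4

/-!
# [TII-F5] THEOREM FD2 from the main case, and the weighted sums for COR 6.1
-/

set_option autoImplicit false

namespace Pool.Agent.TII

open Finset

/-- the statement of the main case of FD2 (proved in the files of helper62) -/
def MainCase (N H Z : ℕ) (T : ℝ) (n1 n2 : ℕ) (W : Finset ℤ) : Prop :=
  ∀ y C : ℕ, N ≤ C → y ≤ C * N → C ≤ y → y ≤ N ^ 2 * Z ^ 5 →
    ∑ δ ∈ (ball y).filter (fun δ : SL => C ≤ (δ.1 0 1).natAbs ∧ (δ.1 0 1).natAbs < 2 * C ∧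
      ¬ (n1 : ℤ) ∣ δ.1 0 1 ∧ ¬ (n2 : ℤ) ∣ δ.1 0 1), (rr W n1 n2 δ : ℝ) ^ 2 ≤
      10 ^ 20 * T ^ 20 * H ^ 20 * (y * N ^ 2 + y ^ 2)

variable {N H Z V : ℕ} {T : ℝ} {n1 n2 : ℕ} {W : Finset ℤ}

private theorem F5_bounds (par : Par N H Z V T) :
    2 ≤ T ∧ (1 : ℝ) ≤ H ∧ N ^ 2 * Z ^ 5 ≤ N ^ 10 ∧ N ^ 10 ≤ V ∧ 1 ≤ N := by
  obtain ⟨f1, f2, f3⟩ := par.facts
  have hT : 2 ≤ T := par.loss.two
  have hH : (1 : ℝ) ≤ H := by exact_mod_cast par.hH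
  have hZ : (2 : ℝ) ≤ Z := by exact_mod_cast par.hZ
  have hN1 : 1 ≤ N := le_trans (by norm_num) f1
  refine ⟨hT, hH, ?_, ?_, hN1⟩
  · have h1 : (Z : ℝ) ≤ 10000 * T * H * Z := by
      have h2 : (1 : ℝ) ≤ 10000 * T * H := by nlinarith
      nlinarith
    have h3 : (Z : ℝ) ^ 5 ≤ N := by
      calc (Z : ℝ) ^ 5 ≤ (Z : ℝ) ^ 100 := pow_le_pow_right₀ (by linarith) (by norm_num)
        _ ≤ (10000 * T * H * Z) ^ 100 := pow_le_pow_left₀ (by linarith) h1 _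
        _ ≤ N := par.hN
    have h4 : Z ^ 5 ≤ N := by exact_mod_cast h3
    calc N ^ 2 * Z ^ 5 ≤ N ^ 2 * N := Nat.mul_le_mul_left _ h4
      _ = N ^ 3 := by ring
      _ ≤ N ^ 10 := Nat.pow_le_pow_right hN1 (by norm_num)
  · exact (Nat.pow_le_pow_right hN1 (by norm_num)).trans par.hV

private theorem F5_nm_pos (g : SL) : 1 ≤ nm g := by
  by_contra h
  have h0 : nm g = 0 := by omega
  simp only [nm] at h0
  have e1 : g.1 0 0 = 0 := by omega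
  have e2 : g.1 0 1 = 0 := by omega
  have hdet := g.2
  rw [Matrix.det_fin_two, e1, e2] at hdet
  norm_num at hdet

private theorem F5_sum_le (R : ℕ) (hR1 : 1 ≤ R) (w : SL → ℝ) (hw : ∀ g, 0 ≤ w g) (c d : ℝ)
    (hc : 0 ≤ c) (hd : 0 ≤ d) (T : ℝ) (hT : (Nat.log 2 (2 * R ^ 2) : ℝ) + 1 ≤ T)
    (h : ∀ j : ℕ, 2 ^ (j + 1) ≤ 4 * R ^ 2 →
      ∑ g ∈ ball (2 ^ (j + 1)), w g ≤ c * 4 ^ (j + 1) + d * 2 ^ (j + 1)) :
    ∑ g ∈ ball (2 * R ^ 2), w g / nm g ≤ 16 * c * R ^ 2 + 2 * d * T := by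
  have hR2 : 2 * R ^ 2 ≠ 0 := by positivity
  have h1 := dyadic (ball (2 * R ^ 2)) nm (2 * R ^ 2) (fun g hg => ⟨F5_nm_pos g, mem_ball.1 hg⟩) w
    (fun g _ => hw g)
  refine h1.trans ?_
  have h2 : ∀ j ∈ range (Nat.log 2 (2 * R ^ 2) + 1),
      (1 / 2 ^ j : ℝ) * ∑ g ∈ (ball (2 * R ^ 2)).filter (fun g => nm g < 2 ^ (j + 1)), w g ≤
        4 * c * 2 ^ j + 2 * d := by
    intro j hj
    have hj1 : j ≤ Nat.log 2 (2 * R ^ 2) := by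
      have := mem_range.1 hj
      omega
    have hj2 : 2 ^ j ≤ 2 * R ^ 2 :=
      (Nat.pow_le_pow_right (by norm_num) hj1).trans (Nat.pow_log_le_self 2 hR2)
    have hj3 : 2 ^ (j + 1) ≤ 4 * R ^ 2 := by
      rw [pow_succ]
      omega
    have h3 : ∑ g ∈ (ball (2 * R ^ 2)).filter (fun g => nm g < 2 ^ (j + 1)), w g ≤
        ∑ g ∈ ball (2 ^ (j + 1)), w g := by
      refine sum_le_sum_of_subset_of_nonneg ?_ (fun g _ _ => hw g)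
      intro g hg
      rw [mem_filter] at hg
      exact mem_ball.2 hg.2.le
    have h4 := h3.trans (h j hj3)
    have h5 : (0 : ℝ) < 2 ^ j := by positivity
    have e4 : (4 : ℝ) ^ (j + 1) = 4 * (2 ^ j * 2 ^ j) := by
      rw [pow_succ, ← mul_pow]
      norm_num
      ring
    have e2 : (2 : ℝ) ^ (j + 1) = 2 * 2 ^ j := by ring
    rw [e4, e2] at h4
    rw [one_div, inv_mul_le_iff₀ h5]
    calc _ ≤ c * (4 * (2 ^ j * 2 ^ j)) + d * (2 * 2 ^ j) := h4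
      _ = 2 ^ j * (4 * c * 2 ^ j + 2 * d) := by ring
  refine (sum_le_sum h2).trans ?_
  rw [sum_add_distrib, ← mul_sum, sum_const, card_range, nsmul_eq_mul]
  have h6 : ∑ j ∈ range (Nat.log 2 (2 * R ^ 2) + 1), (2 : ℝ) ^ j ≤ 4 * R ^ 2 := by
    have h7 : ∑ j ∈ range (Nat.log 2 (2 * R ^ 2) + 1), (2 : ℝ) ^ j =
        2 ^ (Nat.log 2 (2 * R ^ 2) + 1) - 1 := by
      rw [geom_sum_eq (by norm_num)]
      norm_num
    have h8 : ((2 ^ Nat.log 2 (2 * R ^ 2) : ℕ) : ℝ) ≤ ((2 * R ^ 2 : ℕ) : ℝ) := by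
      exact_mod_cast Nat.pow_log_le_self 2 hR2
    push_cast at h8
    rw [h7, pow_succ]
    linarith
  have h9 : 4 * c * ∑ j ∈ range (Nat.log 2 (2 * R ^ 2) + 1), (2 : ℝ) ^ j ≤ 4 * c * (4 * R ^ 2) :=
    mul_le_mul_of_nonneg_left h6 (by linarith)
  have h10 : ((Nat.log 2 (2 * R ^ 2) + 1 : ℕ) : ℝ) * (2 * d) ≤ T * (2 * d) := by
    refine mul_le_mul_of_nonneg_right ?_ (by linarith)
    push_cast
    exact hT
  linarith

private theorem F5_log (par : Par N H Z V T) (R : ℕ)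
    (hR : 4 * R ^ 2 ≤ N ^ 2 * Z ^ 5) : (Nat.log 2 (2 * R ^ 2) : ℝ) + 1 ≤ T := by
  obtain ⟨hT, hH, h1, h2, hN1⟩ := F5_bounds par
  have h3 : 2 * R ^ 2 ≤ V := by
    calc 2 * R ^ 2 ≤ 4 * R ^ 2 := by omega
      _ ≤ N ^ 2 * Z ^ 5 := hR
      _ ≤ V := h1.trans h2
  have h4 : Nat.log 2 (2 * R ^ 2) ≤ Nat.log 2 V := Nat.log_mono_right h3
  have h5 : (Nat.log 2 (2 * R ^ 2) : ℝ) ≤ Nat.log 2 V := by exact_mod_cast h4
  have := par.loss.log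
  linarith

/-- [F5a] THEOREM FD2. Proof. `fd2_small`, `fd2_common`, and for the `b` with `N ≤ |b|`, `y ≤ |b| N`, prime to `n1 n2`: with `C₀ = max N ⌈y / N⌉` cover `[C₀, y]` by the ranges `[C₀ 2 ^ j, C₀ 2 ^ (j + 1))`,
`j ≤ Nat.log 2 V` (only those with `C₀ 2 ^ j ≤ y` matter), at most `T` of them. -/
theorem fd2 (par : Par N H Z V T) (hp : Pair N H n1 n2) (hW : Win N W) (hm : MainCase N H Z T n1 n2 W)
    (y : ℕ) (hy1 : 1 ≤ y) (hy : y ≤ N ^ 2 * Z ^ 5) :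
    ∑ δ ∈ ball y, (rr W n1 n2 δ : ℝ) ^ 2 ≤ 10 ^ 21 * T ^ 21 * H ^ 20 * (y * N ^ 2 + y ^ 2) := by
  classical
  obtain ⟨hT, hH, hb1, hb2, hN1⟩ := F5_bounds par
  have hy10 : y ≤ N ^ 10 := hy.trans hb1
  have hyV : y ≤ V := hy10.trans hb2
  have hs := fd2_small par hp hW y hy1 hy10
  have hc := fd2_common par hp hW y hy1 hy10
  -- the cover
  obtain ⟨C₀, hC₀⟩ : ∃ C₀, C₀ = max N ((y + N - 1) / N) := ⟨_, rfl⟩
  have hC1 : N ≤ C₀ := by rw [hC₀]; exact le_max_left _ _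
  have hC2 : y ≤ C₀ * N := by
    have h1 : (y + N - 1) / N ≤ C₀ := by rw [hC₀]; exact le_max_right _ _
    have h2 := Nat.div_add_mod (y + N - 1) N
    have h3 := Nat.mod_lt (y + N - 1) (show 0 < N by omega)
    have h4 : N * ((y + N - 1) / N) ≤ N * C₀ := Nat.mul_le_mul_left _ h1
    rw [mul_comm C₀ N]
    omega
  have hC3 : ∀ b : ℕ, N ≤ b → y ≤ b * N → C₀ ≤ b := by
    intro b hb hyb
    rw [hC₀]
    refine max_le hb ?_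
    have h1 : (y + N - 1) / N < b + 1 := by
      rw [Nat.div_lt_iff_lt_mul (by omega), add_mul, one_mul]
      omega
    omega
  have hmain : ∀ j ∈ range (Nat.log 2 V + 1),
      ∑ δ ∈ (ball y).filter (fun δ : SL => C₀ * 2 ^ j ≤ (δ.1 0 1).natAbs ∧
        (δ.1 0 1).natAbs < 2 * (C₀ * 2 ^ j) ∧ ¬ (n1 : ℤ) ∣ δ.1 0 1 ∧ ¬ (n2 : ℤ) ∣ δ.1 0 1),
        (rr W n1 n2 δ : ℝ) ^ 2 ≤ 10 ^ 20 * T ^ 20 * H ^ 20 * (y * N ^ 2 + y ^ 2) := by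
    intro j _
    have hpow : 1 ≤ 2 ^ j := Nat.one_le_two_pow
    have hge : C₀ ≤ C₀ * 2 ^ j := Nat.le_mul_of_pos_right _ hpow
    by_cases hCy : C₀ * 2 ^ j ≤ y
    · exact hm y (C₀ * 2 ^ j) (hC1.trans hge) (hC2.trans (Nat.mul_le_mul_right _ hge)) hCy hy
    · have hempty : (ball y).filter (fun δ : SL => C₀ * 2 ^ j ≤ (δ.1 0 1).natAbs ∧
          (δ.1 0 1).natAbs < 2 * (C₀ * 2 ^ j) ∧ ¬ (n1 : ℤ) ∣ δ.1 0 1 ∧ ¬ (n2 : ℤ) ∣ δ.1 0 1) = ∅ := by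
        rw [filter_eq_empty_iff]
        rintro δ hδ ⟨h1, -⟩
        have h2 := mem_ball.1 hδ
        have h3 : (δ.1 0 1).natAbs ≤ nm δ := by
          unfold nm
          exact le_max_of_le_left (le_max_right _ _)
        omega
      rw [hempty, sum_empty]
      positivity
  -- the decomposition
  have hcov : ∑ δ ∈ ball y, (rr W n1 n2 δ : ℝ) ^ 2 ≤
      ∑ δ ∈ (ball y).filter (fun δ : SL => (δ.1 0 1).natAbs < N ∨ (δ.1 0 1).natAbs * N < y),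
        (rr W n1 n2 δ : ℝ) ^ 2 +
      (∑ δ ∈ (ball y).filter (fun δ : SL => N ≤ (δ.1 0 1).natAbs ∧ y ≤ (δ.1 0 1).natAbs * N ∧
        ((n1 : ℤ) ∣ δ.1 0 1 ∨ (n2 : ℤ) ∣ δ.1 0 1)), (rr W n1 n2 δ : ℝ) ^ 2 +
      ∑ j ∈ range (Nat.log 2 V + 1),
        ∑ δ ∈ (ball y).filter (fun δ : SL => C₀ * 2 ^ j ≤ (δ.1 0 1).natAbs ∧
          (δ.1 0 1).natAbs < 2 * (C₀ * 2 ^ j) ∧ ¬ (n1 : ℤ) ∣ δ.1 0 1 ∧ ¬ (n2 : ℤ) ∣ δ.1 0 1),
          (rr W n1 n2 δ : ℝ) ^ 2) := by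
    simp only [sum_filter]
    rw [sum_comm (s := range (Nat.log 2 V + 1)), ← sum_add_distrib, ← sum_add_distrib]
    refine sum_le_sum fun δ hδ => ?_
    have hr : (0 : ℝ) ≤ (rr W n1 n2 δ : ℝ) ^ 2 := by positivity
    have hnn : ∀ P : Prop, [Decidable P] → (0 : ℝ) ≤ if P then (rr W n1 n2 δ : ℝ) ^ 2 else 0 := by
      intro P _
      split_ifs
      · exact hr
      · exact le_refl _
    have hsum0 : (0 : ℝ) ≤ ∑ j ∈ range (Nat.log 2 V + 1),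
        if (C₀ * 2 ^ j ≤ (δ.1 0 1).natAbs ∧ (δ.1 0 1).natAbs < 2 * (C₀ * 2 ^ j) ∧
          ¬ (n1 : ℤ) ∣ δ.1 0 1 ∧ ¬ (n2 : ℤ) ∣ δ.1 0 1) then (rr W n1 n2 δ : ℝ) ^ 2 else 0 :=
      sum_nonneg fun j _ => hnn _
    by_cases h1 : (δ.1 0 1).natAbs < N ∨ (δ.1 0 1).natAbs * N < y
    · rw [if_pos h1]
      have := hnn (N ≤ (δ.1 0 1).natAbs ∧ y ≤ (δ.1 0 1).natAbs * N ∧
        ((n1 : ℤ) ∣ δ.1 0 1 ∨ (n2 : ℤ) ∣ δ.1 0 1))
      linarith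
    · push Not at h1
      by_cases h2 : (n1 : ℤ) ∣ δ.1 0 1 ∨ (n2 : ℤ) ∣ δ.1 0 1
      · rw [if_pos (show N ≤ (δ.1 0 1).natAbs ∧ y ≤ (δ.1 0 1).natAbs * N ∧
          ((n1 : ℤ) ∣ δ.1 0 1 ∨ (n2 : ℤ) ∣ δ.1 0 1) from ⟨h1.1, h1.2, h2⟩)]
        have := hnn ((δ.1 0 1).natAbs < N ∨ (δ.1 0 1).natAbs * N < y)
        linarith
      · -- the dyadic range
        have hb := hC3 _ h1.1 h1.2
        have hC0 : 0 < C₀ := by omega
        have hby : (δ.1 0 1).natAbs ≤ y := by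
          have h3 : (δ.1 0 1).natAbs ≤ nm δ := by
            unfold nm
            exact le_max_of_le_left (le_max_right _ _)
          exact h3.trans (mem_ball.1 hδ)
        obtain ⟨q, hq⟩ : ∃ q, q = (δ.1 0 1).natAbs / C₀ := ⟨_, rfl⟩
        have hq1 : 1 ≤ q := by
          rw [hq]
          exact (Nat.one_le_div_iff hC0).2 hb
        have hj1 : 2 ^ Nat.log 2 q ≤ q := Nat.pow_log_le_self 2 (by omega)
        have hj2 : q < 2 ^ (Nat.log 2 q + 1) := Nat.lt_pow_succ_log_self (by norm_num) q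
        have hd := Nat.div_add_mod (δ.1 0 1).natAbs C₀
        have hd' := Nat.mod_lt (δ.1 0 1).natAbs hC0
        rw [← hq] at hd
        have hk1 : C₀ * 2 ^ Nat.log 2 q ≤ (δ.1 0 1).natAbs := by
          have := Nat.mul_le_mul_left C₀ hj1
          omega
        have hk2 : (δ.1 0 1).natAbs < 2 * (C₀ * 2 ^ Nat.log 2 q) := by
          have h5 : C₀ * (q + 1) ≤ C₀ * 2 ^ (Nat.log 2 q + 1) := Nat.mul_le_mul_left C₀ hj2
          rw [pow_succ] at h5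
          have h6 : C₀ * (q + 1) = C₀ * q + C₀ := by ring
          have h7 : C₀ * (2 ^ Nat.log 2 q * 2) = 2 * (C₀ * 2 ^ Nat.log 2 q) := by ring
          omega
        have hmem : Nat.log 2 q ∈ range (Nat.log 2 V + 1) := by
          rw [mem_range]
          have h8 : q ≤ V := by
            rw [hq]
            exact (Nat.div_le_self _ _).trans (hby.trans hyV)
          have := Nat.log_mono_right (b := 2) h8
          omega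
        push Not at h2
        have h9 := single_le_sum (f := fun j =>
          if (C₀ * 2 ^ j ≤ (δ.1 0 1).natAbs ∧ (δ.1 0 1).natAbs < 2 * (C₀ * 2 ^ j) ∧
            ¬ (n1 : ℤ) ∣ δ.1 0 1 ∧ ¬ (n2 : ℤ) ∣ δ.1 0 1) then (rr W n1 n2 δ : ℝ) ^ 2 else 0)
          (fun j _ => hnn _) hmem
        beta_reduce at h9
        rw [if_pos (show _ ∧ _ from ⟨hk1, hk2, h2.1, h2.2⟩)] at h9
        have h10 := hnn ((δ.1 0 1).natAbs < N ∨ (δ.1 0 1).natAbs * N < y)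
        have h11 := hnn (N ≤ (δ.1 0 1).natAbs ∧ y ≤ (δ.1 0 1).natAbs * N ∧
          ((n1 : ℤ) ∣ δ.1 0 1 ∨ (n2 : ℤ) ∣ δ.1 0 1))
        linarith
  have hsum := sum_le_sum hmain
  rw [sum_const, card_range, nsmul_eq_mul] at hsum
  refine hcov.trans ?_
  have hlog : ((Nat.log 2 V + 1 : ℕ) : ℝ) ≤ T := by
    have := par.loss.log
    push_cast
    linarith
  have hE : (0 : ℝ) ≤ y * N ^ 2 + y ^ 2 := by positivity
  have hT4 : T ^ 4 ≤ T ^ 20 := pow_le_pow_right₀ (by linarith) (by norm_num)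
  have hH2 : (H : ℝ) ^ 2 ≤ H ^ 20 := pow_le_pow_right₀ hH (by norm_num)
  have hTH : T ^ 4 * (H : ℝ) ^ 2 ≤ T ^ 20 * H ^ 20 :=
    mul_le_mul hT4 hH2 (by positivity) (by positivity)
  have hTH0 : (0 : ℝ) ≤ T ^ 20 * H ^ 20 := by positivity
  have e1 : ((Nat.log 2 V + 1 : ℕ) : ℝ) * (10 ^ 20 * T ^ 20 * H ^ 20 * (y * N ^ 2 + y ^ 2)) ≤
      T * (10 ^ 20 * T ^ 20 * H ^ 20 * (y * N ^ 2 + y ^ 2)) :=
    mul_le_mul_of_nonneg_right hlog (by positivity)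
  have e2 : 10000 * T ^ 4 * H ^ 2 * (y * N ^ 2 + y ^ 2) ≤
      10000 * (T ^ 20 * H ^ 20) * (y * N ^ 2 + y ^ 2) := by
    refine mul_le_mul_of_nonneg_right ?_ hE
    linarith
  have e3 : 20000 * T ^ 4 * H ^ 2 * (y : ℝ) ^ 2 ≤
      20000 * (T ^ 20 * H ^ 20) * (y * N ^ 2 + y ^ 2) := by
    refine mul_le_mul (by linarith) ?_ (by positivity) (by positivity)
    have : (0 : ℝ) ≤ y * N ^ 2 := by positivity
    linarith
  have e4 : 30000 * (T ^ 20 * H ^ 20) * (y * N ^ 2 + y ^ 2) ≤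
      T * (10 ^ 20 * T ^ 20 * H ^ 20 * (y * N ^ 2 + y ^ 2)) := by
    have h1 : (30000 : ℝ) ≤ T * 10 ^ 20 := by nlinarith
    have h2 : (0 : ℝ) ≤ T ^ 20 * H ^ 20 * (y * N ^ 2 + y ^ 2) := mul_nonneg hTH0 hE
    calc 30000 * (T ^ 20 * H ^ 20) * (y * N ^ 2 + y ^ 2)
        = 30000 * (T ^ 20 * H ^ 20 * (y * N ^ 2 + y ^ 2)) := by ring
      _ ≤ (T * 10 ^ 20) * (T ^ 20 * H ^ 20 * (y * N ^ 2 + y ^ 2)) :=
          mul_le_mul_of_nonneg_right h1 h2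
      _ = _ := by ring
  have e5 : (0 : ℝ) ≤ T * (10 ^ 20 * T ^ 20 * H ^ 20 * (y * N ^ 2 + y ^ 2)) := by positivity
  calc _ ≤ 10000 * (T ^ 20 * H ^ 20) * (y * N ^ 2 + y ^ 2) +
        (20000 * (T ^ 20 * H ^ 20) * (y * N ^ 2 + y ^ 2) +
        T * (10 ^ 20 * T ^ 20 * H ^ 20 * (y * N ^ 2 + y ^ 2))) := by linarith
    _ ≤ 10 * (T * (10 ^ 20 * T ^ 20 * H ^ 20 * (y * N ^ 2 + y ^ 2))) := by linarith
    _ = 10 ^ 21 * T ^ 21 * H ^ 20 * (y * N ^ 2 + y ^ 2) := by ring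

/-- [F5b] Proof. `dyadic` with `f = nm`, `V := 2 R ^ 2`, then `fd1` for `y = 2 ^ (j + 1) - 1` or `2 ^ (j + 1)`: `∑_j 2 ^ (-j) (10000 T⁴ H 4 ^ (j + 1) + 6 N 2 ^ (j + 1))`, `2 ^ j ≤ 2 R²`, the number of `j` is at most `T`. -/
theorem fd1_weighted (par : Par N H Z V T) (hp : Pair N H n1 n2) (hW : Win N W) (R : ℕ) (hR1 : 1 ≤ R)
    (hR : 4 * R ^ 2 ≤ N ^ 2 * Z ^ 5) :
    ∑ δ ∈ ball (2 * R ^ 2), (rr W n1 n2 δ : ℝ) / nm δ ≤ 160000 * T ^ 4 * H * R ^ 2 + 12 * T * N := by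
  obtain ⟨hT, hH, hb1, hb2, hN1⟩ := F5_bounds par
  have h := F5_sum_le R hR1 (fun δ => (rr W n1 n2 δ : ℝ)) (fun _ => Nat.cast_nonneg _)
    (10000 * T ^ 4 * H) (6 * N) (by positivity) (by positivity) T (F5_log par R hR) (by
      intro j hj
      have h1 := fd1 par hp hW (2 ^ (j + 1)) Nat.one_le_two_pow ((hj.trans hR).trans hb1)
      refine h1.trans (le_of_eq ?_)
      have e4 : (4 : ℝ) ^ (j + 1) = (2 ^ (j + 1)) ^ 2 := by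
        rw [← pow_mul, mul_comm, pow_mul]
        norm_num
      rw [e4]
      push_cast
      ring)
  refine h.trans (le_of_eq ?_)
  ring

/-- [F5c] the same with `fd2`: `∑_j 2 ^ (-j) c (2 ^ (j + 1) N² + 4 ^ (j + 1)) ≤ c (2 T N² + 16 R²)` -/
theorem fd2_weighted (par : Par N H Z V T) (hp : Pair N H n1 n2) (hW : Win N W) (hm : MainCase N H Z T n1 n2 W)
    (R : ℕ) (hR1 : 1 ≤ R) (hR : 4 * R ^ 2 ≤ N ^ 2 * Z ^ 5) :
    ∑ δ ∈ ball (2 * R ^ 2), (rr W n1 n2 δ : ℝ) ^ 2 / nm δ ≤ 10 ^ 23 * T ^ 22 * H ^ 20 * (N ^ 2 + R ^ 2) := by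
  obtain ⟨hT, hH, hb1, hb2, hN1⟩ := F5_bounds par
  have h := F5_sum_le R hR1 (fun δ => (rr W n1 n2 δ : ℝ) ^ 2) (fun _ => by positivity)
    (10 ^ 21 * T ^ 21 * H ^ 20) (10 ^ 21 * T ^ 21 * H ^ 20 * N ^ 2) (by positivity) (by positivity)
    T (F5_log par R hR) (by
      intro j hj
      have h1 := fd2 par hp hW hm (2 ^ (j + 1)) Nat.one_le_two_pow (hj.trans hR)
      refine h1.trans (le_of_eq ?_)
      have e4 : (4 : ℝ) ^ (j + 1) = (2 ^ (j + 1)) ^ 2 := by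
        rw [← pow_mul, mul_comm, pow_mul]
        norm_num
      rw [e4]
      push_cast
      ring)
  refine h.trans ?_
  have hc : (0 : ℝ) ≤ 10 ^ 21 * T ^ 21 * H ^ 20 := by positivity
  have hR2 : (0 : ℝ) ≤ (R : ℝ) ^ 2 := by positivity
  have hN2 : (0 : ℝ) ≤ (N : ℝ) ^ 2 := by positivity
  have h2 : 16 * (R : ℝ) ^ 2 + 2 * T * N ^ 2 ≤ 100 * T * (N ^ 2 + R ^ 2) := by nlinarith
  calc 16 * (10 ^ 21 * T ^ 21 * H ^ 20) * (R : ℝ) ^ 2 +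
        2 * (10 ^ 21 * T ^ 21 * H ^ 20 * N ^ 2) * T
      = 10 ^ 21 * T ^ 21 * H ^ 20 * (16 * (R : ℝ) ^ 2 + 2 * T * N ^ 2) := by ring
    _ ≤ 10 ^ 21 * T ^ 21 * H ^ 20 * (100 * T * (N ^ 2 + R ^ 2)) :=
        mul_le_mul_of_nonneg_left h2 hc
    _ = 10 ^ 23 * T ^ 22 * H ^ 20 * (N ^ 2 + R ^ 2) := by ring

end Pool.Agent.TII
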