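import Pool.Agent.TII.FM

/-!
# [TII-FD] interface of block F (the two f-density theorems)
-/

set_option autoImplicit false

namespace Pool.Agent.TII

open Finset

theorem FD_aux {N H Z V : ℕ} {T : ℝ} (par : Par N H Z V T) (y : ℕ) (hy : y ≤ N ^ 2 * Z ^ 5) :
    y ≤ N ^ 10 := by
  have hf := Par.facts par
  have hN : 1 ≤ N := le_trans (Nat.one_le_pow _ _ (by norm_num)) hf.1
  have hZN : Z ^ 5 ≤ N := by
    have h1 := par.hN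
    have hT := par.loss.two
    have hH := par.hH
    have hZ := par.hZ
    have hH' : (1 : ℝ) ≤ H := by exact_mod_cast hH
    have hZ' : (2 : ℝ) ≤ Z := by exact_mod_cast hZ
    have hTH : (1 : ℝ) ≤ 10000 * T * H := by nlinarith
    have h2 : (Z : ℝ) ≤ 10000 * T * H * Z := by nlinarith
    have h3 : (Z : ℝ) ^ 100 ≤ (10000 * T * H * Z) ^ 100 := pow_le_pow_left₀ (by linarith) h2 100
    have h4 : (Z : ℝ) ^ 5 ≤ (Z : ℝ) ^ 100 := pow_le_pow_right₀ (by linarith) (by norm_num)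
    have h5 : ((Z ^ 5 : ℕ) : ℝ) ≤ (N : ℝ) := by
      push_cast
      linarith
    exact_mod_cast h5
  calc y ≤ N ^ 2 * Z ^ 5 := hy
    _ ≤ N ^ 2 * N := Nat.mul_le_mul_left _ hZN
    _ = N ^ 3 := by ring
    _ ≤ N ^ 10 := Nat.pow_le_pow_right hN (by norm_num)

/-- [FD1] (TII.md, 6) -/
theorem FD1 : ∃ C : ℝ, ∃ k : ℕ, 0 < C ∧ ∀ (N H Z V : ℕ) (T : ℝ) (W : Finset ℤ) (n1 n2 y : ℕ),
    Par N H Z V T → Win N W → Pair N H n1 n2 → 1 ≤ y → y ≤ N ^ 2 * Z ^ 5 →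
      ∑ δ ∈ ball y, (rr W n1 n2 δ : ℝ) ≤ C * T ^ k * (H * (y : ℝ) ^ 2 + y * N) := by
  refine ⟨10000, 4, by norm_num, ?_⟩
  intro N H Z V T W n1 n2 y par hW hp hy1 hy
  have h := fd1 par hp hW y hy1 (FD_aux par y hy)
  have hT := par.loss.two
  have hT4 : (1 : ℝ) ≤ T ^ 4 := one_le_pow₀ (by linarith)
  have hyN : (0 : ℝ) ≤ (y : ℝ) * N := by positivity
  nlinarith

/-- [FD2] (TII.md, 6) -/
theorem FD2 : ∃ C : ℝ, ∃ k : ℕ, 0 < C ∧ ∀ (N H Z V : ℕ) (T : ℝ) (W : Finset ℤ) (n1 n2 y : ℕ),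
    Par N H Z V T → Win N W → Pair N H n1 n2 → 1 ≤ y → y ≤ N ^ 2 * Z ^ 5 →
      ∑ δ ∈ ball y, (rr W n1 n2 δ : ℝ) ^ 2 ≤ C * T ^ k * (H : ℝ) ^ k * (y * (N : ℝ) ^ 2 + (y : ℝ) ^ 2) := by
  refine ⟨10 ^ 21, 21, by norm_num, ?_⟩
  intro N H Z V T W n1 n2 y par hW hp hy1 hy
  refine le_trans (fd2 par hp hW (main_case par hp hW) y hy1 hy) ?_
  have hH : (1 : ℝ) ≤ H := by exact_mod_cast par.hH
  have hT := par.loss.two
  have h1 : (H : ℝ) ^ 20 ≤ (H : ℝ) ^ 21 := pow_le_pow_right₀ hH (by norm_num)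
  have h2 : (0 : ℝ) ≤ 10 ^ 21 * T ^ 21 := by positivity
  have h3 : (0 : ℝ) ≤ y * (N : ℝ) ^ 2 + (y : ℝ) ^ 2 := by positivity
  exact mul_le_mul_of_nonneg_right (mul_le_mul_of_nonneg_left h1 h2) h3

end Pool.Agent.TII
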