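import Pool.Agent.TII.FM0

/-!
# [TII-FM9] pairs in residue classes under a hyperbola
-/

set_option autoImplicit false

namespace Pool.Agent.TII.FM

open Finset

variable {N H Z V : ℕ} {T : ℝ} {n1 n2 C : ℕ} {D h W : ℤ} {G : ℕ}

theorem FM9_cnt (b : ℤ) (hb : 0 < b) (x : ℝ) (hx : 0 ≤ x) (S : Finset ℤ) (hS : ∀ d ∈ S, |(d : ℝ)| ≤ x)
    (hd : ∀ d ∈ S, ∀ d' ∈ S, b ∣ d - d') : (S.card : ℝ) ≤ 2 * x / b + 2 := by
  have hbR : (0 : ℝ) < b := by exact_mod_cast hb
  have h1 : S.card ≤ (Icc ⌊-(x / b)⌋ ⌊x / b⌋).card := by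
    apply Finset.card_le_card_of_injOn (fun d : ℤ => ⌊(d : ℝ) / b⌋)
    · intro d hd
      have h2 := abs_le.1 (hS d hd)
      simp only [Finset.coe_Icc, Set.mem_Icc]
      constructor
      · apply Int.floor_le_floor
        rw [← neg_div]
        exact div_le_div_of_nonneg_right h2.1 hbR.le
      · apply Int.floor_le_floor
        exact div_le_div_of_nonneg_right h2.2 hbR.le
    · intro d hd1 d' hd1' heq
      simp only at heq
      have h3 := Int.abs_sub_lt_one_of_floor_eq_floor heq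
      rw [← sub_div, abs_div, abs_of_pos hbR, div_lt_one hbR] at h3
      have h4 : |d - d'| < b := by exact_mod_cast h3
      obtain ⟨k, hk⟩ := hd d hd1 d' hd1'
      rw [hk, abs_mul, abs_of_pos hb] at h4
      have h5 : |k| < 1 := by
        by_contra hcon
        push Not at hcon
        nlinarith
      have h6 : k = 0 := Int.abs_lt_one_iff.1 h5
      rw [h6, mul_zero] at hk
      omega
  have h7 : ((S.card : ℕ) : ℝ) ≤ (((⌊x / b⌋ + 1 - ⌊-(x / b)⌋).toNat : ℕ) : ℝ) := by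
    rw [Int.card_Icc] at h1
    exact_mod_cast h1
  have h8 : ⌊-(x / b)⌋ ≤ ⌊x / b⌋ := by
    apply Int.floor_le_floor
    have : 0 ≤ x / b := by positivity
    linarith
  have h9 : (((⌊x / b⌋ + 1 - ⌊-(x / b)⌋).toNat : ℕ) : ℝ) = ⌊x / b⌋ + 1 - ⌊-(x / b)⌋ := by
    have h10 : (((⌊x / b⌋ + 1 - ⌊-(x / b)⌋).toNat : ℕ) : ℤ) = ⌊x / b⌋ + 1 - ⌊-(x / b)⌋ :=
      Int.toNat_of_nonneg (by omega)
    have h11 := congrArg (fun z : ℤ => (z : ℝ)) h10
    push_cast at h11
    exact h11
  rw [h9] at h7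
  have h12 := Int.floor_le (x / (b : ℝ))
  have h13 := Int.lt_floor_add_one (-(x / (b : ℝ)))
  have h14 : 2 * x / b = x / b + x / b := by ring
  rw [h14]
  linarith

/-- [FM9] The number of `(a, d)` with `a ≡ a₀`, `d ≡ d₀` mod `b`, `|a|, |d| ≤ y`, `|a d| ≤ 4 C y`, `C ≤ b < 2C`, `C ≤ y`
is at most `100 T y / C`.
PROOF. WLOG `0 ≤ a₀ < b`; `a = a₀ + j b`. The number of `d ≡ d₀` mod `b` with `|d| ≤ x` is at most
`2 x / b + 1`. For `j ∈ {0, -1}` (two values of `a`): at most `2 y / b + 1 ≤ 3 y / C` values of `d` each. For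
`j ≥ 1`: `|a| ≥ j b`; for `j ≤ -2`: `|a| ≥ (|j| - 1) b ≥ |j| b / 2`; so in any case `|a| ≥ |j| b / 2`, `|j| ≤ 2 y / b ≤ 2 y / C`
and the number of `d` is at most `2 · (4 C y / |a|) / b + 1 ≤ 16 C y / (|j| b²) + 1 ≤ 16 y / (|j| C) + 1`.
Sum over `0 < |j| ≤ 2 y / C`: `≤ 32 (y / C) ∑_{j ≤ 2y/C} 1/j + 4 y / C ≤ 32 T y / C + 4 y / C` (`harm_le`, `hT`). -/
theorem count_ad (T : ℝ) (C y : ℕ) (hC : 1 ≤ C) (hCy : C ≤ y) (hT : (Nat.log 2 (2 * y) : ℝ) + 2 ≤ T)
    (b a0 d0 : ℤ) (hb : (C : ℤ) ≤ b) (hb2 : b < 2 * C) :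
    (((Icc (-(y : ℤ)) y ×ˢ Icc (-(y : ℤ)) y).filter fun p : ℤ × ℤ =>
      b ∣ p.1 - a0 ∧ b ∣ p.2 - d0 ∧ |p.1 * p.2| ≤ 4 * C * y).card : ℝ) ≤ 100 * T * ((y : ℝ) / C) := by
  have hb0 : 0 < b := by omega
  have hCR : (0 : ℝ) < C := by exact_mod_cast hC
  have hbR : (0 : ℝ) < b := by exact_mod_cast hb0
  have hbC : (C : ℝ) ≤ b := by exact_mod_cast hb
  have hy1 : 1 ≤ y := by omega
  have hyR : (0 : ℝ) < y := by exact_mod_cast hy1
  have hyC : (1 : ℝ) ≤ y / C := by
    rw [le_div_iff₀ hCR, one_mul]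
    exact_mod_cast hCy
  set P := (Icc (-(y : ℤ)) y ×ˢ Icc (-(y : ℤ)) y).filter fun p : ℤ × ℤ =>
      b ∣ p.1 - a0 ∧ b ∣ p.2 - d0 ∧ |p.1 * p.2| ≤ 4 * C * y with hP
  set r := a0 % b with hr
  have hr0 : 0 ≤ r := Int.emod_nonneg _ (by omega)
  have hrb : r < b := Int.emod_lt_of_pos _ hb0
  have hra : b ∣ a0 - r := Int.dvd_self_sub_emod
  set K := y / C + 1 with hK
  have hmem : ∀ p ∈ P, ∃ j : ℤ, p.1 = r + b * j ∧ |j| ≤ K ∧ (-(y : ℤ) ≤ p.1 ∧ p.1 ≤ y) ∧
      (-(y : ℤ) ≤ p.2 ∧ p.2 ≤ y) ∧ b ∣ p.2 - d0 ∧ |p.1 * p.2| ≤ 4 * C * y := by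
    intro p hp
    rw [hP, Finset.mem_filter, Finset.mem_product, Finset.mem_Icc, Finset.mem_Icc] at hp
    obtain ⟨⟨h1, h2⟩, h3, h4, h5⟩ := hp
    obtain ⟨j, hj⟩ := (dvd_add h3 hra)
    have hj' : p.1 = r + b * j := by linarith
    refine ⟨j, hj', ?_, h1, h2, h4, h5⟩
    have hyC' : (y : ℤ) < C * ((y / C : ℕ) + 1) := by
      exact_mod_cast Nat.lt_mul_div_succ y (by omega)
    rw [abs_le, hK]
    push_cast
    constructor
    · by_contra hcon
      push Not at hcon
      have h6 : j ≤ -((y / C : ℕ) : ℤ) - 2 := by push_cast; omega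
      have h7 : b * j ≤ b * (-((y / C : ℕ) : ℤ) - 2) := mul_le_mul_of_nonneg_left h6 hb0.le
      have h8 : (C : ℤ) * ((y / C : ℕ) + 1) ≤ b * ((y / C : ℕ) + 1) :=
        mul_le_mul_of_nonneg_right hb (by positivity)
      nlinarith
    · by_contra hcon
      push Not at hcon
      have h6 : ((y / C : ℕ) : ℤ) + 1 ≤ j := by push_cast; omega
      have h7 : b * (((y / C : ℕ) : ℤ) + 1) ≤ b * j := mul_le_mul_of_nonneg_left h6 hb0.le
      have h8 : (C : ℤ) * ((y / C : ℕ) + 1) ≤ b * ((y / C : ℕ) + 1) :=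
        mul_le_mul_of_nonneg_right hb (by positivity)
      nlinarith
  set F : ℕ → ℝ := fun k => 16 * (y / C) * (1 / k) + 4 with hF
  have hfib : ∀ j : ℤ, ((P.filter fun p => (p.1 - r) / b = j).card : ℝ) ≤
      if j = 0 then 4 * ((y : ℝ) / C) else 16 * (y / C) * (1 / (j.natAbs : ℝ)) + 2 := by
    intro j
    set Q := P.filter fun p => (p.1 - r) / b = j with hQ
    have hQ1 : ∀ p ∈ Q, p.1 = r + b * j := by
      intro p hp
      rw [hQ, Finset.mem_filter] at hp
      obtain ⟨j', hj', -⟩ := hmem p hp.1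
      have h1 : (p.1 - r) / b = j' := by
        rw [hj', add_sub_cancel_left, Int.mul_ediv_cancel_left _ hb0.ne']
      rw [← hp.2, h1, hj']
    have hcard : (Q.image Prod.snd).card = Q.card := by
      apply Finset.card_image_of_injOn
      intro p hp p' hp' heq
      exact Prod.ext ((hQ1 p hp).trans (hQ1 p' hp').symm) heq
    rw [← hcard]
    have hdv : ∀ d ∈ Q.image Prod.snd, ∀ d' ∈ Q.image Prod.snd, b ∣ d - d' := by
      intro d hd d' hd'
      obtain ⟨p, hp, rfl⟩ := Finset.mem_image.1 hd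
      obtain ⟨p', hp', rfl⟩ := Finset.mem_image.1 hd'
      obtain ⟨-, -, -, -, -, h1, -⟩ := hmem p (Finset.mem_of_mem_filter p hp)
      obtain ⟨-, -, -, -, -, h2, -⟩ := hmem p' (Finset.mem_of_mem_filter p' hp')
      have h3 := dvd_sub h1 h2
      rwa [sub_sub_sub_cancel_right] at h3
    have hyb : ∀ d ∈ Q.image Prod.snd, |(d : ℝ)| ≤ y := by
      intro d hd
      obtain ⟨p, hp, rfl⟩ := Finset.mem_image.1 hd
      obtain ⟨-, -, -, -, h1, -, -⟩ := hmem p (Finset.mem_of_mem_filter p hp)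
      rw [abs_le]
      exact ⟨by exact_mod_cast h1.1, by exact_mod_cast h1.2⟩
    have hb2 : 2 * (y : ℝ) / b + 2 ≤ 2 * (y / C) + 2 := by
      have h1 : 2 * (y : ℝ) / b ≤ 2 * y / C := div_le_div_of_nonneg_left (by positivity) hCR hbC
      have h2 : 2 * (y : ℝ) / C = 2 * (y / C) := by ring
      linarith
    split_ifs with hj
    · have h1 := FM9_cnt b hb0 y hyR.le _ hyb hdv
      linarith
    · have hj1 : 1 ≤ j.natAbs := by omega
      by_cases hj2 : j = -1
      · have h1 := FM9_cnt b hb0 y hyR.le _ hyb hdv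
        rw [hj2]
        norm_num
        linarith
      · have hjR : (1 : ℝ) ≤ (j.natAbs : ℝ) := by exact_mod_cast hj1
        have hbd : ∀ d ∈ Q.image Prod.snd, |(d : ℝ)| ≤ 8 * C * y / (j.natAbs * b) := by
          intro d hd
          obtain ⟨p, hp, rfl⟩ := Finset.mem_image.1 hd
          obtain ⟨-, -, -, -, -, -, h1⟩ := hmem p (Finset.mem_of_mem_filter p hp)
          have h2 := hQ1 p hp
          have h3 : (j.natAbs : ℤ) * b ≤ 2 * |p.1| := by
            rw [h2]
            rcases lt_or_ge j 0 with hneg | hpos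
            · have h4 : j ≤ -2 := by omega
              have h5 : (j.natAbs : ℤ) = -j := by omega
              rw [h5]
              have h6 : -(r + b * j) ≤ |r + b * j| := neg_le_abs _
              nlinarith
            · have h5 : (j.natAbs : ℤ) = j := by omega
              rw [h5]
              have h6 : (r + b * j) ≤ |r + b * j| := le_abs_self _
              nlinarith
          have h3R : (j.natAbs : ℝ) * b ≤ 2 * |(p.1 : ℝ)| := by
            have h3' := (Int.cast_le (R := ℝ)).2 h3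
            rw [Int.cast_mul, Int.cast_mul, Int.cast_natCast, Int.cast_abs, Int.cast_ofNat] at h3'
            exact h3'
          have h1R : |(p.1 : ℝ)| * |(p.2 : ℝ)| ≤ 4 * C * y := by
            rw [← abs_mul]
            exact_mod_cast h1
          rw [le_div_iff₀ (by positivity)]
          have h7 : |(p.2 : ℝ)| * (j.natAbs * b) ≤ |(p.2 : ℝ)| * (2 * |(p.1 : ℝ)|) :=
            mul_le_mul_of_nonneg_left h3R (abs_nonneg _)
          linarith
        have h1 := FM9_cnt b hb0 _ (by positivity) _ hbd hdv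
        refine h1.trans ?_
        have h2 : 2 * (8 * (C : ℝ) * y / (j.natAbs * b)) / b ≤ 16 * (y / C) * (1 / (j.natAbs : ℝ)) := by
          have h3 : 2 * (8 * (C : ℝ) * y / (j.natAbs * b)) / b =
              (16 * y / (j.natAbs : ℝ)) * (C / (b * b)) := by
            field_simp
            ring
          have h4 : (C : ℝ) / (b * b) ≤ 1 / C := by
            rw [div_le_div_iff₀ (by positivity) hCR]
            nlinarith
          rw [h3]
          calc (16 * y / (j.natAbs : ℝ)) * (C / (b * b)) ≤ (16 * y / (j.natAbs : ℝ)) * (1 / C) :=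
                mul_le_mul_of_nonneg_left h4 (by positivity)
            _ = _ := by ring
        linarith
  have hmaps : ∀ p ∈ P, ((p.1 - r) / b).natAbs ∈ range (K + 1) := by
    intro p hp
    obtain ⟨j', hj', hjK, -⟩ := hmem p hp
    have h1 : (p.1 - r) / b = j' := by
      rw [hj', add_sub_cancel_left, Int.mul_ediv_cancel_left _ hb0.ne']
    rw [h1, Finset.mem_range]
    rw [Int.abs_eq_natAbs] at hjK
    omega
  have hsum := Finset.card_eq_sum_card_fiberwise hmaps
  have hk : ∀ k ∈ range (K + 1), ((P.filter fun p => ((p.1 - r) / b).natAbs = k).card : ℝ) ≤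
      if k = 0 then 4 * ((y : ℝ) / C) else 2 * (16 * (y / C) * (1 / (k : ℝ)) + 2) := by
    intro k _
    have h1 : (P.filter fun p => ((p.1 - r) / b).natAbs = k) ⊆
        (P.filter fun p => (p.1 - r) / b = (k : ℤ)) ∪ (P.filter fun p => (p.1 - r) / b = -(k : ℤ)) := by
      intro p hp
      rw [Finset.mem_filter] at hp
      refine Finset.mem_union.2 ?_
      rcases Int.natAbs_eq ((p.1 - r) / b) with h | h
      · left
        exact Finset.mem_filter.2 ⟨hp.1, by rw [h, hp.2]⟩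
      · right
        exact Finset.mem_filter.2 ⟨hp.1, by rw [h, hp.2]⟩
    split_ifs with hk0
    · subst hk0
      have h2 := hfib 0
      rw [if_pos rfl] at h2
      refine le_trans ?_ h2
      have h3 : (P.filter fun p => ((p.1 - r) / b).natAbs = 0) ⊆ (P.filter fun p => (p.1 - r) / b = 0) := by
        intro p hp
        rw [Finset.mem_filter, Int.natAbs_eq_zero] at hp
        exact Finset.mem_filter.2 hp
      exact_mod_cast Finset.card_le_card h3
    · have h2 := hfib (k : ℤ)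
      have h3 := hfib (-(k : ℤ))
      rw [if_neg (by omega), Int.natAbs_natCast] at h2
      rw [if_neg (by omega), Int.natAbs_neg, Int.natAbs_natCast] at h3
      have h4 : ((P.filter fun p => ((p.1 - r) / b).natAbs = k).card : ℝ) ≤
          ((P.filter fun p => (p.1 - r) / b = (k : ℤ)).card : ℝ) +
            ((P.filter fun p => (p.1 - r) / b = -(k : ℤ)).card : ℝ) := by
        exact_mod_cast (Finset.card_le_card h1).trans (Finset.card_union_le _ _)
      linarith
  have hK1 : 1 ≤ K := Nat.le_add_left 1 (y / C)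
  have hKy : K ≤ 2 * y := by
    have h1 : y / C ≤ y := Nat.div_le_self _ _
    exact (Nat.add_le_add_right h1 1).trans (by omega)
  have hlog : (Nat.log 2 K : ℝ) ≤ Nat.log 2 (2 * y) := by
    exact_mod_cast Nat.log_mono_right hKy
  have hharm : ∑ k ∈ Icc 1 K, (1 : ℝ) / k ≤ T := by
    have := harm_le K hK1
    linarith
  have hKR : (K : ℝ) ≤ 2 * (y / C) := by
    have h1 : ((y / C : ℕ) : ℝ) ≤ y / C := Nat.cast_div_le
    rw [hK]
    push_cast
    linarith
  have hT2 : (2 : ℝ) ≤ T := by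
    have : (0 : ℝ) ≤ (Nat.log 2 (2 * y) : ℝ) := by positivity
    linarith
  have hfinal : (P.card : ℝ) ≤ 4 * (y / C) + ∑ k ∈ Icc 1 K, 2 * (16 * ((y : ℝ) / C) * (1 / (k : ℝ)) + 2) := by
    rw [hsum]
    push_cast
    refine (Finset.sum_le_sum hk).trans ?_
    rw [Finset.sum_range_succ', if_pos rfl, add_comm]
    apply add_le_add_right
    have e1 : Icc 1 K = Ico (0 + 1) (K + 1) := by
      ext k
      rw [Finset.mem_Icc, Finset.mem_Ico]
      omega
    rw [e1, ← Finset.sum_Ico_add' (fun k : ℕ => 2 * (16 * ((y : ℝ) / C) * (1 / (k : ℝ)) + 2)) 0 K 1,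
      ← Finset.range_eq_Ico]
    apply le_of_eq
    refine Finset.sum_congr rfl fun k _ => ?_
    rw [if_neg (Nat.succ_ne_zero k)]
  refine hfinal.trans ?_
  rw [← Finset.mul_sum, Finset.sum_add_distrib, ← Finset.mul_sum, Finset.sum_const, Nat.card_Icc,
    nsmul_eq_mul]
  have h20 : 16 * ((y : ℝ) / C) * ∑ k ∈ Icc 1 K, (1 : ℝ) / k ≤ 16 * ((y : ℝ) / C) * T :=
    mul_le_mul_of_nonneg_left hharm (by positivity)
  have h21 : ((K + 1 - 1 : ℕ) : ℝ) = K := by
    rw [Nat.add_sub_cancel]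
  rw [h21]
  have h22 : 2 * ((y : ℝ) / C) ≤ T * (y / C) := mul_le_mul_of_nonneg_right hT2 (by positivity)
  nlinarith

end Pool.Agent.TII.FM
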