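import Pool.Agent.TII.FM0

/-!
# [TII-FM6] TT2: fixed (g, g) and the parallel case
-/

set_option autoImplicit false

namespace Pool.Agent.TII.FM

open Finset

variable {N H Z V : ℕ} {T : ℝ} {n1 n2 C : ℕ} {D h W : ℤ} {G : ℕ}

/-- `E(a) ≠ 0` -/
private theorem FM6_ne (hM : MC N H Z V T n1 n2 C D h W G) (g g' a : ℤ) (hg : g ≠ 0)
    (hg' : g' ≠ 0) (ha : 1 ≤ a) : g * h - g' * a ^ 2 * h + D * g * g' * a ≠ 0 := by
  intro h0
  have hDpos := hM.D_pos
  have hh0 := hM.h0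
  have e0 : g * h = g' * a * (a * h - D * g) := by linear_combination h0
  have e1 : |g| * |h| = |g'| * |a| * |a * h - D * g| := by
    rw [← abs_mul, ← abs_mul, ← abs_mul, e0]
  have hgpos : 1 ≤ |g| := Int.one_le_abs hg
  have hg'pos : 1 ≤ |g'| := Int.one_le_abs hg'
  have hapos : |a| = a := abs_of_pos (by omega)
  have hhpos : 1 ≤ |h| := Int.one_le_abs hh0
  -- `2 h² < D`
  have hD2 : 2 * |h| ^ 2 < D := by
    have h1 := hM.hH
    have h2 := hM.D_lo
    have h3 : ((20000 * H : ℕ) : ℤ) ≤ N := by exact_mod_cast hM.HN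
    push_cast at h3
    have h4 : (20000 : ℤ) * |h| ≤ N := by linarith
    nlinarith [abs_nonneg h]
  have hD1 : 2 * |h| < D := by nlinarith
  set y := |a * h - D * g| with hy
  have hy0 : 0 ≤ y := abs_nonneg _
  have k1 : |a| * y ≤ |g| * |h| := by
    rw [e1, mul_assoc]
    exact le_mul_of_one_le_left (mul_nonneg (abs_nonneg _) hy0) hg'pos
  rcases le_or_gt (D * |g|) (2 * y) with hc | hc
  · -- large
    have k2 : y ≤ |g| * |h| := by
      refine le_trans ?_ k1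
      rw [hapos]
      exact le_mul_of_one_le_left hy0 ha
    nlinarith
  · have k3 : D * |g| ≤ y + |a| * |h| := by
      have : D * |g| = |D * g| := by rw [abs_mul, abs_of_pos hDpos]
      rw [this, ← abs_mul]
      calc |D * g| = |a * h - (a * h - D * g)| := by ring_nf
        _ ≤ |a * h| + |a * h - D * g| := abs_sub _ _
        _ = y + |a * h| := by rw [hy]; ring
    have k4 : D * |g| < 2 * (|a| * |h|) := by linarith
    have k5 : y = 0 := by
      by_contra hne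
      have hy1 : 1 ≤ y := by omega
      have k6 : D * |g| * y ≤ 2 * (|a| * |h|) * y := mul_le_mul_of_nonneg_right k4.le hy0
      have k7 : 2 * (|a| * |h|) * y ≤ 2 * |h| * (|g| * |h|) := by
        calc 2 * (|a| * |h|) * y = 2 * |h| * (|a| * y) := by ring
          _ ≤ 2 * |h| * (|g| * |h|) := mul_le_mul_of_nonneg_left k1 (by positivity)
      have k8 : D * |g| ≤ 2 * |h| ^ 2 * |g| := by
        calc D * |g| = D * |g| * 1 := by ring
          _ ≤ D * |g| * y := mul_le_mul_of_nonneg_left hy1 (by positivity)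
          _ ≤ 2 * |h| * (|g| * |h|) := k6.trans k7
          _ = 2 * |h| ^ 2 * |g| := by ring
      have := le_of_mul_le_mul_right k8 (by omega : 0 < |g|)
      omega
    have k9 : a * h - D * g = 0 := abs_eq_zero.1 k5
    rw [k9, mul_zero] at e0
    rcases mul_eq_zero.1 e0 with h1 | h1
    · exact hg h1
    · exact hh0 h1

/-- the size of `E(a)` -/
private theorem FM6_size (hM : MC N H Z V T n1 n2 C D h W G) (g g' a : ℤ) (hg : g.natAbs ≤ G)
    (hg' : g'.natAbs ≤ G) (ha : 1 ≤ a) (ha2 : a < 2 * C) :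
    (g * h - g' * a ^ 2 * h + D * g * g' * a).natAbs ≤ N ^ 100 := by
  have hG := hM.G_le_N2
  have hC := hM.C_le
  have hD := hM.D_hi
  have hDpos := hM.D_pos
  have hH := hM.hH
  have hHN := hM.HN
  have hN1 := hM.N1
  have hN0 : (0 : ℤ) ≤ N := by positivity
  have b1 : |g| ≤ (N : ℤ) ^ 2 := by
    rw [← Int.natCast_natAbs]; exact_mod_cast hg.trans hG
  have b2 : |g'| ≤ (N : ℤ) ^ 2 := by
    rw [← Int.natCast_natAbs]; exact_mod_cast hg'.trans hG
  have b3 : |h| ≤ (N : ℤ) := by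
    have : ((20000 * H : ℕ) : ℤ) ≤ N := by exact_mod_cast hHN
    push_cast at this
    have h3 : (0 : ℤ) ≤ H := by positivity
    linarith
  have b4 : |a| ≤ 2 * (N : ℤ) ^ 3 := by
    rw [abs_of_pos (by omega)]
    have : (C : ℤ) ≤ (N : ℤ) ^ 3 := by exact_mod_cast hC
    linarith
  have b5 : |D| ≤ 4 * (N : ℤ) ^ 2 := by rw [abs_of_pos hDpos]; exact hD
  have t1 : |g * h| ≤ (N : ℤ) ^ 2 * N := by
    rw [abs_mul]; exact mul_le_mul b1 b3 (abs_nonneg _) (by positivity)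
  have t2 : |g' * a ^ 2 * h| ≤ (N : ℤ) ^ 2 * (2 * (N : ℤ) ^ 3) ^ 2 * N := by
    rw [abs_mul, abs_mul, abs_pow]
    exact mul_le_mul (mul_le_mul b2 (pow_le_pow_left₀ (abs_nonneg _) b4 2) (by positivity)
      (by positivity)) b3 (abs_nonneg _) (by positivity)
  have t3 : |D * g * g' * a| ≤ 4 * (N : ℤ) ^ 2 * (N : ℤ) ^ 2 * (N : ℤ) ^ 2 * (2 * (N : ℤ) ^ 3) := by
    rw [abs_mul, abs_mul, abs_mul]
    exact mul_le_mul (mul_le_mul (mul_le_mul b5 b1 (abs_nonneg _) (by positivity)) b2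
      (abs_nonneg _) (by positivity)) b4 (abs_nonneg _) (by positivity)
  have t4 : |g * h - g' * a ^ 2 * h + D * g * g' * a| ≤ (N : ℤ) ^ 2 * N +
      (N : ℤ) ^ 2 * (2 * (N : ℤ) ^ 3) ^ 2 * N +
      4 * (N : ℤ) ^ 2 * (N : ℤ) ^ 2 * (N : ℤ) ^ 2 * (2 * (N : ℤ) ^ 3) :=
    calc _ ≤ |g * h - g' * a ^ 2 * h| + |D * g * g' * a| := abs_add_le _ _
      _ ≤ |g * h| + |g' * a ^ 2 * h| + |D * g * g' * a| := by
          have := abs_sub (g * h) (g' * a ^ 2 * h)
          linarith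
      _ ≤ _ := by linarith
  have hNZ : (20000 : ℤ) ≤ N := by exact_mod_cast hN1
  have p9 : (N : ℤ) ^ 3 ≤ (N : ℤ) ^ 9 := pow_le_pow_right₀ (by omega) (by norm_num)
  have t5 : (N : ℤ) ^ 2 * N + (N : ℤ) ^ 2 * (2 * (N : ℤ) ^ 3) ^ 2 * N +
      4 * (N : ℤ) ^ 2 * (N : ℤ) ^ 2 * (N : ℤ) ^ 2 * (2 * (N : ℤ) ^ 3) ≤ (N : ℤ) ^ 10 := by
    calc _ = (N : ℤ) ^ 3 + 12 * (N : ℤ) ^ 9 := by ring
      _ ≤ 13 * (N : ℤ) ^ 9 := by linarith
      _ ≤ N * (N : ℤ) ^ 9 := mul_le_mul_of_nonneg_right (by omega) (by positivity)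
      _ = (N : ℤ) ^ 10 := by ring
  have t6 : (N : ℤ) ^ 10 ≤ (N : ℤ) ^ 100 := pow_le_pow_right₀ (by omega) (by norm_num)
  have t7 : |g * h - g' * a ^ 2 * h + D * g * g' * a| ≤ (N : ℤ) ^ 100 := t4.trans (t5.trans t6)
  rw [← Int.natCast_natAbs] at t7
  exact_mod_cast t7

/-- [FM6a] PROOF. Put `E(a) = g h - g' a² h + D g g' a`. For `1 ≤ a < 2C`: `E(a) ≠ 0`. [If `E(a) = 0` then
`g h = g' a (a h - D g)`. If `2 |a h - D g| ≥ D |g|` then `2 |g h| ≥ D |g|`, so `D ≤ 2 H`, contradiction. Else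
`2 |a h| > D |g|`, so `|g h| ≥ |a| |a h - D g|` and `2 |h| |a| > D |g|` give
`D |g| |a h - D g| < 2 h² |g|`, so `|a h - D g| < 2 h² / D < 1`, `a h = D g`, `g h = 0`, contradiction.]
`(b, a) ∈ BA` has `a ≠ 0` (`gcd (a, b) = 1`, `b ≥ C ≥ 2`). For each of the `< 2C` values of `a`, `b` is a
positive divisor of `E(a) ≠ 0`, `|E(a)| ≤ N^100` (`G ≤ N²`, `C ≤ N³`, `D ≤ 4 N²`, `H ≤ N`): at most `T`
values of `b` (`MC.tau`). -/
theorem fixed_g (hM : MC N H Z V T n1 n2 C D h W G) (g : ℤ × ℤ) (hg : g.1 ∈ nz G)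
    (hg' : g.2 ∈ nz G) :
    (((BA D C).filter fun u => u.1 ∣ g.1 * h - g.2 * u.2 ^ 2 * h + D * g.1 * g.2 * u.2).card : ℝ) ≤
      2 * T * C := by
  rw [mem_nz] at hg hg'
  have hT := hM.T2
  have hC0 : 20000 ≤ C := hM.N1.trans hM.lo
  set F := (BA D C).filter fun u => u.1 ∣ g.1 * h - g.2 * u.2 ^ 2 * h + D * g.1 * g.2 * u.2 with hF
  have hmem : ∀ u ∈ F, u.2 ∈ Ico (1 : ℤ) (2 * C) := by
    intro u hu
    rw [hF, mem_filter, mem_BA] at hu
    obtain ⟨⟨hb, ha, _, hgcd, _⟩, _⟩ := hu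
    rw [mem_Ico]
    refine ⟨?_, ha.2⟩
    by_contra hc
    have h0 : u.2 = 0 := by omega
    rw [h0, Int.gcd_zero_left] at hgcd
    omega
  have hfib : ∀ a ∈ Ico (1 : ℤ) (2 * C), ((F.filter fun u => u.2 = a).card : ℝ) ≤ T := by
    intro a ha
    rw [mem_Ico] at ha
    have hne := FM6_ne hM g.1 g.2 a hg.1 hg'.1 ha.1
    have hsz := FM6_size hM g.1 g.2 a hg.2 hg'.2 ha.1 ha.2
    refine le_trans ?_ (hM.tau _ (Int.natAbs_pos.2 hne) hsz)
    have : (F.filter fun u => u.2 = a).card ≤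
        (g.1 * h - g.2 * a ^ 2 * h + D * g.1 * g.2 * a).natAbs.divisors.card := by
      refine Finset.card_le_card_of_injOn (fun u => u.1.natAbs) ?_ ?_
      · intro u hu
        have hu' : u ∈ F.filter fun u => u.2 = a := hu
        rw [mem_filter, hF, mem_filter] at hu'
        obtain ⟨⟨_, hd⟩, h2⟩ := hu'
        rw [h2] at hd
        show u.1.natAbs ∈ (Nat.divisors _ : Finset ℕ)
        rw [Nat.mem_divisors]
        exact ⟨Int.natAbs_dvd_natAbs.2 hd, (Int.natAbs_pos.2 hne).ne'⟩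
      · intro u hu v hv huv
        have hu' : u ∈ F.filter fun u => u.2 = a := hu
        have hv' : v ∈ F.filter fun u => u.2 = a := hv
        rw [mem_filter, hF, mem_filter, mem_BA] at hu' hv'
        have huv' : u.1.natAbs = v.1.natAbs := huv
        apply Prod.ext
        · omega
        · rw [hu'.2, hv'.2]
    exact_mod_cast this
  have h1 : F.card = ∑ a ∈ Ico (1 : ℤ) (2 * C), (F.filter fun u => u.2 = a).card :=
    Finset.card_eq_sum_card_fiberwise hmem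
  rw [h1]
  push_cast
  refine (Finset.sum_le_sum hfib).trans ?_
  rw [Finset.sum_const, Int.card_Ico, nsmul_eq_mul]
  have h2 : (((2 * (C : ℤ) - 1).toNat : ℕ) : ℝ) ≤ 2 * C := by
    have : (2 * (C : ℤ) - 1).toNat ≤ 2 * C := by omega
    exact_mod_cast this
  calc (((2 * (C : ℤ) - 1).toNat : ℕ) : ℝ) * T ≤ 2 * C * T :=
        mul_le_mul_of_nonneg_right h2 (by linarith)
    _ = 2 * T * C := by ring

/-- [FM6b] PROOF. `cnt D h C g f ≤ 2 T C` by `fixed_g`. The number of `(g, f)` with `g' f = g f'` is at most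
`(2G)² · 2T`: choose `g = g.1` and `f' = f.2` (`4 G²` choices), then `g.2 * f.1 = m := g.1 * f.2`,
`0 < |m| ≤ G² ≤ N^100`: `g.2 ∣ m`, at most `2 T` choices, and `f.1` is determined. -/
theorem parallel (hM : MC N H Z V T n1 n2 C D h W G) :
    ∑ p ∈ ((nz G ×ˢ nz G) ×ˢ (nz G ×ˢ nz G)).filter
        (fun p : (ℤ × ℤ) × (ℤ × ℤ) => p.1.2 * p.2.1 = p.1.1 * p.2.2), (cnt D h C p.1 p.2 : ℝ) ≤
      16 * T ^ 2 * C * (G : ℝ) ^ 2 := by
  have hT := hM.T2
  set S := ((nz G ×ˢ nz G) ×ˢ (nz G ×ˢ nz G)).filter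
    (fun p : (ℤ × ℤ) × (ℤ × ℤ) => p.1.2 * p.2.1 = p.1.1 * p.2.2) with hS
  have hcnt : ∀ p ∈ S, (cnt D h C p.1 p.2 : ℝ) ≤ 2 * T * C := by
    intro p hp
    rw [hS, mem_filter, mem_product, mem_product] at hp
    refine le_trans ?_ (fixed_g hM p.1 hp.1.1.1 hp.1.1.2)
    have : cnt D h C p.1 p.2 ≤ ((BA D C).filter fun u =>
        u.1 ∣ p.1.1 * h - p.1.2 * u.2 ^ 2 * h + D * p.1.1 * p.1.2 * u.2).card := by
      unfold cnt
      apply Finset.card_le_card
      intro u hu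
      rw [mem_filter] at hu ⊢
      exact ⟨hu.1, hu.2.1⟩
    exact_mod_cast this
  have hcard : (S.card : ℝ) ≤ 8 * T * (G : ℝ) ^ 2 := by
    have hmem : ∀ p ∈ S, (p.1.1, p.2.2) ∈ nz G ×ˢ nz G := by
      intro p hp
      rw [hS, mem_filter, mem_product, mem_product, mem_product] at hp
      rw [mem_product]
      exact ⟨hp.1.1.1, hp.1.2.2⟩
    have hfib : ∀ k ∈ nz G ×ˢ nz G,
        ((S.filter fun p => (p.1.1, p.2.2) = k).card : ℝ) ≤ 2 * T := by
      intro k hk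
      rw [mem_product, mem_nz, mem_nz] at hk
      obtain ⟨⟨k1, k2⟩, k3, k4⟩ := hk
      have hm0 : k.1 * k.2 ≠ 0 := mul_ne_zero k1 k3
      have hm1 : (k.1 * k.2).natAbs ≤ N ^ 100 := by
        rw [Int.natAbs_mul]
        calc k.1.natAbs * k.2.natAbs ≤ G * G := Nat.mul_le_mul k2 k4
          _ ≤ N ^ 2 * N ^ 2 := Nat.mul_le_mul hM.G_le_N2 hM.G_le_N2
          _ = N ^ 4 := by ring
          _ ≤ N ^ 100 := Nat.pow_le_pow_right (by have := hM.N1; omega) (by norm_num)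
      have htau := hM.tau _ (Int.natAbs_pos.2 hm0) hm1
      have h1 : (S.filter fun p => (p.1.1, p.2.2) = k).card ≤
          ((k.1 * k.2).natAbs.divisors.image (fun n : ℕ => (n : ℤ)) ∪
            (k.1 * k.2).natAbs.divisors.image (fun n : ℕ => -(n : ℤ))).card := by
        refine Finset.card_le_card_of_injOn (fun p => p.1.2) ?_ ?_
        · intro p hp
          have hp' : p ∈ S.filter fun p => (p.1.1, p.2.2) = k := hp
          rw [mem_filter, hS, mem_filter] at hp'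
          obtain ⟨⟨_, he⟩, hk'⟩ := hp'
          have hdvd : p.1.2 ∣ k.1 * k.2 := by
            rw [← hk']
            exact ⟨p.2.1, he.symm⟩
          have hd2 : p.1.2.natAbs ∈ (k.1 * k.2).natAbs.divisors := by
            rw [Nat.mem_divisors]
            exact ⟨Int.natAbs_dvd_natAbs.2 hdvd, (Int.natAbs_pos.2 hm0).ne'⟩
          show p.1.2 ∈ (_ : Finset ℤ)
          rw [mem_union, mem_image, mem_image]
          rcases Int.natAbs_eq p.1.2 with h1 | h1
          · exact Or.inl ⟨_, hd2, h1.symm⟩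
          · exact Or.inr ⟨_, hd2, h1.symm⟩
        · intro p hp q hq hpq
          have hp' : p ∈ S.filter fun p => (p.1.1, p.2.2) = k := hp
          have hq' : q ∈ S.filter fun p => (p.1.1, p.2.2) = k := hq
          rw [mem_filter, hS, mem_filter, mem_product, mem_product, mem_nz, mem_nz] at hp' hq'
          obtain ⟨⟨⟨⟨_, hp12⟩, _⟩, hpe⟩, hpk⟩ := hp'
          obtain ⟨⟨⟨⟨_, hq12⟩, _⟩, hqe⟩, hqk⟩ := hq'
          have hpq' : p.1.2 = q.1.2 := hpq
          have e1 : p.1.1 = q.1.1 := by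
            have := congrArg Prod.fst (hpk.trans hqk.symm); exact this
          have e2 : p.2.2 = q.2.2 := by
            have := congrArg Prod.snd (hpk.trans hqk.symm); exact this
          have e3 : p.2.1 = q.2.1 := by
            apply mul_left_cancel₀ hp12.1
            rw [hpe, hpq', hqe, e1, e2]
          exact Prod.ext (Prod.ext e1 hpq') (Prod.ext e3 e2)
      have h2 : ((k.1 * k.2).natAbs.divisors.image (fun n : ℕ => (n : ℤ)) ∪
            (k.1 * k.2).natAbs.divisors.image (fun n : ℕ => -(n : ℤ))).card ≤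
          (k.1 * k.2).natAbs.divisors.card + (k.1 * k.2).natAbs.divisors.card :=
        (Finset.card_union_le _ _).trans (add_le_add Finset.card_image_le Finset.card_image_le)
      have h3 : ((S.filter fun p => (p.1.1, p.2.2) = k).card : ℝ) ≤
          ((k.1 * k.2).natAbs.divisors.card : ℝ) + ((k.1 * k.2).natAbs.divisors.card : ℝ) := by
        exact_mod_cast h1.trans h2
      linarith
    have h1 : S.card = ∑ k ∈ nz G ×ˢ nz G, (S.filter fun p => (p.1.1, p.2.2) = k).card :=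
      Finset.card_eq_sum_card_fiberwise hmem
    rw [h1]
    push_cast
    refine (Finset.sum_le_sum hfib).trans ?_
    rw [Finset.sum_const, Finset.card_product, card_nz, nsmul_eq_mul]
    push_cast
    exact le_of_eq (by ring)
  calc ∑ p ∈ S, (cnt D h C p.1 p.2 : ℝ) ≤ ∑ p ∈ S, 2 * T * C := Finset.sum_le_sum hcnt
    _ = S.card * (2 * T * C) := by rw [Finset.sum_const, nsmul_eq_mul]
    _ ≤ 8 * T * (G : ℝ) ^ 2 * (2 * T * C) :=
        mul_le_mul_of_nonneg_right hcard (by positivity)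
    _ = 16 * T ^ 2 * C * (G : ℝ) ^ 2 := by ring

end Pool.Agent.TII.FM
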