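import Pool.Agent.TII.FM0

/-!
# [TII-FM8] TT2: the generic case
-/

set_option autoImplicit false

namespace Pool.Agent.TII.FM

open Finset

variable {N H Z V : ℕ} {T : ℝ} {n1 n2 C : ℕ} {D h W : ℤ} {G : ℕ}

/-- the number of solutions of a linear congruence -/
theorem FM8_count (b c d : ℤ) (hb : 0 < b) :
    ((Ico (0 : ℤ) b).filter fun a => b ∣ a * c - d).card ≤ Int.gcd c b := by
  rcases Finset.eq_empty_or_nonempty ((Ico (0 : ℤ) b).filter fun a => b ∣ a * c - d) with he | he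
  · rw [he]
    simp
  obtain ⟨a₀, ha₀⟩ := he
  have hw : 0 < Int.gcd c b := Int.gcd_pos_of_ne_zero_right _ hb.ne'
  obtain ⟨c', hc'⟩ : (Int.gcd c b : ℤ) ∣ c := Int.gcd_dvd_left _ _
  obtain ⟨b', hb'⟩ : (Int.gcd c b : ℤ) ∣ b := Int.gcd_dvd_right _ _
  have hwz : (0 : ℤ) < Int.gcd c b := by exact_mod_cast hw
  have hb'0 : 0 < b' := by
    by_contra hcon
    push Not at hcon
    have h1 : (Int.gcd c b : ℤ) * b' ≤ 0 := mul_nonpos_of_nonneg_of_nonpos hwz.le hcon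
    omega
  have hcop : IsCoprime b' c' := by
    have h1 := Int.gcd_eq_gcd_ab c b
    refine ⟨Int.gcdB c b, Int.gcdA c b, ?_⟩
    have h2 : (Int.gcd c b : ℤ) * (Int.gcdB c b * b' + Int.gcdA c b * c') =
        (Int.gcd c b : ℤ) * 1 := by
      calc (Int.gcd c b : ℤ) * (Int.gcdB c b * b' + Int.gcdA c b * c')
          = ((Int.gcd c b : ℤ) * c') * Int.gcdA c b + ((Int.gcd c b : ℤ) * b') * Int.gcdB c b := by
            ring
        _ = c * Int.gcdA c b + b * Int.gcdB c b := by rw [← hc', ← hb']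
        _ = (Int.gcd c b : ℤ) := h1.symm
        _ = (Int.gcd c b : ℤ) * 1 := (mul_one _).symm
    exact mul_left_cancel₀ hwz.ne' h2
  simp only [Finset.mem_filter, Finset.mem_Ico] at ha₀
  have key : ∀ a : ℤ, b ∣ a * c - d → a % b' = a₀ % b' := by
    intro a ha
    have h1 : b ∣ (a - a₀) * c := by
      have h2 := dvd_sub ha ha₀.2
      have e : a * c - d - (a₀ * c - d) = (a - a₀) * c := by ring
      rwa [e] at h2
    have h3 : (Int.gcd c b : ℤ) * b' ∣ (Int.gcd c b : ℤ) * ((a - a₀) * c') := by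
      rw [← hb']
      have e : (Int.gcd c b : ℤ) * ((a - a₀) * c') = (a - a₀) * ((Int.gcd c b : ℤ) * c') := by ring
      rw [e, ← hc']
      exact h1
    have h4 : b' ∣ (a - a₀) * c' := (mul_dvd_mul_iff_left hwz.ne').mp h3
    have h5 : b' ∣ a - a₀ := hcop.dvd_of_dvd_mul_right h4
    exact Int.emod_eq_emod_iff_emod_sub_eq_zero.mpr (Int.emod_eq_zero_of_dvd h5)
  have hcard : (Ico (0 : ℤ) (Int.gcd c b)).card = Int.gcd c b := by
    rw [Int.card_Ico]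
    omega
  rw [← hcard]
  refine Finset.card_le_card_of_injOn (fun a => a / b') ?_ ?_
  · intro a ha
    simp only [Finset.coe_filter, Finset.mem_Ico, Set.mem_ofPred_eq] at ha
    simp only [Finset.coe_Ico, Set.mem_Ico]
    refine ⟨Int.ediv_nonneg ha.1.1 hb'0.le, ?_⟩
    rw [Int.ediv_lt_iff_lt_mul hb'0, ← hb']
    exact ha.1.2
  · intro a ha a' ha' heq
    simp only [Finset.coe_filter, Finset.mem_Ico, Set.mem_ofPred_eq] at ha ha' heq
    have h1 := key a ha.2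
    have h2 := key a' ha'.2
    rw [← Int.mul_ediv_add_emod a b', ← Int.mul_ediv_add_emod a' b', heq, h1, h2]

/-- the consequences of the two congruences -/
theorem FM8_cong (b a D h g g' f f' : ℤ) (hab : IsCoprime b a)
    (h1 : b ∣ g * h - g' * a ^ 2 * h + D * g * g' * a)
    (h2 : b ∣ f * h - f' * a ^ 2 * h + D * f * f' * a) :
    b ∣ a * (h * (g' * f - g * f')) - D * (g * f * (g' - f')) ∧
      b ∣ h * (g' * f - g * f') - D * a * (g' * f' * (g - f)) ∧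
      b ∣ (h * (g' * f - g * f')) ^ 2 - D ^ 2 * (g * g' * f * f' * (g' - f') * (g - f)) := by
  have e1 : b ∣ a * (h * (g' * f - g * f')) - D * (g * f * (g' - f')) := by
    apply hab.dvd_of_dvd_mul_left
    have e : a * (a * (h * (g' * f - g * f')) - D * (g * f * (g' - f'))) =
        g * (f * h - f' * a ^ 2 * h + D * f * f' * a) -
          f * (g * h - g' * a ^ 2 * h + D * g * g' * a) := by ring
    rw [e]
    exact dvd_sub (Dvd.dvd.mul_left h2 _) (Dvd.dvd.mul_left h1 _)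
  have e2 : b ∣ h * (g' * f - g * f') - D * a * (g' * f' * (g - f)) := by
    have e : h * (g' * f - g * f') - D * a * (g' * f' * (g - f)) =
        g' * (f * h - f' * a ^ 2 * h + D * f * f' * a) -
          f' * (g * h - g' * a ^ 2 * h + D * g * g' * a) := by ring
    rw [e]
    exact dvd_sub (Dvd.dvd.mul_left h2 _) (Dvd.dvd.mul_left h1 _)
  refine ⟨e1, e2, ?_⟩
  apply hab.dvd_of_dvd_mul_left
  have e : a * ((h * (g' * f - g * f')) ^ 2 -
      D ^ 2 * (g * g' * f * f' * (g' - f') * (g - f))) =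
      (h * (g' * f - g * f')) * (a * (h * (g' * f - g * f')) - D * (g * f * (g' - f'))) +
        D * (g * f * (g' - f')) * (h * (g' * f - g * f') - D * a * (g' * f' * (g - f))) := by
    ring
  rw [e]
  exact dvd_add (Dvd.dvd.mul_left e1 _) (Dvd.dvd.mul_left e2 _)

theorem FM8_abs (A x : ℤ) (hx : x ≠ 0) : |A| ≤ |A * x| := by
  rw [abs_mul]
  have h1 : 1 ≤ |x| := Int.one_le_abs hx
  nlinarith [abs_nonneg A]

/-- `R ≠ 0` -/
theorem FM8_R0 (hM : MC N H Z V T n1 n2 C D h W G) (g g' f f' : ℤ) (hg : g ≠ 0) (hg' : g' ≠ 0)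
    (hf : f ≠ 0) (hf' : f' ≠ 0) (bg : |g| ≤ G) (bg' : |g'| ≤ G) (bf : |f| ≤ G) (bf' : |f'| ≤ G)
    (hΔ : g' * f ≠ g * f') (h1 : g ≠ f) (h2 : g' ≠ f') :
    (h * (g' * f - g * f')) ^ 2 - D ^ 2 * (g * g' * f * f' * (g' - f') * (g - f)) ≠ 0 := by
  intro hR
  have hD := hM.D_pos
  have hDlo := hM.D_lo
  have hdvd : D ∣ h * (g' * f - g * f') := by
    rw [← Int.pow_dvd_pow_iff (two_ne_zero)]
    exact ⟨_, sub_eq_zero.mp hR⟩
  have hdvd2 : D ∣ g' * f - g * f' := hM.hcop.symm.dvd_of_dvd_mul_left hdvd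
  obtain ⟨k, hk⟩ := hdvd2
  have hk0 : k ≠ 0 := by
    rintro rfl
    rw [mul_zero] at hk
    exact hΔ (sub_eq_zero.mp hk)
  have hP : g * g' * f * f' * (g' - f') * (g - f) = (h * k) ^ 2 := by
    rw [hk] at hR
    have e : D ^ 2 * (g * g' * f * f' * (g' - f') * (g - f)) = D ^ 2 * (h * k) ^ 2 := by
      linear_combination -hR
    exact mul_left_cancel₀ (pow_ne_zero 2 hD.ne') e
  have hd1 : g' - f' ≠ 0 := sub_ne_zero.mpr h2
  have hd2 : g - f ≠ 0 := sub_ne_zero.mpr h1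
  have b1 : |g' * f| ≤ (h * k) ^ 2 := by
    have h3 := FM8_abs (g' * f) (g * f' * (g' - f') * (g - f))
      (mul_ne_zero (mul_ne_zero (mul_ne_zero hg hf') hd1) hd2)
    have e : g' * f * (g * f' * (g' - f') * (g - f)) = (h * k) ^ 2 := by rw [← hP]; ring
    rw [e, abs_of_nonneg (sq_nonneg (h * k))] at h3
    exact h3
  have b2 : |g * f'| ≤ (h * k) ^ 2 := by
    have h3 := FM8_abs (g * f') (g' * f * (g' - f') * (g - f))
      (mul_ne_zero (mul_ne_zero (mul_ne_zero hg' hf) hd1) hd2)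
    have e : g * f' * (g' * f * (g' - f') * (g - f)) = (h * k) ^ 2 := by rw [← hP]; ring
    rw [e, abs_of_nonneg (sq_nonneg (h * k))] at h3
    exact h3
  have b3 : D * |k| ≤ 2 * (h * k) ^ 2 := by
    calc D * |k| = |D * k| := by rw [abs_mul, abs_of_pos hD]
      _ = |g' * f - g * f'| := by rw [hk]
      _ ≤ |g' * f| + |g * f'| := abs_sub _ _
      _ ≤ 2 * (h * k) ^ 2 := by linarith
  have b4 : D * |k| ≤ 2 * (G : ℤ) ^ 2 := by
    calc D * |k| = |D * k| := by rw [abs_mul, abs_of_pos hD]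
      _ = |g' * f - g * f'| := by rw [hk]
      _ ≤ |g' * f| + |g * f'| := abs_sub _ _
      _ = |g'| * |f| + |g| * |f'| := by rw [abs_mul, abs_mul]
      _ ≤ G * G + G * G := add_le_add (mul_le_mul bg' bf (abs_nonneg _) (by positivity))
          (mul_le_mul bg bf' (abs_nonneg _) (by positivity))
      _ = 2 * (G : ℤ) ^ 2 := by ring
  have hN := hM.N1
  have hNz : (0 : ℤ) < (N : ℤ) ^ 2 := by
    have : (0 : ℤ) < N := by omega
    positivity
  have hG : (G : ℤ) ≤ 42 * H * Z ^ 5 * N := by exact_mod_cast hM.G_le'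
  have hk1 : 1 ≤ |k| := Int.one_le_abs hk0
  have b5 : |k| ≤ 3528 * (H : ℤ) ^ 2 * Z ^ 10 := by
    have h3 : (N : ℤ) ^ 2 * |k| ≤ (N : ℤ) ^ 2 * (3528 * (H : ℤ) ^ 2 * Z ^ 10) := by
      calc (N : ℤ) ^ 2 * |k| ≤ D * |k| := mul_le_mul_of_nonneg_right hDlo.le (abs_nonneg _)
        _ ≤ 2 * (G : ℤ) ^ 2 := b4
        _ ≤ 2 * (42 * (H : ℤ) * Z ^ 5 * N) ^ 2 :=
          mul_le_mul_of_nonneg_left (pow_le_pow_left₀ (by positivity) hG 2) (by norm_num)
        _ = (N : ℤ) ^ 2 * (3528 * (H : ℤ) ^ 2 * Z ^ 10) := by ring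
    exact le_of_mul_le_mul_left h3 hNz
  have b6 : D ≤ 2 * ((H : ℤ) ^ 2 * |k|) := by
    have h3 : h ^ 2 ≤ (H : ℤ) ^ 2 := by
      rw [← sq_abs h]
      exact pow_le_pow_left₀ (abs_nonneg _) hM.hH 2
    have h4 : D * |k| ≤ (2 * ((H : ℤ) ^ 2 * |k|)) * |k| := by
      calc D * |k| ≤ 2 * (h * k) ^ 2 := b3
        _ = 2 * (h ^ 2 * (|k| * |k|)) := by rw [abs_mul_abs_self]; ring
        _ ≤ 2 * ((H : ℤ) ^ 2 * (|k| * |k|)) := by
          refine mul_le_mul_of_nonneg_left ?_ (by norm_num)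
          exact mul_le_mul_of_nonneg_right h3 (by positivity)
        _ = (2 * ((H : ℤ) ^ 2 * |k|)) * |k| := by ring
    exact le_of_mul_le_mul_right h4 (by omega)
  have b7 : D ≤ N := by
    have hH1 : (1 : ℤ) ≤ H := by exact_mod_cast hM.H1
    have hZ1 : (1 : ℤ) ≤ Z := by
      have := hM.Z2
      omega
    have h3 : (20000 * (H : ℤ) * Z) ^ 10 ≤ N := by exact_mod_cast hM.pow_le 10 (by norm_num)
    calc D ≤ 2 * ((H : ℤ) ^ 2 * |k|) := b6
      _ ≤ 2 * ((H : ℤ) ^ 2 * (3528 * (H : ℤ) ^ 2 * Z ^ 10)) := by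
        refine mul_le_mul_of_nonneg_left ?_ (by norm_num)
        exact mul_le_mul_of_nonneg_left b5 (by positivity)
      _ = 7056 * ((H : ℤ) ^ 4 * Z ^ 10) := by ring
      _ ≤ 20000 ^ 10 * ((H : ℤ) ^ 10 * Z ^ 10) := by
        refine mul_le_mul (by norm_num) ?_ (by positivity) (by positivity)
        exact mul_le_mul_of_nonneg_right (pow_le_pow_right₀ hH1 (by norm_num)) (by positivity)
      _ = (20000 * (H : ℤ) * Z) ^ 10 := by ring
      _ ≤ N := h3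
  have b8 : (N : ℤ) ≤ (N : ℤ) ^ 2 := by
    have : (1 : ℤ) ≤ N := by omega
    nlinarith
  linarith

/-- `|R| ≤ N^100` -/
theorem FM8_Rle (hM : MC N H Z V T n1 n2 C D h W G) (g g' f f' : ℤ)
    (bg : |g| ≤ G) (bg' : |g'| ≤ G) (bf : |f| ≤ G) (bf' : |f'| ≤ G) :
    |(h * (g' * f - g * f')) ^ 2 - D ^ 2 * (g * g' * f * f' * (g' - f') * (g - f))| ≤
      (N : ℤ) ^ 100 := by
  have hN := hM.N1
  have hN0 : (0 : ℤ) ≤ N := by positivity
  have hN1 : (1 : ℤ) ≤ N := by omega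
  have hG : (G : ℤ) ≤ (N : ℤ) ^ 2 := by exact_mod_cast hM.G_le_N2
  have hG0 : (0 : ℤ) ≤ G := by positivity
  have hHN : (H : ℤ) ≤ N := by
    have := hM.HN
    omega
  have cg := bg.trans hG
  have cg' := bg'.trans hG
  have cf := bf.trans hG
  have cf' := bf'.trans hG
  have ch := hM.hH.trans hHN
  have e1 : |(h * (g' * f - g * f')) ^ 2| ≤ (N : ℤ) ^ 12 := by
    rw [abs_pow]
    have h1 : |h * (g' * f - g * f')| ≤ N * (2 * (N : ℤ) ^ 4) := by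
      rw [abs_mul]
      refine mul_le_mul ch ?_ (abs_nonneg _) hN0
      calc |g' * f - g * f'| ≤ |g' * f| + |g * f'| := abs_sub _ _
        _ = |g'| * |f| + |g| * |f'| := by rw [abs_mul, abs_mul]
        _ ≤ (N : ℤ) ^ 2 * (N : ℤ) ^ 2 + (N : ℤ) ^ 2 * (N : ℤ) ^ 2 :=
          add_le_add (mul_le_mul cg' cf (abs_nonneg _) (by positivity))
            (mul_le_mul cg cf' (abs_nonneg _) (by positivity))
        _ = 2 * (N : ℤ) ^ 4 := by ring
    calc |h * (g' * f - g * f')| ^ 2 ≤ (N * (2 * (N : ℤ) ^ 4)) ^ 2 :=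
          pow_le_pow_left₀ (abs_nonneg _) h1 2
      _ = 4 * (N : ℤ) ^ 10 := by ring
      _ ≤ (N : ℤ) ^ 2 * (N : ℤ) ^ 10 := by
        refine mul_le_mul_of_nonneg_right ?_ (by positivity)
        nlinarith
      _ = (N : ℤ) ^ 12 := by ring
  have e2 : |D ^ 2 * (g * g' * f * f' * (g' - f') * (g - f))| ≤ (N : ℤ) ^ 18 := by
    have hd1 : |g' - f'| ≤ 2 * (N : ℤ) ^ 2 := by
      calc |g' - f'| ≤ |g'| + |f'| := abs_sub _ _
        _ ≤ 2 * (N : ℤ) ^ 2 := by linarith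
    have hd2 : |g - f| ≤ 2 * (N : ℤ) ^ 2 := by
      calc |g - f| ≤ |g| + |f| := abs_sub _ _
        _ ≤ 2 * (N : ℤ) ^ 2 := by linarith
    have hDa : |D ^ 2| ≤ 16 * (N : ℤ) ^ 4 := by
      rw [abs_pow, abs_of_pos hM.D_pos]
      calc D ^ 2 ≤ (4 * (N : ℤ) ^ 2) ^ 2 := pow_le_pow_left₀ hM.D_pos.le hM.D_hi 2
        _ = 16 * (N : ℤ) ^ 4 := by ring
    rw [abs_mul, abs_mul, abs_mul, abs_mul, abs_mul, abs_mul]
    calc |D ^ 2| * (|g| * |g'| * |f| * |f'| * |g' - f'| * |g - f|)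
        ≤ (16 * (N : ℤ) ^ 4) * ((N : ℤ) ^ 2 * (N : ℤ) ^ 2 * (N : ℤ) ^ 2 * (N : ℤ) ^ 2 *
          (2 * (N : ℤ) ^ 2) * (2 * (N : ℤ) ^ 2)) := by
          gcongr
      _ = 64 * (N : ℤ) ^ 16 := by ring
      _ ≤ (N : ℤ) ^ 2 * (N : ℤ) ^ 16 := by
        refine mul_le_mul_of_nonneg_right ?_ (by positivity)
        nlinarith
      _ = (N : ℤ) ^ 18 := by ring
  have hN20 : (20000 : ℤ) ≤ N := by exact_mod_cast hN
  calc |(h * (g' * f - g * f')) ^ 2 - D ^ 2 * (g * g' * f * f' * (g' - f') * (g - f))|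
      ≤ |(h * (g' * f - g * f')) ^ 2| +
        |D ^ 2 * (g * g' * f * f' * (g' - f') * (g - f))| := abs_sub _ _
    _ ≤ (N : ℤ) ^ 12 + (N : ℤ) ^ 18 := add_le_add e1 e2
    _ ≤ (N : ℤ) ^ 18 + (N : ℤ) ^ 18 := by
      refine add_le_add ?_ le_rfl
      exact pow_le_pow_right₀ hN1 (by norm_num)
    _ = 2 * (N : ℤ) ^ 18 := by ring
    _ ≤ (N : ℤ) * (N : ℤ) ^ 18 := by
      refine mul_le_mul_of_nonneg_right ?_ (by positivity)
      linarith
    _ = (N : ℤ) ^ 19 := by ring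
    _ ≤ (N : ℤ) ^ 100 := pow_le_pow_right₀ hN1 (by norm_num)

/-- the gcd divides `h W1` -/
theorem FM8_gcd (b a D h : ℤ) (g f : ℤ × ℤ) (hab : IsCoprime b a)
    (hbD : IsCoprime b D) (hh : h ≠ 0) (hΔ : g.2 * f.1 ≠ g.1 * f.2)
    (h1 : b ∣ a * (h * (g.2 * f.1 - g.1 * f.2)) - D * (g.1 * f.1 * (g.2 - f.2)))
    (h2 : b ∣ h * (g.2 * f.1 - g.1 * f.2) - D * a * (g.2 * f.2 * (g.1 - f.1))) :
    Int.gcd (h * (g.2 * f.1 - g.1 * f.2)) b ≤ h.natAbs * W1 g f := by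
  have hwb : (Int.gcd (h * (g.2 * f.1 - g.1 * f.2)) b : ℤ) ∣ b := Int.gcd_dvd_right _ _
  have hwc : (Int.gcd (h * (g.2 * f.1 - g.1 * f.2)) b : ℤ) ∣ h * (g.2 * f.1 - g.1 * f.2) :=
    Int.gcd_dvd_left _ _
  obtain ⟨w, hw⟩ : ∃ w, w = Int.gcd (h * (g.2 * f.1 - g.1 * f.2)) b := ⟨_, rfl⟩
  rw [← hw] at hwb hwc ⊢
  have cD : IsCoprime (w : ℤ) D := hbD.of_isCoprime_of_dvd_left hwb
  have ca : IsCoprime (w : ℤ) a := hab.of_isCoprime_of_dvd_left hwb
  have d1 : (w : ℤ) ∣ g.1 * f.1 * (g.2 - f.2) := by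
    apply cD.dvd_of_dvd_mul_left
    have e := dvd_sub (Dvd.dvd.mul_left hwc a) (hwb.trans h1)
    rwa [sub_sub_cancel] at e
  have d2 : (w : ℤ) ∣ g.2 * f.2 * (g.1 - f.1) := by
    apply (cD.mul_right ca).dvd_of_dvd_mul_left
    have e := dvd_sub hwc (hwb.trans h2)
    rwa [sub_sub_cancel] at e
  have hn0 : w ∣ h.natAbs * (g.2 * f.1 - g.1 * f.2).natAbs := by
    rw [← Int.natAbs_mul]
    exact Int.natCast_dvd.mp hwc
  have hn1 : w ∣ h.natAbs * (g.1 * f.1 * (g.2 - f.2)).natAbs :=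
    Dvd.dvd.mul_left (Int.natCast_dvd.mp d1) _
  have hn2 : w ∣ h.natAbs * (g.2 * f.2 * (g.1 - f.1)).natAbs :=
    Dvd.dvd.mul_left (Int.natCast_dvd.mp d2) _
  have hall : w ∣ h.natAbs * W1 g f := by
    unfold W1
    rw [← Nat.gcd_mul_left]
    refine Nat.dvd_gcd ?_ hn2
    unfold Int.gcd
    rw [← Nat.gcd_mul_left]
    exact Nat.dvd_gcd hn0 hn1
  refine Nat.le_of_dvd ?_ hall
  have hW : 0 < W1 g f := by
    unfold W1
    refine Nat.gcd_pos_of_pos_left _ ?_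
    exact Int.gcd_pos_of_ne_zero_left _ (sub_ne_zero.mpr hΔ)
  exact Nat.mul_pos (Int.natAbs_pos.mpr hh) hW

/-- [FM8] PROOF. Let `g = (g, g')`, `f = (f, f')`, `Δ = g' f - g f' ≠ 0`, `g ≠ f`, `g' ≠ f'`,
`E(g) = g h - g' a² h + D g g' a`. `g E(f) - f E(g) = a (a h Δ + D g f (f' - g'))`, so
(1) `b ∣ a h Δ - D g f (g' - f')`; `f' E(g) - g' E(f) = - h Δ + D a g' f' (g - f)`, so
(2) `b ∣ h Δ - a D g' f' (g - f)`. (Signs: please recompute.) Multiply (1) by `h Δ` and use (2) times ..: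
`b ∣ a (h² Δ² - D² g f g' f' (g' - f') (g - f))`, so `b ∣ R := h² Δ² - D² g g' f f' (g' - f') (g - f)`.
`R ≠ 0`: if `R = 0` then `D² ∣ (h Δ)²`, so `D ∣ h Δ`, `D ∣ Δ`, `Δ = D k`, `k ≠ 0`, and
`g g' f f' (g' - f') (g - f) = h² k²`. `|k| ≤ 2 G² / D ≤ 2 G² / N²`, `G ≤ 42 H Z⁵ N`, so `|h k| ≤ 4000 H³ Z^10`, so
all of `|g|, |g'|, |f|, |f'|` are `≤ (4000 H³ Z^10)²` (the other factors are nonzero integers), so
`|Δ| ≤ 2 (4000 H³ Z^10)⁴ < N < D` (`MC.pow_le`), contradiction to `D ∣ Δ ≠ 0`.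
`|R| ≤ N^100`, so at most `T` values of `b` (`MC.tau`). Given `b`, let `w = gcd (h Δ, b)`. If there is no
`a` there is nothing to count. Otherwise the number of `a ∈ [0, b)` that satisfy (1) is at most `w`
(two solutions differ by a multiple of `b / w`), and `w ∣ D g f (g' - f')` by (1), `w ∣ a D g' f' (g - f)` by (2), so
`w` divides `g f (g' - f')` and `g' f' (g - f)` (`gcd (b, D) = gcd (a, b) = 1`) and `h Δ`; so
`w ∣ h · W1 g f` (gcd of `h Δ, h g f (g'-f'), h g' f' (g-f)`), `w ≤ H · W1 g f`. -/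
theorem generic (hM : MC N H Z V T n1 n2 C D h W G) (g f : ℤ × ℤ) (hg1 : g.1 ∈ nz G)
    (hg2 : g.2 ∈ nz G) (hf1 : f.1 ∈ nz G) (hf2 : f.2 ∈ nz G) (hΔ : g.2 * f.1 ≠ g.1 * f.2)
    (h1 : g.1 ≠ f.1) (h2 : g.2 ≠ f.2) :
    (cnt D h C g f : ℝ) ≤ T * H * W1 g f := by
  classical
  rw [mem_nz] at hg1 hg2 hf1 hf2
  have bz : ∀ x : ℤ, x.natAbs ≤ G → |x| ≤ G := by
    intro x hx
    rw [← Int.natCast_natAbs]
    exact_mod_cast hx
  have bg := bz _ hg1.2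
  have bg' := bz _ hg2.2
  have bf := bz _ hf1.2
  have bf' := bz _ hf2.2
  obtain ⟨R, hR⟩ : ∃ R : ℤ, R = (h * (g.2 * f.1 - g.1 * f.2)) ^ 2 -
    D ^ 2 * (g.1 * g.2 * f.1 * f.2 * (g.2 - f.2) * (g.1 - f.1)) := ⟨_, rfl⟩
  have hR0 : R ≠ 0 := by
    rw [hR]
    exact FM8_R0 hM g.1 g.2 f.1 f.2 hg1.1 hg2.1 hf1.1 hf2.1 bg bg' bf bf' hΔ h1 h2
  have hRle : R.natAbs ≤ N ^ 100 := by
    have h3 := FM8_Rle hM g.1 g.2 f.1 f.2 bg bg' bf bf'
    rw [← hR, ← Int.natCast_natAbs] at h3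
    exact_mod_cast h3
  have hτ := hM.tau R.natAbs (Int.natAbs_pos.mpr hR0) hRle
  have hfin : cnt D h C g f ≤ (H * W1 g f) * R.natAbs.divisors.card := by
    unfold cnt
    obtain ⟨A, hA⟩ : ∃ A, A = (BA D C).filter (fun u =>
      (u.1 ∣ g.1 * h - g.2 * u.2 ^ 2 * h + D * g.1 * g.2 * u.2) ∧
      (u.1 ∣ f.1 * h - f.2 * u.2 ^ 2 * h + D * f.1 * f.2 * u.2)) := ⟨_, rfl⟩
    rw [← hA]
    have hmem : ∀ u ∈ A, (0 < u.1 ∧ 0 ≤ u.2 ∧ u.2 < u.1) ∧ IsCoprime u.1 u.2 ∧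
        IsCoprime u.1 D ∧
        u.1 ∣ u.2 * (h * (g.2 * f.1 - g.1 * f.2)) - D * (g.1 * f.1 * (g.2 - f.2)) ∧
        u.1 ∣ h * (g.2 * f.1 - g.1 * f.2) - D * u.2 * (g.2 * f.2 * (g.1 - f.1)) ∧
        u.1 ∣ R := by
      intro u hu
      rw [hA, Finset.mem_filter, mem_BA] at hu
      obtain ⟨⟨⟨k1, k2⟩, ⟨k3, k4⟩, k5, k6, k7⟩, k8, k9⟩ := hu
      have hab : IsCoprime u.1 u.2 := (Int.isCoprime_iff_gcd_eq_one.mpr k6).symm
      obtain ⟨l1, l2, l3⟩ := FM8_cong u.1 u.2 D h g.1 g.2 f.1 f.2 hab k8 k9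
      refine ⟨⟨by omega, k3, k5⟩, hab, Int.isCoprime_iff_gcd_eq_one.mpr k7, l1, l2, ?_⟩
      rw [hR]
      exact l3
    have h3 : (A.image Prod.fst).card ≤ R.natAbs.divisors.card := by
      refine Finset.card_le_card_of_injOn Int.natAbs ?_ ?_
      · intro b hb
        simp only [Finset.coe_image, Set.mem_image, Finset.mem_coe] at hb
        obtain ⟨u, hu, rfl⟩ := hb
        obtain ⟨-, -, -, -, -, k6⟩ := hmem u hu
        simp only [Finset.mem_coe, Nat.mem_divisors]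
        exact ⟨Int.natAbs_dvd_natAbs.mpr k6, (Int.natAbs_pos.mpr hR0).ne'⟩
      · intro b hb b' hb' heq
        simp only [Finset.coe_image, Set.mem_image, Finset.mem_coe] at hb hb'
        obtain ⟨u, hu, rfl⟩ := hb
        obtain ⟨u', hu', rfl⟩ := hb'
        obtain ⟨⟨k1, -⟩, -⟩ := hmem u hu
        obtain ⟨⟨k1', -⟩, -⟩ := hmem u' hu'
        omega
    refine (Finset.card_le_mul_card_image A (f := Prod.fst) (H * W1 g f) ?_).trans
      (Nat.mul_le_mul_left _ h3)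
    intro b hb
    rw [Finset.mem_image] at hb
    obtain ⟨u, hu, rfl⟩ := hb
    obtain ⟨⟨k1, k2, k3⟩, k4, k5, k6, k7, k8⟩ := hmem u hu
    have h4 : (A.filter fun v => v.1 = u.1).card ≤
        ((Ico (0 : ℤ) u.1).filter fun a => u.1 ∣ a * (h * (g.2 * f.1 - g.1 * f.2)) -
          D * (g.1 * f.1 * (g.2 - f.2))).card := by
      refine Finset.card_le_card_of_injOn Prod.snd ?_ ?_
      · intro v hv
        simp only [Finset.coe_filter, Set.mem_ofPred_eq] at hv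
        obtain ⟨⟨l1, l2, l3⟩, l4, l5, l6, l7, l8⟩ := hmem v hv.1
        rw [hv.2] at l3 l6
        simp only [Finset.coe_filter, Finset.mem_Ico, Set.mem_ofPred_eq]
        exact ⟨⟨l2, l3⟩, l6⟩
      · intro v hv v' hv' heq
        simp only [Finset.coe_filter, Set.mem_ofPred_eq] at hv hv'
        exact Prod.ext (hv.2.trans hv'.2.symm) heq
    refine h4.trans ((FM8_count _ _ _ k1).trans ?_)
    refine (FM8_gcd u.1 u.2 D h g f k4 k5 hM.h0 hΔ k6 k7).trans ?_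
    exact Nat.mul_le_mul_right _ hM.hnat
  have h5 : (cnt D h C g f : ℝ) ≤ (H * W1 g f) * R.natAbs.divisors.card := by
    exact_mod_cast hfin
  have h6 : (0 : ℝ) ≤ (H : ℝ) * W1 g f := by positivity
  calc (cnt D h C g f : ℝ) ≤ (H * W1 g f) * R.natAbs.divisors.card := h5
    _ ≤ (H * W1 g f) * T := mul_le_mul_of_nonneg_left hτ h6
    _ = T * H * W1 g f := by ring

end Pool.Agent.TII.FM
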