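import Pool.Agent.TII.FM0

/-!
# [TII-FM4] B is bounded by the sum of mp
-/

set_option autoImplicit false

namespace Pool.Agent.TII.FM

open Finset

variable {N H Z V : ℕ} {T : ℝ} {n1 n2 C : ℕ} {D h W : ℤ} {G : ℕ}

/-- the differences -/
private def fm4g (D τ τ1 : ℤ) : ℤ := (τ1 - τ) / D

/-- the set of the allowed differences -/
private noncomputable def fm4K (D h : ℤ) (G : ℕ) (b a : ℤ) : Finset (ℤ × ℤ) :=
  insert (0, 0) ((nz G ×ˢ nz G).filter
    fun g : ℤ × ℤ => b ∣ g.1 * h - g.2 * a ^ 2 * h + D * g.1 * g.2 * a)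

private theorem fm4K_card (D h : ℤ) (G : ℕ) (b a : ℤ) :
    (fm4K D h G b a).card ≤ 1 + mp D h G b a := by
  unfold fm4K mp
  refine (Finset.card_insert_le _ _).trans ?_
  omega

/-- the arithmetic of a pair -/
private theorem fm4_arith (hM : MC N H Z V T n1 n2 C D h W G) {u1 u : ℤ × ℤ × ℤ × ℤ}
    (hu1 : u1 ∈ GG D h W C) (hu : u ∈ GG D h W C) (hb : u1.1 = u.1)
    (hτ : u1.2.2.1 % D = u.2.2.1 % D) :
    ∃ g g' : ℤ, u1.2.2.1 = u.2.2.1 + D * g ∧ u1.2.2.2 = u.2.2.2 + D * g' ∧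
      (g, g') ∈ fm4K D h G u.1 u.2.1 := by
  have hD := hM.D_pos
  have hcop := GG_cop hM.hcop hu
  have hb1 := GG_b hu1
  have hb2 := GG_b hu
  have m1 := mem_GG.1 hu1
  have m2 := mem_GG.1 hu
  obtain ⟨b, a, τ, τ'⟩ := u
  obtain ⟨b1, a1, τ1, τ1'⟩ := u1
  simp only at *
  subst hb
  obtain ⟨⟨hbC, hbC'⟩, ⟨ha0, -⟩, ⟨hW1, hW2⟩, ⟨hW3, hW4⟩, hab, hgab, hgbD, hc1, hc2, hc3⟩ := m2
  obtain ⟨-, ⟨ha10, -⟩, ⟨hW5, hW6⟩, ⟨hW7, hW8⟩, ha1b, hga1b, -, hc4, hc5, hc6⟩ := m1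
  obtain ⟨g, hg⟩ : D ∣ τ1 - τ := Int.ModEq.dvd (by
    show τ % D = τ1 % D
    exact hτ.symm)
  have h1 : D ∣ τ * (τ1' - τ') := by
    have e : τ * (τ1' - τ') = (τ1 * τ1' + h ^ 2) - (τ * τ' + h ^ 2) - D * (g * τ1') := by
      have : τ1 = τ + D * g := by linarith
      rw [this]; ring
    rw [e]
    exact dvd_sub (dvd_sub hc6 hc3) (Dvd.intro _ rfl)
  obtain ⟨g', hg'⟩ : D ∣ τ1' - τ' := (hcop.symm).dvd_of_dvd_mul_left h1
  have e1 : τ1 = τ + D * g := by linarith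
  have e2 : τ1' = τ' + D * g' := by linarith
  refine ⟨g, g', e1, e2, ?_⟩
  have hgG : g.natAbs ≤ G := hM.le_G g (by
    have : |g| * D = |τ1 - τ| := by rw [hg, abs_mul, abs_of_pos hD, mul_comm]
    rw [this, abs_le]
    constructor <;> linarith)
  have hgG' : g'.natAbs ≤ G := hM.le_G g' (by
    have : |g'| * D = |τ1' - τ'| := by rw [hg', abs_mul, abs_of_pos hD, mul_comm]
    rw [this, abs_le]
    constructor <;> linarith)
  have hbD : IsCoprime b1 D := Int.isCoprime_iff_gcd_eq_one.2 hgbD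
  have hba : IsCoprime b1 a := (Int.isCoprime_iff_gcd_eq_one.2 hgab).symm
  have h2 : b1 ∣ g * τ' + g' * τ + D * g * g' := by
    apply hbD.dvd_of_dvd_mul_left
    have e : D * (g * τ' + g' * τ + D * g * g') = (τ1 * τ1' + h ^ 2) - (τ * τ' + h ^ 2) := by
      rw [e1, e2]; ring
    rw [e]
    exact dvd_sub hb1 hb2
  have h3 : b1 ∣ g * h - g' * a ^ 2 * h + D * g * g' * a := by
    have e : g * h - g' * a ^ 2 * h + D * g * g' * a = a * (g * τ' + g' * τ + D * g * g') -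
        g * (a * τ' - h) - a * g' * (τ + a * h) := by ring
    rw [e]
    exact dvd_sub (dvd_sub (Dvd.dvd.mul_left h2 _) (Dvd.dvd.mul_left hc2 _))
      (Dvd.dvd.mul_left hc1 _)
  have hbpos : 0 < b1 := lt_of_le_of_lt ha0 hab
  have hsmall : ∀ k : ℤ, k.natAbs ≤ G → b1 ∣ k * h → k = 0 := by
    intro k hk hd
    by_contra hk0
    have h4 : k * h ≠ 0 := mul_ne_zero hk0 hM.h0
    have h5 := Int.le_of_dvd (abs_pos.mpr h4) ((dvd_abs _ _).mpr hd)
    have h6 : (k * h).natAbs ≤ G * H := by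
      rw [Int.natAbs_mul]
      exact Nat.mul_le_mul hk hM.hnat
    have h7 := hM.GH_lt
    have h8 : |k * h| = ((k * h).natAbs : ℤ) := (Int.natCast_natAbs _).symm
    rw [h8] at h5
    have h9 : ((k * h).natAbs : ℤ) ≤ ((G * H : ℕ) : ℤ) := by exact_mod_cast h6
    have h10 : ((G * H : ℕ) : ℤ) < C := by exact_mod_cast h7
    linarith
  unfold fm4K
  rw [Finset.mem_insert]
  by_cases hg0 : g = 0
  · left
    have h4 : b1 ∣ g' * h := by
      have h5 : b1 ∣ a ^ 2 * (g' * h) := by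
        have e : a ^ 2 * (g' * h) = -(g * h - g' * a ^ 2 * h + D * g * g' * a) := by
          rw [hg0]; ring
        rw [e]
        exact (dvd_neg).2 h3
      exact (hba.pow_right (n := 2)).dvd_of_dvd_mul_left h5
    rw [hg0, hsmall g' hgG' h4]
  · right
    have hg0' : g' ≠ 0 := by
      intro h0
      apply hg0
      apply hsmall g hgG
      rw [h0] at h3
      have e : g * h - 0 * a ^ 2 * h + D * g * 0 * a = g * h := by ring
      rwa [e] at h3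
    rw [Finset.mem_filter, Finset.mem_product, mem_nz, mem_nz]
    exact ⟨⟨⟨hg0, hgG⟩, ⟨hg0', hgG'⟩⟩, h3⟩

private theorem fm4_fib (hM : MC N H Z V T n1 n2 C D h W G) {u : ℤ × ℤ × ℤ × ℤ}
    (hu : u ∈ GG D h W C) :
    ((GG D h W C).filter fun u1 => u1.1 = u.1 ∧ u1.2.2.1 % D = u.2.2.1 % D).card ≤
      H * (1 + mp D h G u.1 u.2.1) := by
  classical
  have hD := hM.D_pos
  set S := (GG D h W C).filter fun u1 => u1.1 = u.1 ∧ u1.2.2.1 % D = u.2.2.1 % D with hS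
  let F : ℤ × ℤ × ℤ × ℤ → ℤ × ℤ := fun u1 =>
    (fm4g D u.2.2.1 u1.2.2.1, fm4g D u.2.2.2 u1.2.2.2)
  have hF : ∀ u1 ∈ S, u1.2.2.1 = u.2.2.1 + D * (F u1).1 ∧ u1.2.2.2 = u.2.2.2 + D * (F u1).2 ∧
      F u1 ∈ fm4K D h G u.1 u.2.1 := by
    intro u1 hu1
    obtain ⟨h1, h2, h3⟩ := Finset.mem_filter.1 hu1
    obtain ⟨g, g', e1, e2, e3⟩ := fm4_arith hM h1 hu h2 h3
    have hg : (F u1).1 = g := by
      show (u1.2.2.1 - u.2.2.1) / D = g
      rw [e1, add_sub_cancel_left, Int.mul_ediv_cancel_left _ hD.ne']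
    have hg' : (F u1).2 = g' := by
      show (u1.2.2.2 - u.2.2.2) / D = g'
      rw [e2, add_sub_cancel_left, Int.mul_ediv_cancel_left _ hD.ne']
    refine ⟨by rw [hg]; exact e1, by rw [hg']; exact e2, ?_⟩
    have : F u1 = (g, g') := Prod.ext hg hg'
    rw [this]
    exact e3
  have hb : 0 < u.1 := by
    have m := mem_GG.1 hu
    obtain ⟨-, ⟨h1, -⟩, -, -, h2, -⟩ := m
    linarith
  have h1 : S.card ≤ H * (S.image F).card := by
    refine Finset.card_le_mul_card_image S H ?_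
    intro k _
    refine le_trans ?_ ((count_a u.1 (u.2.2.1 + D * k.1) h hb hM.h0).trans hM.hnat)
    apply Finset.card_le_card_of_injOn (fun u1 : ℤ × ℤ × ℤ × ℤ => u1.2.1)
    · intro u1 hu1
      have hu1' : u1 ∈ S.filter (fun x => F x = k) := by exact_mod_cast hu1
      obtain ⟨h2, h3⟩ := Finset.mem_filter.1 hu1'
      obtain ⟨e1, e2, -⟩ := hF u1 h2
      obtain ⟨h4, h5, -⟩ := Finset.mem_filter.1 h2
      have m := mem_GG.1 h4
      obtain ⟨-, ⟨h6, -⟩, -, -, h7, -, -, h8, -⟩ := m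
      rw [h3] at e1
      rw [h5] at h7 h8
      rw [e1] at h8
      simp only [Finset.coe_filter, Finset.mem_Ico, Set.mem_ofPred_eq]
      exact ⟨⟨h6, h7⟩, h8⟩
    · intro u1 hu1 v1 hv1 heq
      have hu1' : u1 ∈ S.filter (fun x => F x = k) := by exact_mod_cast hu1
      have hv1' : v1 ∈ S.filter (fun x => F x = k) := by exact_mod_cast hv1
      obtain ⟨h2, h3⟩ := Finset.mem_filter.1 hu1'
      obtain ⟨h2', h3'⟩ := Finset.mem_filter.1 hv1'
      obtain ⟨e1, e2, -⟩ := hF u1 h2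
      obtain ⟨e1', e2', -⟩ := hF v1 h2'
      obtain ⟨-, h5, -⟩ := Finset.mem_filter.1 h2
      obtain ⟨-, h5', -⟩ := Finset.mem_filter.1 h2'
      rw [h3] at e1 e2
      rw [h3'] at e1' e2'
      refine Prod.ext (h5.trans h5'.symm) (Prod.ext heq (Prod.ext (e1.trans e1'.symm)
        (e2.trans e2'.symm)))
  refine h1.trans (Nat.mul_le_mul_left _ ?_)
  refine le_trans (Finset.card_le_card ?_) (fm4K_card D h G u.1 u.2.1)
  intro k hk
  obtain ⟨u1, hu1, rfl⟩ := Finset.mem_image.1 hk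
  exact (hF u1 hu1).2.2

/-- [FM4] PROOF. Let `(u1, u2) ∈ BB`, `u_i = (b, a_i, τ_i, τ_i')`, `τ₁ = τ₂ + D g`. Then
`τ₂ (τ₁' - τ₂') ≡ 0` mod `D` (from `D ∣ τ_i τ_i' + h²` and `τ₁ ≡ τ₂`), `gcd (τ₂, D) = 1` (a prime `n_i ∣ τ₂`
would divide `h²`), so `τ₁' = τ₂' + D g'`. `|g| D ≤ 2W`, so `|g| ≤ G`, `|g'| ≤ G` (`MC.le_G`).
From `b ∣ τ_i τ_i' + h²` (see `GG`: `a τ ≡ ..`) and `gcd (b, D) = 1`: `b ∣ g τ₂' + g' τ₂ + D g g'`. Multiply by
`a₂`, use `a₂ τ₂' ≡ h`, `τ₂ ≡ - a₂ h`: `b ∣ g h - g' a₂² h + D g g' a₂`. So if `g, g' ≠ 0`, `(g, g')` is counted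
by `mp D h G b a₂`. If `g = 0` then `b ∣ g' a₂² h`, `gcd (a₂, b) = 1`, so `b ∣ g' h`, `|g' h| ≤ G H < C ≤ b`
(`MC.GH_lt`), so `g' = 0`; similarly `g' = 0` implies `g = 0`. The map `(u1, u2) ↦ (u2, (g, g'), a₁)` is
injective, and given `(u2, g, g')`, `a₁ ∈ [0, b)` satisfies `b ∣ τ₁ + a₁ h`: at most `gcd (h, b) ≤ H`
values (a lemma: `#{a ∈ [0, b) : b ∣ t + a h} ≤ |h|` for `h ≠ 0`, `b > 0`; in an interval of length `b`
`t + a h` runs over an arithmetic progression with difference `h` inside an interval of length `|h| b`,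
and takes each of the `≤ |h|` multiples of `b` at most once): this is `count_a` in FM0; see also `GG_b`, `GG_cop`. -/
theorem BB_le (hM : MC N H Z V T n1 n2 C D h W G) :
    ((BB D h W C).card : ℝ) ≤ H * (GG D h W C).card +
      H * ∑ u ∈ GG D h W C, (mp D h G u.1 u.2.1 : ℝ) := by
  classical
  have h1 : (BB D h W C).card = ∑ u ∈ GG D h W C,
      ((GG D h W C).filter fun u1 => u1.1 = u.1 ∧ u1.2.2.1 % D = u.2.2.1 % D).card := by
    unfold BB
    rw [Finset.card_filter, Finset.sum_product_right]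
    refine Finset.sum_congr rfl fun u _ => ?_
    rw [Finset.card_filter]
  have h2 : (BB D h W C).card ≤ ∑ u ∈ GG D h W C, H * (1 + mp D h G u.1 u.2.1) := by
    rw [h1]
    exact Finset.sum_le_sum fun u hu => fm4_fib hM hu
  have h3 : ((BB D h W C).card : ℝ) ≤
      ((∑ u ∈ GG D h W C, H * (1 + mp D h G u.1 u.2.1) : ℕ) : ℝ) := by exact_mod_cast h2
  refine h3.trans (le_of_eq ?_)
  push_cast
  rw [← Finset.mul_sum, Finset.sum_add_distrib, Finset.sum_const, nsmul_eq_mul, mul_one, mul_add]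

end Pool.Agent.TII.FM
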