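import Pool.Agent.TII.Defs

/-!
# [TII-FM] the main case of FD2 (TII.md, 6): definitions and general lemmas
-/

set_option autoImplicit false

namespace Pool.Agent.TII.FM

open Finset

/-- parameters of the main case: `N ≤ C ≤ N² Z⁵`, `D = n1 n2`, `h = n1 - n2`, `W = (H+20) C N`,
`G = ⌊2 (H+20) C / N⌋` -/
structure MC (N H Z V : ℕ) (T : ℝ) (n1 n2 C : ℕ) (D h W : ℤ) (G : ℕ) : Prop where
  par : Par N H Z V T
  pair : Pair N H n1 n2
  lo : N ≤ C
  hi : C ≤ N ^ 2 * Z ^ 5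
  D_eq : D = (n1 : ℤ) * n2
  h_eq : h = (n1 : ℤ) - n2
  W_eq : W = ((H : ℤ) + 20) * C * N
  G_eq : G = 2 * (H + 20) * C / N

/-- the quadruples `(b, a, τ, τ')` with `C ≤ b < 2C`, `0 ≤ a < b`, `(a, b) = (b, D) = 1`,
`|τ|, |τ'| ≤ W`, `b ∣ τ + a h`, `b ∣ a τ' - h`, `D ∣ τ τ' + h²` -/
noncomputable def GG (D h W : ℤ) (C : ℕ) : Finset (ℤ × ℤ × ℤ × ℤ) :=
  (Ico (C : ℤ) (2 * C) ×ˢ Ico (0 : ℤ) (2 * C) ×ˢ Icc (-W) W ×ˢ Icc (-W) W).filter fun u =>
    u.2.1 < u.1 ∧ Int.gcd u.2.1 u.1 = 1 ∧ Int.gcd u.1 D = 1 ∧ u.1 ∣ u.2.2.1 + u.2.1 * h ∧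
      u.1 ∣ u.2.1 * u.2.2.2 - h ∧ D ∣ u.2.2.1 * u.2.2.2 + h ^ 2

/-- pairs of quadruples with the same `(b, a)` and `2|τ₁ - τ₂|, 2|τ₁' - τ₂'| ≤ b N` -/
noncomputable def AA (D h W : ℤ) (C N : ℕ) : Finset ((ℤ × ℤ × ℤ × ℤ) × (ℤ × ℤ × ℤ × ℤ)) :=
  (GG D h W C ×ˢ GG D h W C).filter fun p =>
    p.1.1 = p.2.1 ∧ p.1.2.1 = p.2.2.1 ∧ 2 * |p.1.2.2.1 - p.2.2.2.1| ≤ p.1.1 * N ∧
      2 * |p.1.2.2.2 - p.2.2.2.2| ≤ p.1.1 * N

/-- pairs of quadruples with the same `b` and `τ₁ = τ₂` modulo `D` -/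
noncomputable def BB (D h W : ℤ) (C : ℕ) : Finset ((ℤ × ℤ × ℤ × ℤ) × (ℤ × ℤ × ℤ × ℤ)) :=
  (GG D h W C ×ˢ GG D h W C).filter fun p => p.1.1 = p.2.1 ∧ p.1.2.2.1 % D = p.2.2.2.1 % D

/-- nonzero integers of absolute value at most `A` -/
noncomputable def nz (A : ℕ) : Finset ℤ := (Icc (-(A : ℤ)) A).filter (fun e => e ≠ 0)

/-- nonzero integers `e` with `2 |e| ≤ N` -/
noncomputable def EE (N : ℕ) : Finset ℤ := nz (N / 2)

/-- `#{(e, e') : D ∣ e' ξ² - h² e + b e e' ξ}` -/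
noncomputable def mm (D h : ℤ) (N : ℕ) (b ξ : ℤ) : ℕ :=
  ((EE N ×ˢ EE N).filter fun e : ℤ × ℤ => D ∣ e.2 * ξ ^ 2 - h ^ 2 * e.1 + b * e.1 * e.2 * ξ).card

/-- `#{(g, g') : b ∣ g h - g' a² h + D g g' a}` -/
noncomputable def mp (D h : ℤ) (G : ℕ) (b a : ℤ) : ℕ :=
  ((nz G ×ˢ nz G).filter fun g : ℤ × ℤ => b ∣ g.1 * h - g.2 * a ^ 2 * h + D * g.1 * g.2 * a).card

/-- the pairs `(b, a)` -/
noncomputable def BA (D : ℤ) (C : ℕ) : Finset (ℤ × ℤ) :=
  (Ico (C : ℤ) (2 * C) ×ˢ Ico (0 : ℤ) (2 * C)).filter fun u =>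
    u.2 < u.1 ∧ Int.gcd u.2 u.1 = 1 ∧ Int.gcd u.1 D = 1

/-- the pairs `(b, ξ)` -/
noncomputable def BX (D : ℤ) (C : ℕ) : Finset (ℤ × ℤ) :=
  (Ico (C : ℤ) (2 * C) ×ˢ Ico (0 : ℤ) D).filter fun u => Int.gcd u.2 D = 1

/-- the number of `(b, a)` that satisfy the congruence for both `g` and `f` -/
noncomputable def cnt (D h : ℤ) (C : ℕ) (g f : ℤ × ℤ) : ℕ :=
  ((BA D C).filter fun u => (u.1 ∣ g.1 * h - g.2 * u.2 ^ 2 * h + D * g.1 * g.2 * u.2) ∧
    (u.1 ∣ f.1 * h - f.2 * u.2 ^ 2 * h + D * f.1 * f.2 * u.2)).card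

/-- `gcd (Δ, g f (g' - f'), g' f' (g - f))`, `Δ = g' f - g f'` -/
def W1 (g f : ℤ × ℤ) : ℕ :=
  Nat.gcd (Int.gcd (g.2 * f.1 - g.1 * f.2) (g.1 * f.1 * (g.2 - f.2))) (g.2 * f.2 * (g.1 - f.1)).natAbs

/-! ### general lemmas -/

theorem mem_nz {A : ℕ} {k : ℤ} : k ∈ nz A ↔ k ≠ 0 ∧ k.natAbs ≤ A := by
  unfold nz; rw [Finset.mem_filter, Finset.mem_Icc]; omega

theorem card_nz (A : ℕ) : (nz A).card = 2 * A := by
  have : nz A = (Icc (-(A : ℤ)) A).erase 0 := by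
    ext k; unfold nz; rw [Finset.mem_filter, Finset.mem_erase]; tauto
  rw [this, Finset.card_erase_of_mem (by simp), Int.card_Icc]; omega

theorem mem_EE {N : ℕ} {k : ℤ} : k ∈ EE N ↔ k ≠ 0 ∧ 2 * |k| ≤ N := by
  unfold EE; rw [mem_nz]
  have : |k| = (k.natAbs : ℤ) := (Int.natCast_natAbs k).symm
  omega

theorem card_EE_le (N : ℕ) : (EE N).card ≤ N := by
  unfold EE; rw [card_nz]; omega

theorem mem_GG {D h W : ℤ} {C : ℕ} {u : ℤ × ℤ × ℤ × ℤ} : u ∈ GG D h W C ↔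
    ((C : ℤ) ≤ u.1 ∧ u.1 < 2 * C) ∧ (0 ≤ u.2.1 ∧ u.2.1 < 2 * C) ∧ (-W ≤ u.2.2.1 ∧ u.2.2.1 ≤ W) ∧
      (-W ≤ u.2.2.2 ∧ u.2.2.2 ≤ W) ∧ u.2.1 < u.1 ∧ Int.gcd u.2.1 u.1 = 1 ∧ Int.gcd u.1 D = 1 ∧
      u.1 ∣ u.2.2.1 + u.2.1 * h ∧ u.1 ∣ u.2.1 * u.2.2.2 - h ∧ D ∣ u.2.2.1 * u.2.2.2 + h ^ 2 := by
  unfold GG
  simp only [Finset.mem_filter, Finset.mem_product, Finset.mem_Ico, Finset.mem_Icc]
  tauto

theorem mem_BA {D : ℤ} {C : ℕ} {u : ℤ × ℤ} : u ∈ BA D C ↔
    ((C : ℤ) ≤ u.1 ∧ u.1 < 2 * C) ∧ (0 ≤ u.2 ∧ u.2 < 2 * C) ∧ u.2 < u.1 ∧ Int.gcd u.2 u.1 = 1 ∧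
      Int.gcd u.1 D = 1 := by
  unfold BA
  simp only [Finset.mem_filter, Finset.mem_product, Finset.mem_Ico]
  tauto

theorem mem_BX {D : ℤ} {C : ℕ} {u : ℤ × ℤ} : u ∈ BX D C ↔
    ((C : ℤ) ≤ u.1 ∧ u.1 < 2 * C) ∧ (0 ≤ u.2 ∧ u.2 < D) ∧ Int.gcd u.2 D = 1 := by
  unfold BX
  simp only [Finset.mem_filter, Finset.mem_product, Finset.mem_Ico]
  tauto

/-- the number of pairs with equal keys, as a sum of squares -/
theorem card_pairs_eq {α κ : Type} [DecidableEq α] [DecidableEq κ] (S : Finset α) (key : α → κ)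
    (K : Finset κ) (hK : ∀ u ∈ S, key u ∈ K) :
    ((S ×ˢ S).filter fun p => key p.1 = key p.2).card =
      ∑ k ∈ K, (S.filter fun u => key u = k).card ^ 2 := by
  rw [Finset.card_eq_sum_card_fiberwise (f := fun p => key p.1) (t := K)]
  · apply Finset.sum_congr rfl
    intro k _
    rw [sq, ← Finset.card_product]
    congr 1
    ext p
    simp only [Finset.mem_filter, Finset.mem_product]
    constructor
    · rintro ⟨⟨⟨h1, h2⟩, h3⟩, h4⟩
      exact ⟨⟨h1, h4⟩, h2, h3 ▸ h4⟩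
    · rintro ⟨⟨h1, h2⟩, h3, h4⟩
      exact ⟨⟨⟨h1, h3⟩, h2.trans h4.symm⟩, h2⟩
  · intro p hp
    simp only [Finset.coe_filter, Finset.mem_product, Set.mem_ofPred_eq] at hp
    exact hK _ hp.1.1

/-- Cauchy-Schwarz along a key -/
theorem CS_fib {α κ : Type} [DecidableEq α] [DecidableEq κ] (S : Finset α) (key : α → κ)
    (K : Finset κ) (hK : ∀ u ∈ S, key u ∈ K) (m : κ → ℝ) :
    (∑ u ∈ S, m (key u)) ^ 2 ≤
      (((S ×ˢ S).filter fun p => key p.1 = key p.2).card : ℝ) * ∑ k ∈ K, m k ^ 2 := by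
  rw [card_pairs_eq S key K hK, ← Finset.sum_fiberwise_of_maps_to hK]
  have h1 : ∀ k ∈ K, ∑ u ∈ S.filter (fun u => key u = k), m (key u) =
      ((S.filter fun u => key u = k).card : ℝ) * m k := by
    intro k _
    rw [← nsmul_eq_mul, ← Finset.sum_const]
    apply Finset.sum_congr rfl
    intro u hu
    rw [(Finset.mem_filter.mp hu).2]
  rw [Finset.sum_congr rfl h1]
  push_cast
  exact Finset.sum_mul_sq_le_sq_mul_sq _ _ _

/-- splitting into cells costs the number of cells -/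
theorem cells {α κ ι : Type} [DecidableEq α] [DecidableEq κ] [DecidableEq ι] (S : Finset α)
    (key : α → κ) (cell : α → ι) (I : Finset ι) (hI : ∀ u ∈ S, cell u ∈ I) :
    (((S ×ˢ S).filter fun p => key p.1 = key p.2).card : ℝ) ≤
      (I.card : ℝ) * ((S ×ˢ S).filter fun p => key p.1 = key p.2 ∧ cell p.1 = cell p.2).card := by
  have h1 := card_pairs_eq S key (S.image key) (fun u hu => Finset.mem_image_of_mem _ hu)
  have h2 := card_pairs_eq S (fun u => (key u, cell u)) (S.image key ×ˢ I)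
    (fun u hu => Finset.mem_product.mpr ⟨Finset.mem_image_of_mem _ hu, hI u hu⟩)
  have h3 : ((S ×ˢ S).filter fun p => key p.1 = key p.2 ∧ cell p.1 = cell p.2).card =
      ((S ×ˢ S).filter fun p => (key p.1, cell p.1) = (key p.2, cell p.2)).card := by
    congr 1
    apply Finset.filter_congr
    intro p _
    rw [Prod.mk.injEq]
  rw [h3, h2, h1, Finset.sum_product]
  push_cast
  rw [Finset.mul_sum]
  apply Finset.sum_le_sum
  intro k _
  have h4 : ((S.filter fun u => key u = k).card : ℝ) =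
      ∑ i ∈ I, 1 * ((S.filter fun u => (key u, cell u) = (k, i)).card : ℝ) := by
    rw [Finset.card_eq_sum_card_fiberwise (f := cell) (t := I)]
    · push_cast
      apply Finset.sum_congr rfl
      intro i _
      rw [one_mul]
      congr 2
      ext u
      simp only [Finset.mem_filter, Prod.mk.injEq, and_assoc]
    · intro u hu
      simp only [Finset.coe_filter, Set.mem_ofPred_eq] at hu
      exact hI u hu.1
  rw [h4]
  calc _ ≤ (∑ i ∈ I, (1 : ℝ) ^ 2) *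
        ∑ i ∈ I, ((S.filter fun u => (key u, cell u) = (k, i)).card : ℝ) ^ 2 :=
        Finset.sum_mul_sq_le_sq_mul_sq _ _ _
    _ = _ := by simp

/-! ### consequences of the standing assumptions -/

section MCfacts

variable {N H Z V : ℕ} {T : ℝ} {n1 n2 C : ℕ} {D h W : ℤ} {G : ℕ}

theorem MC.T2 (hM : MC N H Z V T n1 n2 C D h W G) : (2 : ℝ) ≤ T := hM.par.loss.two

theorem MC.bigN (hM : MC N H Z V T n1 n2 C D h W G) :
    (20000 * H * Z) ^ 100 ≤ N := by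
  have h1 := hM.par.hN
  have h2 := hM.T2
  have h3 : ((20000 * H * Z : ℕ) : ℝ) ^ 100 ≤ N := by
    refine le_trans (pow_le_pow_left₀ (by positivity) ?_ 100) h1
    push_cast
    have hH : (0 : ℝ) ≤ H := by positivity
    have hZ : (0 : ℝ) ≤ Z := by positivity
    have : (20000 : ℝ) ≤ 10000 * T := by linarith
    calc (20000 : ℝ) * H * Z ≤ 10000 * T * H * Z := by
          apply mul_le_mul_of_nonneg_right _ hZ
          exact mul_le_mul_of_nonneg_right this hH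
      _ = _ := rfl
  exact_mod_cast h3

theorem MC.H1 (hM : MC N H Z V T n1 n2 C D h W G) : 1 ≤ H := hM.par.hH
theorem MC.Z2 (hM : MC N H Z V T n1 n2 C D h W G) : 2 ≤ Z := hM.par.hZ

/-- `(20000 H Z) ^ j ≤ N` for `j ≤ 100` -/
theorem MC.pow_le (hM : MC N H Z V T n1 n2 C D h W G) (j : ℕ) (hj : j ≤ 100) :
    (20000 * H * Z) ^ j ≤ N := by
  refine le_trans (Nat.pow_le_pow_right ?_ hj) hM.bigN
  have h1 := hM.H1
  have h2 := hM.Z2
  have : 0 < 20000 * H * Z := by positivity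
  omega

theorem MC.HZN (hM : MC N H Z V T n1 n2 C D h W G) : 20000 * H * Z ≤ N := by
  simpa using hM.pow_le 1 (by norm_num)

theorem MC.HN (hM : MC N H Z V T n1 n2 C D h W G) : 20000 * H ≤ N := by
  have h1 := hM.HZN
  have h2 := hM.Z2
  nlinarith

theorem MC.N1 (hM : MC N H Z V T n1 n2 C D h W G) : 20000 ≤ N := by
  have h1 := hM.HN
  have h2 := hM.H1
  omega

theorem MC.Z5N (hM : MC N H Z V T n1 n2 C D h W G) : Z ^ 5 ≤ N := by
  have h1 := hM.pow_le 5 (by norm_num)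
  have h2 : Z ≤ 20000 * H * Z := by
    have := hM.H1
    calc Z = 1 * Z := (one_mul Z).symm
      _ ≤ 20000 * H * Z := Nat.mul_le_mul_right _ (by omega)
  exact (Nat.pow_le_pow_left h2 5).trans h1

theorem MC.C_le (hM : MC N H Z V T n1 n2 C D h W G) : C ≤ N ^ 3 := by
  calc C ≤ N ^ 2 * Z ^ 5 := hM.hi
    _ ≤ N ^ 2 * N := Nat.mul_le_mul_left _ hM.Z5N
    _ = N ^ 3 := by ring

theorem MC.h0 (hM : MC N H Z V T n1 n2 C D h W G) : h ≠ 0 := by
  rw [hM.h_eq]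
  intro h0
  exact hM.pair.ne (by exact_mod_cast sub_eq_zero.mp h0)

theorem MC.hH (hM : MC N H Z V T n1 n2 C D h W G) : |h| ≤ H := by
  rw [hM.h_eq]; exact hM.pair.dist

theorem MC.hnat (hM : MC N H Z V T n1 n2 C D h W G) : h.natAbs ≤ H := by
  have := hM.hH
  rw [← Int.natCast_natAbs] at this
  exact_mod_cast this

theorem MC.D_lo (hM : MC N H Z V T n1 n2 C D h W G) : (N : ℤ) ^ 2 < D := by
  rw [hM.D_eq]
  have h1 : (N : ℤ) < n1 := by exact_mod_cast hM.pair.l1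
  have h2 : (N : ℤ) < n2 := by exact_mod_cast hM.pair.l2
  have h3 : (0 : ℤ) ≤ N := by positivity
  nlinarith

theorem MC.D_hi (hM : MC N H Z V T n1 n2 C D h W G) : D ≤ 4 * (N : ℤ) ^ 2 := by
  rw [hM.D_eq]
  have h1 : (n1 : ℤ) ≤ 2 * N := by exact_mod_cast hM.pair.u1
  have h2 : (n2 : ℤ) ≤ 2 * N := by exact_mod_cast hM.pair.u2
  have h3 : (0 : ℤ) ≤ n1 := by positivity
  have h4 : (0 : ℤ) ≤ N := by positivity
  nlinarith

theorem MC.D_pos (hM : MC N H Z V T n1 n2 C D h W G) : 0 < D := by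
  have := hM.D_lo
  have h2 : (0 : ℤ) ≤ (N : ℤ) ^ 2 := by positivity
  linarith

/-- small nonzero integers are units modulo `n1` and `n2` -/
theorem MC.ncop (hM : MC N H Z V T n1 n2 C D h W G) (e : ℤ) (he : e ≠ 0) (heN : |e| ≤ N) :
    ¬ (n1 : ℤ) ∣ e ∧ ¬ (n2 : ℤ) ∣ e := by
  have key : ∀ n : ℕ, N < n → ¬ (n : ℤ) ∣ e := by
    intro n hn hd
    have h1 := Int.le_of_dvd (abs_pos.mpr he) ((dvd_abs _ _).mpr hd)
    have h2 : (N : ℤ) < n := by exact_mod_cast hn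
    linarith
  exact ⟨key n1 hM.pair.l1, key n2 hM.pair.l2⟩

theorem MC.cop_of (hM : MC N H Z V T n1 n2 C D h W G) (e : ℤ) (h1 : ¬ (n1 : ℤ) ∣ e)
    (h2 : ¬ (n2 : ℤ) ∣ e) : IsCoprime e D := by
  rw [hM.D_eq]
  apply IsCoprime.mul_right
  · exact ((Int.prime_iff_natAbs_prime.mpr (by simpa using hM.pair.p1)).coprime_iff_not_dvd.mpr h1).symm
  · exact ((Int.prime_iff_natAbs_prime.mpr (by simpa using hM.pair.p2)).coprime_iff_not_dvd.mpr h2).symm

theorem MC.cop (hM : MC N H Z V T n1 n2 C D h W G) (e : ℤ) (he : e ≠ 0) (heN : |e| ≤ N) :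
    IsCoprime e D := by
  obtain ⟨h1, h2⟩ := hM.ncop e he heN
  exact hM.cop_of e h1 h2

theorem MC.hcop (hM : MC N H Z V T n1 n2 C D h W G) : IsCoprime h D := by
  apply hM.cop h hM.h0
  have h1 := hM.hH
  have h2 : ((20000 * H : ℕ) : ℤ) ≤ N := by exact_mod_cast hM.HN
  push_cast at h2
  have h3 : (0 : ℤ) ≤ H := by positivity
  linarith

theorem MC.GN (hM : MC N H Z V T n1 n2 C D h W G) : G * N ≤ 2 * (H + 20) * C := by
  rw [hM.G_eq]; exact Nat.div_mul_le_self _ _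

/-- every integer `g` with `|g| D ≤ 2W` satisfies `|g| ≤ G` -/
theorem MC.le_G (hM : MC N H Z V T n1 n2 C D h W G) (g : ℤ) (hg : |g| * D ≤ 2 * W) :
    g.natAbs ≤ G := by
  have hN := hM.N1
  rw [hM.G_eq, Nat.le_div_iff_mul_le (by omega)]
  have h1 := hM.D_lo
  have h2 : |g| * (N : ℤ) ^ 2 ≤ 2 * (((H : ℤ) + 20) * C * N) := by
    rw [← hM.W_eq]
    refine le_trans ?_ hg
    exact mul_le_mul_of_nonneg_left h1.le (abs_nonneg g)
  have h3 : (g.natAbs * N) * N ≤ (2 * (H + 20) * C) * N := by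
    have : ((g.natAbs * N * N : ℕ) : ℤ) ≤ ((2 * (H + 20) * C * N : ℕ) : ℤ) := by
      push_cast
      nlinarith
    exact_mod_cast this
  exact Nat.le_of_mul_le_mul_right h3 (by omega)

theorem MC.G_le (hM : MC N H Z V T n1 n2 C D h W G) : (G : ℝ) ≤ 42 * H * C / N := by
  have hN := hM.N1
  have hNR : (0 : ℝ) < N := by exact_mod_cast (by omega : 0 < N)
  rw [le_div_iff₀ hNR]
  have h1 : ((G * N : ℕ) : ℝ) ≤ ((2 * (H + 20) * C : ℕ) : ℝ) := by exact_mod_cast hM.GN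
  push_cast at h1
  have h2 : (1 : ℝ) ≤ H := by exact_mod_cast hM.H1
  have h3 : (0 : ℝ) ≤ C := by positivity
  nlinarith

theorem MC.GH_lt (hM : MC N H Z V T n1 n2 C D h W G) : G * H < C := by
  have h1 := hM.GN
  have h2 := hM.pow_le 2 (by norm_num)
  have h3 := hM.H1
  have h4 := hM.Z2
  have h5 : 2 * (H + 20) * H < N := by
    have : 2 * (H + 20) * H < (20000 * H * Z) ^ 2 := by
      have e1 : 20000 * H ≤ 20000 * H * Z := by nlinarith
      have e2 : (20000 * H) ^ 2 ≤ (20000 * H * Z) ^ 2 := Nat.pow_le_pow_left e1 2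
      nlinarith
    omega
  have hN := hM.N1
  have hC : 0 < C := by have := hM.lo; omega
  by_contra hc
  push Not at hc
  have : C * N ≤ 2 * (H + 20) * H * C := by
    calc C * N ≤ G * H * N := Nat.mul_le_mul_right _ hc
      _ = (G * N) * H := by ring
      _ ≤ (2 * (H + 20) * C) * H := Nat.mul_le_mul_right _ h1
      _ = _ := by ring
  have h6 : N * C ≤ 2 * (H + 20) * H * C := by linarith [mul_comm C N]
  have := Nat.le_of_mul_le_mul_right h6 hC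
  omega

theorem MC.G_le_C (hM : MC N H Z V T n1 n2 C D h W G) : G ≤ C := by
  have h1 := hM.GH_lt
  have h2 := hM.H1
  nlinarith

/-- `G ≤ 42 H Z⁵ N` -/
theorem MC.G_le' (hM : MC N H Z V T n1 n2 C D h W G) : G ≤ 42 * H * Z ^ 5 * N := by
  have hN := hM.N1
  have h1 := hM.GN
  have h2 := hM.hi
  have h3 := hM.H1
  have : G * N ≤ (42 * H * Z ^ 5 * N) * N := by
    calc G * N ≤ 2 * (H + 20) * C := h1
      _ ≤ (42 * H) * (N ^ 2 * Z ^ 5) := Nat.mul_le_mul (by omega) h2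
      _ = _ := by ring
  exact Nat.le_of_mul_le_mul_right this (by omega)

theorem MC.G_le_N2 (hM : MC N H Z V T n1 n2 C D h W G) : G ≤ N ^ 2 := by
  have h1 := hM.G_le'
  have h2 := hM.pow_le 5 (by norm_num)
  have h3 := hM.H1
  have h4 : 42 * H * Z ^ 5 ≤ (20000 * H * Z) ^ 5 := by
    have : H ≤ H ^ 5 := Nat.le_self_pow (by norm_num) H
    calc 42 * H * Z ^ 5 ≤ 20000 ^ 5 * H ^ 5 * Z ^ 5 := by
          apply Nat.mul_le_mul_right
          exact Nat.mul_le_mul (by norm_num) this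
      _ = (20000 * H * Z) ^ 5 := by ring
  calc G ≤ 42 * H * Z ^ 5 * N := h1
    _ ≤ N * N := Nat.mul_le_mul_right _ (h4.trans h2)
    _ = N ^ 2 := by ring

/-- divisor bound for everything up to `N ^ 100` -/
theorem MC.tau (hM : MC N H Z V T n1 n2 C D h W G) (n : ℕ) (h1 : 1 ≤ n) (h2 : n ≤ N ^ 100) :
    (n.divisors.card : ℝ) ≤ T := hM.par.loss.tau n h1 (h2.trans hM.par.hV)

/-- logarithm bound for everything up to `N ^ 100` -/
theorem MC.log (hM : MC N H Z V T n1 n2 C D h W G) (n : ℕ) (h2 : n ≤ N ^ 100) :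
    (Nat.log 2 n : ℝ) + 2 ≤ T := by
  refine le_trans ?_ hM.par.loss.log
  have : Nat.log 2 n ≤ Nat.log 2 V := Nat.log_mono_right (h2.trans hM.par.hV)
  have h3 : (Nat.log 2 n : ℝ) ≤ Nat.log 2 V := by exact_mod_cast this
  linarith

/-- harmonic sums up to `N ^ 100` are at most `T` -/
theorem harm_le (n : ℕ) (hn : 1 ≤ n) : ∑ k ∈ Icc 1 n, (1 : ℝ) / k ≤ (Nat.log 2 n : ℝ) + 1 := by
  induction n using Nat.strong_induction_on with
  | _ n ih =>
    rcases Nat.lt_or_ge n 2 with h | h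
    · have : n = 1 := by omega
      subst this
      simp
    · have h1 : 1 ≤ n / 2 := by omega
      have h2 := ih (n / 2) (by omega) h1
      have h3 : Nat.log 2 n = Nat.log 2 (n / 2) + 1 := by
        rw [Nat.log_div_base]
        have : 1 ≤ Nat.log 2 n := Nat.le_log_of_pow_le (by norm_num) (by omega)
        omega
      have h4 : Icc 1 n = Icc 1 (n / 2) ∪ Ioc (n / 2) n := by
        ext k; simp only [Finset.mem_union, Finset.mem_Icc, Finset.mem_Ioc]; omega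
      have h5 : Disjoint (Icc 1 (n / 2)) (Ioc (n / 2) n) := by
        rw [Finset.disjoint_left]
        intro k hk hk'
        rw [Finset.mem_Icc] at hk
        rw [Finset.mem_Ioc] at hk'
        omega
      rw [h4, Finset.sum_union h5, h3]
      have h6 : ∑ k ∈ Ioc (n / 2) n, (1 : ℝ) / k ≤ 1 := by
        have h7 : ∀ k ∈ Ioc (n / 2) n, (1 : ℝ) / k ≤ 1 / ((n / 2 : ℕ) + 1 : ℝ) := by
          intro k hk
          rw [Finset.mem_Ioc] at hk
          apply one_div_le_one_div_of_le (by positivity)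
          exact_mod_cast hk.1
        refine (Finset.sum_le_sum h7).trans ?_
        rw [Finset.sum_const, Nat.card_Ioc, nsmul_eq_mul, mul_one_div, div_le_one (by positivity)]
        have : n - n / 2 ≤ n / 2 + 1 := by omega
        exact_mod_cast this
      push_cast
      linarith

theorem MC.harm (hM : MC N H Z V T n1 n2 C D h W G) (n : ℕ) (h2 : n ≤ N ^ 100) :
    ∑ k ∈ Icc 1 n, (1 : ℝ) / k ≤ T := by
  rcases Nat.eq_zero_or_pos n with rfl | hn
  · have := hM.T2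
    simp; linarith
  · have h3 := harm_le n hn
    have h4 := hM.log n h2
    linarith

end MCfacts

/-! ### two facts on `GG`, one count -/

theorem GG_b {D h W : ℤ} {C : ℕ} {u : ℤ × ℤ × ℤ × ℤ} (hu : u ∈ GG D h W C) :
    u.1 ∣ u.2.2.1 * u.2.2.2 + h ^ 2 := by
  rw [mem_GG] at hu
  obtain ⟨_, _, _, _, _, hab, _, h1, h2, _⟩ := hu
  have hc : IsCoprime u.1 u.2.1 := (Int.isCoprime_iff_gcd_eq_one.mpr hab).symm
  apply hc.dvd_of_dvd_mul_left
  have e : u.2.1 * (u.2.2.1 * u.2.2.2 + h ^ 2) =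
      u.2.2.1 * (u.2.1 * u.2.2.2 - h) + h * (u.2.2.1 + u.2.1 * h) := by ring
  rw [e]
  exact dvd_add (Dvd.dvd.mul_left h2 _) (Dvd.dvd.mul_left h1 _)

theorem GG_cop {D h W : ℤ} {C : ℕ} (hhD : IsCoprime h D) {u : ℤ × ℤ × ℤ × ℤ}
    (hu : u ∈ GG D h W C) : IsCoprime u.2.2.1 D := by
  rw [mem_GG] at hu
  obtain ⟨_, _, _, _, _, _, _, _, _, k, hk⟩ := hu
  obtain ⟨x, y, hxy⟩ := hhD.pow_left (m := 2)
  exact ⟨-x * u.2.2.2, x * k + y, by linear_combination hxy - x * hk⟩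

/-- `#{a ∈ [0, b) : b ∣ t + a h} ≤ |h|` -/
theorem count_a (b t h : ℤ) (hb : 0 < b) (hh : h ≠ 0) :
    ((Ico (0 : ℤ) b).filter fun a => b ∣ t + a * h).card ≤ h.natAbs := by
  have key : ∀ t h : ℤ, 0 < h →
      ((Ico (0 : ℤ) b).filter fun a => b ∣ t + a * h).card ≤ h.natAbs := by
    intro t h hh
    set c : ℤ := -((-t) / b) with hc
    have hcard : (Ico c (c + h)).card = h.natAbs := by
      rw [Int.card_Ico]; omega
    rw [← hcard]
    apply Finset.card_le_card_of_injOn (fun a => (t + a * h) / b)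
    · intro a ha
      simp only [Finset.coe_filter, Finset.mem_Ico, Set.mem_ofPred_eq] at ha
      obtain ⟨⟨h1, h2⟩, k, hk⟩ := ha
      simp only [Finset.coe_Ico, Set.mem_Ico]
      rw [hk, Int.mul_ediv_cancel_left _ (by omega)]
      constructor
      · rw [hc, neg_le, Int.le_ediv_iff_mul_le hb]
        nlinarith
      · by_contra hcon
        push Not at hcon
        have h3 : -(k - h) ≤ (-t) / b := by omega
        rw [Int.le_ediv_iff_mul_le hb] at h3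
        nlinarith
    · intro a ha a' ha' heq
      simp only [Finset.coe_filter, Finset.mem_Ico, Set.mem_ofPred_eq] at ha ha' heq
      obtain ⟨_, k, hk⟩ := ha
      obtain ⟨_, k', hk'⟩ := ha'
      rw [hk, hk', Int.mul_ediv_cancel_left _ (by omega), Int.mul_ediv_cancel_left _ (by omega)]
        at heq
      have : a * h = a' * h := by rw [heq] at hk; linarith
      exact mul_right_cancel₀ hh.ne' this
  rcases lt_or_gt_of_ne hh with hneg | hpos
  · have h1 := key (-t) (-h) (by omega)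
    rw [Int.natAbs_neg] at h1
    refine le_trans (le_of_eq ?_) h1
    congr 1
    apply Finset.filter_congr
    intro a _
    rw [show -t + a * -h = -(t + a * h) by ring, dvd_neg]
  · exact key t h hpos

end Pool.Agent.TII.FM
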