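import Pool.Agent.TII.A7

/-!
# [TII-G1] the walk on a finite quotient; the multiplicity argument
-/

set_option autoImplicit false

namespace Pool.Agent.TII

open Finset

theorem sum_ball_inv {M : Type*} [AddCommMonoid M] (Z : ℕ) (F : SL → M) :
    ∑ s ∈ ball Z, F s⁻¹ = ∑ s ∈ ball Z, F s := by
  refine Finset.sum_nbij' (fun s => s⁻¹) (fun s => s⁻¹) ?_ ?_ ?_ ?_ ?_
  · intro s hs
    rw [mem_ball, nm_inv]; exact mem_ball.1 hs
  · intro s hs
    rw [mem_ball, nm_inv]; exact mem_ball.1 hs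
  · intro s _; exact inv_inv s
  · intro s _; exact inv_inv s
  · intro s _; rfl

section walk

variable {G : Type} [Group G] [Fintype G] [DecidableEq G] (π : SL →* G) (Z : ℕ)

/-- the averaging operator on functions on `G` -/
noncomputable def TT {K : Type} [AddCommMonoid K] (φ : G → K) : G → K := fun g => ∑ s ∈ ball Z, φ (π s * g)

/-- the distribution of the walk after `k` steps -/
noncomputable def gcv : ℕ → G → ℝ
  | 0 => fun x => if x = 1 then 1 else 0
  | k + 1 => TT π Z (gcv k)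

theorem gcv_succ (k : ℕ) (x : G) : gcv π Z (k + 1) x = ∑ s ∈ ball Z, gcv π Z k (π s * x) := rfl

omit [DecidableEq G] in
theorem TT_symm (a b : G → ℝ) : ∑ g, TT π Z a g * b g = ∑ g, a g * TT π Z b g := by
  unfold TT
  simp only [Finset.sum_mul, Finset.mul_sum]
  rw [Finset.sum_comm]
  conv_rhs => rw [Finset.sum_comm]
  rw [← sum_ball_inv]
  refine Finset.sum_congr rfl fun s _ => ?_
  rw [← Equiv.sum_comp (Equiv.mulLeft (π s)) (fun g => a (π s⁻¹ * g) * b g)]
  refine Finset.sum_congr rfl fun g _ => ?_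
  simp only [Equiv.coe_mulLeft]
  rw [map_inv, inv_mul_cancel_left]

theorem gcv_mul (i j : ℕ) : ∑ x, gcv π Z i x * gcv π Z j x = gcv π Z (i + j) 1 := by
  induction i generalizing j with
  | zero =>
    rw [zero_add, Finset.sum_eq_single 1]
    · show (if (1 : G) = 1 then (1 : ℝ) else 0) * _ = _
      rw [if_pos rfl, one_mul]
    · intro x _ hx
      show (if x = 1 then (1 : ℝ) else 0) * _ = _
      rw [if_neg hx, zero_mul]
    · intro h; exact absurd (Finset.mem_univ _) h
  | succ i ih =>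
    have h := TT_symm π Z (gcv π Z i) (gcv π Z j)
    calc ∑ x, gcv π Z (i + 1) x * gcv π Z j x = ∑ x, gcv π Z i x * gcv π Z (j + 1) x := h
      _ = gcv π Z (i + (j + 1)) 1 := ih (j + 1)
      _ = gcv π Z (i + 1 + j) 1 := by congr 1; ring

theorem gcv_eq (k : ℕ) (x : G) :
    gcv π Z k x = ∑ γ ∈ (ball ((2 * Z) ^ k)).filter (fun γ => π γ = x), reps Z k γ := by
  induction k generalizing x with
  | zero =>
    rw [pow_zero]
    show (if x = 1 then (1 : ℝ) else 0) = _
    by_cases hx : x = 1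
    · rw [if_pos hx]
      rw [Finset.sum_eq_single 1]
      · unfold reps; rw [if_pos rfl]
      · intro γ _ hγ
        unfold reps; rw [if_neg hγ]
      · intro h
        exfalso
        apply h
        rw [Finset.mem_filter, mem_ball, nm_one, map_one]
        exact ⟨le_refl _, hx.symm⟩
    · rw [if_neg hx]
      symm
      refine Finset.sum_eq_zero fun γ hγ => ?_
      unfold reps
      rw [if_neg]
      intro h
      apply hx
      rw [← (Finset.mem_filter.1 hγ).2, h, map_one]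
  | succ k ih =>
    rw [gcv_succ, ← sum_ball_inv]
    have e1 : ∀ s ∈ ball Z, gcv π Z k (π s⁻¹ * x) =
        ∑ γ ∈ (ball ((2 * Z) ^ (k + 1))).filter (fun γ => π γ = x), reps Z k (s⁻¹ * γ) := by
      intro s hs
      rw [ih]
      set B := (ball ((2 * Z) ^ k)).filter (fun γ => π γ = π s⁻¹ * x) with hB
      have hinj : Set.InjOn (fun γ : SL => s * γ) (B : Set SL) := fun a _ b _ h => mul_left_cancel h
      have e2 : ∑ γ ∈ B, reps Z k γ = ∑ γ ∈ B.image (fun γ => s * γ), reps Z k (s⁻¹ * γ) := by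
        rw [Finset.sum_image hinj]
        refine Finset.sum_congr rfl fun γ _ => ?_
        rw [inv_mul_cancel_left]
      rw [e2]
      refine Finset.sum_subset ?_ ?_
      · intro γ hγ
        obtain ⟨γ', hγ', rfl⟩ := Finset.mem_image.1 hγ
        rw [hB, Finset.mem_filter, mem_ball] at hγ'
        rw [Finset.mem_filter, mem_ball]
        refine ⟨?_, ?_⟩
        · have h1 := nm_mul s γ'
          have h2 := mem_ball.1 hs
          calc nm (s * γ') ≤ 2 * nm s * nm γ' := h1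
            _ ≤ 2 * Z * (2 * Z) ^ k := Nat.mul_le_mul (Nat.mul_le_mul_left _ h2) hγ'.1
            _ = (2 * Z) ^ (k + 1) := by ring
        · rw [map_mul, hγ'.2, map_inv, mul_inv_cancel_left]
      · intro γ hγ hγ'
        by_contra hcon
        apply hγ'
        rw [Finset.mem_image]
        refine ⟨s⁻¹ * γ, ?_, mul_inv_cancel_left _ _⟩
        rw [hB, Finset.mem_filter, mem_ball]
        refine ⟨reps_support Z k _ hcon, ?_⟩
        rw [map_mul, (Finset.mem_filter.1 hγ).2]
    rw [Finset.sum_congr rfl e1, Finset.sum_comm]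
    refine Finset.sum_congr rfl fun γ _ => ?_
    conv_rhs => unfold reps

/-- powers of `TT` -/
noncomputable def TTk (k : ℕ) (φ : G → ℂ) : G → ℂ := (TT π Z)^[k] φ

theorem TTk_eq (k : ℕ) (φ : G → ℂ) (g : G) :
    TTk π Z k φ g = ∑ h, (gcv π Z k (g * h⁻¹) : ℂ) * φ h := by
  induction k generalizing g with
  | zero =>
    show φ g = _
    rw [Finset.sum_eq_single g]
    · show φ g = (((if g * g⁻¹ = 1 then (1 : ℝ) else 0) : ℝ) : ℂ) * φ g
      rw [if_pos (mul_inv_cancel g)]; simp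
    · intro h _ hh
      show (((if g * h⁻¹ = 1 then (1 : ℝ) else 0) : ℝ) : ℂ) * φ h = 0
      rw [if_neg (fun h1 => hh (mul_inv_eq_one.1 h1).symm)]; simp
    · intro h; exact absurd (Finset.mem_univ _) h
  | succ k ih =>
    have e : TTk π Z (k + 1) φ g = ∑ s ∈ ball Z, TTk π Z k φ (π s * g) := by
      unfold TTk
      rw [Function.iterate_succ_apply']
      rfl
    rw [e]
    simp only [ih]
    rw [Finset.sum_comm]
    refine Finset.sum_congr rfl fun h _ => ?_
    rw [gcv_succ]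
    push_cast
    rw [Finset.sum_mul]
    refine Finset.sum_congr rfl fun s _ => ?_
    rw [mul_assoc]

omit [Fintype G] [DecidableEq G] in
theorem TTk_eigen (k : ℕ) (φ : G → ℂ) (lam : ℂ) (h : ∀ g, TT π Z φ g = lam * φ g) (g : G) :
    TTk π Z k φ g = lam ^ k * φ g := by
  induction k generalizing g with
  | zero => simp [TTk]
  | succ k ih =>
    have e : TTk π Z (k + 1) φ g = ∑ s ∈ ball Z, TTk π Z k φ (π s * g) := by
      unfold TTk
      rw [Function.iterate_succ_apply']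
      rfl
    rw [e]
    simp only [ih]
    rw [← Finset.mul_sum, pow_succ, mul_assoc, ← h g]
    rfl

end walk

/-- Bessel's inequality for orthogonal families with equal norms -/
theorem bessel {G : Type} [Fintype G] {m : ℕ} (v : Fin m → G → ℂ) (ρ : ℝ) (hρ : 0 < ρ)
    (hn : ∀ a, ∑ g, ‖v a g‖ ^ 2 = ρ) (ho : ∀ a b, a ≠ b → ∑ g, star (v a g) * v b g = 0) (x : G → ℂ) :
    ∑ a, ‖∑ g, star (v a g) * x g‖ ^ 2 ≤ ρ * ∑ g, ‖x g‖ ^ 2 := by
  set r : ℝ := Real.sqrt ρ with hr
  have hr0 : 0 < r := Real.sqrt_pos.2 hρ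
  have hr2 : r ^ 2 = ρ := Real.sq_sqrt hρ.le
  set e : Fin m → EuclideanSpace ℂ G := fun a => WithLp.toLp 2 (fun g => ((r⁻¹ : ℝ) : ℂ) * v a g) with he
  have hinner : ∀ a (y : G → ℂ), inner ℂ (e a) (WithLp.toLp 2 y : EuclideanSpace ℂ G) =
      ((r⁻¹ : ℝ) : ℂ) * ∑ g, star (v a g) * y g := by
    intro a y
    rw [PiLp.inner_apply, Finset.mul_sum]
    refine Finset.sum_congr rfl fun g _ => ?_
    rw [RCLike.inner_apply, he]
    simp only [map_mul, Complex.conj_ofReal]
    rw [mul_comm, mul_assoc]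
    rfl
  have horth : Orthonormal ℂ e := by
    rw [orthonormal_iff_ite]
    intro a b
    have h1 : e b = WithLp.toLp 2 (fun g => ((r⁻¹ : ℝ) : ℂ) * v b g) := rfl
    rw [h1, hinner]
    have h2 : ∑ g, star (v a g) * (((r⁻¹ : ℝ) : ℂ) * v b g) = ((r⁻¹ : ℝ) : ℂ) * ∑ g, star (v a g) * v b g := by
      rw [Finset.mul_sum]
      refine Finset.sum_congr rfl fun g _ => ?_
      ring
    rw [h2]
    split_ifs with hab
    · subst hab
      have h3 : ∑ g, star (v a g) * v a g = ((ρ : ℝ) : ℂ) := by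
        rw [← hn a]
        push_cast
        refine Finset.sum_congr rfl fun g _ => ?_
        rw [mul_comm]
        exact Complex.mul_conj' (v a g)
      rw [h3, ← hr2]
      push_cast
      have hrc : (r : ℂ) ≠ 0 := by exact_mod_cast hr0.ne'
      field_simp
    · rw [ho a b hab]; simp
  have h := horth.sum_inner_products_le (WithLp.toLp 2 x : EuclideanSpace ℂ G) (s := Finset.univ)
  simp only [hinner] at h
  have h3 : ‖(WithLp.toLp 2 x : EuclideanSpace ℂ G)‖ ^ 2 = ∑ g, ‖x g‖ ^ 2 := by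
    rw [EuclideanSpace.norm_sq_eq]
  rw [h3] at h
  simp only [norm_mul, mul_pow] at h
  rw [← Finset.mul_sum] at h
  have h4 : ‖((r⁻¹ : ℝ) : ℂ)‖ ^ 2 = ρ⁻¹ := by
    rw [Complex.norm_real, Real.norm_eq_abs, sq_abs, inv_pow, hr2]
  rw [h4] at h
  rw [inv_mul_le_iff₀ hρ] at h
  exact h

section mult

variable {G : Type} [Group G] [Fintype G] [DecidableEq G] (π : SL →* G) (Z : ℕ)

/-- an orthogonal family of eigenfunctions bounds the eigenvalue -/
theorem family_bound (k : ℕ) {m : ℕ} (v : Fin m → G → ℂ) (ρ : ℝ) (hρ : 0 < ρ) (lam : ℝ)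
    (hn : ∀ a, ∑ g, ‖v a g‖ ^ 2 = ρ) (ho : ∀ a b, a ≠ b → ∑ g, star (v a g) * v b g = 0)
    (hv : ∀ a g, TT π Z (v a) g = lam * v a g) :
    (m : ℝ) * lam ^ (2 * k) ≤ Fintype.card G *
      ∑ γ ∈ (ball ((2 * Z) ^ (2 * k))).filter (fun γ => π γ = 1), reps Z (2 * k) γ := by
  rw [← gcv_eq π Z (2 * k) 1]
  have hcc : gcv π Z (2 * k) 1 = ∑ x, gcv π Z k x ^ 2 := by
    rw [two_mul, ← gcv_mul]
    refine Finset.sum_congr rfl fun x _ => ?_
    rw [sq]
  have h1 : ∀ g : G, ∑ a, lam ^ (2 * k) * ‖v a g‖ ^ 2 ≤ ρ * ∑ x, gcv π Z k x ^ 2 := by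
    intro g
    have hb := bessel v ρ hρ hn ho (fun h => (gcv π Z k (g * h⁻¹) : ℂ))
    have e1 : ∀ a, ‖∑ h, star (v a h) * (gcv π Z k (g * h⁻¹) : ℂ)‖ ^ 2 = lam ^ (2 * k) * ‖v a g‖ ^ 2 := by
      intro a
      have h2 : ∑ h, star (v a h) * (gcv π Z k (g * h⁻¹) : ℂ) =
          star (∑ h, (gcv π Z k (g * h⁻¹) : ℂ) * v a h) := by
        rw [star_sum]
        refine Finset.sum_congr rfl fun h _ => ?_
        rw [star_mul']
        have : star ((gcv π Z k (g * h⁻¹) : ℂ)) = (gcv π Z k (g * h⁻¹) : ℂ) := Complex.conj_ofReal _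
        rw [this, mul_comm]
      rw [h2, norm_star, ← TTk_eq, TTk_eigen π Z k (v a) lam (hv a), norm_mul, norm_pow,
        Complex.norm_real, mul_pow, ← pow_mul, mul_comm k 2, pow_mul, pow_mul, Real.norm_eq_abs, sq_abs]
    have e2 : ∑ h, ‖(gcv π Z k (g * h⁻¹) : ℂ)‖ ^ 2 = ∑ x, gcv π Z k x ^ 2 := by
      rw [← Equiv.sum_comp ((Equiv.inv G).trans (Equiv.mulLeft g)) (fun x => gcv π Z k x ^ 2)]
      refine Finset.sum_congr rfl fun h _ => ?_
      rw [Complex.norm_real, Real.norm_eq_abs, sq_abs]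
      rfl
    rw [e2] at hb
    rw [← Finset.sum_congr rfl fun a _ => e1 a]
    exact hb
  have h2 := Finset.sum_le_sum fun g (_ : g ∈ (Finset.univ : Finset G)) => h1 g
  rw [Finset.sum_comm] at h2
  simp only [← Finset.mul_sum, hn] at h2
  rw [Finset.sum_const, Finset.sum_const, Finset.card_univ, Finset.card_univ, Fintype.card_fin,
    nsmul_eq_mul, nsmul_eq_mul, ← hcc] at h2
  have h3 : ρ * ((m : ℝ) * lam ^ (2 * k)) ≤ ρ * (Fintype.card G * gcv π Z (2 * k) 1) := by
    nlinarith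
  exact le_of_mul_le_mul_left h3 hρ

end mult

end Pool.Agent.TII
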