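import Pool.Agent.TII.Defs

/-!
# [TII-GC1] primitive points of a lattice in a box
-/

set_option autoImplicit false

namespace Pool.Agent.TII

open Finset

/-- primitive vectors `(x₁, x₂)` in the box of side `A`, with `x₁, x₂, x₁ - x₂ ≠ 0` -/
noncomputable def PB (A : ℕ) : Finset (ℤ × ℤ) :=
  ((Icc (-(A : ℤ)) A) ×ˢ (Icc (-(A : ℤ)) A)).filter fun x =>
    x.1 ≠ 0 ∧ x.2 ≠ 0 ∧ x.1 ≠ x.2 ∧ Int.gcd x.1 x.2 = 1

theorem mem_PB {A : ℕ} {x : ℤ × ℤ} : x ∈ PB A ↔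
    (|x.1| ≤ A ∧ |x.2| ≤ A) ∧ x.1 ≠ 0 ∧ x.2 ≠ 0 ∧ x.1 ≠ x.2 ∧ Int.gcd x.1 x.2 = 1 := by
  unfold PB
  rw [mem_filter, mem_product, mem_Icc, mem_Icc, abs_le, abs_le]

/-- the condition on `x` -/
def QD (q0 q1 q2 : ℕ) (x : ℤ × ℤ) : Prop :=
  (q0 : ℤ) ∣ x.1 ∧ (q1 : ℤ) ∣ x.2 ∧ (q2 : ℤ) ∣ x.2 - x.1

instance (q0 q1 q2 : ℕ) : DecidablePred (QD q0 q1 q2) := fun x => by
  unfold QD; infer_instance

theorem QD_det {q0 q1 q2 : ℕ} (h01 : Nat.Coprime q0 q1) (h02 : Nat.Coprime q0 q2)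
    (h12 : Nat.Coprime q1 q2) {x y : ℤ × ℤ} (hx : QD q0 q1 q2 x) (hy : QD q0 q1 q2 y) :
    ((q0 * q1 * q2 : ℕ) : ℤ) ∣ x.1 * y.2 - x.2 * y.1 := by
  obtain ⟨a1, a2, a3⟩ := hx
  obtain ⟨b1, b2, b3⟩ := hy
  have d0 : (q0 : ℤ) ∣ x.1 * y.2 - x.2 * y.1 :=
    dvd_sub (Dvd.dvd.mul_right a1 _) (Dvd.dvd.mul_left b1 _)
  have d1 : (q1 : ℤ) ∣ x.1 * y.2 - x.2 * y.1 :=
    dvd_sub (Dvd.dvd.mul_left b2 _) (Dvd.dvd.mul_right a2 _)
  have d2 : (q2 : ℤ) ∣ x.1 * y.2 - x.2 * y.1 := by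
    have : x.1 * y.2 - x.2 * y.1 = x.1 * (y.2 - y.1) - (x.2 - x.1) * y.1 := by ring
    rw [this]
    exact dvd_sub (Dvd.dvd.mul_left b3 _) (Dvd.dvd.mul_right a3 _)
  have c01 : IsCoprime (q0 : ℤ) (q1 : ℤ) := Nat.isCoprime_iff_coprime.2 h01
  have c02 : IsCoprime (q0 : ℤ) (q2 : ℤ) := Nat.isCoprime_iff_coprime.2 h02
  have c12 : IsCoprime (q1 : ℤ) (q2 : ℤ) := Nat.isCoprime_iff_coprime.2 h12
  push_cast
  exact (IsCoprime.mul_left c02 c12).mul_dvd (c01.mul_dvd d0 d1) d2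

/-- the vectors with a given determinant against a primitive vector -/
theorem fiber_card {A m : ℕ} (hm : 1 ≤ m) {x0 : ℤ × ℤ} (h0 : x0.1 ≠ 0)
    (hg : Int.gcd x0.1 x0.2 = 1) (hmm : (m : ℤ) ≤ |x0.1| ∨ (m : ℤ) ≤ |x0.2|) (d : ℤ)
    (F : Finset (ℤ × ℤ)) (hF : ∀ x ∈ F, (|x.1| ≤ A ∧ |x.2| ≤ A) ∧ x0.1 * x.2 - x0.2 * x.1 = d) :
    F.card ≤ 1 + 2 * (2 * A / m) := by
  rcases F.eq_empty_or_nonempty with rfl | ⟨xs, hxs⟩
  · simp
  have key : ∀ x ∈ F, ∃ t : ℤ, x.1 - xs.1 = t * x0.1 ∧ x.2 - xs.2 = t * x0.2 := by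
    intro x hx
    have h1 := (hF x hx).2
    have h2 := (hF xs hxs).2
    have h3 : x0.1 * (x.2 - xs.2) = x0.2 * (x.1 - xs.1) := by linear_combination h1 - h2
    have hc : IsCoprime x0.1 x0.2 := Int.isCoprime_iff_gcd_eq_one.2 hg
    have h4 : x0.1 ∣ x.1 - xs.1 := hc.dvd_of_dvd_mul_left ⟨x.2 - xs.2, by rw [h3]⟩
    obtain ⟨t, ht⟩ := h4
    refine ⟨t, by rw [ht]; ring, ?_⟩
    have h5 : x0.1 * (x.2 - xs.2) = x0.1 * (t * x0.2) := by rw [h3, ht]; ring
    exact mul_left_cancel₀ h0 h5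
  choose! t ht using key
  have hmap : ∀ x ∈ F, t x ∈ Icc (-((2 * A / m : ℕ) : ℤ)) ((2 * A / m : ℕ) : ℤ) := by
    intro x hx
    rw [mem_Icc, ← abs_le]
    have ha := (hF x hx).1
    have hb := (hF xs hxs).1
    have hle : |t x| * m ≤ 2 * A := by
      rcases hmm with h | h
      · have h1 : |x.1 - xs.1| ≤ 2 * A := by
          have := abs_sub x.1 xs.1
          linarith [ha.1, hb.1]
        rw [(ht x hx).1, abs_mul] at h1
        exact le_trans (mul_le_mul_of_nonneg_left h (abs_nonneg _)) h1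
      · have h1 : |x.2 - xs.2| ≤ 2 * A := by
          have := abs_sub x.2 xs.2
          linarith [ha.2, hb.2]
        rw [(ht x hx).2, abs_mul] at h1
        exact le_trans (mul_le_mul_of_nonneg_left h (abs_nonneg _)) h1
    have h2 : (t x).natAbs * m ≤ 2 * A := by
      have : (((t x).natAbs * m : ℕ) : ℤ) ≤ ((2 * A : ℕ) : ℤ) := by
        push_cast
        exact hle
      exact_mod_cast this
    have h3 : (t x).natAbs ≤ 2 * A / m := (Nat.le_div_iff_mul_le (by omega)).2 h2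
    have h4 : |t x| = ((t x).natAbs : ℤ) := by simp
    rw [h4]
    exact_mod_cast h3
  have hinj : Set.InjOn t (F : Set (ℤ × ℤ)) := by
    intro x hx y hy hxy
    have h1 := ht x hx
    have h2 := ht y hy
    rw [hxy] at h1
    ext
    · linarith [h1.1, h2.1]
    · linarith [h1.2, h2.2]
  have hcard := Finset.card_le_card_of_injOn t hmap hinj
  rw [Int.card_Icc] at hcard
  omega

/-- primitive points of a lattice of index `V` in a box of side `A` -/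
theorem lat_count_nat {q0 q1 q2 A : ℕ} (h0 : 1 ≤ q0) (h1 : 1 ≤ q1) (h2 : 1 ≤ q2)
    (h01 : Nat.Coprime q0 q1) (h02 : Nat.Coprime q0 q2) (h12 : Nat.Coprime q1 q2) :
    (((PB A).filter (QD q0 q1 q2)).card : ℝ) ≤ 2 + 20 * (A : ℝ) ^ 2 / (q0 * q1 * q2) := by
  classical
  set F := (PB A).filter (QD q0 q1 q2) with hFdef
  set V : ℕ := q0 * q1 * q2 with hV
  have hVpos : 1 ≤ V := Nat.one_le_iff_ne_zero.2 (by positivity)
  have hVr : (0 : ℝ) < V := by exact_mod_cast hVpos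
  rcases F.eq_empty_or_nonempty with he | hne
  · rw [he]
    simp only [card_empty, Nat.cast_zero]
    positivity
  obtain ⟨x0, hx0, hmin⟩ := Finset.exists_min_image F
    (fun x => max x.1.natAbs x.2.natAbs) hne
  have hx0' := mem_filter.1 hx0
  obtain ⟨hb0, n01, n02, n03, hg0⟩ := mem_PB.1 hx0'.1
  set m : ℕ := max x0.1.natAbs x0.2.natAbs with hm
  have hm1 : 1 ≤ m := by
    have : 1 ≤ x0.1.natAbs := Int.natAbs_pos.2 n01
    omega
  have hmA : m ≤ A := by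
    have a1 : x0.1.natAbs ≤ A := by
      have := hb0.1
      rw [Int.abs_eq_natAbs] at this
      exact_mod_cast this
    have a2 : x0.2.natAbs ≤ A := by
      have := hb0.2
      rw [Int.abs_eq_natAbs] at this
      exact_mod_cast this
    omega
  have hmm : (m : ℤ) ≤ |x0.1| ∨ (m : ℤ) ≤ |x0.2| := by
    rw [Int.abs_eq_natAbs, Int.abs_eq_natAbs]
    rcases le_total x0.1.natAbs x0.2.natAbs with h | h
    · right; exact_mod_cast (by omega : m ≤ x0.2.natAbs)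
    · left; exact_mod_cast (by omega : m ≤ x0.1.natAbs)
  clear_value m
  obtain ⟨K, hK⟩ : ∃ K : ℕ, K = 2 * m * A / V := ⟨_, rfl⟩
  let κ : ℤ × ℤ → ℤ := fun x => (x0.1 * x.2 - x0.2 * x.1) / V
  have hdet : ∀ x ∈ F, x0.1 * x.2 - x0.2 * x.1 = V * κ x := by
    intro x hx
    have hd := QD_det h01 h02 h12 hx0'.2 (mem_filter.1 hx).2
    exact (Int.mul_ediv_cancel' hd).symm
  have habs : ∀ x ∈ F, |x0.1 * x.2 - x0.2 * x.1| ≤ 2 * m * A := by
    intro x hx
    have hb := (mem_PB.1 (mem_filter.1 hx).1).1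
    have e1 : |x0.1| ≤ m := by
      rw [Int.abs_eq_natAbs]; exact_mod_cast (by omega : x0.1.natAbs ≤ m)
    have e2 : |x0.2| ≤ m := by
      rw [Int.abs_eq_natAbs]; exact_mod_cast (by omega : x0.2.natAbs ≤ m)
    calc |x0.1 * x.2 - x0.2 * x.1| ≤ |x0.1 * x.2| + |x0.2 * x.1| := abs_sub _ _
      _ = |x0.1| * |x.2| + |x0.2| * |x.1| := by rw [abs_mul, abs_mul]
      _ ≤ m * A + m * A := by
          have := mul_le_mul e1 hb.2 (abs_nonneg _) (by positivity)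
          have := mul_le_mul e2 hb.1 (abs_nonneg _) (by positivity)
          linarith
      _ = 2 * m * A := by ring
  have hκ : ∀ x ∈ F, κ x ∈ Icc (-(K : ℤ)) (K : ℤ) := by
    intro x hx
    rw [mem_Icc, ← abs_le]
    have e := habs x hx
    rw [hdet x hx, abs_mul] at e
    have e2 : V * (κ x).natAbs ≤ 2 * m * A := by
      have : ((V * (κ x).natAbs : ℕ) : ℤ) ≤ ((2 * m * A : ℕ) : ℤ) := by
        have hva : |(V : ℤ)| = V := abs_of_nonneg (by positivity)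
        rw [hva] at e
        push_cast
        exact e
      exact_mod_cast this
    have e3 : (κ x).natAbs ≤ K := by
      rw [hK]
      exact (Nat.le_div_iff_mul_le (by omega)).2 (by rw [mul_comm]; exact e2)
    rw [Int.abs_eq_natAbs]
    exact_mod_cast e3
  have hsum := Finset.card_eq_sum_card_fiberwise (f := κ) (t := Icc (-(K : ℤ)) (K : ℤ)) hκ
  have hf0 : (F.filter fun x => κ x = 0).card ≤ 2 := by
    have hsub : (F.filter fun x => κ x = 0) ⊆ {x0, (-x0.1, -x0.2)} := by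
      intro x hx
      obtain ⟨hxF, hx0k⟩ := mem_filter.1 hx
      have e := hdet x hxF
      rw [hx0k, mul_zero] at e
      obtain ⟨hb, m1, m2, m3, hg⟩ := mem_PB.1 (mem_filter.1 hxF).1
      have e' : x0.1 * x.2 = x0.2 * x.1 := by linarith
      have hc0 : IsCoprime x0.1 x0.2 := Int.isCoprime_iff_gcd_eq_one.2 hg0
      have hc : IsCoprime x.1 x.2 := Int.isCoprime_iff_gcd_eq_one.2 hg
      have d1 : x0.1 ∣ x.1 := hc0.dvd_of_dvd_mul_left ⟨x.2, e'.symm⟩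
      have d2 : x.1 ∣ x0.1 := hc.dvd_of_dvd_mul_right ⟨x0.2, by rw [e']; ring⟩
      have h3 : x.1 = x0.1 ∨ x.1 = -x0.1 := by
        have := Int.natAbs_dvd_natAbs.2 d1
        have := Int.natAbs_dvd_natAbs.2 d2
        have h4 : x.1.natAbs = x0.1.natAbs := Nat.dvd_antisymm ‹_› ‹_›
        exact Int.natAbs_eq_natAbs_iff.1 h4
      rw [mem_insert, mem_singleton]
      rcases h3 with h3 | h3
      · left
        rw [h3] at e'
        have : x0.1 * x.2 = x0.1 * x0.2 := by rw [e']; ring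
        have := mul_left_cancel₀ n01 this
        exact Prod.ext h3 this
      · right
        rw [h3] at e'
        have : x0.1 * x.2 = x0.1 * (-x0.2) := by rw [e']; ring
        have := mul_left_cancel₀ n01 this
        exact Prod.ext h3 this
    calc _ ≤ ({x0, (-x0.1, -x0.2)} : Finset (ℤ × ℤ)).card := card_le_card hsub
      _ ≤ 2 := Finset.card_le_two
  have hfk : ∀ k : ℤ, (F.filter fun x => κ x = k).card ≤ 1 + 2 * (2 * A / m) := by
    intro k
    refine fiber_card hm1 n01 hg0 hmm (V * k) _ ?_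
    intro x hx
    obtain ⟨hxF, hxk⟩ := mem_filter.1 hx
    refine ⟨(mem_PB.1 (mem_filter.1 hxF).1).1, ?_⟩
    rw [hdet x hxF, hxk]
  have hcard : F.card ≤ 2 + 2 * K * (1 + 2 * (2 * A / m)) := by
    rw [hsum]
    have h0mem : (0 : ℤ) ∈ Icc (-(K : ℤ)) (K : ℤ) := by
      rw [mem_Icc]; omega
    rw [← Finset.add_sum_erase _ _ h0mem]
    have hcE : ((Icc (-(K : ℤ)) (K : ℤ)).erase 0).card = 2 * K := by
      rw [Finset.card_erase_of_mem h0mem, Int.card_Icc]; omega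
    have hE : ∑ k ∈ (Icc (-(K : ℤ)) (K : ℤ)).erase 0, (F.filter fun x => κ x = k).card ≤
        2 * K * (1 + 2 * (2 * A / m)) := by
      calc _ ≤ ∑ k ∈ (Icc (-(K : ℤ)) (K : ℤ)).erase 0, (1 + 2 * (2 * A / m)) :=
            Finset.sum_le_sum fun k _ => hfk k
        _ = 2 * K * (1 + 2 * (2 * A / m)) := by
            rw [Finset.sum_const, hcE, smul_eq_mul]
    omega
  have hKr : (K : ℝ) ≤ 2 * m * A / V := by
    rw [hK]
    refine le_trans Nat.cast_div_le ?_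
    push_cast
    exact le_refl _
  have hmr : (1 : ℝ) ≤ m := by exact_mod_cast hm1
  have hmAr : (m : ℝ) ≤ A := by exact_mod_cast hmA
  have hdr : ((2 * A / m : ℕ) : ℝ) ≤ 2 * A / m := by
    refine le_trans Nat.cast_div_le ?_
    push_cast
    exact le_refl _
  have hA0 : (0 : ℝ) ≤ A := by positivity
  have hcr : (F.card : ℝ) ≤ 2 + 2 * K * (1 + 2 * ((2 * A / m : ℕ) : ℝ)) := by
    exact_mod_cast hcard
  have hVcast : (V : ℝ) = q0 * q1 * q2 := by rw [hV]; push_cast; ring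
  rw [← hVcast]
  calc (F.card : ℝ) ≤ 2 + 2 * K * (1 + 2 * ((2 * A / m : ℕ) : ℝ)) := hcr
    _ ≤ 2 + 2 * (2 * m * A / V) * (1 + 2 * (2 * A / m)) := by
        have e1 : (0 : ℝ) ≤ 1 + 2 * ((2 * A / m : ℕ) : ℝ) := by positivity
        have e2 : (0 : ℝ) ≤ 2 * (2 * m * A / V) := by positivity
        have := mul_le_mul (by linarith : 2 * (K : ℝ) ≤ 2 * (2 * m * A / V))
          (by linarith : 1 + 2 * ((2 * A / m : ℕ) : ℝ) ≤ 1 + 2 * (2 * A / m)) e1 e2
        linarith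
    _ = 2 + (4 * (m * A) + 16 * (A : ℝ) ^ 2) / V := by
        field_simp
        ring
    _ ≤ 2 + 20 * (A : ℝ) ^ 2 / V := by
        have : (m : ℝ) * A ≤ A ^ 2 := by nlinarith
        have := div_le_div_of_nonneg_right (by linarith :
          4 * ((m : ℝ) * A) + 16 * (A : ℝ) ^ 2 ≤ 20 * (A : ℝ) ^ 2) hVr.le
        linarith

end Pool.Agent.TII
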