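import Pool.Agent.TII.GC1

/-!
# [TII-GC2] the sum of `q₀₁ q₀₂ q₁₂`
-/

set_option autoImplicit false

namespace Pool.Agent.TII

open Finset

/-- the product of the three gcd's -/
def Vq (x y : ℤ × ℤ) : ℕ :=
  Int.gcd x.1 y.1 * Int.gcd x.2 y.2 * Int.gcd (x.2 - x.1) (y.2 - y.1)

theorem Vq_comm (x y : ℤ × ℤ) : Vq x y = Vq y x := by
  unfold Vq
  rw [Int.gcd_comm x.1, Int.gcd_comm x.2, Int.gcd_comm (x.2 - x.1)]

theorem PB_copr {A : ℕ} {x : ℤ × ℤ} (hx : x ∈ PB A) (y : ℤ × ℤ) :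
    Nat.Coprime (Int.gcd x.1 y.1) (Int.gcd x.2 y.2) ∧
    Nat.Coprime (Int.gcd x.1 y.1) (Int.gcd (x.2 - x.1) (y.2 - y.1)) ∧
    Nat.Coprime (Int.gcd x.2 y.2) (Int.gcd (x.2 - x.1) (y.2 - y.1)) := by
  obtain ⟨-, n1, n2, n3, hg⟩ := mem_PB.1 hx
  have hc : IsCoprime x.1 x.2 := Int.isCoprime_iff_gcd_eq_one.2 hg
  have hc1 : IsCoprime x.1 (x.2 - x.1) := by
    have := IsCoprime.add_mul_left_right hc (-1)
    have e : x.2 + x.1 * (-1) = x.2 - x.1 := by ring
    rwa [e] at this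
  have hc2 : IsCoprime x.2 (x.2 - x.1) := by
    have := IsCoprime.add_mul_left_right hc.symm.neg_right (1)
    have e : -x.1 + x.2 * 1 = x.2 - x.1 := by ring
    rwa [e] at this
  have g : ∀ a b c d : ℤ, IsCoprime a c → Nat.Coprime (Int.gcd a b) (Int.gcd c d) := by
    intro a b c d h
    have h1 : IsCoprime ((Int.gcd a b : ℕ) : ℤ) ((Int.gcd c d : ℕ) : ℤ) :=
      (h.of_isCoprime_of_dvd_left (Int.gcd_dvd_left _ _)).of_isCoprime_of_dvd_right
        (Int.gcd_dvd_left _ _)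
    exact Nat.isCoprime_iff_coprime.1 h1
  exact ⟨g _ _ _ _ hc, g _ _ _ _ hc1, g _ _ _ _ hc2⟩

theorem PB_pos {A : ℕ} {x : ℤ × ℤ} (hx : x ∈ PB A) (y : ℤ × ℤ) :
    1 ≤ Int.gcd x.1 y.1 ∧ 1 ≤ Int.gcd x.2 y.2 ∧ 1 ≤ Int.gcd (x.2 - x.1) (y.2 - y.1) := by
  obtain ⟨-, n1, n2, n3, hg⟩ := mem_PB.1 hx
  refine ⟨Int.gcd_pos_of_ne_zero_left _ n1, Int.gcd_pos_of_ne_zero_left _ n2,
    Int.gcd_pos_of_ne_zero_left _ (sub_ne_zero.2 n3.symm)⟩

theorem PB_card_le (A : ℕ) : ((PB A).card : ℝ) ≤ 9 * (A : ℝ) ^ 2 := by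
  rcases Nat.eq_zero_or_pos A with rfl | hA
  · have : PB 0 = ∅ := by
      rw [Finset.eq_empty_iff_forall_notMem]
      intro x hx
      obtain ⟨h1, n1, -⟩ := mem_PB.1 hx
      apply n1
      have := h1.1
      simpa using this
    rw [this]; simp
  · have h1 : (PB A).card ≤ (2 * A + 1) * (2 * A + 1) := by
      unfold PB
      refine le_trans (card_filter_le _ _) ?_
      rw [card_product, Int.card_Icc]
      have : ((A : ℤ) + 1 - -(A : ℤ)).toNat = 2 * A + 1 := by omega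
      rw [this]
    have hr : ((PB A).card : ℝ) ≤ (2 * (A : ℝ) + 1) * (2 * A + 1) := by exact_mod_cast h1
    have hA1 : (1 : ℝ) ≤ A := by exact_mod_cast hA
    nlinarith

theorem div_card_le {V : ℕ} {T : ℝ} (hL : Loss V T) {z : ℤ} (hz : z ≠ 0) (hzV : z.natAbs ≤ V) :
    ((z.natAbs.divisors.card : ℕ) : ℝ) ≤ T :=
  hL.tau _ (Int.natAbs_pos.2 hz) hzV

/-- the sum over `y` for a fixed `x` -/
theorem caseII {A B V : ℕ} {T : ℝ} (hL : Loss V T) (hA : 2 * A ≤ V) {x : ℤ × ℤ} (hx : x ∈ PB A) :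
    ∑ y ∈ (PB B).filter (fun y => Vq x y ≤ B ^ 2), (Vq x y : ℝ) ≤ 22 * (B : ℝ) ^ 2 * T ^ 3 := by
  classical
  obtain ⟨⟨a1, a2⟩, n1, n2, n3, hg⟩ := mem_PB.1 hx
  have n4 : x.2 - x.1 ≠ 0 := sub_ne_zero.2 n3.symm
  set D : Finset (ℕ × ℕ × ℕ) :=
    x.1.natAbs.divisors ×ˢ x.2.natAbs.divisors ×ˢ (x.2 - x.1).natAbs.divisors with hD
  let q : ℤ × ℤ → ℕ × ℕ × ℕ := fun y =>
    (Int.gcd x.1 y.1, Int.gcd x.2 y.2, Int.gcd (x.2 - x.1) (y.2 - y.1))
  have hmap : ∀ y ∈ (PB B).filter (fun y => Vq x y ≤ B ^ 2), q y ∈ D := by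
    intro y _
    rw [hD, mem_product, mem_product]
    refine ⟨?_, ?_, ?_⟩
    · exact Nat.mem_divisors.2 ⟨Int.gcd_dvd_natAbs_left _ _, Int.natAbs_ne_zero.2 n1⟩
    · exact Nat.mem_divisors.2 ⟨Int.gcd_dvd_natAbs_left _ _, Int.natAbs_ne_zero.2 n2⟩
    · exact Nat.mem_divisors.2 ⟨Int.gcd_dvd_natAbs_left _ _, Int.natAbs_ne_zero.2 n4⟩
  rw [← Finset.sum_fiberwise_of_maps_to hmap]
  have hT0 : 0 ≤ T := by linarith [hL.two]
  have hin : ∀ d ∈ D, ∑ y ∈ ((PB B).filter (fun y => Vq x y ≤ B ^ 2)).filter (fun y => q y = d),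
      (Vq x y : ℝ) ≤ 22 * (B : ℝ) ^ 2 := by
    intro d _
    rcases (((PB B).filter (fun y => Vq x y ≤ B ^ 2)).filter (fun y => q y = d)).eq_empty_or_nonempty
      with he | ⟨y0, hy0⟩
    · rw [he]; simp only [sum_empty]; positivity
    obtain ⟨hy0a, hy0b⟩ := mem_filter.1 hy0
    obtain ⟨hy0c, hy0d⟩ := mem_filter.1 hy0a
    obtain ⟨c1, c2, c3⟩ := PB_copr hx y0
    obtain ⟨p1, p2, p3⟩ := PB_pos hx y0
    have hV0 : Vq x y0 = d.1 * d.2.1 * d.2.2 := by rw [← hy0b]; rfl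
    have hd1 : d.1 = Int.gcd x.1 y0.1 := by rw [← hy0b]
    have hd2 : d.2.1 = Int.gcd x.2 y0.2 := by rw [← hy0b]
    have hd3 : d.2.2 = Int.gcd (x.2 - x.1) (y0.2 - y0.1) := by rw [← hy0b]
    have hcnt := lat_count_nat (A := B) (q0 := d.1) (q1 := d.2.1) (q2 := d.2.2)
      (by rw [hd1]; exact p1) (by rw [hd2]; exact p2) (by rw [hd3]; exact p3)
      (by rw [hd1, hd2]; exact c1) (by rw [hd1, hd3]; exact c2) (by rw [hd2, hd3]; exact c3)
    have hsub : ((PB B).filter (fun y => Vq x y ≤ B ^ 2)).filter (fun y => q y = d) ⊆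
        (PB B).filter (QD d.1 d.2.1 d.2.2) := by
      intro y hy
      obtain ⟨hya, hyb⟩ := mem_filter.1 hy
      obtain ⟨hyc, -⟩ := mem_filter.1 hya
      refine mem_filter.2 ⟨hyc, ?_⟩
      have e1 : d.1 = Int.gcd x.1 y.1 := by rw [← hyb]
      have e2 : d.2.1 = Int.gcd x.2 y.2 := by rw [← hyb]
      have e3 : d.2.2 = Int.gcd (x.2 - x.1) (y.2 - y.1) := by rw [← hyb]
      refine ⟨?_, ?_, ?_⟩
      · rw [e1]; exact Int.gcd_dvd_right _ _
      · rw [e2]; exact Int.gcd_dvd_right _ _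
      · rw [e3]; exact Int.gcd_dvd_right _ _
    have hVpos : (0 : ℝ) < (d.1 : ℝ) * d.2.1 * d.2.2 := by
      have : 0 < d.1 * d.2.1 * d.2.2 := by rw [hd1, hd2, hd3]; positivity
      exact_mod_cast this
    have hVle : (d.1 : ℝ) * d.2.1 * d.2.2 ≤ (B : ℝ) ^ 2 := by
      rw [hV0] at hy0d
      exact_mod_cast hy0d
    calc ∑ y ∈ ((PB B).filter (fun y => Vq x y ≤ B ^ 2)).filter (fun y => q y = d), (Vq x y : ℝ)
        = ∑ y ∈ ((PB B).filter (fun y => Vq x y ≤ B ^ 2)).filter (fun y => q y = d),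
            ((d.1 : ℝ) * d.2.1 * d.2.2) := by
          refine sum_congr rfl fun y hy => ?_
          obtain ⟨-, hyb⟩ := mem_filter.1 hy
          have : Vq x y = d.1 * d.2.1 * d.2.2 := by rw [← hyb]; rfl
          rw [this]; push_cast; ring
      _ = ((((PB B).filter (fun y => Vq x y ≤ B ^ 2)).filter (fun y => q y = d)).card : ℝ) *
            ((d.1 : ℝ) * d.2.1 * d.2.2) := by rw [sum_const, nsmul_eq_mul]
      _ ≤ (((PB B).filter (QD d.1 d.2.1 d.2.2)).card : ℝ) * ((d.1 : ℝ) * d.2.1 * d.2.2) := by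
          refine mul_le_mul_of_nonneg_right ?_ hVpos.le
          exact_mod_cast card_le_card hsub
      _ ≤ (2 + 20 * (B : ℝ) ^ 2 / (d.1 * d.2.1 * d.2.2)) * ((d.1 : ℝ) * d.2.1 * d.2.2) :=
          mul_le_mul_of_nonneg_right hcnt hVpos.le
      _ = 2 * ((d.1 : ℝ) * d.2.1 * d.2.2) + 20 * (B : ℝ) ^ 2 := by
          rw [add_mul, div_mul_cancel₀ _ hVpos.ne']
      _ ≤ 22 * (B : ℝ) ^ 2 := by linarith
  calc _ ≤ ∑ d ∈ D, 22 * (B : ℝ) ^ 2 := sum_le_sum hin
    _ = (D.card : ℝ) * (22 * (B : ℝ) ^ 2) := by rw [sum_const, nsmul_eq_mul]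
    _ ≤ T ^ 3 * (22 * (B : ℝ) ^ 2) := by
        refine mul_le_mul_of_nonneg_right ?_ (by positivity)
        rw [hD, card_product, card_product]
        push_cast
        have b1 : x.1.natAbs ≤ V := by
          have : (x.1.natAbs : ℤ) ≤ A := by rw [← Int.abs_eq_natAbs]; exact a1
          omega
        have b2 : x.2.natAbs ≤ V := by
          have : (x.2.natAbs : ℤ) ≤ A := by rw [← Int.abs_eq_natAbs]; exact a2
          omega
        have b3 : (x.2 - x.1).natAbs ≤ V := by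
          have h1 : (x.1.natAbs : ℤ) ≤ A := by rw [← Int.abs_eq_natAbs]; exact a1
          have h2 : (x.2.natAbs : ℤ) ≤ A := by rw [← Int.abs_eq_natAbs]; exact a2
          omega
        have t1 := div_card_le hL n1 b1
        have t2 := div_card_le hL n2 b2
        have t3 := div_card_le hL n4 b3
        calc _ ≤ T * (T * T) := by
              refine mul_le_mul t1 (mul_le_mul t2 t3 (by positivity) hT0) (by positivity) hT0
          _ = T ^ 3 := by ring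
    _ = 22 * (B : ℝ) ^ 2 * T ^ 3 := by ring

/-- the harmonic sum -/
theorem harm_le {V M : ℕ} {T : ℝ} (hL : Loss V T) (hM : M ≤ V) :
    ∑ n ∈ Icc 1 M, (1 : ℝ) / n ≤ T := by
  rcases Nat.eq_zero_or_pos M with rfl | hM0
  · simp; linarith [hL.two]
  have h1 := harmonic_le_one_add_log M
  have h2 : ((harmonic M : ℚ) : ℝ) = ∑ n ∈ Icc 1 M, (1 : ℝ) / n := by
    rw [harmonic_eq_sum_Icc]
    push_cast
    refine sum_congr rfl fun n _ => ?_
    rw [one_div]
  rw [h2] at h1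
  have h3 : Real.log M ≤ Nat.log 2 M + 1 := by
    have h4 : (M : ℝ) ≤ 2 ^ (Nat.log 2 M + 1) := by
      exact_mod_cast (Nat.lt_pow_succ_log_self (by norm_num) M).le
    have h5 : Real.log M ≤ Real.log (2 ^ (Nat.log 2 M + 1)) :=
      Real.log_le_log (by exact_mod_cast hM0) h4
    rw [Real.log_pow] at h5
    have h6 : Real.log 2 ≤ 1 := by linarith [Real.log_two_lt_d9]
    have h7 : (0 : ℝ) ≤ ((Nat.log 2 M + 1 : ℕ) : ℝ) := by positivity
    calc Real.log M ≤ ((Nat.log 2 M + 1 : ℕ) : ℝ) * Real.log 2 := h5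
      _ ≤ ((Nat.log 2 M + 1 : ℕ) : ℝ) * 1 := mul_le_mul_of_nonneg_left h6 h7
      _ = Nat.log 2 M + 1 := by push_cast; ring
  have h8 : ((Nat.log 2 M : ℕ) : ℝ) ≤ Nat.log 2 V := by exact_mod_cast Nat.log_mono_right hM
  linarith [hL.log]

/-- the sum of `1/|n|` over the nonzero integers of `[-M, M]` -/
theorem harm_int {V M : ℕ} {T : ℝ} (hL : Loss V T) (hM : M ≤ V) :
    ∑ n ∈ (Icc (-(M : ℤ)) M).filter (fun n => n ≠ 0), (1 : ℝ) / |(n : ℝ)| ≤ 2 * T := by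
  classical
  have hmap : ∀ n ∈ (Icc (-(M : ℤ)) M).filter (fun n => n ≠ 0), n.natAbs ∈ Icc 1 M := by
    intro n hn
    obtain ⟨h1, h2⟩ := mem_filter.1 hn
    rw [mem_Icc] at h1 ⊢
    omega
  rw [← Finset.sum_fiberwise_of_maps_to hmap]
  calc _ ≤ ∑ k ∈ Icc 1 M, 2 * ((1 : ℝ) / k) := by
        refine sum_le_sum fun k hk => ?_
        have hk1 : 1 ≤ k := (mem_Icc.1 hk).1
        calc _ = ∑ n ∈ ((Icc (-(M : ℤ)) M).filter (fun n => n ≠ 0)).filter
                  (fun n => n.natAbs = k), (1 : ℝ) / k := by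
              refine sum_congr rfl fun n hn => ?_
              obtain ⟨-, hn2⟩ := mem_filter.1 hn
              have : |(n : ℝ)| = k := by
                rw [← Int.cast_abs, Int.abs_eq_natAbs, hn2]
                simp
              rw [this]
          _ = ((((Icc (-(M : ℤ)) M).filter (fun n => n ≠ 0)).filter
                  (fun n => n.natAbs = k)).card : ℝ) * ((1 : ℝ) / k) := by
              rw [sum_const, nsmul_eq_mul]
          _ ≤ 2 * ((1 : ℝ) / k) := by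
              refine mul_le_mul_of_nonneg_right ?_ (by positivity)
              have hsub : ((Icc (-(M : ℤ)) M).filter (fun n => n ≠ 0)).filter
                  (fun n => n.natAbs = k) ⊆ {(k : ℤ), -(k : ℤ)} := by
                intro n hn
                obtain ⟨-, hn2⟩ := mem_filter.1 hn
                rw [mem_insert, mem_singleton]
                omega
              have := (card_le_card hsub).trans Finset.card_le_two
              exact_mod_cast this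
    _ = 2 * ∑ k ∈ Icc 1 M, (1 : ℝ) / k := by rw [mul_sum]
    _ ≤ 2 * T := by linarith [harm_le hL hM]

end Pool.Agent.TII
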