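import Pool.Agent.TII.GC2

/-!
# [TII-GC3] LEMMA GCD (proof of helper23)
-/

set_option autoImplicit false

namespace Pool.Agent.TII

open Finset

/-- the determinant -/
def D0 (x y : ℤ × ℤ) : ℤ := y.1 * x.2 - x.1 * y.2

/-- `x₁ x₂ (x₂ - x₁)` -/
def MM (x : ℤ × ℤ) : ℤ := x.1 * x.2 * (x.2 - x.1)

theorem D0_swap (x y : ℤ × ℤ) : D0 y x = -D0 x y := by unfold D0; ring

/-- for a fixed primitive `x` -/
theorem line_sum {A B V : ℕ} {T : ℝ} (hL : Loss V T) (hAB : A ≤ B) (hV : 2 * B ^ 3 ≤ V) {x : ℤ × ℤ}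
    (hx : x ∈ PB A) :
    ∑ y ∈ (PB B).filter (fun y => D0 x y ≠ 0), (Int.gcd (D0 x y) (MM x) : ℝ) ≤
      20 * T * (B : ℝ) ^ 2 := by
  classical
  obtain ⟨hb0, n1, n2, n3, hg⟩ := mem_PB.1 hx
  have n4 : x.2 - x.1 ≠ 0 := sub_ne_zero.2 n3.symm
  have hM : MM x ≠ 0 := mul_ne_zero (mul_ne_zero n1 n2) n4
  have a1 : x.1.natAbs ≤ A := by
    have := hb0.1
    rw [Int.abs_eq_natAbs] at this
    exact_mod_cast this
  have a2 : x.2.natAbs ≤ A := by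
    have := hb0.2
    rw [Int.abs_eq_natAbs] at this
    exact_mod_cast this
  obtain ⟨m, hm⟩ : ∃ m : ℕ, m = max x.1.natAbs x.2.natAbs := ⟨_, rfl⟩
  have hm1 : 1 ≤ m := by
    have : 1 ≤ x.1.natAbs := Int.natAbs_pos.2 n1
    omega
  have hmB : m ≤ B := by omega
  have hmm : (m : ℤ) ≤ |x.1| ∨ (m : ℤ) ≤ |x.2| := by
    rw [Int.abs_eq_natAbs, Int.abs_eq_natAbs]
    rcases le_total x.1.natAbs x.2.natAbs with h | h
    · right; exact_mod_cast (by omega : m ≤ x.2.natAbs)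
    · left; exact_mod_cast (by omega : m ≤ x.1.natAbs)
  have hMV : (MM x).natAbs ≤ V := by
    unfold MM
    rw [Int.natAbs_mul, Int.natAbs_mul]
    have a3 : (x.2 - x.1).natAbs ≤ 2 * A := by omega
    calc x.1.natAbs * x.2.natAbs * (x.2 - x.1).natAbs ≤ A * A * (2 * A) :=
          Nat.mul_le_mul (Nat.mul_le_mul a1 a2) a3
      _ = 2 * A ^ 3 := by ring
      _ ≤ 2 * B ^ 3 := Nat.mul_le_mul_left _ (Nat.pow_le_pow_left hAB 3)
      _ ≤ V := hV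
  have hT0 : 0 ≤ T := by linarith [hL.two]
  have hmap : ∀ y ∈ (PB B).filter (fun y => D0 x y ≠ 0),
      Int.gcd (D0 x y) (MM x) ∈ (MM x).natAbs.divisors := by
    intro y _
    exact Nat.mem_divisors.2 ⟨Int.gcd_dvd_natAbs_right _ _, Int.natAbs_ne_zero.2 hM⟩
  rw [← Finset.sum_fiberwise_of_maps_to hmap]
  have hin : ∀ d ∈ (MM x).natAbs.divisors,
      ∑ y ∈ ((PB B).filter (fun y => D0 x y ≠ 0)).filter
        (fun y => Int.gcd (D0 x y) (MM x) = d), (Int.gcd (D0 x y) (MM x) : ℝ) ≤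
        20 * (B : ℝ) ^ 2 := by
    intro d hd
    have hd1 : 1 ≤ d := Nat.pos_of_mem_divisors hd
    obtain ⟨F, hF⟩ : ∃ F, F = ((PB B).filter (fun y => D0 x y ≠ 0)).filter
        (fun y => Int.gcd (D0 x y) (MM x) = d) := ⟨_, rfl⟩
    rw [← hF]
    have hFm : ∀ y ∈ F, (|y.1| ≤ B ∧ |y.2| ≤ B) ∧ D0 x y ≠ 0 ∧ Int.gcd (D0 x y) (MM x) = d := by
      intro y hy
      rw [hF] at hy
      obtain ⟨h1, h2⟩ := mem_filter.1 hy
      obtain ⟨h3, h4⟩ := mem_filter.1 h1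
      exact ⟨(mem_PB.1 h3).1, h4, h2⟩
    obtain ⟨K, hK⟩ : ∃ K : ℕ, K = 2 * m * B / d := ⟨_, rfl⟩
    let κ : ℤ × ℤ → ℤ := fun y => D0 x y / d
    have hdet : ∀ y ∈ F, D0 x y = d * κ y := by
      intro y hy
      have h1 : (d : ℤ) ∣ D0 x y := by
        rw [← (hFm y hy).2.2]; exact Int.gcd_dvd_left _ _
      exact (Int.mul_ediv_cancel' h1).symm
    have hκ : ∀ y ∈ F, κ y ∈ (Icc (-(K : ℤ)) (K : ℤ)).erase 0 := by
      intro y hy
      obtain ⟨hb, hne, -⟩ := hFm y hy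
      rw [mem_erase]
      constructor
      · intro h0
        apply hne
        rw [hdet y hy, h0, mul_zero]
      · rw [mem_Icc, ← abs_le]
        have e1 : |x.1| ≤ m := by
          rw [Int.abs_eq_natAbs]; exact_mod_cast (by omega : x.1.natAbs ≤ m)
        have e2 : |x.2| ≤ m := by
          rw [Int.abs_eq_natAbs]; exact_mod_cast (by omega : x.2.natAbs ≤ m)
        have e : |D0 x y| ≤ 2 * m * B := by
          unfold D0
          calc |y.1 * x.2 - x.1 * y.2| ≤ |y.1 * x.2| + |x.1 * y.2| := abs_sub _ _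
            _ = |y.1| * |x.2| + |x.1| * |y.2| := by rw [abs_mul, abs_mul]
            _ ≤ B * m + m * B := by
                have := mul_le_mul hb.1 e2 (abs_nonneg _) (by positivity)
                have := mul_le_mul e1 hb.2 (abs_nonneg _) (by positivity)
                linarith
            _ = 2 * m * B := by ring
        rw [hdet y hy, abs_mul] at e
        have hva : |(d : ℤ)| = d := abs_of_nonneg (by positivity)
        rw [hva] at e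
        have e2 : d * (κ y).natAbs ≤ 2 * m * B := by
          have : ((d * (κ y).natAbs : ℕ) : ℤ) ≤ ((2 * m * B : ℕ) : ℤ) := by
            push_cast
            exact e
          exact_mod_cast this
        have e3 : (κ y).natAbs ≤ K := by
          rw [hK]
          exact (Nat.le_div_iff_mul_le (by omega)).2 (by rw [mul_comm]; exact e2)
        rw [Int.abs_eq_natAbs]
        exact_mod_cast e3
    have hcard : F.card ≤ 2 * K * (1 + 2 * (2 * B / m)) := by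
      rw [Finset.card_eq_sum_card_fiberwise hκ]
      have h0mem : (0 : ℤ) ∈ Icc (-(K : ℤ)) (K : ℤ) := by rw [mem_Icc]; omega
      have hcE : ((Icc (-(K : ℤ)) (K : ℤ)).erase 0).card = 2 * K := by
        rw [Finset.card_erase_of_mem h0mem, Int.card_Icc]; omega
      calc _ ≤ ∑ k ∈ (Icc (-(K : ℤ)) (K : ℤ)).erase 0, (1 + 2 * (2 * B / m)) := by
            refine Finset.sum_le_sum fun k _ => ?_
            refine fiber_card hm1 n1 hg hmm (-(d * k)) _ ?_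
            intro y hy
            obtain ⟨hy1, hy2⟩ := mem_filter.1 hy
            refine ⟨(hFm y hy1).1, ?_⟩
            have := hdet y hy1
            rw [hy2] at this
            unfold D0 at this
            linear_combination -this
        _ = 2 * K * (1 + 2 * (2 * B / m)) := by
            rw [Finset.sum_const, hcE, smul_eq_mul]
    have hdr : (0 : ℝ) < d := by exact_mod_cast hd1
    have hmr : (1 : ℝ) ≤ m := by exact_mod_cast hm1
    have hmBr : (m : ℝ) ≤ B := by exact_mod_cast hmB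
    have hKr : (K : ℝ) ≤ 2 * m * B / d := by
      rw [hK]
      refine le_trans Nat.cast_div_le ?_
      push_cast
      exact le_refl _
    have hLr : ((2 * B / m : ℕ) : ℝ) ≤ 2 * B / m := by
      refine le_trans Nat.cast_div_le ?_
      push_cast
      exact le_refl _
    have hcr : (F.card : ℝ) ≤ 2 * K * (1 + 2 * ((2 * B / m : ℕ) : ℝ)) := by exact_mod_cast hcard
    calc ∑ y ∈ F, (Int.gcd (D0 x y) (MM x) : ℝ) = ∑ y ∈ F, (d : ℝ) := by
          refine sum_congr rfl fun y hy => ?_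
          rw [(hFm y hy).2.2]
      _ = (F.card : ℝ) * d := by rw [sum_const, nsmul_eq_mul]
      _ ≤ (2 * K * (1 + 2 * ((2 * B / m : ℕ) : ℝ))) * d :=
          mul_le_mul_of_nonneg_right hcr hdr.le
      _ ≤ (2 * (2 * m * B / d) * (1 + 2 * (2 * B / m))) * d := by
          refine mul_le_mul_of_nonneg_right ?_ hdr.le
          exact mul_le_mul (by linarith) (by linarith) (by positivity) (by positivity)
      _ = 4 * (m * B) + 16 * (B : ℝ) ^ 2 := by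
          field_simp
          ring
      _ ≤ 20 * (B : ℝ) ^ 2 := by
          have : (m : ℝ) * B ≤ B ^ 2 := by nlinarith [(Nat.cast_nonneg B : (0 : ℝ) ≤ B)]
          linarith
  calc _ ≤ ∑ d ∈ (MM x).natAbs.divisors, 20 * (B : ℝ) ^ 2 := sum_le_sum hin
    _ = ((MM x).natAbs.divisors.card : ℝ) * (20 * (B : ℝ) ^ 2) := by
        rw [sum_const, nsmul_eq_mul]
    _ ≤ T * (20 * (B : ℝ) ^ 2) :=
        mul_le_mul_of_nonneg_right (div_card_le hL hM hMV) (by positivity)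
    _ = 20 * T * (B : ℝ) ^ 2 := by ring

/-- the double sum over primitive `x, y` -/
theorem prim_sum {A B V : ℕ} {T : ℝ} (hL : Loss V T) (hAB : A ≤ B) (hV : 2 * B ^ 3 ≤ V) :
    ∑ p ∈ ((PB A) ×ˢ (PB B)).filter (fun p => D0 p.1 p.2 ≠ 0),
      (Int.gcd (D0 p.1 p.2) (MM p.1) : ℝ) ≤ 180 * T * (A : ℝ) ^ 2 * (B : ℝ) ^ 2 := by
  classical
  have hT0 : 0 ≤ T := by linarith [hL.two]
  have e : ∑ p ∈ ((PB A) ×ˢ (PB B)).filter (fun p => D0 p.1 p.2 ≠ 0),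
      (Int.gcd (D0 p.1 p.2) (MM p.1) : ℝ) =
      ∑ x ∈ PB A, ∑ y ∈ (PB B).filter (fun y => D0 x y ≠ 0),
        (Int.gcd (D0 x y) (MM x) : ℝ) := by
    rw [Finset.sum_filter, Finset.sum_product]
    refine sum_congr rfl fun x _ => ?_
    rw [Finset.sum_filter]
  rw [e]
  calc _ ≤ ∑ x ∈ PB A, 20 * T * (B : ℝ) ^ 2 := sum_le_sum fun x hx => line_sum hL hAB hV hx
    _ = ((PB A).card : ℝ) * (20 * T * (B : ℝ) ^ 2) := by rw [sum_const, nsmul_eq_mul]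
    _ ≤ (9 * (A : ℝ) ^ 2) * (20 * T * (B : ℝ) ^ 2) :=
        mul_le_mul_of_nonneg_right (PB_card_le A) (by positivity)
    _ = 180 * T * (A : ℝ) ^ 2 * (B : ℝ) ^ 2 := by ring

theorem gcd_mul3 (n a b c : ℤ) : Int.gcd n (a * b * c) ∣ Int.gcd n a * Int.gcd n b * Int.gcd n c := by
  have h1 : Int.gcd n (a * b * c) ∣ Int.gcd n (a * b) * Int.gcd n c :=
    Int.gcd_mul_right_dvd_mul_gcd _ _ _
  have h2 : Int.gcd n (a * b) ∣ Int.gcd n a * Int.gcd n b := Int.gcd_mul_right_dvd_mul_gcd _ _ _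
  exact h1.trans (Nat.mul_dvd_mul_right h2 _)

/-- the divisibility of (1) -/
theorem W_dvd {x y : ℤ × ℤ} (hy : IsCoprime y.1 y.2) (a b : ℕ) :
    Int.gcd (a * b * D0 x y) (Int.gcd (a * a * b * (x.1 * x.2 * (y.1 - y.2)))
      (a * b * b * (y.1 * y.2 * (x.2 - x.1)))) ∣ a * b * Nat.gcd a b * Int.gcd (D0 x y) (MM x) := by
  have hE1 : ((Int.gcd (D0 x y) (x.1 * x.2 * (y.1 - y.2)) : ℕ) : ℤ) ∣ MM x := by
    have h := gcd_mul3 (D0 x y) x.1 x.2 (y.1 - y.2)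
    have h1 : ((Int.gcd (D0 x y) (y.1 - y.2) : ℕ) : ℤ) ∣ x.2 - x.1 := by
      have d1 : ((Int.gcd (D0 x y) (y.1 - y.2) : ℕ) : ℤ) ∣ D0 x y := Int.gcd_dvd_left _ _
      have d2 : ((Int.gcd (D0 x y) (y.1 - y.2) : ℕ) : ℤ) ∣ y.1 - y.2 := Int.gcd_dvd_right _ _
      have d3 : ((Int.gcd (D0 x y) (y.1 - y.2) : ℕ) : ℤ) ∣ y.2 * (x.2 - x.1) := by
        have : y.2 * (x.2 - x.1) = D0 x y - x.2 * (y.1 - y.2) := by unfold D0; ring
        rw [this]
        exact dvd_sub d1 (Dvd.dvd.mul_left d2 _)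
      have c1 : IsCoprime (y.1 - y.2) y.2 := by
        have := IsCoprime.add_mul_right_left hy (-1)
        have e : y.1 + (-1) * y.2 = y.1 - y.2 := by ring
        rwa [e] at this
      exact (c1.of_isCoprime_of_dvd_left d2).dvd_of_dvd_mul_left d3
    have h2 : ((Int.gcd (D0 x y) x.1 * Int.gcd (D0 x y) x.2 * Int.gcd (D0 x y) (y.1 - y.2) : ℕ) : ℤ) ∣
        MM x := by
      push_cast
      unfold MM
      exact mul_dvd_mul (mul_dvd_mul (Int.gcd_dvd_right _ _) (Int.gcd_dvd_right _ _)) h1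
    exact (Int.natCast_dvd_natCast.2 h).trans h2
  have hE2 : ((Int.gcd (D0 x y) (y.1 * y.2 * (x.2 - x.1)) : ℕ) : ℤ) ∣ MM x := by
    have h := gcd_mul3 (D0 x y) y.1 y.2 (x.2 - x.1)
    have h1 : ((Int.gcd (D0 x y) y.1 : ℕ) : ℤ) ∣ x.1 := by
      have d1 : ((Int.gcd (D0 x y) y.1 : ℕ) : ℤ) ∣ D0 x y := Int.gcd_dvd_left _ _
      have d2 : ((Int.gcd (D0 x y) y.1 : ℕ) : ℤ) ∣ y.1 := Int.gcd_dvd_right _ _
      have d3 : ((Int.gcd (D0 x y) y.1 : ℕ) : ℤ) ∣ x.1 * y.2 := by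
        have : x.1 * y.2 = y.1 * x.2 - D0 x y := by unfold D0; ring
        rw [this]
        exact dvd_sub (Dvd.dvd.mul_right d2 _) d1
      exact (hy.of_isCoprime_of_dvd_left d2).dvd_of_dvd_mul_right d3
    have h2 : ((Int.gcd (D0 x y) y.2 : ℕ) : ℤ) ∣ x.2 := by
      have d1 : ((Int.gcd (D0 x y) y.2 : ℕ) : ℤ) ∣ D0 x y := Int.gcd_dvd_left _ _
      have d2 : ((Int.gcd (D0 x y) y.2 : ℕ) : ℤ) ∣ y.2 := Int.gcd_dvd_right _ _
      have d3 : ((Int.gcd (D0 x y) y.2 : ℕ) : ℤ) ∣ y.1 * x.2 := by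
        have : y.1 * x.2 = D0 x y + x.1 * y.2 := by unfold D0; ring
        rw [this]
        exact dvd_add d1 (Dvd.dvd.mul_left d2 _)
      exact (hy.symm.of_isCoprime_of_dvd_left d2).dvd_of_dvd_mul_left d3
    have h3 : ((Int.gcd (D0 x y) y.1 * Int.gcd (D0 x y) y.2 * Int.gcd (D0 x y) (x.2 - x.1) : ℕ) : ℤ) ∣
        MM x := by
      push_cast
      unfold MM
      exact mul_dvd_mul (mul_dvd_mul h1 h2) (Int.gcd_dvd_right _ _)
    exact (Int.natCast_dvd_natCast.2 h).trans h3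
  obtain ⟨Q, hQ⟩ : ∃ Q : ℕ, Q = Int.gcd (D0 x y) (MM x) := ⟨_, rfl⟩
  have q1 : Int.gcd (D0 x y) (x.1 * x.2 * (y.1 - y.2)) ∣ Q := by
    rw [hQ]; exact Int.dvd_gcd (Int.gcd_dvd_left _ _) hE1
  have q2 : Int.gcd (D0 x y) (y.1 * y.2 * (x.2 - x.1)) ∣ Q := by
    rw [hQ]; exact Int.dvd_gcd (Int.gcd_dvd_left _ _) hE2
  rw [← hQ]
  obtain ⟨r, hr⟩ : ∃ r : ℕ, r = Int.gcd (a * b * D0 x y)
    (Int.gcd (a * a * b * (x.1 * x.2 * (y.1 - y.2)))
      (a * b * b * (y.1 * y.2 * (x.2 - x.1)))) := ⟨_, rfl⟩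
  rw [← hr]
  have r0 : (r : ℤ) ∣ a * b * D0 x y := by rw [hr]; exact Int.gcd_dvd_left _ _
  have r12 : (r : ℤ) ∣ ((Int.gcd (a * a * b * (x.1 * x.2 * (y.1 - y.2)))
      (a * b * b * (y.1 * y.2 * (x.2 - x.1))) : ℕ) : ℤ) := by
    rw [hr]; exact Int.gcd_dvd_right _ _
  have r1 : (r : ℤ) ∣ a * a * b * (x.1 * x.2 * (y.1 - y.2)) := r12.trans (Int.gcd_dvd_left _ _)
  have r2 : (r : ℤ) ∣ a * b * b * (y.1 * y.2 * (x.2 - x.1)) := r12.trans (Int.gcd_dvd_right _ _)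
  have s1 : r ∣ a * b * a * Q := by
    have h1 : (r : ℤ) ∣ (a * b * a : ℤ) * D0 x y := by
      have : (a * b * a : ℤ) * D0 x y = a * (a * b * D0 x y) := by ring
      rw [this]; exact Dvd.dvd.mul_left r0 _
    have h2 : (r : ℤ) ∣ (a * b * a : ℤ) * (x.1 * x.2 * (y.1 - y.2)) := by
      have : (a * b * a : ℤ) * (x.1 * x.2 * (y.1 - y.2)) =
        a * a * b * (x.1 * x.2 * (y.1 - y.2)) := by ring
      rw [this]; exact r1
    have h3 : r ∣ Int.gcd ((a * b * a : ℤ) * D0 x y) ((a * b * a : ℤ) * (x.1 * x.2 * (y.1 - y.2))) :=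
      Int.dvd_gcd h1 h2
    rw [Int.gcd_mul_left] at h3
    have h4 : (a * b * a : ℤ).natAbs = a * b * a := by
      have : (a * b * a : ℤ) = ((a * b * a : ℕ) : ℤ) := by push_cast; ring
      rw [this, Int.natAbs_natCast]
    rw [h4] at h3
    exact h3.trans (Nat.mul_dvd_mul_left _ q1)
  have s2 : r ∣ a * b * b * Q := by
    have h1 : (r : ℤ) ∣ (a * b * b : ℤ) * D0 x y := by
      have : (a * b * b : ℤ) * D0 x y = b * (a * b * D0 x y) := by ring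
      rw [this]; exact Dvd.dvd.mul_left r0 _
    have h3 : r ∣ Int.gcd ((a * b * b : ℤ) * D0 x y) ((a * b * b : ℤ) * (y.1 * y.2 * (x.2 - x.1))) :=
      Int.dvd_gcd h1 r2
    rw [Int.gcd_mul_left] at h3
    have h4 : (a * b * b : ℤ).natAbs = a * b * b := by
      have : (a * b * b : ℤ) = ((a * b * b : ℕ) : ℤ) := by push_cast; ring
      rw [this, Int.natAbs_natCast]
    rw [h4] at h3
    exact h3.trans (Nat.mul_dvd_mul_left _ q2)
  have s3 : r ∣ Nat.gcd (a * (a * b * Q)) (b * (a * b * Q)) := by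
    refine Nat.dvd_gcd ?_ ?_
    · have : a * (a * b * Q) = a * b * a * Q := by ring
      rw [this]; exact s1
    · have : b * (a * b * Q) = a * b * b * Q := by ring
      rw [this]; exact s2
  rw [Nat.gcd_mul_right] at s3
  have : a * b * Nat.gcd a b * Q = Nat.gcd a b * (a * b * Q) := by ring
  rw [this]
  exact s3

/-- `∑ gcd(a, b)/(a b)` -/
theorem gcd_harm {V G : ℕ} {T : ℝ} (hL : Loss V T) (hG : G ≤ V) :
    ∑ p ∈ (Icc 1 G) ×ˢ (Icc 1 G), (Nat.gcd p.1 p.2 : ℝ) / (p.1 * p.2) ≤ T ^ 3 := by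
  classical
  have hT0 : 0 ≤ T := by linarith [hL.two]
  let φ : ℕ × ℕ → ℕ × ℕ × ℕ := fun p =>
    (Nat.gcd p.1 p.2, p.1 / Nat.gcd p.1 p.2, p.2 / Nat.gcd p.1 p.2)
  let w : ℕ × ℕ × ℕ → ℝ := fun t => (1 / (t.1 : ℝ)) * ((1 / (t.2.1 : ℝ)) * (1 / (t.2.2 : ℝ)))
  have hval : ∀ p ∈ (Icc 1 G) ×ˢ (Icc 1 G), (Nat.gcd p.1 p.2 : ℝ) / (p.1 * p.2) = w (φ p) := by
    intro p hp
    obtain ⟨h1, h2⟩ := mem_product.1 hp
    have p1 : 1 ≤ p.1 := (mem_Icc.1 h1).1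
    have p2 : 1 ≤ p.2 := (mem_Icc.1 h2).1
    have hg : 0 < Nat.gcd p.1 p.2 := Nat.gcd_pos_of_pos_left _ p1
    have e1 : p.1 = Nat.gcd p.1 p.2 * (p.1 / Nat.gcd p.1 p.2) :=
      (Nat.mul_div_cancel' (Nat.gcd_dvd_left _ _)).symm
    have e2 : p.2 = Nat.gcd p.1 p.2 * (p.2 / Nat.gcd p.1 p.2) :=
      (Nat.mul_div_cancel' (Nat.gcd_dvd_right _ _)).symm
    have f1 : (p.1 : ℝ) = (Nat.gcd p.1 p.2 : ℝ) * ((p.1 / Nat.gcd p.1 p.2 : ℕ) : ℝ) := by
      exact_mod_cast e1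
    have f2 : (p.2 : ℝ) = (Nat.gcd p.1 p.2 : ℝ) * ((p.2 / Nat.gcd p.1 p.2 : ℕ) : ℝ) := by
      exact_mod_cast e2
    have g1 : (0 : ℝ) < Nat.gcd p.1 p.2 := by exact_mod_cast hg
    have g2 : (0 : ℝ) < ((p.1 / Nat.gcd p.1 p.2 : ℕ) : ℝ) := by
      have : (0 : ℝ) < p.1 := by exact_mod_cast p1
      rw [f1] at this
      exact pos_of_mul_pos_right this g1.le
    have g3 : (0 : ℝ) < ((p.2 / Nat.gcd p.1 p.2 : ℕ) : ℝ) := by
      have : (0 : ℝ) < p.2 := by exact_mod_cast p2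
      rw [f2] at this
      exact pos_of_mul_pos_right this g1.le
    show (Nat.gcd p.1 p.2 : ℝ) / (p.1 * p.2) = (1 / (Nat.gcd p.1 p.2 : ℝ)) *
      ((1 / ((p.1 / Nat.gcd p.1 p.2 : ℕ) : ℝ)) * (1 / ((p.2 / Nat.gcd p.1 p.2 : ℕ) : ℝ)))
    conv_lhs => rw [f1, f2]
    field_simp
  have hinj : Set.InjOn φ (((Icc 1 G) ×ˢ (Icc 1 G) : Finset (ℕ × ℕ)) : Set (ℕ × ℕ)) := by
    intro p _ p' _ h
    simp only [φ, Prod.mk.injEq] at h
    obtain ⟨h1, h2, h3⟩ := h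
    have e1 : p.1 = Nat.gcd p.1 p.2 * (p.1 / Nat.gcd p.1 p.2) :=
      (Nat.mul_div_cancel' (Nat.gcd_dvd_left _ _)).symm
    have e2 : p.2 = Nat.gcd p.1 p.2 * (p.2 / Nat.gcd p.1 p.2) :=
      (Nat.mul_div_cancel' (Nat.gcd_dvd_right _ _)).symm
    have e1' : p'.1 = Nat.gcd p'.1 p'.2 * (p'.1 / Nat.gcd p'.1 p'.2) :=
      (Nat.mul_div_cancel' (Nat.gcd_dvd_left _ _)).symm
    have e2' : p'.2 = Nat.gcd p'.1 p'.2 * (p'.2 / Nat.gcd p'.1 p'.2) :=
      (Nat.mul_div_cancel' (Nat.gcd_dvd_right _ _)).symm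
    refine Prod.ext ?_ ?_
    · rw [e1, h2, h1, ← e1']
    · rw [e2, h3, h1, ← e2']
  have hmap : ((Icc 1 G) ×ˢ (Icc 1 G)).image φ ⊆ (Icc 1 G) ×ˢ (Icc 1 G) ×ˢ (Icc 1 G) := by
    intro t ht
    obtain ⟨p, hp, rfl⟩ := mem_image.1 ht
    obtain ⟨h1, h2⟩ := mem_product.1 hp
    obtain ⟨p1, u1⟩ := mem_Icc.1 h1
    obtain ⟨p2, u2⟩ := mem_Icc.1 h2
    have hg : 0 < Nat.gcd p.1 p.2 := Nat.gcd_pos_of_pos_left _ p1
    have l1 : Nat.gcd p.1 p.2 ≤ p.1 := Nat.gcd_le_left _ p1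
    have l2 : Nat.gcd p.1 p.2 ≤ p.2 := Nat.gcd_le_right _ p2
    rw [mem_product, mem_product, mem_Icc, mem_Icc, mem_Icc]
    refine ⟨⟨hg, le_trans l1 u1⟩, ⟨Nat.div_pos l1 hg, ?_⟩, ⟨Nat.div_pos l2 hg, ?_⟩⟩
    · exact le_trans (Nat.div_le_self _ _) u1
    · exact le_trans (Nat.div_le_self _ _) u2
  have hh := harm_le hL hG
  have hh0 : 0 ≤ ∑ n ∈ Icc 1 G, (1 : ℝ) / n := sum_nonneg fun n _ => by positivity
  calc ∑ p ∈ (Icc 1 G) ×ˢ (Icc 1 G), (Nat.gcd p.1 p.2 : ℝ) / (p.1 * p.2)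
      = ∑ p ∈ (Icc 1 G) ×ˢ (Icc 1 G), w (φ p) := sum_congr rfl hval
    _ = ∑ t ∈ ((Icc 1 G) ×ˢ (Icc 1 G)).image φ, w t := (Finset.sum_image hinj).symm
    _ ≤ ∑ t ∈ (Icc 1 G) ×ˢ (Icc 1 G) ×ˢ (Icc 1 G), w t :=
        sum_le_sum_of_subset_of_nonneg hmap fun t _ _ => by positivity
    _ = (∑ n ∈ Icc 1 G, (1 : ℝ) / n) * ((∑ n ∈ Icc 1 G, (1 : ℝ) / n) *
          (∑ n ∈ Icc 1 G, (1 : ℝ) / n)) := by
        rw [Finset.sum_product, Finset.sum_mul]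
        refine sum_congr rfl fun n _ => ?_
        rw [Finset.sum_product, Finset.sum_mul_sum, Finset.mul_sum]
        refine sum_congr rfl fun m _ => ?_
        rw [Finset.mul_sum]
    _ ≤ T * (T * T) := mul_le_mul hh (mul_le_mul hh hh hh0 hT0) (mul_nonneg hh0 hh0) hT0
    _ = T ^ 3 := by ring

end Pool.Agent.TII
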