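import Pool.Agent.TII.GC3

/-!
# [TII-GC4] LEMMA GCD, final form
-/

set_option autoImplicit false

namespace Pool.Agent.TII

open Finset

/-- the box: `q = (g, g', f, f')` -/
noncomputable def box (G : ℕ) : Finset (ℤ × ℤ × ℤ × ℤ) :=
  (Icc (-(G : ℤ)) G) ×ˢ (Icc (-(G : ℤ)) G) ×ˢ (Icc (-(G : ℤ)) G) ×ˢ (Icc (-(G : ℤ)) G)

/-- all the differences are nonzero -/
def Good (q : ℤ × ℤ × ℤ × ℤ) : Prop :=
  q.1 ≠ 0 ∧ q.2.1 ≠ 0 ∧ q.2.2.1 ≠ 0 ∧ q.2.2.2 ≠ 0 ∧ q.1 ≠ q.2.2.1 ∧ q.2.1 ≠ q.2.2.2 ∧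
    q.2.1 * q.2.2.1 - q.1 * q.2.2.2 ≠ 0

instance : DecidablePred Good := fun q => by unfold Good; infer_instance

/-- `gcd(Δ, f g (g' - f'), f' g' (f - g))`, `Δ = g' f - g f'` -/
def W1 (q : ℤ × ℤ × ℤ × ℤ) : ℕ :=
  Int.gcd (q.2.1 * q.2.2.1 - q.1 * q.2.2.2)
    (Int.gcd (q.2.2.1 * q.1 * (q.2.1 - q.2.2.2)) (q.2.2.2 * q.2.1 * (q.2.2.1 - q.1)))

/-- the primitive vector of `(g, f)` -/
def prv (g f : ℤ) : ℤ × ℤ := (g / Int.gcd g f, f / Int.gcd g f)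

theorem prv_eq (g f : ℤ) : g = Int.gcd g f * (prv g f).1 ∧ f = Int.gcd g f * (prv g f).2 :=
  ⟨(Int.mul_ediv_cancel' (Int.gcd_dvd_left _ _)).symm,
    (Int.mul_ediv_cancel' (Int.gcd_dvd_right _ _)).symm⟩

theorem prv_copr {g f : ℤ} (hg : g ≠ 0) : Int.gcd (prv g f).1 (prv g f).2 = 1 := by
  have h : 0 < Int.gcd g f := Int.gcd_pos_of_ne_zero_left _ hg
  exact Int.gcd_div_gcd_div_gcd h

theorem prv_mem {G : ℕ} {g f : ℤ} (hg : g ≠ 0) (hf : f ≠ 0) (hgf : g ≠ f) (bg : |g| ≤ G)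
    (bf : |f| ≤ G) : prv g f ∈ PB (G / Int.gcd g f) := by
  obtain ⟨e1, e2⟩ := prv_eq g f
  have h : 0 < Int.gcd g f := Int.gcd_pos_of_ne_zero_left _ hg
  have bd : ∀ z w : ℤ, |z| ≤ G → z = Int.gcd g f * w → |w| ≤ ((G / Int.gcd g f : ℕ) : ℤ) := by
    intro z w hz hzw
    rw [hzw, abs_mul, Int.abs_eq_natAbs w] at hz
    have h1 : |((Int.gcd g f : ℕ) : ℤ)| = Int.gcd g f := abs_of_nonneg (by positivity)
    rw [h1] at hz
    have h2 : Int.gcd g f * w.natAbs ≤ G := by exact_mod_cast hz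
    have h3 : w.natAbs ≤ G / Int.gcd g f := (Nat.le_div_iff_mul_le h).2 (by rw [mul_comm]; exact h2)
    rw [Int.abs_eq_natAbs]
    exact_mod_cast h3
  refine mem_PB.2 ⟨⟨bd g _ bg e1, bd f _ bf e2⟩, ?_, ?_, ?_, prv_copr hg⟩
  · intro h0; rw [h0, mul_zero] at e1; exact hg e1
  · intro h0; rw [h0, mul_zero] at e2; exact hf e2
  · intro h0
    apply hgf
    rw [h0] at e1
    exact e1.trans e2.symm

section

variable {g g' f f' : ℤ} {a b : ℕ} {x y : ℤ × ℤ}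

theorem Delta_eq (e1 : g = a * x.1) (e2 : f = a * x.2) (e3 : g' = b * y.1) (e4 : f' = b * y.2) :
    g' * f - g * f' = a * b * D0 x y := by
  rw [e1, e2, e3, e4]; unfold D0; ring

theorem W1_le (hy : IsCoprime y.1 y.2) (e1 : g = a * x.1) (e2 : f = a * x.2) (e3 : g' = b * y.1)
    (e4 : f' = b * y.2) (ha : 0 < a) (hb : 0 < b) (hD : D0 x y ≠ 0) :
    W1 (g, g', f, f') ≤ a * b * Nat.gcd a b * Int.gcd (D0 x y) (MM x) := by
  have h := W_dvd (x := x) hy a b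
  have e : W1 (g, g', f, f') = Int.gcd (a * b * D0 x y)
      (Int.gcd (a * a * b * (x.1 * x.2 * (y.1 - y.2))) (a * b * b * (y.1 * y.2 * (x.2 - x.1)))) := by
    unfold W1
    simp only
    rw [Delta_eq e1 e2 e3 e4]
    have h1 : f * g * (g' - f') = a * a * b * (x.1 * x.2 * (y.1 - y.2)) := by
      rw [e1, e2, e3, e4]; ring
    have h2 : f' * g' * (f - g) = a * b * b * (y.1 * y.2 * (x.2 - x.1)) := by
      rw [e1, e2, e3, e4]; ring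
    rw [h1, h2]
  rw [e]
  refine Nat.le_of_dvd ?_ h
  have h1 : 0 < Nat.gcd a b := Nat.gcd_pos_of_pos_left _ ha
  have h2 : 0 < Int.gcd (D0 x y) (MM x) := Int.gcd_pos_of_ne_zero_left _ hD
  positivity

theorem W1_le' (hx : IsCoprime x.1 x.2) (e1 : g = a * x.1) (e2 : f = a * x.2) (e3 : g' = b * y.1)
    (e4 : f' = b * y.2) (ha : 0 < a) (hb : 0 < b) (hD : D0 y x ≠ 0) :
    W1 (g, g', f, f') ≤ a * b * Nat.gcd a b * Int.gcd (D0 y x) (MM y) := by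
  have h := W_dvd (x := y) hx b a
  have hd : W1 (g, g', f, f') ∣ Int.gcd (b * a * D0 y x)
      (Int.gcd (b * b * a * (y.1 * y.2 * (x.1 - x.2))) (b * a * a * (x.1 * x.2 * (y.2 - y.1)))) := by
    have t0 : ((W1 (g, g', f, f') : ℕ) : ℤ) ∣ g' * f - g * f' := Int.gcd_dvd_left _ _
    have t12 : ((W1 (g, g', f, f') : ℕ) : ℤ) ∣
      ((Int.gcd (f * g * (g' - f')) (f' * g' * (f - g)) : ℕ) : ℤ) := Int.gcd_dvd_right _ _
    have t1 : ((W1 (g, g', f, f') : ℕ) : ℤ) ∣ f * g * (g' - f') := t12.trans (Int.gcd_dvd_left _ _)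
    have t2 : ((W1 (g, g', f, f') : ℕ) : ℤ) ∣ f' * g' * (f - g) := t12.trans (Int.gcd_dvd_right _ _)
    have s0 : ((W1 (g, g', f, f') : ℕ) : ℤ) ∣ b * a * D0 y x := by
      have : (b * a * D0 y x : ℤ) = -(g' * f - g * f') := by
        rw [Delta_eq e1 e2 e3 e4, D0_swap]; ring
      rw [this]; exact (dvd_neg).2 t0
    have s1 : ((W1 (g, g', f, f') : ℕ) : ℤ) ∣ b * b * a * (y.1 * y.2 * (x.1 - x.2)) := by
      have : (b * b * a * (y.1 * y.2 * (x.1 - x.2)) : ℤ) = -(f' * g' * (f - g)) := by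
        rw [e1, e2, e3, e4]; ring
      rw [this]; exact (dvd_neg).2 t2
    have s2 : ((W1 (g, g', f, f') : ℕ) : ℤ) ∣ b * a * a * (x.1 * x.2 * (y.2 - y.1)) := by
      have : (b * a * a * (x.1 * x.2 * (y.2 - y.1)) : ℤ) = -(f * g * (g' - f')) := by
        rw [e1, e2, e3, e4]; ring
      rw [this]; exact (dvd_neg).2 t1
    exact Int.dvd_gcd s0 (by exact_mod_cast Int.dvd_gcd s1 s2)
  have h3 := Nat.le_of_dvd ?_ (hd.trans h)
  · calc _ ≤ b * a * Nat.gcd b a * Int.gcd (D0 y x) (MM y) := h3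
      _ = a * b * Nat.gcd a b * Int.gcd (D0 y x) (MM y) := by rw [Nat.gcd_comm b a]; ring
  · have h1 : 0 < Nat.gcd b a := Nat.gcd_pos_of_pos_left _ hb
    have h2 : 0 < Int.gcd (D0 y x) (MM y) := Int.gcd_pos_of_ne_zero_left _ hD
    positivity

end

/-- the part with given gcd's -/
theorem fib_sum {V G a b : ℕ} {T : ℝ} (hL : Loss V T) (hV : (8 * G) ^ 6 ≤ V) (hG : 1 ≤ G)
    (ha : 0 < a) (hb : 0 < b) :
    ∑ q ∈ ((box G).filter Good).filter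
      (fun q => (Int.gcd q.1 q.2.2.1, Int.gcd q.2.1 q.2.2.2) = (a, b)), (W1 q : ℝ) ≤
      180 * T * (G : ℝ) ^ 4 * ((Nat.gcd a b : ℝ) / (a * b)) := by
  classical
  have hT0 : 0 ≤ T := by linarith [hL.two]
  obtain ⟨F, hF⟩ : ∃ F, F = ((box G).filter Good).filter
      (fun q => (Int.gcd q.1 q.2.2.1, Int.gcd q.2.1 q.2.2.2) = (a, b)) := ⟨_, rfl⟩
  rw [← hF]
  have hVG : ∀ c : ℕ, 2 * (G / c) ^ 3 ≤ V := by
    intro c
    have h1 : G / c ≤ G := Nat.div_le_self _ _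
    calc 2 * (G / c) ^ 3 ≤ 2 * G ^ 3 := Nat.mul_le_mul_left _ (Nat.pow_le_pow_left h1 3)
      _ ≤ (8 * G) ^ 3 := by
          rw [mul_pow]
          exact Nat.mul_le_mul_right _ (by norm_num)
      _ ≤ (8 * G) ^ 6 := Nat.pow_le_pow_right (by omega) (by norm_num)
      _ ≤ V := hV
  have hmem : ∀ q ∈ F, (q.1 ≠ 0 ∧ q.2.1 ≠ 0 ∧ q.2.2.1 ≠ 0 ∧ q.2.2.2 ≠ 0) ∧
      Int.gcd q.1 q.2.2.1 = a ∧ Int.gcd q.2.1 q.2.2.2 = b ∧
      prv q.1 q.2.2.1 ∈ PB (G / a) ∧ prv q.2.1 q.2.2.2 ∈ PB (G / b) ∧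
      D0 (prv q.1 q.2.2.1) (prv q.2.1 q.2.2.2) ≠ 0 := by
    intro q hq
    rw [hF] at hq
    obtain ⟨h1, h2⟩ := mem_filter.1 hq
    obtain ⟨h3, h4⟩ := mem_filter.1 h1
    obtain ⟨n1, n2, n3, n4, n5, n6, n7⟩ := h4
    simp only [Prod.mk.injEq] at h2
    obtain ⟨ga, gb⟩ := h2
    unfold box at h3
    rw [mem_product, mem_product, mem_product, mem_Icc, mem_Icc, mem_Icc, mem_Icc, ← abs_le,
      ← abs_le, ← abs_le, ← abs_le] at h3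
    obtain ⟨b1, b2, b3, b4⟩ := h3
    have p1 := prv_mem n1 n3 n5 b1 b3
    have p2 := prv_mem n2 n4 n6 b2 b4
    rw [ga] at p1
    rw [gb] at p2
    refine ⟨⟨n1, n2, n3, n4⟩, ga, gb, p1, p2, ?_⟩
    intro h0
    apply n7
    have e1 := prv_eq q.1 q.2.2.1
    have e2 := prv_eq q.2.1 q.2.2.2
    rw [Delta_eq e1.1 e1.2 e2.1 e2.2, h0, mul_zero]
  have hrec : ∀ q ∈ F, q.1 = a * (prv q.1 q.2.2.1).1 ∧ q.2.2.1 = a * (prv q.1 q.2.2.1).2 ∧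
      q.2.1 = b * (prv q.2.1 q.2.2.2).1 ∧ q.2.2.2 = b * (prv q.2.1 q.2.2.2).2 := by
    intro q hq
    obtain ⟨-, ga, gb, -⟩ := hmem q hq
    have e1 := prv_eq q.1 q.2.2.1
    have e2 := prv_eq q.2.1 q.2.2.2
    rw [ga] at e1
    rw [gb] at e2
    exact ⟨e1.1, e1.2, e2.1, e2.2⟩
  have har : (0 : ℝ) < a := by exact_mod_cast ha
  have hbr : (0 : ℝ) < b := by exact_mod_cast hb
  have hga : ((G / a : ℕ) : ℝ) ≤ (G : ℝ) / a := Nat.cast_div_le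
  have hgb : ((G / b : ℕ) : ℝ) ≤ (G : ℝ) / b := Nat.cast_div_le
  have hfin : ∀ S : ℝ, S ≤ (a * b * Nat.gcd a b : ℝ) *
      (180 * T * ((G / a : ℕ) : ℝ) ^ 2 * ((G / b : ℕ) : ℝ) ^ 2) →
      S ≤ 180 * T * (G : ℝ) ^ 4 * ((Nat.gcd a b : ℝ) / (a * b)) := by
    intro S hS
    refine hS.trans ?_
    have h1 : ((G / a : ℕ) : ℝ) ^ 2 ≤ ((G : ℝ) / a) ^ 2 := pow_le_pow_left₀ (by positivity) hga 2
    have h2 : ((G / b : ℕ) : ℝ) ^ 2 ≤ ((G : ℝ) / b) ^ 2 := pow_le_pow_left₀ (by positivity) hgb 2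
    calc (a * b * Nat.gcd a b : ℝ) *
      (180 * T * ((G / a : ℕ) : ℝ) ^ 2 * ((G / b : ℕ) : ℝ) ^ 2)
        ≤ (a * b * Nat.gcd a b : ℝ) * (180 * T * ((G : ℝ) / a) ^ 2 * ((G : ℝ) / b) ^ 2) := by
          refine mul_le_mul_of_nonneg_left ?_ (by positivity)
          exact mul_le_mul (mul_le_mul_of_nonneg_left h1 (by positivity)) h2 (by positivity)
            (by positivity)
      _ = 180 * T * (G : ℝ) ^ 4 * ((Nat.gcd a b : ℝ) / (a * b)) := by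
          field_simp
  rcases le_total b a with hab | hab
  · -- `G / a ≤ G / b`
    apply hfin
    let φ : ℤ × ℤ × ℤ × ℤ → (ℤ × ℤ) × (ℤ × ℤ) := fun q => (prv q.1 q.2.2.1, prv q.2.1 q.2.2.2)
    have hinj : Set.InjOn φ (F : Set (ℤ × ℤ × ℤ × ℤ)) := by
      intro q hq q' hq' h
      simp only [φ, Prod.mk.injEq] at h
      obtain ⟨h1, h2⟩ := h
      obtain ⟨r1, r2, r3, r4⟩ := hrec q hq
      obtain ⟨s1, s2, s3, s4⟩ := hrec q' hq'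
      rw [h1] at r1 r2
      rw [h2] at r3 r4
      refine Prod.ext (r1.trans s1.symm) (Prod.ext (r3.trans s3.symm)
        (Prod.ext (r2.trans s2.symm) (r4.trans s4.symm)))
    have himg : F.image φ ⊆ ((PB (G / a)) ×ˢ (PB (G / b))).filter (fun p => D0 p.1 p.2 ≠ 0) := by
      intro p hp
      obtain ⟨q, hq, rfl⟩ := mem_image.1 hp
      obtain ⟨-, -, -, m1, m2, m3⟩ := hmem q hq
      exact mem_filter.2 ⟨mem_product.2 ⟨m1, m2⟩, m3⟩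
    have hps := prim_sum hL (Nat.div_le_div_left hab hb) (hVG b)
    calc ∑ q ∈ F, (W1 q : ℝ) ≤ ∑ q ∈ F, (a * b * Nat.gcd a b : ℝ) *
          (Int.gcd (D0 (φ q).1 (φ q).2) (MM (φ q).1) : ℝ) := by
          refine sum_le_sum fun q hq => ?_
          obtain ⟨⟨n1, n2, n3, n4⟩, -, -, m1, m2, m3⟩ := hmem q hq
          obtain ⟨r1, r2, r3, r4⟩ := hrec q hq
          have hy : IsCoprime (prv q.2.1 q.2.2.2).1 (prv q.2.1 q.2.2.2).2 :=
            Int.isCoprime_iff_gcd_eq_one.2 (prv_copr n2)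
          have := W1_le hy r1 r2 r3 r4 ha hb m3
          exact_mod_cast this
      _ = ∑ p ∈ F.image φ, (a * b * Nat.gcd a b : ℝ) * (Int.gcd (D0 p.1 p.2) (MM p.1) : ℝ) :=
          (Finset.sum_image (f := fun p : (ℤ × ℤ) × (ℤ × ℤ) =>
            (a * b * Nat.gcd a b : ℝ) * (Int.gcd (D0 p.1 p.2) (MM p.1) : ℝ)) hinj).symm
      _ ≤ ∑ p ∈ ((PB (G / a)) ×ˢ (PB (G / b))).filter (fun p => D0 p.1 p.2 ≠ 0),
            (a * b * Nat.gcd a b : ℝ) * (Int.gcd (D0 p.1 p.2) (MM p.1) : ℝ) :=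
          sum_le_sum_of_subset_of_nonneg himg fun p _ _ => by positivity
      _ = (a * b * Nat.gcd a b : ℝ) *
          ∑ p ∈ ((PB (G / a)) ×ˢ (PB (G / b))).filter (fun p => D0 p.1 p.2 ≠ 0),
            (Int.gcd (D0 p.1 p.2) (MM p.1) : ℝ) := by rw [mul_sum]
      _ ≤ (a * b * Nat.gcd a b : ℝ) *
          (180 * T * ((G / a : ℕ) : ℝ) ^ 2 * ((G / b : ℕ) : ℝ) ^ 2) :=
          mul_le_mul_of_nonneg_left hps (by positivity)
  · -- `G / b ≤ G / a`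
    apply hfin
    let φ : ℤ × ℤ × ℤ × ℤ → (ℤ × ℤ) × (ℤ × ℤ) := fun q => (prv q.2.1 q.2.2.2, prv q.1 q.2.2.1)
    have hinj : Set.InjOn φ (F : Set (ℤ × ℤ × ℤ × ℤ)) := by
      intro q hq q' hq' h
      simp only [φ, Prod.mk.injEq] at h
      obtain ⟨h2, h1⟩ := h
      obtain ⟨r1, r2, r3, r4⟩ := hrec q hq
      obtain ⟨s1, s2, s3, s4⟩ := hrec q' hq'
      rw [h1] at r1 r2
      rw [h2] at r3 r4
      refine Prod.ext (r1.trans s1.symm) (Prod.ext (r3.trans s3.symm)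
        (Prod.ext (r2.trans s2.symm) (r4.trans s4.symm)))
    have himg : F.image φ ⊆ ((PB (G / b)) ×ˢ (PB (G / a))).filter (fun p => D0 p.1 p.2 ≠ 0) := by
      intro p hp
      obtain ⟨q, hq, rfl⟩ := mem_image.1 hp
      obtain ⟨-, -, -, m1, m2, m3⟩ := hmem q hq
      refine mem_filter.2 ⟨mem_product.2 ⟨m2, m1⟩, ?_⟩
      show D0 (prv q.2.1 q.2.2.2) (prv q.1 q.2.2.1) ≠ 0
      rw [D0_swap]
      exact neg_ne_zero.2 m3
    have hps := prim_sum hL (Nat.div_le_div_left hab ha) (hVG a)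
    calc ∑ q ∈ F, (W1 q : ℝ) ≤ ∑ q ∈ F, (a * b * Nat.gcd a b : ℝ) *
          (Int.gcd (D0 (φ q).1 (φ q).2) (MM (φ q).1) : ℝ) := by
          refine sum_le_sum fun q hq => ?_
          obtain ⟨⟨n1, n2, n3, n4⟩, -, -, m1, m2, m3⟩ := hmem q hq
          obtain ⟨r1, r2, r3, r4⟩ := hrec q hq
          have hx : IsCoprime (prv q.1 q.2.2.1).1 (prv q.1 q.2.2.1).2 :=
            Int.isCoprime_iff_gcd_eq_one.2 (prv_copr n1)
          have m3' : D0 (prv q.2.1 q.2.2.2) (prv q.1 q.2.2.1) ≠ 0 := by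
            rw [D0_swap]
            exact neg_ne_zero.2 m3
          have := W1_le' hx r1 r2 r3 r4 ha hb m3'
          exact_mod_cast this
      _ = ∑ p ∈ F.image φ, (a * b * Nat.gcd a b : ℝ) * (Int.gcd (D0 p.1 p.2) (MM p.1) : ℝ) :=
          (Finset.sum_image (f := fun p : (ℤ × ℤ) × (ℤ × ℤ) =>
            (a * b * Nat.gcd a b : ℝ) * (Int.gcd (D0 p.1 p.2) (MM p.1) : ℝ)) hinj).symm
      _ ≤ ∑ p ∈ ((PB (G / b)) ×ˢ (PB (G / a))).filter (fun p => D0 p.1 p.2 ≠ 0),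
            (a * b * Nat.gcd a b : ℝ) * (Int.gcd (D0 p.1 p.2) (MM p.1) : ℝ) :=
          sum_le_sum_of_subset_of_nonneg himg fun p _ _ => by positivity
      _ = (a * b * Nat.gcd a b : ℝ) *
          ∑ p ∈ ((PB (G / b)) ×ˢ (PB (G / a))).filter (fun p => D0 p.1 p.2 ≠ 0),
            (Int.gcd (D0 p.1 p.2) (MM p.1) : ℝ) := by rw [mul_sum]
      _ ≤ (a * b * Nat.gcd a b : ℝ) *
          (180 * T * ((G / b : ℕ) : ℝ) ^ 2 * ((G / a : ℕ) : ℝ) ^ 2) :=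
          mul_le_mul_of_nonneg_left hps (by positivity)
      _ = (a * b * Nat.gcd a b : ℝ) *
          (180 * T * ((G / a : ℕ) : ℝ) ^ 2 * ((G / b : ℕ) : ℝ) ^ 2) := by ring

/-- LEMMA GCD (TII.md, 6) -/
theorem gcd_sum_explicit {V G : ℕ} {T : ℝ} (hL : Loss V T) (hG : 1 ≤ G) (hV : (8 * G) ^ 6 ≤ V) :
    ∑ q ∈ (box G).filter Good, (W1 q : ℝ) ≤ 180 * T ^ 4 * (G : ℝ) ^ 4 := by
  classical
  have hT0 : 0 ≤ T := by linarith [hL.two]
  have hGV : G ≤ V := by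
    refine le_trans ?_ hV
    calc G ≤ 8 * G := by omega
      _ = (8 * G) ^ 1 := (pow_one _).symm
      _ ≤ (8 * G) ^ 6 := Nat.pow_le_pow_right (by omega) (by norm_num)
  have hmap : ∀ q ∈ (box G).filter Good,
      (Int.gcd q.1 q.2.2.1, Int.gcd q.2.1 q.2.2.2) ∈ (Icc 1 G) ×ˢ (Icc 1 G) := by
    intro q hq
    obtain ⟨h3, h4⟩ := mem_filter.1 hq
    obtain ⟨n1, n2, n3, n4, n5, n6, n7⟩ := h4
    unfold box at h3
    rw [mem_product, mem_product, mem_product, mem_Icc, mem_Icc, mem_Icc, mem_Icc, ← abs_le,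
      ← abs_le, ← abs_le, ← abs_le] at h3
    obtain ⟨b1, b2, b3, b4⟩ := h3
    have g1 : Int.gcd q.1 q.2.2.1 ≤ G := by
      have h1 : Int.gcd q.1 q.2.2.1 ≤ q.1.natAbs :=
        Nat.le_of_dvd (Int.natAbs_pos.2 n1) (Int.gcd_dvd_natAbs_left _ _)
      have h2 : q.1.natAbs ≤ G := by
        rw [Int.abs_eq_natAbs] at b1
        exact_mod_cast b1
      omega
    have g2 : Int.gcd q.2.1 q.2.2.2 ≤ G := by
      have h1 : Int.gcd q.2.1 q.2.2.2 ≤ q.2.1.natAbs :=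
        Nat.le_of_dvd (Int.natAbs_pos.2 n2) (Int.gcd_dvd_natAbs_left _ _)
      have h2 : q.2.1.natAbs ≤ G := by
        rw [Int.abs_eq_natAbs] at b2
        exact_mod_cast b2
      omega
    rw [mem_product, mem_Icc, mem_Icc]
    exact ⟨⟨Int.gcd_pos_of_ne_zero_left _ n1, g1⟩, ⟨Int.gcd_pos_of_ne_zero_left _ n2, g2⟩⟩
  rw [← Finset.sum_fiberwise_of_maps_to hmap]
  calc _ ≤ ∑ p ∈ (Icc 1 G) ×ˢ (Icc 1 G),
        180 * T * (G : ℝ) ^ 4 * ((Nat.gcd p.1 p.2 : ℝ) / (p.1 * p.2)) := by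
        refine sum_le_sum fun p hp => ?_
        obtain ⟨h1, h2⟩ := mem_product.1 hp
        exact fib_sum hL hV hG (mem_Icc.1 h1).1 (mem_Icc.1 h2).1
    _ = 180 * T * (G : ℝ) ^ 4 *
        ∑ p ∈ (Icc 1 G) ×ˢ (Icc 1 G), (Nat.gcd p.1 p.2 : ℝ) / (p.1 * p.2) := by rw [mul_sum]
    _ ≤ 180 * T * (G : ℝ) ^ 4 * T ^ 3 :=
        mul_le_mul_of_nonneg_left (gcd_harm hL hGV) (by positivity)
    _ = 180 * T ^ 4 * (G : ℝ) ^ 4 := by ring

/-- LEMMA GCD (TII.md, 6) -/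
theorem gcd_sum : ∃ C : ℝ, ∃ k : ℕ, 0 < C ∧ ∀ (V : ℕ) (T : ℝ) (G : ℕ), Loss V T → 1 ≤ G →
    (8 * G) ^ 6 ≤ V → ∑ q ∈ (box G).filter Good, (W1 q : ℝ) ≤ C * T ^ k * (G : ℝ) ^ 4 :=
  ⟨180, 4, by norm_num, fun _ _ _ hL hG hV => gcd_sum_explicit hL hG hV⟩

end Pool.Agent.TII
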