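import Pool.Agent.TII.P3a

/-!
# [TII-P3b] the values and the mean of `Fo`
-/

set_option autoImplicit false

namespace Pool.Agent.TII

open Finset

theorem card_P1 (l : ℕ) [NeZero l] : Fintype.card (P1 l) = l + 1 := by
  show Fintype.card (Option (ZMod l)) = l + 1
  rw [Fintype.card_option, ZMod.card]

/-- [P4a] two solutions `t, t'` satisfy `n1 ∣ t - t'`, `2 |t - t'| ≤ N < n1` -/
theorem Fo_le_one {N H n1 n2 : ℕ} (h : Pair N H n1 n2) [Fact n1.Prime] [Fact n2.Prime] {W : Finset ℤ}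
    (hW : Win N W) (z : P1 n1 × P1 n2) : Fo W n1 n2 z ≤ 1 := by
  unfold Fo
  have hu := h.unit.1
  have key : ∀ t ∈ W, ∀ t' ∈ W,
      z.1 = pt n1 (((n1 : ℤ) - n2 : ℤ) : ZMod n1) ((-t : ℤ) : ZMod n1) →
      z.1 = pt n1 (((n1 : ℤ) - n2 : ℤ) : ZMod n1) ((-t' : ℤ) : ZMod n1) → t = t' := by
    intro t ht t' ht' e1 e2
    have e3 := e1.symm.trans e2
    rw [pt_eq_iff _ _ _ _ (Or.inl hu) (Or.inl hu), mul_comm] at e3
    have e4 := mul_right_cancel₀ hu e3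
    have e5 : ((-t' : ℤ) : ZMod n1) = ((-t : ℤ) : ZMod n1) := e4
    have e6 := (ZMod.intCast_eq_intCast_iff_dvd_sub _ _ _).mp e5
    have e7 := hW.diam t ht t' ht'
    have hl := h.l1
    by_contra hne
    have e8 : (n1 : ℤ) ∣ |t - t'| := by
      rw [dvd_abs]
      have e9 : t - t' = -(-t - -t') := by ring
      rw [e9]
      exact (dvd_neg).mpr e6
    have e10 : 0 < |t - t'| := abs_pos.mpr (sub_ne_zero.mpr hne)
    have e11 := Int.le_of_dvd e10 e8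
    omega
  have hc : (W.filter fun t : ℤ => z.1 = pt n1 (((n1 : ℤ) - n2 : ℤ) : ZMod n1) ((-t : ℤ) : ZMod n1) ∧
    z.2 = pt n2 (((n1 : ℤ) - n2 : ℤ) : ZMod n2) ((-t : ℤ) : ZMod n2)).card ≤ 1 := by
    rw [Finset.card_le_one]
    intro t ht t' ht'
    rw [Finset.mem_filter] at ht ht'
    exact key t ht.1 t' ht'.1 ht.2.1 ht'.2.1
  exact_mod_cast hc

/-- [P4b] every `t` gives exactly one point -/
theorem sum_Fo (n1 n2 : ℕ) [NeZero n1] [NeZero n2] (W : Finset ℤ) : ∑ z, Fo W n1 n2 z = W.card := by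
  unfold Fo
  have h1 : ∀ z : P1 n1 × P1 n2,
      ((W.filter fun t : ℤ => z.1 = pt n1 (((n1 : ℤ) - n2 : ℤ) : ZMod n1) ((-t : ℤ) : ZMod n1) ∧
        z.2 = pt n2 (((n1 : ℤ) - n2 : ℤ) : ZMod n2) ((-t : ℤ) : ZMod n2)).card : ℝ) =
      ∑ t ∈ W, if z = (pt n1 (((n1 : ℤ) - n2 : ℤ) : ZMod n1) ((-t : ℤ) : ZMod n1),
        pt n2 (((n1 : ℤ) - n2 : ℤ) : ZMod n2) ((-t : ℤ) : ZMod n2)) then (1 : ℝ) else 0 := by
    intro z
    rw [Finset.card_filter]
    push_cast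
    refine Finset.sum_congr rfl fun t _ => ?_
    refine if_congr ?_ rfl rfl
    rw [Prod.ext_iff]
  rw [Finset.sum_congr rfl fun z _ => h1 z, Finset.sum_comm]
  have h2 : ∀ t ∈ W, (∑ z : P1 n1 × P1 n2,
      if z = (pt n1 (((n1 : ℤ) - n2 : ℤ) : ZMod n1) ((-t : ℤ) : ZMod n1),
        pt n2 (((n1 : ℤ) - n2 : ℤ) : ZMod n2) ((-t : ℤ) : ZMod n2)) then (1 : ℝ) else 0) = 1 := by
    intro t _
    rw [Finset.sum_ite_eq' Finset.univ, if_pos (Finset.mem_univ _)]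
  rw [Finset.sum_congr rfl h2, Finset.sum_const, nsmul_eq_mul, mul_one]

/-- [P7] -/
theorem sum_Fo_sub_mu (n1 n2 : ℕ) [NeZero n1] [NeZero n2] (W : Finset ℤ) :
    ∑ z : P1 n1 × P1 n2, (Fo W n1 n2 z - mu W n1 n2) = 0 := by
  rw [Finset.sum_sub_distrib, sum_Fo, Finset.sum_const, Finset.card_univ, Fintype.card_prod,
    card_P1, card_P1, nsmul_eq_mul]
  unfold mu
  push_cast
  have h1 : ((n1 : ℝ) + 1) ≠ 0 := by positivity
  have h2 : ((n2 : ℝ) + 1) ≠ 0 := by positivity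
  field_simp
  ring

theorem Win.card_le {N : ℕ} {W : Finset ℤ} (hW : Win N W) (hN : 2 ≤ N) : (W.card : ℝ) ≤ N := by
  rcases W.eq_empty_or_nonempty with h0 | hne
  · rw [h0]
    simp
  · set m := W.min' hne with hm
    have hmW : m ∈ W := W.min'_mem hne
    have hsub : W ⊆ Finset.Icc m (m + (N / 2 : ℕ)) := by
      intro t ht
      rw [Finset.mem_Icc]
      have h1 : m ≤ t := W.min'_le t ht
      have h2 := hW.diam t ht m hmW
      rw [abs_of_nonneg (sub_nonneg.mpr h1)] at h2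
      refine ⟨h1, ?_⟩
      push_cast
      omega
    have h3 := Finset.card_le_card hsub
    rw [Int.card_Icc] at h3
    have h4 : (m + ((N / 2 : ℕ) : ℤ) + 1 - m).toNat ≤ N := by
      push_cast
      omega
    exact_mod_cast h3.trans h4

theorem mu_le {N H n1 n2 : ℕ} (h : Pair N H n1 n2) {W : Finset ℤ} (hW : Win N W) (hN : 2 ≤ N) :
    0 ≤ mu W n1 n2 ∧ mu W n1 n2 ≤ 1 / N := by
  unfold mu
  refine ⟨by positivity, ?_⟩
  have h1 := hW.card_le hN
  have hN0 : (0 : ℝ) < N := by exact_mod_cast (by omega : 0 < N)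
  have h2 : (N : ℝ) ≤ n1 := by exact_mod_cast h.l1.le
  have h3 : (N : ℝ) ≤ n2 := by exact_mod_cast h.l2.le
  have h4 : (N : ℝ) * N ≤ (n1 + 1) * (n2 + 1) := by
    apply mul_le_mul _ _ hN0.le (by positivity)
    · linarith
    · linarith
  rw [div_le_div_iff₀ (by positivity) hN0, one_mul]
  calc (W.card : ℝ) * N ≤ N * N := mul_le_mul_of_nonneg_right h1 hN0.le
    _ ≤ _ := h4

/-- the number of pairs: `n1 ∈ (N, 2N]`, `|n1 - n2| ≤ H` -/
theorem card_Pair (N H : ℕ) (hN : 1 ≤ N) (hH : 1 ≤ H) (s : Finset (ℕ × ℕ)) (hs : ∀ p ∈ s, Pair N H p.1 p.2) :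
    (s.card : ℝ) ≤ 3 * N * H := by
  have h1 : s.card ≤ (Finset.Ioc N (2 * N) ×ˢ Finset.Icc (-(H : ℤ)) H).card := by
    apply Finset.card_le_card_of_injOn (fun p : ℕ × ℕ => (p.1, (p.1 : ℤ) - p.2))
    · intro p hp
      have h2 := hs p hp
      have h3 := abs_le.mp h2.dist
      have h4 := h2.l1
      have h5 := h2.u1
      rw [Finset.mem_coe, Finset.mem_product, Finset.mem_Ioc, Finset.mem_Icc]
      exact ⟨⟨h4, h5⟩, h3⟩
    · intro p _ q _ hpq
      have h2 := Prod.ext_iff.mp hpq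
      have h3 : p.1 = q.1 := h2.1
      have h4 : (p.1 : ℤ) - p.2 = (q.1 : ℤ) - q.2 := h2.2
      apply Prod.ext h3
      omega
  rw [Finset.card_product, Nat.card_Ioc, Int.card_Icc] at h1
  have h2 : 2 * N - N = N := by omega
  have h3 : ((H : ℤ) + 1 - -(H : ℤ)).toNat = 2 * H + 1 := by omega
  rw [h2, h3] at h1
  have h4 : N * (2 * H + 1) ≤ 3 * N * H := by nlinarith
  exact_mod_cast h1.trans h4

end Pool.Agent.TII
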