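import Pool.Agent.TII.SM1b

/-!
# [TII-SM1] norm of the ball average of `Fo ⊗ Fo`
-/

set_option autoImplicit false

namespace Pool.Agent.TII

open Finset

private theorem SM1_par {N H Z V : ℕ} {T : ℝ} (par : Par N H Z V T) : N ^ 2 * Z ^ 5 ≤ V := by
  have hT := par.loss.two
  have hH : (1 : ℝ) ≤ H := by exact_mod_cast par.hH
  have hZ : (2 : ℝ) ≤ Z := by exact_mod_cast par.hZ
  have hTH : (2 : ℝ) ≤ T * H := by nlinarith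
  have hX : (10000 : ℝ) * T * H * Z = 10000 * (T * H) * Z := by ring
  have hZX : (Z : ℝ) ≤ 10000 * T * H * Z := by
    rw [hX]; nlinarith
  have h1 : (1 : ℝ) ≤ 10000 * T * H * Z := by linarith
  have hself : 10000 * T * H * Z ≤ (10000 * T * H * Z) ^ 100 := le_self_pow₀ h1 (by norm_num)
  have hZN' : (Z : ℝ) ≤ N := (hZX.trans hself).trans par.hN
  have hZN : Z ≤ N := by exact_mod_cast hZN'
  have hN1 : 1 ≤ N := le_trans (by have := par.hZ; omega) hZN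
  calc N ^ 2 * Z ^ 5 ≤ N ^ 2 * N ^ 5 := Nat.mul_le_mul_left _ (Nat.pow_le_pow_left hZN 5)
    _ = N ^ 7 := by ring
    _ ≤ N ^ 100 := Nat.pow_le_pow_right hN1 (by norm_num)
    _ ≤ V := par.hV

/-- [SM1c] Proof. `av_norm`; the sum over `Ω₄ = (P1 × P1) × (P1 × P1)` of `f (δ z) f z` is `rr W n₁ n₂ δ * rr W n₃ n₄ δ ≤ (rr² + rr²) / 2` (`Fintype.sum_prod_type`,
`sum_Fo_smul`), `FD2` for both, `dyadic_ball`. -/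
theorem norm_FoFo : ∃ C : ℝ, ∃ k : ℕ, 0 < C ∧ ∀ (N H Z V : ℕ) (T : ℝ) (W : Finset ℤ) (n₁ n₂ n₃ n₄ R : ℕ)
    [Fact n₁.Prime] [Fact n₂.Prime] [Fact n₃.Prime] [Fact n₄.Prime], Par N H Z V T → Win N W →
      Pair N H n₁ n₂ → Pair N H n₃ n₄ → 1 ≤ R → 2 * R ^ 2 ≤ N ^ 2 * Z ^ 5 →
      n2 (av (ball R) (fun z : Om n₁ n₂ n₃ n₄ => Fo W n₁ n₂ z.1 * Fo W n₃ n₄ z.2)) ≤
        C * T ^ k * (H : ℝ) ^ k * ((R : ℝ) ^ 4 + (R : ℝ) ^ 2 * (N : ℝ) ^ 2) := by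
  obtain ⟨C, k, hC, hFD⟩ := FD2
  refine ⟨960 * C, k + 1, by positivity, ?_⟩
  intro N H Z V T W n₁ n₂ n₃ n₄ R _ _ _ _ par hW hp hp' hR hRN
  have hT := par.loss.two
  have hT0 : (0 : ℝ) < T := by linarith
  have hH : (1 : ℝ) ≤ H := by exact_mod_cast par.hH
  have hV : 2 * R ^ 2 ≤ V := hRN.trans (SM1_par par)
  have hsum : ∀ δ : SL, (∑ z : Om n₁ n₂ n₃ n₄,
      (Fo W n₁ n₂ (δ • z).1 * Fo W n₃ n₄ (δ • z).2) * (Fo W n₁ n₂ z.1 * Fo W n₃ n₄ z.2)) =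
      (rr W n₁ n₂ δ : ℝ) * rr W n₃ n₄ δ := by
    intro δ
    rw [← sum_Fo_smul hp W δ, ← sum_Fo_smul hp' W δ, Finset.sum_mul_sum, Fintype.sum_prod_type]
    refine Finset.sum_congr rfl fun z _ => Finset.sum_congr rfl fun z' _ => ?_
    show (Fo W n₁ n₂ (δ • z) * Fo W n₃ n₄ (δ • z')) * (Fo W n₁ n₂ z * Fo W n₃ n₄ z') = _
    ring
  set a : ℝ := C * T ^ k * (H : ℝ) ^ k with ha
  have ha0 : 0 ≤ a := by positivity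
  have hdy : ∑ δ ∈ ball (2 * R ^ 2), ((rr W n₁ n₂ δ : ℝ) * rr W n₃ n₄ δ) / nm δ ≤
      T * (8 * a * (R : ℝ) ^ 2 + 2 * (a * (N : ℝ) ^ 2)) := by
    refine dyadic_ball par.loss R hR hV (fun δ => (rr W n₁ n₂ δ : ℝ) * rr W n₃ n₄ δ)
      (fun δ => by positivity) a (a * (N : ℝ) ^ 2) ha0 (by positivity) ?_
    intro y hy hy2
    have hyN : y ≤ N ^ 2 * Z ^ 5 := hy2.trans hRN
    have h1 := hFD N H Z V T W n₁ n₂ y par hW hp hy hyN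
    have h2 := hFD N H Z V T W n₃ n₄ y par hW hp' hy hyN
    have h3 : ∑ δ ∈ ball y, (rr W n₁ n₂ δ : ℝ) * rr W n₃ n₄ δ ≤
        (∑ δ ∈ ball y, (rr W n₁ n₂ δ : ℝ) ^ 2 + ∑ δ ∈ ball y, (rr W n₃ n₄ δ : ℝ) ^ 2) / 2 := by
      rw [← Finset.sum_add_distrib, Finset.sum_div]
      refine Finset.sum_le_sum fun δ _ => ?_
      nlinarith [sq_nonneg ((rr W n₁ n₂ δ : ℝ) - rr W n₃ n₄ δ)]
    refine h3.trans ?_
    have h4 : a * (y : ℝ) ^ 2 + a * (N : ℝ) ^ 2 * y =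
        C * T ^ k * (H : ℝ) ^ k * (y * (N : ℝ) ^ 2 + (y : ℝ) ^ 2) := by
      rw [ha]; ring
    rw [h4]
    linarith
  refine (av_norm R _ (fun z => mul_nonneg (Fo_nonneg _ _ _ _) (Fo_nonneg _ _ _ _))).trans ?_
  have h5 : ∑ δ ∈ ball (2 * R ^ 2), 120 * (R : ℝ) ^ 2 * (∑ z : Om n₁ n₂ n₃ n₄,
      (Fo W n₁ n₂ (δ • z).1 * Fo W n₃ n₄ (δ • z).2) * (Fo W n₁ n₂ z.1 * Fo W n₃ n₄ z.2)) / nm δ =
      120 * (R : ℝ) ^ 2 * ∑ δ ∈ ball (2 * R ^ 2), ((rr W n₁ n₂ δ : ℝ) * rr W n₃ n₄ δ) / nm δ := by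
    rw [Finset.mul_sum]
    refine Finset.sum_congr rfl fun δ _ => ?_
    rw [hsum δ]
    ring
  rw [h5]
  have h6 : 120 * (R : ℝ) ^ 2 * ∑ δ ∈ ball (2 * R ^ 2), ((rr W n₁ n₂ δ : ℝ) * rr W n₃ n₄ δ) / nm δ ≤
      120 * (R : ℝ) ^ 2 * (T * (8 * a * (R : ℝ) ^ 2 + 2 * (a * (N : ℝ) ^ 2))) :=
    mul_le_mul_of_nonneg_left hdy (by positivity)
  refine h6.trans ?_
  have h7 : 120 * (R : ℝ) ^ 2 * (T * (8 * a * (R : ℝ) ^ 2 + 2 * (a * (N : ℝ) ^ 2))) =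
      C * T ^ (k + 1) * (H : ℝ) ^ k * (960 * (R : ℝ) ^ 4 + 240 * ((R : ℝ) ^ 2 * (N : ℝ) ^ 2)) := by
    rw [ha]; ring
  rw [h7]
  have h8 : (H : ℝ) ^ k ≤ (H : ℝ) ^ (k + 1) := pow_le_pow_right₀ hH (Nat.le_succ k)
  have h9 : 960 * (R : ℝ) ^ 4 + 240 * ((R : ℝ) ^ 2 * (N : ℝ) ^ 2) ≤
      960 * ((R : ℝ) ^ 4 + (R : ℝ) ^ 2 * (N : ℝ) ^ 2) := by
    have : 0 ≤ (R : ℝ) ^ 2 * (N : ℝ) ^ 2 := by positivity
    linarith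
  calc C * T ^ (k + 1) * (H : ℝ) ^ k * (960 * (R : ℝ) ^ 4 + 240 * ((R : ℝ) ^ 2 * (N : ℝ) ^ 2))
      ≤ C * T ^ (k + 1) * (H : ℝ) ^ (k + 1) *
          (960 * ((R : ℝ) ^ 4 + (R : ℝ) ^ 2 * (N : ℝ) ^ 2)) := by
        apply mul_le_mul _ h9 (by positivity) (by positivity)
        exact mul_le_mul_of_nonneg_left h8 (by positivity)
    _ = 960 * C * T ^ (k + 1) * (H : ℝ) ^ (k + 1) *
          ((R : ℝ) ^ 4 + (R : ℝ) ^ 2 * (N : ℝ) ^ 2) := by ring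


end Pool.Agent.TII
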