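import Pool.Agent.TII.SM1

/-!
# [TII-SM1d] norm of the ball average of the centred function
-/

set_option autoImplicit false

namespace Pool.Agent.TII

open Finset

theorem SM1d_card (l : ℕ) [NeZero l] : (Fintype.card (P1 l) : ℝ) = l + 1 := by
  have h : Fintype.card (P1 l) = l + 1 := by
    have h1 : Fintype.card (Option (ZMod l)) = l + 1 := by rw [Fintype.card_option, ZMod.card]
    exact h1
  rw [h]; push_cast; ring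

theorem SM1d_card2 {N H n₁ n₂ : ℕ} [Fact n₁.Prime] [Fact n₂.Prime] (h : Pair N H n₁ n₂) (hN : 1 ≤ N) :
    (Fintype.card (P1 n₁ × P1 n₂) : ℝ) ≤ 9 * (N : ℝ) ^ 2 := by
  rw [Fintype.card_prod]
  push_cast
  rw [SM1d_card, SM1d_card]
  have h1 : (n₁ : ℝ) ≤ 2 * N := by exact_mod_cast h.u1
  have h2 : (n₂ : ℝ) ≤ 2 * N := by exact_mod_cast h.u2
  have h3 : (1 : ℝ) ≤ N := by exact_mod_cast hN
  calc ((n₁ : ℝ) + 1) * (n₂ + 1) ≤ (3 * N) * (3 * N) := by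
        apply mul_le_mul (by linarith) (by linarith) (by positivity) (by positivity)
    _ = 9 * (N : ℝ) ^ 2 := by ring

theorem SM1d_fst {Ω₁ Ω₂ : Type} [Fintype Ω₁] [Fintype Ω₂] (F : Ω₁ → ℝ) :
    n2 (fun z : Ω₁ × Ω₂ => F z.1) = Fintype.card Ω₂ * n2 F := by
  unfold n2
  rw [Fintype.sum_prod_type]
  simp only [Finset.sum_const, Finset.card_univ, nsmul_eq_mul]
  rw [Finset.mul_sum]

theorem SM1d_snd {Ω₁ Ω₂ : Type} [Fintype Ω₁] [Fintype Ω₂] (F : Ω₂ → ℝ) :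
    n2 (fun z : Ω₁ × Ω₂ => F z.2) = Fintype.card Ω₁ * n2 F := by
  unfold n2
  rw [Fintype.sum_prod_type]
  simp only [Finset.sum_const, Finset.card_univ, nsmul_eq_mul]

theorem SM1d_const_mul {Ω : Type} [Fintype Ω] (c : ℝ) (F : Ω → ℝ) :
    n2 (fun z => c * F z) = c ^ 2 * n2 F := by
  unfold n2
  rw [Finset.mul_sum]
  refine Finset.sum_congr rfl fun z _ => ?_
  ring

/-- [SM1d] Proof. The function is `Fo Fo + (- μ₃₄) Fo₁₂ + (- μ₁₂) Fo₃₄ + μ₁₂ μ₃₄`; `av_add4`, `n2_add4`, `av_const_mul`. `norm_FoFo`; for the second: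
`n2` over the product is `card (P1 n₃ × P1 n₄)` times `n2 (av (ball R) (Fo W n₁ n₂))`, `card ≤ 9 N²`, `μ ≤ 1/N` (`mu_le`), `norm_Fo` (`H, N ≥ 1`); the same for the third;
the fourth: `n2 (const) = card * const²`, `(ball R).card ≤ 120 R²` (`card_ball`). -/
theorem norm_centered : ∃ C : ℝ, ∃ k : ℕ, 0 < C ∧ ∀ (N H Z V : ℕ) (T : ℝ) (W : Finset ℤ) (n₁ n₂ n₃ n₄ R : ℕ)
    [Fact n₁.Prime] [Fact n₂.Prime] [Fact n₃.Prime] [Fact n₄.Prime], Par N H Z V T → Win N W →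
      Pair N H n₁ n₂ → Pair N H n₃ n₄ → 1 ≤ R → 2 * R ^ 2 ≤ N ^ 2 * Z ^ 5 →
      n2 (av (ball R) (fun z : Om n₁ n₂ n₃ n₄ => (Fo W n₁ n₂ z.1 - mu W n₁ n₂) * (Fo W n₃ n₄ z.2 - mu W n₃ n₄))) ≤
        C * T ^ k * (H : ℝ) ^ k * ((R : ℝ) ^ 4 + (R : ℝ) ^ 2 * (N : ℝ) ^ 2) := by
  obtain ⟨C₁, k₁, hC₁, h1⟩ := norm_FoFo
  obtain ⟨C₂, k₂, hC₂, h2⟩ := norm_Fo
  refine ⟨4 * (C₁ + 18 * C₂ + 1166400), k₁ + k₂ + 1, by positivity, ?_⟩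
  intro N H Z V T W n₁ n₂ n₃ n₄ R _ _ _ _ par hW hp hp' hR hRN
  have hT := par.loss.two
  have hT1 : (1 : ℝ) ≤ T := by linarith
  have hH : (1 : ℝ) ≤ H := by exact_mod_cast par.hH
  have hZ : (2 : ℝ) ≤ Z := by exact_mod_cast par.hZ
  have hN2 : 2 ≤ N := by
    have h3 : (2 : ℝ) ≤ 10000 * T * H * Z := by
      have h4 : (1 : ℝ) ≤ T * H := one_le_mul_of_one_le_of_one_le hT1 hH
      have h5 : (10000 : ℝ) * T * H * Z = 10000 * (T * H) * Z := by ring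
      rw [h5]; nlinarith
    have h6 : (2 : ℝ) ≤ (10000 * T * H * Z) ^ 100 :=
      h3.trans (le_self_pow₀ (by linarith) (by norm_num))
    have h7 : (2 : ℝ) ≤ N := h6.trans par.hN
    exact_mod_cast h7
  have hNr : (2 : ℝ) ≤ N := by exact_mod_cast hN2
  have hN0 : (0 : ℝ) < N := by linarith
  obtain ⟨m1, m2⟩ := mu_le hp hW hN2
  obtain ⟨m3, m4⟩ := mu_le hp' hW hN2
  set μ := mu W n₁ n₂ with hμ
  set ν := mu W n₃ n₄ with hν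
  have hμ2 : μ ^ 2 * (N : ℝ) ^ 2 ≤ 1 := by
    have h3 : μ * N ≤ 1 := by
      calc μ * N ≤ 1 / N * N := mul_le_mul_of_nonneg_right m2 hN0.le
        _ = 1 := by field_simp
    rw [← mul_pow]
    exact pow_le_one₀ (by positivity) h3
  have hν2 : ν ^ 2 * (N : ℝ) ^ 2 ≤ 1 := by
    have h3 : ν * N ≤ 1 := by
      calc ν * N ≤ 1 / N * N := mul_le_mul_of_nonneg_right m4 hN0.le
        _ = 1 := by field_simp
    rw [← mul_pow]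
    exact pow_le_one₀ (by positivity) h3
  have c1 := SM1d_card2 hp (by omega : 1 ≤ N)
  have c2 := SM1d_card2 hp' (by omega : 1 ≤ N)
  -- the four pieces
  have hfun : (fun z : Om n₁ n₂ n₃ n₄ => (Fo W n₁ n₂ z.1 - μ) * (Fo W n₃ n₄ z.2 - ν)) =
      fun z : Om n₁ n₂ n₃ n₄ => Fo W n₁ n₂ z.1 * Fo W n₃ n₄ z.2 + (-ν) * Fo W n₁ n₂ z.1 +
        (-μ) * Fo W n₃ n₄ z.2 + μ * ν := by
    funext z; ring
  have e2 : av (ball R) (fun z : Om n₁ n₂ n₃ n₄ => (-ν) * Fo W n₁ n₂ z.1) =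
      fun z => (-ν) * av (ball R) (Fo W n₁ n₂) z.1 :=
    av_const_mul (ball R) (-ν) (fun z : Om n₁ n₂ n₃ n₄ => Fo W n₁ n₂ z.1)
  have e3 : av (ball R) (fun z : Om n₁ n₂ n₃ n₄ => (-μ) * Fo W n₃ n₄ z.2) =
      fun z => (-μ) * av (ball R) (Fo W n₃ n₄) z.2 :=
    av_const_mul (ball R) (-μ) (fun z : Om n₁ n₂ n₃ n₄ => Fo W n₃ n₄ z.2)
  have e4 : av (ball R) (fun _ : Om n₁ n₂ n₃ n₄ => μ * ν) = fun _ => ((ball R).card : ℝ) * (μ * ν) := by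
    funext z
    unfold av
    rw [Finset.sum_const, nsmul_eq_mul]
  set G₁ : Om n₁ n₂ n₃ n₄ → ℝ := av (ball R) (fun z : Om n₁ n₂ n₃ n₄ => Fo W n₁ n₂ z.1 * Fo W n₃ n₄ z.2) with hG₁
  have e5 := av_add4 (ball R) (fun z : Om n₁ n₂ n₃ n₄ => Fo W n₁ n₂ z.1 * Fo W n₃ n₄ z.2)
    (fun z : Om n₁ n₂ n₃ n₄ => (-ν) * Fo W n₁ n₂ z.1) (fun z : Om n₁ n₂ n₃ n₄ => (-μ) * Fo W n₃ n₄ z.2)
    (fun _ : Om n₁ n₂ n₃ n₄ => μ * ν)
  rw [hfun, e5, ← hG₁, e2, e3, e4]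
  refine (n2_add4 G₁ (fun z : Om n₁ n₂ n₃ n₄ => (-ν) * av (ball R) (Fo W n₁ n₂) z.1)
    (fun z : Om n₁ n₂ n₃ n₄ => (-μ) * av (ball R) (Fo W n₃ n₄) z.2)
    (fun _ : Om n₁ n₂ n₃ n₄ => ((ball R).card : ℝ) * (μ * ν))).trans ?_
  set K : ℝ := T ^ (k₁ + k₂ + 1) * (H : ℝ) ^ (k₁ + k₂ + 1) with hK
  set B : ℝ := (R : ℝ) ^ 4 + (R : ℝ) ^ 2 * (N : ℝ) ^ 2 with hB
  have hB0 : 0 ≤ B := by positivity
  have hRr : (1 : ℝ) ≤ R := by exact_mod_cast hR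
  have hK0 : 0 ≤ K := by positivity
  have hK1 : T ^ k₁ * (H : ℝ) ^ k₁ ≤ K := by
    rw [hK]
    apply mul_le_mul (pow_le_pow_right₀ hT1 (by omega)) (pow_le_pow_right₀ hH (by omega)) (by positivity) (by positivity)
  have hK2 : T ^ k₂ * (H : ℝ) ≤ K := by
    rw [hK]
    have h3 : (H : ℝ) ≤ (H : ℝ) ^ (k₁ + k₂ + 1) := le_self_pow₀ hH (by omega)
    apply mul_le_mul (pow_le_pow_right₀ hT1 (by omega)) h3 (by positivity) (by positivity)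
  have hK3 : 1 ≤ K := by
    rw [hK]
    exact one_le_mul_of_one_le_of_one_le (one_le_pow₀ hT1) (one_le_pow₀ hH)
  have b1 : n2 G₁ ≤ C₁ * K * B := by
    refine (h1 N H Z V T W n₁ n₂ n₃ n₄ R par hW hp hp' hR hRN).trans ?_
    have : C₁ * T ^ k₁ * (H : ℝ) ^ k₁ = C₁ * (T ^ k₁ * (H : ℝ) ^ k₁) := by ring
    rw [this]
    gcongr
  have q : ∀ X : ℝ, X ≤ C₂ * T ^ k₂ * (H * (R : ℝ) ^ 4 + (R : ℝ) ^ 2 * N) → X ≤ C₂ * K * B := by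
    intro X hX
    refine hX.trans ?_
    have h3 : H * (R : ℝ) ^ 4 + (R : ℝ) ^ 2 * N ≤ H * B := by
      rw [hB]
      have h4 : (N : ℝ) ≤ (N : ℝ) ^ 2 := by nlinarith
      have h5 : (R : ℝ) ^ 2 * N ≤ (R : ℝ) ^ 2 * (N : ℝ) ^ 2 := mul_le_mul_of_nonneg_left h4 (by positivity)
      have h6 : (R : ℝ) ^ 2 * (N : ℝ) ^ 2 ≤ H * ((R : ℝ) ^ 2 * (N : ℝ) ^ 2) := le_mul_of_one_le_left (by positivity) hH
      nlinarith
    calc C₂ * T ^ k₂ * (H * (R : ℝ) ^ 4 + (R : ℝ) ^ 2 * N) ≤ C₂ * T ^ k₂ * (H * B) := by gcongr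
      _ = C₂ * (T ^ k₂ * H) * B := by ring
      _ ≤ C₂ * K * B := by gcongr
  have b2 : n2 (fun z : Om n₁ n₂ n₃ n₄ => (-ν) * av (ball R) (Fo W n₁ n₂) z.1) ≤ 9 * (C₂ * K * B) := by
    have h3 := q _ (h2 N H Z V T W n₁ n₂ R par hW hp hR hRN)
    have h4 : n2 (fun z : Om n₁ n₂ n₃ n₄ => (-ν) * av (ball R) (Fo W n₁ n₂) z.1) =
        ν ^ 2 * (Fintype.card (P1 n₃ × P1 n₄) * n2 (av (ball R) (Fo W n₁ n₂))) := by
      rw [SM1d_const_mul (-ν) (fun z : Om n₁ n₂ n₃ n₄ => av (ball R) (Fo W n₁ n₂) z.1),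
        SM1d_fst (av (ball R) (Fo W n₁ n₂)), neg_sq]
    rw [h4]
    have h5 : 0 ≤ n2 (av (ball R) (Fo W n₁ n₂)) := n2_nonneg _
    calc ν ^ 2 * (Fintype.card (P1 n₃ × P1 n₄) * n2 (av (ball R) (Fo W n₁ n₂)))
        ≤ ν ^ 2 * (9 * (N : ℝ) ^ 2 * (C₂ * K * B)) := by gcongr
      _ = (ν ^ 2 * (N : ℝ) ^ 2) * (9 * (C₂ * K * B)) := by ring
      _ ≤ 1 * (9 * (C₂ * K * B)) := by gcongr
      _ = 9 * (C₂ * K * B) := one_mul _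
  have b3 : n2 (fun z : Om n₁ n₂ n₃ n₄ => (-μ) * av (ball R) (Fo W n₃ n₄) z.2) ≤ 9 * (C₂ * K * B) := by
    have h3 := q _ (h2 N H Z V T W n₃ n₄ R par hW hp' hR hRN)
    have h4 : n2 (fun z : Om n₁ n₂ n₃ n₄ => (-μ) * av (ball R) (Fo W n₃ n₄) z.2) =
        μ ^ 2 * (Fintype.card (P1 n₁ × P1 n₂) * n2 (av (ball R) (Fo W n₃ n₄))) := by
      rw [SM1d_const_mul (-μ) (fun z : Om n₁ n₂ n₃ n₄ => av (ball R) (Fo W n₃ n₄) z.2),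
        SM1d_snd (av (ball R) (Fo W n₃ n₄)), neg_sq]
    rw [h4]
    have h5 : 0 ≤ n2 (av (ball R) (Fo W n₃ n₄)) := n2_nonneg _
    calc μ ^ 2 * (Fintype.card (P1 n₁ × P1 n₂) * n2 (av (ball R) (Fo W n₃ n₄)))
        ≤ μ ^ 2 * (9 * (N : ℝ) ^ 2 * (C₂ * K * B)) := by gcongr
      _ = (μ ^ 2 * (N : ℝ) ^ 2) * (9 * (C₂ * K * B)) := by ring
      _ ≤ 1 * (9 * (C₂ * K * B)) := by gcongr
      _ = 9 * (C₂ * K * B) := one_mul _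
  have b4 : n2 (fun _ : Om n₁ n₂ n₃ n₄ => ((ball R).card : ℝ) * (μ * ν)) ≤ 1166400 * K * B := by
    have h3 : n2 (fun _ : Om n₁ n₂ n₃ n₄ => ((ball R).card : ℝ) * (μ * ν)) =
        (Fintype.card (P1 n₁ × P1 n₂) * Fintype.card (P1 n₃ × P1 n₄)) * (((ball R).card : ℝ) * (μ * ν)) ^ 2 := by
      unfold n2
      rw [Finset.sum_const, nsmul_eq_mul, Finset.card_univ, Fintype.card_prod (P1 n₁ × P1 n₂) (P1 n₃ × P1 n₄)]
      push_cast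
      ring
    rw [h3]
    have h4 := card_ball R
    calc (Fintype.card (P1 n₁ × P1 n₂) * Fintype.card (P1 n₃ × P1 n₄) : ℝ) * (((ball R).card : ℝ) * (μ * ν)) ^ 2
        ≤ (9 * (N : ℝ) ^ 2 * (9 * (N : ℝ) ^ 2)) * ((120 * (R : ℝ) ^ 2) * (μ * ν)) ^ 2 := by gcongr
      _ = (μ ^ 2 * (N : ℝ) ^ 2) * (ν ^ 2 * (N : ℝ) ^ 2) * (1166400 * (R : ℝ) ^ 4) := by ring
      _ ≤ 1 * 1 * (1166400 * (R : ℝ) ^ 4) := by gcongr
      _ ≤ 1166400 * B := by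
          rw [hB]
          have : 0 ≤ (R : ℝ) ^ 2 * (N : ℝ) ^ 2 := by positivity
          linarith
      _ = 1166400 * 1 * B := by ring
      _ ≤ 1166400 * K * B := by gcongr
  calc 4 * (n2 G₁ + n2 (fun z : Om n₁ n₂ n₃ n₄ => (-ν) * av (ball R) (Fo W n₁ n₂) z.1) +
        n2 (fun z : Om n₁ n₂ n₃ n₄ => (-μ) * av (ball R) (Fo W n₃ n₄) z.2) +
        n2 (fun _ : Om n₁ n₂ n₃ n₄ => ((ball R).card : ℝ) * (μ * ν)))
      ≤ 4 * (C₁ * K * B + 9 * (C₂ * K * B) + 9 * (C₂ * K * B) + 1166400 * K * B) := by linarith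
    _ = 4 * (C₁ + 18 * C₂ + 1166400) * T ^ (k₁ + k₂ + 1) * (H : ℝ) ^ (k₁ + k₂ + 1) * B := by rw [hK]; ring

end Pool.Agent.TII
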