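import Pool.Agent.TII.P3b
import Pool.Agent.TII.G4

/-!
# [TII-SM2] norms of `nu` at the base point of `Ω₄`
-/

set_option autoImplicit false

namespace Pool.Agent.TII

open Finset

/-- the base point -/
def z00 (n₁ n₂ n₃ n₄ : ℕ) : Om n₁ n₂ n₃ n₄ := (z0 n₁ n₂, z0 n₃ n₄)

/-- all four primes are different -/
def Dist4 (n₁ n₂ n₃ n₄ : ℕ) : Prop := n₁ ≠ n₃ ∧ n₁ ≠ n₄ ∧ n₂ ≠ n₃ ∧ n₂ ≠ n₄

open Classical in
/-- the size of `q₁ q₂` for the stabiliser: `N⁴`, `N³` or `N²` -/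
noncomputable def Dq (N n₁ n₂ n₃ n₄ : ℕ) : ℕ :=
  if Dist4 n₁ n₂ n₃ n₄ then N ^ 4 else if (n₁, n₂) ≠ (n₃, n₄) then N ^ 3 else N ^ 2

theorem SM2_le (N q1 q2 D : ℕ) (Y : ℝ) (hD : 1 ≤ D) (h : D ≤ q1 * q2) :
    Y ^ 2 * (1 + Y ^ 2 / ((q1 : ℝ) * q2)) ≤ Y ^ 2 * (1 + Y ^ 2 / (D : ℝ)) := by
  have hD' : (0 : ℝ) < D := by exact_mod_cast hD
  have h' : (D : ℝ) ≤ (q1 : ℝ) * q2 := by exact_mod_cast h
  have := div_le_div_of_nonneg_left (sq_nonneg Y) hD' h'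
  nlinarith [sq_nonneg Y]

theorem SM2_cop {a b : ℕ} (ha : a.Prime) (hb : b.Prime) (h : a ≠ b) : IsCoprime (a : ℤ) (b : ℤ) :=
  (Nat.isCoprime_iff_coprime).2 ((Nat.coprime_primes ha hb).2 h)

/-- [SM2a] Proof. `nu_norm` with `(q1, q2) = (n₁ n₃, n₂ n₄)` if the four primes are different; if `n₁ ≠ n₃`: `(n₁ n₃, n₂)`; if `n₁ = n₃`, `n₂ ≠ n₄`: `(n₁, n₂ n₄)`;
else `(n₁, n₂)`; `stab_e1`, `stab_e2`, `IsCoprime.mul_dvd`. -/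
theorem nu_quad (N H V Y : ℕ) (T : ℝ) (n₁ n₂ n₃ n₄ : ℕ)
    [Fact n₁.Prime] [Fact n₂.Prime] [Fact n₃.Prime] [Fact n₄.Prime] (hL : Loss V T) (hN : 2 ≤ N)
    (h12 : Pair N H n₁ n₂) (h34 : Pair N H n₃ n₄) (hY : 1 ≤ Y) (hV : 100 * Y ^ 4 ≤ V) :
    n2 (nu (z00 n₁ n₂ n₃ n₄) Y) ≤
      20000 * T ^ 2 * ((Y : ℝ) ^ 2 * (1 + (Y : ℝ) ^ 2 / Dq N n₁ n₂ n₃ n₄)) := by
  have hst : ∀ g : SL, g • z00 n₁ n₂ n₃ n₄ = z00 n₁ n₂ n₃ n₄ →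
      ((n₁ : ℤ) ∣ g.1 1 0 ∧ (n₂ : ℤ) ∣ g.1 0 1) ∧ ((n₃ : ℤ) ∣ g.1 1 0 ∧ (n₄ : ℤ) ∣ g.1 0 1) := by
    intro g hg
    have h1 := congrArg (fun z => z.1.1) hg
    have h2 := congrArg (fun z => z.1.2) hg
    have h3 := congrArg (fun z => z.2.1) hg
    have h4 := congrArg (fun z => z.2.2) hg
    exact ⟨⟨(stab_e1 g).1 h1, (stab_e2 g).1 h2⟩, (stab_e1 g).1 h3, (stab_e2 g).1 h4⟩
  have e1 := h12.l1; have e2 := h12.l2; have e3 := h34.l1; have e4 := h34.l2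
  have hT2 : (0 : ℝ) ≤ 20000 * T ^ 2 := by positivity
  have key : ∀ q1 q2 D : ℕ, 2 ≤ q1 → 2 ≤ q2 → 1 ≤ D → D ≤ q1 * q2 →
      (∀ g : SL, g • z00 n₁ n₂ n₃ n₄ = z00 n₁ n₂ n₃ n₄ → (q1 : ℤ) ∣ g.1 1 0 ∧ (q2 : ℤ) ∣ g.1 0 1) →
      n2 (nu (z00 n₁ n₂ n₃ n₄) Y) ≤ 20000 * T ^ 2 * ((Y : ℝ) ^ 2 * (1 + (Y : ℝ) ^ 2 / D)) := by
    intro q1 q2 D h1 h2 hD hDq hz
    exact (nu_norm hL q1 q2 Y h1 h2 hY hV _ hz).trans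
      (mul_le_mul_of_nonneg_left (SM2_le N q1 q2 D Y hD hDq) hT2)
  unfold Dq
  split_ifs with hd hne
  · obtain ⟨h13, h14, h23, h24⟩ := hd
    refine key (n₁ * n₃) (n₂ * n₄) (N ^ 4) (by nlinarith) (by nlinarith) (Nat.one_le_pow _ _ (by omega)) ?_ ?_
    · calc N ^ 4 = (N * N) * (N * N) := by ring
        _ ≤ (n₁ * n₃) * (n₂ * n₄) :=
          Nat.mul_le_mul (Nat.mul_le_mul e1.le e3.le) (Nat.mul_le_mul e2.le e4.le)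
    · intro g hg
      obtain ⟨⟨a, b⟩, c, d⟩ := hst g hg
      push_cast
      exact ⟨(SM2_cop h12.p1 h34.p1 h13).mul_dvd a c, (SM2_cop h12.p2 h34.p2 h24).mul_dvd b d⟩
  · by_cases h13 : n₁ = n₃
    · have h24 : n₂ ≠ n₄ := by
        intro h
        exact hne (by rw [h13, h])
      refine key n₁ (n₂ * n₄) (N ^ 3) (by omega) (by nlinarith) (Nat.one_le_pow _ _ (by omega)) ?_ ?_
      · calc N ^ 3 = N * (N * N) := by ring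
          _ ≤ n₁ * (n₂ * n₄) := Nat.mul_le_mul e1.le (Nat.mul_le_mul e2.le e4.le)
      · intro g hg
        obtain ⟨⟨a, b⟩, c, d⟩ := hst g hg
        push_cast
        exact ⟨a, (SM2_cop h12.p2 h34.p2 h24).mul_dvd b d⟩
    · refine key (n₁ * n₃) n₂ (N ^ 3) (by nlinarith) (by omega) (Nat.one_le_pow _ _ (by omega)) ?_ ?_
      · calc N ^ 3 = (N * N) * N := by ring
          _ ≤ (n₁ * n₃) * n₂ := Nat.mul_le_mul (Nat.mul_le_mul e1.le e3.le) e2.le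
      · intro g hg
        obtain ⟨⟨a, b⟩, c, d⟩ := hst g hg
        push_cast
        exact ⟨(SM2_cop h12.p1 h34.p1 h13).mul_dvd a c, b⟩
  · refine key n₁ n₂ (N ^ 2) (by omega) (by omega) (Nat.one_le_pow _ _ (by omega)) ?_ ?_
    · calc N ^ 2 = N * N := by ring
        _ ≤ n₁ * n₂ := Nat.mul_le_mul e1.le e2.le
    · intro g hg
      obtain ⟨⟨a, b⟩, c, d⟩ := hst g hg
      exact ⟨a, b⟩

/-- [SM2b] the same on `P1 n₁ × P1 n₂` -/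
theorem nu_pair (N H V Y : ℕ) (T : ℝ) (n₁ n₂ : ℕ) [Fact n₁.Prime] [Fact n₂.Prime] (hL : Loss V T) (hN : 2 ≤ N)
    (h12 : Pair N H n₁ n₂) (hY : 1 ≤ Y) (hV : 100 * Y ^ 4 ≤ V) :
    n2 (nu (z0 n₁ n₂) Y) ≤ 20000 * T ^ 2 * ((Y : ℝ) ^ 2 * (1 + (Y : ℝ) ^ 2 / (N : ℝ) ^ 2)) := by
  have hst : ∀ g : SL, g • z0 n₁ n₂ = z0 n₁ n₂ → (n₁ : ℤ) ∣ g.1 1 0 ∧ (n₂ : ℤ) ∣ g.1 0 1 := by
    intro g hg
    have h1 := congrArg (fun z => z.1) hg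
    have h2 := congrArg (fun z => z.2) hg
    exact ⟨(stab_e1 g).1 h1, (stab_e2 g).1 h2⟩
  have e1 := h12.l1; have e2 := h12.l2
  have hT2 : (0 : ℝ) ≤ 20000 * T ^ 2 := by positivity
  have h := nu_norm hL n₁ n₂ Y (by omega) (by omega) hY hV _ hst
  refine h.trans (mul_le_mul_of_nonneg_left ?_ hT2)
  have h3 := SM2_le N n₁ n₂ (N ^ 2) Y (Nat.one_le_pow _ _ (by omega))
    (by calc N ^ 2 = N * N := by ring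
          _ ≤ n₁ * n₂ := Nat.mul_le_mul e1.le e2.le)
  push_cast at h3
  exact h3

end Pool.Agent.TII
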