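import Pool.Agent.TII.SM1
import Pool.Agent.TII.SM2

/-!
# [TII-SM3] one quadruple in class (B)
-/

set_option autoImplicit false

namespace Pool.Agent.TII

open Finset

theorem SM3_sqrt_le {x y : ℝ} (hy : 0 ≤ y) (h : x ≤ y ^ 2) : Real.sqrt x ≤ y := by
  rw [Real.sqrt_le_left hy]; exact h

/-- [SM3] Proof. `FF_eq`, `double_sum` with `Ω = Om`, `z₀ = z00`, `norm_FoFo`, `nu_quad`; `√(R⁴ + R² N²) ≤ R (R + N)`, `√(Y² (1 + Y²/D)) ≤ Y (1 + Y/√D)`; `√(T^k) ≤ T^k` etc. -/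
theorem B_quad : ∃ C : ℝ, ∃ k : ℕ, 0 < C ∧ ∀ (N H Z V : ℕ) (T : ℝ) (W : Finset ℤ) (n₁ n₂ n₃ n₄ R Y : ℕ) (E : SL),
    Par N H Z V T → Win N W → Pair N H n₁ n₂ → Pair N H n₃ n₄ → 1 ≤ R → 2 * R ^ 2 ≤ N ^ 2 * Z ^ 5 →
    1 ≤ Y → 100 * Y ^ 4 ≤ V →
      ∑ g1 ∈ ball R, ∑ g2 ∈ ball Y, FF W n₁ n₂ (g1 * E * g2) * FF W n₃ n₄ (g1 * E * g2) ≤
        C * T ^ k * (H : ℝ) ^ k * (R * (R + N) * (Y * (1 + Y / Real.sqrt (Dq N n₁ n₂ n₃ n₄)))) := by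
  obtain ⟨C₁, k₁, hC₁, h1⟩ := norm_FoFo
  refine ⟨142 * Real.sqrt C₁, k₁ + 1, by positivity, ?_⟩
  intro N H Z V T W n₁ n₂ n₃ n₄ R Y E hP hW h12 h34 hR hRN hY hYV
  have : Fact n₁.Prime := ⟨h12.p1⟩
  have : Fact n₂.Prime := ⟨h12.p2⟩
  have : Fact n₃.Prime := ⟨h34.p1⟩
  have : Fact n₄.Prime := ⟨h34.p2⟩
  have hT2 : 2 ≤ T := hP.loss.two
  have hH1 : (1 : ℝ) ≤ H := by exact_mod_cast hP.hH
  have hZ2 : (2 : ℝ) ≤ Z := by exact_mod_cast hP.hZ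
  have hN2 : 2 ≤ N := by
    have h2 : (2 : ℝ) ≤ 10000 * T * H * Z := by
      have h3 : (1 : ℝ) ≤ T * H := by nlinarith
      nlinarith
    have h4 : (10000 * T * H * Z) ^ 1 ≤ (10000 * T * H * Z) ^ 100 :=
      pow_le_pow_right₀ (by linarith) (by norm_num)
    have h5 := hP.hN
    rw [pow_one] at h4
    have : (2 : ℝ) ≤ N := by linarith
    exact_mod_cast this
  have hn1 := h1 N H Z V T W n₁ n₂ n₃ n₄ R hP hW h12 h34 hR hRN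
  have hn2 := nu_quad N H V Y T n₁ n₂ n₃ n₄ hP.loss hN2 h12 h34 hY hYV
  have hd := double_sum (ball R) E Y
    (fun z : Om n₁ n₂ n₃ n₄ => Fo W n₁ n₂ z.1 * Fo W n₃ n₄ z.2) (z00 n₁ n₂ n₃ n₄)
  have hsum : ∑ g1 ∈ ball R, ∑ g2 ∈ ball Y, FF W n₁ n₂ (g1 * E * g2) * FF W n₃ n₄ (g1 * E * g2) =
      ∑ g1 ∈ ball R, ∑ g2 ∈ ball Y, (fun z : Om n₁ n₂ n₃ n₄ => Fo W n₁ n₂ z.1 * Fo W n₃ n₄ z.2)
        ((g1 * E * g2) • z00 n₁ n₂ n₃ n₄) := by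
    refine sum_congr rfl fun g1 _ => sum_congr rfl fun g2 _ => ?_
    rw [FF_eq h12, FF_eq h34]
    rfl
  rw [hsum]
  refine (le_abs_self _).trans (hd.trans ?_)
  have hTk : (1 : ℝ) ≤ T ^ k₁ := one_le_pow₀ (by linarith)
  have hHk : (1 : ℝ) ≤ (H : ℝ) ^ k₁ := one_le_pow₀ hH1
  have hR0 : (0 : ℝ) ≤ R := Nat.cast_nonneg R
  have hN0 : (0 : ℝ) ≤ N := Nat.cast_nonneg N
  have hY0 : (0 : ℝ) ≤ Y := Nat.cast_nonneg Y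
  have ha : Real.sqrt (n2 (av (ball R) (fun z : Om n₁ n₂ n₃ n₄ => Fo W n₁ n₂ z.1 * Fo W n₃ n₄ z.2))) ≤
      Real.sqrt C₁ * (T ^ k₁ * (H : ℝ) ^ k₁) * (R * (R + N)) := by
    apply SM3_sqrt_le (by positivity)
    refine hn1.trans ?_
    have e1 : (Real.sqrt C₁ * (T ^ k₁ * (H : ℝ) ^ k₁) * (R * (R + N))) ^ 2 =
        C₁ * (T ^ k₁ * (H : ℝ) ^ k₁) ^ 2 * (R * (R + N)) ^ 2 := by
      rw [mul_pow, mul_pow, Real.sq_sqrt hC₁.le]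
    rw [e1]
    have e2 : 1 ≤ T ^ k₁ * (H : ℝ) ^ k₁ := one_le_mul_of_one_le_of_one_le hTk hHk
    have e3 : T ^ k₁ * (H : ℝ) ^ k₁ ≤ (T ^ k₁ * (H : ℝ) ^ k₁) ^ 2 := by nlinarith
    have e4 : (R : ℝ) ^ 4 + (R : ℝ) ^ 2 * (N : ℝ) ^ 2 ≤ (R * (R + N)) ^ 2 := by
      have : (0 : ℝ) ≤ R ^ 2 * (R * N) := by positivity
      nlinarith
    calc C₁ * T ^ k₁ * (H : ℝ) ^ k₁ * ((R : ℝ) ^ 4 + (R : ℝ) ^ 2 * (N : ℝ) ^ 2)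
        = C₁ * (T ^ k₁ * (H : ℝ) ^ k₁) * ((R : ℝ) ^ 4 + (R : ℝ) ^ 2 * (N : ℝ) ^ 2) := by ring
      _ ≤ C₁ * (T ^ k₁ * (H : ℝ) ^ k₁) ^ 2 * (R * (R + N)) ^ 2 := by gcongr
  have hb : Real.sqrt (n2 (nu (z00 n₁ n₂ n₃ n₄) Y)) ≤
      142 * T * (Y * (1 + Y / Real.sqrt (Dq N n₁ n₂ n₃ n₄))) := by
    have hD0 : (0 : ℝ) ≤ (Dq N n₁ n₂ n₃ n₄ : ℝ) := Nat.cast_nonneg _
    have hs0 : 0 ≤ Real.sqrt (Dq N n₁ n₂ n₃ n₄) := Real.sqrt_nonneg _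
    apply SM3_sqrt_le (by positivity)
    refine hn2.trans ?_
    have e1 : ((Y : ℝ) / Real.sqrt (Dq N n₁ n₂ n₃ n₄)) ^ 2 = (Y : ℝ) ^ 2 / Dq N n₁ n₂ n₃ n₄ := by
      rw [div_pow, Real.sq_sqrt hD0]
    have e2 : 0 ≤ (Y : ℝ) / Real.sqrt (Dq N n₁ n₂ n₃ n₄) := by positivity
    rw [← e1]
    obtain ⟨u, hu⟩ : ∃ u : ℝ, u = (Y : ℝ) / Real.sqrt (Dq N n₁ n₂ n₃ n₄) := ⟨_, rfl⟩
    rw [← hu] at e2 ⊢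
    have e3 : (142 * T * (Y * (1 + u))) ^ 2 = 20164 * T ^ 2 * ((Y : ℝ) ^ 2 * (1 + u) ^ 2) := by ring
    rw [e3]
    have e4 : 1 + u ^ 2 ≤ (1 + u) ^ 2 := by nlinarith
    have e5 : (20000 : ℝ) ≤ 20164 := by norm_num
    gcongr
  calc Real.sqrt (n2 (av (ball R) (fun z : Om n₁ n₂ n₃ n₄ => Fo W n₁ n₂ z.1 * Fo W n₃ n₄ z.2))) *
        Real.sqrt (n2 (nu (z00 n₁ n₂ n₃ n₄) Y))
      ≤ (Real.sqrt C₁ * (T ^ k₁ * (H : ℝ) ^ k₁) * (R * (R + N))) *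
        (142 * T * (Y * (1 + Y / Real.sqrt (Dq N n₁ n₂ n₃ n₄)))) := by gcongr
    _ = 142 * Real.sqrt C₁ * T ^ (k₁ + 1) * (H : ℝ) ^ k₁ *
        (R * (R + N) * (Y * (1 + Y / Real.sqrt (Dq N n₁ n₂ n₃ n₄)))) := by ring
    _ ≤ 142 * Real.sqrt C₁ * T ^ (k₁ + 1) * (H : ℝ) ^ (k₁ + 1) *
        (R * (R + N) * (Y * (1 + Y / Real.sqrt (Dq N n₁ n₂ n₃ n₄)))) := by
      gcongr
      omega

end Pool.Agent.TII
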