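import Pool.Agent.TII.SM1d
import Pool.Agent.TII.SM2

/-!
# [TII-SM4a] the gap, root form
-/

set_option autoImplicit false

namespace Pool.Agent.TII

open Finset

/-- [SM4a-1] from `gap`: take the `k`-th root -/
theorem gap_root (k : ℕ) (hk : 1 ≤ k) {V : ℕ} {T ρ : ℝ} (hL : Loss V T) (N Z : ℕ) (n₁ n₂ n₃ n₄ : ℕ)
    [Fact n₁.Prime] [Fact n₂.Prime] [Fact n₃.Prime] [Fact n₄.Prime] (hN : 2 ≤ N) (hZ1 : 1 ≤ Z)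
    (h1 : N < n₁ ∧ n₁ ≤ 2 * N) (h2 : N < n₂ ∧ n₂ ≤ 2 * N) (h3 : N < n₃ ∧ n₃ ≤ 2 * N) (h4 : N < n₄ ∧ n₄ ≤ 2 * N)
    (h12 : n₁ ≠ n₂) (h34 : n₃ ≠ n₄) (hd : Dist4 n₁ n₂ n₃ n₄)
    (hZ : (2 * N) ^ 12 ≤ Z ^ (2 * k)) (hV : 16 * (2 * Z) ^ (4 * k) ≤ V) (hρ : 0 ≤ ρ)
    (hρ' : 2000 * T ^ 2 * (960 * T) ^ (2 * k) ≤ ρ ^ k * (((N : ℝ) - 1) / 2))
    (f : Om n₁ n₂ n₃ n₄ → ℝ) (hf : ∑ z, f z = 0) :
    n2 (av (ball Z) f) ≤ ρ * (Z : ℝ) ^ 4 * n2 f := by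
  obtain ⟨h13, h14, h23, h24⟩ := hd
  have hg := gap k hk hL N Z n₁ n₂ n₃ n₄ hN hZ1 h1 h2 h3 h4 h12 h13 h14 h23 h24 h34 hZ hV f hf
  have hN' : (2 : ℝ) ≤ N := by exact_mod_cast hN
  have hc : 0 < ((N : ℝ) - 1) / 2 := by linarith
  have hf0 : 0 ≤ n2 f := by unfold n2; positivity
  have ha0 : 0 ≤ n2 (av (ball Z) f) := by unfold n2; positivity
  have hb0 : 0 ≤ ρ * (Z : ℝ) ^ 4 * n2 f := by positivity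
  have hpow : n2 (av (ball Z) f) ^ k ≤ (ρ * (Z : ℝ) ^ 4 * n2 f) ^ k := by
    have e1 : n2 f ^ k * (2000 * T ^ 2 * (960 * T) ^ (2 * k)) * (Z : ℝ) ^ (4 * k) ≤
        n2 f ^ k * (ρ ^ k * (((N : ℝ) - 1) / 2)) * (Z : ℝ) ^ (4 * k) := by
      apply mul_le_mul_of_nonneg_right _ (by positivity)
      exact mul_le_mul_of_nonneg_left hρ' (by positivity)
    have e2 : n2 f ^ k * (ρ ^ k * (((N : ℝ) - 1) / 2)) * (Z : ℝ) ^ (4 * k) =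
        (ρ * (Z : ℝ) ^ 4 * n2 f) ^ k * (((N : ℝ) - 1) / 2) := by
      rw [mul_pow, mul_pow, ← pow_mul]; ring
    have e3 := hg.trans (e1.trans_eq e2)
    exact le_of_mul_le_mul_right e3 hc
  exact (pow_le_pow_iff_left₀ ha0 hb0 (by omega)).mp hpow

end Pool.Agent.TII
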