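import Pool.Agent.TII.SM1d
import Pool.Agent.TII.SM2

/-!
# [TII-SM4b] one quadruple with a coincidence in class (G)
-/

set_option autoImplicit false

namespace Pool.Agent.TII

open Finset

/-- the numerical part of `G_one` -/
theorem SM4b_calc (C0 t h : ℝ) (k : ℕ) (N R Zm Y : ℕ) (D n4 n2n cB : ℝ) (hC : 0 < C0) (ht : 1 ≤ t) (hh : 1 ≤ h)
    (hN : 1 ≤ N) (hNR : N ≤ 2 * R) (hNY : N ^ 2 ≤ 4 * Y) (hD : (N : ℝ) ^ 3 ≤ D)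
    (hB0 : 0 ≤ cB) (hB : cB ≤ 120 * (Zm : ℝ) ^ 2)
    (h1 : n4 ≤ cB ^ 2 * (C0 * t ^ k * h ^ k * ((R : ℝ) ^ 4 + (R : ℝ) ^ 2 * (N : ℝ) ^ 2)))
    (h2 : n2n ≤ 20000 * t ^ 2 * ((Y : ℝ) ^ 2 * (1 + (Y : ℝ) ^ 2 / D))) :
    Real.sqrt n4 * Real.sqrt n2n ≤
      (72000 * (5 * C0 + 1)) * t ^ (k + 1) * h ^ (k + 1) * (((R : ℝ) * Zm * Y) ^ 2 / (N * Real.sqrt N)) := by
  have hNr : (1 : ℝ) ≤ N := by exact_mod_cast hN
  have hRr : (N : ℝ) ≤ 2 * R := by exact_mod_cast hNR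
  have hYr : (N : ℝ) ^ 2 ≤ 4 * Y := by exact_mod_cast hNY
  have hR0 : (0 : ℝ) ≤ R := Nat.cast_nonneg _
  have hY0 : (0 : ℝ) ≤ Y := Nat.cast_nonneg _
  have hZ0 : (0 : ℝ) ≤ Zm := Nat.cast_nonneg _
  have htk : 1 ≤ t ^ k := one_le_pow₀ ht
  have hhk : 1 ≤ h ^ k := one_le_pow₀ hh
  have hu : 1 ≤ t ^ k * h ^ k := by nlinarith
  set u := t ^ k * h ^ k with hudef
  have hs : 0 < Real.sqrt N := Real.sqrt_pos.2 (by linarith)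
  have hss : Real.sqrt N ^ 2 = N := Real.sq_sqrt (by linarith)
  have hw : 0 < (N : ℝ) * Real.sqrt N := by positivity
  -- the first factor
  have hA : Real.sqrt n4 ≤ 120 * (Zm : ℝ) ^ 2 * (R : ℝ) ^ 2 * ((5 * C0 + 1) * u) := by
    refine Real.sqrt_le_iff.2 ⟨by positivity, h1.trans ?_⟩
    have e1 : (R : ℝ) ^ 4 + (R : ℝ) ^ 2 * (N : ℝ) ^ 2 ≤ 5 * (R : ℝ) ^ 4 := by
      have : (N : ℝ) ^ 2 ≤ (2 * R) ^ 2 := pow_le_pow_left₀ (by linarith) hRr 2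
      nlinarith [mul_le_mul_of_nonneg_left this (sq_nonneg (R : ℝ))]
    have e2 : cB ^ 2 ≤ (120 * (Zm : ℝ) ^ 2) ^ 2 := pow_le_pow_left₀ hB0 hB 2
    have e3 : C0 * t ^ k * h ^ k * ((R : ℝ) ^ 4 + (R : ℝ) ^ 2 * (N : ℝ) ^ 2) ≤ (5 * C0 * u) * (R : ℝ) ^ 4 := by
      calc C0 * t ^ k * h ^ k * ((R : ℝ) ^ 4 + (R : ℝ) ^ 2 * (N : ℝ) ^ 2)
          = C0 * u * ((R : ℝ) ^ 4 + (R : ℝ) ^ 2 * (N : ℝ) ^ 2) := by rw [hudef]; ring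
        _ ≤ C0 * u * (5 * (R : ℝ) ^ 4) := mul_le_mul_of_nonneg_left e1 (by positivity)
        _ = _ := by ring
    have e4 : 5 * C0 * u ≤ ((5 * C0 + 1) * u) ^ 2 := by
      have : (5 * C0 + 1) ≤ (5 * C0 + 1) ^ 2 := by nlinarith
      have hu2 : u ≤ u ^ 2 := by nlinarith
      calc 5 * C0 * u ≤ (5 * C0 + 1) ^ 2 * u := by nlinarith
        _ ≤ (5 * C0 + 1) ^ 2 * u ^ 2 := mul_le_mul_of_nonneg_left hu2 (by positivity)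
        _ = _ := by ring
    calc cB ^ 2 * (C0 * t ^ k * h ^ k * ((R : ℝ) ^ 4 + (R : ℝ) ^ 2 * (N : ℝ) ^ 2))
        ≤ (120 * (Zm : ℝ) ^ 2) ^ 2 * ((5 * C0 * u) * (R : ℝ) ^ 4) :=
          mul_le_mul e2 e3 (by positivity) (by positivity)
      _ ≤ (120 * (Zm : ℝ) ^ 2) ^ 2 * ((((5 * C0 + 1) * u) ^ 2) * (R : ℝ) ^ 4) := by
          apply mul_le_mul_of_nonneg_left _ (by positivity)
          exact mul_le_mul_of_nonneg_right e4 (by positivity)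
      _ = _ := by ring
  -- the second factor
  have hB' : Real.sqrt n2n ≤ 600 * t * (Y : ℝ) ^ 2 / (N * Real.sqrt N) := by
    refine Real.sqrt_le_iff.2 ⟨by positivity, h2.trans ?_⟩
    have hN3 : 0 < (N : ℝ) ^ 3 := by positivity
    have e1 : (Y : ℝ) ^ 2 / D ≤ (Y : ℝ) ^ 2 / (N : ℝ) ^ 3 :=
      div_le_div_of_nonneg_left (by positivity) hN3 hD
    have e2 : 1 ≤ 16 * ((Y : ℝ) ^ 2 / (N : ℝ) ^ 3) := by
      rw [← mul_div_assoc, le_div_iff₀ hN3, one_mul]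
      have : ((N : ℝ) ^ 2) ^ 2 ≤ (4 * Y) ^ 2 := pow_le_pow_left₀ (by positivity) hYr 2
      have h34 : (N : ℝ) ^ 3 ≤ (N : ℝ) ^ 4 := pow_le_pow_right₀ hNr (by norm_num)
      nlinarith
    have e3 : (600 * t * (Y : ℝ) ^ 2 / (N * Real.sqrt N)) ^ 2 = 360000 * t ^ 2 * ((Y : ℝ) ^ 2 * ((Y : ℝ) ^ 2 / (N : ℝ) ^ 3)) := by
      rw [div_pow, mul_pow (N : ℝ), hss]
      field_simp
      ring
    rw [e3]
    have e4 : (Y : ℝ) ^ 2 * (1 + (Y : ℝ) ^ 2 / D) ≤ 17 * ((Y : ℝ) ^ 2 * ((Y : ℝ) ^ 2 / (N : ℝ) ^ 3)) := by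
      have : 1 + (Y : ℝ) ^ 2 / D ≤ 17 * ((Y : ℝ) ^ 2 / (N : ℝ) ^ 3) := by linarith
      calc (Y : ℝ) ^ 2 * (1 + (Y : ℝ) ^ 2 / D) ≤ (Y : ℝ) ^ 2 * (17 * ((Y : ℝ) ^ 2 / (N : ℝ) ^ 3)) :=
            mul_le_mul_of_nonneg_left this (by positivity)
        _ = _ := by ring
    have e5 : 0 ≤ t ^ 2 * ((Y : ℝ) ^ 2 * ((Y : ℝ) ^ 2 / (N : ℝ) ^ 3)) := by positivity
    calc 20000 * t ^ 2 * ((Y : ℝ) ^ 2 * (1 + (Y : ℝ) ^ 2 / D))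
        ≤ 20000 * t ^ 2 * (17 * ((Y : ℝ) ^ 2 * ((Y : ℝ) ^ 2 / (N : ℝ) ^ 3))) :=
          mul_le_mul_of_nonneg_left e4 (by positivity)
      _ ≤ _ := by nlinarith
  calc Real.sqrt n4 * Real.sqrt n2n
      ≤ (120 * (Zm : ℝ) ^ 2 * (R : ℝ) ^ 2 * ((5 * C0 + 1) * u)) * (600 * t * (Y : ℝ) ^ 2 / (N * Real.sqrt N)) :=
        mul_le_mul hA hB' (Real.sqrt_nonneg _) (by positivity)
    _ = (72000 * (5 * C0 + 1)) * t ^ (k + 1) * h ^ k * (((R : ℝ) * Zm * Y) ^ 2 / (N * Real.sqrt N)) := by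
        rw [hudef, pow_succ]; ring
    _ ≤ _ := by
        apply mul_le_mul_of_nonneg_right _ (by positivity)
        apply mul_le_mul_of_nonneg_left (pow_le_pow_right₀ hh (Nat.le_succ k)) (by positivity)

/-- `N ≥ 2` -/
theorem SM4b_two {N H Z V : ℕ} {T : ℝ} (hP : Par N H Z V T) : 2 ≤ N := by
  have hT2 : 2 ≤ T := hP.loss.two
  have h1 := hP.hN
  have hH : (1 : ℝ) ≤ H := by exact_mod_cast hP.hH
  have hZ : (2 : ℝ) ≤ Z := by exact_mod_cast hP.hZ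
  have h2 : (2 : ℝ) ≤ 10000 * T * H * Z := by
    have a1 : (1 : ℝ) ≤ T * H := by nlinarith
    have a2 : (1 : ℝ) ≤ T * H * Z := by nlinarith
    nlinarith
  generalize 10000 * T * H * Z = x at h1 h2
  have h3 : x ≤ x ^ 100 := le_self_pow₀ (by linarith) (by norm_num)
  have h4 : (2 : ℝ) ≤ N := h2.trans (h3.trans h1)
  exact_mod_cast h4

/-- [SM4b-1] Proof. `FF_eq`, `triple_sum`, `av_le` for the middle ball (`card_ball`), `norm_centered`, `nu_quad` (`Dq ≥ N³`), `N ≤ 2 R`, `N² ≤ 4 Y`. -/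
theorem G_one : ∃ C : ℝ, ∃ k : ℕ, 0 < C ∧ ∀ (N H Z V : ℕ) (T : ℝ) (W : Finset ℤ) (n₁ n₂ n₃ n₄ R Zm Y : ℕ),
    Par N H Z V T → Win N W → Pair N H n₁ n₂ → Pair N H n₃ n₄ → (n₁, n₂) ≠ (n₃, n₄) → 1 ≤ Zm →
    1 ≤ R → N ≤ 2 * R → 2 * R ^ 2 ≤ N ^ 2 * Z ^ 5 → N ^ 2 ≤ 4 * Y → 100 * Y ^ 4 ≤ V →
      |∑ g1 ∈ ball R, ∑ s ∈ ball Zm, ∑ g2 ∈ ball Y, (FF W n₁ n₂ (g1 * s * g2) - mu W n₁ n₂) *
          (FF W n₃ n₄ (g1 * s * g2) - mu W n₃ n₄)| ≤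
        C * T ^ k * (H : ℝ) ^ k * (((R : ℝ) * Zm * Y) ^ 2 / (N * Real.sqrt N)) := by
  obtain ⟨C0, k, hC0, hc⟩ := norm_centered
  refine ⟨72000 * (5 * C0 + 1), k + 1, by positivity, ?_⟩
  intro N H Z V T W n₁ n₂ n₃ n₄ R Zm Y hP hW h12 h34 hne hZm hR hNR hRN hNY hYV
  have : Fact n₁.Prime := ⟨h12.p1⟩
  have : Fact n₂.Prime := ⟨h12.p2⟩
  have : Fact n₃.Prime := ⟨h34.p1⟩
  have : Fact n₄.Prime := ⟨h34.p2⟩
  have hT2 : 2 ≤ T := hP.loss.two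
  have hN2 : 2 ≤ N := SM4b_two hP
  have hY1 : 1 ≤ Y := by
    by_contra hcon
    have : Y = 0 := by omega
    subst this
    have : 0 < N ^ 2 := by positivity
    omega
  have key := triple_sum (ball R) (ball Zm) Y
    (fun z : Om n₁ n₂ n₃ n₄ => (Fo W n₁ n₂ z.1 - mu W n₁ n₂) * (Fo W n₃ n₄ z.2 - mu W n₃ n₄)) (z00 n₁ n₂ n₃ n₄)
  have hfun : ∀ g : SL, (FF W n₁ n₂ g - mu W n₁ n₂) * (FF W n₃ n₄ g - mu W n₃ n₄) =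
      (Fo W n₁ n₂ (g • z00 n₁ n₂ n₃ n₄).1 - mu W n₁ n₂) * (Fo W n₃ n₄ (g • z00 n₁ n₂ n₃ n₄).2 - mu W n₃ n₄) := by
    intro g
    rw [FF_eq h12, FF_eq h34]
    rfl
  have e : ∑ g1 ∈ ball R, ∑ s ∈ ball Zm, ∑ g2 ∈ ball Y, (FF W n₁ n₂ (g1 * s * g2) - mu W n₁ n₂) *
          (FF W n₃ n₄ (g1 * s * g2) - mu W n₃ n₄) = ∑ g1 ∈ ball R, ∑ s ∈ ball Zm, ∑ g2 ∈ ball Y,
          (Fo W n₁ n₂ ((g1 * s * g2) • z00 n₁ n₂ n₃ n₄).1 - mu W n₁ n₂) *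
            (Fo W n₃ n₄ ((g1 * s * g2) • z00 n₁ n₂ n₃ n₄).2 - mu W n₃ n₄) :=
    Finset.sum_congr rfl fun g1 _ => Finset.sum_congr rfl fun s _ => Finset.sum_congr rfl fun g2 _ => hfun _
  rw [e]
  refine key.trans ?_
  clear key e hfun
  have hD : (N : ℝ) ^ 3 ≤ (Dq N n₁ n₂ n₃ n₄ : ℝ) := by
    have : N ^ 3 ≤ Dq N n₁ n₂ n₃ n₄ := by
      unfold Dq
      split_ifs with h1
      · exact Nat.pow_le_pow_right (by omega) (by norm_num)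
      · exact le_refl _
    exact_mod_cast this
  exact SM4b_calc C0 T H k N R Zm Y (Dq N n₁ n₂ n₃ n₄) _ _ ((ball Zm).card : ℝ) hC0 (by linarith)
    (by exact_mod_cast hP.hH) (by omega) hNR hNY hD (Nat.cast_nonneg _) (card_ball Zm)
    ((av_le (ball Zm) _).trans (mul_le_mul_of_nonneg_left (hc N H Z V T W n₁ n₂ n₃ n₄ R hP hW h12 h34 hR hRN)
      (by positivity)))
    (nu_quad N H V Y T n₁ n₂ n₃ n₄ hP.loss hN2 h12 h34 hY1 hYV)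

end Pool.Agent.TII
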