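import Pool.Agent.TII.SM4a

/-!
# [TII-SM4g] one generic quadruple in class (G)
-/

set_option autoImplicit false

namespace Pool.Agent.TII

open Finset

theorem SM4g_two_le_N {N H Z V : ℕ} {T : ℝ} (h : Par N H Z V T) : 2 ≤ N := by
  have hT := h.loss.two
  have hH : (1 : ℝ) ≤ H := by exact_mod_cast h.hH
  have hZ : (2 : ℝ) ≤ Z := by exact_mod_cast h.hZ
  have h1 : (2 : ℝ) ≤ 10000 * T * H * Z := by
    have h2 : (1 : ℝ) ≤ T * H := by nlinarith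
    have h3 : (2 : ℝ) ≤ T * H * Z := by nlinarith
    nlinarith
  have h4 : (2 : ℝ) ^ 100 ≤ (10000 * T * H * Z) ^ 100 := pow_le_pow_left₀ (by norm_num) h1 100
  have h5 : (2 : ℝ) ≤ (2 : ℝ) ^ 100 := by norm_num
  have h6 : (2 : ℝ) ≤ N := h5.trans (h4.trans h.hN)
  exact_mod_cast h6

theorem SM4g_sqrt {a b : ℝ} (ha : 0 ≤ a) (hb : 1 ≤ b) : Real.sqrt (a * b) ≤ (a + 1) * b := by
  rw [Real.sqrt_le_left (by positivity)]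
  nlinarith [mul_nonneg ha (show (0 : ℝ) ≤ b by linarith), mul_nonneg (mul_nonneg ha ha) (sq_nonneg b),
    mul_nonneg ha (mul_nonneg (show (0 : ℝ) ≤ b by linarith) (show (0 : ℝ) ≤ b - 1 by linarith)), sq_nonneg b]

/-- [SM4a-2] Proof. `FF_eq`, `triple_sum` with `A = ball R`, `B = ball Zm`, `z₀ = z00`, `f` the centred function of `norm_centered`, whose sum is `0`
(`sum_Fo_sub_mu`, `Fintype.sum_prod_type`, `av_sum`); `gap_root` for `av (ball R) f`; `nu_quad` with `Dq = N⁴`; `N ≤ 2 R`, `N² ≤ 4 Y`. -/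
theorem G_gen : ∃ C : ℝ, ∃ k : ℕ, 0 < C ∧ ∀ (N H Z V : ℕ) (T ρ : ℝ) (W : Finset ℤ) (n₁ n₂ n₃ n₄ R Zm Y K : ℕ),
    Par N H Z V T → Win N W → Pair N H n₁ n₂ → Pair N H n₃ n₄ → Dist4 n₁ n₂ n₃ n₄ → 1 ≤ K →
    0 ≤ ρ → 2000 * T ^ 2 * (960 * T) ^ (2 * K) ≤ ρ ^ K * (((N : ℝ) - 1) / 2) →
    1 ≤ Zm → (2 * N) ^ 12 ≤ Zm ^ (2 * K) → 16 * (2 * Zm) ^ (4 * K) ≤ V →
    1 ≤ R → N ≤ 2 * R → 2 * R ^ 2 ≤ N ^ 2 * Z ^ 5 → N ^ 2 ≤ 4 * Y → 100 * Y ^ 4 ≤ V →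
      |∑ g1 ∈ ball R, ∑ s ∈ ball Zm, ∑ g2 ∈ ball Y, (FF W n₁ n₂ (g1 * s * g2) - mu W n₁ n₂) *
          (FF W n₃ n₄ (g1 * s * g2) - mu W n₃ n₄)| ≤
        C * T ^ k * (H : ℝ) ^ k * Real.sqrt ρ * (((R : ℝ) * Zm * Y) ^ 2 / (N : ℝ) ^ 2) := by
  obtain ⟨C, k, hC, hnc⟩ := norm_centered
  refine ⟨1700000 * C + 1, k + 2, by positivity, ?_⟩
  intro N H Z V T ρ W n₁ n₂ n₃ n₄ R Zm Y K hP hW h12 h34 hd hK hρ hρ' hZm hZ12 hZV hR hNR hRZ hNY hYV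
  have : Fact n₁.Prime := ⟨h12.p1⟩
  have : Fact n₂.Prime := ⟨h12.p2⟩
  have : Fact n₃.Prime := ⟨h34.p1⟩
  have : Fact n₄.Prime := ⟨h34.p2⟩
  have hN2 := SM4g_two_le_N hP
  have hN2' : (2 : ℝ) ≤ N := by exact_mod_cast hN2
  have hN0 : (0 : ℝ) < N := by linarith
  have hT2 := hP.loss.two
  have hT1 : (1 : ℝ) ≤ T := by linarith
  have hH1 : (1 : ℝ) ≤ H := by exact_mod_cast hP.hH
  have hR0 : (0 : ℝ) < R := by exact_mod_cast hR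
  have hY1 : 1 ≤ Y := by
    by_contra hcon
    have : Y = 0 := by omega
    subst this
    have : 0 < N ^ 2 := by positivity
    omega
  have hY0 : (0 : ℝ) < Y := by exact_mod_cast hY1
  set f : Om n₁ n₂ n₃ n₄ → ℝ := fun z =>
    (Fo W n₁ n₂ z.1 - mu W n₁ n₂) * (Fo W n₃ n₄ z.2 - mu W n₃ n₄) with hf
  have hsum0 : ∑ z, f z = 0 := by
    rw [Fintype.sum_prod_type]
    simp only [hf]
    simp_rw [← Finset.mul_sum]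
    rw [sum_Fo_sub_mu n₃ n₄ W]
    simp
  have hrw : ∑ g1 ∈ ball R, ∑ s ∈ ball Zm, ∑ g2 ∈ ball Y, (FF W n₁ n₂ (g1 * s * g2) - mu W n₁ n₂) *
          (FF W n₃ n₄ (g1 * s * g2) - mu W n₃ n₄) =
      ∑ g1 ∈ ball R, ∑ s ∈ ball Zm, ∑ g2 ∈ ball Y, f ((g1 * s * g2) • z00 n₁ n₂ n₃ n₄) := by
    refine Finset.sum_congr rfl fun g1 _ => Finset.sum_congr rfl fun s _ =>
      Finset.sum_congr rfl fun g2 _ => ?_
    rw [FF_eq h12, FF_eq h34]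
    rfl
  rw [hrw]
  have h1 := triple_sum (ball R) (ball Zm) Y f (z00 n₁ n₂ n₃ n₄)
  have h2 : n2 (av (ball Zm) (av (ball R) f)) ≤ ρ * (Zm : ℝ) ^ 4 * n2 (av (ball R) f) := by
    apply gap_root K hK hP.loss N Zm n₁ n₂ n₃ n₄ hN2 hZm ⟨h12.l1, h12.u1⟩ ⟨h12.l2, h12.u2⟩
      ⟨h34.l1, h34.u1⟩ ⟨h34.l2, h34.u2⟩ h12.ne h34.ne hd hZ12 hZV hρ hρ'
    rw [av_sum, hsum0, mul_zero]
  have h3 := hnc N H Z V T W n₁ n₂ n₃ n₄ R hP hW h12 h34 hR hRZ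
  have h4 := nu_quad N H V Y T n₁ n₂ n₃ n₄ hP.loss hN2 h12 h34 hY1 hYV
  have hDq : Dq N n₁ n₂ n₃ n₄ = N ^ 4 := by unfold Dq; rw [if_pos hd]
  rw [hDq] at h4
  push_cast at h4
  have hNR' : (N : ℝ) ≤ 2 * R := by exact_mod_cast hNR
  have hNY' : (N : ℝ) ^ 2 ≤ 4 * Y := by exact_mod_cast hNY
  have h5 : n2 (av (ball R) f) ≤ C * T ^ k * (H : ℝ) ^ k * (5 * (R : ℝ) ^ 4) := by
    refine h3.trans ?_
    apply mul_le_mul_of_nonneg_left _ (by positivity)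
    have : (N : ℝ) ^ 2 ≤ 4 * (R : ℝ) ^ 2 := by nlinarith
    have h7 : (R : ℝ) ^ 2 * (N : ℝ) ^ 2 ≤ (R : ℝ) ^ 2 * (4 * (R : ℝ) ^ 2) :=
      mul_le_mul_of_nonneg_left this (by positivity)
    linarith [show (R : ℝ) ^ 2 * (4 * (R : ℝ) ^ 2) = 4 * (R : ℝ) ^ 4 by ring]
  have h6 : n2 (nu (z00 n₁ n₂ n₃ n₄) Y) ≤ 340000 * T ^ 2 * ((Y : ℝ) ^ 4 / (N : ℝ) ^ 4) := by
    refine h4.trans ?_
    have h7 : (1 : ℝ) ≤ 16 * ((Y : ℝ) ^ 2 / (N : ℝ) ^ 4) := by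
      rw [← mul_div_assoc, le_div_iff₀ (by positivity)]
      nlinarith
    have h8 : (Y : ℝ) ^ 2 * (1 + (Y : ℝ) ^ 2 / (N : ℝ) ^ 4) ≤ 17 * ((Y : ℝ) ^ 4 / (N : ℝ) ^ 4) := by
      have h9 : (Y : ℝ) ^ 2 * 1 ≤ (Y : ℝ) ^ 2 * (16 * ((Y : ℝ) ^ 2 / (N : ℝ) ^ 4)) :=
        mul_le_mul_of_nonneg_left h7 (by positivity)
      have h10 : (Y : ℝ) ^ 2 * ((Y : ℝ) ^ 2 / (N : ℝ) ^ 4) = (Y : ℝ) ^ 4 / (N : ℝ) ^ 4 := by ring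
      nlinarith
    calc 20000 * T ^ 2 * ((Y : ℝ) ^ 2 * (1 + (Y : ℝ) ^ 2 / (N : ℝ) ^ 4))
        ≤ 20000 * T ^ 2 * (17 * ((Y : ℝ) ^ 4 / (N : ℝ) ^ 4)) :=
          mul_le_mul_of_nonneg_left h8 (by positivity)
      _ = 340000 * T ^ 2 * ((Y : ℝ) ^ 4 / (N : ℝ) ^ 4) := by ring
  have h7 : n2 (av (ball Zm) (av (ball R) f)) ≤
      ρ * (Zm : ℝ) ^ 4 * (C * T ^ k * (H : ℝ) ^ k * (5 * (R : ℝ) ^ 4)) :=
    h2.trans (mul_le_mul_of_nonneg_left h5 (by positivity))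
  have h8 : Real.sqrt (n2 (av (ball Zm) (av (ball R) f))) * Real.sqrt (n2 (nu (z00 n₁ n₂ n₃ n₄) Y)) ≤
      Real.sqrt (ρ * (Zm : ℝ) ^ 4 * (C * T ^ k * (H : ℝ) ^ k * (5 * (R : ℝ) ^ 4))) *
        Real.sqrt (340000 * T ^ 2 * ((Y : ℝ) ^ 4 / (N : ℝ) ^ 4)) :=
    mul_le_mul (Real.sqrt_le_sqrt h7) (Real.sqrt_le_sqrt h6) (Real.sqrt_nonneg _) (Real.sqrt_nonneg _)
  have h9 : Real.sqrt (ρ * (Zm : ℝ) ^ 4 * (C * T ^ k * (H : ℝ) ^ k * (5 * (R : ℝ) ^ 4))) *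
        Real.sqrt (340000 * T ^ 2 * ((Y : ℝ) ^ 4 / (N : ℝ) ^ 4)) =
      Real.sqrt ρ * (((R : ℝ) * Zm * Y) ^ 2 / (N : ℝ) ^ 2) *
        Real.sqrt ((1700000 * C) * (T ^ (k + 2) * (H : ℝ) ^ k)) := by
    rw [← Real.sqrt_mul (by positivity)]
    have e1 : ρ * (Zm : ℝ) ^ 4 * (C * T ^ k * (H : ℝ) ^ k * (5 * (R : ℝ) ^ 4)) *
        (340000 * T ^ 2 * ((Y : ℝ) ^ 4 / (N : ℝ) ^ 4)) =
        (ρ * (((R : ℝ) * Zm * Y) ^ 2 / (N : ℝ) ^ 2) ^ 2) * ((1700000 * C) * (T ^ (k + 2) * (H : ℝ) ^ k)) := by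
      field_simp; ring
    rw [e1, Real.sqrt_mul (by positivity), Real.sqrt_mul hρ, Real.sqrt_sq (by positivity)]
  have h10 : Real.sqrt ((1700000 * C) * (T ^ (k + 2) * (H : ℝ) ^ k)) ≤
      (1700000 * C + 1) * (T ^ (k + 2) * (H : ℝ) ^ k) := by
    apply SM4g_sqrt (by positivity)
    exact one_le_mul_of_one_le_of_one_le (one_le_pow₀ hT1) (one_le_pow₀ hH1)
  have h11 : (H : ℝ) ^ k ≤ (H : ℝ) ^ (k + 2) := pow_le_pow_right₀ hH1 (by omega)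
  calc |∑ g1 ∈ ball R, ∑ s ∈ ball Zm, ∑ g2 ∈ ball Y, f ((g1 * s * g2) • z00 n₁ n₂ n₃ n₄)|
      ≤ Real.sqrt ρ * (((R : ℝ) * Zm * Y) ^ 2 / (N : ℝ) ^ 2) *
        Real.sqrt ((1700000 * C) * (T ^ (k + 2) * (H : ℝ) ^ k)) := h1.trans (h8.trans_eq h9)
    _ ≤ Real.sqrt ρ * (((R : ℝ) * Zm * Y) ^ 2 / (N : ℝ) ^ 2) *
        ((1700000 * C + 1) * (T ^ (k + 2) * (H : ℝ) ^ k)) :=
        mul_le_mul_of_nonneg_left h10 (by positivity)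
    _ ≤ Real.sqrt ρ * (((R : ℝ) * Zm * Y) ^ 2 / (N : ℝ) ^ 2) *
        ((1700000 * C + 1) * (T ^ (k + 2) * (H : ℝ) ^ (k + 2))) := by
        apply mul_le_mul_of_nonneg_left _ (by positivity)
        apply mul_le_mul_of_nonneg_left _ (by positivity)
        exact mul_le_mul_of_nonneg_left h11 (by positivity)
    _ = (1700000 * C + 1) * T ^ (k + 2) * (H : ℝ) ^ (k + 2) * Real.sqrt ρ *
        (((R : ℝ) * Zm * Y) ^ 2 / (N : ℝ) ^ 2) := by ring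

end Pool.Agent.TII
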