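import Pool.Agent.TII.Defs

/-!
# [TII-T1] the divisor bound
-/

set_option autoImplicit false

namespace Pool.Agent.TII

open Finset

/-- The classical divisor bound: the number of divisors of `n` is at most `C n ^ ε`. -/
private theorem T1_card_divisors_le_rpow (ε : ℝ) (hε : 0 < ε) :
    ∃ C : ℝ, 1 ≤ C ∧ ∀ n : ℕ, 1 ≤ n → (n.divisors.card : ℝ) ≤ C * (n : ℝ) ^ ε := by
  set K : ℝ := 1 + 1 / (ε * Real.log 2) with hK
  have hlog2 : 0 < Real.log 2 := Real.log_pos (by norm_num)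
  have hεl : 0 < ε * Real.log 2 := mul_pos hε hlog2
  have hK1 : 1 ≤ K := by rw [hK]; have := one_div_pos.mpr hεl; linarith
  obtain ⟨M, hM⟩ := exists_nat_gt ((2 : ℝ) ^ (1 / ε))
  refine ⟨K ^ M, one_le_pow₀ hK1, ?_⟩
  intro n hn
  have hn0 : n ≠ 0 := by omega
  -- local bound
  have loc : ∀ p ∈ n.primeFactors, ((n.factorization p + 1 : ℕ) : ℝ) ≤
      (if p < M then K else 1) * ((p : ℝ) ^ ε) ^ (n.factorization p) := by
    intro p hp
    have hp' := Nat.prime_of_mem_primeFactors hp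
    have hp2 : (2 : ℝ) ≤ p := by exact_mod_cast hp'.two_le
    set e := n.factorization p
    split_ifs with h
    · -- small primes
      have h1 : (2 : ℝ) ^ ε ≤ (p : ℝ) ^ ε := Real.rpow_le_rpow (by norm_num) hp2 hε.le
      have h2 : ((2 : ℝ) ^ ε) ^ e ≤ ((p : ℝ) ^ ε) ^ e :=
        pow_le_pow_left₀ (by positivity) h1 e
      have h3 : 1 + (e : ℝ) * (ε * Real.log 2) ≤ ((2 : ℝ) ^ ε) ^ e := by
        have h4 : ((2 : ℝ) ^ ε) ^ e = Real.exp ((e : ℝ) * (ε * Real.log 2)) := by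
          rw [Real.exp_nat_mul, Real.rpow_def_of_pos (by norm_num : (0:ℝ) < 2)]
          ring_nf
        rw [h4]
        have := Real.add_one_le_exp ((e : ℝ) * (ε * Real.log 2))
        linarith
      have h5 : ((e + 1 : ℕ) : ℝ) ≤ K * (1 + (e : ℝ) * (ε * Real.log 2)) := by
        rw [hK]
        push_cast
        have h6 : 1 / (ε * Real.log 2) * ((e : ℝ) * (ε * Real.log 2)) = e := by
          field_simp
        have h7 : 0 ≤ 1 / (ε * Real.log 2) := by positivity
        have h8 : 0 ≤ (e : ℝ) * (ε * Real.log 2) := by positivity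
        nlinarith
      calc ((e + 1 : ℕ) : ℝ) ≤ K * (1 + (e : ℝ) * (ε * Real.log 2)) := h5
        _ ≤ K * ((p : ℝ) ^ ε) ^ e := by
          apply mul_le_mul_of_nonneg_left (h3.trans h2) (by linarith)
    · -- large primes
      rw [one_mul]
      have h1 : (2 : ℝ) ≤ (p : ℝ) ^ ε := by
        have h2 : (2 : ℝ) ^ (1 / ε) ≤ p := by
          have : (M : ℝ) ≤ p := by exact_mod_cast (not_lt.mp h)
          linarith
        calc (2 : ℝ) = ((2 : ℝ) ^ (1 / ε)) ^ ε := by
              rw [← Real.rpow_mul (by norm_num), one_div, inv_mul_cancel₀ hε.ne', Real.rpow_one]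
          _ ≤ (p : ℝ) ^ ε := Real.rpow_le_rpow (by positivity) h2 hε.le
      have h3 : ((e + 1 : ℕ) : ℝ) ≤ (2 : ℝ) ^ e := by
        have : e + 1 ≤ 2 ^ e := Nat.lt_two_pow_self
        exact_mod_cast this
      exact h3.trans (pow_le_pow_left₀ (by norm_num) h1 e)
  have hcard : (n.divisors.card : ℝ) = ∏ p ∈ n.primeFactors, ((n.factorization p + 1 : ℕ) : ℝ) := by
    rw [Nat.card_divisors hn0]
    push_cast
    rfl
  have hpow : (n : ℝ) ^ ε = ∏ p ∈ n.primeFactors, ((p : ℝ) ^ ε) ^ (n.factorization p) := by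
    have h1 : (n : ℝ) = ∏ p ∈ n.primeFactors, (p : ℝ) ^ (n.factorization p) := by
      conv_lhs => rw [← Nat.prod_factorization_pow_eq_self hn0]
      rw [Finsupp.prod]
      push_cast
      rfl
    conv_lhs => rw [h1]
    rw [← Real.finsetProd_rpow _ _ (fun p _ => by positivity)]
    apply Finset.prod_congr rfl
    intro p _
    rw [← Real.rpow_natCast, ← Real.rpow_mul (by positivity), ← Real.rpow_natCast,
      ← Real.rpow_mul (by positivity), mul_comm]
  rw [hcard, hpow]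
  calc ∏ p ∈ n.primeFactors, ((n.factorization p + 1 : ℕ) : ℝ)
      ≤ ∏ p ∈ n.primeFactors, ((if p < M then K else 1) * ((p : ℝ) ^ ε) ^ (n.factorization p)) :=
        Finset.prod_le_prod (fun p _ => by positivity) loc
    _ = (∏ p ∈ n.primeFactors, (if p < M then K else 1)) *
          ∏ p ∈ n.primeFactors, ((p : ℝ) ^ ε) ^ (n.factorization p) := Finset.prod_mul_distrib
    _ ≤ K ^ M * ∏ p ∈ n.primeFactors, ((p : ℝ) ^ ε) ^ (n.factorization p) := by
        apply mul_le_mul_of_nonneg_right _ (Finset.prod_nonneg (fun p _ => by positivity))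
        rw [Finset.prod_ite, Finset.prod_const, Finset.prod_const_one, mul_one]
        apply pow_le_pow_right₀ hK1
        calc (n.primeFactors.filter (fun p => p < M)).card ≤ (Finset.range M).card := by
              apply Finset.card_le_card
              intro p hp
              rw [Finset.mem_filter] at hp
              exact Finset.mem_range.mpr hp.2
          _ = M := Finset.card_range M

/-- [T1] for every `ε > 0` there is `C` with `τ(n) ≤ C n^ε`. Proof. `τ(n)/n^ε = ∏ (a+1)/p^(a ε)`; the factors with `p ≥ 2^(1/ε)` are at most `1` (`a + 1 ≤ 2^a`), the others are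
bounded by a constant depending on `ε` only, and there are at most `2^(1/ε)` of them. -/
theorem tau_le (ε : ℝ) (hε : 0 < ε) : ∃ C : ℝ, 1 ≤ C ∧ ∀ n : ℕ, 1 ≤ n → (n.divisors.card : ℝ) ≤ C * (n : ℝ) ^ ε :=
  T1_card_divisors_le_rpow ε hε

theorem log_le (ε : ℝ) (hε : 0 < ε) : ∃ C : ℝ, 1 ≤ C ∧ ∀ n : ℕ, 1 ≤ n → (Nat.log 2 n : ℝ) + 2 ≤ C * (n : ℝ) ^ ε := by
  have hl2 : 0 < Real.log 2 := Real.log_pos (by norm_num)
  refine ⟨1 / (ε * Real.log 2) + 2, ?_, fun n hn => ?_⟩
  · have h1 : 0 ≤ 1 / (ε * Real.log 2) := by positivity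
    linarith
  · have hnR : (1 : ℝ) ≤ n := by exact_mod_cast hn
    have h1 : (Nat.log 2 n : ℝ) ≤ Real.logb 2 n := Real.natLog_le_logb n 2
    have h2 : Real.logb 2 n ≤ 1 / (ε * Real.log 2) * (n : ℝ) ^ ε := by
      rw [Real.logb]
      have h3 := Real.log_le_rpow_div (x := (n : ℝ)) (by linarith) hε
      rw [div_le_iff₀ hl2]
      refine h3.trans (le_of_eq ?_)
      field_simp
    have h3 : (1 : ℝ) ≤ (n : ℝ) ^ ε := Real.one_le_rpow hnR hε.le
    rw [add_mul]
    linarith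

/-- [T1b] `Loss` for a power of `X` -/
theorem loss_exists (ε : ℝ) (hε : 0 < ε) (m : ℕ) : ∃ C : ℝ, 2 ≤ C ∧ ∀ X : ℕ, 1 ≤ X →
    Loss (100 * (2048 * X) ^ m) (C * (X : ℝ) ^ ε) := by
  have hm : (0 : ℝ) < (m : ℝ) + 1 := by positivity
  have hε' : 0 < ε / (m + 1) := div_pos hε hm
  obtain ⟨C1, hC1, h1⟩ := tau_le (ε / (m + 1)) hε'
  obtain ⟨C2, hC2, h2⟩ := log_le (ε / (m + 1)) hε'
  set D : ℝ := ((100 * 2048 ^ m : ℕ) : ℝ) ^ (ε / (m + 1)) with hD
  have hD0 : 0 ≤ D := by positivity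
  refine ⟨2 + (C1 + C2) * D, ?_, fun X hX => ?_⟩
  · have : 0 ≤ (C1 + C2) * D := by positivity
    linarith
  · have hXR : (1 : ℝ) ≤ X := by exact_mod_cast hX
    have hX1 : (1 : ℝ) ≤ (X : ℝ) ^ ε := Real.one_le_rpow hXR hε.le
    have hV1 : 1 ≤ 100 * (2048 * X) ^ m := by
      have : 0 < (2048 * X) ^ m := Nat.pow_pos (by omega)
      omega
    have hVle : ((100 * (2048 * X) ^ m : ℕ) : ℝ) ^ (ε / (m + 1)) ≤ D * (X : ℝ) ^ ε := by
      have e1 : ((100 * (2048 * X) ^ m : ℕ) : ℝ) = ((100 * 2048 ^ m : ℕ) : ℝ) * (X : ℝ) ^ (m : ℝ) := by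
        rw [Real.rpow_natCast]
        push_cast
        ring
      rw [e1, Real.mul_rpow (by positivity) (by positivity), hD]
      refine mul_le_mul_of_nonneg_left ?_ (by positivity)
      rw [← Real.rpow_mul (by positivity)]
      refine Real.rpow_le_rpow_of_exponent_le hXR ?_
      rw [mul_div_assoc', div_le_iff₀ hm]
      nlinarith
    have key : ∀ C' : ℝ, 0 ≤ C' → C' ≤ C1 + C2 → ∀ n : ℕ, n ≤ 100 * (2048 * X) ^ m →
        C' * (n : ℝ) ^ (ε / (m + 1)) ≤ (2 + (C1 + C2) * D) * (X : ℝ) ^ ε := by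
      intro C' hC0 hC' n hn
      have hnR : (n : ℝ) ≤ ((100 * (2048 * X) ^ m : ℕ) : ℝ) := by exact_mod_cast hn
      have h3 : (n : ℝ) ^ (ε / (m + 1)) ≤ D * (X : ℝ) ^ ε :=
        (Real.rpow_le_rpow (by positivity) hnR hε'.le).trans hVle
      have h4 : C' * (n : ℝ) ^ (ε / (m + 1)) ≤ (C1 + C2) * (D * (X : ℝ) ^ ε) :=
        mul_le_mul hC' h3 (by positivity) (by positivity)
      nlinarith
    refine ⟨?_, ?_, ?_⟩
    · have : 0 ≤ (C1 + C2) * D := by positivity
      nlinarith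
    · intro n hn hnV
      exact (h1 n hn).trans (key C1 (by linarith) (by linarith) n hnV)
    · exact (h2 _ hV1).trans (key C2 (by linarith) (by linarith) _ le_rfl)

end Pool.Agent.TII
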