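import Pool.Agent.TII.T1
import Pool.Agent.TII.SM6a

/-!
# [TII-T2] the choice of the parameters
-/

set_option autoImplicit false

namespace Pool.Agent.TII

open Finset

private theorem T2_large (c δ : ℝ) (hδ : 0 < δ) : ∃ X0 : ℕ, ∀ X : ℕ, X0 ≤ X → c ≤ (X : ℝ) ^ δ := by
  have h1 := ((tendsto_rpow_atTop hδ).comp tendsto_natCast_atTop_atTop).eventually_ge_atTop c
  exact Filter.eventually_atTop.1 h1

private theorem T2_ceil (t : ℝ) (ht : 1 ≤ t) : t ≤ (⌈t⌉₊ : ℝ) ∧ (⌈t⌉₊ : ℝ) ≤ 2 * t := by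
  refine ⟨Nat.le_ceil t, ?_⟩
  have := (Nat.ceil_lt_add_one (by linarith : (0 : ℝ) ≤ t)).le
  linarith

/-- [T2] Proof. `z = e/1000`, `Z = ⌈X^z⌉`, `K = ⌈2500/e⌉` (so `(Z/4)^(2K) ≥ X^5/16^K ≥ (2N)^12` for large `X`), `m = max (4K) 100`, `V = 100 (2048 X)^m`;
`κ = min (e/10000) (e/(100 K)) / (10 (k + 2))` or smaller, `ε = κ/(100 (k + K + 2))`, `T = C X^ε` from `loss_exists`, `H = ⌈X^κ⌉`, `B = ⌈X^(κ/16)⌉`,
`ρ = (8000 T² (960 T)^(2K)/N)^(1/K)` (so `ρ ≤ C X^(4 ε - e/K)`). `T^k H^k B^4 (1/Z + √ρ + 1/√N) ≤ C X^(k ε + k κ + κ/4 - 100 κ..) ≤ C`, `T^k B^4 H √H ≤ C X^(k ε + κ/4 + 3κ/2) ≤ C X^(2κ - κ/8)`. -/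
theorem params (e : ℝ) (he : 0 < e) (he' : e < 1 / 3) (k : ℕ) : ∃ κ : ℝ, 0 < κ ∧ κ ≤ 1 / 100 ∧ ∃ C : ℝ, 0 < C ∧
    ∃ X0 : ℕ, ∀ X N : ℕ, X0 ≤ X → (X : ℝ) ^ e ≤ N → (N : ℝ) ≤ (X : ℝ) ^ (1 / 3 - e) →
      ∃ (H B Z V K : ℕ) (T ρ : ℝ), Big N H Z V X K T ρ ∧ (X : ℝ) ^ κ ≤ H ∧ (H : ℝ) ≤ 2 * (X : ℝ) ^ κ ∧
        (X : ℝ) ^ (κ / 16) ≤ B ∧ 100 ≤ B ∧ 100 * B * H ≤ N ∧
        T ^ k * (B : ℝ) ^ 4 * ((H : ℝ) ^ k * (1 / Z + Real.sqrt ρ + 1 / Real.sqrt N) + H * Real.sqrt H) ≤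
          C * (X : ℝ) ^ (2 * κ - κ / 8) := by
  have hz : 0 < e / 1000 := by positivity
  obtain ⟨K, hKdef⟩ : ∃ K : ℕ, K = ⌈2500 / e⌉₊ := ⟨_, rfl⟩
  have hKe : 2500 / e ≤ K := by
    rw [hKdef]
    exact Nat.le_ceil _
  have hK0 : (0 : ℝ) < K := lt_of_lt_of_le (by positivity) hKe
  have hK1 : 1 ≤ K := by
    have : 0 < K := by exact_mod_cast hK0
    omega
  have hK1' : (1 : ℝ) ≤ K := by exact_mod_cast hK1
  have hKe' : 2500 ≤ e * K := by
    rw [div_le_iff₀ he] at hKe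
    linarith
  set z : ℝ := e / 1000 with hzdef
  set κ : ℝ := e / (10000 * (k + 2) * K) with hκdef
  have hk0 : (0 : ℝ) ≤ k := Nat.cast_nonneg k
  have hκ : 0 < κ := by positivity
  have hκK : (k + 2) * κ = e / (10000 * K) := by
    rw [hκdef]
    field_simp
  have hκz : (k + 2) * κ ≤ e / 10000 := by
    rw [hκK]
    apply div_le_div_of_nonneg_left he.le (by norm_num)
    nlinarith
  have hκe : κ ≤ e / 20000 := by
    nlinarith
  have hκeK : (k + 2) * κ ≤ e / (2 * K) := by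
    rw [hκK]
    apply div_le_div_of_nonneg_left he.le (by positivity)
    nlinarith
  set ε : ℝ := κ / (100 * (k + 2)) with hεdef
  have hε : 0 < ε := by positivity
  have hεκ : (k + 2) * ε = κ / 100 := by
    rw [hεdef]
    field_simp
  have hεκ' : ε ≤ κ / 200 := by
    nlinarith
  obtain ⟨C1, hC1, hloss⟩ := loss_exists ε hε (max (4 * K) 100)
  have hC10 : 0 < C1 := by linarith
  obtain ⟨X1, hX1⟩ := T2_large (40000 * C1) (e / 200) (by positivity)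
  obtain ⟨X2, hX2⟩ := T2_large (2 ^ 20) z hz
  obtain ⟨X3, hX3⟩ := T2_large 100 (κ / 16) (by positivity)
  obtain ⟨X4, hX4⟩ := T2_large (4096 * 16 ^ K) 1 one_pos
  set c : ℝ := 8000 * 960 with hcdef
  refine ⟨κ, hκ, by linarith, C1 ^ k * 16 * (2 ^ k * (2 + c * C1 ^ 2) + 4), by positivity,
    max (max X1 X2) (max X3 (max X4 1)), ?_⟩
  intro X N hX hN1 hN2
  have hX1' := hX1 X (le_trans (by simp) hX)
  have hX2' := hX2 X (le_trans (by simp) hX)
  have hX3' := hX3 X (le_trans (by simp) hX)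
  have hX4' := hX4 X (le_trans (by simp) hX)
  have hX5' : 1 ≤ X := le_trans (by simp) hX
  rw [Real.rpow_one] at hX4'
  obtain ⟨x, hxdef⟩ : ∃ x : ℝ, x = (X : ℝ) := ⟨_, rfl⟩
  rw [← hxdef] at hX1' hX2' hX3' hX4' hN1 hN2 ⊢
  have hx1 : (1 : ℝ) ≤ x := by
    rw [hxdef]
    exact_mod_cast hX5'
  have hx0 : 0 < x := by linarith
  have hone : ∀ a : ℝ, 0 ≤ a → 1 ≤ x ^ a := fun a ha => Real.one_le_rpow hx1 ha
  have hmono : ∀ a b : ℝ, a ≤ b → x ^ a ≤ x ^ b := fun a b h => Real.rpow_le_rpow_of_exponent_le hx1 h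
  obtain ⟨hH1, hH2⟩ := T2_ceil (x ^ κ) (hone κ hκ.le)
  obtain ⟨hB1, hB2⟩ := T2_ceil (x ^ (κ / 16)) (hone _ (by positivity))
  obtain ⟨hZ1, hZ2⟩ := T2_ceil (x ^ z) (hone z hz.le)
  set H : ℕ := ⌈x ^ κ⌉₊
  set B : ℕ := ⌈x ^ (κ / 16)⌉₊
  set Z : ℕ := ⌈x ^ z⌉₊
  set T : ℝ := C1 * x ^ ε with hTdef
  have hT1 : 1 ≤ T := by
    have := hone ε hε.le
    nlinarith
  have hT0 : 0 < T := by linarith
  set D : ℝ := c * T ^ 2 * x ^ (-(e / (2 * K))) with hDdef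
  have hD0 : 0 ≤ D := by positivity
  have hN20 : (2 : ℝ) ^ 20 ≤ N := hX2'.trans ((hmono z e (by rw [hzdef]; linarith)).trans hN1)
  have hNpos : (0 : ℝ) < N := by linarith [show (0 : ℝ) < 2 ^ 20 by norm_num]
  have hH0 : (0 : ℝ) < H := lt_of_lt_of_le (by positivity) hH1
  have hZ0 : (0 : ℝ) < Z := lt_of_lt_of_le (by positivity) hZ1
  refine ⟨H, B, Z, 100 * (2048 * X) ^ (max (4 * K) 100), K, T, D ^ 2, ?_, hH1, hH2, hB1, ?_, ?_, ?_⟩
  · refine ⟨⟨?_, ?_, ?_, ?_, ?_⟩, ?_, ?_, hK1, ?_, ?_, by positivity, ?_⟩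
    · rw [hTdef, hxdef]
      exact hloss X hX5'
    · exact_mod_cast (hone κ hκ.le).trans hH1
    · have : (2 : ℝ) ≤ Z := le_trans (by norm_num) (hX2'.trans hZ1)
      exact_mod_cast this
    · have hNX : N ≤ X := by
        have h1 : (N : ℝ) ≤ x := by
          refine hN2.trans ?_
          calc x ^ (1 / 3 - e) ≤ x ^ (1 : ℝ) := hmono _ _ (by linarith)
            _ = x := Real.rpow_one x
        rw [hxdef] at h1
        exact_mod_cast h1
      calc N ^ 100 ≤ X ^ 100 := Nat.pow_le_pow_left hNX 100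
        _ ≤ (2048 * X) ^ 100 := Nat.pow_le_pow_left (by omega) 100
        _ ≤ (2048 * X) ^ (max (4 * K) 100) := Nat.pow_le_pow_right (by omega) (le_max_right _ _)
        _ ≤ 100 * (2048 * X) ^ (max (4 * K) 100) := by omega
    · have h1 : 10000 * T * H * Z ≤ x ^ (e / 100) := by
        calc 10000 * T * H * Z ≤ 10000 * T * (2 * x ^ κ) * (2 * x ^ z) := by gcongr
          _ = (40000 * C1) * (x ^ ε * x ^ κ * x ^ z) := by rw [hTdef]; ring
          _ ≤ x ^ (e / 200) * (x ^ ε * x ^ κ * x ^ z) := by gcongr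
          _ = x ^ (e / 200 + (ε + κ + z)) := by
            rw [Real.rpow_add hx0, Real.rpow_add hx0, Real.rpow_add hx0]
          _ ≤ x ^ (e / 100) := hmono _ _ (by rw [hzdef]; linarith)
      calc (10000 * T * H * Z) ^ 100 ≤ (x ^ (e / 100)) ^ 100 := by gcongr
        _ = x ^ e := by
          rw [← Real.rpow_natCast, ← Real.rpow_mul hx0.le]
          congr 1
          push_cast
          ring
        _ ≤ N := hN1
    · have : (2 : ℝ) ^ 20 ≤ Z := hX2'.trans hZ1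
      exact_mod_cast this
    · have h1 : 2 * (N : ℝ) ^ 3 * (Z : ℝ) ^ 3 ≤ X := by
        rw [← hxdef]
        calc 2 * (N : ℝ) ^ 3 * (Z : ℝ) ^ 3 ≤ 2 * (x ^ (1 / 3 - e)) ^ 3 * (2 * x ^ z) ^ 3 := by gcongr
          _ = 16 * ((x ^ (1 / 3 - e)) ^ 3 * (x ^ z) ^ 3) := by ring
          _ = 16 * x ^ (1 - 3 * e + 3 * z) := by
            rw [← Real.rpow_natCast (x ^ (1 / 3 - e)), ← Real.rpow_natCast (x ^ z),
              ← Real.rpow_mul hx0.le, ← Real.rpow_mul hx0.le, ← Real.rpow_add hx0]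
            congr 2
            push_cast
            ring
          _ ≤ x ^ z * x ^ (1 - 3 * e + 3 * z) := by
            have : (16 : ℝ) ≤ x ^ z := le_trans (by norm_num) hX2'
            gcongr
          _ = x ^ (z + (1 - 3 * e + 3 * z)) := by rw [← Real.rpow_add hx0]
          _ ≤ x ^ (1 : ℝ) := hmono _ _ (by rw [hzdef]; linarith)
          _ = x := Real.rpow_one x
      exact_mod_cast h1
    · have h1 : (2 * (N : ℝ)) ^ 12 * 4 ^ (2 * K) ≤ (Z : ℝ) ^ (2 * K) := by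
        have h2 : (N : ℝ) ^ 12 ≤ x ^ (4 : ℝ) := by
          calc (N : ℝ) ^ 12 ≤ (x ^ (1 / 3 - e)) ^ 12 := by gcongr
            _ = x ^ ((1 / 3 - e) * 12) := by
              rw [← Real.rpow_natCast, ← Real.rpow_mul hx0.le]
              norm_num
            _ ≤ x ^ (4 : ℝ) := hmono _ _ (by linarith)
        have h3 : x ^ (5 : ℝ) ≤ (Z : ℝ) ^ (2 * K) := by
          calc x ^ (5 : ℝ) ≤ x ^ (z * ((2 * K : ℕ) : ℝ)) := hmono _ _ (by
                push_cast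
                rw [hzdef]
                linarith)
            _ = (x ^ z) ^ (2 * K) := by rw [Real.rpow_mul hx0.le, Real.rpow_natCast]
            _ ≤ (Z : ℝ) ^ (2 * K) := by gcongr
        have h4 : (4 : ℝ) ^ (2 * K) = 16 ^ K := by
          rw [pow_mul]
          norm_num
        calc (2 * (N : ℝ)) ^ 12 * 4 ^ (2 * K) = (4096 * 16 ^ K) * (N : ℝ) ^ 12 := by rw [h4]; ring
          _ ≤ x * x ^ (4 : ℝ) := by gcongr
          _ = x ^ (5 : ℝ) := by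
            rw [show (5 : ℝ) = 1 + 4 by norm_num, Real.rpow_add hx0, Real.rpow_one]
          _ ≤ _ := h3
      exact_mod_cast h1
    · have : (2048 * X) ^ (4 * K) ≤ (2048 * X) ^ (max (4 * K) 100) :=
        Nat.pow_le_pow_right (by omega) (le_max_left _ _)
      omega
    · have h1 : (D ^ 2) ^ K = c ^ (2 * K) * T ^ (4 * K) * x ^ (-e) := by
        rw [← pow_mul, hDdef, mul_pow, mul_pow, ← pow_mul T, ← Real.rpow_natCast (x ^ _),
          ← Real.rpow_mul hx0.le]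
        congr 2
        · ring
        · push_cast
          field_simp
      have h2 : (N : ℝ) / 4 ≤ ((N : ℝ) - 1) / 2 := by linarith [show (2 : ℝ) ≤ 2 ^ 20 by norm_num]
      have h3 : 1 ≤ x ^ (-e) * N := by
        rw [Real.rpow_neg hx0.le, ← div_eq_inv_mul, le_div_iff₀ (by positivity), one_mul]
        exact hN1
      have h4 : T ^ 2 * T ^ (2 * K) ≤ T ^ (4 * K) := by
        rw [← pow_add]
        exact pow_le_pow_right₀ hT1 (by omega)
      have h5 : (8000 : ℝ) * 960 ^ (2 * K) ≤ c ^ (2 * K) := by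
        rw [hcdef, mul_pow]
        have : (8000 : ℝ) ≤ 8000 ^ (2 * K) := le_self_pow₀ (by norm_num) (by omega)
        gcongr
      calc 2000 * T ^ 2 * (960 * T) ^ (2 * K) = (8000 * 960 ^ (2 * K)) * (T ^ 2 * T ^ (2 * K)) / 4 := by
            rw [mul_pow]; ring
        _ ≤ c ^ (2 * K) * T ^ (4 * K) / 4 := by gcongr
        _ ≤ c ^ (2 * K) * T ^ (4 * K) / 4 * (x ^ (-e) * N) := le_mul_of_one_le_right (by positivity) h3
        _ = (c ^ (2 * K) * T ^ (4 * K) * x ^ (-e)) * ((N : ℝ) / 4) := by ring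
        _ ≤ (c ^ (2 * K) * T ^ (4 * K) * x ^ (-e)) * (((N : ℝ) - 1) / 2) := by gcongr
        _ = (D ^ 2) ^ K * (((N : ℝ) - 1) / 2) := by rw [h1]
  · have : (100 : ℝ) ≤ B := hX3'.trans hB1
    exact_mod_cast this
  · have h1 : 100 * (B : ℝ) * H ≤ N := by
      calc 100 * (B : ℝ) * H ≤ 100 * (2 * x ^ (κ / 16)) * (2 * x ^ κ) := by gcongr
        _ = 400 * (x ^ (κ / 16) * x ^ κ) := by ring
        _ ≤ x ^ z * (x ^ (κ / 16) * x ^ κ) := by
          have : (400 : ℝ) ≤ x ^ z := le_trans (by norm_num) hX2'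
          gcongr
        _ = x ^ (z + (κ / 16 + κ)) := by rw [Real.rpow_add hx0, Real.rpow_add hx0]
        _ ≤ x ^ e := hmono _ _ (by rw [hzdef]; linarith)
        _ ≤ N := hN1
    exact_mod_cast h1
  · have e1 : 1 / (Z : ℝ) ≤ x ^ (-((k + 1) * κ)) := by
      have h1 : (1 : ℝ) / Z ≤ x ^ (-z) := by
        rw [Real.rpow_neg hx0.le, one_div]
        gcongr
      exact h1.trans (hmono _ _ (by rw [hzdef]; nlinarith))
    have e2 : Real.sqrt (D ^ 2) ≤ c * C1 ^ 2 * x ^ (-((k + 1) * κ)) := by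
      rw [Real.sqrt_sq hD0, hDdef]
      have h1 : T ^ 2 = C1 ^ 2 * x ^ (2 * ε) := by
        rw [hTdef, mul_pow, ← Real.rpow_natCast (x ^ ε), ← Real.rpow_mul hx0.le]
        congr 2
        push_cast
        ring
      rw [h1]
      calc c * (C1 ^ 2 * x ^ (2 * ε)) * x ^ (-(e / (2 * K)))
          = c * C1 ^ 2 * (x ^ (2 * ε) * x ^ (-(e / (2 * K)))) := by ring
        _ = c * C1 ^ 2 * x ^ (2 * ε + -(e / (2 * K))) := by rw [← Real.rpow_add hx0]
        _ ≤ c * C1 ^ 2 * x ^ (-((k + 1) * κ)) := by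
          have := hmono (2 * ε + -(e / (2 * K))) (-((k + 1) * κ)) (by nlinarith)
          gcongr
    have e3 : 1 / Real.sqrt N ≤ x ^ (-((k + 1) * κ)) := by
      have h1 : x ^ (e / 2) ≤ Real.sqrt N := by
        apply Real.le_sqrt_of_sq_le
        rw [← Real.rpow_natCast, ← Real.rpow_mul hx0.le]
        refine le_trans (le_of_eq ?_) hN1
        congr 1
        push_cast
        ring
      have h2 : (1 : ℝ) / Real.sqrt N ≤ x ^ (-(e / 2)) := by
        rw [Real.rpow_neg hx0.le, one_div]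
        gcongr
      exact h2.trans (hmono _ _ (by nlinarith))
    have e4 : (H : ℝ) ^ k * (1 / Z + Real.sqrt (D ^ 2) + 1 / Real.sqrt N) ≤
        2 ^ k * (2 + c * C1 ^ 2) * x ^ (3 * κ / 2) := by
      calc (H : ℝ) ^ k * (1 / Z + Real.sqrt (D ^ 2) + 1 / Real.sqrt N)
          ≤ (2 * x ^ κ) ^ k * (x ^ (-((k + 1) * κ)) + c * C1 ^ 2 * x ^ (-((k + 1) * κ)) +
            x ^ (-((k + 1) * κ))) := by gcongr
        _ = 2 ^ k * (2 + c * C1 ^ 2) * ((x ^ κ) ^ k * x ^ (-((k + 1) * κ))) := by ring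
        _ = 2 ^ k * (2 + c * C1 ^ 2) * x ^ (-κ) := by
          rw [← Real.rpow_natCast (x ^ κ), ← Real.rpow_mul hx0.le, ← Real.rpow_add hx0]
          congr 2
          ring
        _ ≤ 2 ^ k * (2 + c * C1 ^ 2) * x ^ (3 * κ / 2) := by
          have := hmono (-κ) (3 * κ / 2) (by linarith)
          gcongr
    have e5 : (H : ℝ) * Real.sqrt H ≤ 4 * x ^ (3 * κ / 2) := by
      have h1 : Real.sqrt H ≤ 2 * x ^ (κ / 2) := by
        apply Real.sqrt_le_iff.2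
        refine ⟨by positivity, ?_⟩
        rw [mul_pow, ← Real.rpow_natCast (x ^ (κ / 2)), ← Real.rpow_mul hx0.le]
        have h2 : κ / 2 * ((2 : ℕ) : ℝ) = κ := by
          push_cast
          ring
        rw [h2]
        have := Real.rpow_pos_of_pos hx0 κ
        linarith
      calc (H : ℝ) * Real.sqrt H ≤ (2 * x ^ κ) * (2 * x ^ (κ / 2)) := by gcongr
        _ = 4 * (x ^ κ * x ^ (κ / 2)) := by ring
        _ = 4 * x ^ (3 * κ / 2) := by
          rw [← Real.rpow_add hx0]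
          congr 2
          ring
    calc T ^ k * (B : ℝ) ^ 4 * ((H : ℝ) ^ k * (1 / Z + Real.sqrt (D ^ 2) + 1 / Real.sqrt N) +
          H * Real.sqrt H)
        ≤ (C1 * x ^ ε) ^ k * (2 * x ^ (κ / 16)) ^ 4 * (2 ^ k * (2 + c * C1 ^ 2) * x ^ (3 * κ / 2) +
          4 * x ^ (3 * κ / 2)) := by gcongr
      _ = C1 ^ k * 16 * (2 ^ k * (2 + c * C1 ^ 2) + 4) *
          ((x ^ ε) ^ k * (x ^ (κ / 16)) ^ 4 * x ^ (3 * κ / 2)) := by ring
      _ = C1 ^ k * 16 * (2 ^ k * (2 + c * C1 ^ 2) + 4) * x ^ (ε * k + κ / 16 * 4 + 3 * κ / 2) := by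
        rw [← Real.rpow_natCast (x ^ ε), ← Real.rpow_natCast (x ^ (κ / 16)), ← Real.rpow_mul hx0.le,
          ← Real.rpow_mul hx0.le, ← Real.rpow_add hx0, ← Real.rpow_add hx0]
        norm_num
      _ ≤ C1 ^ k * 16 * (2 ^ k * (2 + c * C1 ^ 2) + 4) * x ^ (2 * κ - κ / 8) := by
        have := hmono (ε * k + κ / 16 * 4 + 3 * κ / 2) (2 * κ - κ / 8) (by nlinarith)
        gcongr

end Pool.Agent.TII
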