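import Pool.Agent.TII.T2
import Pool.Agent.TII.SM7
import Pool.Agent.TII.E5
import Pool.Agent.TII.D2

/-!
# [TII-T3] the Type II estimate
-/

set_option autoImplicit false

namespace Pool.Agent.TII

open Finset

/-- the real inequality behind `TII_large` -/
private theorem T3_real (x κ e Mr Nr Hr C₃ Kr Es : ℝ) (hx : 1 ≤ x) (hκ : 0 < κ) (hκ' : κ ≤ 1 / 100)
    (he : 0 < e) (hM : 0 < Mr) (hNr : 0 < Nr) (hN : Nr ≤ x ^ (1 / 3 - e))
    (hMN : x ^ (2 - κ / 32) ≤ Mr * Nr) (hH : x ^ κ ≤ Hr) (hC₃ : 0 ≤ C₃)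
    (hK : Kr ≤ C₃ * x ^ (2 + 2 * κ - κ / 8)) (hE0 : 0 ≤ Es)
    (hE : Es ^ 2 ≤ 100 * ((Mr * Nr) ^ 2 * (1 / Hr + x / Mr + 1 / x) +
      (Mr * Nr / Hr) * (x * Real.sqrt Kr))) :
    Es ≤ 10 * Real.sqrt (3 + Real.sqrt C₃) * x ^ (-(κ / 64)) * (Mr * Nr) := by
  have hx0 : 0 < x := by linarith
  have hP : 0 < Mr * Nr := mul_pos hM hNr
  have hHr : 0 < Hr := lt_of_lt_of_le (Real.rpow_pos_of_pos hx0 _) hH
  have hMx : x ^ (1 + κ) ≤ Mr := by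
    have h1 : x ^ (2 - κ / 32) ≤ Mr * x ^ (1 / 3 - e) :=
      hMN.trans (mul_le_mul_of_nonneg_left hN hM.le)
    have h2 : x ^ (1 + κ) * x ^ (1 / 3 - e) ≤ x ^ (2 - κ / 32) := by
      rw [← Real.rpow_add hx0]
      exact Real.rpow_le_rpow_of_exponent_le hx (by linarith)
    exact le_of_mul_le_mul_right (h2.trans h1) (Real.rpow_pos_of_pos hx0 _)
  have hmono : x ^ (-κ) ≤ x ^ (-(κ / 32)) :=
    Real.rpow_le_rpow_of_exponent_le hx (by linarith)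
  have hinvH : 1 / Hr ≤ x ^ (-κ) := by
    rw [Real.rpow_neg hx0.le, ← one_div]
    exact one_div_le_one_div_of_le (Real.rpow_pos_of_pos hx0 _) hH
  have h1 : x / Mr ≤ x ^ (-κ) := by
    rw [div_le_iff₀ hM]
    calc x = x ^ (-κ) * x ^ (1 + κ) := by
          rw [← Real.rpow_add hx0]
          conv_lhs => rw [← Real.rpow_one x]
          congr 1
          ring
      _ ≤ x ^ (-κ) * Mr := mul_le_mul_of_nonneg_left hMx (Real.rpow_nonneg hx0.le _)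
  have h2 : 1 / x ≤ x ^ (-κ) := by
    rw [one_div, ← Real.rpow_neg_one]
    exact Real.rpow_le_rpow_of_exponent_le hx (by linarith)
  have hsq : Real.sqrt Kr ≤ Real.sqrt C₃ * x ^ (1 + κ - κ / 16) := by
    have h3 : C₃ * x ^ (2 + 2 * κ - κ / 8) = C₃ * (x ^ (1 + κ - κ / 16)) ^ 2 := by
      congr 1
      rw [← Real.rpow_natCast (x ^ (1 + κ - κ / 16)) 2, ← Real.rpow_mul hx0.le]
      congr 1
      push_cast
      ring
    calc Real.sqrt Kr ≤ Real.sqrt (C₃ * x ^ (2 + 2 * κ - κ / 8)) := Real.sqrt_le_sqrt hK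
      _ = Real.sqrt C₃ * x ^ (1 + κ - κ / 16) := by
          rw [h3, Real.sqrt_mul hC₃, Real.sqrt_sq (Real.rpow_nonneg hx0.le _)]
  have h4 : (Mr * Nr / Hr) * (x * Real.sqrt Kr) ≤
      (Mr * Nr) ^ 2 * (Real.sqrt C₃ * x ^ (-(κ / 32))) := by
    have h5 : Mr * Nr / Hr ≤ Mr * Nr * x ^ (-κ) := by
      rw [div_eq_mul_one_div]
      exact mul_le_mul_of_nonneg_left hinvH hP.le
    have h6 : x * Real.sqrt Kr ≤ x * (Real.sqrt C₃ * x ^ (1 + κ - κ / 16)) :=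
      mul_le_mul_of_nonneg_left hsq hx0.le
    have h7 : x ^ (-κ) * (x * x ^ (1 + κ - κ / 16)) = x ^ (2 - κ / 32) * x ^ (-(κ / 32)) := by
      have h8 : x * x ^ (1 + κ - κ / 16) = x ^ (1 + (1 + κ - κ / 16)) := by
        rw [Real.rpow_add hx0, Real.rpow_one]
      rw [h8, ← Real.rpow_add hx0, ← Real.rpow_add hx0]
      congr 1
      ring
    calc (Mr * Nr / Hr) * (x * Real.sqrt Kr)
        ≤ (Mr * Nr * x ^ (-κ)) * (x * (Real.sqrt C₃ * x ^ (1 + κ - κ / 16))) :=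
          mul_le_mul h5 h6 (mul_nonneg hx0.le (Real.sqrt_nonneg _))
            (mul_nonneg hP.le (Real.rpow_nonneg hx0.le _))
      _ = Mr * Nr * Real.sqrt C₃ * (x ^ (-κ) * (x * x ^ (1 + κ - κ / 16))) := by ring
      _ = Mr * Nr * Real.sqrt C₃ * x ^ (-(κ / 32)) * x ^ (2 - κ / 32) := by rw [h7]; ring
      _ ≤ Mr * Nr * Real.sqrt C₃ * x ^ (-(κ / 32)) * (Mr * Nr) :=
          mul_le_mul_of_nonneg_left hMN (mul_nonneg (mul_nonneg hP.le (Real.sqrt_nonneg _))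
            (Real.rpow_nonneg hx0.le _))
      _ = (Mr * Nr) ^ 2 * (Real.sqrt C₃ * x ^ (-(κ / 32))) := by ring
  have h9 : (Mr * Nr) ^ 2 * (1 / Hr + x / Mr + 1 / x) ≤ (Mr * Nr) ^ 2 * (3 * x ^ (-(κ / 32))) :=
    mul_le_mul_of_nonneg_left (by linarith) (sq_nonneg _)
  have h10 : Es ^ 2 ≤ (10 * Real.sqrt (3 + Real.sqrt C₃) * x ^ (-(κ / 64)) * (Mr * Nr)) ^ 2 := by
    have h11 : (10 * Real.sqrt (3 + Real.sqrt C₃) * x ^ (-(κ / 64)) * (Mr * Nr)) ^ 2 =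
        100 * (Real.sqrt (3 + Real.sqrt C₃)) ^ 2 * (x ^ (-(κ / 64))) ^ 2 * (Mr * Nr) ^ 2 := by ring
    have h12 : (x ^ (-(κ / 64))) ^ 2 = x ^ (-(κ / 32)) := by
      rw [← Real.rpow_natCast (x ^ (-(κ / 64))) 2, ← Real.rpow_mul hx0.le]
      congr 1
      push_cast
      ring
    have h13 : (Real.sqrt (3 + Real.sqrt C₃)) ^ 2 = 3 + Real.sqrt C₃ :=
      Real.sq_sqrt (by positivity)
    rw [h11, h12, h13]
    calc Es ^ 2 ≤ 100 * ((Mr * Nr) ^ 2 * (3 * x ^ (-(κ / 32))) +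
          (Mr * Nr) ^ 2 * (Real.sqrt C₃ * x ^ (-(κ / 32)))) := by linarith
      _ = 100 * (3 + Real.sqrt C₃) * x ^ (-(κ / 32)) * (Mr * Nr) ^ 2 := by ring
  exact (pow_le_pow_iff_left₀ hE0 (by positivity) (by norm_num)).1 h10

/-- [T3a] for large `X`. Proof. `params` with the `k` of `SM`; `UU_second` with `S` = the bound of `SM`; so `K := C X^(2 + 2κ - κ/8)` in `dispersion`;
`(M N/H) X √K ≤ C M N X^(2 - κ/16) ≤ C (M N)² X^(η - κ/16)`, `η = κ/32`; `1/H + X/M + 1/X ≤ 3 X^(-κ)` (`M ≥ X^(2-η)/N ≥ X^(5/3)`). -/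
theorem TII_large (e : ℝ) (he : 0 < e) (he' : e < 1 / 3) : ∃ η δ C : ℝ, ∃ X0 : ℕ, 0 < η ∧ 0 < δ ∧ 0 < C ∧
    ∀ (X N M : ℕ) (α β : ℕ → ℝ), X0 ≤ X → (X : ℝ) ^ e ≤ N → (N : ℝ) ≤ (X : ℝ) ^ (1 / 3 - e) →
      (X : ℝ) ^ (2 - η) ≤ M * N → M * N ≤ X ^ 2 → (∀ m, |α m| ≤ 1) → (∀ n, |β n| ≤ 1) → (∀ n, β n ≠ 0 → n.Prime) →
      ∑ p ∈ prs X, |ES N M α β p| ≤ C * (X : ℝ) ^ (-δ) * (M * N) := by
  obtain ⟨C₁, k, hC₁, hSM⟩ := SM
  obtain ⟨κ, hκ, hκ', C₂, hC₂, X0, hpar⟩ := params e he he' k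
  have hC₃ : (0 : ℝ) < 10 ^ 7 * (C₁ * C₂ + 4) := by positivity
  refine ⟨κ / 32, κ / 64, 10 * Real.sqrt (3 + Real.sqrt (10 ^ 7 * (C₁ * C₂ + 4))), max X0 5,
    by positivity, by positivity, by positivity, ?_⟩
  intro X N M α β hX hXN hNX hMN hMN' hα hβ hβ'
  have hX0 : X0 ≤ X := le_trans (le_max_left _ _) hX
  have hX5 : 5 ≤ X := le_trans (le_max_right _ _) hX
  obtain ⟨H, B, Z, V, K, T, ρ, hBig, hH1, hH2, hB1, hB2, hBH, hbd⟩ := hpar X N hX0 hXN hNX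
  have hx5 : (5 : ℝ) ≤ X := by exact_mod_cast hX5
  have hx1 : (1 : ℝ) ≤ X := by linarith
  have hx0 : (0 : ℝ) < X := by linarith
  have hN0 : (0 : ℝ) < N := lt_of_lt_of_le (Real.rpow_pos_of_pos hx0 _) hXN
  have hN1 : 1 ≤ N := by
    have : 0 < N := by exact_mod_cast hN0
    exact this
  have hHpos : (0 : ℝ) < H := lt_of_lt_of_le (Real.rpow_pos_of_pos hx0 _) hH1
  have hHn : 1 ≤ H := hBig.par.hH
  have hMNpos : (0 : ℝ) < M * N := lt_of_lt_of_le (Real.rpow_pos_of_pos hx0 _) hMN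
  have hM0 : (0 : ℝ) < M := by
    rcases (Nat.cast_nonneg (α := ℝ) M).eq_or_lt with h | h
    · rw [← h, zero_mul] at hMNpos
      exact absurd hMNpos (lt_irrefl _)
    · exact h
  have h2N : 2 * N ≤ X := by
    refine le_trans ?_ hBig.hX
    have hZ1 : 1 ≤ Z ^ 3 := Nat.one_le_pow _ _ (le_trans (by norm_num) hBig.hZ)
    have hNN : N ≤ N ^ 3 := Nat.le_self_pow (by norm_num) N
    calc 2 * N = 2 * N * 1 := by ring
      _ ≤ 2 * N ^ 3 * Z ^ 3 := Nat.mul_le_mul (Nat.mul_le_mul_left 2 hNN) hZ1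
  have h4H : 4 * H ≤ N := by
    refine le_trans ?_ hBH
    exact Nat.mul_le_mul_right H (by omega)
  have hXM : X ≤ M := by
    have h1 : (X : ℝ) ^ (2 - κ / 32) ≤ M * (X : ℝ) ^ (1 / 3 - e) :=
      hMN.trans (mul_le_mul_of_nonneg_left hNX hM0.le)
    have h2 : (X : ℝ) * (X : ℝ) ^ (1 / 3 - e) ≤ (X : ℝ) ^ (2 - κ / 32) := by
      have h3 : (X : ℝ) * (X : ℝ) ^ (1 / 3 - e) = (X : ℝ) ^ (1 + (1 / 3 - e)) := by
        rw [Real.rpow_add hx0, Real.rpow_one]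
      rw [h3]
      exact Real.rpow_le_rpow_of_exponent_le hx1 (by linarith)
    have h3 : (X : ℝ) ≤ M :=
      le_of_mul_le_mul_right (h2.trans h1) (Real.rpow_pos_of_pos hx0 _)
    exact_mod_cast h3
  have hs : Esz X M N H B := ⟨hB2, hHn, hBH, hMN', h2N⟩
  have hUU := fun (DD : Finset (ℕ × ℕ)) (b : ℕ × ℕ → ℝ) (hD : ∀ p ∈ DD, Pair N H p.1 p.2)
    (hb : ∀ p, |b p| ≤ 1) => UU_second X M N H B hs (by omega) _
      (fun DD b W hc => hSM N H Z V X K T ρ DD b W hBig hc) DD b hD hb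
  have hdis := dispersion X N M H hX5 hN1 hHn h4H h2N hXM hMN' α β hα hβ hβ' _ hUU
  refine T3_real (X : ℝ) κ e M N H (10 ^ 7 * (C₁ * C₂ + 4)) _ _ hx1 hκ hκ' he hM0 hN0 hNX hMN hH1
    hC₃.le ?_ (Finset.sum_nonneg fun p _ => abs_nonneg _) hdis
  have hB0 : (0 : ℝ) < B := by
    have : 0 < B := by omega
    exact_mod_cast this
  have hxx : (X : ℝ) ^ (2 + 2 * κ - κ / 8) = (X : ℝ) ^ 2 * (X : ℝ) ^ (2 * κ - κ / 8) := by
    rw [← Real.rpow_natCast (X : ℝ) 2, ← Real.rpow_add hx0]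
    congr 1
    push_cast
    ring
  have hS1 : (B : ℝ) ^ 4 * (C₁ * T ^ k * ((X : ℝ) ^ 2 * ((H : ℝ) ^ k *
      (1 / Z + Real.sqrt ρ + 1 / Real.sqrt N) + H * Real.sqrt H))) ≤
        C₁ * C₂ * ((X : ℝ) ^ 2 * (X : ℝ) ^ (2 * κ - κ / 8)) := by
    calc (B : ℝ) ^ 4 * (C₁ * T ^ k * ((X : ℝ) ^ 2 * ((H : ℝ) ^ k *
          (1 / Z + Real.sqrt ρ + 1 / Real.sqrt N) + H * Real.sqrt H)))
        = C₁ * (X : ℝ) ^ 2 * (T ^ k * (B : ℝ) ^ 4 * ((H : ℝ) ^ k *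
          (1 / Z + Real.sqrt ρ + 1 / Real.sqrt N) + H * Real.sqrt H)) := by ring
      _ ≤ C₁ * (X : ℝ) ^ 2 * (C₂ * (X : ℝ) ^ (2 * κ - κ / 8)) :=
          mul_le_mul_of_nonneg_left hbd (by positivity)
      _ = C₁ * C₂ * ((X : ℝ) ^ 2 * (X : ℝ) ^ (2 * κ - κ / 8)) := by ring
  have hS2 : (X : ℝ) ^ 2 * (H : ℝ) ^ 2 / (B : ℝ) ^ 2 ≤
      4 * ((X : ℝ) ^ 2 * (X : ℝ) ^ (2 * κ - κ / 8)) := by
    have h5 : (H : ℝ) ^ 2 ≤ 4 * (X : ℝ) ^ (2 * κ) := by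
      calc (H : ℝ) ^ 2 ≤ (2 * (X : ℝ) ^ κ) ^ 2 := pow_le_pow_left₀ hHpos.le hH2 2
        _ = 4 * ((X : ℝ) ^ κ) ^ 2 := by ring
        _ = 4 * (X : ℝ) ^ (2 * κ) := by
            rw [← Real.rpow_natCast ((X : ℝ) ^ κ) 2, ← Real.rpow_mul hx0.le]
            congr 2
            push_cast
            ring
    have h6 : (X : ℝ) ^ (κ / 8) ≤ (B : ℝ) ^ 2 := by
      calc (X : ℝ) ^ (κ / 8) = ((X : ℝ) ^ (κ / 16)) ^ 2 := by
            rw [← Real.rpow_natCast ((X : ℝ) ^ (κ / 16)) 2, ← Real.rpow_mul hx0.le]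
            congr 1
            push_cast
            ring
        _ ≤ (B : ℝ) ^ 2 := pow_le_pow_left₀ (Real.rpow_nonneg hx0.le _) hB1 2
    rw [div_le_iff₀ (by positivity)]
    have h7 : (X : ℝ) ^ (2 * κ) = (X : ℝ) ^ (2 * κ - κ / 8) * (X : ℝ) ^ (κ / 8) := by
      rw [← Real.rpow_add hx0]
      congr 1
      ring
    calc (X : ℝ) ^ 2 * (H : ℝ) ^ 2 ≤ (X : ℝ) ^ 2 * (4 * (X : ℝ) ^ (2 * κ)) :=
          mul_le_mul_of_nonneg_left h5 (sq_nonneg _)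
      _ = 4 * ((X : ℝ) ^ 2 * (X : ℝ) ^ (2 * κ - κ / 8)) * (X : ℝ) ^ (κ / 8) := by rw [h7]; ring
      _ ≤ 4 * ((X : ℝ) ^ 2 * (X : ℝ) ^ (2 * κ - κ / 8)) * (B : ℝ) ^ 2 :=
          mul_le_mul_of_nonneg_left h6 (by positivity)
  rw [hxx]
  calc (10 : ℝ) ^ 7 * ((B : ℝ) ^ 4 * (C₁ * T ^ k * ((X : ℝ) ^ 2 * ((H : ℝ) ^ k *
          (1 / Z + Real.sqrt ρ + 1 / Real.sqrt N) + H * Real.sqrt H))) +
          (X : ℝ) ^ 2 * (H : ℝ) ^ 2 / (B : ℝ) ^ 2)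
      ≤ (10 : ℝ) ^ 7 * (C₁ * C₂ * ((X : ℝ) ^ 2 * (X : ℝ) ^ (2 * κ - κ / 8)) +
          4 * ((X : ℝ) ^ 2 * (X : ℝ) ^ (2 * κ - κ / 8))) :=
        mul_le_mul_of_nonneg_left (add_le_add hS1 hS2) (by norm_num)
    _ = 10 ^ 7 * (C₁ * C₂ + 4) * ((X : ℝ) ^ 2 * (X : ℝ) ^ (2 * κ - κ / 8)) := by ring

private theorem T3_triv (X N M : ℕ) (α β : ℕ → ℝ) (hα : ∀ m, |α m| ≤ 1) (hβ : ∀ n, |β n| ≤ 1) :
    ∑ p ∈ prs X, |ES N M α β p| ≤ X * (M * N) := by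
  have h1 : ∀ p ∈ prs X, |ES N M α β p| ≤ (M : ℝ) * N := by
    intro p hp
    have hp1 : (1 : ℝ) ≤ p := by
      unfold prs at hp
      rw [Finset.mem_filter] at hp
      exact_mod_cast hp.2.one_lt.le
    have hdd : ∀ m n : ℕ, |dd p m n| ≤ 1 := by
      intro m n
      have h2 : 0 < 1 / (p : ℝ) := by positivity
      have h3 : 1 / (p : ℝ) ≤ 1 := by
        rw [div_le_one (by linarith)]
        exact hp1
      unfold dd
      rw [abs_le]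
      split_ifs
      · constructor <;> linarith
      · constructor <;> linarith
    unfold ES
    calc |∑ m ∈ Ioc M (2 * M), ∑ n ∈ Ioc N (2 * N), α m * β n * dd p m n|
        ≤ ∑ m ∈ Ioc M (2 * M), |∑ n ∈ Ioc N (2 * N), α m * β n * dd p m n| :=
          Finset.abs_sum_le_sum_abs _ _
      _ ≤ ∑ m ∈ Ioc M (2 * M), (N : ℝ) := by
          refine Finset.sum_le_sum fun m _ => ?_
          calc |∑ n ∈ Ioc N (2 * N), α m * β n * dd p m n|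
              ≤ ∑ n ∈ Ioc N (2 * N), |α m * β n * dd p m n| := Finset.abs_sum_le_sum_abs _ _
            _ ≤ ∑ n ∈ Ioc N (2 * N), (1 : ℝ) := by
                refine Finset.sum_le_sum fun n _ => ?_
                rw [abs_mul, abs_mul]
                have h4 : |α m| * |β n| ≤ 1 := by
                  calc |α m| * |β n| ≤ 1 * 1 :=
                        mul_le_mul (hα m) (hβ n) (abs_nonneg _) (by norm_num)
                    _ = 1 := by norm_num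
                calc |α m| * |β n| * |dd p m n| ≤ 1 * 1 :=
                      mul_le_mul h4 (hdd m n) (abs_nonneg _) (by norm_num)
                  _ = 1 := by norm_num
            _ = (N : ℝ) := by
                rw [Finset.sum_const, Nat.card_Ioc, nsmul_eq_mul, mul_one]
                congr 1
                omega
      _ = (M : ℝ) * N := by
          rw [Finset.sum_const, Nat.card_Ioc, nsmul_eq_mul]
          congr 2
          omega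
  have hcard : ((prs X).card : ℝ) ≤ X := by
    have h2 : (prs X).card ≤ X := by
      unfold prs
      refine (Finset.card_filter_le _ _).trans ?_
      rw [Nat.card_Ioc]
      omega
    exact_mod_cast h2
  calc ∑ p ∈ prs X, |ES N M α β p| ≤ ∑ p ∈ prs X, ((M : ℝ) * N) := Finset.sum_le_sum h1
    _ = ((prs X).card : ℝ) * (M * N) := by rw [Finset.sum_const, nsmul_eq_mul]
    _ ≤ X * (M * N) := mul_le_mul_of_nonneg_right hcard (by positivity)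

/-- [T3b] THEOREM TII. Proof. `TII_large`; for `X < X0` trivially `|ES p| ≤ M N (1 + 1/p) ≤ 2 M N`, at most `X` primes, `X^(-δ) ≥ X0^(-δ)`. -/
theorem TII (e : ℝ) (he : 0 < e) (he' : e < 1 / 3) : ∃ η δ C : ℝ, 0 < η ∧ 0 < δ ∧ 0 < C ∧
    ∀ (X N M : ℕ) (α β : ℕ → ℝ), 2 ≤ X → (X : ℝ) ^ e ≤ N → (N : ℝ) ≤ (X : ℝ) ^ (1 / 3 - e) →
      (X : ℝ) ^ (2 - η) ≤ M * N → M * N ≤ X ^ 2 → (∀ m, |α m| ≤ 1) → (∀ n, |β n| ≤ 1) → (∀ n, β n ≠ 0 → n.Prime) →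
      ∑ p ∈ prs X, |ES N M α β p| ≤ C * (X : ℝ) ^ (-δ) * (M * N) := by
  obtain ⟨η, δ, C, X0, hη, hδ, hC, hl⟩ := TII_large e he he'
  refine ⟨η, δ, C + X0 * (X0 : ℝ) ^ δ, hη, hδ, by positivity, ?_⟩
  intro X N M α β hX hXN hNX hMN hMN' hα hβ hβ'
  have hx2 : (2 : ℝ) ≤ X := by exact_mod_cast hX
  have hx0 : (0 : ℝ) < X := by linarith
  have hMN0 : (0 : ℝ) ≤ M * N := by positivity
  have hxd : 0 < (X : ℝ) ^ (-δ) := Real.rpow_pos_of_pos hx0 _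
  by_cases hle : X0 ≤ X
  · refine (hl X N M α β hle hXN hNX hMN hMN' hα hβ hβ').trans ?_
    refine mul_le_mul_of_nonneg_right (mul_le_mul_of_nonneg_right ?_ hxd.le) hMN0
    have : 0 ≤ (X0 : ℝ) * (X0 : ℝ) ^ δ := by positivity
    linarith
  · rw [not_le] at hle
    have hlt : (X : ℝ) < X0 := by exact_mod_cast hle
    have hX00 : (0 : ℝ) < X0 := by linarith
    refine (T3_triv X N M α β hα hβ).trans ?_
    refine mul_le_mul_of_nonneg_right ?_ hMN0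
    have h1 : (X0 : ℝ) ^ (-δ) ≤ (X : ℝ) ^ (-δ) :=
      Real.rpow_le_rpow_of_nonpos hx0 hlt.le (by linarith)
    have h2 : (X0 : ℝ) = X0 * (X0 : ℝ) ^ δ * (X0 : ℝ) ^ (-δ) := by
      rw [mul_assoc, ← Real.rpow_add hX00, add_neg_cancel, Real.rpow_zero, mul_one]
    calc (X : ℝ) ≤ X0 := hlt.le
      _ = X0 * (X0 : ℝ) ^ δ * (X0 : ℝ) ^ (-δ) := h2
      _ ≤ X0 * (X0 : ℝ) ^ δ * (X : ℝ) ^ (-δ) := mul_le_mul_of_nonneg_left h1 (by positivity)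
      _ ≤ (C + X0 * (X0 : ℝ) ^ δ) * (X : ℝ) ^ (-δ) :=
          mul_le_mul_of_nonneg_right (by linarith) hxd.le

end Pool.Agent.TII
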